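import Pool.Agent.H52.Dir.Defs
import Pool.Agent.H64.BL.Defs

/-!
# Module Bas: basic facts about the connecting lines (linear space)
-/

set_option autoImplicit false

namespace H52.Dir

open Finset

variable {n : ℕ}

theorem det_eq (x y z : V) : det x y z =
    (x 1 * y 2 - x 2 * y 1) * z 0 + (x 2 * y 0 - x 0 * y 2) * z 1 +
      (x 0 * y 1 - x 1 * y 0) * z 2 := by
  simp [det, dot, crs]

theorem mem_ln {u : Fin n → V} {i j k : Fin n} : k ∈ ln u i j ↔ det (u i) (u j) (u k) = 0 := by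
  simp [ln]

theorem ln_left (u : Fin n → V) (i j : Fin n) : i ∈ ln u i j := by
  rw [mem_ln, det_eq]; ring

theorem ln_right (u : Fin n → V) (i j : Fin n) : j ∈ ln u i j := by
  rw [mem_ln, det_eq]; ring

theorem ln_mem (u : Fin n → V) {i j : Fin n} (h : i ≠ j) : ln u i j ∈ Ls u := by
  unfold Ls
  rw [mem_image]
  exact ⟨(i, j), by simp [h], rfl⟩

theorem mem_thr {u : Fin n → V} {i : Fin n} {l : Finset (Fin n)} :
    l ∈ thr u i ↔ l ∈ Ls u ∧ i ∈ l := by
  simp [thr]

/-- two vectors in a plane spanned by two independent ones span it -/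
theorem det_tr {a b x y z : V} (hx : det a b x = 0) (hy : det a b y = 0) (hz : det a b z = 0)
    (hab : crs a b ≠ 0) : det x y z = 0 := by
  have h0 : (a 1 * b 2 - a 2 * b 1) ≠ 0 ∨ (a 2 * b 0 - a 0 * b 2) ≠ 0 ∨
      (a 0 * b 1 - a 1 * b 0) ≠ 0 := by
    by_contra hcon
    push Not at hcon
    apply hab
    funext j
    fin_cases j
    · simpa [crs] using hcon.1
    · simpa [crs] using hcon.2.1
    · simpa [crs] using hcon.2.2
  rw [det_eq] at hx hy hz ⊢
  set p := a 1 * b 2 - a 2 * b 1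
  set q := a 2 * b 0 - a 0 * b 2
  set r := a 0 * b 1 - a 1 * b 0
  rcases h0 with h | h | h
  · apply mul_left_cancel₀ h
    linear_combination (y 1 * z 2 - y 2 * z 1) * hx + (z 1 * x 2 - z 2 * x 1) * hy +
      (x 1 * y 2 - x 2 * y 1) * hz
  · apply mul_left_cancel₀ h
    linear_combination (y 2 * z 0 - y 0 * z 2) * hx + (z 2 * x 0 - z 0 * x 2) * hy +
      (x 2 * y 0 - x 0 * y 2) * hz
  · apply mul_left_cancel₀ h
    linear_combination (y 0 * z 1 - y 1 * z 0) * hx + (z 0 * x 1 - z 1 * x 0) * hy +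
      (x 0 * y 1 - x 1 * y 0) * hz

theorem det_col {u : Fin n → V} (h : Cf u) {l : Finset (Fin n)} (hl : l ∈ Ls u) {i j k : Fin n}
    (hi : i ∈ l) (hj : j ∈ l) (hk : k ∈ l) : det (u i) (u j) (u k) = 0 := by
  unfold Ls at hl
  rw [mem_image] at hl
  obtain ⟨⟨a, b⟩, hab, rfl⟩ := hl
  simp only [mem_offDiag, mem_univ, true_and] at hab
  rw [mem_ln] at hi hj hk
  exact det_tr hi hj hk (h.ind a b hab)

theorem eq_ln {u : Fin n → V} (h : Cf u) {l : Finset (Fin n)} (hl : l ∈ Ls u) {i j : Fin n}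
    (hi : i ∈ l) (hj : j ∈ l) (hij : i ≠ j) : l = ln u i j := by
  ext k
  constructor
  · intro hk
    rw [mem_ln]
    exact det_col h hl hi hj hk
  · intro hk
    rw [mem_ln] at hk
    unfold Ls at hl
    rw [mem_image] at hl
    obtain ⟨⟨a, b⟩, hab, rfl⟩ := hl
    simp only [mem_offDiag, mem_univ, true_and] at hab
    rw [mem_ln] at hi hj ⊢
    have e1 : det (u i) (u j) (u a) = 0 :=
      det_tr hi hj (by rw [det_eq]; ring) (h.ind a b hab)
    have e2 : det (u i) (u j) (u b) = 0 :=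
      det_tr hi hj (by rw [det_eq]; ring) (h.ind a b hab)
    exact det_tr e1 e2 hk (h.ind i j hij)

theorem uniq {u : Fin n → V} (h : Cf u) {l l' : Finset (Fin n)} (hl : l ∈ Ls u) (hl' : l' ∈ Ls u)
    {i j : Fin n} (hij : i ≠ j) (hi : i ∈ l) (hj : j ∈ l) (hi' : i ∈ l') (hj' : j ∈ l') :
    l = l' := by
  rw [eq_ln h hl hi hj hij, eq_ln h hl' hi' hj' hij]

theorem two_le {u : Fin n → V} {l : Finset (Fin n)} (hl : l ∈ Ls u) : 2 ≤ l.card := by
  unfold Ls at hl
  rw [mem_image] at hl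
  obtain ⟨⟨a, b⟩, hab, rfl⟩ := hl
  simp only [mem_offDiag, mem_univ, true_and] at hab
  rw [← card_pair hab]
  apply card_le_card
  intro x hx
  rw [mem_insert, mem_singleton] at hx
  rcases hx with rfl | rfl
  · exact ln_left u _ _
  · exact ln_right u _ _

/-- the linear space of a configuration -/
noncomputable def sp {u : Fin n → V} (h : Cf u) : H64.BL.LinSp (Fin n) where
  L := Ls u
  two := fun _ hl => two_le hl
  ex := fun i j hij => ⟨ln u i j, ln_mem u hij, ln_left u i j, ln_right u i j⟩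
  uniq := fun _ hl _ hl' _ _ hij hi hj hi' hj' => uniq h hl hl' hij hi hj hi' hj'
  noncol := by
    intro l hl
    unfold Ls at hl
    rw [mem_image] at hl
    obtain ⟨⟨a, b⟩, hab, rfl⟩ := hl
    simp only [mem_offDiag, mem_univ, true_and] at hab
    obtain ⟨k, hk⟩ := h.non a b hab
    exact ⟨k, by rw [mem_ln]; exact hk⟩

/-- every other point is on exactly one line through `i` -/
theorem sum_thr {u : Fin n → V} (h : Cf u) (i : Fin n) (f : Fin n → ℝ) :
    ∑ l ∈ thr u i, ∑ k ∈ l.erase i, f k = ∑ k ∈ univ.erase i, f k := by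
  rw [← Finset.sum_biUnion]
  · apply sum_congr _ (fun _ _ => rfl)
    ext k
    simp only [mem_biUnion, mem_erase, mem_univ, and_true]
    constructor
    · rintro ⟨l, _, hk, _⟩; exact hk
    · intro hk
      exact ⟨ln u i k, mem_thr.2 ⟨ln_mem u (Ne.symm hk), ln_left u i k⟩, hk, ln_right u i k⟩
  · intro l hl l' hl' hne
    rw [mem_coe, mem_thr] at hl hl'
    rw [Function.onFun, disjoint_left]
    intro k hk hk'
    rw [mem_erase] at hk hk'
    exact hne (uniq h hl.1 hl'.1 (Ne.symm hk.1) hl.2 hk.2 hl'.2 hk'.2)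

theorem sum_swap (u : Fin n → V) (F : Fin n → Finset (Fin n) → ℝ) :
    ∑ i, ∑ l ∈ thr u i, F i l = ∑ l ∈ Ls u, ∑ i ∈ l, F i l := by
  unfold thr
  simp_rw [sum_filter]
  rw [sum_comm]
  apply sum_congr rfl
  intro l _
  rw [← sum_filter]
  congr 1
  ext i; simp

theorem sum_pair {u : Fin n → V} (h : Cf u) (f : Fin n → Fin n → ℝ) :
    ∑ l ∈ Ls u, ∑ i ∈ l, ∑ j ∈ l.erase i, f i j = ∑ i, ∑ j ∈ univ.erase i, f i j := by
  rw [← sum_swap u (fun i l => ∑ j ∈ l.erase i, f i j)]
  exact sum_congr rfl fun i _ => sum_thr h i (f i)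

theorem sum_card_thr {u : Fin n → V} (h : Cf u) (i : Fin n) :
    ∑ l ∈ thr u i, (l.card : ℝ) = n - 1 + (thr u i).card := by
  have h1 := sum_thr h i (fun _ => (1 : ℝ))
  simp only [sum_const, nsmul_eq_mul, mul_one] at h1
  have h2 : ∀ l ∈ thr u i, ((l.erase i).card : ℝ) = l.card - 1 := by
    intro l hl
    have h3 := (mem_thr.1 hl).2
    rw [card_erase_of_mem h3, Nat.cast_sub (card_pos.2 ⟨i, h3⟩)]
    simp
  rw [sum_congr rfl h2, sum_sub_distrib] at h1
  have h4 : (((univ : Finset (Fin n)).erase i).card : ℝ) = n - 1 := by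
    rw [card_erase_of_mem (mem_univ i), card_univ, Fintype.card_fin,
      Nat.cast_sub (by have := i.2; omega)]
    simp
  rw [h4] at h1
  simp only [sum_const, nsmul_eq_mul, mul_one] at h1
  linarith

theorem thr_card_le {u : Fin n → V} (h : Cf u) (i : Fin n) : ((thr u i).card : ℝ) + 1 ≤ n := by
  have h1 := sum_card_thr h i
  have h2 : ∑ l ∈ thr u i, (2 : ℝ) ≤ ∑ l ∈ thr u i, (l.card : ℝ) := by
    apply sum_le_sum
    intro l hl
    exact_mod_cast two_le (mem_thr.1 hl).1
  rw [sum_const, nsmul_eq_mul] at h2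
  linarith

/-- a point off a line is on at least as many lines as the line has points -/
theorem card_le_thr {u : Fin n → V} (h : Cf u) {l : Finset (Fin n)} (hl : l ∈ Ls u) {i : Fin n}
    (hi : i ∉ l) : l.card ≤ (thr u i).card := by
  apply card_le_card_of_injOn (fun k => ln u i k)
  · intro k hk
    rw [mem_coe] at hk
    have hik : i ≠ k := by rintro rfl; exact hi hk
    exact mem_coe.2 (mem_thr.2 ⟨ln_mem u hik, ln_left u i k⟩)
  · intro k hk k' hk' hkk
    rw [mem_coe] at hk hk'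
    by_contra hne
    have hik : i ≠ k := by rintro rfl; exact hi hk
    have h1 : k' ∈ ln u i k := by
      have : ln u i k = ln u i k' := hkk
      rw [this]; exact ln_right u i k'
    have h2 := uniq h (ln_mem u hik) hl hne (ln_right u i k) h1 hk hk'
    exact hi (h2 ▸ ln_left u i k)

theorem Good.line_le {u : Fin n → V} {ε : ℝ} (h : Good u ε) {l : Finset (Fin n)}
    (hl : l ∈ Ls u) : (l.card : ℝ) ≤ (1 / 3 + ε) * n := by
  obtain ⟨i, hi⟩ := (sp h.toCf).noncol l hl
  refine le_trans ?_ (h.T i)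
  exact_mod_cast card_le_thr h.toCf hl hi

theorem Good.mono {u : Fin n → V} {ε ε' : ℝ} (h : Good u ε) (hε : ε ≤ ε') : Good u ε' := by
  have hn : (0 : ℝ) ≤ n := Nat.cast_nonneg n
  refine ⟨h.toCf, ?_, ?_, ?_⟩
  · intro y hy
    exact le_trans (h.iso y hy) (mul_le_mul_of_nonneg_right hε hn)
  · intro i
    refine le_trans (h.T i) (mul_le_mul_of_nonneg_right (by linarith) hn)
  · exact le_trans h.big (mul_le_mul_of_nonneg_right hε hn)

end H52.Dir
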