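import Pool.Agent.H52.Dir.RST

/-!
# Module Beck (150 lines): a point whose lines in `F` are few sees (almost) one line only

PROOF. `C₁` the constant of `rst`, `C₂` of `st`. Let `0 < ρ ≤ 1`, `0 < κ ≤ ρ³ / C` and
`K = ⌊ρ / (4 κ)⌋₊`. For `C` large (`C ≥ 200 C₁`, `C ≥ 1024 C₁`, ...): `ρ / (4 κ) ≥ C / (4 ρ²) ≥ 50 C₁ / ρ²`,
so `K ≥ ρ / (8 κ)`, `K ≥ 2` and `K ≥ 16 C₁ / ρ² = C₁ / (ρ/4)²`.
`X₁` = the exceptional set of `rst` for `ρ / 4` and `K`: `|X₁| ≤ 16 C₁ n / (ρ² K²) ≤ 1024 C₁ κ² n / ρ⁴`.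
Very rich lines: `n < |l| K`. With `K' = n / K + 1` (natural division) `K' ≤ |l|` for every very rich
line, and `K' ≥ n / K` in the reals, so `st` gives at most `B := C₂ (n² K³ / n³ + n K / n) =
C₂ (K³ / n + K) ≤ 2 C₂ K` of them if `n ≥ K²` (and `K' ≥ 2`). `X₂` = points on two different very
rich lines: `|X₂| ≤ B² ≤ 4 C₂² K²` (two different lines have at most one common point, `uniq`),
and this is `≤ κ² n / ρ⁴` if `n ≥ N₀ := ⌈4 C₂² K² ρ⁴ / κ² + K² + 2⌉₊`. `X = X₁ ∪ X₂`.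
Let `p ∉ X`, `F ⊆ thr u p`, `|F| ≤ κ n`. Let `l₀` be the very rich line through `p` if there is one
(it is unique), else any line of `thr u p` (nonempty: `n ≥ 2`). The points of `⋃ F` not on `l₀`
are different from `p` and each is on a line `l ∈ F`, `l ≠ l₀`, so `l` is not very rich:
`|l| < K`: these lines have at most `|F| K ≤ κ n ρ / (4 κ) = ρ n / 4` points in total;
`K ≤ |l|`, `|l| K ≤ n`: at most `Σ (|l| - 1) < (ρ / 4) n` points different from `p`.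
So there are at most `ρ n` of them.
-/

set_option autoImplicit false

namespace H52.Dir

open Finset

/-- the points on two different lines of `R` -/
private theorem beck_two {n : ℕ} {u : Fin n → V} (h : Cf u) (R : Finset (Finset (Fin n)))
    (hR : R ⊆ Ls u) :
    (R.offDiag.biUnion (fun q => q.1 ∩ q.2)).card ≤ R.card * R.card := by
  classical
  refine (card_biUnion_le_card_mul _ _ 1 ?_).trans ?_
  · rintro ⟨l, l'⟩ hq
    rw [mem_offDiag] at hq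
    rw [card_le_one]
    intro a ha b hb
    by_contra hab
    simp only [mem_inter] at ha hb
    exact hq.2.2 (uniq h (hR hq.1) (hR hq.2.1) hab ha.1 hb.1 ha.2 hb.2)
  · rw [mul_one, offDiag_card]
    exact Nat.sub_le _ _

/-- few very rich lines -/
private theorem beck_rich {C₂ : ℝ} (hC₂ : 0 < C₂)
    (hst : ∀ (n : ℕ) (u : Fin n → V), Cf u → ∀ K : ℕ, 2 ≤ K →
      (((Ls u).filter (fun l => K ≤ l.card)).card : ℝ) ≤
        C₂ * ((n : ℝ) ^ 2 / (K : ℝ) ^ 3 + (n : ℝ) / K))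
    {n : ℕ} {u : Fin n → V} (h : Cf u) {K : ℕ} (hK : 2 ≤ K) (hn : K ^ 2 ≤ n) :
    (((Ls u).filter (fun l => n < l.card * K)).card : ℝ) ≤ 2 * C₂ * K := by
  have hK0 : 0 < K := by omega
  have hKn : K ≤ n := le_trans (by nlinarith) hn
  have hn0 : 0 < n := by omega
  set K' : ℕ := n / K + 1 with hK'
  have h2 : 2 ≤ K' := by
    have : 1 ≤ n / K := (Nat.one_le_div_iff hK0).2 hKn
    omega
  have hlt : n < K * K' := Nat.lt_mul_div_succ n hK0
  have h1 := hst n u h K' h2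
  have hsub : (Ls u).filter (fun l => n < l.card * K) ⊆ (Ls u).filter (fun l => K' ≤ l.card) := by
    intro l hl
    rw [mem_filter] at hl ⊢
    refine ⟨hl.1, ?_⟩
    have := (Nat.div_lt_iff_lt_mul hK0).2 hl.2
    omega
  have h3 : (((Ls u).filter (fun l => n < l.card * K)).card : ℝ) ≤
      C₂ * ((n : ℝ) ^ 2 / (K' : ℝ) ^ 3 + (n : ℝ) / K') :=
    le_trans (by exact_mod_cast card_le_card hsub) h1
  refine h3.trans ?_
  have hKr : (0 : ℝ) < K := by exact_mod_cast hK0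
  have hnr : (0 : ℝ) < n := by exact_mod_cast hn0
  have hK'r : (0 : ℝ) < K' := by exact_mod_cast (by omega : 0 < K')
  have hltr : (n : ℝ) ≤ K * K' := by exact_mod_cast hlt.le
  have h4 : (n : ℝ) / K' ≤ K := by
    rw [div_le_iff₀ hK'r]; exact hltr
  have h5 : (n : ℝ) ^ 2 / (K' : ℝ) ^ 3 ≤ K := by
    have e : (n : ℝ) ^ 2 / (K' : ℝ) ^ 3 = (n / K') ^ 3 / n := by
      field_simp
    have h6 : ((n : ℝ) / K') ^ 3 ≤ (K : ℝ) ^ 3 := pow_le_pow_left₀ (by positivity) h4 3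
    have h7 : (K : ℝ) ^ 2 ≤ n := by exact_mod_cast hn
    rw [e, div_le_iff₀ hnr]
    calc ((n : ℝ) / K') ^ 3 ≤ (K : ℝ) ^ 3 := h6
      _ = K * (K : ℝ) ^ 2 := by ring
      _ ≤ K * n := mul_le_mul_of_nonneg_left h7 hKr.le
  calc C₂ * ((n : ℝ) ^ 2 / (K' : ℝ) ^ 3 + (n : ℝ) / K') ≤ C₂ * ((K : ℝ) + K) :=
        mul_le_mul_of_nonneg_left (add_le_add h5 h4) hC₂.le
    _ = 2 * C₂ * K := by ring

theorem beck : ∃ C : ℝ, 1 ≤ C ∧ ∀ (ρ κ : ℝ), 0 < ρ → ρ ≤ 1 → 0 < κ → κ ≤ ρ ^ 3 / C →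
    ∃ N₀ : ℕ, ∀ (n : ℕ) (u : Fin n → V), N₀ ≤ n → Cf u → ∃ X : Finset (Fin n),
      (X.card : ℝ) ≤ C * κ ^ 2 / ρ ^ 4 * n ∧
      ∀ p, p ∉ X → ∀ F ⊆ thr u p, (F.card : ℝ) ≤ κ * n →
        ∃ l ∈ thr u p, (((F.biUnion id) \ l).card : ℝ) ≤ ρ * n := by
  classical
  obtain ⟨C₁, hC₁, hrst⟩ := rst
  obtain ⟨C₂, hC₂, hst⟩ := st
  refine ⟨1024 * C₁ + 1, by linarith, fun ρ κ hρ hρ1 hκ hκρ => ?_⟩
  set K : ℕ := ⌊ρ / (4 * κ)⌋₊ with hKdef
  have hρ2 : (0 : ℝ) < ρ ^ 2 := by positivity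
  have hx : (256 * C₁) / ρ ^ 2 ≤ ρ / (4 * κ) := by
    rw [le_div_iff₀ (by linarith)] at hκρ
    rw [div_le_div_iff₀ hρ2 (by positivity)]
    nlinarith
  have hinv : 1 ≤ 1 / ρ ^ 2 := by
    rw [le_div_iff₀ hρ2]; nlinarith
  have hC₁ρ : 1 / ρ ^ 2 ≤ C₁ / ρ ^ 2 := div_le_div_of_nonneg_right hC₁ hρ2.le
  have hx' : 256 * (C₁ / ρ ^ 2) ≤ ρ / (4 * κ) := by rw [← mul_div_assoc]; exact hx
  have hx0 : 0 ≤ ρ / (4 * κ) := by positivity
  have hKle : (K : ℝ) ≤ ρ / (4 * κ) := Nat.floor_le hx0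
  have hKlt : ρ / (4 * κ) < K + 1 := Nat.lt_floor_add_one _
  have hKge : ρ / (8 * κ) ≤ K := by
    have e : ρ / (8 * κ) = ρ / (4 * κ) / 2 := by
      field_simp; norm_num
    rw [e]
    linarith
  have hK16 : C₁ / (ρ / 4) ^ 2 ≤ K := by
    have e : C₁ / (ρ / 4) ^ 2 = 16 * (C₁ / ρ ^ 2) := by
      field_simp; norm_num
    rw [e]
    linarith
  have hK2r : (2 : ℝ) ≤ K := by
    have e : C₁ / (ρ / 4) ^ 2 = 16 * (C₁ / ρ ^ 2) := by
      field_simp; norm_num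
    rw [e] at hK16
    linarith
  have hK2 : 2 ≤ K := by exact_mod_cast hK2r
  refine ⟨⌈4 * C₂ ^ 2 * (K : ℝ) ^ 2 * ρ ^ 4 / κ ^ 2⌉₊ + K ^ 2 + 2, fun n u hn h => ?_⟩
  have hn1 : K ^ 2 ≤ n := by omega
  have hn2 : 2 ≤ n := by omega
  have hnr : (0 : ℝ) ≤ n := Nat.cast_nonneg n
  have hn3 : 4 * C₂ ^ 2 * (K : ℝ) ^ 2 * ρ ^ 4 / κ ^ 2 ≤ n := by
    refine (Nat.le_ceil _).trans ?_
    exact_mod_cast (by omega : ⌈4 * C₂ ^ 2 * (K : ℝ) ^ 2 * ρ ^ 4 / κ ^ 2⌉₊ ≤ n)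
  have h1 := hrst n u h (ρ / 4) K (by positivity) (by linarith) hK2 hK16
  set X₁ : Finset (Fin n) := (univ : Finset (Fin n)).filter (fun p => ρ / 4 * n ≤
      ∑ l ∈ (thr u p).filter (fun l => K ≤ l.card ∧ l.card * K ≤ n), ((l.card : ℝ) - 1)) with hX₁
  set R : Finset (Finset (Fin n)) := (Ls u).filter (fun l => n < l.card * K) with hR
  set X₂ : Finset (Fin n) := R.offDiag.biUnion (fun q => q.1 ∩ q.2) with hX₂
  have hRs : R ⊆ Ls u := filter_subset _ _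
  have h2 : (X₂.card : ℝ) ≤ κ ^ 2 / ρ ^ 4 * n := by
    have h3 : (X₂.card : ℝ) ≤ (R.card : ℝ) * R.card := by exact_mod_cast beck_two h R hRs
    have h4 : (R.card : ℝ) ≤ 2 * C₂ * K := beck_rich hC₂ hst h hK2 hn1
    have h5 : (R.card : ℝ) * R.card ≤ (2 * C₂ * K) * (2 * C₂ * K) :=
      mul_le_mul h4 h4 (Nat.cast_nonneg _) (by positivity)
    refine (h3.trans h5).trans ?_
    rw [div_le_iff₀ (by positivity)] at hn3
    rw [div_mul_eq_mul_div, le_div_iff₀ (by positivity)]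
    linarith
  have h1' : (X₁.card : ℝ) ≤ 1024 * C₁ * κ ^ 2 / ρ ^ 4 * n := by
    refine h1.trans ?_
    have hK0 : (0 : ℝ) < K := by linarith
    have hK8 : ρ ≤ 8 * κ * K := by
      rw [div_le_iff₀ (by positivity)] at hKge
      linarith
    have hsq : ρ ^ 2 ≤ (8 * κ * K) ^ 2 := pow_le_pow_left₀ hρ.le hK8 2
    have e1 : C₁ * n / ((ρ / 4) ^ 2 * (K : ℝ) ^ 2) = 16 * (C₁ * n) / (ρ ^ 2 * (K : ℝ) ^ 2) := by
      field_simp; norm_num
    rw [e1, div_mul_eq_mul_div, div_le_div_iff₀ (by positivity) (by positivity)]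
    have e2 : 16 * (C₁ * n) * ρ ^ 4 = (16 * C₁ * n * ρ ^ 2) * ρ ^ 2 := by ring
    have e3 : 1024 * C₁ * κ ^ 2 * n * (ρ ^ 2 * (K : ℝ) ^ 2) =
        (16 * C₁ * n * ρ ^ 2) * (8 * κ * K) ^ 2 := by ring
    rw [e2, e3]
    exact mul_le_mul_of_nonneg_left hsq (by positivity)
  refine ⟨X₁ ∪ X₂, ?_, ?_⟩
  · have h3 : ((X₁ ∪ X₂).card : ℝ) ≤ X₁.card + X₂.card := by exact_mod_cast card_union_le _ _
    refine h3.trans ((add_le_add h1' h2).trans (le_of_eq ?_))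
    ring
  · intro p hp F hF hFc
    rw [mem_union, not_or] at hp
    obtain ⟨hp1, hp2⟩ := hp
    -- the line `l₀`
    obtain ⟨l₀, hl₀, hl₀'⟩ : ∃ l₀ ∈ thr u p, ∀ l ∈ thr u p, l ≠ l₀ → l.card * K ≤ n := by
      by_cases hex : ∃ l ∈ thr u p, n < l.card * K
      · obtain ⟨l₀, hl₀, hrich⟩ := hex
        refine ⟨l₀, hl₀, fun l hl hne => ?_⟩
        by_contra hcon
        push Not at hcon
        apply hp2
        rw [hX₂, mem_biUnion]
        refine ⟨(l, l₀), ?_, ?_⟩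
        · rw [mem_offDiag]
          exact ⟨mem_filter.2 ⟨(mem_thr.1 hl).1, hcon⟩, mem_filter.2 ⟨(mem_thr.1 hl₀).1, hrich⟩, hne⟩
        · exact mem_inter.2 ⟨(mem_thr.1 hl).2, (mem_thr.1 hl₀).2⟩
      · push Not at hex
        obtain ⟨i, hi⟩ : ∃ i : Fin n, i ≠ p := by
          have : Nontrivial (Fin n) := Fin.nontrivial_iff_two_le.2 hn2
          exact exists_ne p
        exact ⟨ln u p i, mem_thr.2 ⟨ln_mem u (Ne.symm hi), ln_left u p i⟩,
          fun l hl _ => hex l hl⟩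
    refine ⟨l₀, hl₀, ?_⟩
    have hsub : (F.biUnion id) \ l₀ ⊆ (F.filter (fun l => l ≠ l₀)).biUnion (fun l => l.erase p) := by
      intro k hk
      rw [mem_sdiff, mem_biUnion] at hk
      obtain ⟨⟨l, hl, hkl⟩, hk0⟩ := hk
      rw [mem_biUnion]
      refine ⟨l, mem_filter.2 ⟨hl, ?_⟩, mem_erase.2 ⟨?_, hkl⟩⟩
      · rintro rfl; exact hk0 hkl
      · rintro rfl; exact hk0 (mem_thr.1 hl₀).2
    have hc1 : (((F.biUnion id) \ l₀).card : ℝ) ≤
        ∑ l ∈ F.filter (fun l => l ≠ l₀), ((l.card : ℝ) - 1) := by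
      have h3 : (((F.biUnion id) \ l₀).card : ℝ) ≤
          ∑ l ∈ F.filter (fun l => l ≠ l₀), ((l.erase p).card : ℝ) := by
        exact_mod_cast (card_le_card hsub).trans card_biUnion_le
      refine h3.trans (le_of_eq (sum_congr rfl fun l hl => ?_))
      have h4 := (mem_thr.1 (hF (mem_filter.1 hl).1)).2
      rw [card_erase_of_mem h4, Nat.cast_sub (card_pos.2 ⟨p, h4⟩)]
      simp
    have hc2 : ∑ l ∈ F.filter (fun l => l ≠ l₀), ((l.card : ℝ) - 1) ≤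
        ∑ l ∈ F, (K : ℝ) +
          ∑ l ∈ (thr u p).filter (fun l => K ≤ l.card ∧ l.card * K ≤ n), ((l.card : ℝ) - 1) := by
      rw [← sum_filter_add_sum_filter_not (F.filter (fun l => l ≠ l₀)) (fun l => l.card < K)]
      refine add_le_add ?_ ?_
      · have hs1 : (F.filter (fun l => l ≠ l₀)).filter (fun l => l.card < K) ⊆ F :=
          (filter_subset _ _).trans (filter_subset _ _)
        refine le_trans ?_ (sum_le_sum_of_subset_of_nonneg hs1 fun _ _ _ => Nat.cast_nonneg K)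
        refine sum_le_sum fun l hl => ?_
        have : (l.card : ℝ) < K := by exact_mod_cast (mem_filter.1 hl).2
        linarith
      · refine sum_le_sum_of_subset_of_nonneg ?_ ?_
        · intro l hl
          rw [mem_filter, mem_filter] at hl
          rw [mem_filter]
          exact ⟨hF hl.1.1, by omega, hl₀' l (hF hl.1.1) hl.1.2⟩
        · intro l hl _
          have : (2 : ℝ) ≤ l.card := by exact_mod_cast two_le (mem_thr.1 (mem_filter.1 hl).1).1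
          linarith
    have hc3 : ∑ l ∈ (thr u p).filter (fun l => K ≤ l.card ∧ l.card * K ≤ n),
        ((l.card : ℝ) - 1) < ρ / 4 * n := by
      by_contra hcon
      push Not at hcon
      exact hp1 (mem_filter.2 ⟨mem_univ p, hcon⟩)
    have hc4 : ∑ l ∈ F, (K : ℝ) ≤ ρ / 4 * n := by
      rw [sum_const, nsmul_eq_mul]
      have h5 : (F.card : ℝ) * K ≤ (κ * n) * (ρ / (4 * κ)) :=
        mul_le_mul hFc hKle (Nat.cast_nonneg _) (by positivity)
      have e : (κ * n) * (ρ / (4 * κ)) = ρ / 4 * n := by field_simp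
      linarith
    have hρn : 0 ≤ ρ * n := by positivity
    linarith

end H52.Dir
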