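import Pool.Agent.H52.Dir.Bas
import Pool.Agent.H47.DR.Defs

/-!
# Module Br (120 lines): bridge to the definitions of Pool/Agent/H47/DR

PROOF. Given `C : H47.DR.Cfg n` with `H47.DR.Good C ε`, `0 < ε < 1/3`, put `u i = fun j => C.u i j` (a vector of
`Fin 3 → ℝ`). `dot (u i) (u j) = ip (C.u i) (C.u j)` (`Fin.sum_univ_three`, real inner product). `unit`. `ind`:
`dot (crs x y) (crs x y) = dot x x * dot y y - (dot x y)² > 0` since `|ip| < 1`. The lines: for `i ≠ j` and the line
`l ∈ C.L` with `i, j ∈ l` (`ex`) with normal `ν` (`nu`): `ν` is orthogonal to `u i` and `u j`, so `ν` is a nonzero multiple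
of `crs (u i) (u j)` and `k ∈ l ↔ det (u i) (u j) (u k) = 0`, i.e. `l = ln u i j`. So `Ls u = C.L` (each `l ∈ C.L` has two
points, `two`) and `(thr u i).card = C.deg i`. `non`: `l = ln u i j` has at most `(1/3 + ε) n < n` points (`g4`; `n > 0` by
`g6`), so some `k` is not in it. `iso` from `g5` with `‖y‖ = 1`; `T` = `g1`; `big` = `g6`.
-/

set_option autoImplicit false

namespace H52.Dir

open Finset

private theorem Br_ip (x y : H47.DR.E) :
    dot (fun k => x k) (fun k => y k) = H47.DR.ip x y := by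
  simp only [dot, H47.DR.ip, PiLp.inner_apply, Fin.sum_univ_three]
  simp only [RCLike.inner_apply, conj_trivial]
  ring

private theorem Br_crs_ne {a b : V} (ha : dot a a = 1) (hb : dot b b = 1)
    (h : |dot a b| < 1) : crs a b ≠ 0 := by
  intro h0
  have e0 : (crs a b) 0 = 0 := by rw [h0]; rfl
  have e1 : (crs a b) 1 = 0 := by rw [h0]; rfl
  have e2 : (crs a b) 2 = 0 := by rw [h0]; rfl
  have f0 : a 1 * b 2 - a 2 * b 1 = 0 := by simpa [crs] using e0
  have f1 : a 2 * b 0 - a 0 * b 2 = 0 := by simpa [crs] using e1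
  have f2 : a 0 * b 1 - a 1 * b 0 = 0 := by simpa [crs] using e2
  have key : (a 1 * b 2 - a 2 * b 1) ^ 2 + (a 2 * b 0 - a 0 * b 2) ^ 2 +
      (a 0 * b 1 - a 1 * b 0) ^ 2 = dot a a * dot b b - (dot a b) ^ 2 := by
    simp only [dot]; ring
  rw [f0, f1, f2, ha, hb] at key
  have h1 : (dot a b) ^ 2 < 1 := by
    rw [← sq_abs]
    have := abs_nonneg (dot a b)
    nlinarith
  linarith

private theorem Br_det {a b ν x : V} (hν : dot ν ν = 1) (hA : dot a ν = 0) (hB : dot b ν = 0)
    (hc : crs a b ≠ 0) : det a b x = 0 ↔ dot x ν = 0 := by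
  set t := (a 1 * b 2 - a 2 * b 1) * ν 0 + (a 2 * b 0 - a 0 * b 2) * ν 1 +
    (a 0 * b 1 - a 1 * b 0) * ν 2 with ht
  simp only [dot] at hν hA hB
  have c0 : a 1 * b 2 - a 2 * b 1 = t * ν 0 := by
    rw [ht]
    linear_combination (-(a 1 * b 2 - a 2 * b 1)) * hν + (ν 1 * b 2 - ν 2 * b 1) * hA -
      (ν 1 * a 2 - ν 2 * a 1) * hB
  have c1 : a 2 * b 0 - a 0 * b 2 = t * ν 1 := by
    rw [ht]
    linear_combination (-(a 2 * b 0 - a 0 * b 2)) * hν + (ν 2 * b 0 - ν 0 * b 2) * hA -
      (ν 2 * a 0 - ν 0 * a 2) * hB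
  have c2 : a 0 * b 1 - a 1 * b 0 = t * ν 2 := by
    rw [ht]
    linear_combination (-(a 0 * b 1 - a 1 * b 0)) * hν + (ν 0 * b 1 - ν 1 * b 0) * hA -
      (ν 0 * a 1 - ν 1 * a 0) * hB
  have ht0 : t ≠ 0 := by
    intro h0
    rw [h0] at c0 c1 c2
    apply hc
    funext j
    fin_cases j
    · simpa [crs] using c0
    · simpa [crs] using c1
    · simpa [crs] using c2
  have hd : det a b x = t * dot x ν := by
    rw [det_eq, c0, c1, c2]
    simp only [dot]; ring
  rw [hd]
  constructor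
  · intro h
    rcases mul_eq_zero.1 h with h | h
    · exact absurd h ht0
    · exact h
  · intro h; rw [h, mul_zero]

theorem bridge {ε : ℝ} (hε : 0 < ε) (hε1 : ε < 1 / 3)
    (h : ∀ (n : ℕ) (u : Fin n → V), ¬ Good u ε) :
    ∀ (n : ℕ) (C : H47.DR.Cfg n), ¬ H47.DR.Good C ε := by
  classical
  intro n C hC
  set u : Fin n → V := fun i => fun k => C.u i k with hu
  have hdot : ∀ i j, dot (u i) (u j) = H47.DR.ip (C.u i) (C.u j) := fun i j => Br_ip _ _
  have hunit : ∀ i, dot (u i) (u i) = 1 := by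
    intro i
    rw [hdot]
    simp only [H47.DR.ip]
    rw [real_inner_self_eq_norm_sq, C.unit i]; norm_num
  have hind : ∀ i j, i ≠ j → crs (u i) (u j) ≠ 0 := by
    intro i j hij
    refine Br_crs_ne (hunit i) (hunit j) ?_
    rw [hdot]; exact C.indep i j hij
  have hline : ∀ l ∈ C.L, ∀ i j, i ≠ j → i ∈ l → j ∈ l → ln u i j = l := by
    intro l hl i j hij hi hj
    obtain ⟨ν, hν, hν'⟩ := C.nu l hl
    ext k
    rw [mem_ln, hν' k]
    have h1 := (Br_det (a := u i) (b := u j) (ν := fun k => ν k) (x := u k) ?_ ?_ ?_ (hind i j hij))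
    · rw [h1, Br_ip]
    · rw [Br_ip]
      simp only [H47.DR.ip]
      rw [real_inner_self_eq_norm_sq, hν]; norm_num
    · rw [Br_ip]; exact (hν' i).1 hi
    · rw [Br_ip]; exact (hν' j).1 hj
  have hLs : Ls u = C.L := by
    ext l
    unfold Ls
    rw [mem_image]
    constructor
    · rintro ⟨⟨i, j⟩, hij, rfl⟩
      simp only [mem_offDiag, mem_univ, true_and] at hij
      obtain ⟨l, hl, hi, hj⟩ := C.ex i j hij
      rw [hline l hl i j hij hi hj]
      exact hl
    · intro hl
      obtain ⟨i, hi, j, hj, hij⟩ := Finset.one_lt_card.1 (C.two l hl)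
      exact ⟨(i, j), by simp [hij], hline l hl i j hij hi hj⟩
  have hn0 : (0 : ℝ) < n := by
    have h1 := hC.g6
    by_contra hc
    push Not at hc
    have : ε * (n : ℝ) ≤ 0 := mul_nonpos_of_nonneg_of_nonpos hε.le hc
    linarith
  refine h n u ⟨⟨hunit, hind, ?_⟩, ?_, ?_, hC.g6⟩
  · intro i j hij
    obtain ⟨l, hl, hi, hj⟩ := C.ex i j hij
    have h4 := hC.g4 l hl
    have h5 : (l.card : ℝ) < n := by nlinarith
    have h6 : l ≠ univ := by
      intro h7
      rw [h7, card_univ, Fintype.card_fin] at h5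
      exact lt_irrefl _ h5
    obtain ⟨k, hk⟩ : ∃ k, k ∉ l := by
      by_contra hc
      push Not at hc
      exact h6 (Finset.eq_univ_iff_forall.2 hc)
    refine ⟨k, fun h0 => hk ?_⟩
    rw [← hline l hl i j hij hi hj, mem_ln]
    exact h0
  · intro y hy
    set y' : H47.DR.E := WithLp.toLp 2 y with hy'
    have e1 : ∀ i, dot (u i) y = H47.DR.ip (C.u i) y' := fun i => Br_ip (C.u i) y'
    have e2 : ‖y'‖ ^ 2 = 1 := by
      rw [← real_inner_self_eq_norm_sq]
      have h1 := Br_ip y' y'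
      have h2 : dot (fun k => y' k) (fun k => y' k) = 1 := hy
      rw [h2] at h1
      exact h1.symm
    have h1 := hC.g5 y'
    rw [e2, mul_one, mul_one] at h1
    rw [Finset.sum_congr rfl (fun i _ => by rw [e1 i])]
    exact h1
  · intro i
    have h1 := hC.g1 i
    have h2 : (thr u i).card = C.deg i := by
      unfold thr H47.DR.LS.deg
      rw [hLs]
    rw [h2]
    exact h1

end H52.Dir
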