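import Pool.Agent.H52.Dir.Bas

/-!
# Module Cht (100 lines): a planar chart with distinct abscissas

There are linear forms `f, g` with `f (u_i) ≠ 0` for all `i` and `g (u_i) f (u_j) ≠ g (u_j) f (u_i)`
for all `i ≠ j`. Put `x_i = g (u_i) / f (u_i)` and `y_i = k (u_i) / f (u_i)` where `f, g, k` are
independent.

PROOF (one convenient choice). For real `t` put `f = (1, t, t²)`. For a nonzero vector `w` the
number `w 0 + w 1 t + w 2 t²` is nonzero for all but finitely many `t` (a nonzero polynomial of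
degree at most 2). So choose `t` with `dot f (u_i) ≠ 0` for all `i` and `crs (crs (u_i) (u_j)) f ≠ 0`
for all `i ≠ j` (if the cross product of the nonzero vector `w = crs (u_i) (u_j)` with
`(1, t, t²)` vanishes, `w` is parallel to `(1, t, t²)`: for given `w` at most one `t`). Next
`g = (1, r, r²)`: `g(u_i) f(u_j) - g(u_j) f(u_i) = dot g (u_i f(u_j) - u_j f(u_i))` and
`u_i f(u_j) - u_j f(u_i) = ± crs f (crs (u_i) (u_j)) ≠ 0` (expand the triple product); so all but
finitely many `r` are good; choose also `r ≠ t`. `k = (0, 0, 1)` or any third vector independent of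
`f` and `g` (with `r ≠ t` the three vectors `(1,t,t²), (1,r,r²), (0,0,1)` are independent: the
determinant is `r - t`).
Then `det (u_i) (u_j) (u_k)` times the determinant of `(f, g, k)` is
`f(u_i) f(u_j) f(u_k) * det ((1, x_i, y_i), (1, x_j, y_j), (1, x_k, y_k))`, and the last determinant
vanishes iff `(x j - x i) * (y k - y i) = (x k - x i) * (y j - y i)`. This gives the field `col`
(with `eq_ln`, `mem_ln`: for `i ≠ j` in `l`: `k ∈ l ↔ det (u i) (u j) (u k) = 0`). The field `inj`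
follows from the distinct abscissas.
-/

set_option autoImplicit false

namespace H52.Dir

open Finset

variable {n : ℕ}

private theorem Cht_quad {w : V} (hw : w ≠ 0) : {t : ℝ | w 0 + w 1 * t + w 2 * t ^ 2 = 0}.Finite := by
  obtain ⟨p, hp⟩ : ∃ p : Polynomial ℝ, p = Polynomial.C (w 0) + Polynomial.C (w 1) * Polynomial.X +
    Polynomial.C (w 2) * Polynomial.X ^ 2 := ⟨_, rfl⟩
  have c0 : p.coeff 0 = w 0 := by
    rw [hp]
    simp
  have c1 : p.coeff 1 = w 1 := by
    rw [hp]
    simp [Polynomial.coeff_C]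
  have c2 : p.coeff 2 = w 2 := by
    rw [hp]
    simp
  have hp0 : p ≠ 0 := by
    intro h
    apply hw
    rw [h, Polynomial.coeff_zero] at c0 c1 c2
    funext i
    fin_cases i
    · exact c0.symm
    · exact c1.symm
    · exact c2.symm
  refine (p.roots.toFinset.finite_toSet).subset fun t ht => ?_
  rw [mem_coe, Multiset.mem_toFinset, Polynomial.mem_roots hp0, Polynomial.IsRoot.def, hp]
  have ht' : w 0 + w 1 * t + w 2 * t ^ 2 = 0 := ht
  simpa using ht'

private theorem Cht_crs {w : V} (hw : w ≠ 0) : {t : ℝ | crs w ![1, t, t ^ 2] = 0}.Finite := by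
  refine (Set.finite_singleton (w 1 / w 0)).subset fun t ht => ?_
  have ht' : crs w ![1, t, t ^ 2] = 0 := ht
  have h1 := congrFun ht' 1
  have h2 := congrFun ht' 2
  simp only [crs, Matrix.cons_val_zero, Matrix.cons_val_one, Matrix.cons_val, Pi.zero_apply] at h1 h2
  have hw0 : w 0 ≠ 0 := by
    intro h0
    apply hw
    rw [h0] at h1 h2
    funext i
    fin_cases i
    · exact h0
    · change w 1 = 0
      linarith
    · change w 2 = 0
      linarith
  rw [Set.mem_singleton_iff, eq_div_iff hw0]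
  linarith

private theorem Cht_bac (f a b : V) (j : Fin 3) :
    crs f (crs a b) j = a j * dot f b - b j * dot f a := by
  fin_cases j <;> simp [crs, dot] <;> ring

private theorem Cht_anti (a b : V) (j : Fin 3) : crs a b j = - crs b a j := by
  fin_cases j <;> simp [crs] <;> ring

private theorem Cht_frac {F1 F2 F3 : ℝ} (h1 : F1 ≠ 0) (h2 : F2 ≠ 0) (h3 : F3 ≠ 0)
    (G1 G2 G3 z1 z2 z3 : ℝ) :
    (G2 / F2 - G1 / F1) * (z3 / F3 - z1 / F1) - (G3 / F3 - G1 / F1) * (z2 / F2 - z1 / F1) =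
      (F1 * (G2 * z3 - G3 * z2) - G1 * (F2 * z3 - F3 * z2) + z1 * (F2 * G3 - F3 * G2)) /
        (F1 * F2 * F3) := by
  field_simp
  ring

theorem chart {u : Fin n → V} (h : Cf u) :
    ∃ c : H64.BL.Chart (sp h), Function.Injective c.x := by
  have hu0 : ∀ i, u i ≠ 0 := by
    intro i h0
    have h1 := h.unit i
    rw [h0] at h1
    simp [dot] at h1
  obtain ⟨t, ht1, ht2⟩ : ∃ t : ℝ, (∀ i, u i 0 + u i 1 * t + u i 2 * t ^ 2 ≠ 0) ∧
      ∀ i j, i ≠ j → crs (crs (u i) (u j)) ![1, t, t ^ 2] ≠ 0 := by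
    have f1 : (⋃ i : Fin n, {t : ℝ | u i 0 + u i 1 * t + u i 2 * t ^ 2 = 0}).Finite :=
      Set.finite_iUnion fun i => Cht_quad (hu0 i)
    have f2 : (⋃ i : Fin n, ⋃ j : Fin n, {t : ℝ | i ≠ j ∧ crs (crs (u i) (u j)) ![1, t, t ^ 2] = 0}).Finite := by
      refine Set.finite_iUnion fun i => Set.finite_iUnion fun j => ?_
      by_cases hij : i = j
      · refine Set.finite_empty.subset fun t ht => ht.1 hij
      · exact (Cht_crs (h.ind i j hij)).subset fun t ht => ht.2
    obtain ⟨t, ht⟩ := (f1.union f2).infinite_compl.nonempty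
    have ht' := (Set.mem_compl_iff _ _).1 ht
    rw [Set.mem_union, not_or] at ht'
    refine ⟨t, fun i hi => ht'.1 (Set.mem_iUnion.2 ⟨i, hi⟩), fun i j hij h0 => ht'.2 ?_⟩
    exact Set.mem_iUnion.2 ⟨i, Set.mem_iUnion.2 ⟨j, hij, h0⟩⟩
  obtain ⟨f, hf⟩ : ∃ f : V, f = ![1, t, t ^ 2] := ⟨_, rfl⟩
  have hfd : ∀ i, dot f (u i) = u i 0 + u i 1 * t + u i 2 * t ^ 2 := by
    intro i
    rw [hf]
    simp only [dot, Matrix.cons_val_zero, Matrix.cons_val_one, Matrix.cons_val]
    ring
  have hf0 : ∀ i, dot f (u i) ≠ 0 := fun i => by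
    rw [hfd]
    exact ht1 i
  rw [← hf] at ht2
  have hv : ∀ i j, i ≠ j → crs f (crs (u i) (u j)) ≠ 0 := by
    intro i j hij h0
    apply ht2 i j hij
    funext k
    rw [Cht_anti, h0]
    simp
  obtain ⟨r, hr1, hr2⟩ : ∃ r : ℝ, r ≠ t ∧ ∀ i j, i ≠ j →
      crs f (crs (u i) (u j)) 0 + crs f (crs (u i) (u j)) 1 * r +
        crs f (crs (u i) (u j)) 2 * r ^ 2 ≠ 0 := by
    have f2 : (⋃ i : Fin n, ⋃ j : Fin n, {r : ℝ | i ≠ j ∧ crs f (crs (u i) (u j)) 0 +
        crs f (crs (u i) (u j)) 1 * r + crs f (crs (u i) (u j)) 2 * r ^ 2 = 0}).Finite := by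
      refine Set.finite_iUnion fun i => Set.finite_iUnion fun j => ?_
      by_cases hij : i = j
      · refine Set.finite_empty.subset fun t ht => ht.1 hij
      · exact (Cht_quad (hv i j hij)).subset fun t ht => ht.2
    obtain ⟨r, hr⟩ := ((Set.finite_singleton t).union f2).infinite_compl.nonempty
    have hr' := (Set.mem_compl_iff _ _).1 hr
    rw [Set.mem_union, not_or] at hr'
    refine ⟨r, fun h0 => hr'.1 h0, fun i j hij h0 => hr'.2 ?_⟩
    exact Set.mem_iUnion.2 ⟨i, Set.mem_iUnion.2 ⟨j, hij, h0⟩⟩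
  obtain ⟨g, hg⟩ : ∃ g : V, g = ![1, r, r ^ 2] := ⟨_, rfl⟩
  have hgd : ∀ i, dot g (u i) = u i 0 + u i 1 * r + u i 2 * r ^ 2 := by
    intro i
    rw [hg]
    simp only [dot, Matrix.cons_val_zero, Matrix.cons_val_one, Matrix.cons_val]
    ring
  have hinj : ∀ i j, dot g (u i) / dot f (u i) = dot g (u j) / dot f (u j) → i = j := by
    intro i j hij
    by_contra hne
    apply hr2 i j hne
    rw [div_eq_div_iff (hf0 i) (hf0 j)] at hij
    rw [Cht_bac, Cht_bac, Cht_bac]
    rw [hgd, hgd] at hij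
    linear_combination hij
  have hkey : ∀ i j k, (dot g (u j) / dot f (u j) - dot g (u i) / dot f (u i)) *
      (u k 2 / dot f (u k) - u i 2 / dot f (u i)) -
      (dot g (u k) / dot f (u k) - dot g (u i) / dot f (u i)) *
      (u j 2 / dot f (u j) - u i 2 / dot f (u i)) =
      det (u i) (u j) (u k) * (r - t) / (dot f (u i) * dot f (u j) * dot f (u k)) := by
    intro i j k
    rw [Cht_frac (hf0 i) (hf0 j) (hf0 k)]
    congr 1
    rw [det_eq]
    simp only [hfd, hgd]
    ring
  refine ⟨⟨fun i => dot g (u i) / dot f (u i), fun i => u i 2 / dot f (u i), fun i j hx _ =>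
    hinj i j hx, ?_⟩, fun i j hx => hinj i j hx⟩
  intro ℓ hℓ i hi j hj hij k
  have hℓ' : ℓ ∈ Ls u := hℓ
  rw [eq_ln h hℓ' hi hj hij, mem_ln]
  have hk := hkey i j k
  constructor
  · intro h0
    rw [h0, zero_mul, zero_div] at hk
    exact sub_eq_zero.1 hk
  · intro h0
    rw [sub_eq_zero.2 h0] at hk
    have h1 := hk.symm
    rw [div_eq_zero_iff] at h1
    rcases h1 with h1 | h1
    · rcases mul_eq_zero.1 h1 with h2 | h2
      · exact h2
      · exact absurd (sub_eq_zero.1 h2) hr1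
    · exact absurd h1 (mul_ne_zero (mul_ne_zero (hf0 i) (hf0 j)) (hf0 k))

end H52.Dir
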