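import Pool.Agent.H52.Dir.Ker

/-!
# Module Cx (130 lines): lines with 2, 3 or 4 points and small `s u l`

PROOF. `three`: `w = -1 - z + e`, `‖e‖ ≤ δ`, `1 = ‖w‖² = ‖1 + z - e‖²`, `‖1 + z‖² = 2 + 2 Re z`, so
`|1 + 2 Re z| ≤ 4 δ + δ²`.
`four`: `(1+z)(1+w)(1+v) = 1 + e₁ + e₂ + e₃` with `e₁ = z + w + v = -1 + e`, `e₃ = z w v`,
`e₂ = e₃ conj e₁ = e₃ (-1 + conj e)` (unit complex numbers), so it is `e + e₃ conj e`, of norm
`≤ 2 δ`; so one factor has norm `≤ (2 δ)^{1/3}`, and `‖1+z‖² = 2 + 2 Re z`. (Or: if all three of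
`1 + Re ≥ η` then `‖1+z‖² ≥ 2 η`, so `(2 η)^3 ≤ 4 δ²`; choose `δ` with `4 δ² < (2 η)³`.)
`small_line`: as in module Ker (basis `y = u i`, `b` of the plane of `l`, `u k = α_k y + β_k b`) put
`z_k = (α_k + i β_k)²`: unit complex numbers, `z_i = 1`, `sq u l = ‖Σ_{k ∈ l} z_k‖²`,
`Re z_k = 2 (dot (u k) (u i))² - 1`. If `|l| = 2`: `‖1 + z‖ ≤ δ` gives `4 <u_i,u_j>² = ‖1 + z‖² ≤ δ²`.
If `|l| = 3`: `three` gives `|2 <u_i,u_j>² - 1/2| ≤ η`. If `|l| = 4`: `four` gives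
`2 <u_i,u_j>² ≤ η` for one of the `j`. (`two_le`: `2 ≤ |l| ≤ 4`.)
-/

set_option autoImplicit false

namespace H52.Dir

open Finset

variable {n : ℕ}

private theorem cx_sq {z : ℂ} (hz : ‖z‖ = 1) : ‖1 + z‖ ^ 2 = 2 + 2 * z.re := by
  have h1 : z.re ^ 2 + z.im ^ 2 = 1 := by
    have := Complex.sq_norm z
    rw [hz, Complex.normSq_apply] at this
    nlinarith
  rw [Complex.sq_norm, Complex.normSq_apply]
  simp only [Complex.add_re, Complex.one_re, Complex.add_im, Complex.one_im, zero_add]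
  nlinarith

theorem three (η : ℝ) (hη : 0 < η) : ∃ δ : ℝ, 0 < δ ∧ ∀ z w : ℂ, ‖z‖ = 1 → ‖w‖ = 1 →
    ‖1 + z + w‖ ≤ δ → |z.re + 1 / 2| ≤ η := by
  refine ⟨η / 2, by linarith, ?_⟩
  intro z w hz hw h
  have h1 := cx_sq hz
  have h2 : |‖1 + z‖ - 1| ≤ η / 2 := by
    have h3 := abs_norm_sub_norm_le (1 + z) (-w)
    rw [norm_neg, hw, sub_neg_eq_add] at h3
    exact le_trans h3 h
  have h4 : ‖1 + z‖ ≤ 2 := by
    calc ‖1 + z‖ ≤ ‖(1 : ℂ)‖ + ‖z‖ := norm_add_le _ _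
      _ = 2 := by rw [hz, norm_one]; norm_num
  have h5 : 0 ≤ ‖1 + z‖ := norm_nonneg _
  have h6 : |‖1 + z‖ ^ 2 - 1| ≤ η / 2 * 3 := by
    have : ‖1 + z‖ ^ 2 - 1 = (‖1 + z‖ - 1) * (‖1 + z‖ + 1) := by ring
    rw [this, abs_mul, abs_of_nonneg (by linarith : (0 : ℝ) ≤ ‖1 + z‖ + 1)]
    exact mul_le_mul h2 (by linarith) (by linarith) (by linarith)
  rw [h1] at h6
  rw [abs_le] at h6 ⊢
  constructor <;> linarith [h6.1, h6.2]

theorem four (η : ℝ) (hη : 0 < η) : ∃ δ : ℝ, 0 < δ ∧ ∀ z w v : ℂ, ‖z‖ = 1 → ‖w‖ = 1 → ‖v‖ = 1 →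
    ‖1 + z + w + v‖ ≤ δ → 1 + z.re ≤ η ∨ 1 + w.re ≤ η ∨ 1 + v.re ≤ η := by
  refine ⟨Real.sqrt (2 * η ^ 3), Real.sqrt_pos.2 (by positivity), ?_⟩
  intro z w v hz hw hv h
  by_contra hcon
  push Not at hcon
  obtain ⟨c1, c2, c3⟩ := hcon
  have hz' : z * (starRingEnd ℂ) z = 1 := by
    rw [Complex.mul_conj, Complex.normSq_eq_norm_sq, hz]; norm_num
  have hw' : w * (starRingEnd ℂ) w = 1 := by
    rw [Complex.mul_conj, Complex.normSq_eq_norm_sq, hw]; norm_num
  have hv' : v * (starRingEnd ℂ) v = 1 := by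
    rw [Complex.mul_conj, Complex.normSq_eq_norm_sq, hv]; norm_num
  have key : (1 + z) * (1 + w) * (1 + v) =
      (1 + z + w + v) + z * w * v * (starRingEnd ℂ) (1 + z + w + v) := by
    simp only [map_add, map_one]
    linear_combination (-(w * v)) * hz' - (z * v) * hw' - (z * w) * hv'
  have h1 : ‖(1 + z) * (1 + w) * (1 + v)‖ ≤ 2 * Real.sqrt (2 * η ^ 3) := by
    rw [key]
    refine le_trans (norm_add_le _ _) ?_
    rw [norm_mul, norm_mul, norm_mul, hz, hw, hv, RCLike.norm_conj]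
    linarith
  have h2 : ‖(1 + z) * (1 + w) * (1 + v)‖ ^ 2 ≤ 8 * η ^ 3 := by
    have h3 : ‖(1 + z) * (1 + w) * (1 + v)‖ ^ 2 ≤ (2 * Real.sqrt (2 * η ^ 3)) ^ 2 :=
      pow_le_pow_left₀ (norm_nonneg _) h1 2
    rw [mul_pow, Real.sq_sqrt (by positivity)] at h3
    linarith
  rw [norm_mul, norm_mul, mul_pow, mul_pow, cx_sq hz, cx_sq hw, cx_sq hv] at h2
  have g1 : 2 * η < 2 + 2 * z.re := by linarith
  have g2 : 2 * η < 2 + 2 * w.re := by linarith
  have g3 : 2 * η < 2 + 2 * v.re := by linarith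
  have g4 : (2 * η) * (2 * η) < (2 + 2 * z.re) * (2 + 2 * w.re) :=
    mul_lt_mul'' g1 g2 (by linarith) (by linarith)
  have g5 : (2 * η) * (2 * η) * (2 * η) <
      (2 + 2 * z.re) * (2 + 2 * w.re) * (2 + 2 * v.re) :=
    mul_lt_mul'' g4 g3 (by positivity) (by linarith)
  nlinarith

/-- the double angles of the points of a line -/
private theorem cx_rep {u : Fin n → V} (h : Cf u) {l : Finset (Fin n)} (hl : l ∈ Ls u) {i : Fin n}
    (hi : i ∈ l) : ∃ z : Fin n → ℂ, z i = 1 ∧ (∀ k ∈ l, ‖z k‖ = 1) ∧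
      (∀ k ∈ l, (z k).re = 2 * (dot (u i) (u k)) ^ 2 - 1) ∧ s u l = ‖∑ k ∈ l, z k‖ := by
  obtain ⟨j, hj, hji⟩ : ∃ j ∈ l, j ≠ i := by
    have h2 := two_le hl
    obtain ⟨j, hj, hj'⟩ := exists_mem_ne (by omega : 1 < l.card) i
    exact ⟨j, hj, hj'⟩
  set c : ℝ := dot (u i) (u j) with hc
  have hui := h.unit i
  have huj := h.unit j
  have hne := h.ind i j (Ne.symm hji)
  have hpos : 0 < 1 - c ^ 2 := by
    have h1 : 1 - c ^ 2 = (crs (u i) (u j) 0) ^ 2 + (crs (u i) (u j) 1) ^ 2 +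
        (crs (u i) (u j) 2) ^ 2 := by
      have h2 : dot (u i) (u i) * dot (u j) (u j) - dot (u i) (u j) ^ 2 =
          (crs (u i) (u j) 0) ^ 2 + (crs (u i) (u j) 1) ^ 2 + (crs (u i) (u j) 2) ^ 2 := by
        simp only [dot, crs, Matrix.cons_val_zero, Matrix.cons_val_one, Matrix.cons_val]
        ring
      rw [hui, huj, one_mul] at h2
      exact h2
    rw [h1]
    by_contra hneg
    push Not at hneg
    apply hne
    have q0 := sq_nonneg (crs (u i) (u j) 0)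
    have q1 := sq_nonneg (crs (u i) (u j) 1)
    have q2 := sq_nonneg (crs (u i) (u j) 2)
    have g0 : crs (u i) (u j) 0 = 0 :=
      pow_eq_zero_iff (two_ne_zero) |>.1 (le_antisymm (by linarith) q0)
    have g1 : crs (u i) (u j) 1 = 0 :=
      pow_eq_zero_iff (two_ne_zero) |>.1 (le_antisymm (by linarith) q1)
    have g2 : crs (u i) (u j) 2 = 0 :=
      pow_eq_zero_iff (two_ne_zero) |>.1 (le_antisymm (by linarith) q2)
    funext t
    fin_cases t
    · exact g0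
    · exact g1
    · exact g2
  set r : ℝ := Real.sqrt (1 - c ^ 2) with hr
  have hr2 : r ^ 2 = 1 - c ^ 2 := Real.sq_sqrt hpos.le
  have hr0 : 0 < r := Real.sqrt_pos.2 hpos
  set al : Fin n → ℝ := fun k => dot (u i) (u k) with hal
  set be : Fin n → ℝ := fun k => (dot (u j) (u k) - c * dot (u i) (u k)) / r with hbe
  have hdot : ∀ k ∈ l, ∀ k' ∈ l, dot (u k) (u k') = al k * al k' + be k * be k' := by
    intro k hk k' hk'
    have d1 := det_col h hl hi hj hk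
    have d2 := det_col h hl hi hj hk'
    have hG : (dot (u i) (u i) * dot (u j) (u j) - dot (u i) (u j) ^ 2) * dot (u k) (u k') =
        dot (u j) (u j) * (dot (u i) (u k) * dot (u i) (u k')) +
          dot (u i) (u i) * (dot (u j) (u k) * dot (u j) (u k')) -
          dot (u i) (u j) * (dot (u i) (u k) * dot (u j) (u k') +
            dot (u j) (u k) * dot (u i) (u k')) + det (u i) (u j) (u k) *
              det (u i) (u j) (u k') := by
      rw [det_eq, det_eq]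
      simp only [dot]
      ring
    rw [hui, huj, d1, d2, ← hc] at hG
    have hr' : r ≠ 0 := hr0.ne'
    simp only [hal, hbe]
    rw [div_mul_div_comm, ← pow_two, hr2, eq_comm, ← eq_sub_iff_add_eq', div_eq_iff hpos.ne']
    linear_combination (-1 : ℝ) * hG
  have hone : ∀ k ∈ l, al k ^ 2 + be k ^ 2 = 1 := by
    intro k hk
    have := hdot k hk k hk
    rw [h.unit k] at this
    linarith
  set z : Fin n → ℂ := fun k => ⟨al k ^ 2 - be k ^ 2, 2 * al k * be k⟩ with hz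
  have hre : ∀ k, (z k).re = al k ^ 2 - be k ^ 2 := fun k => rfl
  have him : ∀ k, (z k).im = 2 * al k * be k := fun k => rfl
  refine ⟨z, ?_, ?_, ?_, ?_⟩
  · have h1 : al i = 1 := hui
    have h2 : be i = 0 := by
      simp only [hbe]
      have : dot (u j) (u i) = c := by
        rw [hc]; simp only [dot]; ring
      rw [this, hui]
      simp
    apply Complex.ext
    · rw [hre, h1, h2]; norm_num
    · rw [him, h1, h2]; norm_num
  · intro k hk
    have h1 : ‖z k‖ ^ 2 = 1 := by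
      rw [Complex.sq_norm, Complex.normSq_apply, hre, him]
      have := hone k hk
      have h2 : (al k ^ 2 - be k ^ 2) * (al k ^ 2 - be k ^ 2) +
          2 * al k * be k * (2 * al k * be k) = (al k ^ 2 + be k ^ 2) ^ 2 := by ring
      rw [h2, this]; norm_num
    have h2 : 0 ≤ ‖z k‖ := norm_nonneg _
    nlinarith
  · intro k hk
    rw [hre]
    have := hone k hk
    simp only [hal] at this ⊢
    linarith
  · unfold s
    have h1 : sq u l = ‖∑ k ∈ l, z k‖ ^ 2 := by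
      rw [Complex.sq_norm, Complex.normSq_apply, Complex.re_sum, Complex.im_sum, sum_mul_sum,
        sum_mul_sum, ← sum_add_distrib]
      unfold sq
      refine sum_congr rfl fun k hk => ?_
      rw [← sum_add_distrib]
      refine sum_congr rfl fun k' hk' => ?_
      rw [hdot k hk k' hk', hre, hre, him, him]
      have e1 := hone k hk
      have e2 := hone k' hk'
      linear_combination (al k' ^ 2 + be k' ^ 2) * e1 + e2
    rw [h1, Real.sqrt_sq (norm_nonneg _)]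

theorem small_line (η : ℝ) (hη : 0 < η) : ∃ δ : ℝ, 0 < δ ∧ ∀ (n : ℕ) (u : Fin n → V), Cf u →
    ∀ l ∈ Ls u, ∀ i ∈ l, l.card ≤ 4 → s u l ≤ δ →
      ∃ j ∈ l, j ≠ i ∧ ((dot (u i) (u j)) ^ 2 ≤ η ∨ |(dot (u i) (u j)) ^ 2 - 1 / 4| ≤ η) := by
  obtain ⟨δ₃, h3, H3⟩ := three (2 * η) (by linarith)
  obtain ⟨δ₄, h4, H4⟩ := four (2 * η) (by linarith)
  refine ⟨min (min δ₃ δ₄) (Real.sqrt η), lt_min (lt_min h3 h4) (Real.sqrt_pos.2 hη), ?_⟩
  intro n u h l hl i hi hcard hs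
  obtain ⟨z, z1, z2, z3, z4⟩ := cx_rep h hl hi
  rw [z4] at hs
  have s3 : ‖∑ k ∈ l, z k‖ ≤ δ₃ := le_trans hs (le_trans (min_le_left _ _) (min_le_left _ _))
  have s4 : ‖∑ k ∈ l, z k‖ ≤ δ₄ := le_trans hs (le_trans (min_le_left _ _) (min_le_right _ _))
  have s2 : ‖∑ k ∈ l, z k‖ ≤ Real.sqrt η := le_trans hs (min_le_right _ _)
  have hsum : ∑ k ∈ l, z k = 1 + ∑ k ∈ l.erase i, z k := by
    rw [← add_sum_erase l z hi, z1]
  rw [hsum] at s2 s3 s4
  have hc2 := two_le hl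
  have hce : (l.erase i).card = l.card - 1 := card_erase_of_mem hi
  have hcases : (l.erase i).card = 1 ∨ (l.erase i).card = 2 ∨ (l.erase i).card = 3 := by omega
  rcases hcases with hc | hc | hc
  · obtain ⟨j, hj⟩ := card_eq_one.1 hc
    have hjl : j ∈ l.erase i := by rw [hj]; exact mem_singleton_self j
    rw [mem_erase] at hjl
    refine ⟨j, hjl.2, hjl.1, Or.inl ?_⟩
    rw [hj, sum_singleton] at s2
    have e1 := cx_sq (z2 j hjl.2)
    have e2 : ‖1 + z j‖ ^ 2 ≤ η := by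
      have := pow_le_pow_left₀ (norm_nonneg _) s2 2
      rwa [Real.sq_sqrt hη.le] at this
    rw [e1, z3 j hjl.2] at e2
    nlinarith [sq_nonneg (dot (u i) (u j))]
  · obtain ⟨a, b, hab, hj⟩ := card_eq_two.1 hc
    have hal : a ∈ l.erase i := by rw [hj]; simp
    have hbl : b ∈ l.erase i := by rw [hj]; simp
    rw [mem_erase] at hal hbl
    refine ⟨a, hal.2, hal.1, Or.inr ?_⟩
    rw [hj, Finset.sum_pair hab, ← add_assoc] at s3
    have e1 := H3 (z a) (z b) (z2 a hal.2) (z2 b hbl.2) s3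
    rw [z3 a hal.2] at e1
    rw [abs_le] at e1 ⊢
    constructor <;> linarith [e1.1, e1.2]
  · obtain ⟨a, b, c, hab, hac, hbc, hj⟩ := card_eq_three.1 hc
    have hal : a ∈ l.erase i := by rw [hj]; simp
    have hbl : b ∈ l.erase i := by rw [hj]; simp
    have hcl : c ∈ l.erase i := by rw [hj]; simp
    rw [mem_erase] at hal hbl hcl
    have e0 : 1 + ∑ k ∈ l.erase i, z k = 1 + z a + z b + z c := by
      rw [hj, sum_insert (by simp [hab, hac]), sum_insert (by simp [hbc]), sum_singleton]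
      ring
    rw [e0] at s4
    rcases H4 (z a) (z b) (z c) (z2 a hal.2) (z2 b hbl.2) (z2 c hcl.2) s4 with e | e | e
    · refine ⟨a, hal.2, hal.1, Or.inl ?_⟩
      rw [z3 a hal.2] at e
      linarith
    · refine ⟨b, hbl.2, hbl.1, Or.inl ?_⟩
      rw [z3 b hbl.2] at e
      linarith
    · refine ⟨c, hcl.2, hcl.1, Or.inl ?_⟩
      rw [z3 c hcl.2] at e
      linarith

end H52.Dir
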