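import Mathlib

/-!
# Dirac problem beyond n/3 (MP_5c92e3_co): definitions

Points of the real projective plane are unit vectors of `V = Fin 3 → ℝ` (up to sign).
`ln u i j`: the connecting line of the points `i, j`; `Ls u`: all connecting lines (as sets of
indices); `thr u i`: the connecting lines through `i`.
`sq u l = Σ_{i, j ∈ l} (2 <u_i, u_j>² - 1) = |Σ_{i ∈ l} e^{2 i θ_i}|²`, `s u l` its square root.
-/

set_option autoImplicit false

namespace H52.Dir

open Finset

/-- real three-space -/
abbrev V := Fin 3 → ℝ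

/-- the dot product -/
def dot (x y : V) : ℝ := x 0 * y 0 + x 1 * y 1 + x 2 * y 2

/-- the cross product -/
def crs (x y : V) : V :=
  ![x 1 * y 2 - x 2 * y 1, x 2 * y 0 - x 0 * y 2, x 0 * y 1 - x 1 * y 0]

/-- the determinant -/
def det (x y z : V) : ℝ := dot (crs x y) z

variable {n : ℕ}

open Classical in
/-- the connecting line of `i` and `j` -/
noncomputable def ln (u : Fin n → V) (i j : Fin n) : Finset (Fin n) :=
  univ.filter (fun k => det (u i) (u j) (u k) = 0)

/-- the connecting lines -/
noncomputable def Ls (u : Fin n → V) : Finset (Finset (Fin n)) :=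
  (univ : Finset (Fin n)).offDiag.image (fun q => ln u q.1 q.2)

/-- the connecting lines through `i` -/
noncomputable def thr (u : Fin n → V) (i : Fin n) : Finset (Finset (Fin n)) :=
  (Ls u).filter (fun l => i ∈ l)

/-- `|Σ_{i ∈ l} e^{2 i θ_i}|²` -/
noncomputable def sq (u : Fin n → V) (l : Finset (Fin n)) : ℝ :=
  ∑ i ∈ l, ∑ j ∈ l, (2 * (dot (u i) (u j)) ^ 2 - 1)

/-- `|Σ_{i ∈ l} e^{2 i θ_i}|` -/
noncomputable def s (u : Fin n → V) (l : Finset (Fin n)) : ℝ := Real.sqrt (sq u l)

/-- a configuration: unit vectors, pairwise independent, not all on one line -/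
structure Cf (u : Fin n → V) : Prop where
  unit : ∀ i, dot (u i) (u i) = 1
  ind : ∀ i j, i ≠ j → crs (u i) (u j) ≠ 0
  non : ∀ i j, i ≠ j → ∃ k, det (u i) (u j) (u k) ≠ 0

/-- a configuration in nearly isotropic position all of whose points are on at most
`(1/3 + ε) n` connecting lines -/
structure Good (u : Fin n → V) (ε : ℝ) : Prop extends Cf u where
  iso : ∀ y : V, dot y y = 1 → |∑ i, (dot (u i) y) ^ 2 - (n : ℝ) / 3| ≤ ε * n
  T : ∀ i, ((thr u i).card : ℝ) ≤ (1 / 3 + ε) * n
  big : 1 ≤ ε * n

/-- a typical point: the sum of `s u l` over its lines is small and it is on about `n/3` lines -/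
def Typ (u : Fin n → V) (ε : ℝ) (i : Fin n) : Prop :=
  ∑ l ∈ thr u i, s u l ≤ ε * n ∧ (1 / 3 - ε) * n ≤ ((thr u i).card : ℝ)

/-- an orthonormal frame -/
def Orth (g : Fin 3 → V) : Prop := ∀ i j, dot (g i) (g j) = if i = j then 1 else 0

/-- coordinates with respect to a frame -/
def rot (g : Fin 3 → V) (x : V) : V := fun j => dot (g j) x

end H52.Dir
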