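import Pool.Agent.H52.Dir.Main
import Pool.Agent.H52.Dir.Br
import Pool.Agent.H47.DR.Final

/-!
# Module Fin: Dirac's problem beyond n/3
-/

set_option autoImplicit false

namespace H52.Dir

open Finset

theorem dirac : ∃ ε : ℝ, 0 < ε ∧ ∀ P : Finset (EuclideanSpace ℝ (Fin 2)),
    ¬ Collinear ℝ (P : Set (EuclideanSpace ℝ (Fin 2))) →
    ∃ p ∈ P, (1 / 3 + ε) * (P.card : ℝ) ≤
      (({L : AffineSubspace ℝ (EuclideanSpace ℝ (Fin 2)) |
          ∃ q ∈ P, q ≠ p ∧ L = affineSpan ℝ {p, q}}.ncard : ℕ) : ℝ) := by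
  obtain ⟨ε, hε, hmain⟩ := main
  apply H47.DR.final
  refine ⟨min ε (1 / 4), lt_min hε (by norm_num), ?_⟩
  apply bridge (lt_min hε (by norm_num)) (lt_of_le_of_lt (min_le_right _ _) (by norm_num))
  intro n u h
  exact hmain n u (h.mono (min_le_left _ _))

end H52.Dir
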