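import Pool.Agent.H52.Dir.FrG

/-!
# Frame configurations: definitions

`Cl u ω j`: the cluster near the axis `j`. `lmt u ω b p`: the lines through `p` that meet `Cl u ω b`.
`pn u ω a b p`: the points `q ≠ p` of `Cl u ω a` such that the line `pq` meets `Cl u ω b`.
`Fr u ω σ Ty`: each cluster has about `n/3` points; `Ty` = typical points.
-/

set_option autoImplicit false

namespace H52.Dir

open Finset

variable {n : ℕ}

open Classical in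
noncomputable def Cl (u : Fin n → V) (ω : ℝ) (j : Fin 3) : Finset (Fin n) :=
  univ.filter (fun i => 1 - ω ≤ (u i j) ^ 2)

open Classical in
noncomputable def lmt (u : Fin n → V) (ω : ℝ) (b : Fin 3) (p : Fin n) : Finset (Finset (Fin n)) :=
  (thr u p).filter (fun l => ∃ q ∈ l, q ∈ Cl u ω b)

open Classical in
noncomputable def pn (u : Fin n → V) (ω : ℝ) (a b : Fin 3) (p : Fin n) : Finset (Fin n) :=
  (Cl u ω a).filter (fun q => q ≠ p ∧ ∃ r ∈ Cl u ω b, det (u p) (u q) (u r) = 0)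

structure Fr (u : Fin n → V) (ω σ : ℝ) (Ty : Finset (Fin n)) : Prop where
  cf : Cf u
  K : ∀ l ∈ Ls u, (l.card : ℝ) ≤ (1 / 3 + σ) * n
  ω0 : 0 < ω
  ωσ : ω ≤ σ
  σ1 : σ ≤ 1 / 10000
  sz : ∀ j, (1 / 3 - σ) * n ≤ ((Cl u ω j).card : ℝ)
  big : 1 ≤ σ * n
  ty : (((univ : Finset (Fin n)) \ Ty).card : ℝ) ≤ σ * n
  sm : ∀ i ∈ Ty, ∑ l ∈ thr u i, s u l ≤ σ * n

theorem mem_Cl {u : Fin n → V} {ω : ℝ} {j : Fin 3} {i : Fin n} :
    i ∈ Cl u ω j ↔ 1 - ω ≤ (u i j) ^ 2 := by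
  simp [Cl]

theorem mem_lmt {u : Fin n → V} {ω : ℝ} {b : Fin 3} {p : Fin n} {l : Finset (Fin n)} :
    l ∈ lmt u ω b p ↔ l ∈ thr u p ∧ ∃ q ∈ l, q ∈ Cl u ω b := by
  simp [lmt]

theorem mem_pn {u : Fin n → V} {ω : ℝ} {a b : Fin 3} {p q : Fin n} :
    q ∈ pn u ω a b p ↔ q ∈ Cl u ω a ∧ q ≠ p ∧ ∃ r ∈ Cl u ω b, det (u p) (u q) (u r) = 0 := by
  simp [pn]

end H52.Dir
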