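import Pool.Agent.H52.Dir.ToPl

/-!
# Module FrG (150 lines): geometry of the three clusters near the coordinate axes

`x` is in cluster `j` if `1 - ω ≤ (x j)²` (unit vectors, `ω ≤ 1/10000`), so the other two
coordinates are at most `√ω ≤ 1/100` in absolute value.

PROOFS. `same`: `|dot x y| ≥ |x a y a| - (norms of the rest ≤ √ω √ω) ≥ (1 - ω) - ω`, so the square is
`≥ 1 - 4 ω`. `diff`: `|dot x y| ≤ |x a y a| + |x b y b| + |x c y c| ≤ √ω + √ω + ω`... better: write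
`dot x y = x a y a + (rest)`, `|y a| ≤ √ω`, `|rest| ≤ √(1 - x a²) ≤ √ω`: `≤ 2 √ω`, square `≤ 4 ω`.
`det3`: expand the determinant: the diagonal product is at least `(1-ω)^{3/2} ≥ 0.99`, the five other
terms are at most `3 ω + 2 ω^{3/2} ≤ 0.001`.
`nab` (`x` in cluster `a`, `y` in cluster `b`, `c` the third index): `|N c| ≥ |x a y b| - |x b y a| ≥ 1 - 2 ω ≥ 9/10`,
`|N a| = |x b y c - x c y b| ≤ √ω + ω ≤ 1/40`, same for `N b` (`N = crs x y`).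
`slp`: for `x, y` in cluster `0`, `z` in cluster `b`, `det x y z = 0`, dividing by `x 0 y 0`: with
`X = x b / x 0`, `Y = x c / x 0` etc.: `z 0 (X Y' - Y X') + z b (Y - Y') ± ... + z c (X' - X) = 0` up to the
order of the coordinates, and `X Y' - Y X' = X (Y' - Y) - Y (X' - X)`, so
`|z b| |Y - Y'| ≤ |z 0| (|X| |Y - Y'| + |Y| |X - X'|) + |z c| |X - X'|`, `|X|, |Y| ≤ 1/50`, `|z 0|, |z c| ≤ √ω`,
`|z b| ≥ 99/100`: `|Y - Y'| ≤ 2 √ω |X - X'|`.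
-/

set_option autoImplicit false

namespace H52.Dir

open Finset

private theorem FrG_abs {t s : ℝ} (hs : 0 ≤ s) (h : t ^ 2 ≤ s ^ 2) : |t| ≤ s :=
  abs_le_of_sq_le_sq h hs

private theorem FrG_same {x1 x2 x3 y1 y2 y3 ω : ℝ} (hx : x1 ^ 2 + x2 ^ 2 + x3 ^ 2 = 1)
    (hy : y1 ^ 2 + y2 ^ 2 + y3 ^ 2 = 1) (h0 : 0 ≤ ω) (h1 : ω ≤ 1 / 10000)
    (hxa : 1 - ω ≤ x1 ^ 2) (hya : 1 - ω ≤ y1 ^ 2) :
    1 - 4 * ω ≤ (x1 * y1 + (x2 * y2 + x3 * y3)) ^ 2 := by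
  have hr : (x2 * y2 + x3 * y3) ^ 2 ≤ ω ^ 2 := by
    have h2 : (x2 * y2 + x3 * y3) ^ 2 ≤ (x2 ^ 2 + x3 ^ 2) * (y2 ^ 2 + y3 ^ 2) := by
      nlinarith [sq_nonneg (x2 * y3 - x3 * y2)]
    have h3 : (x2 ^ 2 + x3 ^ 2) * (y2 ^ 2 + y3 ^ 2) ≤ ω * ω :=
      mul_le_mul (by linarith) (by linarith) (by positivity) h0
    nlinarith
  have hr1 := FrG_abs h0 hr
  have hs1 : |x1 * y1| ≤ 1 := by
    refine FrG_abs zero_le_one ?_
    have h2 : x1 ^ 2 * y1 ^ 2 ≤ 1 * 1 :=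
      mul_le_mul (by nlinarith [sq_nonneg x2, sq_nonneg x3])
        (by nlinarith [sq_nonneg y2, sq_nonneg y3]) (by positivity) zero_le_one
    nlinarith
  have hs2 : (1 - ω) * (1 - ω) ≤ (x1 * y1) ^ 2 := by
    have h2 : (1 - ω) * (1 - ω) ≤ x1 ^ 2 * y1 ^ 2 :=
      mul_le_mul hxa hya (by linarith) (by positivity)
    nlinarith
  have hm : |(x1 * y1) * (x2 * y2 + x3 * y3)| ≤ 1 * ω := by
    rw [abs_mul]
    exact mul_le_mul hs1 hr1 (abs_nonneg _) zero_le_one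
  have hm2 := (abs_le.mp hm).1
  nlinarith [sq_nonneg (x2 * y2 + x3 * y3), sq_nonneg ω]

private theorem FrG_diff {x1 x2 x3 y1 y2 y3 ω : ℝ} (hx : x1 ^ 2 + x2 ^ 2 + x3 ^ 2 = 1)
    (hy : y1 ^ 2 + y2 ^ 2 + y3 ^ 2 = 1) (h0 : 0 ≤ ω)
    (hxa : 1 - ω ≤ x1 ^ 2) (hyb : 1 - ω ≤ y2 ^ 2) :
    (x1 * y1 + (x2 * y2 + x3 * y3)) ^ 2 ≤ 4 * ω := by
  have hr : (x2 * y2 + x3 * y3) ^ 2 ≤ ω := by
    have h2 : (x2 * y2 + x3 * y3) ^ 2 ≤ (x2 ^ 2 + x3 ^ 2) * (y2 ^ 2 + y3 ^ 2) := by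
      nlinarith [sq_nonneg (x2 * y3 - x3 * y2)]
    have h3 : (x2 ^ 2 + x3 ^ 2) * (y2 ^ 2 + y3 ^ 2) ≤ ω * 1 :=
      mul_le_mul (by linarith) (by nlinarith [sq_nonneg y1]) (by positivity) h0
    linarith
  have hs : (x1 * y1) ^ 2 ≤ ω := by
    have h3 : x1 ^ 2 * y1 ^ 2 ≤ 1 * ω :=
      mul_le_mul (by nlinarith [sq_nonneg x2, sq_nonneg x3])
        (by nlinarith [sq_nonneg y3]) (by positivity) zero_le_one
    nlinarith
  nlinarith [sq_nonneg (x1 * y1 - (x2 * y2 + x3 * y3))]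

/-- two small factors and a factor at most one -/
private theorem FrG_t {s t r ω : ℝ} (hs : s ^ 2 ≤ ω) (ht : t ^ 2 ≤ ω) (hr : r ^ 2 ≤ 1) :
    |s * t * r| ≤ ω := by
  have h0 : 0 ≤ ω := (sq_nonneg s).trans hs
  refine FrG_abs h0 ?_
  have h1 : s ^ 2 * t ^ 2 ≤ ω * ω := mul_le_mul hs ht (sq_nonneg _) h0
  have h2 : s ^ 2 * t ^ 2 * r ^ 2 ≤ ω * ω * 1 :=
    mul_le_mul h1 hr (sq_nonneg _) (mul_nonneg h0 h0)
  nlinarith

private theorem FrG_det {x1 x2 x3 y1 y2 y3 z1 z2 z3 ω : ℝ}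
    (hx : x1 ^ 2 + x2 ^ 2 + x3 ^ 2 = 1) (hy : y1 ^ 2 + y2 ^ 2 + y3 ^ 2 = 1)
    (hz : z1 ^ 2 + z2 ^ 2 + z3 ^ 2 = 1) (h0 : 0 ≤ ω) (h1 : ω ≤ 1 / 10000)
    (hxa : 1 - ω ≤ x1 ^ 2) (hyb : 1 - ω ≤ y2 ^ 2) (hzc : 1 - ω ≤ z3 ^ 2) :
    x1 * y2 * z3 - y3 * z2 * x1 - x2 * y1 * z3 + x2 * y3 * z1 + x3 * y1 * z2 - x3 * z1 * y2
      ≠ 0 := by
  have ax1 : x1 ^ 2 ≤ 1 := by nlinarith [sq_nonneg x2, sq_nonneg x3]
  have ax2 : x2 ^ 2 ≤ ω := by nlinarith [sq_nonneg x3]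
  have ax3 : x3 ^ 2 ≤ ω := by nlinarith [sq_nonneg x2]
  have ay2 : y2 ^ 2 ≤ 1 := by nlinarith [sq_nonneg y1, sq_nonneg y3]
  have ay1 : y1 ^ 2 ≤ ω := by nlinarith [sq_nonneg y3]
  have ay3 : y3 ^ 2 ≤ ω := by nlinarith [sq_nonneg y1]
  have az3 : z3 ^ 2 ≤ 1 := by nlinarith [sq_nonneg z1, sq_nonneg z2]
  have az1 : z1 ^ 2 ≤ ω := by nlinarith [sq_nonneg z2]
  have az2 : z2 ^ 2 ≤ ω := by nlinarith [sq_nonneg z1]
  have b1 := abs_le.mp (FrG_t ay3 az2 ax1)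
  have b2 := abs_le.mp (FrG_t ax2 ay1 az3)
  have b3 := abs_le.mp (FrG_t ax2 ay3 (az1.trans (by linarith)))
  have b4 := abs_le.mp (FrG_t ax3 ay1 (az2.trans (by linarith)))
  have b5 := abs_le.mp (FrG_t ax3 az1 ay2)
  have hd : (1 / 2 : ℝ) ^ 2 ≤ (x1 * y2 * z3) ^ 2 := by
    have h2 : (1 - ω) * (1 - ω) ≤ x1 ^ 2 * y2 ^ 2 :=
      mul_le_mul hxa hyb (by linarith) (by positivity)
    have h3 : (1 - ω) * (1 - ω) * (1 - ω) ≤ x1 ^ 2 * y2 ^ 2 * z3 ^ 2 :=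
      mul_le_mul h2 hzc (by linarith) (by positivity)
    have h4 : (9 / 10 : ℝ) ≤ 1 - ω := by linarith
    have h5 : (9 / 10 : ℝ) * (9 / 10) ≤ (1 - ω) * (1 - ω) :=
      mul_le_mul h4 h4 (by norm_num) (by linarith)
    have h6 : (9 / 10 : ℝ) * (9 / 10) * (9 / 10) ≤ (1 - ω) * (1 - ω) * (1 - ω) :=
      mul_le_mul h5 h4 (by norm_num) (by positivity)
    nlinarith
  have hd2 : (1 / 2 : ℝ) ≤ |x1 * y2 * z3| := by
    have := sq_le_sq.mp hd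
    rwa [abs_of_pos (by norm_num : (0 : ℝ) < 1 / 2)] at this
  intro h
  have h7 : x1 * y2 * z3 = y3 * z2 * x1 + x2 * y1 * z3 - x2 * y3 * z1 - x3 * y1 * z2
      + x3 * z1 * y2 := by linarith
  have h8 : |x1 * y2 * z3| ≤ 5 * ω := by
    rw [h7, abs_le]
    constructor
    · linarith [b1.1, b2.1, b3.2, b4.2, b5.1]
    · linarith [b1.2, b2.2, b3.1, b4.1, b5.2]
  linarith

private theorem FrG_nab {x1 x2 x3 y1 y2 y3 ω : ℝ}
    (hx : x1 ^ 2 + x2 ^ 2 + x3 ^ 2 = 1) (hy : y1 ^ 2 + y2 ^ 2 + y3 ^ 2 = 1)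
    (h1 : ω ≤ 1 / 10000) (hxa : 1 - ω ≤ x1 ^ 2) (hyb : 1 - ω ≤ y2 ^ 2) :
    9 / 10 ≤ |x1 * y2 - x2 * y1| ∧ |x2 * y3 - x3 * y2| ≤ 1 / 40 ∧
      |x3 * y1 - x1 * y3| ≤ 1 / 40 := by
  have ax1 : |x1| ≤ 1 := FrG_abs zero_le_one (by nlinarith [sq_nonneg x2, sq_nonneg x3])
  have ax2 : |x2| ≤ 1 / 100 := FrG_abs (by norm_num) (by nlinarith [sq_nonneg x3])
  have ax3 : |x3| ≤ 1 / 100 := FrG_abs (by norm_num) (by nlinarith [sq_nonneg x2])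
  have ay2 : |y2| ≤ 1 := FrG_abs zero_le_one (by nlinarith [sq_nonneg y1, sq_nonneg y3])
  have ay1 : |y1| ≤ 1 / 100 := FrG_abs (by norm_num) (by nlinarith [sq_nonneg y3])
  have ay3 : |y3| ≤ 1 / 100 := FrG_abs (by norm_num) (by nlinarith [sq_nonneg y1])
  have m : ∀ {s t p q : ℝ}, |s| ≤ p → |t| ≤ q → |s * t| ≤ p * q := by
    intro s t p q hs ht
    rw [abs_mul]
    exact mul_le_mul hs ht (abs_nonneg _) ((abs_nonneg _).trans hs)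
  refine ⟨?_, ?_, ?_⟩
  · have h2 : (98 / 100 : ℝ) ≤ |x1 * y2| := by
      have h3 : (98 / 100 : ℝ) ^ 2 ≤ (x1 * y2) ^ 2 := by
        have h4 : (99 / 100 : ℝ) * (99 / 100) ≤ x1 ^ 2 * y2 ^ 2 :=
          mul_le_mul (by linarith) (by linarith) (by norm_num) (by positivity)
        nlinarith
      have := sq_le_sq.mp h3
      rwa [abs_of_pos (by norm_num : (0 : ℝ) < 98 / 100)] at this
    have h3 := m ax2 ay1
    have h4 := abs_sub_abs_le_abs_sub (x1 * y2) (x2 * y1)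
    linarith
  · have h3 := m ax2 ay3
    have h5 := m ax3 ay2
    have h4 := abs_sub (x2 * y3) (x3 * y2)
    linarith
  · have h3 := m ax3 ay1
    have h5 := m ax1 ay3
    have h4 := abs_sub (x3 * y1) (x1 * y3)
    linarith

private theorem FrG_slp {X1 X2 Y1 Y2 z0 z1 z2 s : ℝ} (hX1 : |X1| ≤ 1 / 50)
    (hX2 : |X2| ≤ 1 / 50) (hz0 : |z0| ≤ s) (hz2 : |z2| ≤ s) (hs : s ≤ 1 / 100)
    (hz1 : 99 / 100 ≤ |z1|)
    (h : z1 * (X2 - Y2) = z0 * (X1 * (X2 - Y2) - X2 * (X1 - Y1)) + z2 * (X1 - Y1)) :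
    |X2 - Y2| ≤ 2 * s * |X1 - Y1| := by
  have hs0 : 0 ≤ s := (abs_nonneg _).trans hz0
  have e : z1 * (X2 - Y2) = (z0 * X1) * (X2 - Y2) + (z2 - z0 * X2) * (X1 - Y1) := by
    rw [h]; ring
  have h1 : |z1| * |X2 - Y2| ≤ |z0 * X1| * |X2 - Y2| + |z2 - z0 * X2| * |X1 - Y1| := by
    rw [← abs_mul, e]
    refine (abs_add_le _ _).trans ?_
    rw [abs_mul (z0 * X1) (X2 - Y2), abs_mul (z2 - z0 * X2) (X1 - Y1)]
  have h2 : |z0 * X1| ≤ 1 / 100 * (1 / 50) := by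
    rw [abs_mul]
    exact mul_le_mul (hz0.trans hs) hX1 (abs_nonneg _) (by norm_num)
  have h3 : |z2 - z0 * X2| ≤ s + s * (1 / 50) := by
    have h4 := abs_sub z2 (z0 * X2)
    have h5 : |z0 * X2| ≤ s * (1 / 50) := by
      rw [abs_mul]
      exact mul_le_mul hz0 hX2 (abs_nonneg _) hs0
    linarith
  have a := abs_nonneg (X2 - Y2)
  have b := abs_nonneg (X1 - Y1)
  have h6 : 99 / 100 * |X2 - Y2| ≤ |z1| * |X2 - Y2| := mul_le_mul_of_nonneg_right hz1 a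
  have h7 : |z0 * X1| * |X2 - Y2| ≤ 1 / 100 * (1 / 50) * |X2 - Y2| :=
    mul_le_mul_of_nonneg_right h2 a
  have h8 : |z2 - z0 * X2| * |X1 - Y1| ≤ (s + s * (1 / 50)) * |X1 - Y1| :=
    mul_le_mul_of_nonneg_right h3 b
  have h9 : 0 ≤ s * |X1 - Y1| := mul_nonneg hs0 b
  nlinarith

private theorem FrG_n (x : V) (hx : dot x x = 1) : x 0 ^ 2 + x 1 ^ 2 + x 2 ^ 2 = 1 := by
  unfold dot at hx
  linarith [pow_two (x 0), pow_two (x 1), pow_two (x 2)]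

theorem same {x y : V} (hx : dot x x = 1) (hy : dot y y = 1) {ω : ℝ} (h0 : 0 ≤ ω)
    (h1 : ω ≤ 1 / 10000) {a : Fin 3} (hxa : 1 - ω ≤ (x a) ^ 2) (hya : 1 - ω ≤ (y a) ^ 2) :
    1 - 4 * ω ≤ (dot x y) ^ 2 := by
  have hx' := FrG_n x hx
  have hy' := FrG_n y hy
  fin_cases a
  · have h := FrG_same (x1 := x 0) (x2 := x 1) (x3 := x 2) (y1 := y 0) (y2 := y 1) (y3 := y 2)
      (by linarith) (by linarith) h0 h1 hxa hya
    unfold dot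
    linarith [h, (by ring : (x 0 * y 0 + (x 1 * y 1 + x 2 * y 2)) ^ 2 =
      (x 0 * y 0 + x 1 * y 1 + x 2 * y 2) ^ 2)]
  · have h := FrG_same (x1 := x 1) (x2 := x 0) (x3 := x 2) (y1 := y 1) (y2 := y 0) (y3 := y 2)
      (by linarith) (by linarith) h0 h1 hxa hya
    unfold dot
    linarith [h, (by ring : (x 1 * y 1 + (x 0 * y 0 + x 2 * y 2)) ^ 2 =
      (x 0 * y 0 + x 1 * y 1 + x 2 * y 2) ^ 2)]
  · have h := FrG_same (x1 := x 2) (x2 := x 0) (x3 := x 1) (y1 := y 2) (y2 := y 0) (y3 := y 1)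
      (by linarith) (by linarith) h0 h1 hxa hya
    unfold dot
    linarith [h, (by ring : (x 2 * y 2 + (x 0 * y 0 + x 1 * y 1)) ^ 2 =
      (x 0 * y 0 + x 1 * y 1 + x 2 * y 2) ^ 2)]

theorem diff {x y : V} (hx : dot x x = 1) (hy : dot y y = 1) {ω : ℝ} (h0 : 0 ≤ ω)
    (h1 : ω ≤ 1 / 10000) {a b : Fin 3} (hab : a ≠ b) (hxa : 1 - ω ≤ (x a) ^ 2)
    (hyb : 1 - ω ≤ (y b) ^ 2) : (dot x y) ^ 2 ≤ 4 * ω := by
  have hx' := FrG_n x hx
  have hy' := FrG_n y hy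
  have key : ∀ (i j k : Fin 3), x i ^ 2 + x j ^ 2 + x k ^ 2 = 1 → y i ^ 2 + y j ^ 2 + y k ^ 2 = 1 →
      dot x y = x i * y i + (x j * y j + x k * y k) → 1 - ω ≤ (x i) ^ 2 → 1 - ω ≤ (y j) ^ 2 →
      (dot x y) ^ 2 ≤ 4 * ω := by
    intro i j k e1 e2 e3 e4 e5
    rw [e3]
    exact FrG_diff e1 e2 h0 e4 e5
  fin_cases a <;> fin_cases b <;> first
    | exact absurd rfl hab
    | exact key 0 1 2 (by linarith) (by linarith) (by unfold dot; ring) hxa hyb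
    | exact key 0 2 1 (by linarith) (by linarith) (by unfold dot; ring) hxa hyb
    | exact key 1 0 2 (by linarith) (by linarith) (by unfold dot; ring) hxa hyb
    | exact key 1 2 0 (by linarith) (by linarith) (by unfold dot; ring) hxa hyb
    | exact key 2 0 1 (by linarith) (by linarith) (by unfold dot; ring) hxa hyb
    | exact key 2 1 0 (by linarith) (by linarith) (by unfold dot; ring) hxa hyb

theorem det3 {x y z : V} (hx : dot x x = 1) (hy : dot y y = 1) (hz : dot z z = 1) {ω : ℝ}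
    (h0 : 0 ≤ ω) (h1 : ω ≤ 1 / 10000) {a b c : Fin 3} (hab : a ≠ b) (hac : a ≠ c) (hbc : b ≠ c)
    (hxa : 1 - ω ≤ (x a) ^ 2) (hyb : 1 - ω ≤ (y b) ^ 2) (hzc : 1 - ω ≤ (z c) ^ 2) :
    det x y z ≠ 0 := by
  have hx' := FrG_n x hx
  have hy' := FrG_n y hy
  have hz' := FrG_n z hz
  have e : det x y z = (x 1 * y 2 - x 2 * y 1) * z 0 + (x 2 * y 0 - x 0 * y 2) * z 1 +
      (x 0 * y 1 - x 1 * y 0) * z 2 := by
    simp [det, dot, crs]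
  intro hd
  rw [e] at hd
  have key : ∀ (i j k : Fin 3), x i ^ 2 + x j ^ 2 + x k ^ 2 = 1 → y i ^ 2 + y j ^ 2 + y k ^ 2 = 1 →
      z i ^ 2 + z j ^ 2 + z k ^ 2 = 1 →
      x i * y j * z k - y k * z j * x i - x j * y i * z k + x j * y k * z i + x k * y i * z j -
        x k * z i * y j = 0 →
      1 - ω ≤ (x i) ^ 2 → 1 - ω ≤ (y j) ^ 2 → 1 - ω ≤ (z k) ^ 2 → False := by
    intro i j k e1 e2 e3 e4 e5 e6 e7
    exact FrG_det e1 e2 e3 h0 h1 e5 e6 e7 e4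
  fin_cases a <;> fin_cases b <;> fin_cases c <;> first
    | exact absurd rfl hab
    | exact absurd rfl hac
    | exact absurd rfl hbc
    | exact key 0 1 2 (by linarith) (by linarith) (by linarith) (by linarith) hxa hyb hzc
    | exact key 0 2 1 (by linarith) (by linarith) (by linarith) (by linarith) hxa hyb hzc
    | exact key 1 0 2 (by linarith) (by linarith) (by linarith) (by linarith) hxa hyb hzc
    | exact key 1 2 0 (by linarith) (by linarith) (by linarith) (by linarith) hxa hyb hzc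
    | exact key 2 0 1 (by linarith) (by linarith) (by linarith) (by linarith) hxa hyb hzc
    | exact key 2 1 0 (by linarith) (by linarith) (by linarith) (by linarith) hxa hyb hzc

theorem nab {x y : V} (hx : dot x x = 1) (hy : dot y y = 1) {ω : ℝ} (h0 : 0 ≤ ω)
    (h1 : ω ≤ 1 / 10000) {a b c : Fin 3} (hab : a ≠ b) (hac : a ≠ c) (hbc : b ≠ c)
    (hxa : 1 - ω ≤ (x a) ^ 2) (hyb : 1 - ω ≤ (y b) ^ 2) :
    9 / 10 ≤ |crs x y c| ∧ |crs x y a| ≤ 1 / 40 ∧ |crs x y b| ≤ 1 / 40 := by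
  have hx' := FrG_n x hx
  have hy' := FrG_n y hy
  have c0 : crs x y 0 = x 1 * y 2 - x 2 * y 1 := rfl
  have c1 : crs x y 1 = x 2 * y 0 - x 0 * y 2 := rfl
  have c2 : crs x y 2 = x 0 * y 1 - x 1 * y 0 := rfl
  have key : ∀ (i j k : Fin 3), x i ^ 2 + x j ^ 2 + x k ^ 2 = 1 → y i ^ 2 + y j ^ 2 + y k ^ 2 = 1 →
      |crs x y k| = |x i * y j - x j * y i| → |crs x y i| = |x j * y k - x k * y j| →
      |crs x y j| = |x k * y i - x i * y k| → 1 - ω ≤ (x i) ^ 2 → 1 - ω ≤ (y j) ^ 2 →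
      9 / 10 ≤ |crs x y k| ∧ |crs x y i| ≤ 1 / 40 ∧ |crs x y j| ≤ 1 / 40 := by
    intro i j k e1 e2 e3 e4 e5 e6 e7
    rw [e3, e4, e5]
    exact FrG_nab e1 e2 h1 e6 e7
  have m0 : |crs x y 0| = |x 2 * y 1 - x 1 * y 2| := by rw [c0, abs_sub_comm]
  have m1 : |crs x y 1| = |x 0 * y 2 - x 2 * y 0| := by rw [c1, abs_sub_comm]
  have m2 : |crs x y 2| = |x 1 * y 0 - x 0 * y 1| := by rw [c2, abs_sub_comm]
  fin_cases a <;> fin_cases b <;> fin_cases c <;> first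
    | exact absurd rfl hab
    | exact absurd rfl hac
    | exact absurd rfl hbc
    | exact key 0 1 2 (by linarith) (by linarith) rfl rfl rfl hxa hyb
    | exact key 0 2 1 (by linarith) (by linarith) m1 m0 m2 hxa hyb
    | exact key 1 0 2 (by linarith) (by linarith) m2 m1 m0 hxa hyb
    | exact key 1 2 0 (by linarith) (by linarith) rfl rfl rfl hxa hyb
    | exact key 2 0 1 (by linarith) (by linarith) rfl rfl rfl hxa hyb
    | exact key 2 1 0 (by linarith) (by linarith) m0 m2 m1 hxa hyb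

theorem slp {x y z : V} (hx : dot x x = 1) (hy : dot y y = 1) (hz : dot z z = 1) {ω : ℝ}
    (h0 : 0 ≤ ω) (h1 : ω ≤ 1 / 10000) {b c : Fin 3} (hb : b ≠ 0) (hc : c ≠ 0) (hbc : b ≠ c)
    (hx0 : 1 - ω ≤ (x 0) ^ 2) (hy0 : 1 - ω ≤ (y 0) ^ 2) (hzb : 1 - ω ≤ (z b) ^ 2)
    (hd : det x y z = 0) :
    |x c / x 0 - y c / y 0| ≤ 2 * Real.sqrt ω * |x b / x 0 - y b / y 0| := by
  have hx' := FrG_n x hx
  have hy' := FrG_n y hy
  have hz' := FrG_n z hz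
  have hs := Real.sq_sqrt h0
  have hs0 := Real.sqrt_nonneg ω
  have hs1 : Real.sqrt ω ≤ 1 / 100 := by
    rw [show (1 / 100 : ℝ) = Real.sqrt ((1 / 100) ^ 2) from (Real.sqrt_sq (by norm_num)).symm]
    exact Real.sqrt_le_sqrt (by linarith)
  have x0 : x 0 ≠ 0 := by
    intro h
    rw [h] at hx0
    linarith
  have y0 : y 0 ≠ 0 := by
    intro h
    rw [h] at hy0
    linarith
  have q : ∀ {t r : ℝ}, 1 - ω ≤ r ^ 2 → t ^ 2 ≤ ω → |t / r| ≤ 1 / 50 := by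
    intro t r hr ht
    have hr0 : 0 < r ^ 2 := by linarith
    refine FrG_abs (by norm_num) ?_
    rw [div_pow, div_le_iff₀ hr0]
    linarith
  have e : (x 1 * y 2 - x 2 * y 1) * z 0 + (x 2 * y 0 - x 0 * y 2) * z 1 +
      (x 0 * y 1 - x 1 * y 0) * z 2 = 0 := by
    have : det x y z = (x 1 * y 2 - x 2 * y 1) * z 0 + (x 2 * y 0 - x 0 * y 2) * z 1 +
      (x 0 * y 1 - x 1 * y 0) * z 2 := by
      simp [det, dot, crs]
    rw [← this, hd]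
  have z99 : ∀ {t : ℝ}, 1 - ω ≤ t ^ 2 → 99 / 100 ≤ |t| := by
    intro t ht
    have h3 : (99 / 100 : ℝ) ^ 2 ≤ t ^ 2 := by linarith
    have := sq_le_sq.mp h3
    rwa [abs_of_pos (by norm_num : (0 : ℝ) < 99 / 100)] at this
  have k1 : 1 - ω ≤ (z 1) ^ 2 →
      |x 2 / x 0 - y 2 / y 0| ≤ 2 * Real.sqrt ω * |x 1 / x 0 - y 1 / y 0| := by
    intro hz1
    refine FrG_slp (z0 := z 0) (z1 := z 1) (z2 := z 2)
      (q hx0 (by nlinarith [sq_nonneg (x 2)])) (q hx0 (by nlinarith [sq_nonneg (x 1)]))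
      (FrG_abs hs0 (by rw [hs]; nlinarith [sq_nonneg (z 2)]))
      (FrG_abs hs0 (by rw [hs]; nlinarith [sq_nonneg (z 0)])) hs1 (z99 hz1) ?_
    field_simp
    linear_combination (x 0) * e
  have k2 : 1 - ω ≤ (z 2) ^ 2 →
      |x 1 / x 0 - y 1 / y 0| ≤ 2 * Real.sqrt ω * |x 2 / x 0 - y 2 / y 0| := by
    intro hz2
    refine FrG_slp (z0 := z 0) (z1 := z 2) (z2 := z 1)
      (q hx0 (by nlinarith [sq_nonneg (x 1)])) (q hx0 (by nlinarith [sq_nonneg (x 2)]))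
      (FrG_abs hs0 (by rw [hs]; nlinarith [sq_nonneg (z 1)]))
      (FrG_abs hs0 (by rw [hs]; nlinarith [sq_nonneg (z 0)])) hs1 (z99 hz2) ?_
    field_simp
    linear_combination -(x 0) * e
  fin_cases b <;> fin_cases c <;> first
    | exact absurd rfl hb
    | exact absurd rfl hc
    | exact absurd rfl hbc
    | exact k1 hzb
    | exact k2 hzb

end H52.Dir
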