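import Pool.Agent.H52.Dir.Bas

/-!
# Module Ker (90 lines): comparison of a projected sum with `s u l`

PROOF. Let `i ≠ j` in `l`, `N = crs (u i) (u j) ≠ 0`, and let `y` be a unit vector of the plane of
`l` (`dot N y = 0`). Put `b = crs N y / |N|` (a unit vector, orthogonal to `y` and to `N`). Every
vector `x` with `dot N x = 0` and `dot x x = 1` is `x = α y + β b`, `α = dot x y`, `β = dot x b`,
`α² + β² = 1` (apply this to `x = u k`, `k ∈ l`, by `det_col`). For two such vectors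
`2 (α α' + β β')² - 1 = (α² - β²) (α'² - β'²) + (2 α β) (2 α' β')`, hence
`sq u l = (Σ_{k ∈ l} (α_k² - β_k²))² + (Σ_{k ∈ l} 2 α_k β_k)²`, and
`Σ_{k ∈ l} (2 (dot (u k) y)² - 1) = Σ_{k ∈ l} (α_k² - β_k²)`. So `|Σ| ≤ sqrt (sq u l)`.
The existence of a unit vector `y` of the plane (`y = u i`) gives `sq_nonneg'`.
-/

set_option autoImplicit false

namespace H52.Dir

open Finset

variable {n : ℕ}

private theorem ker_gram (N y x x' : V) :
    dot (crs N y) x * dot (crs N y) x' =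
      dot N N * (dot y y * dot x x' - dot y x' * dot x y)
        - dot N y * (dot y N * dot x x' - dot y x' * dot x N)
        + dot N x' * (dot y N * dot x y - dot y y * dot x N) := by
  simp only [dot, crs, Matrix.cons_val_zero, Matrix.cons_val_one, Matrix.cons_val]
  ring

private theorem ker_dot_comm (x y : V) : dot x y = dot y x := by
  simp only [dot]
  ring

private theorem ker_pos {N : V} (h : N ≠ 0) : 0 < dot N N := by
  have h0 : 0 ≤ dot N N := by
    simp only [dot]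
    nlinarith [mul_self_nonneg (N 0), mul_self_nonneg (N 1), mul_self_nonneg (N 2)]
  refine lt_of_le_of_ne h0 ?_
  intro h1
  apply h
  simp only [dot] at h1
  have a0 := mul_self_nonneg (N 0)
  have a1 := mul_self_nonneg (N 1)
  have a2 := mul_self_nonneg (N 2)
  have b0 : N 0 = 0 := mul_self_eq_zero.1 (by linarith)
  have b1 : N 1 = 0 := mul_self_eq_zero.1 (by linarith)
  have b2 : N 2 = 0 := mul_self_eq_zero.1 (by linarith)
  funext j
  fin_cases j
  · exact b0
  · exact b1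
  · exact b2

private theorem ker_id {Q α α' c c' d : ℝ} (hQ : 0 < Q) (h1 : c * c = Q * (1 - α * α))
    (h2 : c' * c' = Q * (1 - α' * α')) (h3 : c * c' = Q * (d - α' * α)) :
    2 * d ^ 2 - 1 = (2 * α ^ 2 - 1) * (2 * α' ^ 2 - 1) + (2 * α * c) * (2 * α' * c') / Q := by
  have h4 : (2 * α * c) * (2 * α' * c') / Q = 4 * α * α' * (d - α' * α) := by
    rw [div_eq_iff hQ.ne']
    linear_combination 4 * α * α' * h3
  rw [h4]
  have h5 : Q * Q * ((d - α' * α) ^ 2 - (1 - α * α) * (1 - α' * α')) = 0 := by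
    linear_combination (c * c' + Q * (d - α' * α)) * (-h3) + (c' * c') * h1 +
      (Q * (1 - α * α)) * h2
  have h6 : (d - α' * α) ^ 2 - (1 - α * α) * (1 - α' * α') = 0 := by
    rcases mul_eq_zero.1 h5 with h | h
    · exact absurd h (mul_pos hQ hQ).ne'
    · exact h
  linear_combination 2 * h6

private theorem ker_sq {u : Fin n → V} (h : Cf u) {l : Finset (Fin n)} (hl : l ∈ Ls u) {y : V}
    (hy : dot y y = 1) {i j : Fin n} (hi : i ∈ l) (hj : j ∈ l) (hij : i ≠ j)
    (hp : det (u i) (u j) y = 0) :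
    (∑ k ∈ l, (2 * (dot (u k) y) ^ 2 - 1)) ^ 2 ≤ sq u l := by
  set N := crs (u i) (u j) with hN
  have hQ : 0 < dot N N := ker_pos (h.ind i j hij)
  have hNk : ∀ k ∈ l, dot N (u k) = 0 := fun k hk => det_col h hl hi hj hk
  have hNy : dot N y = 0 := hp
  have hg : ∀ k ∈ l, ∀ k' ∈ l, dot (crs N y) (u k) * dot (crs N y) (u k') =
      dot N N * (dot (u k) (u k') - dot (u k') y * dot (u k) y) := by
    intro k hk k' hk'
    rw [ker_gram, hNk k' hk', hNy, hy, ker_dot_comm y (u k')]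
    ring
  have hpt : ∀ k ∈ l, ∀ k' ∈ l, 2 * (dot (u k) (u k')) ^ 2 - 1 =
      (2 * (dot (u k) y) ^ 2 - 1) * (2 * (dot (u k') y) ^ 2 - 1) +
        (2 * dot (u k) y * dot (crs N y) (u k)) * (2 * dot (u k') y * dot (crs N y) (u k'))
          / dot N N := by
    intro k hk k' hk'
    apply ker_id hQ
    · rw [hg k hk k hk, h.unit k]
    · rw [hg k' hk' k' hk', h.unit k']
    · exact hg k hk k' hk'
  have hs : sq u l = (∑ k ∈ l, (2 * (dot (u k) y) ^ 2 - 1)) ^ 2 +
      (∑ k ∈ l, 2 * dot (u k) y * dot (crs N y) (u k)) ^ 2 / dot N N := by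
    unfold sq
    rw [sum_congr rfl fun k hk => sum_congr rfl fun k' hk' => hpt k hk k' hk']
    simp only [sum_add_distrib]
    rw [pow_two, sum_mul_sum, pow_two, sum_mul_sum, sum_div]
    congr 1
    exact sum_congr rfl fun k _ => by rw [sum_div]
  rw [hs]
  have := div_nonneg (sq_nonneg (∑ k ∈ l, 2 * dot (u k) y * dot (crs N y) (u k))) hQ.le
  linarith

theorem cmp {u : Fin n → V} (h : Cf u) {l : Finset (Fin n)} (hl : l ∈ Ls u) {y : V}
    (hy : dot y y = 1) {i j : Fin n} (hi : i ∈ l) (hj : j ∈ l) (hij : i ≠ j)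
    (hp : det (u i) (u j) y = 0) :
    |∑ k ∈ l, (2 * (dot (u k) y) ^ 2 - 1)| ≤ s u l := by
  unfold s
  exact Real.abs_le_sqrt (ker_sq h hl hy hi hj hij hp)

private theorem ker_ex {u : Fin n → V} {l : Finset (Fin n)} (hl : l ∈ Ls u) (i : Fin n) :
    ∃ j ∈ l, i ≠ j := by
  have h2 : 1 < l.card := two_le hl
  obtain ⟨j, hj, hne⟩ := Finset.exists_mem_ne h2 i
  exact ⟨j, hj, hne.symm⟩

/-- the case `y = u i` -/
private theorem ker_self {u : Fin n → V} (h : Cf u) {l : Finset (Fin n)} (hl : l ∈ Ls u)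
    {i : Fin n} (hi : i ∈ l) : (∑ k ∈ l, (2 * (dot (u k) (u i)) ^ 2 - 1)) ^ 2 ≤ sq u l := by
  obtain ⟨j, hj, hij⟩ := ker_ex hl i
  exact ker_sq h hl (h.unit i) hi hj hij (by rw [det_eq]; ring)

theorem sq_nonneg' {u : Fin n → V} (h : Cf u) {l : Finset (Fin n)} (hl : l ∈ Ls u) :
    0 ≤ sq u l := by
  have h2 : 0 < l.card := lt_of_lt_of_le (by norm_num) (two_le hl)
  obtain ⟨i, hi⟩ := Finset.card_pos.1 h2
  exact le_trans (sq_nonneg _) (ker_self h hl hi)

/-- the case `y = u i` -/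
theorem cmp_self {u : Fin n → V} (h : Cf u) {l : Finset (Fin n)} (hl : l ∈ Ls u) {i : Fin n}
    (hi : i ∈ l) : |∑ k ∈ l, (2 * (dot (u k) (u i)) ^ 2 - 1)| ≤ s u l := by
  unfold s
  exact Real.abs_le_sqrt (ker_self h hl hi)

end H52.Dir
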