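import Pool.Agent.H52.Dir.FrD
import Pool.Agent.H52.Dir.Ker

/-!
# Module G1 (170 lines): the lines through a typical point of a cluster

`a, b, c` the three indices, `p ∈ Cl a` typical. Clusters are pairwise disjoint (`diff` with `x = y`
would give `1 ≤ 4 ω`), so `|Cl j| ≤ n - 2 (1/3 - σ) n = (1/3 + 2 σ) n` and at most `3 σ n` points are in
no cluster.

PROOF. For `l ∈ thr u p` let `k_j = |l ∩ Cl j|`, `m` = number of points of `l` in no cluster. By `same`,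
`diff` the summand `2 (dot (u k) (u p))² - 1` is in `[1 - 8 ω, 1]` for `k ∈ Cl a`, in `[-1, -1 + 8 ω]` for
`k ∈ Cl b ∪ Cl c`, in `[-1, 1]` otherwise, so `cmp_self` gives `|k_a - k_b - k_c| ≤ s u l + 8 ω |l| + m`.
Sum over any `F ⊆ thr u p`: `|Σ_F (k_a - k_b - k_c)| ≤ σ n + 16 σ n + 3 σ n = 20 σ n`
(`Σ |l| ≤ 2 n`; every point `≠ p` is on one line through `p`).
`disj`: a line through `p ∈ Cl a` does not meet both `Cl b` and `Cl c` (`det3`, `det_col`).
`F = lmt b`: `k_c = 0`, `Σ_F k_b = |Cl b|`, `Σ_F k_a = |lmt b| + |pn a b p|` (`p` counted once on each line).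
`F` = lines that meet neither: `Σ_F k_a ≤ 20 σ n` and `k_a ≥ 1`, so `|F| ≤ 20 σ n`, and
`|Cl a| - 1 = |pn a b p| + |pn a c p| + Σ_F (k_a - 1)`.
-/

set_option autoImplicit false

namespace H52.Dir

open Finset

variable {n : ℕ}

theorem cl_disj {u : Fin n → V} {ω σ : ℝ} {Ty : Finset (Fin n)} (H : Fr u ω σ Ty) {a b : Fin 3}
    (hab : a ≠ b) : Disjoint (Cl u ω a) (Cl u ω b) := by
  rw [disjoint_left]
  intro q hqa hqb
  have h1 := diff (H.cf.unit q) (H.cf.unit q) H.ω0.le (H.ωσ.trans H.σ1) hab (mem_Cl.1 hqa)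
    (mem_Cl.1 hqb)
  rw [H.cf.unit q] at h1
  have h2 := H.ωσ.trans H.σ1
  norm_num at h1
  linarith

private theorem G1_sum3 {u : Fin n → V} {ω σ : ℝ} {Ty : Finset (Fin n)} (H : Fr u ω σ Ty)
    {a b c : Fin 3} (hab : a ≠ b) (hac : a ≠ c) (hbc : b ≠ c) :
    ((Cl u ω a).card : ℝ) + (Cl u ω b).card + (Cl u ω c).card ≤ n := by
  classical
  have h1 : ((Cl u ω a ∪ Cl u ω b) ∪ Cl u ω c).card =
      (Cl u ω a).card + (Cl u ω b).card + (Cl u ω c).card := by
    rw [card_union_of_disjoint, card_union_of_disjoint (cl_disj H hab)]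
    rw [disjoint_union_left]
    exact ⟨cl_disj H hac, cl_disj H hbc⟩
  have h2 : ((Cl u ω a ∪ Cl u ω b) ∪ Cl u ω c).card ≤ n := by
    have := card_le_univ ((Cl u ω a ∪ Cl u ω b) ∪ Cl u ω c)
    rwa [Fintype.card_fin] at this
  rw [h1] at h2
  exact_mod_cast h2

theorem cl_le {u : Fin n → V} {ω σ : ℝ} {Ty : Finset (Fin n)} (H : Fr u ω σ Ty) (a : Fin 3) :
    ((Cl u ω a).card : ℝ) ≤ (1 / 3 + 2 * σ) * n := by
  have h1 := G1_sum3 H (a := 0) (b := 1) (c := 2) (by decide) (by decide) (by decide)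
  have h2 := H.sz 0
  have h3 := H.sz 1
  have h4 := H.sz 2
  fin_cases a
  · change ((Cl u ω 0).card : ℝ) ≤ (1 / 3 + 2 * σ) * n
    nlinarith
  · change ((Cl u ω 1).card : ℝ) ≤ (1 / 3 + 2 * σ) * n
    nlinarith
  · change ((Cl u ω 2).card : ℝ) ≤ (1 / 3 + 2 * σ) * n
    nlinarith

theorem disj {u : Fin n → V} {ω σ : ℝ} {Ty : Finset (Fin n)} (H : Fr u ω σ Ty) {a b c : Fin 3}
    (hab : a ≠ b) (hac : a ≠ c) (hbc : b ≠ c) {l : Finset (Fin n)} (hl : l ∈ Ls u) {p q r : Fin n}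
    (hp : p ∈ l) (hq : q ∈ l) (hr : r ∈ l) (hpa : p ∈ Cl u ω a) (hqb : q ∈ Cl u ω b) :
    r ∉ Cl u ω c := by
  intro hrc
  exact det3 (H.cf.unit p) (H.cf.unit q) (H.cf.unit r) H.ω0.le (H.ωσ.trans H.σ1) hab hac hbc
    (mem_Cl.1 hpa) (mem_Cl.1 hqb) (mem_Cl.1 hrc) (det_col H.cf hl hp hq hr)

private noncomputable def G1_chi (u : Fin n → V) (ω : ℝ) (a b c : Fin 3) (k : Fin n) : ℝ :=
  if k ∈ Cl u ω a then 1 else if k ∈ Cl u ω b then -1 else if k ∈ Cl u ω c then -1 else 0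

private noncomputable def G1_err (u : Fin n → V) (ω : ℝ) (a b c : Fin 3) (k : Fin n) : ℝ :=
  8 * ω + (1 - (if k ∈ Cl u ω a then 1 else 0) - (if k ∈ Cl u ω b then 1 else 0) -
    (if k ∈ Cl u ω c then 1 else 0))

private theorem G1_cs {x y : V} (hx : dot x x = 1) (hy : dot y y = 1) : (dot x y) ^ 2 ≤ 1 := by
  have h1 : (dot x y) ^ 2 + dot (crs x y) (crs x y) = dot x x * dot y y := by
    simp only [dot, crs, Matrix.cons_val_zero, Matrix.cons_val_one, Matrix.cons_val]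
    ring
  have h2 : 0 ≤ dot (crs x y) (crs x y) := by
    unfold dot
    nlinarith [mul_self_nonneg (crs x y 0), mul_self_nonneg (crs x y 1), mul_self_nonneg (crs x y 2)]
  rw [hx, hy] at h1
  linarith

private theorem G1_term {u : Fin n → V} {ω σ : ℝ} {Ty : Finset (Fin n)} (H : Fr u ω σ Ty)
    {a b c : Fin 3} (hab : a ≠ b) (hac : a ≠ c) (hbc : b ≠ c) {p : Fin n} (hp : p ∈ Cl u ω a)
    (k : Fin n) :
    |(2 * (dot (u k) (u p)) ^ 2 - 1) - G1_chi u ω a b c k| ≤ G1_err u ω a b c k := by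
  have hω0 := H.ω0
  have hω1 := H.ωσ.trans H.σ1
  have h1 := G1_cs (H.cf.unit k) (H.cf.unit p)
  have h2 : 0 ≤ (dot (u k) (u p)) ^ 2 := by positivity
  unfold G1_chi G1_err
  by_cases ha : k ∈ Cl u ω a
  · have hb : k ∉ Cl u ω b := fun hb => (disjoint_left.1 (cl_disj H hab)) ha hb
    have hc : k ∉ Cl u ω c := fun hc => (disjoint_left.1 (cl_disj H hac)) ha hc
    have h3 := same (H.cf.unit k) (H.cf.unit p) hω0.le hω1 (mem_Cl.1 ha) (mem_Cl.1 hp)
    rw [if_pos ha, if_pos ha, if_neg hb, if_neg hc, abs_le]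
    constructor <;> linarith
  · rw [if_neg ha, if_neg ha]
    by_cases hb : k ∈ Cl u ω b
    · have hc : k ∉ Cl u ω c := fun hc => (disjoint_left.1 (cl_disj H hbc)) hb hc
      have h3 := diff (H.cf.unit k) (H.cf.unit p) hω0.le hω1 hab.symm (mem_Cl.1 hb) (mem_Cl.1 hp)
      rw [if_pos hb, if_pos hb, if_neg hc, abs_le]
      constructor <;> linarith
    · rw [if_neg hb, if_neg hb]
      by_cases hc : k ∈ Cl u ω c
      · have h3 := diff (H.cf.unit k) (H.cf.unit p) hω0.le hω1 hac.symm (mem_Cl.1 hc) (mem_Cl.1 hp)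
        rw [if_pos hc, if_pos hc, abs_le]
        constructor <;> linarith
      · rw [if_neg hc, if_neg hc, abs_le]
        constructor <;> linarith

private theorem G1_errsum {u : Fin n → V} {ω σ : ℝ} {Ty : Finset (Fin n)} (H : Fr u ω σ Ty)
    (a b c : Fin 3) : ∑ k, G1_err u ω a b c k ≤ 8 * ω * n + 3 * σ * n := by
  unfold G1_err
  rw [sum_add_distrib, sum_sub_distrib, sum_sub_distrib, sum_sub_distrib, sum_boole, sum_boole,
    sum_boole, sum_const, sum_const, card_univ, Fintype.card_fin]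
  simp only [filter_mem_eq_inter, univ_inter, nsmul_eq_mul]
  have h1 := H.sz a
  have h2 := H.sz b
  have h3 := H.sz c
  nlinarith

private theorem G1_main {u : Fin n → V} {ω σ : ℝ} {Ty : Finset (Fin n)} (H : Fr u ω σ Ty)
    {a b c : Fin 3} (hab : a ≠ b) (hac : a ≠ c) (hbc : b ≠ c) {p : Fin n} (hp : p ∈ Cl u ω a)
    (hpT : p ∈ Ty) (F : Finset (Finset (Fin n))) (hF : F ⊆ thr u p) :
    ∑ l ∈ F, |∑ k ∈ l, G1_chi u ω a b c k| ≤ 20 * σ * n := by
  have hω0 := H.ω0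
  have hωσ := H.ωσ
  have hn0 : (0 : ℝ) ≤ n := Nat.cast_nonneg n
  have herr : ∀ k, 0 ≤ G1_err u ω a b c k := fun k =>
    le_trans (abs_nonneg _) (G1_term H hab hac hbc hp k)
  have hepp : G1_err u ω a b c p = 8 * ω := by
    have hb : p ∉ Cl u ω b := fun hb => (disjoint_left.1 (cl_disj H hab)) hp hb
    have hc : p ∉ Cl u ω c := fun hc => (disjoint_left.1 (cl_disj H hac)) hp hc
    unfold G1_err
    rw [if_pos hp, if_neg hb, if_neg hc]
    ring
  have h1 : ∀ l ∈ thr u p, |∑ k ∈ l, G1_chi u ω a b c k| ≤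
      s u l + ∑ k ∈ l, G1_err u ω a b c k := by
    intro l hl
    obtain ⟨hl1, hl2⟩ := mem_thr.1 hl
    have h2 := cmp_self H.cf hl1 hl2
    have h3 : |∑ k ∈ l, (2 * (dot (u k) (u p)) ^ 2 - 1) - ∑ k ∈ l, G1_chi u ω a b c k| ≤
        ∑ k ∈ l, G1_err u ω a b c k := by
      rw [← sum_sub_distrib]
      exact le_trans (abs_sum_le_sum_abs _ _)
        (sum_le_sum fun k _ => G1_term H hab hac hbc hp k)
    rw [abs_le] at h2 h3 ⊢
    constructor <;> linarith [h2.1, h2.2, h3.1, h3.2]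
  have h4 : ∑ l ∈ F, |∑ k ∈ l, G1_chi u ω a b c k| ≤
      ∑ l ∈ thr u p, (s u l + ∑ k ∈ l, G1_err u ω a b c k) :=
    le_trans (sum_le_sum_of_subset_of_nonneg hF fun _ _ _ => abs_nonneg _) (sum_le_sum h1)
  rw [sum_add_distrib] at h4
  have h5 : ∑ l ∈ thr u p, ∑ k ∈ l, G1_err u ω a b c k =
      ((thr u p).card : ℝ) * (8 * ω) + ∑ k ∈ univ.erase p, G1_err u ω a b c k := by
    rw [← sum_thr H.cf p (G1_err u ω a b c), ← nsmul_eq_mul, ← sum_const, ← sum_add_distrib]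
    apply sum_congr rfl
    intro l hl
    rw [← hepp, add_sum_erase l _ (mem_thr.1 hl).2]
  have h6 : ∑ k ∈ univ.erase p, G1_err u ω a b c k ≤ ∑ k, G1_err u ω a b c k :=
    sum_le_sum_of_subset_of_nonneg (erase_subset _ _) fun k _ _ => herr k
  have h7 := G1_errsum H a b c
  have h8 := thr_card_le H.cf p
  have h9 := H.sm p hpT
  have h10 : ((thr u p).card : ℝ) * (8 * ω) ≤ n * (8 * ω) :=
    mul_le_mul_of_nonneg_right (by linarith) (by linarith)
  have h11 : ω * n ≤ σ * n := mul_le_mul_of_nonneg_right hωσ hn0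
  nlinarith

private theorem G1_swap {u : Fin n → V} (h : Cf u) (p : Fin n)
    (f : Fin n → Finset (Fin n) → ℝ) :
    ∑ l ∈ thr u p, ∑ k ∈ l.erase p, f k l = ∑ k ∈ univ.erase p, f k (ln u p k) := by
  rw [← sum_thr h p (fun k => f k (ln u p k))]
  apply sum_congr rfl
  intro l hl
  apply sum_congr rfl
  intro k hk
  obtain ⟨hl1, hl2⟩ := mem_thr.1 hl
  rw [mem_erase] at hk
  have h1 : l = ln u p k := eq_ln h hl1 hl2 hk.2 (Ne.symm hk.1)
  rw [← h1]

/-- the sum of `chi` over the lines of a subset -/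
private theorem G1_chisum {u : Fin n → V} {ω σ : ℝ} {Ty : Finset (Fin n)} (H : Fr u ω σ Ty)
    (a b c : Fin 3) {p : Fin n} (hp : p ∈ Cl u ω a)
    (P : Finset (Fin n) → Prop) [DecidablePred P] :
    ∑ l ∈ (thr u p).filter P, ∑ k ∈ l, G1_chi u ω a b c k =
      (((thr u p).filter P).card : ℝ) +
        ∑ k ∈ univ.erase p, (if P (ln u p k) then G1_chi u ω a b c k else 0) := by
  have hchip : G1_chi u ω a b c p = 1 := by
    unfold G1_chi
    rw [if_pos hp]
  rw [← G1_swap H.cf p (fun k l => if P l then G1_chi u ω a b c k else 0), sum_filter,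
    card_filter]
  push_cast
  rw [← sum_add_distrib]
  apply sum_congr rfl
  intro l hl
  by_cases hP : P l
  · simp only [if_pos hP]
    rw [← hchip, add_sum_erase l _ (mem_thr.1 hl).2]
  · simp only [if_neg hP, sum_const_zero, add_zero]

private theorem G1_mem_lmt {u : Fin n → V} {ω : ℝ} {b : Fin 3} {p k : Fin n} (hk : p ≠ k) :
    ln u p k ∈ lmt u ω b p ↔ ∃ r ∈ Cl u ω b, det (u p) (u k) (u r) = 0 := by
  rw [mem_lmt, mem_thr]
  constructor
  · rintro ⟨_, q, hq, hqb⟩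
    exact ⟨q, hqb, mem_ln.1 hq⟩
  · rintro ⟨r, hr, h0⟩
    exact ⟨⟨ln_mem u hk, ln_left u p k⟩, r, mem_ln.2 h0, hr⟩

theorem g1a {u : Fin n → V} {ω σ : ℝ} {Ty : Finset (Fin n)} (H : Fr u ω σ Ty) {a b c : Fin 3}
    (hab : a ≠ b) (hac : a ≠ c) (hbc : b ≠ c) {p : Fin n} (hp : p ∈ Cl u ω a) (hpT : p ∈ Ty) :
    |((pn u ω a b p).card : ℝ) + ((lmt u ω b p).card : ℝ) - n / 3| ≤ 60 * σ * n := by
  classical
  have hF : (thr u p).filter (fun l => l ∈ lmt u ω b p) = lmt u ω b p := by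
    ext l
    rw [mem_filter]
    constructor
    · exact fun h => h.2
    · exact fun h => ⟨(mem_lmt.1 h).1, h⟩
  have h1 := G1_main H hab hac hbc hp hpT ((thr u p).filter (fun l => l ∈ lmt u ω b p))
    (filter_subset _ _)
  have h2 := G1_chisum H a b c hp (fun l => l ∈ lmt u ω b p)
  have h3 := le_trans (abs_sum_le_sum_abs (fun l => ∑ k ∈ l, G1_chi u ω a b c k)
    ((thr u p).filter (fun l => l ∈ lmt u ω b p))) h1
  rw [h2, hF] at h3
  have h4 : ∑ k ∈ univ.erase p, (if ln u p k ∈ lmt u ω b p then G1_chi u ω a b c k else 0) =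
      ∑ k ∈ univ.erase p, ((if k ∈ pn u ω a b p then (1 : ℝ) else 0) -
        (if k ∈ Cl u ω b then (1 : ℝ) else 0)) := by
    apply sum_congr rfl
    intro k hk
    have hkp : p ≠ k := fun h => (mem_erase.1 hk).1 h.symm
    have hiff := G1_mem_lmt (u := u) (ω := ω) (b := b) hkp
    by_cases hka : k ∈ Cl u ω a
    · have hkb : k ∉ Cl u ω b := fun hb => (disjoint_left.1 (cl_disj H hab)) hka hb
      have hpn : k ∈ pn u ω a b p ↔ ln u p k ∈ lmt u ω b p := by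
        rw [hiff, mem_pn]
        exact ⟨fun h => h.2.2, fun h => ⟨hka, hkp.symm, h⟩⟩
      rw [if_neg hkb, sub_zero]
      unfold G1_chi
      rw [if_pos hka]
      by_cases hl : ln u p k ∈ lmt u ω b p
      · rw [if_pos hl, if_pos (hpn.2 hl)]
      · rw [if_neg hl, if_neg (fun h => hl (hpn.1 h))]
    · have hpn : k ∉ pn u ω a b p := fun h => hka (mem_pn.1 h).1
      rw [if_neg hpn, zero_sub]
      unfold G1_chi
      rw [if_neg hka]
      by_cases hkb : k ∈ Cl u ω b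
      · have hl : ln u p k ∈ lmt u ω b p := by
          rw [hiff]
          exact ⟨k, hkb, mem_ln.1 (ln_right u p k)⟩
        rw [if_pos hl, if_pos hkb, if_pos hkb]
      · rw [if_neg hkb, if_neg hkb, neg_zero]
        by_cases hkc : k ∈ Cl u ω c
        · have hl : ln u p k ∉ lmt u ω b p := by
            rw [hiff]
            rintro ⟨r, hr, h0⟩
            exact disj H hab hac hbc (ln_mem u hkp) (ln_left u p k) (mem_ln.2 h0)
              (ln_right u p k) hp hr hkc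
          rw [if_neg hl]
        · rw [if_neg hkc]
          split_ifs <;> rfl
  have hpb : p ∉ Cl u ω b := fun hb => (disjoint_left.1 (cl_disj H hab)) hp hb
  have hpp : p ∉ pn u ω a b p := fun h => (mem_pn.1 h).2.1 rfl
  have h5 : ∑ k ∈ univ.erase p, ((if k ∈ pn u ω a b p then (1 : ℝ) else 0) -
        (if k ∈ Cl u ω b then (1 : ℝ) else 0)) =
      ((pn u ω a b p).card : ℝ) - (Cl u ω b).card := by
    have h6 := add_sum_erase univ (fun k => ((if k ∈ pn u ω a b p then (1 : ℝ) else 0) -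
        (if k ∈ Cl u ω b then (1 : ℝ) else 0))) (mem_univ p)
    rw [if_neg hpp, if_neg hpb, sub_zero, zero_add] at h6
    rw [h6, sum_sub_distrib, sum_boole, sum_boole]
    simp only [filter_mem_eq_inter, univ_inter]
  rw [h4, h5] at h3
  have h7 := H.sz b
  have h8 := cl_le H b
  have hσn : 0 ≤ σ * n := by
    have := H.big
    linarith
  rw [abs_le] at h3 ⊢
  constructor <;> nlinarith [h3.1, h3.2]

/-- the lines through `p` that meet neither cluster -/
private theorem G1_F' {u : Fin n → V} {ω σ : ℝ} {Ty : Finset (Fin n)} (H : Fr u ω σ Ty)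
    {a b c : Fin 3}
    (hab : a ≠ b) (hac : a ≠ c) (hbc : b ≠ c) {p : Fin n} (hp : p ∈ Cl u ω a) (hpT : p ∈ Ty)
    [DecidablePred (fun l => l ∉ lmt u ω b p ∧ l ∉ lmt u ω c p)] :
    (((thr u p).filter (fun l => l ∉ lmt u ω b p ∧ l ∉ lmt u ω c p)).card : ℝ) +
      (((Cl u ω a).filter (fun k => k ≠ p ∧ ln u p k ∉ lmt u ω b p ∧
        ln u p k ∉ lmt u ω c p)).card : ℝ) ≤ 20 * σ * n := by
  have h1 := G1_main H hab hac hbc hp hpT
    ((thr u p).filter (fun l => l ∉ lmt u ω b p ∧ l ∉ lmt u ω c p)) (filter_subset _ _)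
  have h2 := G1_chisum H a b c hp (fun l => l ∉ lmt u ω b p ∧ l ∉ lmt u ω c p)
  have h3 := le_trans (le_abs_self _) (le_trans (abs_sum_le_sum_abs
    (fun l => ∑ k ∈ l, G1_chi u ω a b c k)
    ((thr u p).filter (fun l => l ∉ lmt u ω b p ∧ l ∉ lmt u ω c p))) h1)
  rw [h2] at h3
  have h4 : ∑ k ∈ univ.erase p, (if (ln u p k ∉ lmt u ω b p ∧ ln u p k ∉ lmt u ω c p) then
      G1_chi u ω a b c k else 0) =
      ∑ k ∈ univ.erase p, (if (k ∈ Cl u ω a ∧ (k ≠ p ∧ ln u p k ∉ lmt u ω b p ∧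
        ln u p k ∉ lmt u ω c p)) then (1 : ℝ) else 0) := by
    apply sum_congr rfl
    intro k hk
    have hkp : p ≠ k := fun h => (mem_erase.1 hk).1 h.symm
    have hiffb := G1_mem_lmt (u := u) (ω := ω) (b := b) hkp
    have hiffc := G1_mem_lmt (u := u) (ω := ω) (b := c) hkp
    by_cases hl : ln u p k ∉ lmt u ω b p ∧ ln u p k ∉ lmt u ω c p
    · rw [if_pos hl]
      have hkb : k ∉ Cl u ω b := fun hkb =>
        hl.1 (hiffb.2 ⟨k, hkb, mem_ln.1 (ln_right u p k)⟩)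
      have hkc : k ∉ Cl u ω c := fun hkc =>
        hl.2 (hiffc.2 ⟨k, hkc, mem_ln.1 (ln_right u p k)⟩)
      unfold G1_chi
      by_cases hka : k ∈ Cl u ω a
      · rw [if_pos hka, if_pos ⟨hka, hkp.symm, hl⟩]
      · rw [if_neg hka, if_neg hkb, if_neg hkc, if_neg (fun h => hka h.1)]
    · rw [if_neg hl, if_neg (fun h => hl h.2.2)]
  have h5 : ∑ k ∈ univ.erase p, (if (k ∈ Cl u ω a ∧ (k ≠ p ∧ ln u p k ∉ lmt u ω b p ∧
        ln u p k ∉ lmt u ω c p)) then (1 : ℝ) else 0) =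
      (((Cl u ω a).filter (fun k => k ≠ p ∧ ln u p k ∉ lmt u ω b p ∧
        ln u p k ∉ lmt u ω c p)).card : ℝ) := by
    rw [sum_boole]
    congr 2
    ext k
    simp only [mem_filter, mem_erase, mem_univ, and_true]
    tauto
  rw [h4, h5] at h3
  exact h3

theorem g1b {u : Fin n → V} {ω σ : ℝ} {Ty : Finset (Fin n)} (H : Fr u ω σ Ty) {a b c : Fin 3}
    (hab : a ≠ b) (hac : a ≠ c) (hbc : b ≠ c) {p : Fin n} (hp : p ∈ Cl u ω a) (hpT : p ∈ Ty) :
    (1 / 3 - 60 * σ) * n ≤ ((pn u ω a b p).card : ℝ) + ((pn u ω a c p).card : ℝ) := by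
  classical
  have h1 := G1_F' H hab hac hbc hp hpT
  have h2 : (0 : ℝ) ≤ (((thr u p).filter (fun l => l ∉ lmt u ω b p ∧ l ∉ lmt u ω c p)).card : ℝ) :=
    Nat.cast_nonneg _
  have h3 : (Cl u ω a).erase p ⊆ (pn u ω a b p ∪ pn u ω a c p) ∪
      (Cl u ω a).filter (fun k => k ≠ p ∧ ln u p k ∉ lmt u ω b p ∧ ln u p k ∉ lmt u ω c p) := by
    intro k hk
    rw [mem_erase] at hk
    have hkp : p ≠ k := fun h => hk.1 h.symm
    rw [mem_union, mem_union, mem_filter, mem_pn, mem_pn, G1_mem_lmt hkp, G1_mem_lmt hkp]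
    by_cases hb : ∃ r ∈ Cl u ω b, det (u p) (u k) (u r) = 0
    · exact Or.inl (Or.inl ⟨hk.2, hk.1, hb⟩)
    · by_cases hc : ∃ r ∈ Cl u ω c, det (u p) (u k) (u r) = 0
      · exact Or.inl (Or.inr ⟨hk.2, hk.1, hc⟩)
      · exact Or.inr ⟨hk.2, hk.1, hb, hc⟩
  have h4 : ((Cl u ω a).erase p).card ≤ ((pn u ω a b p).card + (pn u ω a c p).card) +
      ((Cl u ω a).filter (fun k => k ≠ p ∧ ln u p k ∉ lmt u ω b p ∧
        ln u p k ∉ lmt u ω c p)).card :=
    le_trans (card_le_card h3) (le_trans (card_union_le _ _)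
      (Nat.add_le_add_right (card_union_le _ _) _))
  have h5 : ((Cl u ω a).erase p).card + 1 = (Cl u ω a).card := card_erase_add_one hp
  have h6 : ((Cl u ω a).card : ℝ) ≤ ((pn u ω a b p).card + (pn u ω a c p).card) +
      (((Cl u ω a).filter (fun k => k ≠ p ∧ ln u p k ∉ lmt u ω b p ∧
        ln u p k ∉ lmt u ω c p)).card : ℝ) + 1 := by
    rw [← h5]
    exact_mod_cast Nat.add_le_add_right h4 1
  have h7 := H.sz a
  have h8 := H.big
  nlinarith

theorem pn_disj {u : Fin n → V} {ω σ : ℝ} {Ty : Finset (Fin n)} (H : Fr u ω σ Ty) {a b c : Fin 3}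
    (hab : a ≠ b) (hac : a ≠ c) (hbc : b ≠ c) {p : Fin n} (hp : p ∈ Cl u ω a) :
    Disjoint (pn u ω a b p) (pn u ω a c p) := by
  rw [disjoint_left]
  intro q hqb hqc
  obtain ⟨_, hqp, r, hr, h0⟩ := mem_pn.1 hqb
  obtain ⟨_, _, r', hr', h0'⟩ := mem_pn.1 hqc
  exact disj H hab hac hbc (ln_mem u (Ne.symm hqp)) (ln_left u p q) (mem_ln.2 h0) (mem_ln.2 h0')
    hp hr hr'

open Classical in
theorem g1c {u : Fin n → V} {ω σ : ℝ} {Ty : Finset (Fin n)} (H : Fr u ω σ Ty) {a b c : Fin 3}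
    (hab : a ≠ b) (hac : a ≠ c) (hbc : b ≠ c) {p : Fin n} (hp : p ∈ Cl u ω a) (hpT : p ∈ Ty) :
    (((thr u p).filter (fun l => l ∉ lmt u ω b p ∧ l ∉ lmt u ω c p)).card : ℝ) ≤
      60 * σ * n := by
  have h1 := G1_F' H hab hac hbc hp hpT
  have h2 : (0 : ℝ) ≤ (((Cl u ω a).filter (fun k => k ≠ p ∧ ln u p k ∉ lmt u ω b p ∧
        ln u p k ∉ lmt u ω c p)).card : ℝ) := Nat.cast_nonneg _
  have h3 := H.big
  nlinarith

end H52.Dir
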