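import Pool.Agent.H52.Dir.G1
import Pool.Agent.H52.Dir.Beck

/-!
# Module G2 (120 lines): few points have few partners of one type

PROOF. Let `C₁` be the constant of `beck`, `ρ = 1/20`, `κ' = 2 κ`; `C = C₁ * 4 / ρ⁴ + 1` and larger if
necessary so that `κ ≤ 1 / C` implies `2 κ ≤ ρ³ / C₁` and `κ ≤ 1/20`. `N₀` from `beck ρ κ'`,
`σ₀ = min (κ / 200) (κ²) (1 / (N₀ + 1))` (so `σ n ≥ 1` gives `n ≥ N₀`), also `≤ 1/10000`.
Let `c` be the third index, `p ∈ Cl a ∩ Ty`, `|pn a b p| ≤ κ n`, `p ∉ X`. Then `|pn a c p| ≥ (1/3 - 60 σ - κ) n`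
(`g1b`) and `|lmt c p| ≤ n/3 + 60 σ n - |pn a c p| ≤ (κ + 120 σ) n ≤ 2 κ n` (`g1a` for `c`). With
`F = lmt c p ⊆ thr u p`: the union of `F` contains `Cl c` (every `q ∈ Cl c` is on the line `pq`) and
`pn a c p`, two disjoint sets, so it has at least `(1/3 - σ) n + (1/3 - 60 σ - κ) n` points. `beck` gives a
line with at least `(2/3 - 61 σ - κ - 1/20) n > (1/3 + σ) n` points, against `K`. So these `p` are in
`X ∪ (univ \ Ty)`: at most `C₁ (2 κ)² / ρ⁴ n + σ n ≤ C κ² n`.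
-/

set_option autoImplicit false

namespace H52.Dir

open Finset

private theorem G2_third (a b : Fin 3) (h : a ≠ b) : ∃ c, a ≠ c ∧ b ≠ c := by
  revert a b
  decide

private theorem G2_claim {n : ℕ} {u : Fin n → V} {ω σ κ : ℝ} {Ty : Finset (Fin n)}
    (H : Fr u ω σ Ty) (hκ : 0 < κ) (hκ1 : κ ≤ 1 / 20) (hσ : σ ≤ κ / 200) {a b c : Fin 3}
    (hab : a ≠ b) (hac : a ≠ c) (hbc : b ≠ c) {p : Fin n} (hp : p ∈ Cl u ω a) (hpT : p ∈ Ty)
    (hpn : ((pn u ω a b p).card : ℝ) ≤ κ * n)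
    (hb : ∀ F ⊆ thr u p, (F.card : ℝ) ≤ 2 * κ * n →
        ∃ l ∈ thr u p, (((F.biUnion id) \ l).card : ℝ) ≤ 1 / 20 * n) : False := by
  classical
  have hn : (0 : ℝ) < n := by
    have : 0 < n := lt_of_le_of_lt (Nat.zero_le _) p.2
    exact_mod_cast this
  have h1 := g1b H hab hac hbc hp hpT
  have h2 := (abs_le.mp (g1a H hac hab (Ne.symm hbc) hp hpT)).2
  have hsn : σ * n ≤ κ / 200 * n := mul_le_mul_of_nonneg_right hσ hn.le
  have hκn : 0 < κ * n := mul_pos hκ hn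
  obtain ⟨l, hl, hlc⟩ := hb (lmt u ω c p) (fun l hl => (mem_lmt.1 hl).1) (by nlinarith)
  have hlK := H.K l (mem_thr.1 hl).1
  have hsub : Cl u ω c ∪ pn u ω a c p ⊆ (lmt u ω c p).biUnion id := by
    intro q hq
    rw [mem_union] at hq
    rw [mem_biUnion]
    rcases hq with hq | hq
    · have hpq : p ≠ q := by
        rintro rfl
        exact (Finset.disjoint_left.1 (cl_disj H hac) hp) hq
      exact ⟨ln u p q, mem_lmt.2 ⟨mem_thr.2 ⟨ln_mem u hpq, ln_left u p q⟩, q, ln_right u p q, hq⟩,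
        ln_right u p q⟩
    · obtain ⟨-, hqp, r, hr, hd⟩ := mem_pn.1 hq
      exact ⟨ln u p q, mem_lmt.2 ⟨mem_thr.2 ⟨ln_mem u (Ne.symm hqp), ln_left u p q⟩, r,
        mem_ln.2 hd, hr⟩, ln_right u p q⟩
  have hdj : Disjoint (Cl u ω c) (pn u ω a c p) := by
    rw [Finset.disjoint_left]
    intro q hq hq2
    exact (Finset.disjoint_left.1 (cl_disj H hac) (mem_pn.1 hq2).1) hq
  have h3 : ((Cl u ω c).card : ℝ) + ((pn u ω a c p).card : ℝ) ≤
      (((lmt u ω c p).biUnion id).card : ℝ) := by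
    have := card_le_card hsub
    rw [card_union_of_disjoint hdj] at this
    exact_mod_cast this
  have h4 : (((lmt u ω c p).biUnion id).card : ℝ) ≤
      ((((lmt u ω c p).biUnion id) \ l).card : ℝ) + (l.card : ℝ) := by
    have h5 : ((lmt u ω c p).biUnion id).card ≤ (((lmt u ω c p).biUnion id) \ l).card + l.card := by
      have h6 : (lmt u ω c p).biUnion id ⊆ (((lmt u ω c p).biUnion id) \ l) ∪ l := by
        intro q hq
        rw [mem_union, mem_sdiff]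
        by_cases h : q ∈ l
        · exact Or.inr h
        · exact Or.inl ⟨hq, h⟩
      exact (card_le_card h6).trans (card_union_le _ _)
    exact_mod_cast h5
  have h7 := H.sz c
  have h8 : κ * n ≤ 1 / 20 * n := mul_le_mul_of_nonneg_right hκ1 hn.le
  nlinarith

open Classical in
theorem g2 : ∃ C : ℝ, 1 ≤ C ∧ ∀ κ : ℝ, 0 < κ → κ ≤ 1 / C → ∃ σ₀ : ℝ, 0 < σ₀ ∧
    ∀ (n : ℕ) (u : Fin n → V) (ω σ : ℝ) (Ty : Finset (Fin n)), σ ≤ σ₀ → Fr u ω σ Ty →
    ∀ a b : Fin 3, a ≠ b →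
      (((Cl u ω a).filter (fun p => ((pn u ω a b p).card : ℝ) ≤ κ * n)).card : ℝ) ≤
        C * κ ^ 2 * n := by
  obtain ⟨C₁, hC₁, hbeck⟩ := beck
  refine ⟨640000 * C₁ + 1, by linarith, ?_⟩
  intro κ hκ hκC
  have hC : (0 : ℝ) < 640000 * C₁ + 1 := by linarith
  have hκC' : κ * (640000 * C₁ + 1) ≤ 1 := by
    rwa [le_div_iff₀ hC] at hκC
  have hκ1 : κ ≤ 1 / 640001 := by
    rw [le_div_iff₀ (by norm_num)]
    nlinarith
  obtain ⟨N₀, hN₀⟩ := hbeck (1 / 20) (2 * κ) (by norm_num) (by norm_num) (by linarith) (by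
    rw [le_div_iff₀ (by linarith)]
    nlinarith)
  refine ⟨min (κ / 200) (min (κ ^ 2) (1 / ((N₀ : ℝ) + 1))), ?_, ?_⟩
  · refine lt_min (by linarith) (lt_min (by positivity) (by positivity))
  intro n u ω σ Ty hσ H a b hab
  have hσ1 : σ ≤ κ / 200 := hσ.trans (min_le_left _ _)
  have hσ2 : σ ≤ κ ^ 2 := hσ.trans ((min_le_right _ _).trans (min_le_left _ _))
  have hσ3 : σ ≤ 1 / ((N₀ : ℝ) + 1) := hσ.trans ((min_le_right _ _).trans (min_le_right _ _))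
  have hn0 : (0 : ℝ) ≤ n := Nat.cast_nonneg n
  have hnN : N₀ ≤ n := by
    have h1 := H.big
    have h2 : σ * n ≤ 1 / ((N₀ : ℝ) + 1) * n := mul_le_mul_of_nonneg_right hσ3 hn0
    have h3 : (1 : ℝ) ≤ 1 / ((N₀ : ℝ) + 1) * n := h1.trans h2
    have hN : (0 : ℝ) < (N₀ : ℝ) + 1 := by positivity
    rw [one_div, inv_mul_eq_div, le_div_iff₀ hN] at h3
    have h4 : (N₀ : ℝ) ≤ n := by linarith
    exact_mod_cast h4
  obtain ⟨X, hX, hX2⟩ := hN₀ n u hnN H.cf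
  obtain ⟨c, hac, hbc⟩ := G2_third a b hab
  have hsub : (Cl u ω a).filter (fun p => ((pn u ω a b p).card : ℝ) ≤ κ * n) ⊆
      X ∪ ((univ : Finset (Fin n)) \ Ty) := by
    intro p hp
    rw [mem_filter] at hp
    rw [mem_union, mem_sdiff]
    by_contra hcon
    push Not at hcon
    obtain ⟨hpX, hpT⟩ := hcon
    exact G2_claim H hκ (by linarith) hσ1 hab hac hbc hp.1 (hpT (mem_univ p)) hp.2
      (hX2 p hpX)
  have h1 : (((Cl u ω a).filter (fun p => ((pn u ω a b p).card : ℝ) ≤ κ * n)).card : ℝ) ≤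
      (X.card : ℝ) + (((univ : Finset (Fin n)) \ Ty).card : ℝ) := by
    have h2 := (card_le_card hsub).trans (card_union_le _ _)
    exact_mod_cast h2
  have h2 := H.ty
  have h3 : σ * n ≤ κ ^ 2 * n := mul_le_mul_of_nonneg_right hσ2 hn0
  have h4 : C₁ * (2 * κ) ^ 2 / (1 / 20 : ℝ) ^ 4 * n = 640000 * C₁ * κ ^ 2 * n := by ring
  rw [h4] at hX
  have h5 : (640000 * C₁ + 1) * κ ^ 2 * n = 640000 * C₁ * κ ^ 2 * n + κ ^ 2 * n := by ring
  rw [h5]
  linarith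

end H52.Dir
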