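import Pool.Agent.H52.Dir.G2

/-!
# Module G3 (120 lines): the tail of the cluster `Cl 0` in the chart

`cx u b i = u i b / u i 0`, `dd u i j` = sup distance of `(cx 1, cx 2)`.

PROOF. `C = 2 C₂` with `C₂` the constant of `g2`. Let `q ∈ Cl 0` with `d = dd u o q > 4 R`. Claim: there
are no `b, b' ∈ Cl 0`, `dd u o b ≤ R`, `dd u o b' ≤ R` (automatically different from `q`) with `b ∈ pn 0 1 q` and
`b' ∈ pn 0 2 q`. Suppose so; `ε = 2 √ω ≤ 1/50`. By `slp` (`b ∈ pn 0 1 q`: index 1 cluster, so the line is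
nearly parallel to the first coordinate) `|y_q - y_b| ≤ ε |x_q - x_b|`, and `|x_q - x_b'| ≤ ε |y_q - y_b'|`
(`x = cx 1`, `y = cx 2`). `dd q b ≥ d - R`, so `|x_q - x_b| ≥ d - R`, hence by the triangle inequality
`|x_q - x_b'| ≥ d - R - 2 R = d - 3 R > d / 4`, but `|x_q - x_b'| ≤ ε (d + R) ≤ ε * 5 d / 4 ≤ d / 40`,
contradiction. So `pn 0 1 q` or `pn 0 2 q` is contained in `{b ∈ Cl 0 : R < dd u o b}` and has at most
`e n` points. By `g2` (with `κ = e`) there are at most `2 C₂ e² n` such `q`.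
-/

set_option autoImplicit false

namespace H52.Dir

open Finset

variable {n : ℕ}

noncomputable def cx (u : Fin n → V) (b : Fin 3) (i : Fin n) : ℝ := u i b / u i 0

noncomputable def dd (u : Fin n → V) (i j : Fin n) : ℝ :=
  max |cx u 1 i - cx u 1 j| |cx u 2 i - cx u 2 j|

private theorem G3_ineq {xq yq xb yb xb' yb' xo yo ε R : ℝ} (hε0 : 0 ≤ ε) (hε : ε ≤ 1 / 50)
    (hR : 0 ≤ R) (hd : 4 * R < max |xo - xq| |yo - yq|)
    (hb : max |xo - xb| |yo - yb| ≤ R) (hb' : max |xo - xb'| |yo - yb'| ≤ R)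
    (h1 : |yq - yb| ≤ ε * |xq - xb|) (h2 : |xq - xb'| ≤ ε * |yq - yb'|) : False := by
  have b1 := (le_max_left _ _).trans hb
  have b2 := (le_max_right _ _).trans hb
  have b3 := (le_max_left _ _).trans hb'
  have b4 := (le_max_right _ _).trans hb'
  rw [abs_le] at b1 b2 b3 b4
  have a1 := abs_nonneg (xq - xb)
  have a2 := abs_nonneg (yq - yb')
  have c1 : |yq - yb| ≤ 1 / 50 * |xq - xb| := h1.trans (mul_le_mul_of_nonneg_right hε a1)
  have c2 : |xq - xb'| ≤ 1 / 50 * |yq - yb'| := h2.trans (mul_le_mul_of_nonneg_right hε a2)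
  have key : ∀ x y : ℝ, |x| ≤ 1 / 50 * |y| → -(1 / 50 * |y|) ≤ x ∧ x ≤ 1 / 50 * |y| := by
    intro x y h
    exact abs_le.mp h
  obtain ⟨c3, c4⟩ := key _ _ c1
  obtain ⟨c5, c6⟩ := key _ _ c2
  rcases lt_max_iff.1 hd with hd | hd
  · rcases abs_cases (xq - xb) with ⟨e1, -⟩ | ⟨e1, -⟩ <;>
      rcases abs_cases (yq - yb') with ⟨e2, -⟩ | ⟨e2, -⟩ <;>
      rcases abs_cases (xo - xq) with ⟨e3, -⟩ | ⟨e3, -⟩ <;>
      rw [e1] at c3 c4 <;> rw [e2] at c5 c6 <;> rw [e3] at hd <;> linarith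
  · rcases abs_cases (xq - xb) with ⟨e1, -⟩ | ⟨e1, -⟩ <;>
      rcases abs_cases (yq - yb') with ⟨e2, -⟩ | ⟨e2, -⟩ <;>
      rcases abs_cases (yo - yq) with ⟨e3, -⟩ | ⟨e3, -⟩ <;>
      rw [e1] at c3 c4 <;> rw [e2] at c5 c6 <;> rw [e3] at hd <;> linarith

open Classical in
theorem tail : ∃ C : ℝ, 1 ≤ C ∧ ∀ e : ℝ, 0 < e → e ≤ 1 / C → ∃ σ₀ : ℝ, 0 < σ₀ ∧
    ∀ (n : ℕ) (u : Fin n → V) (ω σ : ℝ) (Ty : Finset (Fin n)), σ ≤ σ₀ → Fr u ω σ Ty →
    ∀ (o : Fin n) (R : ℝ), 0 ≤ R →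
      (((Cl u ω 0).filter (fun q => R < dd u o q)).card : ℝ) ≤ e * n →
      (((Cl u ω 0).filter (fun q => 4 * R < dd u o q)).card : ℝ) ≤ C * e ^ 2 * n := by
  obtain ⟨C₂, hC₂, h2⟩ := g2
  refine ⟨2 * C₂, by linarith, ?_⟩
  intro e he heC
  have heC2 : e ≤ 1 / C₂ := heC.trans (one_div_le_one_div_of_le (by linarith) (by linarith))
  obtain ⟨σ₀, hσ₀, h3⟩ := h2 e he heC2
  refine ⟨σ₀, hσ₀, ?_⟩
  intro n u ω σ Ty hσ H o R hR hcard
  have g01 := h3 n u ω σ Ty hσ H 0 1 (by decide)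
  have g02 := h3 n u ω σ Ty hσ H 0 2 (by decide)
  have hω1 : ω ≤ 1 / 10000 := H.ωσ.trans H.σ1
  have hsub : (Cl u ω 0).filter (fun q => 4 * R < dd u o q) ⊆
      (Cl u ω 0).filter (fun p => ((pn u ω 0 1 p).card : ℝ) ≤ e * n) ∪
      (Cl u ω 0).filter (fun p => ((pn u ω 0 2 p).card : ℝ) ≤ e * n) := by
    intro q hq
    rw [mem_filter] at hq
    obtain ⟨hq0, hqd⟩ := hq
    rw [mem_union, mem_filter, mem_filter]
    by_contra hcon
    push Not at hcon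
    have hc1 := hcon.1 hq0
    have hc2 := hcon.2 hq0
    have ex : ∀ b : Fin 3, e * n < ((pn u ω 0 b q).card : ℝ) →
        ∃ b' ∈ pn u ω 0 b q, dd u o b' ≤ R := by
      intro b hb
      by_contra hno
      push Not at hno
      have h4 : pn u ω 0 b q ⊆ (Cl u ω 0).filter (fun q => R < dd u o q) := by
        intro r hr
        rw [mem_filter]
        exact ⟨(mem_pn.1 hr).1, hno r hr⟩
      have h5 : ((pn u ω 0 b q).card : ℝ) ≤
          (((Cl u ω 0).filter (fun q => R < dd u o q)).card : ℝ) := by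
        exact_mod_cast card_le_card h4
      linarith
    obtain ⟨b, hb, hbR⟩ := ex 1 hc1
    obtain ⟨b', hb', hbR'⟩ := ex 2 hc2
    obtain ⟨hb0, -, r, hr, hdr⟩ := mem_pn.1 hb
    obtain ⟨hb0', -, r', hr', hdr'⟩ := mem_pn.1 hb'
    have s1 := slp (H.cf.unit q) (H.cf.unit b) (H.cf.unit r) H.ω0.le hω1 (b := 1) (c := 2)
      (by decide) (by decide) (by decide) (mem_Cl.1 hq0) (mem_Cl.1 hb0) (mem_Cl.1 hr) hdr
    have s2 := slp (H.cf.unit q) (H.cf.unit b') (H.cf.unit r') H.ω0.le hω1 (b := 2) (c := 1)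
      (by decide) (by decide) (by decide) (mem_Cl.1 hq0) (mem_Cl.1 hb0') (mem_Cl.1 hr') hdr'
    have hs1 : Real.sqrt ω ≤ 1 / 100 := by
      rw [show (1 / 100 : ℝ) = Real.sqrt ((1 / 100) ^ 2) from (Real.sqrt_sq (by norm_num)).symm]
      exact Real.sqrt_le_sqrt (by linarith)
    refine G3_ineq (xq := cx u 1 q) (yq := cx u 2 q) (xb := cx u 1 b) (yb := cx u 2 b)
      (xb' := cx u 1 b') (yb' := cx u 2 b') (xo := cx u 1 o) (yo := cx u 2 o)
      (ε := 2 * Real.sqrt ω) (R := R) (by positivity) (by linarith) hR hqd hbR hbR' ?_ ?_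
    · exact s1
    · exact s2
  have h4 : (((Cl u ω 0).filter (fun q => 4 * R < dd u o q)).card : ℝ) ≤
      (((Cl u ω 0).filter (fun p => ((pn u ω 0 1 p).card : ℝ) ≤ e * n)).card : ℝ) +
      (((Cl u ω 0).filter (fun p => ((pn u ω 0 2 p).card : ℝ) ≤ e * n)).card : ℝ) := by
    have h5 := (card_le_card hsub).trans (card_union_le _ _)
    exact_mod_cast h5
  linarith

end H52.Dir
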