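import Mathlib

/-!
# Module G4a (80 lines): a minimal radius

`minrad`: a minimal radius. PROOF. For `p ∈ K` the set of values `R' ∈ {d p q : q ∈ K}` with
`#{q ∈ K : R' < d p q} ≤ E` is nonempty (the maximum of `d p` on `K`); let `R_p` be the smallest one and
let `o` minimise `R_p` over `K`, `R = R_o`. For `p ∈ K`: if `#{q ∈ K : R ≤ d p q} ≤ E`, then, since
`|K| > E`, there are `q ∈ K` with `d p q < R`; let `R'` be the largest such value `d p q`; then
`{q : R' < d p q} = {q : R ≤ d p q}`, so `R_p ≤ R' < R`, contradiction. `R > 0`: if `R ≤ 0` then `R = 0`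
(`d ≥ 0`) and `#{q ∈ K : 0 < d o q} = |K| - #{q : d o q = 0} ≤ E` with `#{q : d o q = 0} ≤ 1` by
`hd1`, against `E + 1 < |K|`.
-/

set_option autoImplicit false

namespace H52.Dir

open Finset

theorem minrad {ι : Type} (K : Finset ι) (d : ι → ι → ℝ) (hd : ∀ i j, 0 ≤ d i j)
    (hd1 : ∀ p ∈ K, ((K.filter (fun q => d p q ≤ 0)).card : ℝ) ≤ 1) (E : ℝ) (hE : 0 ≤ E)
    (hK : E + 1 < K.card) :
    ∃ o ∈ K, ∃ R : ℝ, 0 < R ∧ ((K.filter (fun q => R < d o q)).card : ℝ) ≤ E ∧
      ∀ p ∈ K, E < ((K.filter (fun q => R ≤ d p q)).card : ℝ) := by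
  classical
  set S : ι → Finset ℝ := fun p =>
    (K.image (d p)).filter (fun R' => ((K.filter (fun q => R' < d p q)).card : ℝ) ≤ E) with hS
  have hKpos : (0 : ℝ) < K.card := by linarith
  have hKne : K.Nonempty := Finset.card_pos.1 (by exact_mod_cast hKpos)
  have hSne : ∀ p, (S p).Nonempty := by
    intro p
    obtain ⟨q, hq, hmax⟩ := Finset.exists_max_image K (d p) hKne
    refine ⟨d p q, ?_⟩
    rw [hS]
    simp only [Finset.mem_filter]
    refine ⟨Finset.mem_image_of_mem _ hq, ?_⟩
    have h0 : K.filter (fun q' => d p q < d p q') = ∅ := by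
      rw [Finset.filter_eq_empty_iff]
      intro q' hq'
      exact not_lt.2 (hmax q' hq')
    rw [h0]
    simpa using hE
  set T : Finset ℝ := K.biUnion S with hT
  have hTne : T.Nonempty := by
    obtain ⟨p, hp⟩ := hKne
    obtain ⟨r, hr⟩ := hSne p
    exact ⟨r, Finset.mem_biUnion.2 ⟨p, hp, hr⟩⟩
  obtain ⟨o, ho, hRo⟩ := Finset.mem_biUnion.1 (T.min'_mem hTne)
  have hRo' := Finset.mem_filter.1 hRo
  refine ⟨o, ho, T.min' hTne, ?_, hRo'.2, ?_⟩
  · by_contra hc
    push Not at hc
    have h1 : K.filter (fun q => 0 < d o q) ⊆ K.filter (fun q => T.min' hTne < d o q) := by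
      intro q hq
      rw [Finset.mem_filter] at hq ⊢
      exact ⟨hq.1, lt_of_le_of_lt hc hq.2⟩
    have h2 : ((K.filter (fun q => 0 < d o q)).card : ℝ) ≤ E := by
      have h3 : ((K.filter (fun q => 0 < d o q)).card : ℝ) ≤
          ((K.filter (fun q => T.min' hTne < d o q)).card : ℝ) := by
        exact_mod_cast Finset.card_le_card h1
      linarith [hRo'.2]
    have h3 := Finset.card_filter_add_card_filter_not (s := K) (fun q => d o q ≤ 0)
    have h4 : K.filter (fun q => ¬ d o q ≤ 0) = K.filter (fun q => 0 < d o q) := by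
      refine Finset.filter_congr (fun q _ => ?_)
      exact not_le
    rw [h4] at h3
    have h5 : ((K.filter (fun q => d o q ≤ 0)).card : ℝ) +
        ((K.filter (fun q => 0 < d o q)).card : ℝ) = K.card := by exact_mod_cast h3
    have h6 := hd1 o ho
    linarith
  · intro p hp
    by_contra hc
    push Not at hc
    have h3 := Finset.card_filter_add_card_filter_not (s := K) (fun q => T.min' hTne ≤ d p q)
    have h5 : ((K.filter (fun q => T.min' hTne ≤ d p q)).card : ℝ) +
        ((K.filter (fun q => ¬ T.min' hTne ≤ d p q)).card : ℝ) = K.card := by exact_mod_cast h3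
    have h6 : (0 : ℝ) < ((K.filter (fun q => ¬ T.min' hTne ≤ d p q)).card : ℝ) := by linarith
    have h7 : (K.filter (fun q => ¬ T.min' hTne ≤ d p q)).Nonempty :=
      Finset.card_pos.1 (by exact_mod_cast h6)
    obtain ⟨q, hq, hmax⟩ := Finset.exists_max_image _ (d p) h7
    rw [Finset.mem_filter] at hq
    have hlt : d p q < T.min' hTne := not_le.1 hq.2
    have hmem : d p q ∈ T := by
      refine Finset.mem_biUnion.2 ⟨p, hp, ?_⟩
      rw [hS]
      simp only [Finset.mem_filter]
      refine ⟨Finset.mem_image_of_mem _ hq.1, le_trans ?_ hc⟩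
      have hsub : K.filter (fun q' => d p q < d p q') ⊆
          K.filter (fun q' => T.min' hTne ≤ d p q') := by
        intro q' hq'
        rw [Finset.mem_filter] at hq' ⊢
        refine ⟨hq'.1, ?_⟩
        by_contra hcon
        have := hmax q' (Finset.mem_filter.2 ⟨hq'.1, hcon⟩)
        linarith [hq'.2]
      exact_mod_cast Finset.card_le_card hsub
    have := T.min'_le _ hmem
    linarith

end H52.Dir
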