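import Mathlib

/-!
# Module G4b (90 lines): quantile box

`box`: quantiles. PROOF. `t₁` = the smallest value `x i` (`i ∈ K`) with `m ≤ #{q ∈ K : x q ≤ x i}`
(exists: the maximal value, `4 m ≤ E < |K|`), `t₂` = the largest value with `m ≤ #{q ∈ K : x i ≤ x q}`;
`t₁', t₂'` the same for `y`. Then `#{x q < t₁} < m` or this set is empty, so it is `≤ m`, same for the other
three. So at most `4 m ≤ E < |K|` points of `K` are outside of the box
`[t₁, t₂] × [t₁', t₂']`; let `p ∈ K` be in the box. If `t₂ - t₁ < R` and `t₂' - t₁' < R` all points `q` of the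
box have `max |x p - x q| |y p - y q| < R`, so `#{q : R ≤ d p q} ≤ 4 m ≤ E`, contradiction.
-/

set_option autoImplicit false

namespace H52.Dir

open Finset

private theorem quant {ι : Type} (K : Finset ι) (x : ι → ℝ) (m : ℝ) (hm : 0 < m)
    (hmK : m ≤ K.card) : ∃ t : ℝ, m ≤ ((K.filter (fun q => x q ≤ t)).card : ℝ) ∧
      ((K.filter (fun q => x q < t)).card : ℝ) ≤ m := by
  classical
  have hKne : K.Nonempty := by
    rw [← Finset.card_pos]
    have : (0 : ℝ) < K.card := lt_of_lt_of_le hm hmK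
    exact_mod_cast this
  set S := K.filter (fun i => m ≤ ((K.filter (fun q => x q ≤ x i)).card : ℝ)) with hS
  have hSne : S.Nonempty := by
    obtain ⟨i, hi, hmax⟩ := K.exists_max_image x hKne
    refine ⟨i, Finset.mem_filter.2 ⟨hi, ?_⟩⟩
    rw [Finset.filter_true_of_mem hmax]
    exact hmK
  obtain ⟨i, hi, hmin⟩ := S.exists_min_image x hSne
  have hi' := Finset.mem_filter.1 hi
  refine ⟨x i, hi'.2, ?_⟩
  rcases (K.filter (fun q => x q < x i)).eq_empty_or_nonempty with he | hne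
  · rw [he]
    simp only [Finset.card_empty, Nat.cast_zero]
    exact hm.le
  · obtain ⟨j, hj, hmax⟩ := Finset.exists_max_image _ x hne
    have hj' := Finset.mem_filter.1 hj
    have hjS : j ∉ S := fun h => absurd (hmin j h) (not_le.2 hj'.2)
    have h1 : ¬ m ≤ ((K.filter (fun q => x q ≤ x j)).card : ℝ) := fun h =>
      hjS (Finset.mem_filter.2 ⟨hj'.1, h⟩)
    have h2 : ((K.filter (fun q => x q < x i)).card : ℝ) ≤
        ((K.filter (fun q => x q ≤ x j)).card : ℝ) := by
      refine Nat.cast_le.2 (Finset.card_le_card fun q hq => ?_)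
      exact Finset.mem_filter.2 ⟨(Finset.mem_filter.1 hq).1, hmax q hq⟩
    linarith [not_le.1 h1]

private theorem quant2 {ι : Type} (K : Finset ι) (x : ι → ℝ) (m : ℝ) (hm : 0 < m)
    (hmK : m ≤ K.card) : ∃ t₁ t₂ : ℝ, m ≤ ((K.filter (fun q => x q ≤ t₁)).card : ℝ) ∧
      m ≤ ((K.filter (fun q => t₂ ≤ x q)).card : ℝ) ∧
      ((K.filter (fun q => x q < t₁)).card : ℝ) ≤ m ∧
      ((K.filter (fun q => t₂ < x q)).card : ℝ) ≤ m := by
  obtain ⟨t₁, h1, h2⟩ := quant K x m hm hmK
  obtain ⟨t, h3, h4⟩ := quant K (fun q => - x q) m hm hmK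
  refine ⟨t₁, -t, h1, ?_, h2, ?_⟩
  · have : K.filter (fun q => -t ≤ x q) = K.filter (fun q => - x q ≤ t) := by
      refine Finset.filter_congr fun q _ => ?_
      constructor <;> intro h <;> linarith
    rw [this]
    exact h3
  · have : K.filter (fun q => -t < x q) = K.filter (fun q => - x q < t) := by
      refine Finset.filter_congr fun q _ => ?_
      constructor <;> intro h <;> linarith
    rw [this]
    exact h4

theorem box {ι : Type} (K : Finset ι) (x y : ι → ℝ) (E m R : ℝ) (hm : 0 < m) (hmE : 4 * m ≤ E)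
    (hK : E < K.card)
    (h : ∀ p ∈ K, E < ((K.filter (fun q => R ≤ max |x p - x q| |y p - y q|)).card : ℝ)) :
    (∃ t₁ t₂ : ℝ, R ≤ t₂ - t₁ ∧ m ≤ ((K.filter (fun q => x q ≤ t₁)).card : ℝ) ∧
      m ≤ ((K.filter (fun q => t₂ ≤ x q)).card : ℝ)) ∨
    (∃ t₁ t₂ : ℝ, R ≤ t₂ - t₁ ∧ m ≤ ((K.filter (fun q => y q ≤ t₁)).card : ℝ) ∧
      m ≤ ((K.filter (fun q => t₂ ≤ y q)).card : ℝ)) := by
  classical
  have hmK : m ≤ K.card := by linarith
  obtain ⟨t₁, t₂, a1, a2, a3, a4⟩ := quant2 K x m hm hmK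
  obtain ⟨s₁, s₂, b1, b2, b3, b4⟩ := quant2 K y m hm hmK
  by_cases hx : R ≤ t₂ - t₁
  · exact Or.inl ⟨t₁, t₂, hx, a1, a2⟩
  by_cases hy : R ≤ s₂ - s₁
  · exact Or.inr ⟨s₁, s₂, hy, b1, b2⟩
  exfalso
  push Not at hx hy
  set O := ((K.filter (fun q => x q < t₁)) ∪ (K.filter (fun q => t₂ < x q))) ∪
    ((K.filter (fun q => y q < s₁)) ∪ (K.filter (fun q => s₂ < y q))) with hO
  have hOc : (O.card : ℝ) ≤ 4 * m := by
    have h1 : O.card ≤ ((K.filter (fun q => x q < t₁)).card + (K.filter (fun q => t₂ < x q)).card) +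
        ((K.filter (fun q => y q < s₁)).card + (K.filter (fun q => s₂ < y q)).card) :=
      (Finset.card_union_le _ _).trans
        (Nat.add_le_add (Finset.card_union_le _ _) (Finset.card_union_le _ _))
    have h2 : (O.card : ℝ) ≤ (((K.filter (fun q => x q < t₁)).card : ℝ) +
        ((K.filter (fun q => t₂ < x q)).card : ℝ)) +
        (((K.filter (fun q => y q < s₁)).card : ℝ) + ((K.filter (fun q => s₂ < y q)).card : ℝ)) := by
      exact_mod_cast h1
    linarith
  have hmem : ∀ q ∈ K, q ∉ O → (t₁ ≤ x q ∧ x q ≤ t₂) ∧ (s₁ ≤ y q ∧ y q ≤ s₂) := by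
    intro q hq hqO
    rw [hO] at hqO
    simp only [Finset.mem_union, Finset.mem_filter, not_or, not_and, not_lt] at hqO
    exact ⟨⟨hqO.1.1 hq, hqO.1.2 hq⟩, ⟨hqO.2.1 hq, hqO.2.2 hq⟩⟩
  obtain ⟨p, hp, hpO⟩ : ∃ p ∈ K, p ∉ O := by
    by_contra hcon
    push Not at hcon
    have h1 : K.card ≤ O.card := Finset.card_le_card hcon
    have h2 : (K.card : ℝ) ≤ O.card := by exact_mod_cast h1
    linarith
  have hsub : K.filter (fun q => R ≤ max |x p - x q| |y p - y q|) ⊆ O := by
    intro q hq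
    rw [Finset.mem_filter] at hq
    by_contra hqO
    have h1 := hmem p hp hpO
    have h2 := hmem q hq.1 hqO
    have h3 : |x p - x q| < R := by
      rw [abs_lt]
      constructor <;> linarith [h1.1.1, h1.1.2, h2.1.1, h2.1.2]
    have h4 : |y p - y q| < R := by
      rw [abs_lt]
      constructor <;> linarith [h1.2.1, h1.2.2, h2.2.1, h2.2.2]
    exact absurd hq.2 (not_le.2 (max_lt h3 h4))
  have h5 : ((K.filter (fun q => R ≤ max |x p - x q| |y p - y q|)).card : ℝ) ≤ O.card := by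
    exact_mod_cast Finset.card_le_card hsub
  linarith [h p hp]

end H52.Dir
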