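import Mathlib

/-!
# Module G4c (50 lines): a good threshold

`cut`: PROOF. Thresholds `t_i = t₁ + (i + 1/2) h`, `i < m`, all in `(t₁, t₂)`. A pair `(p, q) ∈ Q` with
`x p < t_i ≤ x q` and `x p < t_j ≤ x q`, `i < j`, would have `|x p - x q| ≥ t_j - t_i ≥ h`. So the `m` sets are
disjoint subsets of `Q`; the smallest has at most `|Q| / m` elements.
-/

set_option autoImplicit false

namespace H52.Dir

open Finset

theorem cut {ι : Type} (Q : Finset (ι × ι)) (x : ι → ℝ) (t₁ t₂ h : ℝ) (m : ℕ) (hm : 0 < m)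
    (hh : 0 < h) (ht : t₁ + m * h ≤ t₂) (hQ : ∀ q ∈ Q, |x q.1 - x q.2| < h) :
    ∃ t : ℝ, t₁ < t ∧ t < t₂ ∧
      ((Q.filter (fun q => x q.1 < t ∧ t ≤ x q.2)).card : ℝ) ≤ (Q.card : ℝ) / m := by
  classical
  have hm0 : (0 : ℝ) < m := by exact_mod_cast hm
  set th : ℕ → ℝ := fun i => t₁ + (i + 1 / 2) * h with hth
  set A : ℕ → Finset (ι × ι) := fun i => Q.filter (fun q => x q.1 < th i ∧ th i ≤ x q.2) with hA
  have hlt : ∀ i j : ℕ, i < j → h ≤ th j - th i := by
    intro i j hij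
    simp only [hth]
    have : (i : ℝ) + 1 ≤ j := by exact_mod_cast hij
    nlinarith
  have hdis : ∀ i j : ℕ, i < j → Disjoint (A i) (A j) := by
    intro i j hij
    rw [disjoint_left]
    intro q hq hq'
    simp only [hA, mem_filter] at hq hq'
    have h1 := hlt i j hij
    have h2 := (abs_lt.1 (hQ q hq.1)).1
    linarith [hq.2.1, hq'.2.2]
  have hsum : ∑ i ∈ range m, ((A i).card : ℝ) ≤ Q.card := by
    rw [← Nat.cast_sum, ← card_biUnion]
    · exact_mod_cast card_le_card (biUnion_subset.2 fun i _ => filter_subset _ _)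
    · intro i _ j _ hne
      rcases lt_or_gt_of_ne hne with h1 | h1
      · exact hdis i j h1
      · exact (hdis j i h1).symm
  have hex : ∃ i ∈ range m, ((A i).card : ℝ) ≤ (Q.card : ℝ) / m := by
    apply exists_le_of_sum_le ⟨0, mem_range.2 hm⟩
    rw [sum_const, card_range, nsmul_eq_mul, mul_div_cancel₀ _ hm0.ne']
    exact hsum
  obtain ⟨i, hi, hi'⟩ := hex
  rw [mem_range] at hi
  have him : (i : ℝ) + 1 ≤ m := by exact_mod_cast hi
  have hi0 : (0 : ℝ) ≤ i := Nat.cast_nonneg i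
  refine ⟨th i, ?_, ?_, hi'⟩
  · simp only [hth]
    have : 0 < ((i : ℝ) + 1 / 2) * h := by positivity
    linarith
  · simp only [hth]
    have : ((i : ℝ) + 1 / 2) * h < m * h := by
      apply mul_lt_mul_of_pos_right _ hh
      linarith
    linarith

end H52.Dir
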