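import Pool.Agent.H52.Dir.G3
import Pool.Agent.H52.Dir.G4a
import Pool.Agent.H52.Dir.G4b
import Pool.Agent.H52.Dir.G4c

/-!
# Module G4 (170 lines): a clean cut of the cluster `Cl 0`

PROOF. `C` the constant of `tail`, `e₀ = 1 / (4 C)` (so `≤ 1/4`), `e' = e₀ / 8` (absolute). Let `τ > 0`.
Sequence `e_{j+1} = C e_j²`; `C e_j ≤ 1/4` and `e_j ≤ e₀ / 4^j` by induction, all `e_j > 0`. `J` with
`2 e_J ≤ τ / 2`, `m ≥ 1` natural with `1 / m ≤ τ / 2`. `σ₀` = minimum of the `σ₀`'s of `tail` for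
`e_0, ..., e_{J-1}`, `1/10000` and a number with `4^(J+1) √σ₀ < 1 / m`.
Let `K = Cl 0`, `N = |K| ≥ (1/3 - σ) n`, so `e₀ n + 1 < N` (`1 ≤ σ n`). `minrad` with `d = dd u`,
`E = e₀ n` (`hd1`: `dd u p q ≤ 0` gives equal chart coordinates, so `crs (u p) (u q) = 0`, `p = q` by `ind`;
here `u i 0 ≠ 0` on `Cl 0`): `o, R`. `tail` iterated: `#{q ∈ K : 4^j R < dd u o q} ≤ e_j n` for `j ≤ J`.
`box` with `x = cx u 1`, `y = cx u 2`, `m = e' n` (`4 e' n ≤ e₀ n`): case `x` (`b = 1, c = 2`) or case `y`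
(`b = 2, c = 1`); both are treated in the same way. In case `x`: `h = R / m`, `Q` = the pairs
`(p, q) ∈ K × K`, both with `dd u o ≤ 4^J R`, on a line that meets `Cl c` (`∃ r ∈ Cl c, det = 0`). By `slp`:
`|x_p - x_q| ≤ 2 √ω |y_p - y_q| ≤ 2 √ω 2 4^J R < R / m`. `cut` gives `t` with at most `|Q| / m ≤ n² / m ≤
τ/2 n²` pairs of `Q` across `t`. Pairs not in the window: at most `2 e_J n * n ≤ τ/2 n²`. Finally
`#{x q < t} ≥ #{x q ≤ t₁} ≥ e' n` and `#{t ≤ x q} ≥ #{t₂ ≤ x q} ≥ e' n`.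
-/

set_option autoImplicit false

namespace H52.Dir

open Finset

private theorem dd_nonneg {n : ℕ} (u : Fin n → V) (i j : Fin n) : 0 ≤ dd u i j :=
  le_max_of_le_left (abs_nonneg _)

private theorem cx_le_dd {n : ℕ} (u : Fin n → V) {c : Fin 3} (hc : c ≠ 0) (i j : Fin n) :
    |cx u c i - cx u c j| ≤ dd u i j := by
  unfold dd
  fin_cases c
  · exact absurd rfl hc
  · exact le_max_left _ _
  · exact le_max_right _ _

private theorem card_Cl_le {n : ℕ} (u : Fin n → V) (ω : ℝ) (j : Fin 3) :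
    ((Cl u ω j).card : ℝ) ≤ n := by
  have h : (Cl u ω j).card ≤ (univ : Finset (Fin n)).card := Finset.card_le_card (subset_univ _)
  rw [Finset.card_univ, Fintype.card_fin] at h
  exact_mod_cast h

/-- One of the two cases of `box`. -/
private theorem core {n : ℕ} {u : Fin n → V} {ω σ : ℝ} {Ty : Finset (Fin n)} (H : Fr u ω σ Ty)
    {b c : Fin 3} (hb : b ≠ 0) (hc : c ≠ 0) (hbc : b ≠ c) {o : Fin n} {R W E1 τ e : ℝ} {m : ℕ}
    (hR : 0 < R) (hm : 0 < m) (hτ : 1 / (m : ℝ) ≤ τ / 2) (hE1 : 2 * E1 ≤ τ / 2)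
    (hW : W * (4 * Real.sqrt ω) < R / m)
    (hbad : (((Cl u ω 0).filter (fun q => W < dd u o q)).card : ℝ) ≤ E1 * n)
    (hbox : ∃ t₁ t₂ : ℝ, R ≤ t₂ - t₁ ∧
      e * n ≤ (((Cl u ω 0).filter (fun q => cx u b q ≤ t₁)).card : ℝ) ∧
      e * n ≤ (((Cl u ω 0).filter (fun q => t₂ ≤ cx u b q)).card : ℝ)) :
    ∃ t : ℝ,
      e * n ≤ (((Cl u ω 0).filter (fun q => cx u b q < t)).card : ℝ) ∧
      e * n ≤ (((Cl u ω 0).filter (fun q => t ≤ cx u b q)).card : ℝ) ∧
      ∀ P : Finset (Fin n × Fin n), (∀ z ∈ P, z.1 ∈ Cl u ω 0 ∧ z.2 ∈ Cl u ω 0 ∧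
        cx u b z.1 < t ∧ t ≤ cx u b z.2 ∧ ∃ r ∈ Cl u ω c, det (u z.1) (u z.2) (u r) = 0) →
        (P.card : ℝ) ≤ τ * (n : ℝ) ^ 2 := by
  classical
  obtain ⟨t₁, t₂, h1, h2, h3⟩ := hbox
  set K := Cl u ω 0 with hK
  set Q := (K ×ˢ K).filter (fun z => dd u o z.1 ≤ W ∧ dd u o z.2 ≤ W ∧
    ∃ r ∈ Cl u ω c, det (u z.1) (u z.2) (u r) = 0) with hQ
  have hmR : (0 : ℝ) < m := by exact_mod_cast hm
  have hω0 := H.ω0
  have hω1 : ω ≤ 1 / 10000 := H.ωσ.trans H.σ1
  have hQd : ∀ z ∈ Q, |cx u b z.1 - cx u b z.2| < R / m := by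
    intro z hz
    rw [hQ, Finset.mem_filter, Finset.mem_product] at hz
    obtain ⟨⟨hz1, hz2⟩, hd1, hd2, r, hr, hdet⟩ := hz
    have e1 := slp (H.cf.unit z.1) (H.cf.unit z.2) (H.cf.unit r) hω0.le hω1 hc hb hbc.symm
      (mem_Cl.1 hz1) (mem_Cl.1 hz2) (mem_Cl.1 hr) hdet
    have e2 : |u z.1 b / u z.1 0 - u z.2 b / u z.2 0| = |cx u b z.1 - cx u b z.2| := rfl
    have e3 : |u z.1 c / u z.1 0 - u z.2 c / u z.2 0| = |cx u c z.1 - cx u c z.2| := rfl
    rw [e2, e3] at e1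
    have e4 : |cx u c z.1 - cx u c z.2| ≤ 2 * W := by
      have a1 := (cx_le_dd u hc o z.1).trans hd1
      have a2 := (cx_le_dd u hc o z.2).trans hd2
      rw [abs_le] at a1 a2 ⊢
      constructor <;> linarith [a1.1, a1.2, a2.1, a2.2]
    calc |cx u b z.1 - cx u b z.2| ≤ 2 * Real.sqrt ω * |cx u c z.1 - cx u c z.2| := e1
      _ ≤ 2 * Real.sqrt ω * (2 * W) := by
          apply mul_le_mul_of_nonneg_left e4
          positivity
      _ = W * (4 * Real.sqrt ω) := by ring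
      _ < R / m := hW
  have ht : t₁ + m * (R / m) ≤ t₂ := by
    rw [mul_div_cancel₀ _ hmR.ne']
    linarith
  obtain ⟨t, ht1, ht2, hcut⟩ := cut Q (cx u b) t₁ t₂ (R / m) m hm (div_pos hR hmR) ht hQd
  refine ⟨t, h2.trans ?_, h3.trans ?_, ?_⟩
  · refine Nat.cast_le.2 (Finset.card_le_card fun q hq => ?_)
    rw [Finset.mem_filter] at hq ⊢
    exact ⟨hq.1, lt_of_le_of_lt hq.2 ht1⟩
  · refine Nat.cast_le.2 (Finset.card_le_card fun q hq => ?_)
    rw [Finset.mem_filter] at hq ⊢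
    exact ⟨hq.1, ht2.le.trans hq.2⟩
  · intro P hP
    set B := K.filter (fun q => W < dd u o q) with hB
    have hsub : P ⊆ Q.filter (fun q => cx u b q.1 < t ∧ t ≤ cx u b q.2) ∪
        (B ×ˢ K ∪ K ×ˢ B) := by
      intro z hz
      obtain ⟨hz1, hz2, hz3, hz4, hz5⟩ := hP z hz
      rw [Finset.mem_union, Finset.mem_union]
      by_cases hw1 : W < dd u o z.1
      · right; left
        rw [Finset.mem_product]
        exact ⟨Finset.mem_filter.2 ⟨hz1, hw1⟩, hz2⟩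
      · by_cases hw2 : W < dd u o z.2
        · right; right
          rw [Finset.mem_product]
          exact ⟨hz1, Finset.mem_filter.2 ⟨hz2, hw2⟩⟩
        · left
          rw [Finset.mem_filter, hQ, Finset.mem_filter, Finset.mem_product]
          exact ⟨⟨⟨hz1, hz2⟩, not_lt.1 hw1, not_lt.1 hw2, hz5⟩, hz3, hz4⟩
    have hc1 : P.card ≤ (Q.filter (fun q => cx u b q.1 < t ∧ t ≤ cx u b q.2)).card +
        ((B ×ˢ K).card + (K ×ˢ B).card) :=
      (Finset.card_le_card hsub).trans ((Finset.card_union_le _ _).trans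
        (Nat.add_le_add_left (Finset.card_union_le _ _) _))
    rw [Finset.card_product, Finset.card_product] at hc1
    have hc2 : (P.card : ℝ) ≤ ((Q.filter (fun q => cx u b q.1 < t ∧ t ≤ cx u b q.2)).card : ℝ) +
        ((B.card : ℝ) * K.card + (K.card : ℝ) * B.card) := by
      exact_mod_cast hc1
    have hKn : (K.card : ℝ) ≤ n := card_Cl_le u ω 0
    have hK0 : (0 : ℝ) ≤ K.card := Nat.cast_nonneg _
    have hn0 : (0 : ℝ) ≤ n := Nat.cast_nonneg _
    have hQc : (Q.card : ℝ) ≤ (n : ℝ) ^ 2 := by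
      have a1 : Q.card ≤ (K ×ˢ K).card := Finset.card_filter_le _ _
      rw [Finset.card_product] at a1
      have a2 : (Q.card : ℝ) ≤ (K.card : ℝ) * K.card := by exact_mod_cast a1
      nlinarith
    have hb1 : (B.card : ℝ) * K.card ≤ E1 * (n : ℝ) ^ 2 := by
      have hB0 : (0 : ℝ) ≤ B.card := Nat.cast_nonneg _
      have a1 : (B.card : ℝ) * K.card ≤ (E1 * n) * n :=
        mul_le_mul hbad hKn hK0 (hB0.trans hbad)
      calc (B.card : ℝ) * K.card ≤ (E1 * n) * n := a1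
        _ = E1 * (n : ℝ) ^ 2 := by ring
    have hq1 : (Q.card : ℝ) / m ≤ τ / 2 * (n : ℝ) ^ 2 := by
      have a1 : (Q.card : ℝ) / m ≤ (n : ℝ) ^ 2 / m := by
        gcongr
      have a2 : (n : ℝ) ^ 2 / m = 1 / (m : ℝ) * (n : ℝ) ^ 2 := by ring
      rw [a2] at a1
      exact a1.trans (mul_le_mul_of_nonneg_right hτ (by positivity))
    have hq2 : 2 * E1 * (n : ℝ) ^ 2 ≤ τ / 2 * (n : ℝ) ^ 2 :=
      mul_le_mul_of_nonneg_right hE1 (by positivity)
    nlinarith [hcut, hc2, hb1, hq1, hq2]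

private theorem seq_exists (C e₀ : ℝ) (hC : 0 < C) (he0 : 0 < e₀) (h : C * e₀ ≤ 1 / 4) :
    ∃ es : ℕ → ℝ, es 0 = e₀ ∧ (∀ j, es (j + 1) = C * (es j) ^ 2) ∧ (∀ j, 0 < es j) ∧
      (∀ j, C * es j ≤ 1 / 4) ∧ ∀ j, es j ≤ e₀ * (1 / 4) ^ j := by
  let es : ℕ → ℝ := fun j => Nat.rec e₀ (fun _ x => C * x ^ 2) j
  have h0 : es 0 = e₀ := rfl
  have hs : ∀ j, es (j + 1) = C * (es j) ^ 2 := fun j => rfl
  have hp : ∀ j, 0 < es j := by
    intro j
    induction j with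
    | zero => rw [h0]; exact he0
    | succ j ih => rw [hs]; positivity
  have hq : ∀ j, C * es j ≤ 1 / 4 := by
    intro j
    induction j with
    | zero => rw [h0]; exact h
    | succ j ih =>
      rw [hs]
      have a1 : 0 < C * es j := mul_pos hC (hp j)
      nlinarith
  refine ⟨es, h0, hs, hp, hq, ?_⟩
  intro j
  induction j with
  | zero => rw [h0, pow_zero, mul_one]
  | succ j ih =>
    have a1 := hp j
    have a2 := hq j
    calc es (j + 1) = (C * es j) * es j := by rw [hs]; ring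
      _ ≤ 1 / 4 * es j := mul_le_mul_of_nonneg_right a2 a1.le
      _ ≤ 1 / 4 * (e₀ * (1 / 4) ^ j) := by linarith
      _ = e₀ * (1 / 4) ^ (j + 1) := by ring

open Classical in
theorem g4 : ∃ e : ℝ, 0 < e ∧ e ≤ 1 ∧ ∀ τ : ℝ, 0 < τ → ∃ σ₀ : ℝ, 0 < σ₀ ∧
    ∀ (n : ℕ) (u : Fin n → V) (ω σ : ℝ) (Ty : Finset (Fin n)), σ ≤ σ₀ → Fr u ω σ Ty →
    ∃ b c : Fin 3, b ≠ 0 ∧ c ≠ 0 ∧ b ≠ c ∧ ∃ t : ℝ,
      e * n ≤ (((Cl u ω 0).filter (fun q => cx u b q < t)).card : ℝ) ∧
      e * n ≤ (((Cl u ω 0).filter (fun q => t ≤ cx u b q)).card : ℝ) ∧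
      (((Cl u ω 0 ×ˢ Cl u ω 0).filter (fun z => cx u b z.1 < t ∧ t ≤ cx u b z.2 ∧
        ∃ r ∈ Cl u ω c, det (u z.1) (u z.2) (u r) = 0)).card : ℝ) ≤ τ * (n : ℝ) ^ 2 := by
  obtain ⟨C, hC1, htail⟩ := tail
  have hC0 : 0 < C := by linarith
  obtain ⟨e₀, he⟩ : ∃ e₀ : ℝ, e₀ = 1 / (4 * C) := ⟨_, rfl⟩
  have he0 : 0 < e₀ := by rw [he]; positivity
  have heC : C * e₀ = 1 / 4 := by rw [he]; field_simp
  have he4 : e₀ ≤ 1 / 4 := by nlinarith
  obtain ⟨es, hes0, hes1, hes2, hes3, hes4⟩ := seq_exists C e₀ hC0 he0 heC.le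
  refine ⟨e₀ / 8, by linarith, by linarith, ?_⟩
  intro τ hτ
  obtain ⟨J, hJ⟩ := exists_pow_lt_of_lt_one hτ (show (1 / 4 : ℝ) < 1 by norm_num)
  obtain ⟨m, hm⟩ := exists_nat_gt (2 / τ)
  have hm0 : (0 : ℝ) < m := lt_trans (by positivity) hm
  have hm1 : 0 < m := by exact_mod_cast hm0
  have hmτ : 1 / (m : ℝ) ≤ τ / 2 := by
    rw [div_lt_iff₀ hτ] at hm
    rw [div_le_iff₀ hm0]
    linarith
  -- the bounds of `tail`
  have hesC : ∀ j, es j ≤ 1 / C := by
    intro j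
    rw [le_div_iff₀ hC0]
    have := hes3 j
    linarith
  choose sg hsg0 hsg using fun j => htail (es j) (hes2 j) (hesC j)
  obtain ⟨s1, hs1, hs1'⟩ : ∃ s1 : ℝ, 0 < s1 ∧ ∀ j ∈ Finset.range J, s1 ≤ sg j := by
    by_cases hJ0 : (Finset.range J).Nonempty
    · obtain ⟨j, hj, hmin⟩ := (Finset.range J).exists_min_image sg hJ0
      exact ⟨sg j, hsg0 j, hmin⟩
    · refine ⟨1, one_pos, fun j hj => ?_⟩
      exact absurd ⟨j, hj⟩ hJ0
  obtain ⟨v, hv⟩ : ∃ v : ℝ, v = 1 / (2 * m * 4 ^ (J + 1)) := ⟨_, rfl⟩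
  have hv0 : 0 < v := by rw [hv]; positivity
  refine ⟨min s1 (v ^ 2), lt_min hs1 (by positivity), ?_⟩
  intro n u ω σ Ty hσ H
  have hσ1 : σ ≤ s1 := hσ.trans (min_le_left _ _)
  have hσ2 : σ ≤ v ^ 2 := hσ.trans (min_le_right _ _)
  have hσ3 := H.σ1
  have hbig := H.big
  have hn : (0 : ℝ) < n := by
    rcases Nat.eq_zero_or_pos n with h0 | h0
    · exfalso
      rw [h0, Nat.cast_zero, mul_zero] at hbig
      linarith
    · exact_mod_cast h0
  have hω0 := H.ω0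
  have hω1 : ω ≤ 1 / 10000 := H.ωσ.trans H.σ1
  have hsq : Real.sqrt ω ≤ v := by
    rw [show v = Real.sqrt (v ^ 2) from (Real.sqrt_sq hv0.le).symm]
    exact Real.sqrt_le_sqrt (H.ωσ.trans hσ2)
  have hN : (1 / 3 - σ) * n ≤ ((Cl u ω 0).card : ℝ) := H.sz 0
  have hEK : e₀ * n + 1 < ((Cl u ω 0).card : ℝ) := by
    have a1 : e₀ * n ≤ 1 / 4 * n := mul_le_mul_of_nonneg_right he4 hn.le
    have a2 : σ * n ≤ 1 / 10000 * n := mul_le_mul_of_nonneg_right hσ3 hn.le
    nlinarith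
  have hE0 : 0 ≤ e₀ * n := by positivity
  have hu0 : ∀ p ∈ Cl u ω 0, u p 0 ≠ 0 := by
    intro p hp h0
    have := mem_Cl.1 hp
    rw [h0] at this
    norm_num at this
    linarith
  obtain ⟨o, hoK, R, hR, hR1, hR2⟩ := minrad (Cl u ω 0) (dd u) (dd_nonneg u) (by
    intro p hp
    have hcard : ((Cl u ω 0).filter (fun q => dd u p q ≤ 0)).card ≤ 1 := by
      rw [Finset.card_le_one]
      have key : ∀ q ∈ (Cl u ω 0).filter (fun q => dd u p q ≤ 0), q = p := by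
        intro q hq
        rw [Finset.mem_filter] at hq
        by_contra hne
        apply H.cf.ind q p hne
        have d1 : cx u 1 p = cx u 1 q := by
          have := (cx_le_dd u (c := 1) (by decide) p q).trans hq.2
          have h0 := abs_nonpos_iff.1 this
          linarith
        have d2 : cx u 2 p = cx u 2 q := by
          have := (cx_le_dd u (c := 2) (by decide) p q).trans hq.2
          have h0 := abs_nonpos_iff.1 this
          linarith
        have p0 := hu0 p hp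
        have q0 := hu0 q hq.1
        unfold cx at d1 d2
        rw [div_eq_div_iff p0 q0] at d1 d2
        have d3 : u q 1 * u p 2 - u q 2 * u p 1 = 0 := by
          have h5 : (u q 1 * u p 2 - u q 2 * u p 1) * (u p 0 * u q 0) = 0 := by
            linear_combination (-(u p 2 * u q 0)) * d1 + (u p 1 * u q 0) * d2
          rcases mul_eq_zero.1 h5 with h6 | h6
          · exact h6
          · exact absurd h6 (mul_ne_zero p0 q0)
        unfold crs
        funext k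
        fin_cases k
        · simpa using d3
        · show u q 2 * u p 0 - u q 0 * u p 2 = 0
          linarith
        · show u q 0 * u p 1 - u q 1 * u p 0 = 0
          linarith
      intro q hq q' hq'
      rw [key q hq, key q' hq']
    exact_mod_cast hcard) (e₀ * n) hE0 hEK
  -- the iteration
  have hit : ∀ j, j ≤ J →
      (((Cl u ω 0).filter (fun q => 4 ^ j * R < dd u o q)).card : ℝ) ≤ es j * n := by
    intro j
    induction j with
    | zero =>
      intro _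
      rw [hes0]
      simpa using hR1
    | succ j ih =>
      intro hj
      have h1 := ih (by omega)
      have h2 := hsg j n u ω σ Ty (hσ1.trans (hs1' j (Finset.mem_range.2 (by omega)))) H o
        (4 ^ j * R) (by positivity) h1
      rw [hes1]
      have h3 : (4 : ℝ) ^ (j + 1) * R = 4 * (4 ^ j * R) := by ring
      rw [h3]
      exact h2
  have hbad := hit J le_rfl
  have hE1 : 2 * es J ≤ τ / 2 := by
    have a1 := hes4 J
    have a2 : (0 : ℝ) < (1 / 4) ^ J := by positivity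
    nlinarith
  have hW : 4 ^ J * R * (4 * Real.sqrt ω) < R / m := by
    have a1 : 4 ^ J * R * (4 * Real.sqrt ω) ≤ 4 ^ J * R * (4 * v) := by
      apply mul_le_mul_of_nonneg_left _ (by positivity)
      linarith
    have a2 : 4 ^ J * R * (4 * v) = R / m / 2 := by
      rw [hv, pow_succ]
      field_simp
    have a3 : 0 < R / m := by positivity
    linarith
  have hbx := box (Cl u ω 0) (cx u 1) (cx u 2) (e₀ * n) (e₀ / 8 * n) R (by positivity)
    (by nlinarith) (by linarith) (fun p hp => hR2 p hp)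
  rcases hbx with hx | hy
  · obtain ⟨t, ht1, ht2, ht3⟩ := core H (b := 1) (c := 2) (by decide) (by decide) (by decide) hR hm1
      hmτ hE1 hW hbad hx
    refine ⟨1, 2, by decide, by decide, by decide, t, ht1, ht2, ht3 _ ?_⟩
    intro z hz
    rw [Finset.mem_filter, Finset.mem_product] at hz
    exact ⟨hz.1.1, hz.1.2, hz.2.1, hz.2.2.1, hz.2.2.2⟩
  · obtain ⟨t, ht1, ht2, ht3⟩ := core H (b := 2) (c := 1) (by decide) (by decide) (by decide) hR hm1
      hmτ hE1 hW hbad hy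
    refine ⟨2, 1, by decide, by decide, by decide, t, ht1, ht2, ht3 _ ?_⟩
    intro z hz
    rw [Finset.mem_filter, Finset.mem_product] at hz
    exact ⟨hz.1.1, hz.1.2, hz.2.1, hz.2.2.1, hz.2.2.2⟩

end H52.Dir
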