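import Pool.Agent.H52.Dir.Pl0

/-!
# Module Gr (120 lines): the Gram matrix identity

PROOF. `gram`: `Σ_{l ∈ D} k f l k g l = Σ_l Σ_{i ∈ l} f i g i + Σ_l Σ_{i ≠ j ∈ l} f i g j`. The first sum is
`Σ_i f i g i T i`. In the second only pairs with `i, j ∈ S` count (weights), such a pair is on
exactly one line of `D` if `nr i j` (`ex`, `uniq`), on none if not (`nr_of_line`), so it is
`Σ_{i ≠ j} f i g j [nr i j] = Σ_{i, j} f i g j - Σ_i f i g i - Σ_i f i St g i`.
`gram_l2`: expand `(k f l / F - k g l / G)²`, sum over `D`, use the three estimates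
`|<f,f> - F²| ≤ σ n²`, `|<f,g> - F G| ≤ σ n²`, `|<g,g> - G²| ≤ σ n²` (from `gram`) and `F, G ≥ γ n`:
the main terms are `1 - 2 + 1 = 0`, the error is at most `4 σ n² / (γ n)² = 4 σ / γ²`.
-/

set_option autoImplicit false

namespace H52.Dir

open Finset

namespace Pl

variable {n : ℕ} (P : Pl n)

/-- the error term of the Gram matrix -/
noncomputable def Er (f g : Fin n → ℝ) : ℝ := ∑ i, f i * (g i * (P.T i - 1) - P.St g i)

open Classical in
private theorem gr_pair {f g : Fin n → ℝ} (wf : P.Wt f) (wg : P.Wt g) (i j : Fin n) :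
    f i * g j * ((P.D.filter (fun l => i ∈ l ∧ j ∈ l)).card : ℝ) =
      f i * g j - f i * (if P.st i j then g j else 0) +
        (if i = j then f i * g i * (P.T i - 1) else 0) := by
  by_cases hij : i = j
  · subst hij
    have h1 : ¬ P.st i i := fun h => h.1 rfl
    rw [if_neg h1, if_pos rfl]
    have h2 : (P.D.filter (fun l => i ∈ l ∧ i ∈ l)) = P.D.filter (fun l => i ∈ l) := by
      ext l; simp
    rw [h2]
    unfold T
    ring
  · rw [if_neg hij, add_zero]
    by_cases hf : f i = 0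
    · rw [hf]; ring
    by_cases hg : g j = 0
    · rw [hg]; split_ifs <;> ring
    have hi := wf.sup i hf
    have hj := wg.sup j hg
    by_cases hn : P.nr i j
    · have h1 : ¬ P.st i j := fun h => h.2 hn
      rw [if_neg h1]
      obtain ⟨l, hl, hil, hjl⟩ := P.ex i hi j hj hn.1 hn.2
      have h2 : P.D.filter (fun l => i ∈ l ∧ j ∈ l) = {l} := by
        ext l'
        rw [mem_filter, mem_singleton]
        constructor
        · rintro ⟨h3, h4, h5⟩
          exact P.uniq l' h3 l hl i j hij h4 h5 hil hjl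
        · rintro rfl
          exact ⟨hl, hil, hjl⟩
      rw [h2, card_singleton]
      push_cast
      ring
    · rw [if_pos ⟨hij, hn⟩]
      have h2 : P.D.filter (fun l => i ∈ l ∧ j ∈ l) = ∅ := by
        rw [filter_eq_empty_iff]
        rintro l hl ⟨h4, h5⟩
        exact hn (P.nr_of_line hl hi hj h4 h5 hij)
      rw [h2, card_empty]
      push_cast
      ring

private theorem gr_k (f : Fin n → ℝ) (l : Finset (Fin n)) :
    k f l = ∑ i, if i ∈ l then f i else 0 := by
  unfold k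
  rw [sum_ite_mem, univ_inter]

theorem gram {f g : Fin n → ℝ} (wf : P.Wt f) (wg : P.Wt g) :
    ∑ l ∈ P.D, k f l * k g l = ms f * ms g + P.Er f g := by
  classical
  have h1 : ∑ l ∈ P.D, k f l * k g l =
      ∑ i, ∑ j, f i * g j * ((P.D.filter (fun l => i ∈ l ∧ j ∈ l)).card : ℝ) := by
    have h2 : ∀ l ∈ P.D, k f l * k g l = ∑ i, ∑ j, if i ∈ l ∧ j ∈ l then f i * g j else 0 := by
      intro l _
      rw [gr_k, gr_k, sum_mul_sum]
      refine sum_congr rfl fun i _ => sum_congr rfl fun j _ => ?_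
      by_cases hi : i ∈ l <;> by_cases hj : j ∈ l <;> simp [hi, hj]
    rw [sum_congr rfl h2, sum_comm]
    refine sum_congr rfl fun i _ => ?_
    rw [sum_comm]
    refine sum_congr rfl fun j _ => ?_
    rw [← sum_filter, sum_const, nsmul_eq_mul]
    ring
  rw [h1, sum_congr rfl fun i _ => sum_congr rfl fun j _ => gr_pair P wf wg i j]
  have h3 : ∀ i, ∑ j, (f i * g j - f i * (if P.st i j then g j else 0) +
      (if i = j then f i * g i * (P.T i - 1) else 0)) =
        f i * ms g + f i * (g i * (P.T i - 1) - P.St g i) := by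
    intro i
    rw [sum_add_distrib, sum_sub_distrib, ← mul_sum, ← mul_sum, sum_ite_eq, if_pos (mem_univ i)]
    unfold ms St
    ring
  rw [sum_congr rfl fun i _ => h3 i, sum_add_distrib, ← sum_mul]
  rfl

private theorem gr_div {e σ A B γ N : ℝ} (h : |e| ≤ σ * N ^ 2) (hN : 0 < N) (hγ : 0 < γ)
    (hA : γ * N ≤ A) (hB : γ * N ≤ B) : |e / (A * B)| ≤ σ / γ ^ 2 := by
  have h0 : 0 < γ * N := mul_pos hγ hN
  have hA' : 0 < A := lt_of_lt_of_le h0 hA
  have hB' : 0 < B := lt_of_lt_of_le h0 hB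
  have hσ : 0 ≤ σ * N ^ 2 := le_trans (abs_nonneg e) h
  rw [abs_div, abs_of_pos (mul_pos hA' hB'), div_le_div_iff₀ (mul_pos hA' hB') (by positivity)]
  have h1 : (γ * N) * (γ * N) ≤ A * B := mul_le_mul hA hB h0.le hA'.le
  have hσ' : 0 ≤ σ := by
    by_contra hneg
    push Not at hneg
    have : σ * N ^ 2 < 0 := mul_neg_of_neg_of_pos hneg (by positivity)
    linarith
  calc |e| * γ ^ 2 ≤ (σ * N ^ 2) * γ ^ 2 := mul_le_mul_of_nonneg_right h (by positivity)
    _ = σ * ((γ * N) * (γ * N)) := by ring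
    _ ≤ σ * (A * B) := mul_le_mul_of_nonneg_left h1 hσ'

theorem gram_l2 {f g : Fin n → ℝ} (wf : P.Wt f) (wg : P.Wt g) {γ σ : ℝ} (hn : 0 < n) (hγ : 0 < γ)
    (hF : γ * n ≤ ms f) (hG : γ * n ≤ ms g) (h1 : |P.Er f f| ≤ σ * (n : ℝ) ^ 2)
    (h2 : |P.Er f g| ≤ σ * (n : ℝ) ^ 2) (h3 : |P.Er g g| ≤ σ * (n : ℝ) ^ 2) :
    ∑ l ∈ P.D, (k f l / ms f - k g l / ms g) ^ 2 ≤ 4 * σ / γ ^ 2 := by
  have hn' : (0 : ℝ) < n := by exact_mod_cast hn
  have h0 : 0 < γ * n := mul_pos hγ hn'
  have hF' : 0 < ms f := lt_of_lt_of_le h0 hF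
  have hG' : 0 < ms g := lt_of_lt_of_le h0 hG
  have e1 := P.gram wf wf
  have e2 := P.gram wf wg
  have e3 := P.gram wg wg
  have a1 := gr_div h1 hn' hγ hF hF
  have a2 := gr_div h2 hn' hγ hF hG
  have a3 := gr_div h3 hn' hγ hG hG
  have key : ∑ l ∈ P.D, (k f l / ms f - k g l / ms g) ^ 2 =
      P.Er f f / (ms f * ms f) - 2 * (P.Er f g / (ms f * ms g)) + P.Er g g / (ms g * ms g) := by
    have h4 : ∀ l ∈ P.D, (k f l / ms f - k g l / ms g) ^ 2 =
        (k f l * k f l) * (1 / (ms f * ms f)) - (k f l * k g l) * (2 / (ms f * ms g)) +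
          (k g l * k g l) * (1 / (ms g * ms g)) := by
      intro l _
      field_simp
      ring
    rw [sum_congr rfl h4, sum_add_distrib, sum_sub_distrib, ← sum_mul, ← sum_mul, ← sum_mul, e1,
      e2, e3]
    field_simp
    ring
  rw [key]
  have b1 := (abs_le.1 a1).2
  have b2 := (abs_le.1 a2).1
  have b3 := (abs_le.1 a3).2
  have : 4 * σ / γ ^ 2 = 4 * (σ / γ ^ 2) := by ring
  rw [this]
  linarith

end Pl

end H52.Dir
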