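import Pool.Agent.H52.Dir.Pl0

/-!
# Module O2 (130 lines): exchange of the sums

PROOF. `φ p = Σ_{p'} [st p p'] f₁ p' sign (Y p - Y p')`, `|φ p| ≤ F₁`. Then
`Σ_p f₁ p φ p Om p = Σ_{l ∈ D} k f₂ l k f₃ l Σ_p f₁ p φ p sg p l ≤ F₁ Σ_p f₁ p |Om p|`.
For fixed `l ∈ D`: `Σ_p f₁ p φ p sg p l = Σ_{p, p'} [st p p'] f₁ p f₁ p' sign (Y p - Y p') sg p l`.
Exchange `p, p'` for the pairs with `Y p < Y p'` (`sign` is odd, `st` symmetric; `Y p = Y p'` gives 0):
it equals `Σ_{p, p'} [st p p', Y p' < Y p] f₁ p f₁ p' (sg p l - sg p' l)`. Here `hgt p' l < hgt p l`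
(`hgt_lt`; it holds for every `l ∈ D`) so `sg p' l ≤ sg p l` and all terms are `≥ 0`; if `sg p' l < sg p l` then
`sg p l - sg p' l ≥ 1` (values in {-1, 0, 1}). So the sum is `≥ Sep f₁ l`. Multiply by
`k f₂ l * k f₃ l ≥ 0`.
-/

set_option autoImplicit false

namespace H52.Dir

open Finset

namespace Pl

variable {n : ℕ} (P : Pl n)

open Classical in
private noncomputable def o2G (f : Fin n → ℝ) (l : Finset (Fin n)) (p q : Fin n) : ℝ :=
  if P.st p q then f p * f q * Real.sign (P.Y p - P.Y q) * P.sg p l else 0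

open Classical in
private noncomputable def o2phi (f : Fin n → ℝ) (p : Fin n) : ℝ :=
  ∑ q, if P.st p q then f q * Real.sign (P.Y p - P.Y q) else 0

private theorem o2_sign_abs (x : ℝ) : |Real.sign x| ≤ 1 := by
  rcases Real.sign_apply_eq x with h | h | h <;> rw [h] <;> norm_num

private theorem o2_sign_mono {x y : ℝ} (h : x < y) : Real.sign x ≤ Real.sign y := by
  rcases lt_trichotomy x 0 with hx | hx | hx
  · rw [Real.sign_of_neg hx]
    rcases Real.sign_apply_eq y with h | h | h <;> rw [h] <;> norm_num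
  · rw [hx, Real.sign_zero, Real.sign_of_pos (by linarith)]; norm_num
  · rw [Real.sign_of_pos hx, Real.sign_of_pos (by linarith)]

private theorem o2_sign_gap {x y : ℝ} (h : Real.sign x < Real.sign y) :
    1 ≤ Real.sign y - Real.sign x := by
  rcases Real.sign_apply_eq x with hx | hx | hx <;> rcases Real.sign_apply_eq y with hy | hy | hy <;>
    rw [hx, hy] at h ⊢ <;> first | (norm_num at h; done) | norm_num

private theorem o2_phi_le {f : Fin n → ℝ} (w : P.Wt f) (p : Fin n) : |P.o2phi f p| ≤ ms f := by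
  unfold o2phi ms
  refine (Finset.abs_sum_le_sum_abs _ _).trans (Finset.sum_le_sum fun q _ => ?_)
  split_ifs
  · rw [abs_mul, abs_of_nonneg (w.nn q)]
    have := mul_le_mul_of_nonneg_left (o2_sign_abs (P.Y p - P.Y q)) (w.nn q)
    linarith
  · simpa using w.nn q

private theorem o2_sum {f : Fin n → ℝ} (l : Finset (Fin n)) :
    ∑ p, f p * P.o2phi f p * P.sg p l = ∑ p, ∑ q, P.o2G f l p q := by
  refine Finset.sum_congr rfl fun p _ => ?_
  unfold o2phi o2G
  rw [Finset.mul_sum, Finset.sum_mul]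
  refine Finset.sum_congr rfl fun q _ => ?_
  split_ifs <;> ring

private theorem o2_sep {f : Fin n → ℝ} (w : P.Wt f) {l : Finset (Fin n)} (hl : l ∈ P.D) :
    P.Sep f l ≤ ∑ p, f p * P.o2phi f p * P.sg p l := by
  classical
  rw [P.o2_sum l]
  have h1 : ∑ p, ∑ q, P.o2G f l p q =
      ∑ p, ∑ q, ((if P.Y q < P.Y p then P.o2G f l p q else 0) +
        (if P.Y q < P.Y p then P.o2G f l q p else 0)) := by
    have h2 : ∑ p, ∑ q, (if P.Y q < P.Y p then P.o2G f l q p else 0) =
        ∑ p, ∑ q, (if P.Y p < P.Y q then P.o2G f l p q else 0) := by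
      rw [Finset.sum_comm]
    simp only [Finset.sum_add_distrib]
    rw [h2]
    simp only [← Finset.sum_add_distrib]
    refine Finset.sum_congr rfl fun p _ => Finset.sum_congr rfl fun q _ => ?_
    rcases lt_trichotomy (P.Y p) (P.Y q) with h | h | h
    · rw [if_neg (not_lt.mpr h.le), if_pos h, zero_add]
    · rw [if_neg (not_lt.mpr h.le), if_neg (not_lt.mpr h.ge)]
      unfold o2G
      rw [h, sub_self, Real.sign_zero]
      simp
    · rw [if_pos h, if_neg (not_lt.mpr h.le), add_zero]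
  rw [h1]
  unfold Sep
  refine Finset.sum_le_sum fun p _ => Finset.sum_le_sum fun q _ => ?_
  by_cases hY : P.Y q < P.Y p
  · rw [if_pos hY, if_pos hY]
    unfold o2G
    by_cases hs : P.st p q
    · have hs' : P.st q p := P.st_symm hs
      rw [if_pos hs, if_pos hs', Real.sign_of_pos (by linarith), Real.sign_of_neg (by linarith)]
      have hff : 0 ≤ f p * f q := mul_nonneg (w.nn p) (w.nn q)
      have hh : P.hgt q l < P.hgt p l := P.hgt_lt hl hs hY
      have hm : P.sg q l ≤ P.sg p l := o2_sign_mono hh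
      by_cases hlt : P.sg q l < P.sg p l
      · rw [if_pos ⟨hs, hY, hlt⟩]
        have hg : 1 ≤ P.sg p l - P.sg q l := o2_sign_gap hlt
        nlinarith [mul_le_mul_of_nonneg_left hg hff]
      · rw [if_neg (fun h => hlt h.2.2)]
        nlinarith [mul_nonneg hff (sub_nonneg.mpr hm)]
    · have hs' : ¬ P.st q p := fun h => hs (P.st_symm h)
      rw [if_neg hs, if_neg hs', if_neg (fun h => hs h.1)]
      simp
  · rw [if_neg hY, if_neg hY, if_neg (fun h => hY h.2.1)]
    simp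

theorem o2 {f₁ f₂ f₃ : Fin n → ℝ} (w₁ : P.Wt f₁) (w₂ : P.Wt f₂) (w₃ : P.Wt f₃) :
    ∑ l ∈ P.D, k f₂ l * k f₃ l * P.Sep f₁ l ≤ ms f₁ * ∑ p, f₁ p * |P.Om f₂ f₃ p| := by
  have hk : ∀ l, 0 ≤ k f₂ l * k f₃ l := fun l =>
    mul_nonneg (Finset.sum_nonneg fun i _ => w₂.nn i) (Finset.sum_nonneg fun i _ => w₃.nn i)
  calc ∑ l ∈ P.D, k f₂ l * k f₃ l * P.Sep f₁ l
      ≤ ∑ l ∈ P.D, k f₂ l * k f₃ l * ∑ p, f₁ p * P.o2phi f₁ p * P.sg p l :=
        Finset.sum_le_sum fun l hl => mul_le_mul_of_nonneg_left (P.o2_sep w₁ hl) (hk l)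
    _ = ∑ p, f₁ p * P.o2phi f₁ p * P.Om f₂ f₃ p := by
        unfold Om
        simp only [Finset.mul_sum]
        rw [Finset.sum_comm]
        refine Finset.sum_congr rfl fun p _ => Finset.sum_congr rfl fun l _ => ?_
        ring
    _ ≤ ∑ p, ms f₁ * (f₁ p * |P.Om f₂ f₃ p|) := by
        refine Finset.sum_le_sum fun p _ => ?_
        have h1 : P.o2phi f₁ p * P.Om f₂ f₃ p ≤ ms f₁ * |P.Om f₂ f₃ p| := by
          refine (le_abs_self _).trans ?_
          rw [abs_mul]
          exact mul_le_mul_of_nonneg_right (P.o2_phi_le w₁ p) (abs_nonneg _)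
        have h2 := mul_le_mul_of_nonneg_left h1 (w₁.nn p)
        nlinarith [h2]
    _ = ms f₁ * ∑ p, f₁ p * |P.Om f₂ f₃ p| := by rw [Finset.mul_sum]

end Pl

end H52.Dir
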