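import Pool.Agent.H52.Dir.Pl0

/-!
# Module O4 (160 lines): triples of class 1 and a point of class 2

PROOF. `F₂ Σ_p f₁ p (Up f₁ p)² = Σ_{p, p', p'', q} [p', p'' steep above p] f₁ p f₁ p' f₁ p'' f₂ q`.
Fix such a quadruple with nonzero weight (all points in `S`, `X p', X p'' < X q` by `h12`).
If `(p', q)` is steep or `(p'', q)` is steep: the total weight of these quadruples is at most
`2 F₁² M f₁ f₂`. Otherwise let `l ∋ p', q` and `l' ∋ p'', q` be lines of `D` (`ex`). By `ab` (with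
`i = p'`, `j = p''`): `hgt p'' l ≥ 0` or `hgt p' l' ≥ 0`. In the first case `hgt p l < hgt p' l = 0`
(`hgt_lt`, `hgt_mem`), so `sg p l = -1 < sg p'' l` and `(p'', p)` is a steep pair, `Y p < Y p''`, separated by
`l`, where `p' ∈ l`, `q ∈ l`. The weight of these quadruples is at most
`Σ_{l ∈ D} Σ_{p' ∈ l} Σ_{q ∈ l} f₁ p' f₂ q Sep f₁ l = Σ_{l ∈ D} k f₁ l k f₂ l Sep f₁ l`
(the line `l` is determined by `p' ≠ q`). The second case is symmetric.
-/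

set_option autoImplicit false

namespace H52.Dir

open Finset

namespace Pl

variable {n : ℕ} (P : Pl n)

private theorem o4_swap (X : Fin n → Fin n → Fin n → Fin n → ℝ) :
    ∑ p, ∑ p', ∑ p'', ∑ q, X p p'' p' q = ∑ p, ∑ p', ∑ p'', ∑ q, X p p' p'' q :=
  Finset.sum_congr rfl fun _ _ => Finset.sum_comm

private theorem o4_f1 (f : Fin n → ℝ) (m : Fin n → Fin n → ℝ) :
    ∑ p, ∑ p', ∑ p'', ∑ q, f p * f p'' * m p' q = (∑ i, f i) ^ 2 * ∑ i, ∑ j, m i j := by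
  have h1 : ∀ p p', ∑ p'', ∑ q, f p * f p'' * m p' q = f p * (∑ i, f i) * ∑ j, m p' j := by
    intro p p'
    have h2 : ∀ p'', ∑ q, f p * f p'' * m p' q = f p * f p'' * ∑ j, m p' j := fun p'' =>
      (Finset.mul_sum _ _ _).symm
    rw [Finset.sum_congr rfl fun p'' _ => h2 p'', ← Finset.sum_mul, ← Finset.mul_sum]
  have h3 : ∀ p, ∑ p', ∑ p'', ∑ q, f p * f p'' * m p' q =
      f p * (∑ i, f i) * ∑ i, ∑ j, m i j := by
    intro p
    rw [Finset.sum_congr rfl fun p' _ => h1 p p', ← Finset.mul_sum]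
  rw [Finset.sum_congr rfl fun p _ => h3 p, ← Finset.sum_mul, ← Finset.sum_mul, sq]

private theorem o4_f3 (a b : Fin n → ℝ) (c : Fin n → Fin n → ℝ) :
    ∑ p, ∑ p', ∑ p'', ∑ q, a p' * b q * c p'' p =
      (∑ i, a i) * (∑ i, b i) * ∑ i, ∑ j, c i j := by
  have h1 : ∀ p p', ∑ p'', ∑ q, a p' * b q * c p'' p = a p' * (∑ i, b i) * ∑ i, c i p := by
    intro p p'
    have h2 : ∀ p'', ∑ q, a p' * b q * c p'' p = a p' * (∑ i, b i) * c p'' p := by
      intro p''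
      rw [← Finset.sum_mul, ← Finset.mul_sum]
    rw [Finset.sum_congr rfl fun p'' _ => h2 p'', ← Finset.mul_sum]
  have h3 : ∀ p, ∑ p', ∑ p'', ∑ q, a p' * b q * c p'' p =
      (∑ i, a i) * (∑ i, b i) * ∑ i, c i p := by
    intro p
    rw [Finset.sum_congr rfl fun p' _ => h1 p p', ← Finset.sum_mul, ← Finset.sum_mul]
  rw [Finset.sum_congr rfl fun p _ => h3 p, ← Finset.mul_sum]
  congr 1
  exact Finset.sum_comm

open Classical in
private theorem o4_k (f : Fin n → ℝ) (l : Finset (Fin n)) :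
    k f l = ∑ i, if i ∈ l then f i else 0 := by
  rw [k, ← Finset.sum_filter]
  congr 1
  ext i
  simp

open Classical in
/-- the quadruples with `p', q` on the line `l` which separates `p''` and `p` -/
private noncomputable def o4_X (f₁ f₂ : Fin n → ℝ) (p p' p'' q : Fin n) : ℝ :=
  ∑ l ∈ P.D, (if p' ∈ l then f₁ p' else 0) * (if q ∈ l then f₂ q else 0) *
    (if P.st p'' p ∧ P.Y p < P.Y p'' ∧ P.sg p l < P.sg p'' l then f₁ p'' * f₁ p else 0)

open Classical in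
private theorem o4_Xsum (f₁ f₂ : Fin n → ℝ) :
    ∑ p, ∑ p', ∑ p'', ∑ q, o4_X P f₁ f₂ p p' p'' q =
      ∑ l ∈ P.D, k f₁ l * k f₂ l * P.Sep f₁ l := by
  unfold o4_X
  have h1 : ∀ l ∈ P.D, k f₁ l * k f₂ l * P.Sep f₁ l = ∑ p, ∑ p', ∑ p'', ∑ q,
      (if p' ∈ l then f₁ p' else 0) * (if q ∈ l then f₂ q else 0) *
      (if P.st p'' p ∧ P.Y p < P.Y p'' ∧ P.sg p l < P.sg p'' l then f₁ p'' * f₁ p else 0) := by
    intro l _
    rw [o4_f3 (fun i => if i ∈ l then f₁ i else 0) (fun i => if i ∈ l then f₂ i else 0)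
      (fun i j => if P.st i j ∧ P.Y j < P.Y i ∧ P.sg j l < P.sg i l then f₁ i * f₁ j else 0),
      ← o4_k, ← o4_k]
    rfl
  rw [Finset.sum_congr rfl h1]
  symm
  rw [Finset.sum_comm]
  apply Finset.sum_congr rfl
  intro p _
  rw [Finset.sum_comm]
  apply Finset.sum_congr rfl
  intro p' _
  rw [Finset.sum_comm]
  apply Finset.sum_congr rfl
  intro p'' _
  rw [Finset.sum_comm]

private theorem o4_sg {x y : ℝ} (hx : x < 0) (hy : 0 ≤ y) : Real.sign x < Real.sign y := by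
  rw [Real.sign_of_neg hx]
  rcases hy.eq_or_lt with h | h
  · rw [← h, Real.sign_zero]
    norm_num
  · rw [Real.sign_of_pos h]
    norm_num

open Classical in
private theorem o4_Xnn {f₁ f₂ : Fin n → ℝ} (w₁ : P.Wt f₁) (w₂ : P.Wt f₂) (p p' p'' q : Fin n)
    (l : Finset (Fin n)) : 0 ≤ (if p' ∈ l then f₁ p' else 0) * (if q ∈ l then f₂ q else 0) *
    (if P.st p'' p ∧ P.Y p < P.Y p'' ∧ P.sg p l < P.sg p'' l then f₁ p'' * f₁ p else 0) := by
  refine mul_nonneg (mul_nonneg ?_ ?_) ?_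
  · split_ifs
    exacts [w₁.nn _, le_rfl]
  · split_ifs
    exacts [w₂.nn _, le_rfl]
  · split_ifs
    exacts [mul_nonneg (w₁.nn _) (w₁.nn _), le_rfl]

open Classical in
private theorem o4_Xge {f₁ f₂ : Fin n → ℝ} (w₁ : P.Wt f₁) (w₂ : P.Wt f₂) {p p' p'' q : Fin n}
    {l : Finset (Fin n)} (hl : l ∈ P.D) (hp' : p' ∈ l) (hq : q ∈ l) (hp'S : p' ∈ P.S)
    (h1 : P.st p p') (hY1 : P.Y p < P.Y p') (h2 : P.st p p'') (hY2 : P.Y p < P.Y p'')
    (h0 : 0 ≤ P.hgt p'' l) : f₁ p * f₁ p' * f₁ p'' * f₂ q ≤ o4_X P f₁ f₂ p p' p'' q := by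
  unfold o4_X
  refine le_trans ?_ (Finset.single_le_sum (fun l _ => o4_Xnn P w₁ w₂ p p' p'' q l) hl)
  have h3 : P.hgt p l < 0 := by
    have h4 := P.hgt_lt hl (P.st_symm h1) hY1
    rwa [(P.hgt_mem hl hp'S).1 hp'] at h4
  rw [if_pos hp', if_pos hq, if_pos ⟨P.st_symm h2, hY2, o4_sg h3 h0⟩]
  apply le_of_eq
  ring

theorem o4 {f₁ f₂ : Fin n → ℝ} (w₁ : P.Wt f₁) (w₂ : P.Wt f₂)
    (h12 : ∀ i j, f₁ i ≠ 0 → f₂ j ≠ 0 → P.X i < P.X j) :
    ms f₂ * ∑ p, f₁ p * (P.Up f₁ p) ^ 2 ≤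
      2 * ∑ l ∈ P.D, k f₁ l * k f₂ l * P.Sep f₁ l + 2 * (ms f₁) ^ 2 * P.M f₁ f₂ := by
  classical
  let A : Fin n → Fin n → ℝ := fun p p' => if P.st p p' ∧ P.Y p < P.Y p' then f₁ p' else 0
  let m : Fin n → Fin n → ℝ := fun i j => if P.st i j then f₁ i * f₂ j else 0
  have hL : ms f₂ * ∑ p, f₁ p * (P.Up f₁ p) ^ 2 =
      ∑ p, ∑ p', ∑ p'', ∑ q, f₁ p * A p p' * A p p'' * f₂ q := by
    rw [Finset.mul_sum]
    apply Finset.sum_congr rfl
    intro p _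
    have h1 : ∀ p', ∑ p'', ∑ q, f₁ p * A p p' * A p p'' * f₂ q =
        f₁ p * A p p' * (∑ i, A p i) * ∑ i, f₂ i := by
      intro p'
      have h2 : ∀ p'', ∑ q, f₁ p * A p p' * A p p'' * f₂ q =
          f₁ p * A p p' * A p p'' * ∑ i, f₂ i := fun p'' => (Finset.mul_sum _ _ _).symm
      rw [Finset.sum_congr rfl fun p'' _ => h2 p'', ← Finset.sum_mul, ← Finset.mul_sum]
    rw [Finset.sum_congr rfl fun p' _ => h1 p', ← Finset.sum_mul, ← Finset.sum_mul,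
      ← Finset.mul_sum]
    have h3 : P.Up f₁ p = ∑ i, A p i := rfl
    rw [h3, ms]
    ring
  have hM1 : ∑ p, ∑ p', ∑ p'', ∑ q, f₁ p * f₁ p'' * m p' q = (ms f₁) ^ 2 * P.M f₁ f₂ := by
    rw [o4_f1 f₁ m]
    rfl
  have hM2 : ∑ p, ∑ p', ∑ p'', ∑ q, f₁ p * f₁ p' * m p'' q = (ms f₁) ^ 2 * P.M f₁ f₂ := by
    rw [← hM1]
    exact o4_swap (fun p p' p'' q => f₁ p * f₁ p'' * m p' q)
  have hX1 := o4_Xsum P f₁ f₂
  have hX2 : ∑ p, ∑ p', ∑ p'', ∑ q, o4_X P f₁ f₂ p p'' p' q =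
      ∑ l ∈ P.D, k f₁ l * k f₂ l * P.Sep f₁ l := by
    rw [← hX1]
    exact o4_swap (fun p p' p'' q => o4_X P f₁ f₂ p p' p'' q)
  have hXnn : ∀ p p' p'' q, 0 ≤ o4_X P f₁ f₂ p p' p'' q := fun p p' p'' q =>
    Finset.sum_nonneg fun l _ => o4_Xnn P w₁ w₂ p p' p'' q l
  have hmnn : ∀ i j, 0 ≤ m i j := by
    intro i j
    simp only [m]
    split_ifs
    exacts [mul_nonneg (w₁.nn _) (w₂.nn _), le_rfl]
  have hpt : ∀ p p' p'' q, f₁ p * A p p' * A p p'' * f₂ q ≤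
      f₁ p * f₁ p'' * m p' q + f₁ p * f₁ p' * m p'' q + o4_X P f₁ f₂ p p' p'' q +
        o4_X P f₁ f₂ p p'' p' q := by
    intro p p' p'' q
    have n1 : 0 ≤ f₁ p * f₁ p'' * m p' q := mul_nonneg (mul_nonneg (w₁.nn _) (w₁.nn _)) (hmnn _ _)
    have n2 : 0 ≤ f₁ p * f₁ p' * m p'' q := mul_nonneg (mul_nonneg (w₁.nn _) (w₁.nn _)) (hmnn _ _)
    have n3 := hXnn p p' p'' q
    have n4 := hXnn p p'' p' q
    by_cases h1 : P.st p p' ∧ P.Y p < P.Y p'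
    swap
    · have h2 : A p p' = 0 := if_neg h1
      rw [h2, mul_zero, zero_mul, zero_mul]
      linarith
    by_cases h2 : P.st p p'' ∧ P.Y p < P.Y p''
    swap
    · have h3 : A p p'' = 0 := if_neg h2
      rw [h3, mul_zero, zero_mul]
      linarith
    have e1 : A p p' = f₁ p' := if_pos h1
    have e2 : A p p'' = f₁ p'' := if_pos h2
    rw [e1, e2]
    by_cases hz : f₁ p * f₁ p' * f₁ p'' * f₂ q = 0
    · rw [hz]
      linarith
    have z4 : f₂ q ≠ 0 := right_ne_zero_of_mul hz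
    have hz' := left_ne_zero_of_mul hz
    have z3 : f₁ p'' ≠ 0 := right_ne_zero_of_mul hz'
    have z2 : f₁ p' ≠ 0 := right_ne_zero_of_mul (left_ne_zero_of_mul hz')
    have s2 := w₁.sup _ z2
    have s3 := w₁.sup _ z3
    have s4 := w₂.sup _ z4
    have x2 := h12 _ _ z2 z4
    have x3 := h12 _ _ z3 z4
    by_cases t1 : P.st p' q
    · have e3 : m p' q = f₁ p' * f₂ q := if_pos t1
      rw [e3]
      rw [e3] at n1
      have e4 : f₁ p * f₁ p' * f₁ p'' * f₂ q = f₁ p * f₁ p'' * (f₁ p' * f₂ q) := by ring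
      linarith
    by_cases t2 : P.st p'' q
    · have e3 : m p'' q = f₁ p'' * f₂ q := if_pos t2
      rw [e3]
      rw [e3] at n2
      have e4 : f₁ p * f₁ p' * f₁ p'' * f₂ q = f₁ p * f₁ p' * (f₁ p'' * f₂ q) := by ring
      linarith
    have ne1 : p' ≠ q := by
      rintro rfl
      exact lt_irrefl _ x2
    have ne2 : p'' ≠ q := by
      rintro rfl
      exact lt_irrefl _ x3
    have r1 : P.nr p' q := by
      by_contra h
      exact t1 ⟨ne1, h⟩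
    have r2 : P.nr p'' q := by
      by_contra h
      exact t2 ⟨ne2, h⟩
    obtain ⟨l, hl, hl1, hl2⟩ := P.ex _ s2 _ s4 r1.1 r1.2
    obtain ⟨l', hl', hl1', hl2'⟩ := P.ex _ s3 _ s4 r2.1 r2.2
    rcases P.ab s2 s3 s4 x2 x3 hl hl' hl1 hl2 hl1' hl2' with h0 | h0
    · have h5 := o4_Xge P w₁ w₂ hl hl1 hl2 s2 h1.1 h1.2 h2.1 h2.2 h0
      linarith
    · have h5 := o4_Xge P w₁ w₂ hl' hl1' hl2' s3 h2.1 h2.2 h1.1 h1.2 h0
      have e4 : f₁ p * f₁ p'' * f₁ p' * f₂ q = f₁ p * f₁ p' * f₁ p'' * f₂ q := by ring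
      rw [e4] at h5
      linarith
  rw [hL]
  have hfin : ∑ p, ∑ p', ∑ p'', ∑ q, f₁ p * A p p' * A p p'' * f₂ q ≤
      ∑ p, ∑ p', ∑ p'', ∑ q, (f₁ p * f₁ p'' * m p' q + f₁ p * f₁ p' * m p'' q +
        o4_X P f₁ f₂ p p' p'' q + o4_X P f₁ f₂ p p'' p' q) :=
    Finset.sum_le_sum fun p _ => Finset.sum_le_sum fun p' _ => Finset.sum_le_sum fun p'' _ =>
      Finset.sum_le_sum fun q _ => hpt p p' p'' q
  refine hfin.trans ?_
  simp only [Finset.sum_add_distrib]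
  rw [hM1, hM2, hX1, hX2]
  linarith

end Pl

end H52.Dir
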