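import Pool.Agent.H52.Dir.O1b
import Pool.Agent.H52.Dir.O2
import Pool.Agent.H52.Dir.O4
import Pool.Agent.H52.Dir.Gr

/-!
# Module Ord (170 lines): the order lemma

PROOF. Let `τ = 4 σ / γ²`, `F_i = ms f_i`, `γ n ≤ F_i ≤ n` (so `γ ≤ 1`), `σ ≤ τ` if `γ ≤ 1`; assume
`τ ≤ 1`. By `gram_l2`: `Σ_D (k₁/F₁ - k₃/F₃)² ≤ τ`, `Σ_D (k₂/F₂ - k₃/F₃)² ≤ τ`.
(1) `o1a` with `e = k₃ - (F₃/F₂) k₂ = F₃ (k₃/F₃ - k₂/F₂)`, `Σ_D e² ≤ n² τ`, Cauchy-Schwarz and `k_sq`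
(`Σ_D k₁² ≤ 2 n²`): `Σ f₁ |AA| ≤ n √(2 n²) (n √τ) ≤ 2 √τ n³`. With `o1b`, `M f₁ f₂, M f₂ f₃ ≤ σ n² ≤ τ n²`:
`Σ f₁ |Om| ≤ 2 √τ n³ + 2 τ n³ ≤ 4 √τ n³`.
(2) `o2`: `Σ_D k₂ k₃ Sep ≤ n * 4 √τ n³ = 4 √τ n⁴`.
(3) `0 ≤ Sep f₁ l ≤ F₁² ≤ n²`. `k₁ k₂ Sep ≤ (F₁/F₃) k₂ k₃ Sep + k₂ |k₁ - (F₁/F₃) k₃| Sep`, `F₁/F₃ ≤ 1/γ`,
`k₁ - (F₁/F₃) k₃ = F₁ (k₁/F₁ - k₃/F₃)`: `Σ_D k₁ k₂ Sep ≤ (4/γ) √τ n⁴ + n² √(2 n²) (n √τ) ≤ (6/γ) √τ n⁴`.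
(4) `o4`: `F₂ Σ f₁ (Up f₁)² ≤ (12/γ) √τ n⁴ + 2 τ n⁴ ≤ (14/γ) √τ n⁴`, so `Σ f₁ (Up f₁)² ≤ (14/γ²) √τ n³`.
(5) Cauchy-Schwarz: `(Σ f₁ Up f₁)² ≤ F₁ Σ f₁ (Up f₁)² ≤ (14/γ²) √τ n⁴`, and
`M f₁ f₁ = 2 Σ f₁ Up f₁` (a steep pair of points of `S` has different heights: `st_ne`; symmetry), so
`M f₁ f₁ ≤ 2 √(14 √τ) / γ * n²`. Choose `σ` so small that this is `≤ κ n²`.
-/

set_option autoImplicit false

namespace H52.Dir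

open Finset

namespace Pl

variable {n : ℕ} (P : Pl n)

private theorem Ord_cs {ι : Type*} (s : Finset ι) (a e : ι → ℝ) (m t : ℝ) (hm : 0 ≤ m)
    (ht : 0 ≤ t) (ha : ∑ l ∈ s, a l ^ 2 ≤ 2 * m ^ 2) (he : ∑ l ∈ s, e l ^ 2 ≤ t ^ 2) :
    ∑ l ∈ s, a l * |e l| ≤ 2 * m * t := by
  have h := Finset.sum_mul_sq_le_sq_mul_sq s a (fun l => |e l|)
  simp only [sq_abs] at h
  have h0 : 0 ≤ ∑ l ∈ s, e l ^ 2 := Finset.sum_nonneg (fun l _ => sq_nonneg _)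
  have h1 : (∑ l ∈ s, a l ^ 2) * ∑ l ∈ s, e l ^ 2 ≤ (2 * m ^ 2) * t ^ 2 :=
    mul_le_mul ha he h0 (by positivity)
  have h2 : (∑ l ∈ s, a l * |e l|) ^ 2 ≤ (2 * m * t) ^ 2 := by
    refine (h.trans h1).trans ?_
    have : 0 ≤ m ^ 2 * t ^ 2 := by positivity
    nlinarith [this]
  exact (abs_le_of_sq_le_sq' h2 (by positivity)).2

private theorem Ord_sep_nn {f : Fin n → ℝ} (w : P.Wt f) (l : Finset (Fin n)) :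
    0 ≤ P.Sep f l := by
  unfold Sep
  refine Finset.sum_nonneg (fun i _ => Finset.sum_nonneg (fun j _ => ?_))
  split_ifs
  · exact mul_nonneg (w.nn i) (w.nn j)
  · exact le_rfl

private theorem Ord_sep_le {f : Fin n → ℝ} (w : P.Wt f) (l : Finset (Fin n)) :
    P.Sep f l ≤ (ms f) ^ 2 := by
  unfold Sep ms
  rw [sq, Finset.sum_mul_sum]
  refine Finset.sum_le_sum (fun i _ => Finset.sum_le_sum (fun j _ => ?_))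
  split_ifs
  · exact le_rfl
  · exact mul_nonneg (w.nn i) (w.nn j)

private theorem Ord_k_nn {f : Fin n → ℝ} (w : P.Wt f) (l : Finset (Fin n)) : 0 ≤ k f l :=
  Finset.sum_nonneg (fun i _ => w.nn i)

private theorem Ord_ms_le {f : Fin n → ℝ} (w : P.Wt f) : ms f ≤ n := by
  unfold ms
  calc ∑ i, f i ≤ ∑ _i : Fin n, (1 : ℝ) := Finset.sum_le_sum (fun i _ => w.le i)
    _ = n := by simp

private theorem Ord_M_le {f : Fin n → ℝ} (w : P.Wt f) :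
    P.M f f ≤ 2 * ∑ p, f p * P.Up f p := by
  classical
  have e1 : ∑ p, f p * P.Up f p =
      ∑ i, ∑ j, (if P.st i j ∧ P.Y i < P.Y j then f i * f j else 0) := by
    unfold Up
    refine Finset.sum_congr rfl (fun i _ => ?_)
    rw [Finset.mul_sum]
    refine Finset.sum_congr rfl (fun j _ => ?_)
    split_ifs <;> simp
  have e2 : ∑ p, f p * P.Up f p =
      ∑ i, ∑ j, (if P.st i j ∧ P.Y j < P.Y i then f i * f j else 0) := by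
    rw [e1, Finset.sum_comm]
    refine Finset.sum_congr rfl (fun i _ => Finset.sum_congr rfl (fun j _ => ?_))
    by_cases h : P.st i j ∧ P.Y j < P.Y i
    · rw [if_pos h, if_pos ⟨P.st_symm h.1, h.2⟩, mul_comm]
    · rw [if_neg h, if_neg (fun h' => h ⟨P.st_symm h'.1, h'.2⟩)]
  rw [two_mul]
  nth_rewrite 1 [e1]
  rw [e2, ← Finset.sum_add_distrib]
  unfold M
  refine Finset.sum_le_sum (fun i _ => ?_)
  rw [← Finset.sum_add_distrib]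
  refine Finset.sum_le_sum (fun j _ => ?_)
  have hij : 0 ≤ f i * f j := mul_nonneg (w.nn i) (w.nn j)
  by_cases hst : P.st i j
  · rw [if_pos hst]
    by_cases hi : f i = 0
    · simp [hi]
    by_cases hj : f j = 0
    · simp [hj]
    rcases lt_or_gt_of_ne (P.st_ne (w.sup i hi) (w.sup j hj) hst) with h | h
    · rw [if_pos ⟨hst, h⟩]
      have : 0 ≤ (if P.st i j ∧ P.Y j < P.Y i then f i * f j else 0) := by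
        split_ifs
        · exact hij
        · exact le_rfl
      linarith
    · rw [if_pos (show P.st i j ∧ P.Y j < P.Y i from ⟨hst, h⟩)]
      have : 0 ≤ (if P.st i j ∧ P.Y i < P.Y j then f i * f j else 0) := by
        split_ifs
        · exact hij
        · exact le_rfl
      linarith
  · rw [if_neg hst, if_neg (fun h => hst h.1), if_neg (fun h => hst h.1)]
    simp

end Pl

theorem ord (γ κ : ℝ) (hγ : 0 < γ) (hκ : 0 < κ) : ∃ σ : ℝ, 0 < σ ∧ ∀ (n : ℕ) (P : Pl n), 0 < n →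
    ∀ f₁ f₂ f₃ : Fin n → ℝ, P.Wt f₁ → P.Wt f₂ → P.Wt f₃ →
    (∀ i j, f₁ i ≠ 0 → f₂ j ≠ 0 → P.X i < P.X j) →
    (∀ i j, f₂ i ≠ 0 → f₃ j ≠ 0 → P.X i < P.X j) →
    γ * n ≤ Pl.ms f₁ → γ * n ≤ Pl.ms f₂ → γ * n ≤ Pl.ms f₃ →
    P.M f₁ f₂ ≤ σ * (n : ℝ) ^ 2 → P.M f₂ f₃ ≤ σ * (n : ℝ) ^ 2 →
    |P.Er f₁ f₁| ≤ σ * (n : ℝ) ^ 2 → |P.Er f₁ f₃| ≤ σ * (n : ℝ) ^ 2 →
    |P.Er f₃ f₃| ≤ σ * (n : ℝ) ^ 2 → |P.Er f₂ f₂| ≤ σ * (n : ℝ) ^ 2 →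
    |P.Er f₂ f₃| ≤ σ * (n : ℝ) ^ 2 →
    P.M f₁ f₁ ≤ κ * (n : ℝ) ^ 2 := by
  obtain ⟨t, ht0, ht1, ht2⟩ : ∃ t : ℝ, 0 < t ∧ t ≤ 1 ∧ t ≤ κ ^ 2 * γ ^ 2 / 56 :=
    ⟨min 1 (κ ^ 2 * γ ^ 2 / 56), by positivity, min_le_left _ _, min_le_right _ _⟩
  refine ⟨t ^ 2 * γ ^ 2 / 4, by positivity, ?_⟩
  intro n P hn f₁ f₂ f₃ w₁ w₂ w₃ h12 h23 g1 g2 g3 m12 m23 e11 e13 e33 e22 e23
  have hn0 : (0 : ℝ) < n := by exact_mod_cast hn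
  have F1n := P.Ord_ms_le w₁
  have F2n := P.Ord_ms_le w₂
  have F3n := P.Ord_ms_le w₃
  have hγ1 : γ ≤ 1 := by
    have : γ * n ≤ 1 * n := by linarith
    exact le_of_mul_le_mul_right this hn0
  have F1p : 0 < Pl.ms f₁ := lt_of_lt_of_le (by positivity) g1
  have F2p : 0 < Pl.ms f₂ := lt_of_lt_of_le (by positivity) g2
  have F3p : 0 < Pl.ms f₃ := lt_of_lt_of_le (by positivity) g3
  have hσ : t ^ 2 * γ ^ 2 / 4 ≤ t ^ 2 := by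
    have : γ ^ 2 ≤ 1 := by nlinarith
    nlinarith [sq_nonneg t, mul_le_mul_of_nonneg_left this (sq_nonneg t)]
  have hτ : 4 * (t ^ 2 * γ ^ 2 / 4) / γ ^ 2 = t ^ 2 := by field_simp
  have G13 := P.gram_l2 w₁ w₃ hn hγ g1 g3 e11 e13 e33
  have G23 := P.gram_l2 w₂ w₃ hn hγ g2 g3 e22 e23 e33
  rw [hτ] at G13 G23
  have htt : t ^ 2 ≤ t := by nlinarith
  -- (1)
  have S1 : ∑ p, f₁ p * |P.AA f₂ f₃ p| ≤ 2 * t * (n : ℝ) ^ 3 := by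
    have h := P.o1a w₁ w₂ w₃ h12 F2p
    have h' : ∑ l ∈ P.D, Pl.k f₁ l * |Pl.k f₃ l - Pl.ms f₃ / Pl.ms f₂ * Pl.k f₂ l| =
        Pl.ms f₃ * ∑ l ∈ P.D, Pl.k f₁ l * |Pl.k f₂ l / Pl.ms f₂ - Pl.k f₃ l / Pl.ms f₃| := by
      rw [Finset.mul_sum]
      refine Finset.sum_congr rfl (fun l _ => ?_)
      have : Pl.k f₃ l - Pl.ms f₃ / Pl.ms f₂ * Pl.k f₂ l =
          -(Pl.ms f₃ * (Pl.k f₂ l / Pl.ms f₂ - Pl.k f₃ l / Pl.ms f₃)) := by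
        field_simp
        ring
      rw [this, abs_neg, abs_mul, abs_of_pos F3p]
      ring
    have c := Pl.Ord_cs P.D (Pl.k f₁) (fun l => Pl.k f₂ l / Pl.ms f₂ - Pl.k f₃ l / Pl.ms f₃)
      n t hn0.le ht0.le (P.k_sq f₁ w₁) G23
    have c0 : 0 ≤ ∑ l ∈ P.D, Pl.k f₁ l * |Pl.k f₂ l / Pl.ms f₂ - Pl.k f₃ l / Pl.ms f₃| :=
      Finset.sum_nonneg (fun l _ => mul_nonneg (P.Ord_k_nn w₁ l) (abs_nonneg _))
    rw [h'] at h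
    have h3 : Pl.ms f₃ * ∑ l ∈ P.D, Pl.k f₁ l * |Pl.k f₂ l / Pl.ms f₂ - Pl.k f₃ l / Pl.ms f₃| ≤
        n * (2 * n * t) := mul_le_mul F3n c c0 hn0.le
    have h4 := mul_le_mul F2n h3 (mul_nonneg F3p.le c0) hn0.le
    refine h.trans (h4.trans (le_of_eq ?_))
    ring
  have S2 : ∑ p, f₁ p * |P.Om f₂ f₃ p| ≤ 4 * t * (n : ℝ) ^ 3 := by
    have h := P.o1b w₁ w₂ w₃ h12 h23
    have h1 : ∑ p, f₁ p * |P.Om f₂ f₃ p| ≤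
        ∑ p, f₁ p * |P.AA f₂ f₃ p| + ∑ p, f₁ p * |P.Om f₂ f₃ p - P.AA f₂ f₃ p| := by
      rw [← Finset.sum_add_distrib]
      refine Finset.sum_le_sum (fun p _ => ?_)
      rw [← mul_add]
      refine mul_le_mul_of_nonneg_left ?_ (w₁.nn p)
      have := abs_add_le (P.AA f₂ f₃ p) (P.Om f₂ f₃ p - P.AA f₂ f₃ p)
      rwa [add_sub_cancel] at this
    have M0 : ∀ f g : Fin n → ℝ, P.Wt f → P.Wt g → 0 ≤ P.M f g := by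
      intro f g wf wg
      unfold Pl.M
      refine Finset.sum_nonneg (fun i _ => Finset.sum_nonneg (fun j _ => ?_))
      split_ifs
      · exact mul_nonneg (wf.nn i) (wg.nn j)
      · exact le_rfl
    have h2 : Pl.ms f₃ * P.M f₁ f₂ ≤ n * (t ^ 2 * γ ^ 2 / 4 * (n : ℝ) ^ 2) :=
      mul_le_mul F3n m12 (M0 _ _ w₁ w₂) hn0.le
    have h3 : Pl.ms f₁ * P.M f₂ f₃ ≤ n * (t ^ 2 * γ ^ 2 / 4 * (n : ℝ) ^ 2) :=
      mul_le_mul F1n m23 (M0 _ _ w₂ w₃) hn0.le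
    have h4 : n * (t ^ 2 * γ ^ 2 / 4 * (n : ℝ) ^ 2) ≤ t * (n : ℝ) ^ 3 := by
      have : t ^ 2 * γ ^ 2 / 4 ≤ t := hσ.trans htt
      have h5 : (n : ℝ) * (t ^ 2 * γ ^ 2 / 4 * (n : ℝ) ^ 2) = t ^ 2 * γ ^ 2 / 4 * (n : ℝ) ^ 3 := by
        ring
      rw [h5]
      exact mul_le_mul_of_nonneg_right this (by positivity)
    linarith
  -- (2)
  have S3 : ∑ l ∈ P.D, Pl.k f₂ l * Pl.k f₃ l * P.Sep f₁ l ≤ 4 * t * (n : ℝ) ^ 4 := by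
    have h := P.o2 w₁ w₂ w₃
    have h0 : 0 ≤ ∑ p, f₁ p * |P.Om f₂ f₃ p| :=
      Finset.sum_nonneg (fun p _ => mul_nonneg (w₁.nn p) (abs_nonneg _))
    have h1 := mul_le_mul F1n S2 h0 hn0.le
    refine h.trans (h1.trans (le_of_eq ?_))
    ring
  -- (3)
  have S4 : ∑ l ∈ P.D, Pl.k f₁ l * Pl.k f₂ l * P.Sep f₁ l ≤ 6 / γ * t * (n : ℝ) ^ 4 := by
    have c := Pl.Ord_cs P.D (Pl.k f₂) (fun l => Pl.k f₁ l / Pl.ms f₁ - Pl.k f₃ l / Pl.ms f₃)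
      n t hn0.le ht0.le (P.k_sq f₂ w₂) G13
    have hr : Pl.ms f₁ / Pl.ms f₃ ≤ 1 / γ := by
      rw [div_le_div_iff₀ F3p hγ]
      nlinarith
    have h1 : ∀ l ∈ P.D, Pl.k f₁ l * Pl.k f₂ l * P.Sep f₁ l ≤
        1 / γ * (Pl.k f₂ l * Pl.k f₃ l * P.Sep f₁ l) +
        (n : ℝ) ^ 3 * (Pl.k f₂ l * |Pl.k f₁ l / Pl.ms f₁ - Pl.k f₃ l / Pl.ms f₃|) := by
      intro l _
      have a1 := P.Ord_k_nn w₁ l
      have a2 := P.Ord_k_nn w₂ l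
      have a3 := P.Ord_k_nn w₃ l
      have s0 := P.Ord_sep_nn w₁ l
      have s1 : P.Sep f₁ l ≤ (n : ℝ) ^ 2 :=
        (P.Ord_sep_le w₁ l).trans (by nlinarith)
      have e : Pl.k f₁ l = Pl.ms f₁ / Pl.ms f₃ * Pl.k f₃ l +
          Pl.ms f₁ * (Pl.k f₁ l / Pl.ms f₁ - Pl.k f₃ l / Pl.ms f₃) := by
        field_simp
        ring
      have e1 : Pl.k f₁ l ≤ 1 / γ * Pl.k f₃ l +
          n * |Pl.k f₁ l / Pl.ms f₁ - Pl.k f₃ l / Pl.ms f₃| := by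
        have b1 : Pl.ms f₁ / Pl.ms f₃ * Pl.k f₃ l ≤ 1 / γ * Pl.k f₃ l :=
          mul_le_mul_of_nonneg_right hr a3
        have b2 : Pl.ms f₁ * (Pl.k f₁ l / Pl.ms f₁ - Pl.k f₃ l / Pl.ms f₃) ≤
            n * |Pl.k f₁ l / Pl.ms f₁ - Pl.k f₃ l / Pl.ms f₃| :=
          (mul_le_mul_of_nonneg_left (le_abs_self _) F1p.le).trans
            (mul_le_mul_of_nonneg_right F1n (abs_nonneg _))
        linarith
      have e2 : Pl.k f₁ l * (Pl.k f₂ l * P.Sep f₁ l) ≤ (1 / γ * Pl.k f₃ l +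
          n * |Pl.k f₁ l / Pl.ms f₁ - Pl.k f₃ l / Pl.ms f₃|) * (Pl.k f₂ l * P.Sep f₁ l) :=
        mul_le_mul_of_nonneg_right e1 (mul_nonneg a2 s0)
      have e3 : n * |Pl.k f₁ l / Pl.ms f₁ - Pl.k f₃ l / Pl.ms f₃| * (Pl.k f₂ l * P.Sep f₁ l) ≤
          n * |Pl.k f₁ l / Pl.ms f₁ - Pl.k f₃ l / Pl.ms f₃| * (Pl.k f₂ l * (n : ℝ) ^ 2) :=
        mul_le_mul_of_nonneg_left (mul_le_mul_of_nonneg_left s1 a2) (by positivity)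
      nlinarith [e2, e3]
    refine (Finset.sum_le_sum h1).trans ?_
    rw [Finset.sum_add_distrib, ← Finset.mul_sum, ← Finset.mul_sum]
    have h2 : 1 / γ * ∑ l ∈ P.D, Pl.k f₂ l * Pl.k f₃ l * P.Sep f₁ l ≤
        1 / γ * (4 * t * (n : ℝ) ^ 4) := mul_le_mul_of_nonneg_left S3 (by positivity)
    have h3 : (n : ℝ) ^ 3 * ∑ l ∈ P.D,
        Pl.k f₂ l * |Pl.k f₁ l / Pl.ms f₁ - Pl.k f₃ l / Pl.ms f₃| ≤ (n : ℝ) ^ 3 * (2 * n * t) :=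
      mul_le_mul_of_nonneg_left c (by positivity)
    have h4 : (1 : ℝ) ≤ 1 / γ := by rw [le_div_iff₀ hγ]; linarith
    have h5 : (n : ℝ) ^ 3 * (2 * n * t) ≤ 1 / γ * (2 * t * (n : ℝ) ^ 4) := by
      have : (n : ℝ) ^ 3 * (2 * n * t) = 1 * (2 * t * (n : ℝ) ^ 4) := by ring
      rw [this]
      exact mul_le_mul_of_nonneg_right h4 (by positivity)
    have h6 : 6 / γ * t * (n : ℝ) ^ 4 =
        1 / γ * (4 * t * (n : ℝ) ^ 4) + 1 / γ * (2 * t * (n : ℝ) ^ 4) := by ring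
    rw [h6]
    linarith
  -- (4)
  have S5 : Pl.ms f₂ * ∑ p, f₁ p * (P.Up f₁ p) ^ 2 ≤ 14 / γ * t * (n : ℝ) ^ 4 := by
    have h := P.o4 w₁ w₂ h12
    have h1 : 2 * (Pl.ms f₁) ^ 2 * P.M f₁ f₂ ≤ 2 * t * (n : ℝ) ^ 4 := by
      have a1 : (Pl.ms f₁) ^ 2 ≤ (n : ℝ) ^ 2 := by nlinarith
      have a2 : P.M f₁ f₂ ≤ t * (n : ℝ) ^ 2 :=
        m12.trans (mul_le_mul_of_nonneg_right (hσ.trans htt) (by positivity))
      have a3 : 2 * (Pl.ms f₁) ^ 2 * P.M f₁ f₂ ≤ 2 * (Pl.ms f₁) ^ 2 * (t * (n : ℝ) ^ 2) :=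
        mul_le_mul_of_nonneg_left a2 (by positivity)
      have a4 : 2 * (Pl.ms f₁) ^ 2 * (t * (n : ℝ) ^ 2) ≤ 2 * (n : ℝ) ^ 2 * (t * (n : ℝ) ^ 2) :=
        mul_le_mul_of_nonneg_right (by linarith) (by positivity)
      refine a3.trans (a4.trans (le_of_eq ?_))
      ring
    have h4 : (1 : ℝ) ≤ 1 / γ := by rw [le_div_iff₀ hγ]; linarith
    have h5 : 2 * t * (n : ℝ) ^ 4 ≤ 1 / γ * (2 * t * (n : ℝ) ^ 4) := by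
      have := mul_le_mul_of_nonneg_right h4 (show 0 ≤ 2 * t * (n : ℝ) ^ 4 by positivity)
      linarith
    have h6 : 14 / γ * t * (n : ℝ) ^ 4 =
        2 * (6 / γ * t * (n : ℝ) ^ 4) + 1 / γ * (2 * t * (n : ℝ) ^ 4) := by ring
    rw [h6]
    linarith
  have U0 : 0 ≤ ∑ p, f₁ p * (P.Up f₁ p) ^ 2 :=
    Finset.sum_nonneg (fun p _ => mul_nonneg (w₁.nn p) (sq_nonneg _))
  have S6 : ∑ p, f₁ p * (P.Up f₁ p) ^ 2 ≤ 14 / γ ^ 2 * t * (n : ℝ) ^ 3 := by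
    have h1 : γ * n * ∑ p, f₁ p * (P.Up f₁ p) ^ 2 ≤ 14 / γ * t * (n : ℝ) ^ 4 :=
      (mul_le_mul_of_nonneg_right g2 U0).trans S5
    have h2 : γ * n * (14 / γ ^ 2 * t * (n : ℝ) ^ 3) = 14 / γ * t * (n : ℝ) ^ 4 := by
      field_simp
    rw [← h2] at h1
    exact le_of_mul_le_mul_left h1 (by positivity)
  -- (5)
  have S7 : (∑ p, f₁ p * P.Up f₁ p) ^ 2 ≤ 14 / γ ^ 2 * t * (n : ℝ) ^ 4 := by
    have h := Finset.sum_mul_sq_le_sq_mul_sq univ (fun p => Real.sqrt (f₁ p))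
      (fun p => Real.sqrt (f₁ p) * P.Up f₁ p)
    have e1 : ∀ p, Real.sqrt (f₁ p) * (Real.sqrt (f₁ p) * P.Up f₁ p) = f₁ p * P.Up f₁ p := by
      intro p
      rw [← mul_assoc, Real.mul_self_sqrt (w₁.nn p)]
    have e2 : ∀ p, Real.sqrt (f₁ p) ^ 2 = f₁ p := fun p => Real.sq_sqrt (w₁.nn p)
    have e3 : ∀ p, (Real.sqrt (f₁ p) * P.Up f₁ p) ^ 2 = f₁ p * (P.Up f₁ p) ^ 2 := by
      intro p
      rw [mul_pow, Real.sq_sqrt (w₁.nn p)]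
    simp only [e1, e2, e3] at h
    have h2 : (∑ p, f₁ p) * ∑ p, f₁ p * (P.Up f₁ p) ^ 2 ≤
        n * (14 / γ ^ 2 * t * (n : ℝ) ^ 3) := mul_le_mul F1n S6 U0 hn0.le
    refine h.trans (h2.trans (le_of_eq ?_))
    ring
  have S8 := P.Ord_M_le w₁
  have V0 : 0 ≤ ∑ p, f₁ p * P.Up f₁ p := by
    refine Finset.sum_nonneg (fun p _ => mul_nonneg (w₁.nn p) ?_)
    unfold Pl.Up
    refine Finset.sum_nonneg (fun j _ => ?_)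
    split_ifs
    · exact w₁.nn j
    · exact le_rfl
  have S9 : (2 * ∑ p, f₁ p * P.Up f₁ p) ^ 2 ≤ (κ * (n : ℝ) ^ 2) ^ 2 := by
    have h1 : (2 * ∑ p, f₁ p * P.Up f₁ p) ^ 2 ≤ 4 * (14 / γ ^ 2 * t * (n : ℝ) ^ 4) := by
      nlinarith [S7]
    have h2 : 4 * (14 / γ ^ 2 * t * (n : ℝ) ^ 4) = 56 / γ ^ 2 * t * (n : ℝ) ^ 4 := by ring
    have h3 : 56 / γ ^ 2 * t ≤ κ ^ 2 := by
      have := mul_le_mul_of_nonneg_left ht2 (show 0 ≤ 56 / γ ^ 2 by positivity)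
      have e : 56 / γ ^ 2 * (κ ^ 2 * γ ^ 2 / 56) = κ ^ 2 := by field_simp
      rw [e] at this
      exact this
    have h4 : 56 / γ ^ 2 * t * (n : ℝ) ^ 4 ≤ κ ^ 2 * (n : ℝ) ^ 4 :=
      mul_le_mul_of_nonneg_right h3 (by positivity)
    calc (2 * ∑ p, f₁ p * P.Up f₁ p) ^ 2 ≤ κ ^ 2 * (n : ℝ) ^ 4 := by rw [h2] at h1; linarith
      _ = _ := by ring
  have S10 := (abs_le_of_sq_le_sq' S9 (by positivity)).2
  linarith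

end H52.Dir
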