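import Pool.Agent.H52.Dir.G5b
import Pool.Agent.H52.Dir.G3
import Pool.Agent.H52.Dir.Ord

/-!
# Module G5 (170 lines): the order lemma for a clean cut

PROOF. `E = {q ∈ Cl 0 : cx b q < t}`, `F = {q ∈ Cl 0 : t ≤ cx b q}`, `f₁ = 1_E`, `f₂ = 1_F`, `f₃ = 1_{Cl b}` in the
planar system `P` of `toPl` for `u' = rot (fr b c) ∘ u` (`cf_rot`), `η = 1`, `S = Cl 0 ∪ Cl b` (there
`u' 0 = (u 0 + u b)/√2 ≠ 0`: one of the two coordinates is at least .99, the other one at most .01).
Order: `P.X = (u b - u 0)/(u 0 + u b)`; on `Cl 0` this is `(x - 1)/(x + 1)`, `x = cx u b`, `|x| ≤ 1/50`, increasing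
in `x` and negative; on `Cl b` it is positive. So the abscissas are ordered `E < F < Cl b`.
Masses: `≥ e n`, `e n`, `n/4 ≥ e n` if `e ≤ 1/4` (otherwise use `γ = min e (1/4)`).
Steep mass: `P.M f₂ f₃ = 0` and `P.M f₁ f₃ = 0` (`mem_dl`: a point of `Cl 0` and a point of `Cl b` are near).
`P.M f₁ f₂ ≤` (pairs across `t` whose line meets `Cl c`) + (for each typical `p ∈ E` at most `70 σ n` other steep
partners, `scount`) + (nontypical `p`: at most `σ n * n`) `≤ (τ + 71 σ) n²`.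
Errors: for typical `p ∈ Cl a`, `a ∈ {0, b}`: `|P.T p - P.St 1_{Cl a} p| ≤ 270 σ n` (`tcount`, `scount`; `P.T p` is the number
of lines of `Dl` through `p`, `Ls_rot`). `P.Er f₁ f₁ = Σ_{p ∈ E} (P.T p - 1 - P.St 1_E p)` and
`P.St 1_{Cl 0} = P.St 1_E + P.St 1_F`, so `|P.Er f₁ f₁| ≤ (270 σ + σ + 2 σ) n² + P.M f₁ f₂`; the same for
`P.Er f₂ f₂` (with `P.M f₂ f₁ = P.M f₁ f₂`), `|P.Er f₃ f₃| ≤ 273 σ n²`, `P.Er f₁ f₃ = - P.M f₁ f₃ = 0`,
`P.Er f₂ f₃ = 0`. (`1 ≤ σ n`.) `ord γ κ` with `τ`, `σ` small gives `P.M f₁ f₁ ≤ κ n²`, and by the second part of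
`scount` (typical or not: the statement `¬ nr` there only needs `not_mem_dl`) every pair of `E` whose line
meets `Cl c` is steep.
-/

set_option autoImplicit false

namespace H52.Dir

open Finset

section G5aux

variable {n : ℕ}

/-- indicator -/
noncomputable def G5ind (A : Finset (Fin n)) (i : Fin n) : ℝ := if i ∈ A then 1 else 0

theorem G5ind_nonneg (A : Finset (Fin n)) (i : Fin n) : 0 ≤ G5ind A i := by
  unfold G5ind
  split_ifs <;> norm_num

theorem G5ind_ne {A : Finset (Fin n)} {i : Fin n} (h : G5ind A i ≠ 0) : i ∈ A := by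
  by_contra h'
  exact h (if_neg h')

theorem G5sum (A : Finset (Fin n)) (h : Fin n → ℝ) : ∑ i, G5ind A i * h i = ∑ i ∈ A, h i := by
  unfold G5ind
  simp only [ite_mul, one_mul, zero_mul]
  rw [Finset.sum_ite_mem, Finset.univ_inter]

theorem G5ms (A : Finset (Fin n)) : Pl.ms (G5ind A) = (A.card : ℝ) := by
  unfold Pl.ms
  have h := G5sum A (fun _ => 1)
  simp only [mul_one] at h
  rw [h]
  simp

theorem G5wt (P : Pl n) {A : Finset (Fin n)} (hA : A ⊆ P.S) : P.Wt (G5ind A) where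
  nn := G5ind_nonneg A
  le i := by
    unfold G5ind
    split_ifs <;> norm_num
  sup i h := hA (G5ind_ne h)

theorem G5M (P : Pl n) (f g : Fin n → ℝ) : P.M f g = ∑ i, f i * P.St g i := by
  unfold Pl.M Pl.St
  refine Finset.sum_congr rfl fun i _ => ?_
  rw [Finset.mul_sum]
  refine Finset.sum_congr rfl fun j _ => ?_
  split_ifs
  · rfl
  · rw [mul_zero]

theorem G5Mi (P : Pl n) (A : Finset (Fin n)) (g : Fin n → ℝ) :
    P.M (G5ind A) g = ∑ i ∈ A, P.St g i := by
  rw [G5M, G5sum]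

open Classical in
theorem G5St (P : Pl n) (A : Finset (Fin n)) (i : Fin n) :
    P.St (G5ind A) i = ((A.filter (fun q => P.st i q)).card : ℝ) := by
  unfold Pl.St
  have h : ∀ j, (if P.st i j then G5ind A j else 0) = G5ind A j * (if P.st i j then 1 else 0) := by
    intro j
    split_ifs
    · rw [mul_one]
    · rw [mul_zero]
  simp only [h]
  rw [G5sum, Finset.sum_boole]

theorem G5St_nonneg (P : Pl n) (A : Finset (Fin n)) (i : Fin n) : 0 ≤ P.St (G5ind A) i := by
  classical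
  rw [G5St]
  exact Nat.cast_nonneg _

theorem G5St_le (P : Pl n) (A : Finset (Fin n)) (i : Fin n) : P.St (G5ind A) i ≤ n := by
  classical
  rw [G5St]
  have h : (A.filter (fun q => P.st i q)).card ≤ n := by
    have := Finset.card_le_univ (A.filter (fun q => P.st i q))
    rwa [Fintype.card_fin] at this
  exact_mod_cast h

theorem G5St_add (P : Pl n) {A C : Finset (Fin n)} (hA : A ⊆ C) (i : Fin n) :
    P.St (G5ind C) i = P.St (G5ind A) i + P.St (G5ind (C \ A)) i := by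
  classical
  rw [G5St, G5St, G5St, ← Nat.cast_add, ← Finset.card_union_of_disjoint]
  · congr 2
    rw [← Finset.filter_union, Finset.union_sdiff_of_subset hA]
  · exact Finset.disjoint_filter_filter (Finset.disjoint_sdiff)

theorem G5M_symm (P : Pl n) (f g : Fin n → ℝ) : P.M f g = P.M g f := by
  unfold Pl.M
  rw [Finset.sum_comm]
  refine Finset.sum_congr rfl fun i _ => Finset.sum_congr rfl fun j _ => ?_
  by_cases h : P.st j i
  · rw [if_pos h, if_pos (P.st_symm h), mul_comm]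
  · rw [if_neg h, if_neg (fun h' => h (P.st_symm h'))]

theorem G5Er (P : Pl n) (A : Finset (Fin n)) :
    P.Er (G5ind A) (G5ind A) = ∑ i ∈ A, (P.T i - 1 - P.St (G5ind A) i) := by
  unfold Pl.Er
  rw [G5sum]
  refine Finset.sum_congr rfl fun i hi => ?_
  have : G5ind A i = 1 := if_pos hi
  rw [this, one_mul]

theorem G5Er0 (P : Pl n) {A B : Finset (Fin n)} (h : Disjoint A B) :
    P.Er (G5ind A) (G5ind B) = - P.M (G5ind A) (G5ind B) := by
  unfold Pl.Er
  rw [G5sum, G5Mi, ← Finset.sum_neg_distrib]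
  refine Finset.sum_congr rfl fun i hi => ?_
  have : G5ind B i = 0 := if_neg (Finset.disjoint_left.1 h hi)
  rw [this, zero_mul, zero_sub]

/-- the error bound -/
theorem G5bound (P : Pl n) {σ : ℝ} {C Ty A : Finset (Fin n)} (hσ : 0 < σ) (hbig : 1 ≤ σ * n)
    (hty : (((univ : Finset (Fin n)) \ Ty).card : ℝ) ≤ σ * n)
    (h : ∀ i ∈ C, i ∈ Ty → |P.T i - P.St (G5ind C) i| ≤ 270 * σ * n) (hA : A ⊆ C) :
    |P.Er (G5ind A) (G5ind A)| ≤ 272 * σ * (n : ℝ) ^ 2 + P.M (G5ind A) (G5ind (C \ A)) := by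
  classical
  have hn0 : (0 : ℝ) ≤ n := Nat.cast_nonneg _
  rw [G5Er, G5Mi]
  have e1 : ∑ i ∈ A, (P.T i - 1 - P.St (G5ind A) i) =
      ∑ i ∈ A, (P.T i - P.St (G5ind C) i) - (A.card : ℝ) + ∑ i ∈ A, P.St (G5ind (C \ A)) i := by
    have : (A.card : ℝ) = ∑ i ∈ A, (1 : ℝ) := by simp
    rw [this, ← Finset.sum_sub_distrib, ← Finset.sum_add_distrib]
    refine Finset.sum_congr rfl fun i _ => ?_
    rw [G5St_add P hA i]
    ring
  have hAn : (A.card : ℝ) ≤ n := by
    have := Finset.card_le_univ A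
    rw [Fintype.card_fin] at this
    exact_mod_cast this
  have e2 : |∑ i ∈ A, (P.T i - P.St (G5ind C) i)| ≤ 271 * σ * (n : ℝ) ^ 2 := by
    refine (Finset.abs_sum_le_sum_abs _ _).trans ?_
    have e3 : ∀ i ∈ A, |P.T i - P.St (G5ind C) i| ≤
        270 * σ * n + (if i ∈ univ \ Ty then (n : ℝ) else 0) := by
      intro i hi
      by_cases hiT : i ∈ Ty
      · rw [if_neg (by simp [hiT]), add_zero]
        exact h i (hA hi) hiT
      · rw [if_pos (by simp [hiT])]
        have t1 := P.T_le i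
        have t2 : 0 ≤ P.T i := by
          unfold Pl.T
          exact Nat.cast_nonneg _
        have t3 := G5St_le P C i
        have t4 := G5St_nonneg P C i
        have t5 : 0 ≤ 270 * σ * n := by positivity
        rw [abs_le]
        constructor <;> linarith
    refine (Finset.sum_le_sum e3).trans ?_
    rw [Finset.sum_add_distrib, Finset.sum_const, nsmul_eq_mul]
    have e4 : ∑ i ∈ A, (if i ∈ univ \ Ty then (n : ℝ) else 0) ≤ σ * n * n := by
      calc ∑ i ∈ A, (if i ∈ univ \ Ty then (n : ℝ) else 0)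
          ≤ ∑ i, (if i ∈ univ \ Ty then (n : ℝ) else 0) := by
            refine Finset.sum_le_sum_of_subset_of_nonneg (Finset.subset_univ _) fun i _ _ => ?_
            split_ifs
            · exact hn0
            · exact le_refl _
        _ = (((univ : Finset (Fin n)) \ Ty).card : ℝ) * n := by
            rw [Finset.sum_ite_mem, Finset.univ_inter, Finset.sum_const, nsmul_eq_mul]
        _ ≤ σ * n * n := mul_le_mul_of_nonneg_right hty hn0
    have e5 : (A.card : ℝ) * (270 * σ * n) ≤ n * (270 * σ * n) :=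
      mul_le_mul_of_nonneg_right hAn (by positivity)
    nlinarith
  have e6 : (A.card : ℝ) ≤ σ * (n : ℝ) ^ 2 := by
    have : (n : ℝ) * 1 ≤ n * (σ * n) := mul_le_mul_of_nonneg_left hbig hn0
    nlinarith
  have e7 : 0 ≤ ∑ i ∈ A, P.St (G5ind (C \ A)) i :=
    Finset.sum_nonneg fun i _ => G5St_nonneg P _ i
  have e8 : (0 : ℝ) ≤ A.card := Nat.cast_nonneg _
  rw [e1]
  have e9 := abs_le.1 e2
  rw [abs_le]
  constructor <;> nlinarith

/-- small quotients in a cluster -/
theorem G5cx {x : V} (hx : dot x x = 1) {ω : ℝ} (h1 : ω ≤ 1 / 10000) {a b : Fin 3}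
    (hab : a ≠ b) (hxa : 1 - ω ≤ (x a) ^ 2) : x a ≠ 0 ∧ |x b / x a| ≤ 1 / 50 := by
  have hs : (x b) ^ 2 ≤ 1 - (x a) ^ 2 := by
    unfold dot at hx
    fin_cases a <;> fin_cases b <;> simp at hab ⊢ <;> nlinarith [sq_nonneg (x 0), sq_nonneg (x 1), sq_nonneg (x 2)]
  have ha : x a ≠ 0 := by
    intro h
    rw [h] at hxa
    norm_num at hxa
    linarith
  refine ⟨ha, ?_⟩
  rw [abs_div, div_le_iff₀ (abs_pos.2 ha)]
  refine abs_le_of_sq_le_sq' ?_ (by positivity) |> abs_le.2
  rw [mul_pow, sq_abs]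
  nlinarith

end G5aux

open Classical in
theorem g5 (e κ : ℝ) (he : 0 < e) (hκ : 0 < κ) : ∃ τ σ₀ : ℝ, 0 < τ ∧ 0 < σ₀ ∧
    ∀ (n : ℕ) (u : Fin n → V) (ω σ : ℝ) (Ty : Finset (Fin n)), σ ≤ σ₀ → Fr u ω σ Ty →
    ∀ b c : Fin 3, b ≠ 0 → c ≠ 0 → b ≠ c → ∀ t : ℝ,
      e * n ≤ (((Cl u ω 0).filter (fun q => cx u b q < t)).card : ℝ) →
      e * n ≤ (((Cl u ω 0).filter (fun q => t ≤ cx u b q)).card : ℝ) →
      (((Cl u ω 0 ×ˢ Cl u ω 0).filter (fun z => cx u b z.1 < t ∧ t ≤ cx u b z.2 ∧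
        ∃ r ∈ Cl u ω c, det (u z.1) (u z.2) (u r) = 0)).card : ℝ) ≤ τ * (n : ℝ) ^ 2 →
      (((Cl u ω 0 ×ˢ Cl u ω 0).filter (fun z => z.1 ≠ z.2 ∧ cx u b z.1 < t ∧ cx u b z.2 < t ∧
        ∃ r ∈ Cl u ω c, det (u z.1) (u z.2) (u r) = 0)).card : ℝ) ≤ κ * (n : ℝ) ^ 2 := by
  obtain ⟨σ₁, hσ₁, hord⟩ := ord (min e (1 / 4)) κ (by positivity) hκ
  refine ⟨σ₁ / 2, σ₁ / 1000, by positivity, by positivity, ?_⟩
  intro n u ω σ Ty hσ₀ H b c hb hc hbc t hE hF hτ
  have hω0 := H.ω0
  have hσ0 : 0 < σ := lt_of_lt_of_le H.ω0 H.ωσ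
  have hω1 : ω ≤ 1 / 10000 := H.ωσ.trans H.σ1
  have hnn : (0 : ℝ) ≤ n := Nat.cast_nonneg _
  have hn : 0 < n := by
    by_contra h
    have h0 : n = 0 := by omega
    have := H.big
    rw [h0] at this
    norm_num at this
  have hnr : (0 : ℝ) < n := by exact_mod_cast hn
  set w : Fin n → V := fun i => rot (fr b c) (u i) with hw
  have hor := orth_fr hb hc hbc
  have hcf : Cf w := cf_rot hor H.cf
  have hLs : Ls w = Ls u := Ls_rot hor u
  have hs2 : (0 : ℝ) < Real.sqrt 2 := Real.sqrt_pos.2 (by norm_num)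
  have hw0 : ∀ i, w i 0 = (u i 0 + u i b) / Real.sqrt 2 := fun i => (fr_coord hb hc hbc (u i)).1
  have hw1 : ∀ i, w i 1 = (u i b - u i 0) / Real.sqrt 2 := fun i => (fr_coord hb hc hbc (u i)).2.1
  -- the first coordinate
  have hX0 : ∀ i ∈ Cl u ω 0, w i 0 ≠ 0 ∧ w i 1 / w i 0 = (cx u b i - 1) / (cx u b i + 1) ∧
      |cx u b i| ≤ 1 / 50 := by
    intro i hi
    obtain ⟨h1, h2⟩ := G5cx (H.cf.unit i) hω1 (Ne.symm hb) (mem_Cl.1 hi)
    have h3 : |cx u b i| ≤ 1 / 50 := h2
    have h4 := abs_le.1 h3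
    have h5 : u i b = cx u b i * u i 0 := by
      unfold cx
      field_simp
    have h6 : cx u b i + 1 ≠ 0 := by linarith
    refine ⟨?_, ?_, h3⟩
    · rw [hw0, h5]
      have : (u i 0 + cx u b i * u i 0) = u i 0 * (cx u b i + 1) := by ring
      rw [this]
      exact div_ne_zero (mul_ne_zero h1 h6) hs2.ne'
    · rw [hw0, hw1, h5]
      have e1 : (u i 0 + cx u b i * u i 0) = u i 0 * (cx u b i + 1) := by ring
      have e2 : (cx u b i * u i 0 - u i 0) = u i 0 * (cx u b i - 1) := by ring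
      rw [e1, e2, div_div_div_cancel_right₀ hs2.ne', mul_div_mul_left _ _ h1]
  have hXb : ∀ i ∈ Cl u ω b, w i 0 ≠ 0 ∧ 0 < w i 1 / w i 0 := by
    intro i hi
    obtain ⟨h1, h2⟩ := G5cx (H.cf.unit i) hω1 hb (mem_Cl.1 hi)
    set x := u i 0 / u i b with hx
    have h4 := abs_le.1 h2
    have h5 : u i 0 = x * u i b := by
      rw [hx]
      field_simp
    have h6 : 0 < 1 + x := by linarith
    have h7 : 0 < 1 - x := by linarith
    constructor
    · rw [hw0, h5]
      have : (x * u i b + u i b) = u i b * (1 + x) := by ring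
      rw [this]
      exact div_ne_zero (mul_ne_zero h1 h6.ne') hs2.ne'
    · rw [hw0, hw1, h5]
      have e1 : (x * u i b + u i b) = u i b * (1 + x) := by ring
      have e2 : (u i b - x * u i b) = u i b * (1 - x) := by ring
      rw [e1, e2, div_div_div_cancel_right₀ hs2.ne', mul_div_mul_left _ _ h1]
      exact div_pos h7 h6
  obtain ⟨P, hPS, hPX, hPY, hPη, hPD⟩ := toPl hcf (η := 1) one_pos (Cl u ω 0 ∪ Cl u ω b) (by
    intro i hi
    rcases Finset.mem_union.1 hi with h | h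
    · exact (hX0 i h).1
    · exact (hXb i h).1)
  have hS0 : Cl u ω 0 ⊆ P.S := by rw [hPS]; exact Finset.subset_union_left
  have hSb : Cl u ω b ⊆ P.S := by rw [hPS]; exact Finset.subset_union_right
  have hne : ∀ i ∈ P.S, w i 0 ≠ 0 := by
    intro i hi
    rw [hPS] at hi
    rcases Finset.mem_union.1 hi with h | h
    · exact (hX0 i h).1
    · exact (hXb i h).1
  have hnr' : ∀ i ∈ P.S, ∀ j ∈ P.S, (P.nr i j ↔ nr 1 (w i) (w j)) := fun i hi j hj =>
    pl_nr hPX hPY hPη (hne i hi) (hne j hj)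
  -- near pairs between the clusters
  have hnear : ∀ i ∈ Cl u ω 0, ∀ j ∈ Cl u ω b, ¬ P.st i j := by
    intro i hi j hj hst
    have hij : i ≠ j := hst.1
    apply hst.2
    rw [hnr' i (hS0 hi) j (hSb hj)]
    have hl : ln u i j ∈ Ls u := ln_mem u hij
    have h1 := mem_dl H hb hc hbc hl (ln_left u i j) (ln_right u i j) hi hj
    have h2 := (Finset.mem_filter.1 h1).2
    exact h2 i (ln_left u i j) j (ln_right u i j) hij
  -- steep pairs of lines that meet the third cluster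
  have hsteep : ∀ i, (i ∈ Cl u ω 0 ∨ i ∈ Cl u ω b) → ∀ j ∈ P.S, i ≠ j → ∀ r ∈ Cl u ω c,
      det (u i) (u j) (u r) = 0 → P.st i j := by
    intro i hi j hj hij r hr hdet
    refine ⟨hij, fun hn' => ?_⟩
    have hiS : i ∈ P.S := by
      rcases hi with h | h
      · exact hS0 h
      · exact hSb h
    rw [hnr' i hiS j hj] at hn'
    have hl : ln u i j ∈ Ls u := ln_mem u hij
    have h1 := not_mem_dl H hb hc hbc hl (ln_left u i j) (q := r)
      (by unfold ln; exact Finset.mem_filter.2 ⟨Finset.mem_univ _, hdet⟩) hi hr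
    apply h1
    exact nr_line hcf (by rw [hLs]; exact hl) (ln_left u i j) (ln_right u i j) hij hn'
  -- the error in a cluster
  have hcl : ∀ a : Fin 3, (a = 0 ∨ a = b) → ∀ i ∈ Cl u ω a, i ∈ Ty →
      |P.T i - P.St (G5ind (Cl u ω a)) i| ≤ 270 * σ * n ∧
      (((Cl u ω a).filter (fun q => P.st i q ∧ q ∉ pn u ω a c i)).card : ℝ) ≤ 70 * σ * n := by
    intro a ha i hi hiT
    have hSa : Cl u ω a ⊆ P.S := by
      rcases ha with rfl | rfl
      · exact hS0
      · exact hSb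
    have h1 := tcount H hb hc hbc ha hi hiT
    obtain ⟨h2, h3⟩ := scount H hb hc hbc ha hi hiT
    have hT : P.T i = (((Dl (fun i => rot (fr b c) (u i)) 1).filter (fun l => i ∈ l)).card : ℝ) := by
      unfold Pl.T
      rw [hPD]
    have hsub : (Cl u ω a).filter (fun q => P.st i q ∧ q ∉ pn u ω a c i) ⊆
        (Cl u ω a).filter (fun q => q ≠ i ∧ q ∉ pn u ω a c i ∧
          ¬ nr 1 (rot (fr b c) (u i)) (rot (fr b c) (u q))) := by
      intro q hq
      rw [Finset.mem_filter] at hq ⊢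
      refine ⟨hq.1, hq.2.1.1.symm, hq.2.2, ?_⟩
      have := hq.2.1.2
      rwa [hnr' i (hSa hi) q (hSa hq.1)] at this
    have h4 : (((Cl u ω a).filter (fun q => P.st i q ∧ q ∉ pn u ω a c i)).card : ℝ) ≤
        70 * σ * n := by
      refine le_trans ?_ h2
      exact_mod_cast Finset.card_le_card hsub
    refine ⟨?_, h4⟩
    have h5 : P.St (G5ind (Cl u ω a)) i = ((pn u ω a c i).card : ℝ) +
        (((Cl u ω a).filter (fun q => P.st i q ∧ q ∉ pn u ω a c i)).card : ℝ) := by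
      rw [G5St, ← Nat.cast_add, ← Finset.card_union_of_disjoint]
      · congr 2
        ext q
        rw [Finset.mem_union, Finset.mem_filter, Finset.mem_filter]
        constructor
        · rintro ⟨g1, g2⟩
          by_cases g3 : q ∈ pn u ω a c i
          · exact Or.inl g3
          · exact Or.inr ⟨g1, g2, g3⟩
        · rintro (g | g)
          · have g1 := mem_pn.1 g
            refine ⟨g1.1, g1.2.1.symm, ?_⟩
            rw [hnr' i (hSa hi) q (hSa g1.1)]
            exact h3 q g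
          · exact ⟨g.1, g.2.1⟩
      · rw [Finset.disjoint_left]
        intro q g1 g2
        exact (Finset.mem_filter.1 g2).2.2 g1
    rw [hT, h5]
    have h6 := abs_le.1 h1
    have h7 : (0 : ℝ) ≤ (((Cl u ω a).filter (fun q => P.st i q ∧ q ∉ pn u ω a c i)).card : ℝ) :=
      Nat.cast_nonneg _
    rw [abs_le]
    constructor <;> linarith
  -- the three sets
  set E := (Cl u ω 0).filter (fun q => cx u b q < t) with hEdef
  set F := (Cl u ω 0).filter (fun q => t ≤ cx u b q) with hFdef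
  have hE0 : E ⊆ Cl u ω 0 := Finset.filter_subset _ _
  have hF0 : F ⊆ Cl u ω 0 := Finset.filter_subset _ _
  have hCE : Cl u ω 0 \ E = F := by
    ext q
    rw [Finset.mem_sdiff, hEdef, hFdef, Finset.mem_filter, Finset.mem_filter]
    constructor
    · rintro ⟨g1, g2⟩
      exact ⟨g1, not_lt.1 fun h => g2 ⟨g1, h⟩⟩
    · rintro ⟨g1, g2⟩
      exact ⟨g1, fun h => absurd h.2 (not_lt.2 g2)⟩
  have hCF : Cl u ω 0 \ F = E := by
    ext q
    rw [Finset.mem_sdiff, hEdef, hFdef, Finset.mem_filter, Finset.mem_filter]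
    constructor
    · rintro ⟨g1, g2⟩
      exact ⟨g1, not_le.1 fun h => g2 ⟨g1, h⟩⟩
    · rintro ⟨g1, g2⟩
      exact ⟨g1, fun h => absurd h.2 (not_le.2 g2)⟩
  have hdisj : Disjoint (Cl u ω 0) (Cl u ω b) := cl_disj H (Ne.symm hb)
  -- steep masses
  have hMb : ∀ A : Finset (Fin n), A ⊆ Cl u ω 0 → P.M (G5ind A) (G5ind (Cl u ω b)) = 0 := by
    intro A hA
    rw [G5Mi]
    refine Finset.sum_eq_zero fun i hi => ?_
    rw [G5St, Nat.cast_eq_zero, Finset.card_eq_zero, Finset.filter_eq_empty_iff]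
    exact fun j hj => hnear i (hA hi) j hj
  have hM12 : P.M (G5ind E) (G5ind F) ≤ (σ₁ / 2 + 71 * σ) * (n : ℝ) ^ 2 := by
    rw [G5Mi]
    have h1 : ∀ i ∈ E, P.St (G5ind F) i ≤
        ((F.filter (fun j => ∃ r ∈ Cl u ω c, det (u i) (u j) (u r) = 0)).card : ℝ) +
        (70 * σ * n + (if i ∈ univ \ Ty then (n : ℝ) else 0)) := by
      intro i hi
      by_cases hiT : i ∈ Ty
      · rw [if_neg (by simp [hiT]), add_zero]
        refine le_trans ?_ (add_le_add (le_refl _) (hcl 0 (Or.inl rfl) i (hE0 hi) hiT).2)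
        rw [G5St, ← Nat.cast_add]
        refine Nat.cast_le.2 ((Finset.card_le_card ?_).trans (Finset.card_union_le _ _))
        intro q hq
        have hq' := Finset.mem_filter.1 hq
        by_cases g : q ∈ pn u ω 0 c i
        · exact Finset.mem_union.2 (Or.inl (Finset.mem_filter.2 ⟨hq'.1, (mem_pn.1 g).2.2⟩))
        · exact Finset.mem_union.2 (Or.inr (Finset.mem_filter.2 ⟨hF0 hq'.1, hq'.2, g⟩))
      · rw [if_pos (by simp [hiT])]
        have t1 := G5St_le P F i
        have t2 : (0 : ℝ) ≤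
          ((F.filter (fun j => ∃ r ∈ Cl u ω c, det (u i) (u j) (u r) = 0)).card : ℝ) :=
          Nat.cast_nonneg _
        have t3 : 0 ≤ 70 * σ * n := by positivity
        linarith
    refine (Finset.sum_le_sum h1).trans ?_
    rw [Finset.sum_add_distrib, Finset.sum_add_distrib]
    have h2 : ∑ i ∈ E, ((F.filter (fun j => ∃ r ∈ Cl u ω c, det (u i) (u j) (u r) = 0)).card : ℝ) ≤
        σ₁ / 2 * (n : ℝ) ^ 2 := by
      refine le_trans (le_of_eq ?_) hτ
      rw [← Nat.cast_sum, ← Finset.card_sigma]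
      congr 1
      refine Finset.card_bij' (fun z _ => (z.1, z.2)) (fun z _ => ⟨z.1, z.2⟩) ?_ ?_ ?_ ?_
      · rintro ⟨i, j⟩ hz
        have hz' := Finset.mem_sigma.1 hz
        have g1 := Finset.mem_filter.1 hz'.1
        have g0 := Finset.mem_filter.1 hz'.2
        have g2 := Finset.mem_filter.1 g0.1
        rw [Finset.mem_filter, Finset.mem_product]
        exact ⟨⟨g1.1, g2.1⟩, g1.2, g2.2, g0.2⟩
      · rintro ⟨i, j⟩ hz
        rw [Finset.mem_filter, Finset.mem_product] at hz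
        simp only at hz
        exact Finset.mem_sigma.2 ⟨Finset.mem_filter.2 ⟨hz.1.1, hz.2.1⟩,
          Finset.mem_filter.2 ⟨Finset.mem_filter.2 ⟨hz.1.2, hz.2.2.1⟩, hz.2.2.2⟩⟩
      · intro z _
        rfl
      · intro z _
        rfl
    have hEn : (E.card : ℝ) ≤ n := by
      have := Finset.card_le_univ E
      rw [Fintype.card_fin] at this
      exact_mod_cast this
    have h3 : ∑ i ∈ E, 70 * σ * n ≤ 70 * σ * (n : ℝ) ^ 2 := by
      rw [Finset.sum_const, nsmul_eq_mul]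
      have : (E.card : ℝ) * (70 * σ * n) ≤ n * (70 * σ * n) :=
        mul_le_mul_of_nonneg_right hEn (by positivity)
      nlinarith
    have h4 : ∑ i ∈ E, (if i ∈ univ \ Ty then (n : ℝ) else 0) ≤ σ * (n : ℝ) ^ 2 := by
      calc ∑ i ∈ E, (if i ∈ univ \ Ty then (n : ℝ) else 0)
          ≤ ∑ i, (if i ∈ univ \ Ty then (n : ℝ) else 0) := by
            refine Finset.sum_le_sum_of_subset_of_nonneg (Finset.subset_univ _) fun i _ _ => ?_
            split_ifs
            · exact hnn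
            · exact le_refl _
        _ = (((univ : Finset (Fin n)) \ Ty).card : ℝ) * n := by
            rw [Finset.sum_ite_mem, Finset.univ_inter, Finset.sum_const, nsmul_eq_mul]
        _ ≤ σ * n * n := mul_le_mul_of_nonneg_right H.ty hnn
        _ = σ * (n : ℝ) ^ 2 := by ring
    linarith
  have hn2 : (0 : ℝ) < (n : ℝ) ^ 2 := by positivity
  have hb1 : (σ₁ / 2 + 71 * σ) * (n : ℝ) ^ 2 + 272 * σ * (n : ℝ) ^ 2 ≤ σ₁ * (n : ℝ) ^ 2 := by
    have : (σ₁ / 2 + 71 * σ) + 272 * σ ≤ σ₁ := by linarith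
    have := mul_le_mul_of_nonneg_right this hn2.le
    linarith
  have hb2 : 272 * σ * (n : ℝ) ^ 2 ≤ σ₁ * (n : ℝ) ^ 2 :=
    mul_le_mul_of_nonneg_right (by linarith) hn2.le
  have hb3 : (σ₁ / 2 + 71 * σ) * (n : ℝ) ^ 2 ≤ σ₁ * (n : ℝ) ^ 2 :=
    mul_le_mul_of_nonneg_right (by linarith) hn2.le
  have hEr1 := G5bound P hσ0 H.big H.ty (fun i hi hiT => (hcl 0 (Or.inl rfl) i hi hiT).1) hE0
  rw [hCE] at hEr1
  have hEr2 := G5bound P hσ0 H.big H.ty (fun i hi hiT => (hcl 0 (Or.inl rfl) i hi hiT).1) hF0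
  rw [hCF, G5M_symm] at hEr2
  have hEr3 := G5bound P hσ0 H.big H.ty (fun i hi hiT => (hcl b (Or.inr rfl) i hi hiT).1)
    (Finset.Subset.refl (Cl u ω b))
  rw [Finset.sdiff_self] at hEr3
  have hM0 : P.M (G5ind (Cl u ω b)) (G5ind (∅ : Finset (Fin n))) = 0 := by
    rw [G5M_symm, G5Mi, Finset.sum_empty]
  rw [hM0, add_zero] at hEr3
  have hres := hord n P hn (G5ind E) (G5ind F) (G5ind (Cl u ω b)) (G5wt P (hE0.trans hS0))
    (G5wt P (hF0.trans hS0)) (G5wt P hSb)
    (by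
      intro i j hi hj
      have hi' := Finset.mem_filter.1 (G5ind_ne hi)
      have hj' := Finset.mem_filter.1 (G5ind_ne hj)
      rw [hPX]
      simp only
      rw [(hX0 i hi'.1).2.1, (hX0 j hj'.1).2.1]
      have g1 := abs_le.1 (hX0 i hi'.1).2.2
      have g2 := abs_le.1 (hX0 j hj'.1).2.2
      have g3 : cx u b i < cx u b j := lt_of_lt_of_le hi'.2 hj'.2
      rw [div_lt_div_iff₀ (by linarith) (by linarith)]
      nlinarith)
    (by
      intro i j hi hj
      have hi' := hF0 (G5ind_ne hi)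
      have hj' := G5ind_ne hj
      rw [hPX]
      simp only
      refine lt_trans ?_ (hXb j hj').2
      rw [(hX0 i hi').2.1]
      have g1 := abs_le.1 (hX0 i hi').2.2
      exact div_neg_of_neg_of_pos (by linarith) (by linarith))
    (by
      rw [G5ms]
      exact (mul_le_mul_of_nonneg_right (min_le_left _ _) hnn).trans hE)
    (by
      rw [G5ms]
      exact (mul_le_mul_of_nonneg_right (min_le_left _ _) hnn).trans hF)
    (by
      rw [G5ms]
      refine le_trans ?_ (H.sz b)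
      refine mul_le_mul_of_nonneg_right ((min_le_right _ _).trans ?_) hnn
      have := H.σ1
      linarith)
    (hM12.trans hb3)
    (by rw [hMb F hF0]; positivity)
    (by linarith)
    (by
      rw [G5Er0 P (Finset.disjoint_of_subset_left hE0 hdisj), hMb E hE0, neg_zero, abs_zero]
      positivity)
    (hEr3.trans hb2)
    (by linarith)
    (by
      rw [G5Er0 P (Finset.disjoint_of_subset_left hF0 hdisj), hMb F hF0, neg_zero, abs_zero]
      positivity)
  refine le_trans ?_ hres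
  rw [G5Mi]
  have h8 : ∀ i, P.St (G5ind E) i = ((E.filter (fun q => P.st i q)).card : ℝ) := fun i => G5St P E i
  simp only [h8]
  rw [← Nat.cast_sum, ← Finset.card_sigma]
  refine Nat.cast_le.2 ?_
  refine Finset.card_le_card_of_injOn (fun z => (⟨z.1, z.2⟩ : Σ _ : Fin n, Fin n)) ?_ ?_
  · rintro ⟨i, j⟩ hz
    rw [Finset.mem_coe, Finset.mem_filter, Finset.mem_product] at hz
    obtain ⟨⟨g1, g2⟩, g3, g4, g5, r, hr, hdet⟩ := hz
    simp only at g1 g2 g3 g4 g5 hdet
    exact Finset.mem_coe.2 (Finset.mem_sigma.2 ⟨Finset.mem_filter.2 ⟨g1, g4⟩,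
      Finset.mem_filter.2 ⟨Finset.mem_filter.2 ⟨g2, g5⟩,
        hsteep i (Or.inl g1) j (hS0 g2) g3 r hr hdet⟩⟩)
  · rintro ⟨i, j⟩ _ ⟨i', j'⟩ _ h
    simp only [Sigma.mk.injEq, heq_eq_eq] at h
    exact Prod.ext h.1 h.2

end H52.Dir
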