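import Pool.Agent.H52.Dir.Bas

/-!
# Module Rot (120 lines): invariance under orthogonal maps

PROOF. For an orthonormal frame `g` the matrix with rows `g i` is orthogonal, so
`dot (rot g x) (rot g y) = dot x y` (from `Orth g`: the matrix `G` with `G i j = g i j` satisfies
`G * Gᵀ = 1`, hence `Gᵀ * G = 1`, `mul_eq_one_comm`; so `Σ_i g i a * g i b = δ_ab`), and
`det (rot g x) (rot g y) (rot g z) = det (G) * det x y z` with `det(G)² = 1`.
`crs x y ≠ 0` iff `x, y` independent; e.g. `dot (crs x y) (crs x y) = dot x x * dot y y - (dot x y)²`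
is invariant, and `crs x y = 0` iff it vanishes.
Then `ln`, `Ls`, `thr`, `sq`, `s` do not change, which gives the other statements. For `iso` of
`good_rot`: `y` is `rot g y'` with `y' = Σ_j y j • g j` (`dot (g i) y' = y i`), so
`dot (rot g (u i)) y = dot (u i) y'`.
-/

set_option autoImplicit false

namespace H52.Dir

open Finset

variable {n : ℕ}

private theorem Rot_dual {g : Fin 3 → V} (hg : Orth g) (a b : Fin 3) :
    g 0 a * g 0 b + g 1 a * g 1 b + g 2 a * g 2 b = if a = b then 1 else 0 := by
  have h1 : (Matrix.of g) * (Matrix.of g).transpose = 1 := by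
    ext i j
    rw [Matrix.mul_apply, Fin.sum_univ_three, Matrix.one_apply]
    exact hg i j
  have h2 : (Matrix.of g).transpose * (Matrix.of g) = 1 := mul_eq_one_comm.1 h1
  have h3 := congrFun (congrFun h2 a) b
  rw [Matrix.mul_apply, Fin.sum_univ_three, Matrix.one_apply] at h3
  exact h3

theorem dot_rot {g : Fin 3 → V} (hg : Orth g) (x y : V) : dot (rot g x) (rot g y) = dot x y := by
  have h00 := Rot_dual hg 0 0
  have h01 := Rot_dual hg 0 1
  have h02 := Rot_dual hg 0 2
  have h11 := Rot_dual hg 1 1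
  have h12 := Rot_dual hg 1 2
  have h22 := Rot_dual hg 2 2
  rw [if_pos rfl] at h00 h11 h22
  rw [if_neg (by decide)] at h01 h02 h12
  simp only [dot, rot]
  linear_combination (x 0 * y 0) * h00 + (x 1 * y 1) * h11 + (x 2 * y 2) * h22 +
    (x 0 * y 1 + x 1 * y 0) * h01 + (x 0 * y 2 + x 2 * y 0) * h02 + (x 1 * y 2 + x 2 * y 1) * h12

private theorem Rot_gram (a b c : V) : (det a b c) ^ 2 =
    dot a a * (dot b b * dot c c - (dot b c) ^ 2) - dot a b * (dot a b * dot c c - dot b c * dot a c) +
      dot a c * (dot a b * dot b c - dot b b * dot a c) := by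
  rw [det_eq]
  simp only [dot]
  ring

theorem det_rot {g : Fin 3 → V} (hg : Orth g) (x y z : V) :
    (det (rot g x) (rot g y) (rot g z)) ^ 2 = (det x y z) ^ 2 := by
  rw [Rot_gram, Rot_gram]
  simp only [dot_rot hg]

/-- every vector is `rot g` of some vector -/
theorem rot_surj {g : Fin 3 → V} (hg : Orth g) (y : V) : ∃ x, rot g x = y := by
  refine ⟨fun j => y 0 * g 0 j + y 1 * g 1 j + y 2 * g 2 j, ?_⟩
  funext i
  have h : rot g (fun j => y 0 * g 0 j + y 1 * g 1 j + y 2 * g 2 j) i =
      y 0 * dot (g i) (g 0) + y 1 * dot (g i) (g 1) + y 2 * dot (g i) (g 2) := by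
    simp only [rot, dot]
    ring
  rw [h, hg i 0, hg i 1, hg i 2]
  fin_cases i <;> simp

private theorem Rot_ln {g : Fin 3 → V} (hg : Orth g) (u : Fin n → V) (i j : Fin n) :
    ln (fun i => rot g (u i)) i j = ln u i j := by
  ext k
  rw [mem_ln, mem_ln]
  have h := det_rot hg (u i) (u j) (u k)
  constructor
  · intro h1
    rw [h1] at h
    exact pow_eq_zero_iff (two_ne_zero) |>.1 (by rw [← h]; ring)
  · intro h1
    rw [h1] at h
    exact pow_eq_zero_iff (two_ne_zero) |>.1 (by rw [h]; ring)

theorem Ls_rot {g : Fin 3 → V} (hg : Orth g) (u : Fin n → V) :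
    Ls (fun i => rot g (u i)) = Ls u := by
  unfold Ls
  congr 1
  funext q
  exact Rot_ln hg u q.1 q.2

theorem thr_rot {g : Fin 3 → V} (hg : Orth g) (u : Fin n → V) (i : Fin n) :
    thr (fun i => rot g (u i)) i = thr u i := by
  unfold thr
  rw [Ls_rot hg]

theorem s_rot {g : Fin 3 → V} (hg : Orth g) (u : Fin n → V) (l : Finset (Fin n)) :
    s (fun i => rot g (u i)) l = s u l := by
  unfold s sq
  simp only [dot_rot hg]

private theorem Rot_lagrange (x y : V) :
    dot (crs x y) (crs x y) = dot x x * dot y y - (dot x y) ^ 2 := by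
  simp only [dot, crs, Matrix.cons_val_zero, Matrix.cons_val_one, Matrix.cons_val]
  ring

private theorem Rot_zero {x : V} (h : dot x x = 0) : x = 0 := by
  have h0 : x 0 * x 0 + x 1 * x 1 + x 2 * x 2 = 0 := h
  have a0 : x 0 = 0 := by nlinarith [mul_self_nonneg (x 0), mul_self_nonneg (x 1), mul_self_nonneg (x 2)]
  have a1 : x 1 = 0 := by nlinarith [mul_self_nonneg (x 0), mul_self_nonneg (x 1), mul_self_nonneg (x 2)]
  have a2 : x 2 = 0 := by nlinarith [mul_self_nonneg (x 0), mul_self_nonneg (x 1), mul_self_nonneg (x 2)]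
  funext i
  fin_cases i
  · exact a0
  · exact a1
  · exact a2

theorem cf_rot {g : Fin 3 → V} (hg : Orth g) {u : Fin n → V} (h : Cf u) :
    Cf (fun i => rot g (u i)) := by
  refine ⟨fun i => ?_, fun i j hij h0 => ?_, fun i j hij => ?_⟩
  · rw [dot_rot hg]
    exact h.unit i
  · refine h.ind i j hij (Rot_zero ?_)
    have h1 := Rot_lagrange (rot g (u i)) (rot g (u j))
    rw [h0, dot_rot hg, dot_rot hg, dot_rot hg, ← Rot_lagrange] at h1
    rw [← h1]
    simp [dot]
  · obtain ⟨k, hk⟩ := h.non i j hij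
    refine ⟨k, fun h0 => hk ?_⟩
    have h1 := det_rot hg (u i) (u j) (u k)
    rw [h0] at h1
    exact pow_eq_zero_iff (two_ne_zero) |>.1 (by rw [← h1]; ring)

theorem good_rot {g : Fin 3 → V} (hg : Orth g) {u : Fin n → V} {ε : ℝ} (h : Good u ε) :
    Good (fun i => rot g (u i)) ε := by
  refine ⟨cf_rot hg h.toCf, fun y hy => ?_, fun i => ?_, h.big⟩
  · obtain ⟨x, rfl⟩ := rot_surj hg y
    rw [dot_rot hg] at hy
    simp only [dot_rot hg]
    exact h.iso x hy
  · rw [thr_rot hg]
    exact h.T i

theorem typ_rot {g : Fin 3 → V} (hg : Orth g) {u : Fin n → V} {ε : ℝ} {i : Fin n} :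
    Typ (fun i => rot g (u i)) ε i ↔ Typ u ε i := by
  unfold Typ
  rw [thr_rot hg]
  simp only [s_rot hg]

/-- a unit vector and a unit vector orthogonal to it are part of a frame -/
theorem orth_ext {a b : V} (ha : dot a a = 1) (hb : dot b b = 1) (hab : dot a b = 0) :
    Orth ![a, b, crs a b] := by
  have hba : dot b a = 0 := by
    rw [← hab]
    simp only [dot]
    ring
  have hac : dot a (crs a b) = 0 := by
    simp only [dot, crs, Matrix.cons_val_zero, Matrix.cons_val_one, Matrix.cons_val]
    ring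
  have hca : dot (crs a b) a = 0 := by
    simp only [dot, crs, Matrix.cons_val_zero, Matrix.cons_val_one, Matrix.cons_val]
    ring
  have hbc : dot b (crs a b) = 0 := by
    simp only [dot, crs, Matrix.cons_val_zero, Matrix.cons_val_one, Matrix.cons_val]
    ring
  have hcb : dot (crs a b) b = 0 := by
    simp only [dot, crs, Matrix.cons_val_zero, Matrix.cons_val_one, Matrix.cons_val]
    ring
  have hcc : dot (crs a b) (crs a b) = 1 := by
    rw [Rot_lagrange, ha, hb, hab]
    ring
  intro i j
  fin_cases i <;> fin_cases j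
  · exact ha
  · exact hab
  · exact hac
  · exact hba
  · exact hb
  · exact hbc
  · exact hca
  · exact hcb
  · exact hcc

end H52.Dir
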