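import Pool.Agent.H52.Dir.G1
import Pool.Agent.H52.Dir.Rot

/-!
# Module G5a (130 lines): the chart rotated by 45 degrees

`fr b c` = the frame `((e_0 + e_b)/√2, (e_b - e_0)/√2, e_c)`; `uu = rot (fr b c) ∘ u`.

PROOF. `orth_fr`: all entries. `mem_dl`: let `l ∈ Ls u` contain `p ∈ Cl i`, `q ∈ Cl j`, `i ≠ j`, `k` the third
index, `N = crs (u p) (u q)`: `|N k| ≥ 9/10`, `|N i|, |N j| ≤ 1/40` (`nab`). For `u' = rot (fr b c) u`:
`crs (u' p) (u' q)` has components: index 2: `u' 0 v' 1 - u' 1 v' 0 = ± N c` (up to sign), index 1: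
`u' 2 v' 0 - u' 0 v' 2 = ± (N b - N 0) / √2` (check by expanding; `x² ` identities `(√2)² = 2`). So
`{i, j} = {0, b}`: `k = c`: `|± N c| ≥ 9/10`, `|(N b - N 0)/√2| ≤ 1/20`: near with `η = 1`.
`{i, j} ∋ c`: `k = b` or `k = 0`: `|(N b - N 0)/√2| ≥ (9/10 - 1/40)/√2 > 1/40 ≥ |N c|`: not near. The line has
one pair near, then all (`nr_line` for the configuration `u'`, `cf_rot`, `Ls_rot`), resp. a pair that is
not near.
-/

set_option autoImplicit false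

namespace H52.Dir

open Finset

variable {n : ℕ}

/-- the frame of the rotated chart -/
noncomputable def fr (b c : Fin 3) : Fin 3 → V :=
  ![fun j => ((if j = 0 then 1 else 0) + (if j = b then 1 else 0)) / Real.sqrt 2,
    fun j => ((if j = b then 1 else 0) - (if j = 0 then 1 else 0)) / Real.sqrt 2,
    fun j => if j = c then 1 else 0]

private theorem G5a_bc {b c : Fin 3} (hb : b ≠ 0) (hc : c ≠ 0) (hbc : b ≠ c) :
    (b = 1 ∧ c = 2) ∨ (b = 2 ∧ c = 1) := by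
  revert b c
  decide

private theorem G5a_sqrt : Real.sqrt 2 * Real.sqrt 2 = 2 := Real.mul_self_sqrt (by norm_num)

private theorem G5a_pos : 0 < Real.sqrt 2 := Real.sqrt_pos.2 (by norm_num)

private theorem G5a_one : 1 ≤ Real.sqrt 2 := by
  have h1 := G5a_sqrt
  have h2 := G5a_pos
  nlinarith

private theorem G5a_two : Real.sqrt 2 ≤ 3 / 2 := by
  have h1 := G5a_sqrt
  have h2 := G5a_pos
  nlinarith

theorem orth_fr {b c : Fin 3} (hb : b ≠ 0) (hc : c ≠ 0) (hbc : b ≠ c) : Orth (fr b c) := by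
  have h1 := G5a_sqrt
  have h2 := G5a_pos
  have h3 : (Real.sqrt 2)⁻¹ * (Real.sqrt 2)⁻¹ + (Real.sqrt 2)⁻¹ * (Real.sqrt 2)⁻¹ = 1 := by
    rw [← mul_inv, h1]; norm_num
  rcases G5a_bc hb hc hbc with ⟨rfl, rfl⟩ | ⟨rfl, rfl⟩
  · intro i j
    fin_cases i <;> fin_cases j <;> simp [fr, dot] <;>
      (try simp only [div_eq_mul_inv]) <;> linarith
  · intro i j
    fin_cases i <;> fin_cases j <;> simp [fr, dot] <;>
      (try simp only [div_eq_mul_inv]) <;> linarith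

/-- coordinates in the rotated frame -/
theorem fr_coord {b c : Fin 3} (hb : b ≠ 0) (hc : c ≠ 0) (hbc : b ≠ c) (x : V) :
    rot (fr b c) x 0 = (x 0 + x b) / Real.sqrt 2 ∧ rot (fr b c) x 1 = (x b - x 0) / Real.sqrt 2 ∧
      rot (fr b c) x 2 = x c := by
  have h2 := G5a_pos
  rcases G5a_bc hb hc hbc with ⟨rfl, rfl⟩ | ⟨rfl, rfl⟩
  · refine ⟨?_, ?_, ?_⟩
    · simp [rot, fr, dot]; ring
    · simp [rot, fr, dot]; ring
    · simp [rot, fr, dot]
  · refine ⟨?_, ?_, ?_⟩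
    · simp [rot, fr, dot]; ring
    · simp [rot, fr, dot]; ring
    · simp [rot, fr, dot]

/-- nearness (slope at most 1) in the rotated frame in terms of the normal vector -/
theorem nr_fr {b c : Fin 3} (hb : b ≠ 0) (hc : c ≠ 0) (hbc : b ≠ c) (x y : V) :
    nr 1 (rot (fr b c) x) (rot (fr b c) y) ↔
      crs x y c ≠ 0 ∧ |crs x y b - crs x y 0| / Real.sqrt 2 ≤ |crs x y c| := by
  obtain ⟨x0, x1, x2⟩ := fr_coord hb hc hbc x
  obtain ⟨y0, y1, y2⟩ := fr_coord hb hc hbc y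
  have h1 := G5a_sqrt
  have h2 := G5a_pos
  unfold nr
  rw [x0, x1, x2, y0, y1, y2, one_mul]
  have e1 : (x 0 + x b) / Real.sqrt 2 * ((y b - y 0) / Real.sqrt 2) -
      (x b - x 0) / Real.sqrt 2 * ((y 0 + y b) / Real.sqrt 2) = x 0 * y b - x b * y 0 := by
    rw [div_mul_div_comm, div_mul_div_comm, h1]; ring
  have e2 : x c * ((y 0 + y b) / Real.sqrt 2) - (x 0 + x b) / Real.sqrt 2 * y c =
      (x c * (y 0 + y b) - (x 0 + x b) * y c) / Real.sqrt 2 := by ring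
  rw [e1, e2, abs_div, abs_of_pos h2]
  rcases G5a_bc hb hc hbc with ⟨rfl, rfl⟩ | ⟨rfl, rfl⟩
  · have f1 : x 0 * y 1 - x 1 * y 0 = crs x y 2 := by simp [crs]
    have f2 : x 2 * (y 0 + y 1) - (x 0 + x 1) * y 2 = crs x y 1 - crs x y 0 := by
      simp [crs]; ring
    rw [f1, f2]
  · have f1 : x 0 * y 2 - x 2 * y 0 = -crs x y 1 := by simp [crs]
    have f2 : x 1 * (y 0 + y 2) - (x 0 + x 2) * y 1 = -(crs x y 2 - crs x y 0) := by
      simp [crs]; ring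
    rw [f1, f2, abs_neg, abs_neg, neg_ne_zero]

private theorem G5a_ne {u : Fin n → V} {p q : Fin n} {j : Fin 3}
    (h : 9 / 10 ≤ |crs (u p) (u q) j|) : p ≠ q := by
  rintro rfl
  have h0 : crs (u p) (u p) j = 0 := by
    fin_cases j <;> simp [crs] <;> ring
  rw [h0, abs_zero] at h
  norm_num at h

theorem mem_dl {u : Fin n → V} {ω σ : ℝ} {Ty : Finset (Fin n)} (H : Fr u ω σ Ty) {b c : Fin 3}
    (hb : b ≠ 0) (hc : c ≠ 0) (hbc : b ≠ c) {l : Finset (Fin n)} (hl : l ∈ Ls u) {p q : Fin n}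
    (hp : p ∈ l) (hq : q ∈ l) (hp0 : p ∈ Cl u ω 0) (hqb : q ∈ Cl u ω b) :
    l ∈ Dl (fun i => rot (fr b c) (u i)) 1 := by
  have hω : ω ≤ 1 / 10000 := le_trans H.ωσ H.σ1
  obtain ⟨h1, h2, h3⟩ := nab (H.cf.unit p) (H.cf.unit q) H.ω0.le hω (Ne.symm hb) (Ne.symm hc) hbc
    (mem_Cl.1 hp0) (mem_Cl.1 hqb)
  have hpq := G5a_ne h1
  have ho := orth_fr hb hc hbc
  refine nr_line (u := fun i => rot (fr b c) (u i)) (cf_rot ho H.cf) ?_ hp hq hpq ?_
  · rw [Ls_rot ho]; exact hl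
  · refine (nr_fr hb hc hbc (u p) (u q)).2 ⟨?_, ?_⟩
    · intro h0
      rw [h0, abs_zero] at h1
      norm_num at h1
    · rw [div_le_iff₀ G5a_pos]
      have h4 := abs_sub (crs (u p) (u q) b) (crs (u p) (u q) 0)
      have h5 := G5a_one
      nlinarith

theorem not_mem_dl {u : Fin n → V} {ω σ : ℝ} {Ty : Finset (Fin n)} (H : Fr u ω σ Ty) {b c : Fin 3}
    (hb : b ≠ 0) (hc : c ≠ 0) (hbc : b ≠ c) {l : Finset (Fin n)} (hl : l ∈ Ls u) {p q : Fin n}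
    (hp : p ∈ l) (hq : q ∈ l) (hpa : p ∈ Cl u ω 0 ∨ p ∈ Cl u ω b) (hqc : q ∈ Cl u ω c) :
    l ∉ Dl (fun i => rot (fr b c) (u i)) 1 := by
  have hω : ω ≤ 1 / 10000 := le_trans H.ωσ H.σ1
  have h5 := G5a_two
  have key : p ≠ q ∧ 35 / 40 ≤ |crs (u p) (u q) b - crs (u p) (u q) 0| ∧
      |crs (u p) (u q) c| ≤ 1 / 40 := by
    rcases hpa with hpa | hpa
    · obtain ⟨h1, h2, h3⟩ := nab (H.cf.unit p) (H.cf.unit q) H.ω0.le hω (Ne.symm hc)
        (Ne.symm hb) (Ne.symm hbc) (mem_Cl.1 hpa) (mem_Cl.1 hqc)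
      refine ⟨G5a_ne h1, ?_, h3⟩
      have := abs_sub_abs_le_abs_sub (crs (u p) (u q) b) (crs (u p) (u q) 0)
      linarith
    · obtain ⟨h1, h2, h3⟩ := nab (H.cf.unit p) (H.cf.unit q) H.ω0.le hω hbc
        hb hc (mem_Cl.1 hpa) (mem_Cl.1 hqc)
      refine ⟨G5a_ne h1, ?_, h3⟩
      have := abs_sub_abs_le_abs_sub (crs (u p) (u q) 0) (crs (u p) (u q) b)
      rw [abs_sub_comm] at this
      linarith
  obtain ⟨hpq, h1, h2⟩ := key
  intro hd
  unfold Dl at hd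
  classical
  rw [mem_filter] at hd
  have h3 := hd.2 p hp q hq hpq
  have h4 := ((nr_fr hb hc hbc (u p) (u q)).1 h3).2
  rw [div_le_iff₀ G5a_pos] at h4
  have h6 := G5a_pos
  nlinarith

end H52.Dir
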