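import Pool.Agent.H52.Dir.G5a

/-!
# Module G5b (120 lines): counting in the rotated chart

`tcount`: `p ∈ Ty`, `p ∈ Cl a`, `a ∈ {0, b}`, `a'` the other one. The lines of `Dl` through `p` contain
`lmt a' p` (`mem_dl`), none of `lmt c p`, and the rest is at most `60 σ n` (`g1c`); `g1a`, `g1b`, `cl_le`, `pn_disj`
(`|pn a a' p| + |pn a c p| ≤ |Cl a| ≤ (1/3 + 2σ) n`): `||lmt a' p| - |pn a c p|| ≤ 122 σ n`. So
`|T - |pn a c p|| ≤ 200 σ n`.
`scount`: the points `q ∈ Cl a`, `q ≠ p`, not near to `p` contain `pn a c p` (`mem_dl`) and are disjoint from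
`pn a a' p`, so their number is between `|pn a c p|` and `|Cl a| - |pn a a' p| ≤ |pn a c p| + 62 σ n`.
-/

set_option autoImplicit false

namespace H52.Dir

open Finset

variable {n : ℕ}

private theorem G5b_in {u : Fin n → V} {ω σ : ℝ} {Ty : Finset (Fin n)} (H : Fr u ω σ Ty) {b c : Fin 3}
    (hb : b ≠ 0) (hc : c ≠ 0) (hbc : b ≠ c) {a a' : Fin 3}
    (ha : (a = 0 ∧ a' = b) ∨ (a = b ∧ a' = 0)) {l : Finset (Fin n)} (hl : l ∈ Ls u) {p q : Fin n}
    (hp : p ∈ l) (hq : q ∈ l) (hpa : p ∈ Cl u ω a) (hqa : q ∈ Cl u ω a') :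
    l ∈ Dl (fun i => rot (fr b c) (u i)) 1 := by
  rcases ha with ⟨rfl, rfl⟩ | ⟨rfl, rfl⟩
  · exact mem_dl H hb hc hbc hl hp hq hpa hqa
  · exact mem_dl H hb hc hbc hl hq hp hqa hpa

private theorem G5b_abc {b c : Fin 3} (hb : b ≠ 0) (hc : c ≠ 0) (hbc : b ≠ c) {a : Fin 3}
    (ha : a = 0 ∨ a = b) : ∃ a' : Fin 3, ((a = 0 ∧ a' = b) ∨ (a = b ∧ a' = 0)) ∧ a ≠ a' ∧ a ≠ c ∧
      a' ≠ c := by
  rcases ha with rfl | rfl
  · exact ⟨b, Or.inl ⟨rfl, rfl⟩, hb.symm, hc.symm, hbc⟩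
  · exact ⟨0, Or.inr ⟨rfl, rfl⟩, hb, hbc, hc.symm⟩

theorem tcount {u : Fin n → V} {ω σ : ℝ} {Ty : Finset (Fin n)} (H : Fr u ω σ Ty) {b c : Fin 3}
    (hb : b ≠ 0) (hc : c ≠ 0) (hbc : b ≠ c) {a : Fin 3} (ha : a = 0 ∨ a = b) {p : Fin n}
    (hp : p ∈ Cl u ω a) (hpT : p ∈ Ty) :
    |(((Dl (fun i => rot (fr b c) (u i)) 1).filter (fun l => p ∈ l)).card : ℝ) -
      ((pn u ω a c p).card : ℝ)| ≤ 200 * σ * n := by
  classical
  obtain ⟨a', ha', h1, h2, h3⟩ := G5b_abc hb hc hbc ha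
  have hσ : 0 ≤ σ * n := le_trans zero_le_one H.big
  set T := (Dl (fun i => rot (fr b c) (u i)) 1).filter (fun l => p ∈ l) with hT
  have hLs : Ls (fun i => rot (fr b c) (u i)) = Ls u := Ls_rot (orth_fr hb hc hbc) u
  have hDL : ∀ l ∈ Dl (fun i => rot (fr b c) (u i)) 1, l ∈ Ls u := by
    intro l hl
    rw [← hLs]
    exact (mem_filter.1 hl).1
  have hsub1 : lmt u ω a' p ⊆ T := by
    intro l hl
    rw [mem_lmt, mem_thr] at hl
    obtain ⟨⟨hl1, hl2⟩, q, hq, hqa⟩ := hl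
    rw [hT, mem_filter]
    exact ⟨G5b_in H hb hc hbc ha' hl1 hl2 hq hp hqa, hl2⟩
  have hsub2 : T ⊆ lmt u ω a' p ∪ (thr u p).filter (fun l => l ∉ lmt u ω a' p ∧ l ∉ lmt u ω c p) := by
    intro l hl
    rw [hT, mem_filter] at hl
    have hl1 : l ∈ thr u p := mem_thr.2 ⟨hDL l hl.1, hl.2⟩
    rw [mem_union]
    by_cases hla : l ∈ lmt u ω a' p
    · exact Or.inl hla
    · right
      rw [mem_filter]
      refine ⟨hl1, hla, fun hlc => ?_⟩
      rw [mem_lmt] at hlc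
      obtain ⟨_, q, hq, hqc⟩ := hlc
      refine not_mem_dl H hb hc hbc (hDL l hl.1) hl.2 hq ?_ hqc hl.1
      rcases ha with rfl | rfl
      · exact Or.inl hp
      · exact Or.inr hp
  have e1 : ((lmt u ω a' p).card : ℝ) ≤ T.card := by exact_mod_cast card_le_card hsub1
  have e2 : (T.card : ℝ) ≤ (lmt u ω a' p).card + ((thr u p).filter
      (fun l => l ∉ lmt u ω a' p ∧ l ∉ lmt u ω c p)).card := by
    exact_mod_cast le_trans (card_le_card hsub2) (card_union_le _ _)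
  have e3 := g1c H h1 h2 h3 hp hpT
  have e4 := g1a H h1 h2 h3 hp hpT
  have e5 := g1b H h1 h2 h3 hp hpT
  have e6 := cl_le H a
  have e7 : ((pn u ω a a' p).card : ℝ) + (pn u ω a c p).card ≤ (Cl u ω a).card := by
    have hd := pn_disj H h1 h2 h3 hp
    rw [← Nat.cast_add, ← card_union_of_disjoint hd]
    norm_cast
    apply card_le_card
    apply union_subset
    · intro x hx
      exact (mem_pn.1 hx).1
    · intro x hx
      exact (mem_pn.1 hx).1
  have e3' : (((thr u p).filter (fun l => l ∉ lmt u ω a' p ∧ l ∉ lmt u ω c p)).card : ℝ) ≤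
      60 * σ * n := by
    convert e3 using 3
  rw [abs_le] at e4 ⊢
  constructor
  · linarith [e4.1, e4.2]
  · linarith [e4.1, e4.2]

open Classical in
theorem scount {u : Fin n → V} {ω σ : ℝ} {Ty : Finset (Fin n)} (H : Fr u ω σ Ty) {b c : Fin 3}
    (hb : b ≠ 0) (hc : c ≠ 0) (hbc : b ≠ c) {a : Fin 3} (ha : a = 0 ∨ a = b) {p : Fin n}
    (hp : p ∈ Cl u ω a) (hpT : p ∈ Ty) :
    (((Cl u ω a).filter (fun q => q ≠ p ∧ q ∉ pn u ω a c p ∧
      ¬ nr 1 (rot (fr b c) (u p)) (rot (fr b c) (u q)))).card : ℝ) ≤ 70 * σ * n ∧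
    ∀ q ∈ pn u ω a c p, ¬ nr 1 (rot (fr b c) (u p)) (rot (fr b c) (u q)) := by
  obtain ⟨a', ha', h1, h2, h3⟩ := G5b_abc hb hc hbc ha
  have hσ : 0 ≤ σ * n := le_trans zero_le_one H.big
  have hLs : Ls (fun i => rot (fr b c) (u i)) = Ls u := Ls_rot (orth_fr hb hc hbc) u
  constructor
  · have e5 := g1b H h1 h2 h3 hp hpT
    have e6 := cl_le H a
    have hd := pn_disj H h1 h2 h3 hp
    have hsub : (Cl u ω a).filter (fun q => q ≠ p ∧ q ∉ pn u ω a c p ∧
        ¬ nr 1 (rot (fr b c) (u p)) (rot (fr b c) (u q))) ⊆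
        Cl u ω a \ (pn u ω a a' p ∪ pn u ω a c p) := by
      intro q hq
      rw [mem_filter] at hq
      obtain ⟨hq1, hq2, hq3, hq4⟩ := hq
      rw [mem_sdiff, mem_union]
      refine ⟨hq1, fun hcon => ?_⟩
      rcases hcon with hcon | hcon
      · rw [mem_pn] at hcon
        obtain ⟨_, _, r, hr, hdet⟩ := hcon
        have hl : ln u p q ∈ Ls u := ln_mem u (Ne.symm hq2)
        have hin := G5b_in H hb hc hbc ha' hl (ln_left u p q) (mem_ln.2 hdet) hp hr
        have h4 := (mem_filter.1 hin).2 p (ln_left u p q) q (ln_right u p q) (Ne.symm hq2)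
        exact hq4 h4
      · exact hq3 hcon
    have hsub2 : pn u ω a a' p ∪ pn u ω a c p ⊆ Cl u ω a := by
      apply union_subset
      · intro x hx
        exact (mem_pn.1 hx).1
      · intro x hx
        exact (mem_pn.1 hx).1
    have e8 := card_le_card hsub
    rw [card_sdiff_of_subset hsub2, card_union_of_disjoint hd] at e8
    have e9 : (pn u ω a a' p).card + (pn u ω a c p).card ≤ (Cl u ω a).card := by
      rw [← card_union_of_disjoint hd]
      exact card_le_card hsub2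
    have e10 : (((Cl u ω a).filter (fun q => q ≠ p ∧ q ∉ pn u ω a c p ∧
        ¬ nr 1 (rot (fr b c) (u p)) (rot (fr b c) (u q)))).card : ℝ) ≤
        ((Cl u ω a).card : ℝ) - ((pn u ω a a' p).card + (pn u ω a c p).card) := by
      have := (Nat.cast_le (α := ℝ)).2 e8
      rw [Nat.cast_sub e9, Nat.cast_add] at this
      exact this
    linarith
  · intro q hq hnr
    rw [mem_pn] at hq
    obtain ⟨_, hq2, r, hr, hdet⟩ := hq
    have hl : ln u p q ∈ Ls u := ln_mem u (Ne.symm hq2)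
    have hin : ln u p q ∈ Dl (fun i => rot (fr b c) (u i)) 1 := by
      apply nr_line (cf_rot (orth_fr hb hc hbc) H.cf) (i := p) (j := q)
      · rw [hLs]; exact hl
      · exact ln_left u p q
      · exact ln_right u p q
      · exact Ne.symm hq2
      · exact hnr
    refine not_mem_dl H hb hc hbc hl (ln_left u p q) (mem_ln.2 hdet) ?_ hr hin
    rcases ha with rfl | rfl
    · exact Or.inl hp
    · exact Or.inr hp

end H52.Dir
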