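import Pool.Agent.H52.Dir.Sq

/-!
# Module Ty (110 lines): almost all points are typical

PROOF. `Σ_i Σ_{l ∈ thr u i} s u l = Σ_{l} |l| s u l ≤ (Σ |l|²)^{1/2} (Σ sq u l)^{1/2}` (`sum_swap`,
Cauchy-Schwarz, `s² = sq` by `sq_nonneg'`), `Σ |l|² = Σ |l| (|l| - 1) + Σ |l| ≤ n (n-1) + n²`
(`sum_pair` with `f = 1`, `thr_card_le`), so it is `≤ (2 n²)^{1/2} (3 ε n²)^{1/2} ≤ 3 √ε n²`. Hence the
number of `i` with `Σ_{l ∋ i} s u l > ε₁ n` is at most `3 √ε n / ε₁`.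
`Σ_i ((1/3 + ε) n - T_i) ≤ 3 ε n²` (`sum_T`), all terms are `≥ 0`, so the number of `i` with
`T_i < (1/3 - ε₁) n` is at most `3 ε n / (ε₁ + ε) ≤ 3 ε n / ε₁`. Choose `ε` with
`3 √ε / ε₁ + 3 ε / ε₁ ≤ ε₁`.
-/

set_option autoImplicit false

namespace H52.Dir

open Finset

open Classical in
private theorem typ_sumsq {n : ℕ} {u : Fin n → V} (h : Cf u) :
    ∑ l ∈ Ls u, ((l.card : ℝ)) ^ 2 ≤ 2 * (n : ℝ) ^ 2 := by
  have h1 := sum_pair h (fun _ _ => (1 : ℝ))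
  have h2 := sum_swap u (fun _ _ => (1 : ℝ))
  have h3 : ∀ l ∈ Ls u, ((l.card : ℝ)) ^ 2 =
      ∑ i ∈ l, ∑ _j ∈ l.erase i, (1 : ℝ) + ∑ _i ∈ l, (1 : ℝ) := by
    intro l _
    rw [← sum_add_distrib]
    have : ∀ i ∈ l, (∑ _j ∈ l.erase i, (1 : ℝ) + 1) = l.card := by
      intro i hi
      rw [sum_const, nsmul_eq_mul, mul_one, card_erase_of_mem hi,
        Nat.cast_sub (card_pos.2 ⟨i, hi⟩)]
      push_cast
      ring
    rw [sum_congr rfl this, sum_const, nsmul_eq_mul]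
    ring
  rw [sum_congr rfl h3, sum_add_distrib, h1, ← h2]
  have h4 : ∑ i : Fin n, ∑ _j ∈ (univ : Finset (Fin n)).erase i, (1 : ℝ) ≤ (n : ℝ) * n := by
    have : ∀ i ∈ (univ : Finset (Fin n)), ∑ _j ∈ (univ : Finset (Fin n)).erase i, (1 : ℝ) ≤ n := by
      intro i _
      rw [sum_const, nsmul_eq_mul, mul_one]
      have h5 : ((univ : Finset (Fin n)).erase i).card ≤ n := by
        refine le_trans (card_le_card (erase_subset _ _)) ?_
        simp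
      exact_mod_cast h5
    refine le_trans (sum_le_sum this) ?_
    simp
  have h5 : ∑ i : Fin n, ∑ _l ∈ thr u i, (1 : ℝ) ≤ (n : ℝ) * n := by
    have : ∀ i ∈ (univ : Finset (Fin n)), ∑ _l ∈ thr u i, (1 : ℝ) ≤ n := by
      intro i _
      rw [sum_const, nsmul_eq_mul, mul_one]
      have := thr_card_le h i
      linarith
    refine le_trans (sum_le_sum this) ?_
    simp
  nlinarith [h4, h5]

private theorem typ_sum {n : ℕ} {u : Fin n → V} {δ : ℝ} (hδ : 0 ≤ δ) (h : Good u (δ ^ 2)) :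
    ∑ i, ∑ l ∈ thr u i, s u l ≤ 3 * δ * (n : ℝ) ^ 2 := by
  rw [sum_swap u (fun _ l => s u l)]
  have h0 : ∑ l ∈ Ls u, ∑ _i ∈ l, s u l = ∑ l ∈ Ls u, (l.card : ℝ) * s u l := by
    apply sum_congr rfl
    intro l _
    rw [sum_const, nsmul_eq_mul]
  rw [h0]
  have h1 : (∑ l ∈ Ls u, (l.card : ℝ) * s u l) ^ 2 ≤
      (∑ l ∈ Ls u, (l.card : ℝ) ^ 2) * ∑ l ∈ Ls u, (s u l) ^ 2 :=
    sum_mul_sq_le_sq_mul_sq _ _ _
  have h2 : ∑ l ∈ Ls u, (s u l) ^ 2 = ∑ l ∈ Ls u, sq u l := by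
    apply sum_congr rfl
    intro l hl
    exact Real.sq_sqrt (sq_nonneg' h.toCf hl)
  have h3 := sum_sq h
  have h4 := typ_sumsq h.toCf
  have h5 : 0 ≤ ∑ l ∈ Ls u, (s u l) ^ 2 := sum_nonneg fun _ _ => sq_nonneg _
  have h6 : (∑ l ∈ Ls u, (l.card : ℝ) * s u l) ^ 2 ≤ (3 * δ * (n : ℝ) ^ 2) ^ 2 := by
    refine le_trans h1 ?_
    refine le_trans (mul_le_mul_of_nonneg_right h4 h5) ?_
    rw [h2]
    refine le_trans (mul_le_mul_of_nonneg_left h3 (by positivity)) ?_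
    nlinarith [sq_nonneg (δ * (n : ℝ) ^ 2)]
  exact abs_le_of_sq_le_sq' h6 (by positivity) |>.2

open Classical in
theorem typ (ε₁ : ℝ) (h₁ : 0 < ε₁) : ∃ ε : ℝ, 0 < ε ∧ ∀ (n : ℕ) (u : Fin n → V), Good u ε →
    (((univ : Finset (Fin n)).filter (fun i => ¬ Typ u ε₁ i)).card : ℝ) ≤ ε₁ * n := by
  set δ : ℝ := min 1 (ε₁ ^ 2 / 6) with hδdef
  have hδ0 : 0 < δ := lt_min one_pos (by positivity)
  have hδ1 : δ ≤ 1 := min_le_left _ _
  have hδ2 : δ ≤ ε₁ ^ 2 / 6 := min_le_right _ _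
  refine ⟨δ ^ 2, by positivity, ?_⟩
  intro n u hG
  have hs := typ_sum hδ0.le hG
  rcases Nat.eq_zero_or_pos n with hn0 | hn0
  · subst hn0
    simp
  have hn : (0 : ℝ) < n := by exact_mod_cast hn0
  have hs0 : ∀ i, 0 ≤ ∑ l ∈ thr u i, s u l := fun i =>
    sum_nonneg fun _ _ => Real.sqrt_nonneg _
  -- the two bad sets
  have hA : (((univ : Finset (Fin n)).filter
      (fun i => ε₁ * n < ∑ l ∈ thr u i, s u l)).card : ℝ) * (ε₁ * n) ≤ 3 * δ * (n : ℝ) ^ 2 := by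
    refine le_trans ?_ hs
    rw [← nsmul_eq_mul]
    refine le_trans (card_nsmul_le_sum _ (fun i => ∑ l ∈ thr u i, s u l) _ ?_) ?_
    · intro i hi
      exact (mem_filter.1 hi).2.le
    · exact sum_le_sum_of_subset_of_nonneg (filter_subset _ _) (fun i _ _ => hs0 i)
  have hT := sum_T hG
  have hB : (((univ : Finset (Fin n)).filter
      (fun i => ((thr u i).card : ℝ) < (1 / 3 - ε₁) * n)).card : ℝ) * (ε₁ * n) ≤
      3 * δ ^ 2 * (n : ℝ) ^ 2 := by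
    have hnn : ∀ i, 0 ≤ (1 / 3 + δ ^ 2) * n - ((thr u i).card : ℝ) := fun i => by
      linarith [hG.T i]
    have hsum : ∑ i : Fin n, ((1 / 3 + δ ^ 2) * n - ((thr u i).card : ℝ)) ≤
        3 * δ ^ 2 * (n : ℝ) ^ 2 := by
      rw [sum_sub_distrib, sum_const, card_univ, Fintype.card_fin, nsmul_eq_mul]
      nlinarith [hT]
    refine le_trans ?_ hsum
    rw [← nsmul_eq_mul]
    refine le_trans (card_nsmul_le_sum _
      (fun i => (1 / 3 + δ ^ 2) * n - ((thr u i).card : ℝ)) _ ?_) ?_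
    · intro i hi
      have h1 := (mem_filter.1 hi).2
      have h2 : 0 ≤ δ ^ 2 * (n : ℝ) := by positivity
      nlinarith
    · exact sum_le_sum_of_subset_of_nonneg (filter_subset _ _) (fun i _ _ => hnn i)
  have hsub : (univ : Finset (Fin n)).filter (fun i => ¬ Typ u ε₁ i) ⊆
      (univ : Finset (Fin n)).filter (fun i => ε₁ * n < ∑ l ∈ thr u i, s u l) ∪
      (univ : Finset (Fin n)).filter (fun i => ((thr u i).card : ℝ) < (1 / 3 - ε₁) * n) := by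
    intro i hi
    have h1 := (mem_filter.1 hi).2
    rw [mem_union, mem_filter, mem_filter]
    by_contra hcon
    push Not at hcon
    exact h1 ⟨hcon.1 (mem_univ _), hcon.2 (mem_univ _)⟩
  have hcard : (((univ : Finset (Fin n)).filter (fun i => ¬ Typ u ε₁ i)).card : ℝ) ≤
      (((univ : Finset (Fin n)).filter (fun i => ε₁ * n < ∑ l ∈ thr u i, s u l)).card : ℝ) +
      (((univ : Finset (Fin n)).filter
        (fun i => ((thr u i).card : ℝ) < (1 / 3 - ε₁) * n)).card : ℝ) := by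
    exact_mod_cast le_trans (card_le_card hsub) (card_union_le _ _)
  refine le_trans hcard ?_
  have hpos : 0 < ε₁ * n := by positivity
  refine le_of_mul_le_mul_right ?_ hpos
  rw [add_mul]
  have hδ3 : δ ^ 2 ≤ δ := by nlinarith
  have h6 : 3 * δ * (n : ℝ) ^ 2 + 3 * δ ^ 2 * (n : ℝ) ^ 2 ≤ ε₁ * n * (ε₁ * n) := by
    have h7 : 3 * δ + 3 * δ ^ 2 ≤ ε₁ ^ 2 := by linarith
    have h8 := mul_le_mul_of_nonneg_right h7 (sq_nonneg (n : ℝ))
    nlinarith [h8]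
  linarith

end H52.Dir
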