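import Pool.Agent.H52.Dir.G4
import Pool.Agent.H52.Dir.G5
import Pool.Agent.H52.Dir.Ty

/-!
# Module G6 (130 lines): no frame configuration

PROOF. `e` from `g4`, `C` from `g2`, `κ > 0` with `κ ≤ 1 / C` and `C κ² < e / 2`; `g5 e (κ e / 8)` gives `τ, σ₁`;
`g4` with `min τ (κ e / 8)` gives `σ₂`; `g2 κ` gives `σ₃`. `σ` = the minimum of these and `1/10000`.
`no_fr`: for `Fr u ω σ Ty`: `b, c, t` from `g4`. `E = {q ∈ Cl 0 : cx b q < t}`, `|E| ≥ e n`.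
`Σ_{p ∈ E} |pn 0 c p| = #{pairs of E × E} + #{pairs of E × F}` (with line meeting `Cl c`) `≤ (κ e / 8 + κ e / 8) n²`,
so the number of `p ∈ E` with `|pn 0 c p| > κ n` is at most `e n / 4` and at least `3 e n / 4` points of `Cl 0` have
`|pn 0 c p| ≤ κ n`, but `g2` says at most `C κ² n < e n / 2`; contradiction as `n > 0`.
`noframe`: `ω = σ`; `ε` = minimum of `σ` and the `ε` of `typ σ`; `Ty = {i : Typ u σ i}`; fields `K` from
`Good.line_le`, `big` from `big`, `Good.mono`.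
-/

set_option autoImplicit false

namespace H52.Dir

open Finset

theorem no_fr : ∃ σ : ℝ, 0 < σ ∧ σ ≤ 1 / 10000 ∧ ∀ (n : ℕ) (u : Fin n → V) (ω : ℝ)
    (Ty : Finset (Fin n)), ¬ Fr u ω σ Ty := by
  classical
  obtain ⟨e, he0, he1, hg4⟩ := g4
  obtain ⟨C, hC1, hg2⟩ := g2
  have hC0 : 0 < C := by linarith
  obtain ⟨κ, hκ⟩ : ∃ κ : ℝ, κ = min (1 / C) (e / 4) := ⟨_, rfl⟩
  have hκ0 : 0 < κ := by
    rw [hκ]
    exact lt_min (by positivity) (by positivity)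
  have hκC : κ ≤ 1 / C := by
    rw [hκ]
    exact min_le_left _ _
  have hκe : κ ≤ e / 4 := by
    rw [hκ]
    exact min_le_right _ _
  have hCκ : C * κ ^ 2 ≤ e / 4 := by
    have h1 : C * κ ≤ 1 := by
      rw [le_div_iff₀ hC0] at hκC
      linarith
    have h2 : C * κ ^ 2 = (C * κ) * κ := by ring
    rw [h2]
    have h3 : (C * κ) * κ ≤ 1 * κ := mul_le_mul_of_nonneg_right h1 hκ0.le
    linarith
  obtain ⟨τ, σ₁, hτ0, hσ₁, hg5⟩ := g5 e (κ * e / 8) he0 (by positivity)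
  obtain ⟨σ₂, hσ₂, hg4'⟩ := hg4 (min τ (κ * e / 8)) (lt_min hτ0 (by positivity))
  obtain ⟨σ₃, hσ₃, hg2'⟩ := hg2 κ hκ0 hκC
  refine ⟨min (min σ₁ σ₂) (min σ₃ (1 / 10000)), ?_, ?_, ?_⟩
  · exact lt_min (lt_min hσ₁ hσ₂) (lt_min hσ₃ (by norm_num))
  · exact le_trans (min_le_right _ _) (min_le_right _ _)
  intro n u ω Ty H
  obtain ⟨σ, hσ⟩ : ∃ σ : ℝ, σ = min (min σ₁ σ₂) (min σ₃ (1 / 10000)) := ⟨_, rfl⟩
  rw [← hσ] at H
  have l1 : σ ≤ σ₁ := by
    rw [hσ]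
    exact le_trans (min_le_left _ _) (min_le_left _ _)
  have l2 : σ ≤ σ₂ := by
    rw [hσ]
    exact le_trans (min_le_left _ _) (min_le_right _ _)
  have l3 : σ ≤ σ₃ := by
    rw [hσ]
    exact le_trans (min_le_right _ _) (min_le_left _ _)
  obtain ⟨b, c, hb, hc, hbc, t, hE, hF, hEF⟩ := hg4' n u ω σ Ty l2 H
  have hn : (0 : ℝ) < n := by
    have h1 := H.big
    have h2 := H.σ1
    rcases Nat.eq_zero_or_pos n with h0 | h0
    · exfalso
      rw [h0, Nat.cast_zero, mul_zero] at h1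
      linarith
    · exact_mod_cast h0
  have hEF1 : (((Cl u ω 0 ×ˢ Cl u ω 0).filter (fun z => cx u b z.1 < t ∧ t ≤ cx u b z.2 ∧
        ∃ r ∈ Cl u ω c, det (u z.1) (u z.2) (u r) = 0)).card : ℝ) ≤ τ * (n : ℝ) ^ 2 :=
    le_trans hEF (mul_le_mul_of_nonneg_right (min_le_left _ _) (by positivity))
  have hEF2 : (((Cl u ω 0 ×ˢ Cl u ω 0).filter (fun z => cx u b z.1 < t ∧ t ≤ cx u b z.2 ∧
        ∃ r ∈ Cl u ω c, det (u z.1) (u z.2) (u r) = 0)).card : ℝ) ≤ κ * e / 8 * (n : ℝ) ^ 2 :=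
    le_trans hEF (mul_le_mul_of_nonneg_right (min_le_right _ _) (by positivity))
  have hEE := hg5 n u ω σ Ty l1 H b c hb hc hbc t hE hF hEF1
  have hfew := hg2' n u ω σ Ty l3 H 0 c (Ne.symm hc)
  obtain ⟨E, hEd⟩ : ∃ E, E = (Cl u ω 0).filter (fun q => cx u b q < t) := ⟨_, rfl⟩
  rw [← hEd] at hE
  -- the sum of the numbers of partners
  have hsum : ∑ p ∈ E, ((pn u ω 0 c p).card : ℝ) ≤ κ * e / 4 * (n : ℝ) ^ 2 := by
    have h1 : ∑ p ∈ E, (pn u ω 0 c p).card = (E.sigma (fun p => pn u ω 0 c p)).card :=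
      (card_sigma _ _).symm
    have h2 : (E.sigma (fun p => pn u ω 0 c p)).card ≤
        (((Cl u ω 0 ×ˢ Cl u ω 0).filter (fun z => z.1 ≠ z.2 ∧ cx u b z.1 < t ∧ cx u b z.2 < t ∧
          ∃ r ∈ Cl u ω c, det (u z.1) (u z.2) (u r) = 0)) ∪
        ((Cl u ω 0 ×ˢ Cl u ω 0).filter (fun z => cx u b z.1 < t ∧ t ≤ cx u b z.2 ∧
          ∃ r ∈ Cl u ω c, det (u z.1) (u z.2) (u r) = 0))).card := by
      apply card_le_card_of_injOn (fun z => (z.1, z.2))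
      · intro z hz
        rw [mem_coe, mem_sigma] at hz
        obtain ⟨hz1, hz2⟩ := hz
        rw [hEd, mem_filter] at hz1
        obtain ⟨hq, hqp, hr⟩ := mem_pn.1 hz2
        rw [mem_coe, mem_union, mem_filter, mem_filter, mem_product]
        by_cases hlt : cx u b z.2 < t
        · exact Or.inl ⟨⟨hz1.1, hq⟩, hqp.symm, hz1.2, hlt, hr⟩
        · exact Or.inr ⟨⟨hz1.1, hq⟩, hz1.2, not_lt.1 hlt, hr⟩
      · rintro ⟨p, q⟩ _ ⟨p', q'⟩ _ h
        simp only [Prod.mk.injEq] at h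
        obtain ⟨rfl, rfl⟩ := h
        rfl
    have h3 : ∑ p ∈ E, ((pn u ω 0 c p).card : ℝ) ≤
        (((Cl u ω 0 ×ˢ Cl u ω 0).filter (fun z => z.1 ≠ z.2 ∧ cx u b z.1 < t ∧ cx u b z.2 < t ∧
          ∃ r ∈ Cl u ω c, det (u z.1) (u z.2) (u r) = 0)).card : ℝ) +
        (((Cl u ω 0 ×ˢ Cl u ω 0).filter (fun z => cx u b z.1 < t ∧ t ≤ cx u b z.2 ∧
          ∃ r ∈ Cl u ω c, det (u z.1) (u z.2) (u r) = 0)).card : ℝ) := by
      have h4 := le_trans h2 (card_union_le _ _)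
      rw [← h1] at h4
      exact_mod_cast h4
    refine le_trans h3 ?_
    have h5 : κ * e / 4 * (n : ℝ) ^ 2 = κ * e / 8 * (n : ℝ) ^ 2 + κ * e / 8 * (n : ℝ) ^ 2 := by ring
    rw [h5]
    exact add_le_add hEE hEF2
  -- Markov
  have hbad : κ * n * ((E.filter (fun p => ¬ ((pn u ω 0 c p).card : ℝ) ≤ κ * n)).card : ℝ) ≤
      κ * e / 4 * (n : ℝ) ^ 2 := by
    refine le_trans ?_ hsum
    have h1 : ∑ p ∈ E.filter (fun p => ¬ ((pn u ω 0 c p).card : ℝ) ≤ κ * n), κ * n ≤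
        ∑ p ∈ E.filter (fun p => ¬ ((pn u ω 0 c p).card : ℝ) ≤ κ * n),
          ((pn u ω 0 c p).card : ℝ) := by
      apply sum_le_sum
      intro p hp
      exact (not_le.1 (mem_filter.1 hp).2).le
    rw [sum_const, nsmul_eq_mul] at h1
    have h2 : ∑ p ∈ E.filter (fun p => ¬ ((pn u ω 0 c p).card : ℝ) ≤ κ * n),
        ((pn u ω 0 c p).card : ℝ) ≤ ∑ p ∈ E, ((pn u ω 0 c p).card : ℝ) :=
      sum_le_sum_of_subset_of_nonneg (filter_subset _ _) fun _ _ _ => Nat.cast_nonneg _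
    linarith
  have hbad2 : ((E.filter (fun p => ¬ ((pn u ω 0 c p).card : ℝ) ≤ κ * n)).card : ℝ) ≤
      e / 4 * n := by
    have h1 : (κ * n) * ((E.filter (fun p => ¬ ((pn u ω 0 c p).card : ℝ) ≤ κ * n)).card : ℝ) ≤
        (κ * n) * (e / 4 * n) := by
      refine le_trans hbad (le_of_eq ?_)
      ring
    exact le_of_mul_le_mul_left h1 (by positivity)
  have hgood : ((E.filter (fun p => ((pn u ω 0 c p).card : ℝ) ≤ κ * n)).card : ℝ) ≤
      C * κ ^ 2 * n := by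
    refine le_trans ?_ hfew
    refine Nat.cast_le.2 (card_le_card fun p hp => ?_)
    rw [mem_filter] at hp ⊢
    rw [hEd, mem_filter] at hp
    exact ⟨hp.1.1, hp.2⟩
  have hsplit : (E.card : ℝ) =
      ((E.filter (fun p => ((pn u ω 0 c p).card : ℝ) ≤ κ * n)).card : ℝ) +
      ((E.filter (fun p => ¬ ((pn u ω 0 c p).card : ℝ) ≤ κ * n)).card : ℝ) := by
    have := card_filter_add_card_filter_not (s := E)
      (fun p => ((pn u ω 0 c p).card : ℝ) ≤ κ * n)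
    exact_mod_cast this.symm
  have hC2 : C * κ ^ 2 * n ≤ e / 4 * n := mul_le_mul_of_nonneg_right hCκ hn.le
  have hen : 0 < e * n := mul_pos he0 hn
  linarith

open Classical in
theorem noframe : ∃ ω ε : ℝ, 0 < ω ∧ 0 < ε ∧ ∀ (n : ℕ) (u : Fin n → V), Good u ε →
    ¬ (∀ j : Fin 3, (1 / 3 - ω) * n ≤
      (((univ : Finset (Fin n)).filter (fun i => 1 - ω ≤ (u i j) ^ 2)).card : ℝ)) := by
  obtain ⟨σ, hσ0, hσ1, hno⟩ := no_fr
  obtain ⟨ε₀, hε₀, htyp⟩ := typ σ hσ0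
  refine ⟨σ, min σ ε₀, hσ0, lt_min hσ0 hε₀, ?_⟩
  intro n u hG hsz
  have hGσ : Good u σ := hG.mono (min_le_left _ _)
  have hGε : Good u ε₀ := hG.mono (min_le_right _ _)
  refine hno n u σ ((univ : Finset (Fin n)).filter (fun i => Typ u σ i)) ?_
  refine ⟨hG.toCf, fun l hl => hGσ.line_le hl, hσ0, le_rfl, hσ1, fun j => ?_, hGσ.big, ?_, ?_⟩
  · exact hsz j
  · have h1 := htyp n u hGε
    have h2 : (univ : Finset (Fin n)) \ (univ.filter (fun i => Typ u σ i)) =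
        univ.filter (fun i => ¬ Typ u σ i) := by
      ext i
      simp
    rw [h2]
    exact h1
  · intro i hi
    exact (mem_filter.1 hi).2.1

end H52.Dir
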