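import Pool.Agent.H52.Dir.HdB
import Pool.Agent.H52.Dir.Ord

/-!
# Module Hd (170 lines): a heavy direction

PROOF. Put `E = (7 + 80/s) τ`. By `zsmall` (with the two given points) `‖Zs‖ ≤ 2 E n / c`, by `tsn`
`|Tn - 1 - Sn| ≤ E' n`, `E' = 2 E + 4 E / c`, for all `i ∈ Ty`, `|u i 2| ≤ r`, `s ≤ |u i 0|`. This is the second
conclusion if `E' + τ ≤ κ` (`1 ≤ τ n`).
First conclusion: the planar system `P` of `toPl` with `S = {i : |u i 2| ≤ r ∧ s ≤ |u i 0|}`; the weights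
`f a = wt u r (ψ a)` satisfy `P.Wt`. `P.T i = Tn u η i`. If `g = f b` and `f a i ≠ 0` then
`P.St g i = Σ_{k : |u k 2| ≤ r, k ≠ i, ¬ nr} g k` (points with `g k ≠ 0` are in `S`, `pl_nr`), and for these `k`
`|g k - g i| = |ψ (chi (u k)) - ψ (chi (u i))| ≤ L 5 r / η ≤ 5 L τ` (`chi_near`), so
`|P.St g i - g i Sn i| ≤ 5 L τ n`. Hence `|P.Er f g| ≤ Σ_i f i g i |Tn - 1 - Sn| + 5 L τ n² ≤
E' n² + (τ n) (2 n) + 5 L τ n²` (nontypical `i`: `|Tn - 1 - Sn| ≤ 2 n`).
The cross pairs of classes 1, 2 and of classes 2, 3 are near: for `i, j` in the supports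
`|x 0 y 1 - x 1 y 0| = |x 0 y 0| |X i - X j| ≥ s² g > 0` and `|x 2 y 0 - x 0 y 2| ≤ 2 r ≤ 2 τ η ≤ η s² g` if
`2 τ ≤ s² g`; so `P.M f₁ f₂ = P.M f₂ f₃ = 0`. The order of the abscissas is given. `ord γ κ` gives
`P.M f₁ f₁ ≤ κ n²` if `τ` is small in terms of its `σ`. Finally
`P.M f₁ f₁` is the sum in the statement (`pl_nr` on the support, other terms are 0).
-/

set_option autoImplicit false

namespace H52.Dir

open Finset

variable {n : ℕ}

open Classical in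
/-- the weight of a class: a function of `chi` cut off at the strip `|x 2| ≤ r` -/
noncomputable def wt (u : Fin n → V) (r : ℝ) (ψ : ℂ → ℝ) (i : Fin n) : ℝ :=
  if |u i 2| ≤ r then ψ (chi (u i)) else 0

private theorem Hd_wt_bd {u : Fin n → V} {r : ℝ} {ψ : ℂ → ℝ} (h : ∀ z, 0 ≤ ψ z ∧ ψ z ≤ 1)
    (i : Fin n) : 0 ≤ wt u r ψ i ∧ wt u r ψ i ≤ 1 := by
  unfold wt
  split_ifs
  · exact h _
  · exact ⟨le_rfl, zero_le_one⟩

private theorem Hd_wt_sup {u : Fin n → V} {r : ℝ} {ψ : ℂ → ℝ} {i : Fin n}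
    (h : wt u r ψ i ≠ 0) : |u i 2| ≤ r := by
  unfold wt at h
  by_contra hc
  rw [if_neg hc] at h
  exact h rfl

open Classical in
/-- the steep mass of a weight is a sum over the strip -/
private theorem Hd_St {u : Fin n → V} {P : Pl n} {s η r : ℝ} {ψ : ℂ → ℝ} (hs : 0 < s)
    (hX : P.X = (fun i => u i 1 / u i 0)) (hY : P.Y = (fun i => u i 2 / u i 0)) (hη : P.η = η)
    (hw : ∀ i, wt u r ψ i ≠ 0 → s ≤ |u i 0|) {i : Fin n} (hi : u i 0 ≠ 0) :
    P.St (wt u r ψ) i =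
      ∑ k ∈ univ.filter (fun k => |u k 2| ≤ r ∧ k ≠ i ∧ ¬ nr η (u i) (u k)), wt u r ψ k := by
  unfold Pl.St
  rw [sum_filter]
  apply sum_congr rfl
  intro j _
  by_cases hj : wt u r ψ j = 0
  · rw [hj]; simp
  · have h2 := Hd_wt_sup hj
    have h0 : u j 0 ≠ 0 := by
      intro h
      have := hw j hj
      rw [h, abs_zero] at this
      linarith
    have h3 : P.st i j ↔ (|u j 2| ≤ r ∧ j ≠ i ∧ ¬ nr η (u i) (u j)) := by
      unfold Pl.st
      rw [pl_nr hX hY hη hi h0]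
      constructor
      · rintro ⟨a, b⟩; exact ⟨h2, Ne.symm a, b⟩
      · rintro ⟨_, a, b⟩; exact ⟨Ne.symm a, b⟩
    by_cases h4 : P.st i j
    · rw [if_pos h4, if_pos (h3.1 h4)]
    · rw [if_neg h4, if_neg (fun h => h4 (h3.2 h))]

private theorem Hd_card_lt {u : Fin n → V} (h : Cf u) {η : ℝ} (i : Fin n) :
    (Tn u η i : ℝ) + 1 ≤ n := by
  classical
  refine le_trans ?_ (thr_card_le h i)
  have : (Tn u η i : ℝ) ≤ ((thr u i).card : ℝ) := by
    unfold Tn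
    norm_cast
    apply card_le_card
    intro l hl
    rw [mem_filter] at hl
    exact mem_thr.2 ⟨(mem_filter.1 hl.1).1, hl.2⟩
  linarith

private theorem Hd_Sn_le {u : Fin n → V} {η r : ℝ} (i : Fin n) : (Sn u η r i : ℝ) ≤ n := by
  classical
  have h6 := card_le_univ (univ.filter (fun k => |u k 2| ≤ r ∧ k ≠ i ∧ ¬ nr η (u i) (u k)))
  rw [Fintype.card_fin] at h6
  unfold Sn
  exact_mod_cast h6

/-- the error terms are small -/
private theorem Hd_Er {u : Fin n → V} {P : Pl n} {s η r τ L B : ℝ} {Ty : Finset (Fin n)}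
    (H : Hyp u s η r τ Ty) (hL : 0 ≤ L) (hB : 0 ≤ B)
    (hX : P.X = (fun i => u i 1 / u i 0)) (hY : P.Y = (fun i => u i 2 / u i 0)) (hη : P.η = η)
    (hD : P.D = Dl u η)
    (hT : ∀ i ∈ Ty, |u i 2| ≤ r → s ≤ |u i 0| → |(Tn u η i : ℝ) - 1 - (Sn u η r i : ℝ)| ≤ B * τ * n)
    {φ ψ : ℂ → ℝ} (hφ : ∀ z, 0 ≤ φ z ∧ φ z ≤ 1) (hψ : ∀ z, 0 ≤ ψ z ∧ ψ z ≤ 1)
    (hψL : ∀ z w, |ψ z - ψ w| ≤ L * ‖z - w‖)
    (hφw : ∀ i, wt u r φ i ≠ 0 → s ≤ |u i 0|) (hψw : ∀ i, wt u r ψ i ≠ 0 → s ≤ |u i 0|) :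
    |P.Er (wt u r φ) (wt u r ψ)| ≤ (B + 5 * L + 2) * τ * (n : ℝ) ^ 2 := by
  classical
  have hτ : 0 < τ := lt_of_lt_of_le H.η0 H.η1
  have hn : (0 : ℝ) ≤ n := Nat.cast_nonneg n
  have hn1 : (1 : ℝ) ≤ n := by
    have := H.big
    have h3 := H.τ1
    nlinarith
  have hη1 : η ≤ 1 / 2 := le_trans H.η1 H.τ1
  have hr1 : r ≤ 1 := by
    have h3 := H.r1
    have h4 := H.τ1
    nlinarith [H.η0]
  have key : ∀ i, |wt u r φ i * (wt u r ψ i * (P.T i - 1) - P.St (wt u r ψ) i)| ≤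
      (B * τ * n + 5 * L * τ * n) + if i ∈ univ \ Ty then 2 * (n : ℝ) else 0 := by
    intro i
    by_cases hi : wt u r φ i = 0
    · rw [hi, zero_mul, abs_zero]
      have h0 : (0 : ℝ) ≤ if i ∈ univ \ Ty then 2 * (n : ℝ) else 0 := by
        split_ifs
        · positivity
        · exact le_rfl
      have h1 : (0 : ℝ) ≤ B * τ * n + 5 * L * τ * n := by positivity
      linarith
    · have h2 := Hd_wt_sup hi
      have h0 := hφw i hi
      have hi0 : u i 0 ≠ 0 := by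
        intro h
        rw [h, abs_zero] at h0
        linarith [H.s0]
      have hSt := Hd_St H.s0 hX hY hη hψw hi0
      have hTT : P.T i = (Tn u η i : ℝ) := by
        unfold Pl.T Tn
        rw [hD]
      have e1 : |P.St (wt u r ψ) i - wt u r ψ i * (Sn u η r i : ℝ)| ≤ 5 * L * τ * n := by
        have e2 : P.St (wt u r ψ) i - wt u r ψ i * (Sn u η r i : ℝ) =
            ∑ k ∈ univ.filter (fun k => |u k 2| ≤ r ∧ k ≠ i ∧ ¬ nr η (u i) (u k)),
              (wt u r ψ k - wt u r ψ i) := by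
          rw [sum_sub_distrib, sum_const, nsmul_eq_mul, hSt]
          unfold Sn
          ring
        rw [e2]
        refine le_trans (abs_sum_le_sum_abs _ _) ?_
        calc ∑ k ∈ univ.filter (fun k => |u k 2| ≤ r ∧ k ≠ i ∧ ¬ nr η (u i) (u k)),
              |wt u r ψ k - wt u r ψ i|
            ≤ ∑ k ∈ univ.filter (fun k => |u k 2| ≤ r ∧ k ≠ i ∧ ¬ nr η (u i) (u k)),
              (5 * L * τ) := by
              apply sum_le_sum
              intro k hk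
              simp only [mem_filter, mem_univ, true_and] at hk
              unfold wt
              rw [if_pos hk.1, if_pos h2]
              refine le_trans (hψL _ _) ?_
              rw [norm_sub_rev]
              have h5 := chi_near (H.cf.unit i) (H.cf.unit k) H.η0 (by linarith) H.r0.le hr1 h2
                hk.1 hk.2.2
              have h6 : 5 * r / η ≤ 5 * τ := by
                rw [div_le_iff₀ H.η0]
                nlinarith [H.r1]
              calc L * ‖chi (u i) - chi (u k)‖ ≤ L * (5 * τ) :=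
                    mul_le_mul_of_nonneg_left (le_trans h5 h6) hL
                _ = 5 * L * τ := by ring
          _ = (Sn u η r i : ℝ) * (5 * L * τ) := by
              rw [sum_const, nsmul_eq_mul]; rfl
          _ ≤ 5 * L * τ * n := by
              have h7 := Hd_Sn_le (u := u) (η := η) (r := r) i
              have h8 : 0 ≤ 5 * L * τ := by positivity
              nlinarith
      have e3 : wt u r ψ i * (P.T i - 1) - P.St (wt u r ψ) i =
          wt u r ψ i * ((Tn u η i : ℝ) - 1 - (Sn u η r i : ℝ)) -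
            (P.St (wt u r ψ) i - wt u r ψ i * (Sn u η r i : ℝ)) := by
        rw [hTT]; ring
      have b1 := Hd_wt_bd (u := u) (r := r) hφ i
      have b2 := Hd_wt_bd (u := u) (r := r) hψ i
      rw [abs_mul, abs_of_nonneg b1.1, e3]
      have e4 : |wt u r ψ i * ((Tn u η i : ℝ) - 1 - (Sn u η r i : ℝ)) -
            (P.St (wt u r ψ) i - wt u r ψ i * (Sn u η r i : ℝ))| ≤
          |(Tn u η i : ℝ) - 1 - (Sn u η r i : ℝ)| + 5 * L * τ * n := by
        refine le_trans (abs_sub _ _) ?_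
        apply add_le_add _ e1
        rw [abs_mul, abs_of_nonneg b2.1]
        exact mul_le_of_le_one_left (abs_nonneg _) b2.2
      refine le_trans (mul_le_of_le_one_left (abs_nonneg _) b1.2) (le_trans e4 ?_)
      by_cases hTy : i ∈ Ty
      · have h9 := hT i hTy h2 h0
        rw [if_neg (by simp [hTy])]
        linarith
      · rw [if_pos (by simp [hTy])]
        have h10 : |(Tn u η i : ℝ) - 1 - (Sn u η r i : ℝ)| ≤ 2 * n := by
          have h11 := Hd_card_lt H.cf (η := η) i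
          have h12 := Hd_Sn_le (u := u) (η := η) (r := r) i
          have h13 : (0 : ℝ) ≤ (Tn u η i : ℝ) := Nat.cast_nonneg _
          have h14 : (0 : ℝ) ≤ (Sn u η r i : ℝ) := Nat.cast_nonneg _
          rw [abs_le]
          constructor <;> linarith
        have h15 : 0 ≤ B * τ * n := by positivity
        linarith
  unfold Pl.Er
  refine le_trans (abs_sum_le_sum_abs _ _) (le_trans (sum_le_sum fun i _ => key i) ?_)
  rw [sum_add_distrib, sum_const, card_univ, Fintype.card_fin, nsmul_eq_mul, sum_ite_mem,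
    univ_inter, sum_const, nsmul_eq_mul]
  have h16 := H.ty
  nlinarith

/-- points with separated abscissas are near -/
private theorem Hd_nr {x y : V} (hx : dot x x = 1) (hy : dot y y = 1) {s g η r τ : ℝ} (hs : 0 < s)
    (hg : 0 < g) (hη : 0 < η) (hr1 : r ≤ τ * η) (hτ : 2 * τ ≤ s ^ 2 * g)
    (hx2 : |x 2| ≤ r) (hy2 : |y 2| ≤ r) (hx0 : s ≤ |x 0|) (hy0 : s ≤ |y 0|)
    (h : x 1 / x 0 + g ≤ y 1 / y 0) : nr η x y := by
  have hx00 : x 0 ≠ 0 := by
    intro h; rw [h, abs_zero] at hx0; linarith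
  have hy00 : y 0 ≠ 0 := by
    intro h; rw [h, abs_zero] at hy0; linarith
  have e1 : x 0 * y 1 - x 1 * y 0 = (x 0 * y 0) * (y 1 / y 0 - x 1 / x 0) := by
    field_simp
  have e2 : s ^ 2 * g ≤ |x 0 * y 1 - x 1 * y 0| := by
    rw [e1, abs_mul, abs_mul]
    have h3 : g ≤ |y 1 / y 0 - x 1 / x 0| := le_trans (by linarith) (le_abs_self _)
    have h4 : s ^ 2 ≤ |x 0| * |y 0| := by
      rw [pow_two]
      exact mul_le_mul hx0 hy0 hs.le (abs_nonneg _)
    exact mul_le_mul h4 h3 hg.le (by positivity)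
  have hpos : 0 < s ^ 2 * g := by positivity
  have ax : |x 0| ≤ 1 := by
    rw [dot] at hx
    rw [abs_le_one_iff_mul_self_le_one]
    nlinarith [mul_self_nonneg (x 1), mul_self_nonneg (x 2)]
  have ay : |y 0| ≤ 1 := by
    rw [dot] at hy
    rw [abs_le_one_iff_mul_self_le_one]
    nlinarith [mul_self_nonneg (y 1), mul_self_nonneg (y 2)]
  refine ⟨?_, ?_⟩
  · intro h0
    rw [h0, abs_zero] at e2
    linarith
  · have e3 : |x 2 * y 0 - x 0 * y 2| ≤ 2 * r := by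
      refine le_trans (abs_sub _ _) ?_
      rw [abs_mul, abs_mul]
      have h5 : |x 2| * |y 0| ≤ r * 1 :=
        mul_le_mul hx2 ay (abs_nonneg _) (le_trans (abs_nonneg _) hx2)
      have h6 : |x 0| * |y 2| ≤ 1 * r := mul_le_mul ax hy2 (abs_nonneg _) zero_le_one
      linarith
    calc |x 2 * y 0 - x 0 * y 2| ≤ 2 * r := e3
      _ ≤ 2 * (τ * η) := by linarith
      _ ≤ η * (s ^ 2 * g) := by nlinarith
      _ ≤ η * |x 0 * y 1 - x 1 * y 0| := mul_le_mul_of_nonneg_left e2 hη.le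

private theorem Hd_M0 {P : Pl n} {f f' : Fin n → ℝ}
    (h : ∀ i j, f i ≠ 0 → f' j ≠ 0 → P.nr i j) : P.M f f' = 0 := by
  classical
  unfold Pl.M
  apply sum_eq_zero
  intro i _
  apply sum_eq_zero
  intro j _
  by_cases hi : f i = 0
  · rw [hi]; simp
  by_cases hj : f' j = 0
  · rw [hj]; simp
  rw [if_neg]
  intro hst
  exact hst.2 (h i j hi hj)

open Classical in
theorem hd (s g γ c L κ : ℝ) (hs : 0 < s) (hs1 : s ≤ 1) (hg : 0 < g) (hγ : 0 < γ) (hc : 0 < c)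
    (hL : 0 ≤ L) (hκ : 0 < κ) : ∃ τ₀ : ℝ, 0 < τ₀ ∧
    ∀ (n : ℕ) (u : Fin n → V) (η r τ : ℝ) (Ty : Finset (Fin n)), τ ≤ τ₀ → Hyp u s η r τ Ty →
    ∀ ψ : Fin 3 → ℂ → ℝ, (∀ a z, 0 ≤ ψ a z ∧ ψ a z ≤ 1) →
    (∀ a z w, |ψ a z - ψ a w| ≤ L * ‖z - w‖) →
    (∀ a i, wt u r (ψ a) i ≠ 0 → s ≤ |u i 0|) →
    (∀ a, γ * n ≤ ∑ i, wt u r (ψ a) i) →
    (∀ i j, wt u r (ψ 0) i ≠ 0 → wt u r (ψ 1) j ≠ 0 → u i 1 / u i 0 + g ≤ u j 1 / u j 0) →
    (∀ i j, wt u r (ψ 1) i ≠ 0 → wt u r (ψ 2) j ≠ 0 → u i 1 / u i 0 + g ≤ u j 1 / u j 0) →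
    (∃ i ∈ Ty, ∃ j ∈ Ty, |u i 2| ≤ r ∧ s ≤ |u i 0| ∧ |u j 2| ≤ r ∧ s ≤ |u j 0| ∧
      c ≤ |(chi (u i) * (starRingEnd ℂ) (chi (u j))).im|) →
    (∑ i, ∑ j, if i ≠ j ∧ ¬ nr η (u i) (u j) then wt u r (ψ 0) i * wt u r (ψ 0) j else 0) ≤
        κ * (n : ℝ) ^ 2 ∧
      ∀ i ∈ Ty, |u i 2| ≤ r → s ≤ |u i 0| → (Tn u η i : ℝ) ≤ (Sn u η r i : ℝ) + κ * n := by
  obtain ⟨σ, hσ, hord⟩ := ord γ κ hγ hκ
  set B : ℝ := 2 * (7 + 80 / s) * (1 + 2 / c) with hBdef
  have hB : 0 ≤ B := by rw [hBdef]; positivity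
  set τ₀ : ℝ := min (κ / (1 + B)) (min (σ / (B + 5 * L + 2)) (s ^ 2 * g / 2)) with hτ₀
  have p1 : 0 < 1 + B := by linarith
  have p2 : 0 < B + 5 * L + 2 := by linarith
  refine ⟨τ₀, ?_, ?_⟩
  · rw [hτ₀]
    refine lt_min (by positivity) (lt_min (by positivity) (by positivity))
  intro n u η r τ Ty hττ H ψ hψ hψL hψs hψm h01 h12 hpair
  have t1 : τ * (1 + B) ≤ κ := by
    have := le_trans hττ (min_le_left _ _)
    rwa [le_div_iff₀ p1] at this
  have t2 : (B + 5 * L + 2) * τ ≤ σ := by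
    have := le_trans hττ (le_trans (min_le_right _ _) (min_le_left _ _))
    rw [le_div_iff₀ p2] at this
    linarith
  have t3 : 2 * τ ≤ s ^ 2 * g := by
    have := le_trans hττ (le_trans (min_le_right _ _) (min_le_right _ _))
    linarith
  have hτ : 0 < τ := lt_of_lt_of_le H.η0 H.η1
  have hn : (0 : ℝ) ≤ n := Nat.cast_nonneg n
  have hn1 : (1 : ℝ) ≤ n := by
    have := H.big
    have h3 := H.τ1
    nlinarith
  have hn0 : 0 < n := by
    have : (0 : ℝ) < n := by linarith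
    exact_mod_cast this
  obtain ⟨i₀, hi₀, j₀, hj₀, a1, a2, a3, a4, a5⟩ := hpair
  have hZ := zsmall H hi₀ a1 a2 hj₀ a3 a4 hc a5
  have hT : ∀ i ∈ Ty, |u i 2| ≤ r → s ≤ |u i 0| →
      |(Tn u η i : ℝ) - 1 - (Sn u η r i : ℝ)| ≤ B * τ * n := by
    intro i hi h2 h0
    refine le_trans (tsn H hi h2 h0) ?_
    calc 2 * ((7 + 80 / s) * τ * n + ‖Zs u r‖)
        ≤ 2 * ((7 + 80 / s) * τ * n + 2 * (7 + 80 / s) * τ * n / c) := by linarith
      _ = B * τ * n := by rw [hBdef]; ring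
  refine ⟨?_, ?_⟩
  · set S : Finset (Fin n) := univ.filter (fun i => |u i 2| ≤ r ∧ s ≤ |u i 0|) with hS
    have hS0 : ∀ i ∈ S, u i 0 ≠ 0 := by
      intro i hi h
      rw [hS, mem_filter] at hi
      have := hi.2.2
      rw [h, abs_zero] at this
      linarith
    obtain ⟨P, hPS, hPX, hPY, hPη, hPD⟩ := toPl H.cf H.η0 S hS0
    have hW : ∀ a, P.Wt (wt u r (ψ a)) := by
      intro a
      refine ⟨fun i => (Hd_wt_bd (hψ a) i).1, fun i => (Hd_wt_bd (hψ a) i).2, ?_⟩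
      intro i hi
      rw [hPS, hS, mem_filter]
      exact ⟨mem_univ _, Hd_wt_sup hi, hψs a i hi⟩
    have hEr : ∀ a b, |P.Er (wt u r (ψ a)) (wt u r (ψ b))| ≤ σ * (n : ℝ) ^ 2 := by
      intro a b
      refine le_trans (Hd_Er H hL hB hPX hPY hPη hPD hT (hψ a) (hψ b) (hψL b) (hψs a) (hψs b)) ?_
      exact mul_le_mul_of_nonneg_right t2 (by positivity)
    have hne : ∀ a i, wt u r (ψ a) i ≠ 0 → u i 0 ≠ 0 := by
      intro a i hi h
      have := hψs a i hi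
      rw [h, abs_zero] at this
      linarith
    have hX : ∀ a b, (∀ i j, wt u r (ψ a) i ≠ 0 → wt u r (ψ b) j ≠ 0 →
        u i 1 / u i 0 + g ≤ u j 1 / u j 0) →
        ∀ i j, wt u r (ψ a) i ≠ 0 → wt u r (ψ b) j ≠ 0 → P.X i < P.X j := by
      intro a b h i j hi hj
      have := h i j hi hj
      rw [hPX]
      show u i 1 / u i 0 < u j 1 / u j 0
      linarith
    have hM : ∀ a b, (∀ i j, wt u r (ψ a) i ≠ 0 → wt u r (ψ b) j ≠ 0 →
        u i 1 / u i 0 + g ≤ u j 1 / u j 0) →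
        P.M (wt u r (ψ a)) (wt u r (ψ b)) ≤ σ * (n : ℝ) ^ 2 := by
      intro a b h
      rw [Hd_M0]
      · positivity
      · intro i j hi hj
        rw [pl_nr hPX hPY hPη (hne a i hi) (hne b j hj)]
        exact Hd_nr (H.cf.unit i) (H.cf.unit j) hs hg H.η0 H.r1 t3 (Hd_wt_sup hi) (Hd_wt_sup hj)
          (hψs a i hi) (hψs b j hj) (h i j hi hj)
    have hfin := hord n P hn0 (wt u r (ψ 0)) (wt u r (ψ 1)) (wt u r (ψ 2)) (hW 0) (hW 1) (hW 2)
      (hX 0 1 h01) (hX 1 2 h12) (hψm 0) (hψm 1) (hψm 2) (hM 0 1 h01) (hM 1 2 h12)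
      (hEr 0 0) (hEr 0 2) (hEr 2 2) (hEr 1 1) (hEr 1 2)
    refine le_trans (le_of_eq ?_) hfin
    unfold Pl.M
    apply sum_congr rfl
    intro i _
    apply sum_congr rfl
    intro j _
    by_cases hi : wt u r (ψ 0) i = 0
    · rw [hi]; simp
    by_cases hj : wt u r (ψ 0) j = 0
    · rw [hj]; simp
    have h3 : P.st i j ↔ (i ≠ j ∧ ¬ nr η (u i) (u j)) := by
      unfold Pl.st
      rw [pl_nr hPX hPY hPη (hne 0 i hi) (hne 0 j hj)]
    by_cases h4 : P.st i j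
    · rw [if_pos h4, if_pos (h3.1 h4)]
    · rw [if_neg h4, if_neg (fun h => h4 (h3.2 h))]
  · intro i hi h2 h0
    have h3 := hT i hi h2 h0
    have h4 := H.big
    have h5 := (abs_le.1 h3).2
    have h6 : τ * (1 + B) * n ≤ κ * n := mul_le_mul_of_nonneg_right t1 hn
    nlinarith

end H52.Dir
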