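import Pool.Agent.H52.Dir.HdC

/-!
# Module HdB (150 lines): the balance equation at a typical point of the strip

`Zs u r = Σ chi (u k)` over the strip `|u k 2| ≤ r`; `Sn u η r i` = number of points of the strip steep
to `i`; `Tn u η i` = number of lines of `Dl u η` through `i`.

PROOF of `bal`. `ρ = 2 (η + r) / s`. `r ≤ η` (as `τ ≤ 1`), so `ρ ≤ 4 η / s ≤ 4 τ / s`.
(1) `‖Σ_{l ∈ Dl, i ∈ l} Σ_{k ∈ l} chi (u k)‖ ≤ Σ_{l ∈ thr u i} (s u l + 10 ρ |l|) ≤ τ n + 20 ρ n ≤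
τ n + 80 τ n / s` (`chi_sum`, `sum_card_thr`, `thr_card_le`).
(2) The double sum is `Tn chi (u i) + Σ_{k near i} chi (u k)` (`k ≠ i`, `nr η (u i) (u k)`: such a `k` is on
exactly one line of `Dl` through `i`, namely `ln u i k`, `nr_line`; conversely the points of such a
line are near `i`).
(3) The near points `k` are in the strip `|u k 2| ≤ ρ` (`strip`), so
`Σ_{k near i} chi (u k) = Σ_{near, |u k 2| ≤ r} + (at most τ n terms of norm ≤ 1)` (`stp`), and
`Σ_{near, |u k 2| ≤ r} chi (u k) = Zs - chi (u i) - Σ_{steep, |u k 2| ≤ r} chi (u k)`, and each term of the last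
sum is within `5 r / η ≤ 5 τ` of `chi (u i)` (`chi_near`).
Total error `τ n + 80 τ n / s + τ n + 5 τ n`.
`zsmall`: `Im (a conj b) z = a Im (z conj b) - b Im (z conj a)` for complex `a, b, z` (expand) with
`a = chi (u i)`, `b = chi (u j)`, `z = Zs`; `Zs = a t + E` with `t` real gives
`|Im (Zs conj a)| = |Im (E conj a)| ≤ ‖E‖`; same for `b`.
`tsn`: `‖chi (u i)‖ ≥ 1/2` (`chi_norm`, `r ≤ 1/2`).
-/

set_option autoImplicit false

namespace H52.Dir

open Finset

variable {n : ℕ}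

open Classical in
noncomputable def Zs (u : Fin n → V) (r : ℝ) : ℂ :=
  ∑ k ∈ univ.filter (fun k => |u k 2| ≤ r), chi (u k)

open Classical in
noncomputable def Sn (u : Fin n → V) (η r : ℝ) (i : Fin n) : ℕ :=
  (univ.filter (fun k => |u k 2| ≤ r ∧ k ≠ i ∧ ¬ nr η (u i) (u k))).card

noncomputable def Tn (u : Fin n → V) (η : ℝ) (i : Fin n) : ℕ :=
  ((Dl u η).filter (fun l => i ∈ l)).card

open Classical in
structure Hyp (u : Fin n → V) (s η r τ : ℝ) (Ty : Finset (Fin n)) : Prop where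
  cf : Cf u
  s0 : 0 < s
  s1 : s ≤ 1
  η0 : 0 < η
  η1 : η ≤ τ
  r0 : 0 < r
  r1 : r ≤ τ * η
  τ1 : τ ≤ 1 / 2
  ty : (((univ : Finset (Fin n)) \ Ty).card : ℝ) ≤ τ * n
  sm : ∀ i ∈ Ty, ∑ l ∈ thr u i, H52.Dir.s u l ≤ τ * n
  big : 1 ≤ τ * n
  stp : ((univ.filter (fun k : Fin n => r < |u k 2| ∧ |u k 2| ≤ 2 * (η + r) / s)).card : ℝ) ≤ τ * n

private theorem HdB_unit {u : Fin n → V} (h : Cf u) (k : Fin n) : ‖chi (u k)‖ ≤ 1 := by
  rw [chi_norm (h.unit k)]
  nlinarith [sq_nonneg (u k 2)]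

open Classical in
/-- the points near to `i` are the points of the lines of `Dl` through `i` -/
private theorem HdB_near {u : Fin n → V} (h : Cf u) {η : ℝ} (i : Fin n) :
    ∑ l ∈ (Dl u η).filter (fun l => i ∈ l), ∑ k ∈ l, chi (u k) =
      (Tn u η i : ℂ) * chi (u i) +
        ∑ k ∈ univ.filter (fun k => k ≠ i ∧ nr η (u i) (u k)), chi (u k) := by
  have h1 : ∀ l ∈ (Dl u η).filter (fun l => i ∈ l), ∑ k ∈ l, chi (u k) =
      chi (u i) + ∑ k ∈ l.erase i, chi (u k) := by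
    intro l hl
    rw [add_sum_erase _ (fun k => chi (u k)) (mem_filter.1 hl).2]
  rw [sum_congr rfl h1, sum_add_distrib, sum_const, nsmul_eq_mul]
  congr 1
  rw [← Finset.sum_biUnion]
  · apply sum_congr _ (fun _ _ => rfl)
    ext k
    simp only [mem_biUnion, mem_erase, mem_filter, mem_univ, true_and]
    constructor
    · rintro ⟨l, ⟨hl, hil⟩, hki, hkl⟩
      unfold Dl at hl
      rw [mem_filter] at hl
      exact ⟨hki, hl.2 i hil k hkl (Ne.symm hki)⟩
    · rintro ⟨hki, hn⟩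
      exact ⟨ln u i k, ⟨nr_line h (ln_mem u (Ne.symm hki)) (ln_left u i k) (ln_right u i k)
        (Ne.symm hki) hn, ln_left u i k⟩, hki, ln_right u i k⟩
  · intro l hl l' hl' hne
    rw [mem_coe, mem_filter] at hl hl'
    rw [Function.onFun, disjoint_left]
    intro k hk hk'
    rw [mem_erase] at hk hk'
    have e1 := (mem_filter.1 hl.1).1
    have e2 := (mem_filter.1 hl'.1).1
    exact hne (uniq h e1 e2 (Ne.symm hk.1) hl.2 hk.2 hl'.2 hk'.2)

open Classical in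
private theorem HdB_strip {u : Fin n → V} (r : ℝ) {η : ℝ} (i : Fin n) (h2 : |u i 2| ≤ r) :
    Zs u r = chi (u i) +
      ∑ k ∈ univ.filter (fun k => |u k 2| ≤ r ∧ k ≠ i ∧ nr η (u i) (u k)), chi (u k) +
      ∑ k ∈ univ.filter (fun k => |u k 2| ≤ r ∧ k ≠ i ∧ ¬ nr η (u i) (u k)), chi (u k) := by
  unfold Zs
  have hi : i ∈ univ.filter (fun k => |u k 2| ≤ r) := by
    rw [mem_filter]; exact ⟨mem_univ _, h2⟩
  rw [← add_sum_erase _ _ hi, add_assoc]
  congr 1
  rw [← sum_filter_add_sum_filter_not _ (fun k => nr η (u i) (u k))]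
  congr 1
  · apply sum_congr _ (fun _ _ => rfl)
    ext k
    simp only [mem_filter, mem_erase, mem_univ, true_and]
    tauto
  · apply sum_congr _ (fun _ _ => rfl)
    ext k
    simp only [mem_filter, mem_erase, mem_univ, true_and]
    tauto

theorem bal {u : Fin n → V} {s η r τ : ℝ} {Ty : Finset (Fin n)} (H : Hyp u s η r τ Ty) {i : Fin n}
    (hi : i ∈ Ty) (h2 : |u i 2| ≤ r) (h0 : s ≤ |u i 0|) :
    ‖Zs u r - chi (u i) * (((Sn u η r i : ℝ) + 1 - (Tn u η i : ℝ) : ℝ) : ℂ)‖ ≤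
      (7 + 80 / s) * τ * n := by
  classical
  have hτ : 0 < τ := lt_of_lt_of_le H.η0 H.η1
  have hn : (0 : ℝ) ≤ n := Nat.cast_nonneg n
  have hητ : r ≤ η / 2 := by
    have := H.r1
    have h3 := H.τ1
    nlinarith [H.η0]
  have hη1 : η ≤ 1 / 2 := le_trans H.η1 H.τ1
  have hr1 : r ≤ 1 := by linarith
  set ρ : ℝ := 2 * (η + r) / s with hρ
  have hρ0 : 0 ≤ ρ := by
    rw [hρ]
    exact div_nonneg (by linarith [H.η0, H.r0]) H.s0.le
  have hρ1 : ρ ≤ 4 * τ / s := by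
    rw [hρ]
    apply div_le_div_of_nonneg_right _ H.s0.le
    linarith [H.η1]
  -- (1)
  have e1 : ‖∑ l ∈ (Dl u η).filter (fun l => i ∈ l), ∑ k ∈ l, chi (u k)‖ ≤
      τ * n + 20 * ρ * n := by
    calc ‖∑ l ∈ (Dl u η).filter (fun l => i ∈ l), ∑ k ∈ l, chi (u k)‖
        ≤ ∑ l ∈ (Dl u η).filter (fun l => i ∈ l), ‖∑ k ∈ l, chi (u k)‖ := norm_sum_le _ _
      _ ≤ ∑ l ∈ (Dl u η).filter (fun l => i ∈ l), (H52.Dir.s u l + 10 * ρ * l.card) := by
          apply sum_le_sum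
          intro l hl
          rw [mem_filter] at hl
          exact chi_sum H.cf H.η0 H.r0.le H.s0 H.s1 hl.1 hl.2 h2 h0
      _ ≤ ∑ l ∈ thr u i, (H52.Dir.s u l + 10 * ρ * l.card) := by
          apply sum_le_sum_of_subset_of_nonneg
          · intro l hl
            rw [mem_filter] at hl
            exact mem_thr.2 ⟨(mem_filter.1 hl.1).1, hl.2⟩
          · intro l _ _
            have : 0 ≤ H52.Dir.s u l := Real.sqrt_nonneg _
            positivity
      _ ≤ τ * n + 20 * ρ * n := by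
          rw [sum_add_distrib, ← mul_sum, sum_card_thr H.cf i]
          have h4 := H.sm i hi
          have h5 := thr_card_le H.cf i
          nlinarith
  -- (3)
  set A := univ.filter (fun k : Fin n => k ≠ i ∧ nr η (u i) (u k)) with hA
  set A1 := univ.filter (fun k : Fin n => |u k 2| ≤ r ∧ k ≠ i ∧ nr η (u i) (u k)) with hA1
  set A2 := univ.filter (fun k : Fin n => |u k 2| ≤ r ∧ k ≠ i ∧ ¬ nr η (u i) (u k)) with hA2
  set A3 := A.filter (fun k : Fin n => ¬ |u k 2| ≤ r) with hA3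
  have e2 : ∑ k ∈ A, chi (u k) = ∑ k ∈ A1, chi (u k) + ∑ k ∈ A3, chi (u k) := by
    rw [← sum_filter_add_sum_filter_not A (fun k => |u k 2| ≤ r)]
    congr 1
    apply sum_congr _ (fun _ _ => rfl)
    ext k
    simp only [hA, hA1, mem_filter, mem_univ, true_and]
    tauto
  have e3 : ‖∑ k ∈ A3, chi (u k)‖ ≤ τ * n := by
    calc ‖∑ k ∈ A3, chi (u k)‖ ≤ ∑ k ∈ A3, ‖chi (u k)‖ := norm_sum_le _ _
      _ ≤ ∑ k ∈ A3, (1 : ℝ) := sum_le_sum fun k _ => HdB_unit H.cf k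
      _ = (A3.card : ℝ) := by simp
      _ ≤ ((univ.filter (fun k : Fin n => r < |u k 2| ∧ |u k 2| ≤ 2 * (η + r) / s)).card : ℝ) := by
          norm_cast
          apply card_le_card
          intro k hk
          simp only [hA3, hA, mem_filter, mem_univ, true_and, not_le] at hk
          simp only [mem_filter, mem_univ, true_and]
          refine ⟨hk.2, strip (H.cf.unit i) (H.cf.unit k) H.η0 H.r0.le H.s0 H.s1 h2 h0 hk.1.2 ?_⟩
          rw [det_eq]; ring
      _ ≤ τ * n := H.stp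
  have e4 : ‖∑ k ∈ A2, (chi (u k) - chi (u i))‖ ≤ 5 * τ * n := by
    calc ‖∑ k ∈ A2, (chi (u k) - chi (u i))‖ ≤ ∑ k ∈ A2, ‖chi (u k) - chi (u i)‖ := norm_sum_le _ _
      _ ≤ ∑ k ∈ A2, (5 * τ : ℝ) := by
          apply sum_le_sum
          intro k hk
          simp only [hA2, mem_filter, mem_univ, true_and] at hk
          rw [norm_sub_rev]
          refine le_trans (chi_near (H.cf.unit i) (H.cf.unit k) H.η0 (by linarith) H.r0.le hr1 h2
            hk.1 hk.2.2) ?_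
          rw [div_le_iff₀ H.η0]
          nlinarith [H.r1]
      _ = 5 * τ * A2.card := by rw [sum_const, nsmul_eq_mul]; ring
      _ ≤ 5 * τ * n := by
          have : (A2.card : ℝ) ≤ n := by
            have h6 := card_le_univ A2
            rw [Fintype.card_fin] at h6
            exact_mod_cast h6
          nlinarith
  have e5 : ∑ k ∈ A2, (chi (u k) - chi (u i)) = ∑ k ∈ A2, chi (u k) -
      (Sn u η r i : ℂ) * chi (u i) := by
    rw [sum_sub_distrib, sum_const, nsmul_eq_mul]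
    rfl
  have e6 := HdB_near H.cf (η := η) i
  have e7 := HdB_strip r (η := η) i h2
  rw [← hA] at e6
  rw [← hA1, ← hA2] at e7
  have e8 : Zs u r - chi (u i) * (((Sn u η r i : ℝ) + 1 - (Tn u η i : ℝ) : ℝ) : ℂ) =
      ∑ l ∈ (Dl u η).filter (fun l => i ∈ l), ∑ k ∈ l, chi (u k) +
        ∑ k ∈ A2, (chi (u k) - chi (u i)) - ∑ k ∈ A3, chi (u k) := by
    rw [e6, e5, e2, e7]
    push_cast
    ring
  rw [e8]
  have e9 : 20 * ρ * n ≤ 80 / s * τ * n := by
    have : 20 * ρ ≤ 80 / s * τ := by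
      calc 20 * ρ ≤ 20 * (4 * τ / s) := by linarith
        _ = 80 / s * τ := by ring
    exact mul_le_mul_of_nonneg_right this hn
  calc ‖∑ l ∈ (Dl u η).filter (fun l => i ∈ l), ∑ k ∈ l, chi (u k) +
        ∑ k ∈ A2, (chi (u k) - chi (u i)) - ∑ k ∈ A3, chi (u k)‖
      ≤ ‖∑ l ∈ (Dl u η).filter (fun l => i ∈ l), ∑ k ∈ l, chi (u k)‖ +
        ‖∑ k ∈ A2, (chi (u k) - chi (u i))‖ + ‖∑ k ∈ A3, chi (u k)‖ :=
        le_trans (norm_sub_le _ _) (by gcongr; exact norm_add_le _ _)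
    _ ≤ (7 + 80 / s) * τ * n := by nlinarith

theorem zsmall {u : Fin n → V} {s η r τ : ℝ} {Ty : Finset (Fin n)} (H : Hyp u s η r τ Ty)
    {i j : Fin n} (hi : i ∈ Ty) (h2 : |u i 2| ≤ r) (h0 : s ≤ |u i 0|) (hj : j ∈ Ty)
    (h2' : |u j 2| ≤ r) (h0' : s ≤ |u j 0|) {c : ℝ} (hc : 0 < c)
    (hij : c ≤ |(chi (u i) * (starRingEnd ℂ) (chi (u j))).im|) :
    ‖Zs u r‖ ≤ 2 * (7 + 80 / s) * τ * n / c := by
  set a := chi (u i) with ha
  set b := chi (u j) with hb
  set z := Zs u r with hz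
  have key : ∀ (w : ℂ) (t : ℝ), ‖w‖ ≤ 1 → ‖z - w * (t : ℂ)‖ ≤ (7 + 80 / s) * τ * n →
      |(z * (starRingEnd ℂ) w).im| ≤ (7 + 80 / s) * τ * n := by
    intro w t hw h
    have h1 : (z * (starRingEnd ℂ) w).im = ((z - w * (t : ℂ)) * (starRingEnd ℂ) w).im := by
      simp only [Complex.mul_im, Complex.sub_re, Complex.sub_im, Complex.mul_re,
        Complex.ofReal_re, Complex.ofReal_im, Complex.conj_re, Complex.conj_im]
      ring
    rw [h1]
    refine le_trans (Complex.abs_im_le_norm _) ?_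
    rw [norm_mul, Complex.norm_conj]
    calc ‖z - w * (t : ℂ)‖ * ‖w‖ ≤ ‖z - w * (t : ℂ)‖ * 1 :=
          mul_le_mul_of_nonneg_left hw (norm_nonneg _)
      _ ≤ (7 + 80 / s) * τ * n := by rw [mul_one]; exact h
  have ka := key a _ (HdB_unit H.cf i) (bal H hi h2 h0)
  have kb := key b _ (HdB_unit H.cf j) (bal H hj h2' h0')
  have hid : (((a * (starRingEnd ℂ) b).im : ℝ) : ℂ) * z =
      a * (((z * (starRingEnd ℂ) b).im : ℝ) : ℂ) - b * (((z * (starRingEnd ℂ) a).im : ℝ) : ℂ) := by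
    apply Complex.ext
    · simp only [Complex.mul_im, Complex.sub_re, Complex.mul_re,
        Complex.ofReal_re, Complex.ofReal_im, Complex.conj_re, Complex.conj_im]
      ring
    · simp only [Complex.mul_im, Complex.sub_im,
        Complex.ofReal_re, Complex.ofReal_im, Complex.conj_re, Complex.conj_im]
      ring
  have h3 : |(a * (starRingEnd ℂ) b).im| * ‖z‖ ≤ 2 * ((7 + 80 / s) * τ * n) := by
    have h4 : |(a * (starRingEnd ℂ) b).im| * ‖z‖ =
        ‖(((a * (starRingEnd ℂ) b).im : ℝ) : ℂ) * z‖ := by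
      rw [norm_mul, Complex.norm_real, Real.norm_eq_abs]
    rw [h4, hid]
    refine le_trans (norm_sub_le _ _) ?_
    rw [norm_mul, norm_mul, Complex.norm_real, Complex.norm_real, Real.norm_eq_abs,
      Real.norm_eq_abs]
    have ua : ‖a‖ ≤ 1 := HdB_unit H.cf i
    have ub : ‖b‖ ≤ 1 := HdB_unit H.cf j
    have h5 : ‖a‖ * |(z * (starRingEnd ℂ) b).im| ≤ 1 * ((7 + 80 / s) * τ * n) :=
      mul_le_mul ua kb (abs_nonneg _) zero_le_one
    have h6 : ‖b‖ * |(z * (starRingEnd ℂ) a).im| ≤ 1 * ((7 + 80 / s) * τ * n) :=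
      mul_le_mul ub ka (abs_nonneg _) zero_le_one
    linarith
  rw [le_div_iff₀ hc]
  have h7 : ‖z‖ * c ≤ |(a * (starRingEnd ℂ) b).im| * ‖z‖ := by
    rw [mul_comm]
    exact mul_le_mul_of_nonneg_right hij (norm_nonneg _)
  linarith

theorem tsn {u : Fin n → V} {s η r τ : ℝ} {Ty : Finset (Fin n)} (H : Hyp u s η r τ Ty)
    {i : Fin n} (hi : i ∈ Ty) (h2 : |u i 2| ≤ r) (h0 : s ≤ |u i 0|) :
    |(Tn u η i : ℝ) - 1 - (Sn u η r i : ℝ)| ≤ 2 * ((7 + 80 / s) * τ * n + ‖Zs u r‖) := by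
  have h1 := bal H hi h2 h0
  have hη1 : η ≤ 1 / 2 := le_trans H.η1 H.τ1
  have hr : r ≤ 1 / 2 := by
    have h3 := H.r1
    have h4 := H.τ1
    nlinarith [H.η0]
  have h5 : 1 / 2 ≤ ‖chi (u i)‖ := by
    rw [chi_norm (H.cf.unit i)]
    have h6 : (u i 2) ^ 2 ≤ (1 / 2) ^ 2 := by
      rw [← sq_abs (u i 2)]
      exact pow_le_pow_left₀ (abs_nonneg _) (le_trans h2 hr) 2
    linarith
  set t : ℝ := (Sn u η r i : ℝ) + 1 - (Tn u η i : ℝ) with ht
  have h7 : ‖chi (u i) * (t : ℂ)‖ ≤ (7 + 80 / s) * τ * n + ‖Zs u r‖ := by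
    have h8 : chi (u i) * (t : ℂ) = Zs u r - (Zs u r - chi (u i) * (t : ℂ)) := by ring
    rw [h8]
    refine le_trans (norm_sub_le _ _) ?_
    linarith
  rw [norm_mul, Complex.norm_real, Real.norm_eq_abs] at h7
  have h9 : |(Tn u η i : ℝ) - 1 - (Sn u η r i : ℝ)| = |t| := by
    rw [← abs_neg, ht]; congr 1; ring
  rw [h9]
  have h10 : 1 / 2 * |t| ≤ ‖chi (u i)‖ * |t| := mul_le_mul_of_nonneg_right h5 (abs_nonneg _)
  linarith

end H52.Dir
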