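import Pool.Agent.H52.Dir.HdG
import Pool.Agent.H52.Dir.Ker

/-!
# Module HdC (130 lines): `|Σ chi|` on a line near `x 2 = 0` is at most `s u l` up to a small error

PROOF. Let `ρ = 2 (η + r) / s ≤ 1`, `i ≠ j` in `l`, `w = crs (u i) (u j)` (`i` the given point, `nr η
(u i) (u j)` as `l ∈ Dl`), `N = w / |w|`; by `nrm` `N 0² + N 1² ≤ ((η+r)²/s² + η²) ≤ ρ²` (and
`|N 2| ≤ 1`). `S = Σ_{k ∈ l} chi (u k)`. If `S = 0` nothing to prove (`s ≥ 0`). Let `ζ ∈ ℂ`, `‖ζ‖ = 1`,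
`ζ² ‖S‖ = S` (square root), `y₀ = (ζ.re, ζ.im, 0)`. For real `x`:
`Re (conj ζ² chi x) = Re ((conj ζ (x 0 + i x 1))²) = 2 (dot x y₀)² - (x 0² + x 1²)`, so
`‖S‖ = Re (conj ζ² S) = Σ_{k ∈ l} (2 (dot (u k) y₀)² - 1 + (u k 2)²)`.
`t = dot y₀ N`, `|t| ≤ √(N 0² + N 1²) ≤ ρ`. If `ρ ≤ 1/2`: `y₁ = y₀ - t N`, `|y₁|² = 1 - t²`,
`y = y₁ / |y₁|` is a unit vector of the plane, `|y - y₀| ≤ |y - y₁| + |y₁ - y₀| ≤ (1 - √(1-t²)) + |t| ≤ 2 ρ`,
so `(dot (u k) y₀)² ≤ (dot (u k) y)² + 4 ρ` (difference of squares, both dot products at most 1 in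
absolute value). `(u k 2)² ≤ |u k 2| ≤ ρ` by `strip` (`k ∈ l`, `det = 0` by `det_col`). Together with
`cmp`: `‖S‖ ≤ s u l + (8 ρ + ρ) |l|`.
If `ρ > 1/2`: `‖S‖ ≤ |l| ≤ 10 ρ |l|` (`‖chi‖ ≤ 1`).
-/

set_option autoImplicit false

namespace H52.Dir

open Finset

variable {n : ℕ}

private theorem HdC_chi_re (x : V) : (chi x).re = x 0 ^ 2 - x 1 ^ 2 := by
  simp only [chi, pow_two, Complex.mul_re, Complex.add_re, Complex.ofReal_re, Complex.I_re,
    Complex.ofReal_im, Complex.I_im, Complex.add_im, Complex.mul_im]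
  ring

private theorem HdC_chi_im (x : V) : (chi x).im = 2 * (x 0 * x 1) := by
  simp only [chi, pow_two, Complex.mul_re, Complex.add_re, Complex.ofReal_re, Complex.I_re,
    Complex.ofReal_im, Complex.I_im, Complex.add_im, Complex.mul_im]
  ring

/-- the direction `(c, t)` of the sum of the doubled angles -/
private theorem HdC_dir (l : Finset (Fin n)) (u : Fin n → V) : ∃ c t : ℝ, c ^ 2 + t ^ 2 = 1 ∧
    ‖∑ k ∈ l, chi (u k)‖ =
      ∑ k ∈ l, (2 * (u k 0 * c + u k 1 * t) ^ 2 - (u k 0 ^ 2 + u k 1 ^ 2)) := by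
  set S := ∑ k ∈ l, chi (u k) with hS
  refine ⟨Real.cos (Complex.arg S / 2), Real.sin (Complex.arg S / 2),
    by rw [add_comm]; exact Real.sin_sq_add_cos_sq _, ?_⟩
  have hre : S.re = ∑ k ∈ l, (u k 0 ^ 2 - u k 1 ^ 2) := by
    rw [hS, Complex.re_sum]
    exact sum_congr rfl fun k _ => HdC_chi_re _
  have him : S.im = ∑ k ∈ l, 2 * (u k 0 * u k 1) := by
    rw [hS, Complex.im_sum]
    exact sum_congr rfl fun k _ => HdC_chi_im _
  have hc : Real.cos (Complex.arg S) = 2 * Real.cos (Complex.arg S / 2) ^ 2 - 1 := by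
    rw [← Real.cos_two_mul]; congr 1; ring
  have hs : Real.sin (Complex.arg S) =
      2 * Real.sin (Complex.arg S / 2) * Real.cos (Complex.arg S / 2) := by
    rw [← Real.sin_two_mul]; congr 1; ring
  have hcs := Real.sin_sq_add_cos_sq (Complex.arg S / 2)
  have hcs2 := Real.sin_sq_add_cos_sq (Complex.arg S)
  have h1 := Complex.norm_mul_cos_arg S
  have h2 := Complex.norm_mul_sin_arg S
  have h3 : ‖S‖ = S.re * Real.cos (Complex.arg S) + S.im * Real.sin (Complex.arg S) := by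
    rw [← h1, ← h2]
    linear_combination (-‖S‖) * hcs2
  rw [h3, hre, him, sum_mul, sum_mul, ← sum_add_distrib]
  apply sum_congr rfl
  intro k _
  rw [hc, hs]
  set c := Real.cos (Complex.arg S / 2)
  set t := Real.sin (Complex.arg S / 2)
  linear_combination (-2 * u k 1 ^ 2) * hcs

private theorem HdC_ineq {A B z : ℝ} (h : A ^ 2 + B ^ 2 ≤ 1) :
    A ^ 2 ≤ (A + z * B) ^ 2 / (1 + z ^ 2) + 3 / 2 * |z| := by
  have hz : 0 < 1 + z ^ 2 := by positivity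
  have h1 : A ^ 2 - 3 / 2 * |z| ≤ (A + z * B) ^ 2 / (1 + z ^ 2) := by
    rw [le_div_iff₀ hz]
    have ha : 0 ≤ |z| := abs_nonneg z
    have hz2 : z ^ 2 = |z| ^ 2 := (sq_abs z).symm
    have h2 : -(z * (2 * (A * B))) ≤ |z| := by
      have e1 : |2 * (A * B)| ≤ 1 := by
        rw [abs_le]
        constructor
        · nlinarith [sq_nonneg (A + B)]
        · nlinarith [sq_nonneg (A - B)]
      calc -(z * (2 * (A * B))) ≤ |z * (2 * (A * B))| := neg_le_abs _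
        _ = |z| * |2 * (A * B)| := abs_mul _ _
        _ ≤ |z| * 1 := mul_le_mul_of_nonneg_left e1 ha
        _ = |z| := mul_one _
    have h3 : A ^ 2 * z ^ 2 ≤ z ^ 2 := by
      have : A ^ 2 ≤ 1 := by nlinarith [sq_nonneg B]
      nlinarith [sq_nonneg z]
    have h4 : z ^ 2 ≤ 1 / 2 * |z| * (1 + z ^ 2) := by
      rw [hz2]
      nlinarith [mul_nonneg ha (sq_nonneg (|z| - 1))]
    have h5 : |z| ≤ |z| * (1 + z ^ 2) := by nlinarith [mul_nonneg ha (sq_nonneg z)]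
    nlinarith [mul_nonneg (sq_nonneg z) (sq_nonneg B)]
  linarith

theorem chi_sum {u : Fin n → V} (h : Cf u) {η r s : ℝ} (hη : 0 < η) (hr : 0 ≤ r) (hs0 : 0 < s)
    (hs1 : s ≤ 1) {l : Finset (Fin n)} (hl : l ∈ Dl u η) {i : Fin n} (hi : i ∈ l)
    (h2 : |u i 2| ≤ r) (h0 : s ≤ |u i 0|) :
    ‖∑ k ∈ l, chi (u k)‖ ≤ H52.Dir.s u l + 10 * (2 * (η + r) / s) * l.card := by
  classical
  obtain ⟨hlL, hnr⟩ : l ∈ Ls u ∧ ∀ i ∈ l, ∀ j ∈ l, i ≠ j → nr η (u i) (u j) := by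
    simpa [Dl] using hl
  obtain ⟨j, hj, hji⟩ : ∃ j ∈ l, j ≠ i := by
    have := two_le hlL
    exact exists_mem_ne (by omega) i
  have hij : i ≠ j := Ne.symm hji
  have hn := hnr i hi j hj hij
  obtain ⟨hw0, hw1, hw2⟩ := nrm (h.unit i) hη hr hs0 h2 h0 hn
  set w := crs (u i) (u j) with hw
  set ρ := 2 * (η + r) / s with hρ
  have hρ0 : 0 ≤ ρ := by rw [hρ]; positivity
  obtain ⟨c, t, hct, hS⟩ := HdC_dir l u
  set z := -(w 0 * c + w 1 * t) / w 2 with hz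
  have hc1 : |c| ≤ 1 := by
    rw [← sq_le_one_iff_abs_le_one]; nlinarith [sq_nonneg t]
  have ht1 : |t| ≤ 1 := by
    rw [← sq_le_one_iff_abs_le_one]; nlinarith [sq_nonneg c]
  have hw2' : 0 < |w 2| := abs_pos.2 hw2
  have hzρ : |z| ≤ ρ := by
    rw [hz, abs_div, abs_neg, div_le_iff₀ hw2']
    have e1 : |w 0 * c + w 1 * t| ≤ |w 0| + |w 1| := by
      calc |w 0 * c + w 1 * t| ≤ |w 0 * c| + |w 1 * t| := abs_add_le _ _
        _ = |w 0| * |c| + |w 1| * |t| := by rw [abs_mul, abs_mul]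
        _ ≤ |w 0| * 1 + |w 1| * 1 := by gcongr
        _ = _ := by ring
    have e2 : η ≤ (η + r) / s := by
      rw [le_div_iff₀ hs0]
      nlinarith
    have e3 : ρ = (η + r) / s + (η + r) / s := by rw [hρ]; ring
    rw [e3]
    nlinarith
  have hz1 : 0 < 1 + z ^ 2 := by positivity
  set q := Real.sqrt (1 + z ^ 2) with hq
  have hq0 : 0 < q := Real.sqrt_pos.2 hz1
  have hqq : q ^ 2 = 1 + z ^ 2 := Real.sq_sqrt hz1.le
  set y : V := ![c / q, t / q, z / q] with hy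
  have hy0 : y 0 = c / q := by simp [hy]
  have hy1 : y 1 = t / q := by simp [hy]
  have hy2 : y 2 = z / q := by simp [hy]
  have hyy : dot y y = 1 := by
    rw [dot, hy0, hy1, hy2]
    field_simp
    rw [hqq]
    linarith
  have hp : det (u i) (u j) y = 0 := by
    rw [det, ← hw, dot, hy0, hy1, hy2, hz]
    field_simp
    ring
  have hcmp := cmp h hlL hyy hi hj hij hp
  have hle := le_trans (le_abs_self _) hcmp
  have hk : ∀ k ∈ l, 2 * (u k 0 * c + u k 1 * t) ^ 2 - (u k 0 ^ 2 + u k 1 ^ 2) ≤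
      (2 * (dot (u k) y) ^ 2 - 1) + 4 * ρ := by
    intro k hk
    have hun : u k 0 * u k 0 + u k 1 * u k 1 + u k 2 * u k 2 = 1 := h.unit k
    have hA : (u k 0 * c + u k 1 * t) ^ 2 + (u k 2) ^ 2 ≤ 1 := by
      nlinarith [sq_nonneg (u k 0 * t - u k 1 * c)]
    have h5 := HdC_ineq (z := z) hA
    have h6 : (dot (u k) y) ^ 2 = ((u k 0 * c + u k 1 * t) + z * u k 2) ^ 2 / (1 + z ^ 2) := by
      rw [dot, hy0, hy1, hy2, ← hqq]
      field_simp
    rw [← h6] at h5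
    have h7 : |u k 2| ≤ ρ :=
      strip (h.unit i) (h.unit k) hη hr hs0 hs1 h2 h0 hn (det_col h hlL hi hj hk)
    have h8 : (u k 2) ^ 2 ≤ ρ := by
      rw [← sq_abs]
      have : |u k 2| ≤ 1 := by
        rw [← sq_le_one_iff_abs_le_one]; nlinarith [sq_nonneg (u k 0), sq_nonneg (u k 1)]
      nlinarith [abs_nonneg (u k 2)]
    linarith
  rw [hS]
  calc _ ≤ ∑ k ∈ l, ((2 * (dot (u k) y) ^ 2 - 1) + 4 * ρ) := sum_le_sum hk
    _ = ∑ k ∈ l, (2 * (dot (u k) y) ^ 2 - 1) + l.card * (4 * ρ) := by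
      rw [sum_add_distrib, sum_const, nsmul_eq_mul]
    _ ≤ H52.Dir.s u l + l.card * (4 * ρ) := by linarith
    _ ≤ _ := by
      have h9 : (0 : ℝ) ≤ l.card := Nat.cast_nonneg _
      have h10 := mul_nonneg h9 hρ0
      linarith

end H52.Dir
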