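import Pool.Agent.H52.Dir.ToPl

/-!
# Module HdG (130 lines): geometry near the great circle `x 2 = 0`

`chi x = (x 0 + i x 1)²`: the doubled angle of the projection of `x` to the plane `x 2 = 0`.

PROOFS. `chi_near`: `‖chi x - chi y‖² = (|x'|² - |y'|²)² + 4 (x 0 y 1 - x 1 y 0)²` for
`x' = (x 0, x 1)` (expand), `|x'|² - |y'|² = y 2² - x 2²`, so the first term is `≤ r⁴`; not near:
`x 0 y 1 - x 1 y 0 = 0` or `η |x 0 y 1 - x 1 y 0| < |x 2 y 0 - x 0 y 2| ≤ 2 r`. Total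
`≤ r⁴ + 16 r² / η² ≤ 25 r² / η²` (`r, η ≤ 1`).
`nrm`: `w = crs x y`, `dot w x = 0`: `|w 0| |x 0| ≤ |w 1| |x 1| + |w 2| |x 2| ≤ (η + r) |w 2|`, so
`|w 0| ≤ (η + r) / s |w 2|`, `|w 1| ≤ η |w 2|`.
`strip`: `dot w z = 0`: `|z 2| |w 2| ≤ |w 0| |z 0| + |w 1| |z 1| ≤ ((η + r)/s + η) |w 2| ≤ 2 (η + r) / s |w 2|`
(`s ≤ 1`), `w 2 ≠ 0`.
-/

set_option autoImplicit false

namespace H52.Dir

open Finset

/-- the doubled angle of the projection to the plane `x 2 = 0` -/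
noncomputable def chi (x : V) : ℂ := ((x 0 : ℂ) + (x 1 : ℂ) * Complex.I) ^ 2

theorem chi_norm {x : V} (hx : dot x x = 1) : ‖chi x‖ = 1 - (x 2) ^ 2 := by
  unfold dot at hx
  unfold chi
  rw [norm_pow, Complex.sq_norm, Complex.normSq_add_mul_I]
  linarith

private theorem HdG_abs_le {x : V} (hx : dot x x = 1) (k : Fin 3) : |x k| ≤ 1 := by
  unfold dot at hx
  rw [← sq_le_one_iff_abs_le_one]
  fin_cases k
  · simp only [Fin.zero_eta]; nlinarith [sq_nonneg (x 1), sq_nonneg (x 2)]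
  · simp only [Fin.mk_one]; nlinarith [sq_nonneg (x 0), sq_nonneg (x 2)]
  · simp only [Fin.reduceFinMk]; nlinarith [sq_nonneg (x 0), sq_nonneg (x 1)]

private theorem HdG_sq (x y : V) (hx : dot x x = 1) (hy : dot y y = 1) :
    ‖chi x - chi y‖ ^ 2 = ((y 2) ^ 2 - (x 2) ^ 2) ^ 2 + 4 * (x 0 * y 1 - x 1 * y 0) ^ 2 := by
  unfold dot at hx hy
  have h1 : ((y 2) ^ 2 - (x 2) ^ 2) = (x 0 ^ 2 + x 1 ^ 2) - (y 0 ^ 2 + y 1 ^ 2) := by linarith
  have h2 : chi x - chi y = (((x 0 ^ 2 - x 1 ^ 2) - (y 0 ^ 2 - y 1 ^ 2) : ℝ) : ℂ) +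
      ((2 * x 0 * x 1 - 2 * y 0 * y 1 : ℝ) : ℂ) * Complex.I := by
    unfold chi
    push_cast
    have hI := Complex.I_sq
    linear_combination ((x 1 : ℂ) ^ 2 - (y 1 : ℂ) ^ 2) * hI
  rw [h2, Complex.sq_norm, Complex.normSq_add_mul_I, h1]
  ring

theorem chi_near {x y : V} (hx : dot x x = 1) (hy : dot y y = 1) {η r : ℝ} (hη : 0 < η)
    (hη1 : η ≤ 1) (hr : 0 ≤ r) (hr1 : r ≤ 1) (hx2 : |x 2| ≤ r) (hy2 : |y 2| ≤ r) (h : ¬ nr η x y) :
    ‖chi x - chi y‖ ≤ 5 * r / η := by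
  have h0 := HdG_sq x y hx hy
  have hc : |x 0 * y 1 - x 1 * y 0| ≤ 2 * r / η := by
    by_cases h1 : x 0 * y 1 - x 1 * y 0 = 0
    · rw [h1, abs_zero]; positivity
    · have h2 : η * |x 0 * y 1 - x 1 * y 0| < |x 2 * y 0 - x 0 * y 2| := by
        by_contra h3
        exact h ⟨h1, not_lt.1 h3⟩
      have h3 : |x 2 * y 0 - x 0 * y 2| ≤ 2 * r := by
        calc |x 2 * y 0 - x 0 * y 2| ≤ |x 2 * y 0| + |x 0 * y 2| := abs_sub _ _
          _ = |x 2| * |y 0| + |x 0| * |y 2| := by rw [abs_mul, abs_mul]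
          _ ≤ r * 1 + 1 * r := add_le_add
              (mul_le_mul hx2 (HdG_abs_le hy 0) (abs_nonneg _) hr)
              (mul_le_mul (HdG_abs_le hx 0) hy2 (abs_nonneg _) zero_le_one)
          _ = 2 * r := by ring
      rw [le_div_iff₀ hη]
      nlinarith
  have hd : |(y 2) ^ 2 - (x 2) ^ 2| ≤ r / η := by
    have h1 : r ≤ r / η := by
      rw [le_div_iff₀ hη]
      nlinarith
    have h2 : (x 2) ^ 2 ≤ r := by
      rw [← sq_abs]
      nlinarith [abs_nonneg (x 2)]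
    have h3 : (y 2) ^ 2 ≤ r := by
      rw [← sq_abs]
      nlinarith [abs_nonneg (y 2)]
    rw [abs_le]
    constructor <;> nlinarith [sq_nonneg (x 2), sq_nonneg (y 2)]
  have he : (0 : ℝ) ≤ r / η := by positivity
  have h1 : ‖chi x - chi y‖ ^ 2 ≤ (5 * r / η) ^ 2 := by
    rw [h0]
    have h2 : ((y 2) ^ 2 - (x 2) ^ 2) ^ 2 ≤ (r / η) ^ 2 := by
      rw [← sq_abs]
      exact pow_le_pow_left₀ (abs_nonneg _) hd 2
    have h3 : (x 0 * y 1 - x 1 * y 0) ^ 2 ≤ (2 * r / η) ^ 2 := by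
      rw [← sq_abs]
      exact pow_le_pow_left₀ (abs_nonneg _) hc 2
    have h4 : (2 * r / η) ^ 2 = 4 * (r / η) ^ 2 := by ring
    have h5 : (5 * r / η) ^ 2 = 25 * (r / η) ^ 2 := by ring
    rw [h4] at h3
    rw [h5]
    nlinarith [sq_nonneg (r / η)]
  exact (pow_le_pow_iff_left₀ (norm_nonneg _) (by positivity) two_ne_zero).1 h1

private theorem HdG_dot (x y : V) : crs x y 0 * x 0 + crs x y 1 * x 1 + crs x y 2 * x 2 = 0 := by
  simp only [crs, Matrix.cons_val_zero, Matrix.cons_val_one, Matrix.cons_val]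
  ring

theorem nrm {x y : V} (hx : dot x x = 1) {η r s : ℝ} (hη : 0 < η)
    (hr : 0 ≤ r) (hs : 0 < s) (hx2 : |x 2| ≤ r) (hx0 : s ≤ |x 0|) (h : nr η x y) :
    |crs x y 0| ≤ (η + r) / s * |crs x y 2| ∧ |crs x y 1| ≤ η * |crs x y 2| ∧ crs x y 2 ≠ 0 := by
  obtain ⟨h1, h2⟩ := h
  have e1 : crs x y 1 = x 2 * y 0 - x 0 * y 2 := by simp [crs]
  have e2 : crs x y 2 = x 0 * y 1 - x 1 * y 0 := by simp [crs]
  rw [← e1, ← e2] at h2
  rw [← e2] at h1
  have h3 := HdG_dot x y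
  refine ⟨?_, h2, h1⟩
  have h4 : |crs x y 0| * |x 0| ≤ (η + r) * |crs x y 2| := by
    calc |crs x y 0| * |x 0| = |crs x y 0 * x 0| := (abs_mul _ _).symm
      _ = |crs x y 1 * x 1 + crs x y 2 * x 2| := by
          rw [← abs_neg]; congr 1; linarith
      _ ≤ |crs x y 1 * x 1| + |crs x y 2 * x 2| := abs_add_le _ _
      _ = |crs x y 1| * |x 1| + |crs x y 2| * |x 2| := by rw [abs_mul, abs_mul]
      _ ≤ (η * |crs x y 2|) * 1 + |crs x y 2| * r := add_le_add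
          (mul_le_mul h2 (HdG_abs_le hx 1) (abs_nonneg _) (by positivity))
          (mul_le_mul_of_nonneg_left hx2 (abs_nonneg _))
      _ = (η + r) * |crs x y 2| := by ring
  rw [div_mul_eq_mul_div, le_div_iff₀ hs]
  exact (mul_le_mul_of_nonneg_left hx0 (abs_nonneg _)).trans h4

theorem strip {x y z : V} (hx : dot x x = 1) (hz : dot z z = 1) {η r s : ℝ} (hη : 0 < η)
    (hr : 0 ≤ r) (hs : 0 < s) (hs1 : s ≤ 1) (hx2 : |x 2| ≤ r) (hx0 : s ≤ |x 0|) (h : nr η x y)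
    (hd : det x y z = 0) : |z 2| ≤ 2 * (η + r) / s := by
  obtain ⟨h1, h2, h3⟩ := nrm hx hη hr hs hx2 hx0 h
  unfold det dot at hd
  have hw : 0 < |crs x y 2| := abs_pos.2 h3
  have h4 : η ≤ (η + r) / s := by
    rw [le_div_iff₀ hs]
    nlinarith
  have h5 : |z 2| * |crs x y 2| ≤ 2 * (η + r) / s * |crs x y 2| := by
    calc |z 2| * |crs x y 2| = |crs x y 2 * z 2| := by rw [abs_mul]; ring
      _ = |crs x y 0 * z 0 + crs x y 1 * z 1| := by
          rw [← abs_neg]; congr 1; linarith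
      _ ≤ |crs x y 0 * z 0| + |crs x y 1 * z 1| := abs_add_le _ _
      _ = |crs x y 0| * |z 0| + |crs x y 1| * |z 1| := by rw [abs_mul, abs_mul]
      _ ≤ ((η + r) / s * |crs x y 2|) * 1 + (η * |crs x y 2|) * 1 := add_le_add
          (mul_le_mul h1 (HdG_abs_le hz 0) (abs_nonneg _) (by positivity))
          (mul_le_mul h2 (HdG_abs_le hz 1) (abs_nonneg _) (by positivity))
      _ ≤ ((η + r) / s * |crs x y 2|) * 1 + ((η + r) / s * |crs x y 2|) * 1 := by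
          have := mul_le_mul_of_nonneg_right h4 hw.le
          linarith
      _ = 2 * (η + r) / s * |crs x y 2| := by ring
  exact le_of_mul_le_mul_right h5 hw

end H52.Dir
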