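import Pool.Agent.H52.Dir.Cx

/-!
# Module Par (100 lines): a typical point has many partners at about 90 or 60 degrees

PROOF. Let `a` = number of lines through `i` with at most 4 points, `b` = number of the others.
`a + 4 b ≤ Σ_{l ∋ i} (|l| - 1) = n - 1` (`sum_card_thr`) and `a + b = T_i ≥ (1/3 - ε₁) n`, so
`4 (a + b) - 3 a ≤ n`, `a ≥ (4 T_i - n) / 3 ≥ (1/9 - 4 ε₁ / 3) n`. Let `δ` be from `small_line η`. The
number of `l ∋ i` with `s u l > δ` is at most `ε₁ n / δ` (`s ≥ 0`). So at least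
`(1/9 - 4 ε₁/3 - ε₁/δ) n ≥ n / 10` lines through `i` have at most 4 points and `s u l ≤ δ`
(`ε₁` small), each contains a partner `j` (`small_line`), and these partners are different
(different lines through `i` meet only in `i`, `uniq`).
-/

set_option autoImplicit false

namespace H52.Dir

open Finset

open Classical in
theorem partners (η : ℝ) (hη : 0 < η) : ∃ ε₁ : ℝ, 0 < ε₁ ∧ ∀ (n : ℕ) (u : Fin n → V), Cf u →
    ∀ i, Typ u ε₁ i →
      (n : ℝ) / 10 ≤ (((univ : Finset (Fin n)).filter (fun j =>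
        (dot (u i) (u j)) ^ 2 ≤ η ∨ |(dot (u i) (u j)) ^ 2 - 1 / 4| ≤ η)).card : ℝ) := by
  obtain ⟨δ, hδ, H⟩ := small_line η hη
  have hc0 : (0 : ℝ) < 4 / 3 + 1 / δ := by positivity
  refine ⟨1 / (90 * (4 / 3 + 1 / δ)), by positivity, ?_⟩
  set ε₁ : ℝ := 1 / (90 * (4 / 3 + 1 / δ)) with hε
  have hεeq : ε₁ * (4 / 3) + ε₁ / δ = 1 / 90 := by
    rw [hε]; field_simp
  intro n u h i hT
  have hn : (0 : ℝ) ≤ n := Nat.cast_nonneg n
  have hsum := sum_card_thr h i
  -- the lines with at most four points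
  have hcount : 3 * (((thr u i).filter (fun l => l.card ≤ 4)).card : ℝ) ≥
      4 * ((thr u i).card : ℝ) - n + 1 := by
    have h1 : ∀ l ∈ thr u i, (5 : ℝ) - 3 * (if l.card ≤ 4 then 1 else 0) ≤ (l.card : ℝ) := by
      intro l hl
      have h2 : (2 : ℝ) ≤ l.card := by exact_mod_cast two_le (mem_thr.1 hl).1
      split_ifs with hh
      · linarith
      · have : (5 : ℝ) ≤ l.card := by exact_mod_cast (by omega : 5 ≤ l.card)
        linarith
    have h3 := Finset.sum_le_sum h1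
    rw [Finset.sum_sub_distrib, ← Finset.mul_sum, Finset.sum_boole, hsum, Finset.sum_const,
      nsmul_eq_mul] at h3
    linarith
  have hbad : (((thr u i).filter (fun l => ¬ s u l ≤ δ)).card : ℝ) * δ ≤ ε₁ * n := by
    refine le_trans ?_ hT.1
    have h1 : ∑ l ∈ (thr u i).filter (fun l => ¬ s u l ≤ δ), δ ≤
        ∑ l ∈ (thr u i).filter (fun l => ¬ s u l ≤ δ), s u l :=
      Finset.sum_le_sum fun l hl => (not_le.1 (Finset.mem_filter.1 hl).2).le
    rw [Finset.sum_const, nsmul_eq_mul] at h1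
    refine h1.trans (Finset.sum_le_sum_of_subset_of_nonneg (Finset.filter_subset _ _)
      fun l _ _ => Real.sqrt_nonneg _)
  have hbad' : (((thr u i).filter (fun l => ¬ s u l ≤ δ)).card : ℝ) ≤ ε₁ / δ * n := by
    have : ε₁ / δ * n = ε₁ * n / δ := by ring
    rw [this, le_div_iff₀ hδ]
    exact hbad
  have hsub : (thr u i).filter (fun l => l.card ≤ 4) ⊆
      (thr u i).filter (fun l => l.card ≤ 4 ∧ s u l ≤ δ) ∪
        (thr u i).filter (fun l => ¬ s u l ≤ δ) := by
    intro l hl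
    rw [Finset.mem_filter] at hl
    rw [Finset.mem_union, Finset.mem_filter, Finset.mem_filter]
    by_cases hh : s u l ≤ δ
    · exact Or.inl ⟨hl.1, hl.2, hh⟩
    · exact Or.inr ⟨hl.1, hh⟩
  have hle : (((thr u i).filter (fun l => l.card ≤ 4)).card : ℝ) ≤
      (((thr u i).filter (fun l => l.card ≤ 4 ∧ s u l ≤ δ)).card : ℝ) +
        (((thr u i).filter (fun l => ¬ s u l ≤ δ)).card : ℝ) := by
    exact_mod_cast (Finset.card_le_card hsub).trans (Finset.card_union_le _ _)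
  -- every good line has a partner
  have hex : ∀ l ∈ (thr u i).filter (fun l => l.card ≤ 4 ∧ s u l ≤ δ), ∃ j ∈ l, j ≠ i ∧
      ((dot (u i) (u j)) ^ 2 ≤ η ∨ |(dot (u i) (u j)) ^ 2 - 1 / 4| ≤ η) := by
    intro l hl
    rw [Finset.mem_filter] at hl
    exact H n u h l (mem_thr.1 hl.1).1 i (mem_thr.1 hl.1).2 hl.2.1 hl.2.2
  have : Nonempty (Fin n) := ⟨i⟩
  choose! f hf1 hf2 hf3 using hex
  have hinj : (((thr u i).filter (fun l => l.card ≤ 4 ∧ s u l ≤ δ)).card : ℝ) ≤
      (((univ : Finset (Fin n)).filter (fun j =>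
        (dot (u i) (u j)) ^ 2 ≤ η ∨ |(dot (u i) (u j)) ^ 2 - 1 / 4| ≤ η)).card : ℝ) := by
    norm_cast
    apply Finset.card_le_card_of_injOn f
    · intro l hl
      rw [Finset.mem_coe, Finset.mem_filter]
      exact ⟨Finset.mem_univ _, hf3 l hl⟩
    · intro l hl l' hl' hll
      have m1 := (Finset.mem_filter.1 (Finset.mem_coe.1 hl)).1
      have m2 := (Finset.mem_filter.1 (Finset.mem_coe.1 hl')).1
      have hj' : f l ∈ l' := by
        have e : f l = f l' := hll
        rw [e]; exact hf1 l' hl'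
      exact uniq h (mem_thr.1 m1).1 (mem_thr.1 m2).1 (hf2 l hl).symm (mem_thr.1 m1).2
        (hf1 l hl) (mem_thr.1 m2).2 hj'
  refine le_trans ?_ hinj
  have hT2 := hT.2
  have e1 : (4 * ((1 / 3 - ε₁) * n) - n) / 3 - ε₁ / δ * n = (1 / 9 - (ε₁ * (4 / 3) + ε₁ / δ)) * n := by
    ring
  rw [hεeq] at e1
  linarith

end H52.Dir
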