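import Pool.Agent.H52.Dir.LBs
import Pool.Agent.H52.Dir.Par

/-!
# Module L2b (110 lines): mass of the cones

`cone_mass`: let `x ∈ μ.support` and `K_η = {y : (dot x y)² ≤ η ∨ |(dot x y)² - 1/4| ≤ η}` (closed),
`K_0 = ⋂ K_η`. Suppose `μ.real K_0 < 1/10`; by continuity from above (`tendsto_measure_iInter_atTop`...,
`η = 1/(k+1)`) there is `0 < η ≤ 1` with `μ.real K_η < 1/10`. Let `ε₁` be from `partners (η/2)`. Let `O` = the points
`z` with `|z i - x i| < η / 16` for all `i` and (automatically) for unit `y`: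
`|(dot z y)² - (dot x y)²| = |dot (z - x) y| |dot (z + x) y| ≤ (3 η/16) * (2 + ...) ≤ η / 2` (coordinates of unit vectors
are at most 1). `O` is open and contains `x`, so `μ.real O > 0`. By `typ_pt` eventually there is a typical
`i` with `u N i ∈ O`, so at least `m N / 10` indices `j` have `u N j ∈ K_η`, but `clo K_η` with
`δ = (1/10 - μ.real K_η)/2` says fewer; contradiction (`m N > 0`, `F.NeBot`).
-/

set_option autoImplicit false

namespace H52.Dir

open Finset MeasureTheory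

variable {m : ℕ → ℕ} {u : ∀ N, Fin (m N) → V} {F : Filter ℕ} {μ : Measure V}

private theorem L2b_cs {x y : V} (hx : dot x x = 1) (hy : dot y y = 1) : |dot x y| ≤ 1 := by
  have h : dot x x * dot y y - (dot x y) ^ 2 =
      (x 1 * y 2 - x 2 * y 1) ^ 2 + (x 2 * y 0 - x 0 * y 2) ^ 2 + (x 0 * y 1 - x 1 * y 0) ^ 2 := by
    simp only [dot]
    ring
  rw [hx, hy] at h
  have h2 : (dot x y) ^ 2 ≤ 1 := by
    nlinarith [sq_nonneg (x 1 * y 2 - x 2 * y 1), sq_nonneg (x 2 * y 0 - x 0 * y 2),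
      sq_nonneg (x 0 * y 1 - x 1 * y 0)]
  exact (sq_le_one_iff_abs_le_one _).1 h2

private theorem L2b_coord {y : V} (hy : dot y y = 1) (i : Fin 3) : |y i| ≤ 1 := by
  apply (sq_le_one_iff_abs_le_one _).1
  simp only [dot] at hy
  fin_cases i
  · simp only [Fin.zero_eta, Fin.isValue]
    nlinarith [mul_self_nonneg (y 0), mul_self_nonneg (y 1), mul_self_nonneg (y 2)]
  · simp only [Fin.mk_one, Fin.isValue]
    nlinarith [mul_self_nonneg (y 0), mul_self_nonneg (y 1), mul_self_nonneg (y 2)]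
  · simp only [Fin.reduceFinMk, Fin.isValue]
    nlinarith [mul_self_nonneg (y 0), mul_self_nonneg (y 1), mul_self_nonneg (y 2)]

private theorem L2b_close {x y z : V} {η : ℝ} (h0 : 0 < η) (h1 : η ≤ 1) (hx : dot x x = 1)
    (hy : dot y y = 1) (hz : ∀ i, |z i - x i| < η / 16) :
    |(dot z y) ^ 2 - (dot x y) ^ 2| ≤ η / 2 := by
  have e1 : (dot z y) ^ 2 - (dot x y) ^ 2 = dot (z - x) y * (dot (z - x) y + 2 * dot x y) := by
    simp only [dot, Pi.sub_apply]
    ring
  have e2 : |dot (z - x) y| ≤ 3 * η / 16 := by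
    have e3 : dot (z - x) y = (z 0 - x 0) * y 0 + (z 1 - x 1) * y 1 + (z 2 - x 2) * y 2 := by
      simp only [dot, Pi.sub_apply]
    rw [e3]
    have hb : ∀ i, |(z i - x i) * y i| ≤ η / 16 := by
      intro i
      rw [abs_mul]
      calc |z i - x i| * |y i| ≤ (η / 16) * 1 :=
            mul_le_mul (hz i).le (L2b_coord hy i) (abs_nonneg _) (by linarith)
        _ = η / 16 := mul_one _
    have t1 := abs_add_le ((z 0 - x 0) * y 0 + (z 1 - x 1) * y 1) ((z 2 - x 2) * y 2)
    have t2 := abs_add_le ((z 0 - x 0) * y 0) ((z 1 - x 1) * y 1)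
    linarith [hb 0, hb 1, hb 2]
  have e4 : |dot (z - x) y + 2 * dot x y| ≤ 3 / 16 + 2 := by
    have t1 := abs_add_le (dot (z - x) y) (2 * dot x y)
    have t2 : |2 * dot x y| ≤ 2 := by
      rw [abs_mul, abs_two]
      linarith [L2b_cs hx hy]
    linarith
  rw [e1, abs_mul]
  calc |dot (z - x) y| * |dot (z - x) y + 2 * dot x y| ≤ (3 * η / 16) * (3 / 16 + 2) :=
        mul_le_mul e2 e4 (abs_nonneg _) (by linarith)
    _ ≤ η / 2 := by linarith

private theorem L2b_cont (x : V) : Continuous (fun y : V => (dot x y) ^ 2) := by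
  unfold dot
  fun_prop

private theorem L2b_closed (x : V) (η : ℝ) :
    IsClosed {y : V | (dot x y) ^ 2 ≤ η ∨ |(dot x y) ^ 2 - 1 / 4| ≤ η} := by
  have h := L2b_cont x
  have h1 : IsClosed {y : V | (dot x y) ^ 2 ≤ η} := isClosed_le h continuous_const
  have h2 : IsClosed {y : V | |(dot x y) ^ 2 - 1 / 4| ≤ η} :=
    isClosed_le (h.sub continuous_const).abs continuous_const
  exact h1.union h2

private theorem L2b_eta (μ : Measure V) [IsProbabilityMeasure μ] (x : V)
    (h : μ.real {y | (dot x y) ^ 2 = 0 ∨ (dot x y) ^ 2 = 1 / 4} < 1 / 10) :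
    ∃ η : ℝ, 0 < η ∧ η ≤ 1 ∧
      μ.real {y : V | (dot x y) ^ 2 ≤ η ∨ |(dot x y) ^ 2 - 1 / 4| ≤ η} < 1 / 10 := by
  let K : ℕ → Set V := fun k =>
    {y : V | (dot x y) ^ 2 ≤ 1 / ((k : ℝ) + 1) ∨ |(dot x y) ^ 2 - 1 / 4| ≤ 1 / ((k : ℝ) + 1)}
  have hanti : Antitone K := by
    intro a b hab y hy
    have hab' : 1 / ((b : ℝ) + 1) ≤ 1 / ((a : ℝ) + 1) := Nat.one_div_le_one_div hab
    rcases hy with hy | hy
    · exact Or.inl (le_trans hy hab')
    · exact Or.inr (le_trans hy hab')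
  have hlim : Filter.Tendsto (fun k : ℕ => 1 / ((k : ℝ) + 1)) Filter.atTop (nhds 0) :=
    tendsto_one_div_add_atTop_nhds_zero_nat
  have hinter : (⋂ k, K k) = {y | (dot x y) ^ 2 = 0 ∨ (dot x y) ^ 2 = 1 / 4} := by
    ext y
    simp only [Set.mem_iInter, Set.mem_ofPred_eq]
    constructor
    · intro hy
      by_contra hcon
      push Not at hcon
      have p1 : 0 < (dot x y) ^ 2 := lt_of_le_of_ne (sq_nonneg _) (Ne.symm hcon.1)
      have p2 : 0 < |(dot x y) ^ 2 - 1 / 4| := abs_pos.2 (sub_ne_zero.2 hcon.2)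
      obtain ⟨k, hk⟩ := (hlim.eventually_lt_const (lt_min p1 p2)).exists
      rcases hy k with h1 | h1
      · exact absurd (lt_of_le_of_lt h1 hk) (not_lt.2 (min_le_left _ _))
      · exact absurd (lt_of_le_of_lt h1 hk) (not_lt.2 (min_le_right _ _))
    · intro hy k
      have hk : 0 ≤ 1 / ((k : ℝ) + 1) := by positivity
      rcases hy with h1 | h1
      · left
        rw [h1]
        exact hk
      · right
        rw [h1, sub_self, abs_zero]
        exact hk
  have htend := tendsto_measure_iInter_atTop (μ := μ) (s := K)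
    (fun k => (L2b_closed x _).measurableSet.nullMeasurableSet) hanti ⟨0, measure_ne_top _ _⟩
  rw [hinter] at htend
  have htend2 := (ENNReal.tendsto_toReal (measure_ne_top μ _)).comp htend
  obtain ⟨k, hk⟩ := (htend2.eventually_lt_const h).exists
  refine ⟨1 / ((k : ℝ) + 1), by positivity, ?_, hk⟩
  rw [div_le_one (by positivity)]
  have : (0 : ℝ) ≤ k := Nat.cast_nonneg k
  linarith

theorem cone_mass (H : Lm m u F μ) {x : V} (hx : x ∈ μ.support) :
    1 / 10 ≤ μ.real {y | (dot x y) ^ 2 = 0 ∨ (dot x y) ^ 2 = 1 / 4} := by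
  by_contra hcon
  push Not at hcon
  have := H.prob
  have := H.ne
  obtain ⟨η, h0, h1, hK⟩ := L2b_eta μ x hcon
  have hxx := supp_sph H hx
  obtain ⟨ε₁, he, hpart⟩ := partners (η / 2) (by linarith)
  let O : Set V := {z | ∀ i, |z i - x i| < η / 16}
  have hO : IsOpen O := by
    have : O = ⋂ i, {z : V | |z i - x i| < η / 16} := by
      ext z
      simp [O]
    rw [this]
    apply isOpen_iInter_of_finite
    intro i
    apply isOpen_lt _ continuous_const
    fun_prop
  have hxO : x ∈ O := by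
    intro i
    rw [sub_self, abs_zero]
    linarith
  have hpos : 0 < μ O := (Measure.mem_support_iff_forall x).1 hx O (hO.mem_nhds hxO)
  have hposr : 0 < μ.real O := ENNReal.toReal_pos hpos.ne' (measure_ne_top _ _)
  have ev1 := typ_pt H O hO 0 hposr ε₁ he
  have ev2 := H.clo _ (L2b_closed x η)
    ((1 / 10 - μ.real {y : V | (dot x y) ^ 2 ≤ η ∨ |(dot x y) ^ 2 - 1 / 4| ≤ η}) / 2)
    (by linarith)
  have ev3 := H.good 1 one_pos
  obtain ⟨N, hN1, hN2, hN3⟩ := (ev1.and (ev2.and ev3)).exists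
  obtain ⟨i, -, hiO, hiT⟩ := hN1 ∅ (by simp)
  have hp := hpart (m N) (u N) hN3.toCf i hiT
  have hbig : (0 : ℝ) < m N := by
    have := hN3.big
    linarith
  have hle : ((((univ : Finset (Fin (m N))).filter (fun j =>
        (dot (u N i) (u N j)) ^ 2 ≤ η / 2 ∨ |(dot (u N i) (u N j)) ^ 2 - 1 / 4| ≤ η / 2)).card : ℕ) : ℝ)
      ≤ (cnt (u N) {y : V | (dot x y) ^ 2 ≤ η ∨ |(dot x y) ^ 2 - 1 / 4| ≤ η} : ℝ) := by
    unfold cnt
    apply Nat.cast_le.2
    apply card_le_card
    intro j hj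
    have hj := Finset.mem_filter.1 hj
    refine (@Finset.mem_filter _ _ (fun _ => Classical.propDecidable _) _ _).2 ⟨mem_univ _, ?_⟩
    have hc := L2b_close h0 h1 hxx (hN3.unit j) hiO
    have hc' := abs_le.1 hc
    rcases hj.2 with h2 | h2
    · left
      linarith [hc'.1, hc'.2]
    · right
      have h3 := abs_le.1 h2
      rw [abs_le]
      constructor
      · linarith [hc'.1, hc'.2, h3.1, h3.2]
      · linarith [hc'.1, hc'.2, h3.1, h3.2]
  nlinarith

end H52.Dir
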