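import Pool.Agent.H52.Dir.L2a
import Pool.Agent.H52.Dir.L2b

/-!
# Module L2 (90 lines): the limit measure has an atom

`atom`: suppose `μ {a, -a} = 0` for all unit `a`. Then (by induction) there are `x_0, ..., x_10` in `μ.support`
with `x_i ≠ ± x_j`: the set `μ.support ∩ {unit} \ {± x_0, ..., ± x_k}` has measure 1, so it is nonempty
(`measure_compl_support`, `sph`). The sets `N_i = {y : dot y y = 1, (dot x_i y)² ∈ {0, 1/4}}` have measure `≥ 1/10`
and pairwise finite intersections (`cones`), hence of measure 0 (points have measure 0: `{z} ⊆ {z, -z}`). So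
`11/10 ≤ Σ μ.real N_i = μ.real (⋃ N_i) ≤ 1` (`measure_iUnion` in the a.e. disjoint form
`measureReal_biUnion_finset₀` or `measure_biUnion_finset₀`), contradiction.
-/

set_option autoImplicit false

namespace H52.Dir

open Finset MeasureTheory

variable {m : ℕ → ℕ} {u : ∀ N, Fin (m N) → V} {F : Filter ℕ} {μ : Measure V}

private theorem L2_pts (H : Lm m u F μ) (h0 : ∀ a : V, dot a a = 1 → μ {a, -a} = 0) (k : ℕ) :
    ∃ s : Finset V, s.card = k ∧ (∀ a ∈ s, a ∈ μ.support) ∧
      ∀ a ∈ s, ∀ b ∈ s, a ≠ b → a ≠ -b := by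
  classical
  have := H.prob
  induction k with
  | zero => exact ⟨∅, by simp, by simp, by simp⟩
  | succ k ih =>
    obtain ⟨s, hs1, hs2, hs3⟩ := ih
    have hnull : μ (⋃ a ∈ s, {a, -a}) = 0 := by
      exact (measure_biUnion_null_iff s.countable_toSet).2
        (fun a ha => h0 a (supp_sph H (hs2 a ha)))
    have hnull2 : μ (μ.supportᶜ ∪ ⋃ a ∈ s, {a, -a}) = 0 :=
      measure_union_null Measure.measure_compl_support hnull
    have hne : (μ.supportᶜ ∪ ⋃ a ∈ s, {a, -a}) ≠ Set.univ := by
      intro he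
      rw [he, measure_univ] at hnull2
      exact one_ne_zero hnull2
    obtain ⟨x, hx⟩ := (Set.ne_univ_iff_exists_notMem _).1 hne
    simp only [Set.mem_union, Set.mem_compl_iff, Set.mem_iUnion, Set.mem_insert_iff,
      Set.mem_singleton_iff, not_or, not_not, not_exists] at hx
    obtain ⟨hx1, hx2⟩ := hx
    have hxs : x ∉ s := fun h => (hx2 x h).1 rfl
    refine ⟨insert x s, ?_, ?_, ?_⟩
    · rw [card_insert_of_notMem hxs, hs1]
    · intro a ha
      rw [mem_insert] at ha
      rcases ha with rfl | ha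
      · exact hx1
      · exact hs2 a ha
    · intro a ha b hb hab
      rw [mem_insert] at ha hb
      rcases ha with rfl | ha
      · rcases hb with rfl | hb
        · exact absurd rfl hab
        · exact (hx2 b hb).2
      · rcases hb with rfl | hb
        · intro h
          apply (hx2 a ha).2
          rw [h, neg_neg]
        · exact hs3 a ha b hb hab

theorem atom (H : Lm m u F μ) : ∃ a : V, dot a a = 1 ∧ 0 < μ.real {a, -a} := by
  classical
  have := H.prob
  by_contra hcon
  push Not at hcon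
  have h0 : ∀ a : V, dot a a = 1 → μ {a, -a} = 0 := by
    intro a ha
    have h1 : μ.real {a, -a} = 0 := le_antisymm (hcon a ha) measureReal_nonneg
    rwa [measureReal_eq_zero_iff] at h1
  have hpt : ∀ a : V, dot a a = 1 → μ {a} = 0 := by
    intro a ha
    exact measure_mono_null (by simp) (h0 a ha)
  obtain ⟨s, hs1, hs2, hs3⟩ := L2_pts H h0 11
  let f : V → Set V := fun x =>
    {y | dot y y = 1 ∧ ((dot x y) ^ 2 = 0 ∨ (dot x y) ^ 2 = 1 / 4)}
  have hmeas : ∀ x, MeasurableSet (f x) := by
    intro x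
    have c1 : Continuous (fun y : V => dot y y) := by
      unfold dot
      fun_prop
    have c2 : Continuous (fun y : V => (dot x y) ^ 2) := by
      unfold dot
      fun_prop
    have m1 : IsClosed {y : V | dot y y = 1} := isClosed_eq c1 continuous_const
    have m2 : IsClosed {y : V | (dot x y) ^ 2 = 0} := isClosed_eq c2 continuous_const
    have m3 : IsClosed {y : V | (dot x y) ^ 2 = 1 / 4} := isClosed_eq c2 continuous_const
    have : f x = {y : V | dot y y = 1} ∩ ({y : V | (dot x y) ^ 2 = 0} ∪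
        {y : V | (dot x y) ^ 2 = 1 / 4}) := by
      ext y
      rfl
    rw [this]
    exact (m1.inter (m2.union m3)).measurableSet
  have hmass : ∀ x ∈ s, (1 / 10 : ℝ) ≤ μ.real (f x) := by
    intro x hx
    refine le_trans (cone_mass H (hs2 x hx)) ?_
    have hle : μ {y | (dot x y) ^ 2 = 0 ∨ (dot x y) ^ 2 = 1 / 4} ≤ μ (f x) := by
      calc μ {y | (dot x y) ^ 2 = 0 ∨ (dot x y) ^ 2 = 1 / 4}
          ≤ μ (f x ∪ {y | dot y y ≠ 1}) := by
            apply measure_mono
            intro y hy
            by_cases h1 : dot y y = 1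
            · exact Or.inl ⟨h1, hy⟩
            · exact Or.inr h1
        _ ≤ μ (f x) + μ {y | dot y y ≠ 1} := measure_union_le _ _
        _ = μ (f x) := by rw [H.sph, add_zero]
    exact ENNReal.toReal_mono (measure_ne_top _ _) hle
  have hdisj : Set.Pairwise (↑s : Set V) (Function.onFun (AEDisjoint μ) f) := by
    intro a ha b hb hab
    have hfin := cones (supp_sph H (hs2 a ha)) (supp_sph H (hs2 b hb)) hab (hs3 a ha b hb hab)
    have hsub : f a ∩ f b ⊆ {z : V | dot z z = 1 ∧ ((dot a z) ^ 2 = 0 ∨ (dot a z) ^ 2 = 1 / 4) ∧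
      ((dot b z) ^ 2 = 0 ∨ (dot b z) ^ 2 = 1 / 4)} := by
      intro z hz
      exact ⟨hz.1.1, hz.1.2, hz.2.2⟩
    have hfin2 := hfin.subset hsub
    change μ (f a ∩ f b) = 0
    rw [← Set.biUnion_of_singleton (f a ∩ f b)]
    rw [measure_biUnion_null_iff hfin2.countable]
    intro z hz
    exact hpt z hz.1.1
  have hsum := measure_biUnion_finset₀ hdisj (fun x _ => (hmeas x).nullMeasurableSet)
  have hle1 : ∑ x ∈ s, μ (f x) ≤ 1 := by
    rw [← hsum]
    exact prob_le_one
  have hsumr : ∑ x ∈ s, μ.real (f x) ≤ 1 := by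
    have h2 : (∑ x ∈ s, μ (f x)).toReal ≤ (1 : ENNReal).toReal :=
      ENNReal.toReal_mono ENNReal.one_ne_top hle1
    rw [ENNReal.toReal_sum (fun x _ => measure_ne_top _ _), ENNReal.toReal_one] at h2
    exact h2
  have h3 : ∑ x ∈ s, (1 / 10 : ℝ) ≤ ∑ x ∈ s, μ.real (f x) := Finset.sum_le_sum hmass
  rw [Finset.sum_const, hs1, nsmul_eq_mul] at h3
  norm_num at h3
  linarith

end H52.Dir
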