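import Pool.Agent.H52.Dir.Bas

/-!
# Module L2a (110 lines): intersections of cones are finite

PROOF. Let `x, y` be unit vectors with `x ≠ y`, `x ≠ -y`; then `D = crs x y ≠ 0` (`dot D D = 1 - (dot x y)²`,
which vanishes only if `dot x y = ± 1`, i.e. `dot (x ∓ y) (x ∓ y) = 0`). For unit `z` the numbers
`a = dot x z`, `b = dot y z`, `c = dot D z` determine `z` (the three vectors `x, y, D` are independent) and
`c² = dot D D - (quadratic in a, b)`: explicitly, `z = (combination of x, y with coefficients given by a, b)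
+ (c / dot D D) D` and `1 = dot z z`. Here `a, b ∈ {0, 1/2, -1/2}`, so there are at most 9 pairs
`(a, b)` and for each at most two values of `c`. Lean: the map `z ↦ (dot x z, dot y z, dot D z)` is injective and
maps the set into the finite set `A ×ˢ A ×ˢ C`, `A = {0, 1/2, -1/2}`,
`C = {c | c² = q for some q in a finite set}`. (Lagrange: for unit `z`:
`dot D z ² = 1 - a² - b² - (dot x y)² + 2 a b (dot x y)`, the Gram determinant of `x, y, z`; prove by `ring`/
`linear_combination` from `dot x x = dot y y = dot z z = 1`.)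
-/

set_option autoImplicit false

namespace H52.Dir

open Finset

private theorem L2a_dd (x y : V) :
    dot (crs x y) (crs x y) = dot x x * dot y y - (dot x y) ^ 2 := by
  simp only [dot, crs, Matrix.cons_val_zero, Matrix.cons_val_one, Matrix.cons_val]
  ring

private theorem L2a_ne {x y : V} (hx : dot x x = 1) (hy : dot y y = 1) (h1 : x ≠ y)
    (h2 : x ≠ -y) : dot (crs x y) (crs x y) ≠ 0 := by
  rw [L2a_dd, hx, hy]
  intro h
  have h3 : (dot x y - 1) * (dot x y + 1) = 0 := by linarith [h]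
  have hz : ∀ w : V, dot w w = 0 → w = 0 := by
    intro w hw
    simp only [dot] at hw
    have h00 : w 0 = 0 := by nlinarith [mul_self_nonneg (w 0), mul_self_nonneg (w 1), mul_self_nonneg (w 2)]
    have h11 : w 1 = 0 := by nlinarith [mul_self_nonneg (w 0), mul_self_nonneg (w 1), mul_self_nonneg (w 2)]
    have h22 : w 2 = 0 := by nlinarith [mul_self_nonneg (w 0), mul_self_nonneg (w 1), mul_self_nonneg (w 2)]
    funext i
    fin_cases i
    · exact h00
    · exact h11
    · exact h22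
  rcases mul_eq_zero.1 h3 with h4 | h4
  · apply h1
    have h5 : dot (x - y) (x - y) = 0 := by
      have e : dot (x - y) (x - y) = dot x x + dot y y - 2 * dot x y := by
        simp only [dot, Pi.sub_apply]
        ring
      rw [e, hx, hy]
      linarith
    exact sub_eq_zero.1 (hz _ h5)
  · apply h2
    have h5 : dot (x + y) (x + y) = 0 := by
      have e : dot (x + y) (x + y) = dot x x + dot y y + 2 * dot x y := by
        simp only [dot, Pi.add_apply]
        ring
      rw [e, hx, hy]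
      linarith
    exact eq_neg_of_add_eq_zero_left (hz _ h5)

private theorem L2a_inj {x y z w : V} (hD : dot (crs x y) (crs x y) ≠ 0)
    (ha : dot x z = dot x w) (hb : dot y z = dot y w) (hc : dot (crs x y) z = dot (crs x y) w) :
    z = w := by
  simp only [dot, crs, Matrix.cons_val_zero, Matrix.cons_val_one, Matrix.cons_val] at hD ha hb hc
  have key : ∀ i, z i = w i := by
    intro i
    apply mul_left_cancel₀ hD
    fin_cases i
    · simp only [Fin.zero_eta, Fin.isValue]
      linear_combination (y 1 * (x 0 * y 1 - x 1 * y 0) - y 2 * (x 2 * y 0 - x 0 * y 2)) * ha +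
        ((x 2 * y 0 - x 0 * y 2) * x 2 - (x 0 * y 1 - x 1 * y 0) * x 1) * hb +
        (x 1 * y 2 - x 2 * y 1) * hc
    · simp only [Fin.mk_one, Fin.isValue]
      linear_combination (y 2 * (x 1 * y 2 - x 2 * y 1) - y 0 * (x 0 * y 1 - x 1 * y 0)) * ha +
        ((x 0 * y 1 - x 1 * y 0) * x 0 - (x 1 * y 2 - x 2 * y 1) * x 2) * hb +
        (x 2 * y 0 - x 0 * y 2) * hc
    · simp only [Fin.reduceFinMk, Fin.isValue]
      linear_combination (y 0 * (x 2 * y 0 - x 0 * y 2) - y 1 * (x 1 * y 2 - x 2 * y 1)) * ha +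
        ((x 1 * y 2 - x 2 * y 1) * x 1 - (x 2 * y 0 - x 0 * y 2) * x 0) * hb +
        (x 0 * y 1 - x 1 * y 0) * hc
  funext i
  exact key i

private theorem L2a_gram {x y z : V} (hx : dot x x = 1) (hy : dot y y = 1) (hz : dot z z = 1) :
    (dot (crs x y) z) ^ 2 = 1 - (dot x z) ^ 2 - (dot y z) ^ 2 - (dot x y) ^ 2 +
      2 * (dot x z) * (dot y z) * (dot x y) := by
  have e : (dot (crs x y) z) ^ 2 = dot x x * dot y y * dot z z - (dot x z) ^ 2 * dot y y -
      (dot y z) ^ 2 * dot x x - (dot x y) ^ 2 * dot z z +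
      2 * (dot x z) * (dot y z) * (dot x y) := by
    simp only [dot, crs, Matrix.cons_val_zero, Matrix.cons_val_one, Matrix.cons_val]
    ring
  rw [e, hx, hy, hz]
  ring

private theorem L2a_fin (q : ℝ) : {c : ℝ | c ^ 2 = q}.Finite := by
  apply Set.Finite.subset (Set.toFinite {Real.sqrt q, -Real.sqrt q})
  intro c hc
  have hc' : c ^ 2 = q := hc
  have h1 : |c| = Real.sqrt q := by rw [← hc', Real.sqrt_sq_eq_abs]
  rcases abs_choice c with h | h
  · left
    rw [← h1, h]
  · right
    rw [Set.mem_singleton_iff, ← h1, h]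
    ring

private theorem L2a_val {a : ℝ} (h : a ^ 2 = 0 ∨ a ^ 2 = 1 / 4) :
    a ∈ ({0, 1 / 2, -(1 / 2)} : Set ℝ) := by
  simp only [Set.mem_insert_iff, Set.mem_singleton_iff]
  rcases h with h | h
  · left
    exact pow_eq_zero_iff (two_ne_zero) |>.1 h
  · right
    have h2 : (a - 1 / 2) * (a + 1 / 2) = 0 := by linarith [h]
    rcases mul_eq_zero.1 h2 with h3 | h3
    · left; linarith
    · right; linarith

theorem cones {x y : V} (hx : dot x x = 1) (hy : dot y y = 1) (h1 : x ≠ y) (h2 : x ≠ -y) :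
    {z : V | dot z z = 1 ∧ ((dot x z) ^ 2 = 0 ∨ (dot x z) ^ 2 = 1 / 4) ∧
      ((dot y z) ^ 2 = 0 ∨ (dot y z) ^ 2 = 1 / 4)}.Finite := by
  have hA : ({0, 1 / 2, -(1 / 2)} : Set ℝ).Finite := Set.toFinite _
  have hC : (⋃ a ∈ ({0, 1 / 2, -(1 / 2)} : Set ℝ), ⋃ b ∈ ({0, 1 / 2, -(1 / 2)} : Set ℝ),
      {c : ℝ | c ^ 2 = 1 - a ^ 2 - b ^ 2 - (dot x y) ^ 2 + 2 * a * b * (dot x y)}).Finite :=
    hA.biUnion (fun a _ => hA.biUnion (fun b _ => L2a_fin _))
  refine Set.Finite.of_injOn (f := fun z : V => (dot x z, dot y z, dot (crs x y) z))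
    (t := ({0, 1 / 2, -(1 / 2)} : Set ℝ) ×ˢ (({0, 1 / 2, -(1 / 2)} : Set ℝ) ×ˢ _)) ?_ ?_
    (hA.prod (hA.prod hC))
  · intro z hz
    obtain ⟨hz1, hz2, hz3⟩ := hz
    refine ⟨L2a_val hz2, L2a_val hz3, ?_⟩
    simp only [Set.mem_iUnion]
    exact ⟨dot x z, L2a_val hz2, dot y z, L2a_val hz3, L2a_gram hx hy hz1⟩
  · intro z hz w hw hzw
    simp only [Prod.mk.injEq] at hzw
    exact L2a_inj (L2a_ne hx hy h1 h2) hzw.1 hzw.2.1 hzw.2.2

end H52.Dir
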