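import Pool.Agent.H52.Dir.LBs

/-!
# Module L3 (150 lines): circles through an atom without other mass

`nearcirc` PROOF. `|det p q z| ≤ 1` for unit vectors (and in general `|det p q z| ≤ |p| |q| |z|`). The sets
`{y : 1 - r ≤ (dot y a)² < 1}` decrease (as `r → 0`) to the empty set, so for some `0 < r < 1/100`
the set `{y | 1 - r ≤ (dot y a)²} \ {a, -a}` has measure `< τ/8` (on the unit sphere `(dot y a)² = 1` only for
`y = ± a`; `sph`), also `r < 1 - (dot x a)²` (which is positive as `x ≠ ± a`). The closed sets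
`{y : |det a x y| ≤ ρ, (dot y a)² ≤ 1 - r}` decrease (as `ρ → 0`) to a set which is null by `h0`; take `ρ`
with measure `< τ/8`. Let `0 < δ < min r τ`, `√(2 δ) ≤ ρ / 4`, and `O = {z : |z i - x i| < κ for all i}` with `κ` so
small that for `z ∈ O`: `(dot z a)² < 1 - r < 1 - δ` and `|det a z y - det a x y| ≤ ρ / 4` for unit `y`.
(1) Let `u q ∈ O`, `j` with `(dot (u j) a)² < 1 - δ`, `i` with `1 - δ ≤ (dot (u i) a)²`,
`det (u i) (u q) (u j) = 0`. For the right sign `|a ∓ u i|² ≤ 2 δ`, so `|det a (u q) (u j)| ≤ √(2 δ) ≤ ρ/4`,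
`|det a x (u j)| ≤ ρ / 2`. So `u j` is in `{y : 1 - r ≤ (dot y a)² ≤ 1 - δ}` (closed, measure `< τ/8`) or in
`{|det a x y| ≤ ρ, (dot y a)² ≤ 1 - r}`: by `clo` (with `τ/8`) at most `τ/2 * m N` indices.
(2) `A = {1 - δ ≤ (dot y a)²}` is closed with `μ.real A ≤ μ.real {a, -a} + τ/8`, and contains the open set
`{1 - δ < (dot y a)²}` which contains `a, -a`: `clo`, `opn`.
-/

set_option autoImplicit false

namespace H52.Dir

open Finset MeasureTheory

variable {m : ℕ → ℕ} {u : ∀ N, Fin (m N) → V} {F : Filter ℕ} {μ : Measure V}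

private theorem L3_dec (μ : Measure V) [IsFiniteMeasure μ] (f : V → ℝ) (hf : Measurable f)
    (hf0 : ∀ z, 0 ≤ f z) (δ : ℝ) (hδ : 0 < δ) :
    ∃ t > 0, μ.real {z | f z ≤ t} ≤ μ.real {z | f z = 0} + δ := by
  have hm : ∀ t : ℝ, MeasurableSet {z | f z ≤ t} := fun t => measurableSet_le hf measurable_const
  have h1 := tendsto_measure_iInter_atTop (μ := μ)
    (s := fun k : ℕ => {z | f z ≤ 1 / ((k : ℝ) + 1)})
    (fun k => (hm _).nullMeasurableSet)
    (by
      intro k l hkl z hz
      simp only [Set.mem_ofPred_eq] at hz ⊢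
      refine le_trans hz ?_
      apply one_div_le_one_div_of_le (by positivity)
      have : (k : ℝ) ≤ l := by exact_mod_cast hkl
      linarith)
    ⟨0, measure_ne_top _ _⟩
  have h2 : (⋂ k : ℕ, {z | f z ≤ 1 / ((k : ℝ) + 1)}) = {z | f z = 0} := by
    ext z
    simp only [Set.mem_iInter, Set.mem_ofPred_eq]
    constructor
    · intro h
      apply le_antisymm _ (hf0 z)
      apply ge_of_tendsto' (tendsto_one_div_add_atTop_nhds_zero_nat (𝕜 := ℝ))
      intro k
      exact h k
    · intro h k
      rw [h]; positivity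
  rw [h2] at h1
  have h3 : Filter.Tendsto (fun k : ℕ => μ.real {z | f z ≤ 1 / ((k : ℝ) + 1)}) Filter.atTop
      (nhds (μ.real {z | f z = 0})) := by
    exact (ENNReal.tendsto_toReal (measure_ne_top _ _)).comp h1
  have h4 : ∀ᶠ k : ℕ in Filter.atTop, μ.real {z | f z ≤ 1 / ((k : ℝ) + 1)} <
      μ.real {z | f z = 0} + δ := h3.eventually (gt_mem_nhds (by linarith))
  obtain ⟨k, hk⟩ := h4.exists
  exact ⟨1 / ((k : ℝ) + 1), by positivity, hk.le⟩

private theorem L3_cs (v w : V) : (dot v w) ^ 2 ≤ dot v v * dot w w := by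
  simp only [dot]
  nlinarith [sq_nonneg (v 0 * w 1 - v 1 * w 0), sq_nonneg (v 0 * w 2 - v 2 * w 0),
    sq_nonneg (v 1 * w 2 - v 2 * w 1)]

private theorem L3_nn (v : V) : 0 ≤ dot v v := by
  simp only [dot]
  nlinarith [sq_nonneg (v 0), sq_nonneg (v 1), sq_nonneg (v 2)]

private theorem L3_zero {v : V} (h : dot v v = 0) : v = 0 := by
  simp only [dot] at h
  have e0 : v 0 = 0 := by nlinarith [sq_nonneg (v 0), sq_nonneg (v 1), sq_nonneg (v 2)]
  have e1 : v 1 = 0 := by nlinarith [sq_nonneg (v 0), sq_nonneg (v 1), sq_nonneg (v 2)]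
  have e2 : v 2 = 0 := by nlinarith [sq_nonneg (v 0), sq_nonneg (v 1), sq_nonneg (v 2)]
  funext j
  fin_cases j
  · exact e0
  · exact e1
  · exact e2

private theorem L3_eq {y a : V} (hy : dot y y = 1) (ha : dot a a = 1) (h : 1 ≤ (dot y a) ^ 2) :
    y = a ∨ y = -a := by
  have h1 := L3_cs y a
  rw [hy, ha] at h1
  have h2 : (dot y a) ^ 2 = 1 := by linarith
  rcases mul_self_eq_one_iff.1 (by rw [← pow_two]; exact h2 : dot y a * dot y a = 1) with h3 | h3
  · left
    have : dot (y - a) (y - a) = 0 := by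
      have e : dot (y - a) (y - a) = dot y y + dot a a - 2 * dot y a := by
        simp only [dot, Pi.sub_apply]; ring
      rw [e, hy, ha, h3]; ring
    exact sub_eq_zero.1 (L3_zero this)
  · right
    have : dot (y + a) (y + a) = 0 := by
      have e : dot (y + a) (y + a) = dot y y + dot a a + 2 * dot y a := by
        simp only [dot, Pi.add_apply]; ring
      rw [e, hy, ha, h3]; ring
    exact eq_neg_of_add_eq_zero_left (L3_zero this)

private theorem L3_det {v p q : V} (hp : dot p p = 1) (hq : dot q q = 1) :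
    (det v p q) ^ 2 ≤ dot v v := by
  have e : det v p q = dot v (crs p q) := by
    simp [det, dot, crs]; ring
  have h1 := L3_cs v (crs p q)
  have h2 : dot (crs p q) (crs p q) = dot p p * dot q q - (dot p q) ^ 2 := by
    simp [dot, crs]; ring
  rw [e]
  refine le_trans h1 ?_
  rw [h2, hp, hq]
  nlinarith [L3_nn v, sq_nonneg (dot p q)]

open Classical in
theorem nearcirc (H : Lm m u F μ) {a x : V} (ha : dot a a = 1) (hx : dot x x = 1) (h1 : x ≠ a)
    (h2 : x ≠ -a) (h0 : μ {y | det a x y = 0 ∧ y ≠ a ∧ y ≠ -a} = 0) (τ : ℝ) (hτ : 0 < τ) :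
    ∃ δ : ℝ, 0 < δ ∧ δ ≤ τ ∧ δ ≤ 1 / 100 ∧ ∃ O : Set V, IsOpen O ∧ x ∈ O ∧
      (∀ᶠ N in F, ∀ q, u N q ∈ O → (dot (u N q) a) ^ 2 < 1 - δ ∧
        (((univ : Finset (Fin (m N))).filter (fun j => j ≠ q ∧ (dot (u N j) a) ^ 2 < 1 - δ ∧
          ∃ i, 1 - δ ≤ (dot (u N i) a) ^ 2 ∧ det (u N i) (u N q) (u N j) = 0)).card : ℝ) ≤
          τ * m N) ∧
      (∀ᶠ N in F, (cnt (u N) {y | 1 - δ ≤ (dot y a) ^ 2} : ℝ) ≤ (μ.real {a, -a} + τ) * m N ∧
        (μ.real {a, -a} - τ) * m N ≤ (cnt (u N) {y | 1 - δ ≤ (dot y a) ^ 2} : ℝ)) := by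
  have := H.prob
  have hca : Continuous (fun y : V => (dot y a) ^ 2) := by
    unfold dot; fun_prop
  have hcd : Continuous (fun y : V => |det a x y|) := by
    unfold det dot; fun_prop
  have hae : ∀ᵐ y ∂μ, dot y y = 1 := by
    rw [ae_iff]; exact H.sph
  -- the atom
  obtain ⟨r₁, hr₁, hdec⟩ := L3_dec μ (fun z => max 0 (1 - (dot z a) ^ 2))
    (continuous_const.max (continuous_const.sub hca)).measurable (fun z => le_max_left _ _)
    (τ / 16) (by linarith)
  have hat : μ.real {z : V | max 0 (1 - (dot z a) ^ 2) = 0} ≤ μ.real {a, -a} := by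
    apply ENNReal.toReal_mono (measure_ne_top _ _)
    apply measure_mono_ae
    filter_upwards [hae] with y hy hy2
    have hy3 : max 0 (1 - (dot y a) ^ 2) = 0 := hy2
    have : 1 ≤ (dot y a) ^ 2 := by
      have := le_max_right 0 (1 - (dot y a) ^ 2)
      linarith
    rcases L3_eq hy ha this with h | h
    · exact Or.inl h
    · exact Or.inr h
  have hA : ∀ t ≤ r₁, μ.real {y : V | 1 - t ≤ (dot y a) ^ 2} ≤ μ.real {a, -a} + τ / 16 := by
    intro t ht
    refine le_trans ?_ (le_trans hdec (by linarith))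
    apply measureReal_mono _ (measure_ne_top _ _)
    intro y hy
    have hy' : 1 - t ≤ (dot y a) ^ 2 := hy
    change max 0 (1 - (dot y a) ^ 2) ≤ r₁
    apply max_le hr₁.le
    linarith
  have hxa : 0 < 1 - (dot x a) ^ 2 := by
    by_contra hcon
    rcases L3_eq hx ha (by linarith) with h | h
    · exact h1 h
    · exact h2 h
  set r : ℝ := min r₁ (min (1 / 200) ((1 - (dot x a) ^ 2) / 2)) with hr
  have hr0 : 0 < r := by
    rw [hr]; refine lt_min hr₁ (lt_min (by norm_num) (by linarith))
  have hr1 : r ≤ r₁ := min_le_left _ _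
  have hr2 : r ≤ 1 / 200 := le_trans (min_le_right _ _) (min_le_left _ _)
  have hr3 : r ≤ (1 - (dot x a) ^ 2) / 2 := le_trans (min_le_right _ _) (min_le_right _ _)
  -- the circle
  obtain ⟨ρ, hρ, hdec2⟩ := L3_dec (μ.restrict {y | (dot y a) ^ 2 ≤ 1 - r})
    (fun z => |det a x z|) hcd.measurable (fun z => abs_nonneg _) (τ / 16) (by linarith)
  have hSm : MeasurableSet {y : V | (dot y a) ^ 2 ≤ 1 - r} :=
    (isClosed_le hca continuous_const).measurableSet
  have hz2 : (μ.restrict {y | (dot y a) ^ 2 ≤ 1 - r}).real {z | |det a x z| = 0} = 0 := by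
    rw [measureReal_restrict_apply' hSm]
    have : μ ({z | |det a x z| = 0} ∩ {y | (dot y a) ^ 2 ≤ 1 - r}) = 0 := by
      apply measure_mono_null _ h0
      rintro y ⟨hy1, hy2⟩
      have hy1' : |det a x y| = 0 := hy1
      have hy2' : (dot y a) ^ 2 ≤ 1 - r := hy2
      refine ⟨abs_eq_zero.1 hy1', ?_, ?_⟩
      · rintro rfl
        rw [ha] at hy2'; linarith
      · rintro rfl
        have e : dot (-a) a = - dot a a := by simp only [dot, Pi.neg_apply]; ring
        rw [e, ha] at hy2'; linarith
    rw [measureReal_def, this]; rfl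
  rw [hz2, measureReal_restrict_apply' hSm, zero_add] at hdec2
  set δ : ℝ := min τ (min (r / 2) (ρ ^ 2 / 32)) with hδ
  have hδ0 : 0 < δ := by
    rw [hδ]; refine lt_min hτ (lt_min (by linarith) (by positivity))
  have hδ1 : δ ≤ τ := min_le_left _ _
  have hδ2 : δ ≤ r / 2 := le_trans (min_le_right _ _) (min_le_left _ _)
  have hδ3 : δ ≤ ρ ^ 2 / 32 := le_trans (min_le_right _ _) (min_le_right _ _)
  have hcx : Continuous (fun z : V => dot (crs a (z - x)) (crs a (z - x))) := by
    have e : (fun z : V => dot (crs a (z - x)) (crs a (z - x))) =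
        fun z : V => (a 1 * (z 2 - x 2) - a 2 * (z 1 - x 1)) ^ 2 +
          (a 2 * (z 0 - x 0) - a 0 * (z 2 - x 2)) ^ 2 +
          (a 0 * (z 1 - x 1) - a 1 * (z 0 - x 0)) ^ 2 := by
      funext z; simp [dot, crs]; ring
    rw [e]; fun_prop
  refine ⟨δ, hδ0, hδ1, by linarith,
    {z | (dot z a) ^ 2 < 1 - r} ∩ {z | dot (crs a (z - x)) (crs a (z - x)) < ρ ^ 2 / 16},
    (isOpen_lt hca continuous_const).inter (isOpen_lt hcx continuous_const), ⟨?_, ?_⟩, ?_, ?_⟩
  · change (dot x a) ^ 2 < 1 - r
    linarith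
  · change dot (crs a (x - x)) (crs a (x - x)) < ρ ^ 2 / 16
    have : dot (crs a (x - x)) (crs a (x - x)) = 0 := by simp [dot, crs]
    rw [this]; positivity
  · have hK1 : IsClosed {y : V | 1 - r ≤ (dot y a) ^ 2 ∧ (dot y a) ^ 2 ≤ 1 - δ} :=
      (isClosed_le continuous_const hca).inter (isClosed_le hca continuous_const)
    have hK2 : IsClosed {y : V | |det a x y| ≤ ρ ∧ (dot y a) ^ 2 ≤ 1 - r} :=
      (isClosed_le hcd continuous_const).inter (isClosed_le hca continuous_const)
    have m1 : μ.real {y : V | 1 - r ≤ (dot y a) ^ 2 ∧ (dot y a) ^ 2 ≤ 1 - δ} ≤ τ / 16 := by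
      have b1 : μ.real {y : V | 1 - r ≤ (dot y a) ^ 2 ∧ (dot y a) ^ 2 ≤ 1 - δ} +
          μ.real {a, -a} ≤ μ.real {y : V | 1 - r ≤ (dot y a) ^ 2} := by
        rw [← measureReal_union]
        · apply measureReal_mono _ (measure_ne_top _ _)
          rintro y (hy | hy)
          · exact hy.1
          · rcases hy with rfl | hy
            · change 1 - r ≤ (dot y y) ^ 2
              rw [ha]; linarith
            · rw [Set.mem_singleton_iff] at hy
              subst hy
              change 1 - r ≤ (dot (-a) a) ^ 2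
              have e : dot (-a) a = - dot a a := by simp only [dot, Pi.neg_apply]; ring
              rw [e, ha]; linarith
        · rw [Set.disjoint_left]
          intro y hy hy'
          have hy2 : (dot y a) ^ 2 ≤ 1 - δ := hy.2
          rcases hy' with rfl | hy'
          · rw [ha] at hy2; linarith
          · rw [Set.mem_singleton_iff] at hy'
            subst hy'
            have e : dot (-a) a = - dot a a := by simp only [dot, Pi.neg_apply]; ring
            rw [e, ha] at hy2; linarith
        · exact (Set.toFinite _).measurableSet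
      have := hA r hr1
      linarith
    have m2 : μ.real {y : V | |det a x y| ≤ ρ ∧ (dot y a) ^ 2 ≤ 1 - r} ≤ τ / 16 := hdec2
    have c1 := H.clo _ hK1 (τ / 16) (by linarith)
    have c2 := H.clo _ hK2 (τ / 16) (by linarith)
    have c3 := H.good 1 one_pos
    filter_upwards [c1, c2, c3] with N d1 d2 d3 q hq
    have hn : (0 : ℝ) ≤ m N := Nat.cast_nonneg _
    obtain ⟨hq1, hq2⟩ := hq
    have hq1' : (dot (u N q) a) ^ 2 < 1 - r := hq1
    have hq2' : dot (crs a (u N q - x)) (crs a (u N q - x)) < ρ ^ 2 / 16 := hq2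
    refine ⟨by linarith, ?_⟩
    have key : ((univ : Finset (Fin (m N))).filter (fun j => j ≠ q ∧
        (dot (u N j) a) ^ 2 < 1 - δ ∧
        ∃ i, 1 - δ ≤ (dot (u N i) a) ^ 2 ∧ det (u N i) (u N q) (u N j) = 0)).card ≤
        cnt (u N) {y : V | 1 - r ≤ (dot y a) ^ 2 ∧ (dot y a) ^ 2 ≤ 1 - δ} +
          cnt (u N) {y : V | |det a x y| ≤ ρ ∧ (dot y a) ^ 2 ≤ 1 - r} := by
      unfold cnt
      refine le_trans ?_ (card_union_le _ _)
      apply card_le_card
      intro j hj
      rw [mem_filter] at hj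
      obtain ⟨-, hjq, hj1, i, hi1, hi2⟩ := hj
      simp only [mem_union, mem_filter, mem_univ, true_and]
      by_cases hjr : 1 - r ≤ (dot (u N j) a) ^ 2
      · exact Or.inl ⟨hjr, hj1.le⟩
      · refine Or.inr ⟨?_, (not_le.1 hjr).le⟩
        have uq := d3.toCf.unit q
        have uj := d3.toCf.unit j
        have ui := d3.toCf.unit i
        -- the sign
        have hsgn : ∃ v : V, dot v v ≤ 2 * δ ∧
            det a (u N q) (u N j) = det v (u N q) (u N j) := by
          have hd1 := L3_cs (u N i) a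
          rw [ui, ha] at hd1
          have hd2 : |dot (u N i) a| ≤ 1 := by
            rw [← sq_le_one_iff_abs_le_one]; linarith
          have hd3 : 1 - δ ≤ |dot (u N i) a| := by
            refine le_trans hi1 ?_
            rw [← sq_abs]
            nlinarith [abs_nonneg (dot (u N i) a)]
          rcases le_total 0 (dot (u N i) a) with hs | hs
          · rw [abs_of_nonneg hs] at hd3
            refine ⟨a - u N i, ?_, ?_⟩
            · have e : dot (a - u N i) (a - u N i) =
                  dot a a + dot (u N i) (u N i) - 2 * dot (u N i) a := by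
                simp only [dot, Pi.sub_apply]; ring
              rw [e, ha, ui]; linarith
            · have e : det (a - u N i) (u N q) (u N j) =
                  det a (u N q) (u N j) - det (u N i) (u N q) (u N j) := by
                simp only [det_eq, Pi.sub_apply]; ring
              rw [e, hi2, sub_zero]
          · rw [abs_of_nonpos hs] at hd3
            refine ⟨a + u N i, ?_, ?_⟩
            · have e : dot (a + u N i) (a + u N i) =
                  dot a a + dot (u N i) (u N i) + 2 * dot (u N i) a := by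
                simp only [dot, Pi.add_apply]; ring
              rw [e, ha, ui]; linarith
            · have e : det (a + u N i) (u N q) (u N j) =
                  det a (u N q) (u N j) + det (u N i) (u N q) (u N j) := by
                simp only [det_eq, Pi.add_apply]; ring
              rw [e, hi2, add_zero]
        obtain ⟨v, hv1, hv2⟩ := hsgn
        have f1 : (det a (u N q) (u N j)) ^ 2 ≤ (ρ / 4) ^ 2 := by
          rw [hv2]
          refine le_trans (L3_det uq uj) ?_
          nlinarith
        have f2 : |det a (u N q) (u N j)| ≤ ρ / 4 := abs_le_of_sq_le_sq f1 (by linarith)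
        have f3 : (dot (crs a (u N q - x)) (u N j)) ^ 2 ≤ (ρ / 4) ^ 2 := by
          refine le_trans (L3_cs _ _) ?_
          rw [uj, mul_one]
          nlinarith
        have f4 : |dot (crs a (u N q - x)) (u N j)| ≤ ρ / 4 :=
          abs_le_of_sq_le_sq f3 (by linarith)
        have f5 : det a x (u N j) = det a (u N q) (u N j) - dot (crs a (u N q - x)) (u N j) := by
          simp [det, dot, crs]; ring
        change |det a x (u N j)| ≤ ρ
        rw [f5]
        have := abs_sub (det a (u N q) (u N j)) (dot (crs a (u N q - x)) (u N j))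
        linarith
    have key' : (((univ : Finset (Fin (m N))).filter (fun j => j ≠ q ∧
        (dot (u N j) a) ^ 2 < 1 - δ ∧
        ∃ i, 1 - δ ≤ (dot (u N i) a) ^ 2 ∧ det (u N i) (u N q) (u N j) = 0)).card : ℝ) ≤
        (cnt (u N) {y : V | 1 - r ≤ (dot y a) ^ 2 ∧ (dot y a) ^ 2 ≤ 1 - δ} : ℝ) +
          (cnt (u N) {y : V | |det a x y| ≤ ρ ∧ (dot y a) ^ 2 ≤ 1 - r} : ℝ) := by
      exact_mod_cast key
    refine le_trans key' ?_
    have g1 := mul_le_mul_of_nonneg_right m1 hn
    have g2 := mul_le_mul_of_nonneg_right m2 hn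
    nlinarith
  · have hKA : IsClosed {y : V | 1 - δ ≤ (dot y a) ^ 2} := isClosed_le continuous_const hca
    have hOA : IsOpen {y : V | 1 - δ < (dot y a) ^ 2} := isOpen_lt continuous_const hca
    have c1 := H.clo _ hKA (τ / 16) (by linarith)
    have c2 := opn H _ hOA τ hτ
    have mA := hA δ (by linarith)
    have mO : μ.real {a, -a} ≤ μ.real {y : V | 1 - δ < (dot y a) ^ 2} := by
      apply measureReal_mono _ (measure_ne_top _ _)
      rintro y (rfl | hy)
      · change 1 - δ < (dot y y) ^ 2
        rw [ha]; linarith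
      · rw [Set.mem_singleton_iff] at hy
        subst hy
        change 1 - δ < (dot (-a) a) ^ 2
        have e : dot (-a) a = - dot a a := by simp only [dot, Pi.neg_apply]; ring
        rw [e, ha]; linarith
    filter_upwards [c1, c2] with N d1 d2
    have hn : (0 : ℝ) ≤ m N := Nat.cast_nonneg _
    refine ⟨?_, ?_⟩
    · refine le_trans d1 ?_
      apply mul_le_mul_of_nonneg_right _ hn
      linarith
    · have b2 : cnt (u N) {y : V | 1 - δ < (dot y a) ^ 2} ≤
          cnt (u N) {y : V | 1 - δ ≤ (dot y a) ^ 2} := by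
        unfold cnt
        apply card_le_card
        intro i hi
        rw [mem_filter] at hi ⊢
        have hi2 : 1 - δ < (dot (u N i) a) ^ 2 := hi.2
        exact ⟨mem_univ _, hi2.le⟩
      have b2' : (cnt (u N) {y : V | 1 - δ < (dot y a) ^ 2} : ℝ) ≤
          (cnt (u N) {y : V | 1 - δ ≤ (dot y a) ^ 2} : ℝ) := by exact_mod_cast b2
      refine le_trans ?_ (le_trans d2 b2')
      apply mul_le_mul_of_nonneg_right _ hn
      linarith

end H52.Dir
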