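import Pool.Agent.H52.Dir.Ker

/-!
# Module Lig (160 lines): the lines from a point to a cluster

`A = {i : 1 - δ ≤ (dot (u i) a)²}` is a cluster around `± a`, `q ∉ A`. `B` = the points `j ∉ A`,
`j ≠ q`, on a line that joins `q` to a point of `A`. `TA` = the lines through `q` that meet `A`.

PROOF. For `l ∈ TA` let `k_l = |l ∩ A| ≥ 1` and `b_l = |l ∩ B|`, so `|l| = k_l + 1 + b_l` (`q ∉ A`).
`Σ_{TA} k_l = |A|` and `Σ_{TA} b_l = |B| ≤ τ n` (every point `≠ q` is on exactly one line through `q`: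
`sum_thr`).
(0) If `1 - δ ≤ (dot x a)²`, `1 - δ ≤ (dot y a)²` (unit vectors) then `(dot x y)² ≥ 1 - 4 δ`
(components orthogonal to `a` have norm `≤ √δ`:
`|dot x y| ≥ |dot x a| |dot y a| - δ ≥ (1 - δ) - δ = 1 - 2 δ`).
(1) `cmp_self` at `i ∈ l ∩ A`: `k_l (1 - 8 δ) - 1 - b_l ≤ Σ_{k ∈ l} (2 (dot (u k) (u i))² - 1) ≤ s u l`.
Sum over `TA`: `|A| (1 - 8 δ) - |TA| - τ n ≤ τ n`, so `|TA| ≥ |A| - (2 τ + 8 δ) n`.
(2) The number of `l ∈ TA` with `k_l ≥ 2` is `≤ Σ (k_l - 1) = |A| - |TA| ≤ (2 τ + 8 δ) n`, with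
`b_l ≥ 1` it is `≤ τ n`. So at least `|TA| - (3 τ + 8 δ) n ≥ |A| - (5 τ + 16 δ) n` lines of `TA` are
`l = {q, i}`, `i ∈ A`, and there `sq u l = 2 + 2 (2 (dot (u i) (u q))² - 1) = 4 (dot (u i) (u q))²`,
`s u l = 2 |dot (u i) (u q)| ≥ 2 |dot a (u q)| - 2 √(2 δ)` (for the right sign
`|u i - (± a)|² = 2 - 2 |dot (u i) a| ≤ 2 - 2 (1 - δ) = 2 δ`). Hence, if
`|A| - (5 τ + 16 δ) n ≥ 0`: `(|A| - (5 τ + 16 δ) n) (2 |dot a (u q)| - 2 √(2 δ)) ≤ τ n` (if the second
factor is negative the claim (2) is clear).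
-/

set_option autoImplicit false

namespace H52.Dir

open Finset

variable {n : ℕ}

private theorem lig_comm (x y : V) : dot x y = dot y x := by
  simp only [dot]
  ring

private theorem lig_cs (w z : V) : (dot w z) ^ 2 ≤ dot w w * dot z z := by
  simp only [dot]
  nlinarith [sq_nonneg (w 0 * z 1 - w 1 * z 0), sq_nonneg (w 0 * z 2 - w 2 * z 0),
    sq_nonneg (w 1 * z 2 - w 2 * z 1)]

private theorem lig_gram {a x y : V} (ha : dot a a = 1) (hx : dot x x = 1) (hy : dot y y = 1) :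
    (dot x y - dot x a * dot y a) ^ 2 ≤ (1 - (dot x a) ^ 2) * (1 - (dot y a) ^ 2) := by
  have h1 : dot a a * dot x x * dot y y + 2 * dot x a * dot y a * dot x y
      - dot a a * (dot x y) ^ 2 - dot x x * (dot y a) ^ 2 - dot y y * (dot x a) ^ 2
      = (det a x y) ^ 2 := by
    rw [det_eq]
    simp only [dot]
    ring
  rw [ha, hx, hy] at h1
  nlinarith [sq_nonneg (det a x y)]

private theorem lig_near {a x y : V} {δ : ℝ} (hδ : 0 ≤ δ) (hδ' : δ ≤ 1 / 100)
    (ha : dot a a = 1) (hx : dot x x = 1) (hy : dot y y = 1)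
    (hxa : 1 - δ ≤ (dot x a) ^ 2) (hya : 1 - δ ≤ (dot y a) ^ 2) :
    1 - 4 * δ ≤ (dot x y) ^ 2 := by
  have h1 := lig_gram ha hx hy
  have h2 : (1 - (dot x a) ^ 2) * (1 - (dot y a) ^ 2) ≤ δ * δ := by
    have hx1 : (dot x a) ^ 2 ≤ 1 := by
      have := lig_cs x a
      rw [hx, ha] at this
      linarith
    have hy1 : (dot y a) ^ 2 ≤ 1 := by
      have := lig_cs y a
      rw [hy, ha] at this
      linarith
    exact mul_le_mul (by linarith) (by linarith) (by linarith) hδ
  have h3 : |dot x y - dot x a * dot y a| ≤ δ := by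
    apply abs_le_of_sq_le_sq _ hδ
    nlinarith
  have h4 : 1 - δ ≤ |dot x a * dot y a| := by
    apply le_abs.2
    by_contra hcon
    push Not at hcon
    have h5 : |dot x a * dot y a| < 1 - δ := abs_lt.2 ⟨by linarith [hcon.2], hcon.1⟩
    have h6 : (dot x a * dot y a) ^ 2 < (1 - δ) ^ 2 := by
      rw [← sq_abs (dot x a * dot y a)]
      exact pow_lt_pow_left₀ h5 (abs_nonneg _) two_ne_zero
    have h7 : (1 - δ) * (1 - δ) ≤ (dot x a) ^ 2 * (dot y a) ^ 2 :=
      mul_le_mul hxa hya (by linarith) (by positivity)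
    nlinarith
  have h5 : 1 - 2 * δ ≤ |dot x y| := by
    have h6 : |dot x a * dot y a| ≤ |dot x y| + |dot x y - dot x a * dot y a| := by
      have := abs_sub_abs_le_abs_sub (dot x a * dot y a) (dot x y)
      rw [abs_sub_comm (dot x a * dot y a)] at this
      linarith
    linarith
  have h6 : (1 - 2 * δ) ^ 2 ≤ (dot x y) ^ 2 := by
    rw [← sq_abs (dot x y)]
    exact pow_le_pow_left₀ (by linarith) h5 2
  nlinarith

private theorem lig_diff {a x z : V} {δ : ℝ}
    (ha : dot a a = 1) (hx : dot x x = 1) (hz : dot z z = 1) (hxa : 1 - δ ≤ (dot x a) ^ 2) :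
    |dot a z| - Real.sqrt (2 * δ) ≤ |dot x z| := by
  have hx1 : |dot x a| ≤ 1 := by
    have := lig_cs x a
    rw [hx, ha] at this
    apply abs_le_of_sq_le_sq _ zero_le_one
    linarith
  have hx2 : 1 - δ ≤ |dot x a| := by
    have h := sq_abs (dot x a)
    nlinarith [abs_nonneg (dot x a)]
  have key : ∀ σ : ℝ, σ * σ = 1 → σ * dot x a = |dot x a| →
      |dot x z - σ * dot a z| ≤ Real.sqrt (2 * δ) := by
    intro σ hσ hσ2
    apply Real.abs_le_sqrt
    have h1 := lig_cs (fun i => x i - σ * a i) z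
    have h2 : dot (fun i => x i - σ * a i) z = dot x z - σ * dot a z := by
      simp only [dot]
      ring
    have h3 : dot (fun i => x i - σ * a i) (fun i => x i - σ * a i) =
        dot x x - 2 * (σ * dot x a) + σ * σ * dot a a := by
      simp only [dot]
      ring
    rw [h2, h3, hx, hσ2, hσ, ha, hz] at h1
    linarith
  rcases le_total 0 (dot x a) with h | h
  · have h1 := key 1 (by norm_num) (by rw [one_mul, abs_of_nonneg h])
    have h2 := abs_sub_abs_le_abs_sub (1 * dot a z) (dot x z)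
    rw [abs_sub_comm (1 * dot a z)] at h2
    have h3 : |1 * dot a z| = |dot a z| := by rw [one_mul]
    linarith
  · have h1 := key (-1) (by norm_num) (by rw [abs_of_nonpos h]; ring)
    have h2 := abs_sub_abs_le_abs_sub (-1 * dot a z) (dot x z)
    rw [abs_sub_comm (-1 * dot a z)] at h2
    have h3 : |-1 * dot a z| = |dot a z| := by rw [neg_one_mul, abs_neg]
    linarith

private theorem lig_s_nonneg {u : Fin n → V} (l : Finset (Fin n)) : 0 ≤ s u l :=
  Real.sqrt_nonneg _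

open Classical in
theorem light {u : Fin n → V} (h : Cf u) {a : V} (ha : dot a a = 1) {δ τ : ℝ} (hδ : 0 ≤ δ)
    (hδ' : δ ≤ 1 / 100) (hτ : 0 ≤ τ) {q : Fin n} (hq : (dot (u q) a) ^ 2 < 1 - δ)
    (hs : ∑ l ∈ thr u q, s u l ≤ τ * n)
    (hB : (((univ : Finset (Fin n)).filter (fun j => j ≠ q ∧ (dot (u j) a) ^ 2 < 1 - δ ∧
      ∃ i, 1 - δ ≤ (dot (u i) a) ^ 2 ∧ det (u i) (u q) (u j) = 0)).card : ℝ) ≤ τ * n) :
    (((univ : Finset (Fin n)).filter (fun i => 1 - δ ≤ (dot (u i) a) ^ 2)).card : ℝ)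
        - (2 * τ + 8 * δ) * n ≤
      (((thr u q).filter (fun l => ∃ i ∈ l, 1 - δ ≤ (dot (u i) a) ^ 2)).card : ℝ) ∧
    |dot a (u q)| * ((((univ : Finset (Fin n)).filter
        (fun i => 1 - δ ≤ (dot (u i) a) ^ 2)).card : ℝ) - (5 * τ + 16 * δ) * n) ≤
      (τ + Real.sqrt (2 * δ)) * n := by
  set A : Finset (Fin n) := (univ : Finset (Fin n)).filter (fun i => 1 - δ ≤ (dot (u i) a) ^ 2)
    with hA
  set B : Finset (Fin n) := (univ : Finset (Fin n)).filter (fun j => j ≠ q ∧
    (dot (u j) a) ^ 2 < 1 - δ ∧ ∃ i, 1 - δ ≤ (dot (u i) a) ^ 2 ∧ det (u i) (u q) (u j) = 0)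
    with hBd
  set TA : Finset (Finset (Fin n)) :=
    (thr u q).filter (fun l => ∃ i ∈ l, 1 - δ ≤ (dot (u i) a) ^ 2) with hTA
  have hqA : q ∉ A := by
    rw [hA, mem_filter]
    rintro ⟨-, h1⟩
    linarith
  have hqB : q ∉ B := by
    rw [hBd, mem_filter]
    rintro ⟨-, h1, -⟩
    exact h1 rfl
  have hn0 : (0 : ℝ) ≤ n := Nat.cast_nonneg n
  have hAn : (A.card : ℝ) ≤ n := by
    have := card_le_univ A
    rw [Fintype.card_fin] at this
    exact_mod_cast this
  -- the numbers `k_l`, `b_l`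
  set kk : Finset (Fin n) → ℝ := fun l => ∑ k ∈ l.erase q, (if k ∈ A then (1 : ℝ) else 0) with hkk
  set bb : Finset (Fin n) → ℝ := fun l => ∑ k ∈ l.erase q, (if k ∈ B then (1 : ℝ) else 0) with hbb
  have hbb0 : ∀ l, 0 ≤ bb l := fun l => sum_nonneg fun k _ => by split_ifs <;> norm_num
  have hsumA : ∑ l ∈ TA, kk l = A.card := by
    have h1 := sum_thr h q (fun k => if k ∈ A then (1 : ℝ) else 0)
    have h2 : ∑ l ∈ TA, kk l = ∑ l ∈ thr u q, kk l := by
      apply sum_subset (filter_subset _ _)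
      intro l hl hl'
      apply sum_eq_zero
      intro k hk
      rw [if_neg]
      intro hkA
      apply hl'
      rw [mem_filter]
      refine ⟨hl, k, (mem_erase.1 hk).2, ?_⟩
      rw [hA, mem_filter] at hkA
      exact hkA.2
    rw [h2]
    simp only [hkk]
    rw [h1, sum_erase univ (by rw [if_neg hqA])]
    simp
  have hsumB : ∑ l ∈ TA, bb l ≤ τ * n := by
    have h1 := sum_thr h q (fun k => if k ∈ B then (1 : ℝ) else 0)
    have h2 : ∑ l ∈ TA, bb l ≤ ∑ l ∈ thr u q, bb l :=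
      sum_le_sum_of_subset_of_nonneg (filter_subset _ _) fun l _ _ => hbb0 l
    refine h2.trans ?_
    simp only [hbb]
    rw [h1, sum_erase univ (by rw [if_neg hqB])]
    simpa using hB
  -- every line of `TA` consists of `q`, points of `A` and points of `B`
  have hsplit : ∀ l ∈ TA, ∀ k ∈ l.erase q, k ∉ A → k ∈ B := by
    intro l hl k hk hkA
    rw [hTA, mem_filter] at hl
    obtain ⟨hl1, i, hi, hiA⟩ := hl
    rw [mem_thr] at hl1
    rw [mem_erase] at hk
    rw [hBd, mem_filter]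
    refine ⟨mem_univ _, hk.1, ?_, i, hiA, det_col h hl1.1 hi hl1.2 hk.2⟩
    by_contra hc
    push Not at hc
    exact hkA (by rw [hA, mem_filter]; exact ⟨mem_univ _, hc⟩)
  have hs1 : ∀ l ∈ TA, (1 - 8 * δ) * kk l - 1 - bb l ≤ s u l := by
    intro l hl
    have hl0 := hl
    rw [hTA, mem_filter] at hl
    obtain ⟨hl1, i, hi, hiA⟩ := hl
    rw [mem_thr] at hl1
    have h1 := le_trans (le_abs_self _) (cmp_self h hl1.1 hi)
    refine le_trans ?_ h1
    rw [← add_sum_erase l _ hl1.2]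
    have h2 : ∑ k ∈ l.erase q, ((1 - 8 * δ) * (if k ∈ A then (1 : ℝ) else 0)
        - (if k ∈ B then (1 : ℝ) else 0)) ≤
        ∑ k ∈ l.erase q, (2 * (dot (u k) (u i)) ^ 2 - 1) := by
      apply sum_le_sum
      intro k hk
      by_cases hkA : k ∈ A
      · rw [if_pos hkA]
        have h3 : 1 - 4 * δ ≤ (dot (u k) (u i)) ^ 2 := by
          rw [hA, mem_filter] at hkA
          exact lig_near hδ hδ' ha (h.unit k) (h.unit i) hkA.2 hiA
        have h4 : (0 : ℝ) ≤ (if k ∈ B then (1 : ℝ) else 0) := by split_ifs <;> norm_num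
        linarith
      · rw [if_neg hkA, if_pos (hsplit l hl0 k hk hkA)]
        nlinarith [sq_nonneg (dot (u k) (u i))]
    rw [sum_sub_distrib, ← mul_sum] at h2
    have h3 : (-1 : ℝ) ≤ 2 * (dot (u q) (u i)) ^ 2 - 1 := by
      nlinarith [sq_nonneg (dot (u q) (u i))]
    simp only [hkk, hbb]
    linarith
  have hsTA : ∑ l ∈ TA, s u l ≤ τ * n :=
    le_trans (sum_le_sum_of_subset_of_nonneg (filter_subset _ _)
      fun l _ _ => lig_s_nonneg l) hs
  have hfirst : (A.card : ℝ) - (2 * τ + 8 * δ) * n ≤ (TA.card : ℝ) := by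
    have h1 := sum_le_sum hs1
    rw [sum_sub_distrib, sum_sub_distrib, ← mul_sum, hsumA] at h1
    simp only [sum_const, nsmul_eq_mul, mul_one] at h1
    have h2 : δ * (A.card : ℝ) ≤ δ * n := mul_le_mul_of_nonneg_left hAn hδ
    nlinarith
  refine ⟨hfirst, ?_⟩
  -- the lines `{q, i}`
  set E : Finset (Finset (Fin n)) := TA.filter (fun l => kk l + bb l ≤ 1) with hE
  have hkk1 : ∀ l ∈ TA, 1 ≤ kk l := by
    intro l hl
    rw [hTA, mem_filter] at hl
    obtain ⟨hl1, i, hi, hiA⟩ := hl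
    have hiA' : i ∈ A := by rw [hA, mem_filter]; exact ⟨mem_univ _, hiA⟩
    have hiq : i ≠ q := by rintro rfl; exact hqA hiA'
    have h1 : (if i ∈ A then (1 : ℝ) else 0) ≤ kk l :=
      single_le_sum (f := fun k => if k ∈ A then (1 : ℝ) else 0)
        (fun k _ => by show (0 : ℝ) ≤ if k ∈ A then (1 : ℝ) else 0; split_ifs <;> norm_num)
        (mem_erase.2 ⟨hiq, hi⟩)
    rwa [if_pos hiA'] at h1
  have hint : ∀ l, ∃ N : ℕ, kk l + bb l = N := by
    intro l
    refine ⟨((l.erase q).filter (fun k => k ∈ A)).card + ((l.erase q).filter (fun k => k ∈ B)).card,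
      ?_⟩
    simp only [hkk, hbb]
    push_cast
    rw [sum_ite, sum_ite]
    simp
  have hEcard : (TA.card : ℝ) - (3 * τ + 8 * δ) * n ≤ (E.card : ℝ) := by
    have h1 : ∀ l ∈ TA, (1 : ℝ) - (if kk l + bb l ≤ 1 then 1 else 0) ≤ kk l + bb l - 1 := by
      intro l hl
      split_ifs with hc
      · have := hkk1 l hl
        have := hbb0 l
        linarith
      · obtain ⟨N, hN⟩ := hint l
        rw [hN] at hc ⊢
        push Not at hc
        have h2 : 1 < N := by exact_mod_cast hc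
        have h3 : (2 : ℝ) ≤ N := by exact_mod_cast h2
        linarith
    have h2 := sum_le_sum h1
    rw [sum_sub_distrib, sum_sub_distrib, sum_add_distrib, hsumA] at h2
    have h3 : ∑ l ∈ TA, (if kk l + bb l ≤ 1 then (1 : ℝ) else 0) = E.card := by
      rw [hE, sum_boole]
    rw [h3] at h2
    simp only [sum_const, nsmul_eq_mul, mul_one] at h2
    nlinarith
  have hEs : ∀ l ∈ E, 2 * (|dot a (u q)| - Real.sqrt (2 * δ)) ≤ s u l := by
    intro l hl
    rw [hE, mem_filter] at hl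
    obtain ⟨hlT, hl1⟩ := hl
    have hlT0 := hlT
    rw [hTA, mem_filter] at hlT
    obtain ⟨hlq, i, hi, hiA⟩ := hlT
    rw [mem_thr] at hlq
    have hiA' : i ∈ A := by rw [hA, mem_filter]; exact ⟨mem_univ _, hiA⟩
    have hiq : i ≠ q := by rintro rfl; exact hqA hiA'
    -- `l = {q, i}`
    have hle : ((l.erase q).card : ℝ) ≤ kk l + bb l := by
      simp only [hkk, hbb]
      rw [← sum_add_distrib]
      have h2 : ((l.erase q).card : ℝ) = ∑ k ∈ l.erase q, (1 : ℝ) := by simp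
      rw [h2]
      apply sum_le_sum
      intro k hk
      by_cases hkA : k ∈ A
      · rw [if_pos hkA]
        have h4 : (0 : ℝ) ≤ (if k ∈ B then (1 : ℝ) else 0) := by split_ifs <;> norm_num
        linarith
      · rw [if_neg hkA, if_pos (hsplit l hlT0 k hk hkA)]
        norm_num
    have hc1 : (l.erase q).card ≤ 1 := by
      have : ((l.erase q).card : ℝ) ≤ 1 := hle.trans hl1
      exact_mod_cast this
    have hli : l.erase q = {i} := by
      have h5 : ({i} : Finset (Fin n)) ⊆ l.erase q := by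
        rw [singleton_subset_iff, mem_erase]
        exact ⟨hiq, hi⟩
      exact (eq_of_subset_of_card_le h5 (by rw [card_singleton]; exact hc1)).symm
    have hlq2 : l = insert q {i} := by rw [← hli, insert_erase hlq.2]
    have hsq : sq u l = (2 * dot (u i) (u q)) ^ 2 := by
      unfold sq
      rw [hlq2]
      have hqi : q ∉ ({i} : Finset (Fin n)) := by
        rw [mem_singleton]
        exact hiq.symm
      simp only [sum_insert hqi, sum_singleton]
      rw [h.unit q, h.unit i, lig_comm (u q) (u i)]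
      ring
    have hsl : s u l = 2 * |dot (u i) (u q)| := by
      unfold s
      rw [hsq, Real.sqrt_sq_eq_abs, abs_mul, abs_of_pos (by norm_num : (0 : ℝ) < 2)]
    rw [hsl]
    have := lig_diff ha (h.unit i) (h.unit q) hiA
    linarith
  have hEsum : (E.card : ℝ) * (2 * (|dot a (u q)| - Real.sqrt (2 * δ))) ≤ τ * n := by
    have h1 : ∑ l ∈ E, (2 * (|dot a (u q)| - Real.sqrt (2 * δ))) ≤ ∑ l ∈ E, s u l :=
      sum_le_sum hEs
    rw [sum_const, nsmul_eq_mul] at h1
    refine h1.trans (le_trans ?_ hsTA)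
    exact sum_le_sum_of_subset_of_nonneg (filter_subset _ _) fun l _ _ => lig_s_nonneg l
  have hr0 : 0 ≤ Real.sqrt (2 * δ) := Real.sqrt_nonneg _
  have hx0 : 0 ≤ |dot a (u q)| := abs_nonneg _
  have hM : (A.card : ℝ) - (5 * τ + 16 * δ) * n ≤ (E.card : ℝ) := by
    linarith [hfirst, hEcard]
  have hMn : (A.card : ℝ) - (5 * τ + 16 * δ) * n ≤ n := by
    have : 0 ≤ (5 * τ + 16 * δ) * n := by positivity
    linarith
  set M := (A.card : ℝ) - (5 * τ + 16 * δ) * n with hMd
  set r := Real.sqrt (2 * δ) with hrd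
  set x := |dot a (u q)| with hxd
  rcases lt_or_ge M 0 with hM0 | hM0
  · have h1 : x * M ≤ 0 := mul_nonpos_of_nonneg_of_nonpos hx0 hM0.le
    have h2 : 0 ≤ (τ + r) * n := by positivity
    linarith
  · rcases le_total x r with hxr | hxr
    · have h1 : x * M ≤ r * n := mul_le_mul hxr hMn hM0 hr0
      have h2 : 0 ≤ τ * n := by positivity
      nlinarith
    · have h1 : (x - r) * M ≤ (x - r) * E.card := mul_le_mul_of_nonneg_left hM (by linarith)
      have h2 : r * M ≤ r * n := mul_le_mul_of_nonneg_left hMn hr0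
      have h3 : 0 ≤ τ * n := by positivity
      nlinarith

end H52.Dir
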