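import Pool.Agent.H52.Dir.L3
import Pool.Agent.H52.Dir.Lig

/-!
# Module L3b (90 lines): light circles are orthogonal

`lightperp` PROOF. Suppose `c = |dot x a| > 0`, `α = μ.real {a, -a}`. Take `τ ≤ 1/100` with
`(c/2) (α/2 - 21 τ) > τ + √(2 τ)`; `nearcirc` gives `δ, O`; shrink `O` to the points with `|dot z a| > c/2`.
`typ_pt`: eventually a typical `q` (`Σ s ≤ τ n`) with `u q ∈ O`. `light` (2):
`(c/2) (|A| - (5 τ + 16 δ) n) ≤ (τ + √(2 δ)) n` with `|A| ≥ (α - τ) n`, `δ ≤ τ`: contradiction.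
-/

set_option autoImplicit false

namespace H52.Dir

open Finset MeasureTheory

variable {m : ℕ → ℕ} {u : ∀ N, Fin (m N) → V} {F : Filter ℕ} {μ : Measure V}

theorem lightperp (H : Lm m u F μ) {a x : V} (ha : dot a a = 1) (hα : 0 < μ.real {a, -a})
    (hx : x ∈ μ.support) (h1 : x ≠ a) (h2 : x ≠ -a)
    (h0 : μ {y | det a x y = 0 ∧ y ≠ a ∧ y ≠ -a} = 0) : dot x a = 0 := by
  classical
  by_contra hne
  have hprob := H.prob
  have hF := H.ne
  set c : ℝ := |dot x a| with hc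
  have hc0 : 0 < c := abs_pos.2 hne
  set α : ℝ := μ.real {a, -a} with hαd
  have hxu : dot x x = 1 := supp_sph H hx
  -- the choice of τ
  obtain ⟨τ, hτ0, hτ1, hτ2, hτ3⟩ : ∃ τ : ℝ, 0 < τ ∧ τ < 1 / 100 ∧ τ < α / 2 ∧
      τ + Real.sqrt (2 * τ) < (c / 2) * (α / 2 - 21 * τ) := by
    have hcont : Continuous fun τ : ℝ => (c / 2) * (α / 2 - 21 * τ) - (τ + Real.sqrt (2 * τ)) := by
      fun_prop
    have hpos : (0 : ℝ) < (c / 2) * (α / 2 - 21 * 0) - (0 + Real.sqrt (2 * 0)) := by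
      rw [mul_zero, mul_zero, Real.sqrt_zero]
      have : 0 < c / 2 * (α / 2) := by positivity
      linarith
    have e1 : ∀ᶠ τ in nhds (0 : ℝ), 0 < (c / 2) * (α / 2 - 21 * τ) - (τ + Real.sqrt (2 * τ)) :=
      (hcont.tendsto 0).eventually (lt_mem_nhds hpos)
    have e2 : ∀ᶠ τ in nhds (0 : ℝ), τ < 1 / 100 := gt_mem_nhds (by norm_num)
    have e3 : ∀ᶠ τ in nhds (0 : ℝ), τ < α / 2 := gt_mem_nhds (by linarith)
    have e4 : ∀ᶠ τ in nhdsWithin (0 : ℝ) (Set.Ioi 0), 0 < τ := self_mem_nhdsWithin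
    have e5 : ∀ᶠ τ in nhdsWithin (0 : ℝ) (Set.Ioi 0), 0 < τ ∧ τ < 1 / 100 ∧ τ < α / 2 ∧
        0 < (c / 2) * (α / 2 - 21 * τ) - (τ + Real.sqrt (2 * τ)) :=
      e4.and ((e2.filter_mono nhdsWithin_le_nhds).and
        ((e3.filter_mono nhdsWithin_le_nhds).and (e1.filter_mono nhdsWithin_le_nhds)))
    obtain ⟨τ, t1, t2, t3, t4⟩ := e5.exists
    exact ⟨τ, t1, t2, t3, by linarith⟩
  obtain ⟨δ, hδ0, hδτ, hδ1, O, hO, hxO, hev1, hev2⟩ := nearcirc H ha hxu h1 h2 h0 τ hτ0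
  set O' : Set V := O ∩ {z | c / 2 < |dot z a|} with hO'
  have hdc : Continuous fun z : V => |dot z a| := by
    unfold dot
    fun_prop
  have hO'o : IsOpen O' := hO.inter (isOpen_lt continuous_const hdc)
  have hxO' : x ∈ O' := ⟨hxO, by
    change c / 2 < |dot x a|
    rw [← hc]
    linarith⟩
  have hμO : 0 < μ.real O' := by
    have h3 : 0 < μ O' := (Measure.mem_support_iff_forall x).1 hx O' (hO'o.mem_nhds hxO')
    exact ENNReal.toReal_pos h3.ne' (measure_ne_top μ O')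
  have hev3 := typ_pt H O' hO'o (μ.real O' / 2) (by linarith) τ hτ0
  have hev4 := H.good 1 one_pos
  obtain ⟨N, n1, n2, n3, n4⟩ := (hev1.and (hev2.and (hev3.and hev4))).exists
  have hmN : (0 : ℝ) < m N := by
    have := n4.big
    linarith
  obtain ⟨q, _, hq, hqT⟩ := n3 ∅ (by
    rw [card_empty]
    push_cast
    positivity)
  obtain ⟨g1, g2⟩ := n1 q hq.1
  have g3 := (light n4.toCf ha hδ0.le hδ1 hτ0.le g1 hqT.1 g2).2
  have hcnt : (cnt (u N) {y | 1 - δ ≤ (dot y a) ^ 2} : ℝ) =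
      (((univ : Finset (Fin (m N))).filter (fun i => 1 - δ ≤ (dot (u N i) a) ^ 2)).card : ℝ) := by
    unfold cnt
    congr 2
  have g4 := n2.2
  rw [hcnt] at g4
  set A : ℝ := (((univ : Finset (Fin (m N))).filter
    (fun i => 1 - δ ≤ (dot (u N i) a) ^ 2)).card : ℝ) with hA
  have g5 : (α / 2 - 21 * τ) * m N ≤ A - (5 * τ + 16 * δ) * m N := by
    have h5 : (α / 2 - 21 * τ) * m N ≤ (α - τ) * m N - (5 * τ + 16 * δ) * m N := by
      rw [← sub_mul]
      apply mul_le_mul_of_nonneg_right _ hmN.le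
      linarith
    linarith
  have g6 : c / 2 < |dot a (u N q)| := by
    have h6 : dot a (u N q) = dot (u N q) a := by
      unfold dot; ring
    rw [h6]
    exact hq.2
  have g7 : 0 < (α / 2 - 21 * τ) := by
    by_contra hneg
    push Not at hneg
    have h7 : (c / 2) * (α / 2 - 21 * τ) ≤ 0 := mul_nonpos_of_nonneg_of_nonpos (by linarith) hneg
    have h8 := Real.sqrt_nonneg (2 * τ)
    linarith
  have g8 : (c / 2) * ((α / 2 - 21 * τ) * m N) ≤
      |dot a (u N q)| * (A - (5 * τ + 16 * δ) * m N) :=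
    mul_le_mul g6.le g5 (by positivity) (abs_nonneg _)
  have g9 : Real.sqrt (2 * δ) ≤ Real.sqrt (2 * τ) := Real.sqrt_le_sqrt (by linarith)
  have g10 : (τ + Real.sqrt (2 * δ)) * m N ≤ (τ + Real.sqrt (2 * τ)) * m N :=
    mul_le_mul_of_nonneg_right (by linarith) hmN.le
  have g11 : (τ + Real.sqrt (2 * τ)) * m N < (c / 2) * (α / 2 - 21 * τ) * m N :=
    mul_lt_mul_of_pos_right hτ3 hmN
  have g12 : (c / 2) * (α / 2 - 21 * τ) * m N ≤ (τ + Real.sqrt (2 * δ)) * m N := by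
    calc (c / 2) * (α / 2 - 21 * τ) * m N = (c / 2) * ((α / 2 - 21 * τ) * m N) := by ring
      _ ≤ _ := g8
      _ ≤ _ := g3
  linarith

end H52.Dir
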