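import Pool.Agent.H52.Dir.L3b

/-!
# Module L3c (110 lines): countably many heavy circles

PROOF. For `x` let `Φ x : Fin 3 → Fin 3 → ℝ`, `Φ x i j = (crs a x i) (crs a x j) / dot (crs a x) (crs a x)`
(measurable; the projection onto the normal of the plane of `a, x`). For unit `x, y ≠ ± a`:
`Φ x = Φ y` iff `crs a x` and `crs a y` are parallel iff `det a x y = 0` (only this direction is needed:
`det a x y = 0` implies `crs a y = t • crs a x`, `t ≠ 0`, so `Φ x = Φ y`; and `Φ x = Φ y` implies
`dot (crs a x) y = 0`: `0 = (crs a y ⋅ y)`..., from `Σ_j Φ y i j y j = 0`).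
Let `U = {x | dot x x = 1, x ≠ a, x ≠ -a}` and `μ' = μ.restrict U`. By
`Measure.countable_meas_level_set_pos` (or `countable_meas_pos_of_disjoint_iUnion` with the disjoint sets
`Φ⁻¹{z} ∩ U`) the set `Z` of `z` with `μ' (Φ ⁻¹' {z}) > 0` is countable. For `z ∈ Z` choose `x_z ∈ U` with `Φ x_z = z` and
`h_z = crs a x_z / |crs a x_z|`; `C = {h_z : z ∈ Z}`.
Let `x` be in the exceptional set of the statement, `x ∈ μ.support`, `dot x x = 1` (a set of full measure:
`measure_compl_support`, `sph`). By `lightperp` (contrapositive, `dot x a ≠ 0`)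
`μ {y | det a x y = 0 ∧ y ≠ a ∧ y ≠ -a} > 0`, so `Φ x ∈ Z`, hence `dot x h_{Φ x} = 0`, contradiction. So the
exceptional set is null.
-/

set_option autoImplicit false

namespace H52.Dir

open Finset MeasureTheory

variable {m : ℕ → ℕ} {u : ∀ N, Fin (m N) → V} {F : Filter ℕ} {μ : Measure V}

private theorem L3c_c0 (a x : V) : crs a x 0 = a 1 * x 2 - a 2 * x 1 := rfl
private theorem L3c_c1 (a x : V) : crs a x 1 = a 2 * x 0 - a 0 * x 2 := rfl
private theorem L3c_c2 (a x : V) : crs a x 2 = a 0 * x 1 - a 1 * x 0 := rfl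

private theorem L3c_lag (a x : V) :
    dot (crs a x) (crs a x) = dot a a * dot x x - (dot a x) ^ 2 := by
  simp only [dot, L3c_c0, L3c_c1, L3c_c2]
  ring

private theorem L3c_dot_nonneg (x : V) : 0 ≤ dot x x := by
  unfold dot
  nlinarith [sq_nonneg (x 0), sq_nonneg (x 1), sq_nonneg (x 2)]

private theorem L3c_eq_zero {x : V} (h : dot x x = 0) : x = 0 := by
  unfold dot at h
  have h0 : x 0 = 0 := by nlinarith [sq_nonneg (x 0), sq_nonneg (x 1), sq_nonneg (x 2)]
  have h1 : x 1 = 0 := by nlinarith [sq_nonneg (x 0), sq_nonneg (x 1), sq_nonneg (x 2)]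
  have h2 : x 2 = 0 := by nlinarith [sq_nonneg (x 0), sq_nonneg (x 1), sq_nonneg (x 2)]
  funext j
  fin_cases j
  · exact h0
  · exact h1
  · exact h2

private theorem L3c_par {a x : V} (ha : dot a a = 1) (hx : dot x x = 1)
    (h : dot (crs a x) (crs a x) = 0) : x = a ∨ x = -a := by
  rw [L3c_lag, ha, hx] at h
  have h1 : dot (x - (dot a x) • a) (x - (dot a x) • a) = 0 := by
    have e : dot (x - (dot a x) • a) (x - (dot a x) • a) =
        dot x x - 2 * (dot a x) ^ 2 + (dot a x) ^ 2 * dot a a := by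
      generalize ht : dot a x = t
      simp only [dot, Pi.sub_apply, Pi.smul_apply, smul_eq_mul]
      simp only [dot] at ht
      linear_combination (-2 * t) * ht
    rw [e, hx, ha]
    linarith
  have h2 := L3c_eq_zero h1
  have h3 : x = (dot a x) • a := sub_eq_zero.mp h2
  have h4 : (dot a x - 1) * (dot a x + 1) = 0 := by ring_nf; linarith
  rcases mul_eq_zero.mp h4 with h5 | h5
  · left
    rw [h3, sub_eq_zero.mp h5, one_smul]
  · right
    rw [h3, eq_neg_of_add_eq_zero_left h5, neg_smul, one_smul]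

private noncomputable def L3c_Phi (a x : V) : Fin 3 → Fin 3 → ℝ :=
  fun i j => crs a x i * crs a x j / dot (crs a x) (crs a x)

private theorem L3c_meas (a : V) : Measurable (L3c_Phi a) := by
  have hc : ∀ i, Measurable fun x : V => crs a x i := by
    intro i
    fin_cases i
    · change Measurable fun x : V => a 1 * x 2 - a 2 * x 1
      fun_prop
    · change Measurable fun x : V => a 2 * x 0 - a 0 * x 2
      fun_prop
    · change Measurable fun x : V => a 0 * x 1 - a 1 * x 0
      fun_prop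
  have hd : Measurable fun x : V => dot (crs a x) (crs a x) := by
    unfold dot
    exact (((hc 0).mul (hc 0)).add ((hc 1).mul (hc 1))).add ((hc 2).mul (hc 2))
  refine measurable_pi_lambda _ fun i => measurable_pi_lambda _ fun j => ?_
  exact ((hc i).mul (hc j)).div hd

private theorem L3c_minor (a x y : V) (h : det a x y = 0) (i j : Fin 3) :
    crs a x i * crs a y j = crs a x j * crs a y i := by
  rw [det_eq] at h
  fin_cases i <;> fin_cases j
  · rfl
  · change crs a x 0 * crs a y 1 = crs a x 1 * crs a y 0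
    rw [L3c_c0, L3c_c1, L3c_c0, L3c_c1]
    linear_combination (a 2) * h
  · change crs a x 0 * crs a y 2 = crs a x 2 * crs a y 0
    rw [L3c_c0, L3c_c2, L3c_c0, L3c_c2]
    linear_combination (-a 1) * h
  · change crs a x 1 * crs a y 0 = crs a x 0 * crs a y 1
    rw [L3c_c0, L3c_c1, L3c_c0, L3c_c1]
    linear_combination (-a 2) * h
  · rfl
  · change crs a x 1 * crs a y 2 = crs a x 2 * crs a y 1
    rw [L3c_c1, L3c_c2, L3c_c1, L3c_c2]
    linear_combination (a 0) * h
  · change crs a x 2 * crs a y 0 = crs a x 0 * crs a y 2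
    rw [L3c_c0, L3c_c2, L3c_c0, L3c_c2]
    linear_combination (a 1) * h
  · change crs a x 2 * crs a y 1 = crs a x 1 * crs a y 2
    rw [L3c_c1, L3c_c2, L3c_c1, L3c_c2]
    linear_combination (-a 0) * h
  · rfl

private theorem L3c_Phi_eq {a x y : V} (hx : dot (crs a x) (crs a x) ≠ 0)
    (hy : dot (crs a y) (crs a y) ≠ 0) (h : det a x y = 0) : L3c_Phi a y = L3c_Phi a x := by
  funext i j
  unfold L3c_Phi
  rw [div_eq_div_iff hy hx]
  have e := L3c_minor a x y h
  have e0 := e i 0
  have e1 := e i 1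
  have e2 := e i 2
  have f0 := e j 0
  have f1 := e j 1
  have f2 := e j 2
  simp only [dot]
  generalize crs a x i = ci at *
  generalize crs a x j = cj at *
  generalize crs a y i = di at *
  generalize crs a y j = dj at *
  generalize crs a x 0 = c0 at *
  generalize crs a x 1 = c1 at *
  generalize crs a x 2 = c2 at *
  generalize crs a y 0 = d0 at *
  generalize crs a y 1 = d1 at *
  generalize crs a y 2 = d2 at *
  -- `ci * d0 = c0 * di`, `cj * d0 = c0 * dj`, ...
  linear_combination (-(cj * d0)) * e0 - (c0 * di) * f0 - (cj * d1) * e1 - (c1 * di) * f1 -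
    (cj * d2) * e2 - (c2 * di) * f2

private theorem L3c_dot_zero {a x z : V} (hz : dot (crs a z) (crs a z) ≠ 0)
    (h : L3c_Phi a z = L3c_Phi a x) : dot x (crs a z) = 0 := by
  have h1 : ∀ i, crs a z i * dot x (crs a z) / dot (crs a z) (crs a z) = 0 := by
    intro i
    have e0 := congrFun (congrFun h i) 0
    have e1 := congrFun (congrFun h i) 1
    have e2 := congrFun (congrFun h i) 2
    simp only [L3c_Phi] at e0 e1 e2
    have e3 : crs a x i * (crs a x 0 * x 0 + crs a x 1 * x 1 + crs a x 2 * x 2) = 0 := by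
      rw [L3c_c0, L3c_c1, L3c_c2]
      ring
    have e4 : crs a z i * dot x (crs a z) / dot (crs a z) (crs a z) =
        crs a z i * crs a z 0 / dot (crs a z) (crs a z) * x 0 +
        crs a z i * crs a z 1 / dot (crs a z) (crs a z) * x 1 +
        crs a z i * crs a z 2 / dot (crs a z) (crs a z) * x 2 := by
      rw [dot.eq_1 x]
      ring
    rw [e4, e0, e1, e2]
    have e5 : crs a x i * crs a x 0 / dot (crs a x) (crs a x) * x 0 +
        crs a x i * crs a x 1 / dot (crs a x) (crs a x) * x 1 +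
        crs a x i * crs a x 2 / dot (crs a x) (crs a x) * x 2 =
        crs a x i * (crs a x 0 * x 0 + crs a x 1 * x 1 + crs a x 2 * x 2) /
          dot (crs a x) (crs a x) := by ring
    rw [e5, e3, zero_div]
  have h2 : ∀ i, crs a z i * dot x (crs a z) = 0 := by
    intro i
    have := h1 i
    rwa [div_eq_zero_iff, or_iff_left hz] at this
  by_contra hne
  apply hz
  have g : ∀ i, crs a z i = 0 := fun i => (mul_eq_zero.mp (h2 i)).resolve_right hne
  simp [dot, g]

theorem cover (H : Lm m u F μ) {a : V} (ha : dot a a = 1) (hα : 0 < μ.real {a, -a}) :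
    ∃ C : Set V, C.Countable ∧ (∀ h ∈ C, dot h h = 1 ∧ dot h a = 0) ∧
      μ {x | x ≠ a ∧ x ≠ -a ∧ dot x a ≠ 0 ∧ ∀ h ∈ C, dot x h ≠ 0} = 0 := by
  classical
  have := H.prob
  have hUm : MeasurableSet {x : V | dot x x = 1 ∧ x ≠ a ∧ x ≠ -a} := by
    have c1 : Continuous fun x : V => dot x x := by unfold dot; fun_prop
    exact (isClosed_eq c1 continuous_const).measurableSet.inter
      ((measurableSet_singleton a).compl.inter (measurableSet_singleton (-a)).compl)
  set U : Set V := {x : V | dot x x = 1 ∧ x ≠ a ∧ x ≠ -a} with hU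
  have hcz : ∀ x ∈ U, dot (crs a x) (crs a x) ≠ 0 := by
    rintro x ⟨h1, h2, h3⟩ h4
    rcases L3c_par ha h1 h4 with h5 | h5
    · exact h2 h5
    · exact h3 h5
  have hZ : Set.Countable {t | 0 < (μ.restrict U) {x | L3c_Phi a x = t}} :=
    Measure.countable_meas_level_set_pos (L3c_meas a)
  set Z := {t | 0 < (μ.restrict U) {x | L3c_Phi a x = t}} with hZd
  have hex : ∀ z : Z, ∃ x, x ∈ U ∧ L3c_Phi a x = z := by
    rintro ⟨z, hz⟩
    have h1 : 0 < μ.restrict U {x | L3c_Phi a x = z} := hz
    have hm : MeasurableSet {x | L3c_Phi a x = z} := L3c_meas a (measurableSet_singleton z)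
    rw [Measure.restrict_apply hm] at h1
    obtain ⟨x, hx1, hx2⟩ := nonempty_of_measure_ne_zero h1.ne'
    exact ⟨x, hx2, hx1⟩
  choose xz hxU hxP using hex
  have : Countable Z := hZ.to_subtype
  refine ⟨Set.range fun z : Z => (1 / Real.sqrt (dot (crs a (xz z)) (crs a (xz z)))) •
    crs a (xz z), Set.countable_range _, ?_, ?_⟩
  · rintro _ ⟨z, rfl⟩
    have h1 := hcz _ (hxU z)
    have h2 : 0 < dot (crs a (xz z)) (crs a (xz z)) :=
      lt_of_le_of_ne (L3c_dot_nonneg _) (Ne.symm h1)
    have h3 := Real.sqrt_pos.mpr h2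
    have h4 := Real.sq_sqrt h2.le
    constructor
    · have e : ∀ (c : ℝ) (v : V), dot (c • v) (c • v) = c ^ 2 * dot v v := by
        intro c v
        simp only [dot, Pi.smul_apply, smul_eq_mul]
        ring
      rw [e, div_pow, one_pow, h4]
      field_simp
    · have e : ∀ (c : ℝ) (v w : V), dot (c • v) w = c * dot v w := by
        intro c v w
        simp only [dot, Pi.smul_apply, smul_eq_mul]
        ring
      have e2 : dot (crs a (xz z)) a = 0 := by
        simp only [dot, L3c_c0, L3c_c1, L3c_c2]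
        ring
      rw [e, e2, mul_zero]
  · have hnull : μ ({x | dot x x ≠ 1} ∪ (μ.support)ᶜ) = 0 :=
      measure_union_null H.sph Measure.measure_compl_support
    refine measure_mono_null ?_ hnull
    rintro x ⟨h1, h2, h3, h4⟩
    by_contra hx
    rw [Set.mem_union, not_or] at hx
    have hx1 : dot x x = 1 := by
      by_contra h5
      exact hx.1 h5
    have hx2 : x ∈ μ.support := by
      by_contra h5
      exact hx.2 h5
    have hxU' : x ∈ U := ⟨hx1, h1, h2⟩
    have h5 : μ {y | det a x y = 0 ∧ y ≠ a ∧ y ≠ -a} ≠ 0 := fun h0 =>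
      h3 (lightperp H ha hα hx2 h1 h2 h0)
    have h6 : 0 < μ.restrict U {y | L3c_Phi a y = L3c_Phi a x} := by
      have hm : MeasurableSet {y | L3c_Phi a y = L3c_Phi a x} :=
        L3c_meas a (measurableSet_singleton _)
      rw [Measure.restrict_apply hm]
      refine pos_iff_ne_zero.mpr fun h7 => h5 ?_
      refine measure_mono_null ?_ (measure_union_null H.sph h7)
      rintro y ⟨g1, g2, g3⟩
      by_cases g4 : dot y y = 1
      · right
        exact ⟨L3c_Phi_eq (hcz x hxU') (hcz y ⟨g4, g2, g3⟩) g1, g4, g2, g3⟩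
      · left
        exact g4
    have h8 := h4 _ ⟨⟨L3c_Phi a x, h6⟩, rfl⟩
    apply h8
    have e : ∀ (c : ℝ) (v w : V), dot w (c • v) = c * dot w v := by
      intro c v w
      simp only [dot, Pi.smul_apply, smul_eq_mul]
      ring
    have h9 : dot x (crs a (xz ⟨L3c_Phi a x, h6⟩)) = 0 :=
      L3c_dot_zero (hcz _ (hxU _)) (hxP ⟨L3c_Phi a x, h6⟩)
    change dot x ((1 / Real.sqrt (dot (crs a (xz ⟨L3c_Phi a x, h6⟩))
      (crs a (xz ⟨L3c_Phi a x, h6⟩)))) • crs a (xz ⟨L3c_Phi a x, h6⟩)) = 0
    rw [e, h9, mul_zero]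

end H52.Dir
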