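import Pool.Agent.H52.Dir.Rot
import Pool.Agent.H52.Dir.HdG

/-!
# Module L4a (90 lines): choice of the chart

`chartpick` PROOF. `b = crs h a` (unit, orthogonal to `a` and `h`; every vector orthogonal to `h` is
`x = α a + β b`, `α = dot x a`, `β = dot x b`, and for unit `x ≠ ± a`: `β ≠ 0`). For `t > 0` let `w = √(1 + t²)`,
`g 0 = (b + t a)/w`, `g 1 = (t b - a)/w`, `g 2 = h`: an orthonormal frame. `dot (g 0) a = t/w > 0`,
`dot (g 1) a / dot (g 0) a = - 1/t`, `dot (g 0) x = (β + t α)/w`, and
`dot (g 1) x / dot (g 0) x + 1/t = β (1 + t²) / (t (β + t α))`, which is positive if `0 < t < |β| / (|α| + 1)`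
(then `β` and `β + t α` have the same sign). The same for `y`: take `t` small.
-/

set_option autoImplicit false

namespace H52.Dir

open Finset

private theorem l4a_comm (x y : V) : dot x y = dot y x := by
  unfold dot; ring

private theorem l4a_zero {x : V} (h : dot x x = 0) : x = 0 := by
  unfold dot at h
  have h0 : x 0 = 0 := by nlinarith [sq_nonneg (x 0), sq_nonneg (x 1), sq_nonneg (x 2)]
  have h1 : x 1 = 0 := by nlinarith [sq_nonneg (x 0), sq_nonneg (x 1), sq_nonneg (x 2)]
  have h2 : x 2 = 0 := by nlinarith [sq_nonneg (x 0), sq_nonneg (x 1), sq_nonneg (x 2)]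
  funext i
  fin_cases i
  · exact h0
  · exact h1
  · exact h2

/-- the coordinates of a vector orthogonal to `h` -/
private theorem l4a_co {a h x : V} (ha : dot a a = 1) (hh : dot h h = 1) (hah : dot h a = 0)
    (hx : dot x x = 1) (hxh : dot x h = 0) (hx1 : x ≠ a) (hx2 : x ≠ -a) :
    |dot x a| ≤ 1 ∧ dot x (crs h a) ≠ 0 := by
  have ho := orth_ext hh ha hah
  have hb0 : dot (crs h a) h = 0 := by unfold dot crs; simp; ring
  have hb1 : dot (crs h a) a = 0 := by unfold dot crs; simp; ring
  have hb2 : dot (crs h a) (crs h a) = 1 := ho 2 2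
  set b := crs h a with hb
  have hb3 : dot a b = 0 := by rw [l4a_comm]; exact hb1
  have ha3 : dot a h = 0 := by rw [l4a_comm]; exact hah
  set α := dot x a with hα
  set β := dot x b with hβ
  have key : x = fun i => α * a i + β * b i := by
    set y : V := fun i => x i - (α * a i + β * b i) with hy
    have e : ∀ z : V, dot z y = dot z x - (α * dot z a + β * dot z b) := by
      intro z; rw [hy]; unfold dot; ring
    have h1 : dot h y = 0 := by
      rw [e, l4a_comm h x, hxh, hah, l4a_comm h b, hb0]; ring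
    have h2 : dot a y = 0 := by
      rw [e, l4a_comm a x, ha, hb3, ← hα]; ring
    have h3 : dot b y = 0 := by
      rw [e, l4a_comm b x, hb1, hb2, ← hβ]; ring
    have h4 : dot (rot ![h, a, b] y) (rot ![h, a, b] y) = 0 := by
      have r0 : rot ![h, a, b] y 0 = 0 := h1
      have r1 : rot ![h, a, b] y 1 = 0 := h2
      have r2 : rot ![h, a, b] y 2 = 0 := h3
      unfold dot
      rw [r0, r1, r2]; ring
    rw [dot_rot ho] at h4
    have h5 := l4a_zero h4
    funext i
    have h6 : y i = 0 := by rw [h5]; rfl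
    have h7 : x i - (α * a i + β * b i) = 0 := h6
    linarith
  have hn : α ^ 2 + β ^ 2 = 1 := by
    have h1 : dot x x = α * dot x a + β * dot x b := by
      have k0 : x 0 = α * a 0 + β * b 0 := congrFun key 0
      have k1 : x 1 = α * a 1 + β * b 1 := congrFun key 1
      have k2 : x 2 = α * a 2 + β * b 2 := congrFun key 2
      clear_value α β
      unfold dot
      linear_combination (x 0) * k0 + (x 1) * k1 + (x 2) * k2
    rw [hx, ← hα, ← hβ] at h1
    nlinarith
  refine ⟨?_, fun h0 => ?_⟩
  · rw [abs_le]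
    constructor <;> nlinarith [sq_nonneg β]
  · rw [h0] at hn key
    have h1 : α = 1 ∨ α = -1 := by
      have h2 : (α - 1) * (α + 1) = 0 := by nlinarith
      rcases mul_eq_zero.mp h2 with h3 | h3
      · left; linarith
      · right; linarith
    rcases h1 with h1 | h1
    · apply hx1
      rw [key, h1]
      funext i
      ring
    · apply hx2
      rw [key, h1]
      funext i
      simp

private theorem l4a_pos {α β t : ℝ} (hα : |α| ≤ 1) (ht : 0 < t) (htb : t < |β|) :
    0 < β * (β + t * α) := by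
  have h1 : |t * α * β| ≤ t * |β| := by
    rw [abs_mul, abs_mul, abs_of_pos ht]
    have : t * |α| ≤ t * 1 := mul_le_mul_of_nonneg_left hα ht.le
    calc t * |α| * |β| ≤ t * 1 * |β| := mul_le_mul_of_nonneg_right this (abs_nonneg _)
      _ = t * |β| := by ring
  have h2 := (abs_le.mp h1).1
  have h3 : |β| ^ 2 = β ^ 2 := sq_abs β
  have h4 : 0 < |β| := ht.trans htb
  nlinarith

theorem chartpick {a h x y : V} (ha : dot a a = 1) (hh : dot h h = 1) (hah : dot h a = 0)
    (hx : dot x x = 1) (hxh : dot x h = 0) (hx1 : x ≠ a) (hx2 : x ≠ -a)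
    (hy : dot y y = 1) (hyh : dot y h = 0) (hy1 : y ≠ a) (hy2 : y ≠ -a) :
    ∃ g : Fin 3 → V, Orth g ∧ g 2 = h ∧ dot (g 0) a ≠ 0 ∧ dot (g 0) x ≠ 0 ∧ dot (g 0) y ≠ 0 ∧
      dot (g 1) a / dot (g 0) a < dot (g 1) x / dot (g 0) x ∧
      dot (g 1) a / dot (g 0) a < dot (g 1) y / dot (g 0) y := by
  have ho := orth_ext hh ha hah
  have hb0 : dot (crs h a) h = 0 := by unfold dot crs; simp; ring
  have hb1 : dot (crs h a) a = 0 := by unfold dot crs; simp; ring
  have hb2 : dot (crs h a) (crs h a) = 1 := ho 2 2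
  obtain ⟨ax, bx⟩ := l4a_co ha hh hah hx hxh hx1 hx2
  obtain ⟨ay, by'⟩ := l4a_co ha hh hah hy hyh hy1 hy2
  set b := crs h a with hb
  have ha3 : dot a h = 0 := by rw [l4a_comm]; exact hah
  have hab : dot a b = 0 := by rw [l4a_comm]; exact hb1
  set t := min |dot x b| |dot y b| / 2 with ht
  have hmin : 0 < min |dot x b| |dot y b| := lt_min (abs_pos.mpr bx) (abs_pos.mpr by')
  have ht0 : 0 < t := by rw [ht]; linarith
  have htx : t < |dot x b| := by
    have := min_le_left |dot x b| |dot y b|
    rw [ht]; linarith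
  have hty : t < |dot y b| := by
    have := min_le_right |dot x b| |dot y b|
    rw [ht]; linarith
  set w := Real.sqrt (1 + t ^ 2) with hw
  have hw0 : 0 < w := Real.sqrt_pos.mpr (by positivity)
  have hw2 : w ^ 2 = 1 + t ^ 2 := Real.sq_sqrt (by positivity)
  set g0 : V := fun i => (b i + t * a i) / w with hg0
  set g1 : V := fun i => (t * b i - a i) / w with hg1
  have d0 : ∀ z, dot g0 z = (dot z b + t * dot z a) / w := by
    intro z; rw [hg0]; unfold dot; ring
  have d1 : ∀ z, dot g1 z = (t * dot z b - dot z a) / w := by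
    intro z; rw [hg1]; unfold dot; ring
  have e00 : dot g0 g0 = 1 := by
    rw [d0, l4a_comm g0 b, l4a_comm g0 a, ← l4a_comm g0 b, ← l4a_comm g0 a, d0, d0, hb2, hb1,
      ha, hab]
    field_simp
    rw [hw2]; ring
  have e11 : dot g1 g1 = 1 := by
    rw [d1, d1, d1, hb2, hb1, ha, hab]
    field_simp
    rw [hw2]; ring
  have e01 : dot g0 g1 = 0 := by
    rw [d0, d1, d1, hb2, hb1, ha, hab]
    field_simp
    ring
  have e0h : dot g0 h = 0 := by
    rw [d0, l4a_comm h b, hb0, hah]; simp
  have e1h : dot g1 h = 0 := by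
    rw [d1, l4a_comm h b, hb0, hah]; simp
  have key : ∀ z : V, |dot z a| ≤ 1 → t < |dot z b| → dot g0 z ≠ 0 ∧
      dot g1 a / dot g0 a < dot g1 z / dot g0 z := by
    intro z hz1 hz2
    have hp := l4a_pos hz1 ht0 hz2
    have hne : dot z b + t * dot z a ≠ 0 := by
      intro h0
      rw [h0, mul_zero] at hp
      exact lt_irrefl _ hp
    refine ⟨?_, ?_⟩
    · rw [d0]
      exact div_ne_zero hne hw0.ne'
    · have f1 : dot g1 a / dot g0 a = -(1 / t) := by
        rw [d0, d1, hab, ha]
        field_simp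
        ring
      have f2 : dot g1 z / dot g0 z - -(1 / t) =
          dot z b * (1 + t ^ 2) / (t * (dot z b + t * dot z a)) := by
        rw [d0, d1]
        field_simp
        ring
      have f3 : 0 < dot z b * (1 + t ^ 2) / (t * (dot z b + t * dot z a)) := by
        rcases (mul_pos_iff.mp hp) with ⟨p1, p2⟩ | ⟨p1, p2⟩
        · positivity
        · have n1 : dot z b * (1 + t ^ 2) < 0 := mul_neg_of_neg_of_pos p1 (by positivity)
          have n2 : t * (dot z b + t * dot z a) < 0 := mul_neg_of_pos_of_neg ht0 p2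
          exact div_pos_of_neg_of_neg n1 n2
      rw [← f2, ← f1] at f3
      linarith
  obtain ⟨kx1, kx2⟩ := key x ax htx
  obtain ⟨ky1, ky2⟩ := key y ay hty
  refine ⟨![g0, g1, h], ?_, rfl, ?_, kx1, ky1, kx2, ky2⟩
  · intro i j
    fin_cases i <;> fin_cases j
    · exact e00
    · exact e01
    · exact e0h
    · show dot g1 g0 = 0
      rw [l4a_comm]; exact e01
    · exact e11
    · exact e1h
    · show dot h g0 = 0
      rw [l4a_comm]; exact e0h
    · show dot h g1 = 0
      rw [l4a_comm]; exact e1h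
    · exact hh
  · show dot g0 a ≠ 0
    rw [d0, hab, ha]
    have : 0 < (0 + t * 1) / w := by positivity
    exact this.ne'

end H52.Dir
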