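import Pool.Agent.H52.Dir.LBs
import Pool.Agent.H52.Dir.HdB

/-!
# Module L4b (110 lines): the hypotheses of the heavy direction hold for large `N`

PROOF. `λ = {z | z 2 = 0}`. The closed sets `{z : |z 2| ≤ t}` decrease to `λ` as `t → 0`, so there is
`t > 0` with `μ.real {|z 2| ≤ t} ≤ μ.real λ + τ/4`. Choose `0 < η ≤ min τ 1` with `4 η / s ≤ t`, and
`0 < r ≤ min (τ η) r₀`, `r ≤ η`. Then `2 (η + r) / s ≤ t`. Eventually `cnt {|z 2| ≤ t} ≤ (μ.real λ + τ/2) m`
(`clo`), `cnt {|z 2| < r} ≥ (μ.real λ - τ/4) m` (`opn`, `λ ⊆ {|z 2| < r}`), so `stp` holds (difference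
`≤ 3 τ / 4`), and the last statement. `Ty` from `typ_ev` with `ε₁ = τ` (`Typ` gives the bound on `Σ s`);
`cf`, `big` from `good τ`.
-/

set_option autoImplicit false

namespace H52.Dir

open Finset MeasureTheory

variable {m : ℕ → ℕ} {u : ∀ N, Fin (m N) → V} {F : Filter ℕ} {μ : Measure V}

private theorem L4b_dec (μ : Measure V) [IsFiniteMeasure μ] (f : V → ℝ) (hf : Measurable f)
    (hf0 : ∀ z, 0 ≤ f z) (δ : ℝ) (hδ : 0 < δ) :
    ∃ t > 0, μ.real {z | f z ≤ t} ≤ μ.real {z | f z = 0} + δ := by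
  have hm : ∀ t : ℝ, MeasurableSet {z | f z ≤ t} := fun t => measurableSet_le hf measurable_const
  have h1 := tendsto_measure_iInter_atTop (μ := μ)
    (s := fun k : ℕ => {z | f z ≤ 1 / ((k : ℝ) + 1)})
    (fun k => (hm _).nullMeasurableSet)
    (by
      intro k l hkl z hz
      simp only [Set.mem_setOf_eq] at hz ⊢
      refine le_trans hz ?_
      apply one_div_le_one_div_of_le (by positivity)
      have : (k : ℝ) ≤ l := by exact_mod_cast hkl
      linarith)
    ⟨0, measure_ne_top _ _⟩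
  have h2 : (⋂ k : ℕ, {z | f z ≤ 1 / ((k : ℝ) + 1)}) = {z | f z = 0} := by
    ext z
    simp only [Set.mem_iInter, Set.mem_setOf_eq]
    constructor
    · intro h
      apply le_antisymm _ (hf0 z)
      apply ge_of_tendsto' (tendsto_one_div_add_atTop_nhds_zero_nat (𝕜 := ℝ))
      intro k
      exact h k
    · intro h k
      rw [h]; positivity
  rw [h2] at h1
  have h3 : Filter.Tendsto (fun k : ℕ => μ.real {z | f z ≤ 1 / ((k : ℝ) + 1)}) Filter.atTop
      (nhds (μ.real {z | f z = 0})) := by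
    exact (ENNReal.tendsto_toReal (measure_ne_top _ _)).comp h1
  have h4 : ∀ᶠ k : ℕ in Filter.atTop, μ.real {z | f z ≤ 1 / ((k : ℝ) + 1)} <
      μ.real {z | f z = 0} + δ := h3.eventually (gt_mem_nhds (by linarith))
  obtain ⟨k, hk⟩ := h4.exists
  exact ⟨1 / ((k : ℝ) + 1), by positivity, hk.le⟩

theorem hyp_ex (H : Lm m u F μ) (s τ r₀ : ℝ) (hs : 0 < s) (hs1 : s ≤ 1) (hτ : 0 < τ)
    (hτ1 : τ ≤ 1 / 2) (hr₀ : 0 < r₀) :
    ∃ η r : ℝ, 0 < r ∧ r ≤ r₀ ∧ 0 < η ∧ η ≤ τ ∧ r ≤ τ * η ∧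
      ∀ᶠ N in F, (∃ Ty : Finset (Fin (m N)), Hyp (u N) s η r τ Ty ∧ ∀ i ∈ Ty, Typ (u N) τ i) ∧
        (μ.real {z | z 2 = 0} - τ) * m N ≤ (cnt (u N) {z | |z 2| ≤ r} : ℝ) := by
  classical
  haveI := H.prob
  have hm2 : Measurable (fun z : V => |z 2|) := by fun_prop
  have hc2 : Continuous (fun z : V => |z 2|) := by fun_prop
  obtain ⟨t, ht, hdec⟩ := L4b_dec μ (fun z => |z 2|) hm2 (fun z => abs_nonneg _) (τ / 4)
    (by linarith)
  have hl : {z : V | |z 2| = 0} = {z | z 2 = 0} := by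
    ext z; simp
  rw [hl] at hdec
  set η : ℝ := min τ (t * s / 4) with hη
  have hη0 : 0 < η := by
    rw [hη]; apply lt_min hτ; positivity
  have hη1 : η ≤ τ := min_le_left _ _
  have hη2 : η ≤ t * s / 4 := min_le_right _ _
  set r : ℝ := min (τ * η) r₀ with hr
  have hr0 : 0 < r := by
    rw [hr]; apply lt_min _ hr₀; positivity
  have hr1 : r ≤ τ * η := min_le_left _ _
  have hr2 : r ≤ r₀ := min_le_right _ _
  have hr3 : r ≤ η := by
    refine le_trans hr1 ?_
    nlinarith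
  have h5 : 2 * (η + r) / s ≤ t := by
    rw [div_le_iff₀ hs]
    nlinarith
  refine ⟨η, r, hr0, hr2, hη0, hη1, hr1, ?_⟩
  have e1 := H.clo {z | |z 2| ≤ t} (isClosed_le hc2 continuous_const) (τ / 4) (by linarith)
  have e2 := opn H {z | |z 2| < r} (isOpen_lt hc2 continuous_const) (τ / 4) (by linarith)
  have e3 := typ_ev H τ hτ
  have e4 := H.good τ hτ
  filter_upwards [e1, e2, e3, e4] with N a1 a2 a3 a4
  have hn : (0 : ℝ) ≤ m N := Nat.cast_nonneg _
  have b1 : μ.real {z : V | z 2 = 0} ≤ μ.real {z : V | |z 2| < r} := by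
    apply measureReal_mono _ (measure_ne_top _ _)
    intro z hz
    simp only [Set.mem_setOf_eq] at hz ⊢
    rw [hz, abs_zero]; exact hr0
  have b2 : cnt (u N) {z | |z 2| < r} ≤ cnt (u N) {z | |z 2| ≤ r} := by
    unfold cnt
    apply card_le_card
    intro i hi
    simp only [mem_filter, mem_univ, true_and, Set.mem_setOf_eq] at hi ⊢
    exact hi.le
  have b2' : (cnt (u N) {z | |z 2| < r} : ℝ) ≤ (cnt (u N) {z | |z 2| ≤ r} : ℝ) := by
    exact_mod_cast b2
  have b3 : (μ.real {z : V | z 2 = 0} - τ / 4) * m N ≤ (cnt (u N) {z | |z 2| ≤ r} : ℝ) := by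
    refine le_trans ?_ (le_trans a2 b2')
    apply mul_le_mul_of_nonneg_right _ hn
    linarith
  refine ⟨?_, ?_⟩
  · obtain ⟨Ty, hT1, hT2⟩ := a3
    refine ⟨Ty, ⟨a4.toCf, hs, hs1, hη0, hη1, hr0, hr1, hτ1, ?_, ?_, a4.big, ?_⟩, hT2⟩
    · convert hT1
    · intro i hi
      exact (hT2 i hi).1
    · have c1 : (univ.filter (fun k : Fin (m N) => r < |u N k 2| ∧
          |u N k 2| ≤ 2 * (η + r) / s)).card + cnt (u N) {z | |z 2| ≤ r} ≤
          cnt (u N) {z | |z 2| ≤ t} := by
        unfold cnt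
        rw [← card_union_of_disjoint]
        · apply card_le_card
          intro i hi
          simp only [mem_union, mem_filter, mem_univ, true_and, Set.mem_setOf_eq] at hi ⊢
          rcases hi with ⟨_, h⟩ | h
          · exact le_trans h h5
          · refine le_trans h (le_trans ?_ h5)
            rw [le_div_iff₀ hs]
            nlinarith
        · rw [disjoint_left]
          intro i hi hi'
          simp only [mem_filter, mem_univ, true_and, Set.mem_setOf_eq] at hi hi'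
          linarith [hi.1]
      have c2 : ((univ.filter (fun k : Fin (m N) => r < |u N k 2| ∧
          |u N k 2| ≤ 2 * (η + r) / s)).card : ℝ) + (cnt (u N) {z | |z 2| ≤ r} : ℝ) ≤
          (cnt (u N) {z | |z 2| ≤ t} : ℝ) := by exact_mod_cast c1
      have c3 : (μ.real {z : V | |z 2| ≤ t} + τ / 4) * m N ≤
          (μ.real {z : V | z 2 = 0} + τ / 2) * m N := by
        apply mul_le_mul_of_nonneg_right _ hn
        linarith
      nlinarith
  · refine le_trans ?_ b3
    apply mul_le_mul_of_nonneg_right _ hn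
    linarith

end H52.Dir
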