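import Pool.Agent.H52.Dir.HdG

/-!
# Module L4h (110 lines): bumps and the map chi

`bump` PROOF. For unit `z`: `(z 0)² = (1 - (z 2)² + Re (chi z)) / 2`, `z 0 z 1 = Im (chi z) / 2`, so
`z 1 / z 0 = Im (chi z) / (1 - (z 2)² + Re (chi z))`. The function `(w, t) ↦ w.im / (1 - t + w.re)` on `ℂ × ℝ` is
continuous at `(chi p, 0)`, where the denominator is `2 (p 0)² > 0`. So for `‖chi z - chi p‖ ≤ ρ` and
`(z 2)² ≤ r₀²` small: denominator `≥ (p 0)²`, i.e. `(z 0)² ≥ (p 0)² / 2`, `s = |p 0| / 2`.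

`chi_close` PROOF. Let `d = ± 1` with `d dot z a ≥ 0`, `|d z - a|² = 2 - 2 |dot z a| ≤ 2 - 2 (1 - ρ) = 2 ρ`,
`chi (d z) = chi z`, `chi z - chi a = (z' - a') (z' + a')` (complex numbers `z' = z 0 + i z 1`), so
`‖chi (d z) - chi a‖ ≤ 2 |d z - a| ≤ 2 √(2 ρ)`. `(z 2)² ≤ 1 - (dot z a)²` since `a` is orthogonal to `e_2`.
`chi_im`: `Im (chi x conj chi y) = 2 (x 0 y 0 + x 1 y 1) (x 1 y 0 - x 0 y 1)` (expand); if `x 2 = y 2 = 0` the
first factor is `2 dot x y` and the second vanishes only if `x = ± y`.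
-/

set_option autoImplicit false

namespace H52.Dir

open Finset

private theorem L4h_re (z : V) : (chi z).re = (z 0) ^ 2 - (z 1) ^ 2 := by
  unfold chi
  rw [pow_two]
  simp
  ring

private theorem L4h_im (z : V) : (chi z).im = 2 * (z 0 * z 1) := by
  unfold chi
  rw [pow_two]
  simp
  ring

theorem bump {p : V} (hp : dot p p = 1) (hp2 : p 2 = 0) (hp0 : p 0 ≠ 0) (g : ℝ) (hg : 0 < g) :
    ∃ ρ r₀ s : ℝ, 0 < ρ ∧ 0 < r₀ ∧ 0 < s ∧ s ≤ 1 ∧ ∀ z : V, dot z z = 1 → |z 2| ≤ r₀ →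
      ‖chi z - chi p‖ ≤ ρ → s ≤ |z 0| ∧ |z 1 / z 0 - p 1 / p 0| ≤ g := by
  have hP : 0 < (p 0) ^ 2 := by positivity
  have hp' : p 0 ^ 2 + p 1 ^ 2 = 1 := by
    unfold dot at hp; rw [hp2] at hp; nlinarith
  have hP1 : (p 0) ^ 2 ≤ 1 := by nlinarith [sq_nonneg (p 1)]
  set ρ : ℝ := min ((p 0) ^ 2 / 4) (g * ((p 0) ^ 2) ^ 2 / 4) with hρ
  have hρ0 : 0 < ρ := lt_min (by positivity) (by positivity)
  have hρ1 : ρ ≤ (p 0) ^ 2 / 4 := min_le_left _ _
  have hρ2 : ρ ≤ g * ((p 0) ^ 2) ^ 2 / 4 := min_le_right _ _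
  refine ⟨ρ, ρ, |p 0| / 2, hρ0, hρ0, by positivity, ?_, ?_⟩
  · have : |p 0| ≤ 1 := abs_le_one_iff_mul_self_le_one.2 (by nlinarith)
    linarith
  · intro z hz hz2 hzp
    have hz' : z 0 ^ 2 + z 1 ^ 2 + z 2 ^ 2 = 1 := by unfold dot at hz; nlinarith
    have hr : z 2 ^ 2 ≤ ρ := by
      have h1 : z 2 ^ 2 ≤ ρ ^ 2 := sq_le_sq' (by linarith [neg_abs_le (z 2)])
        (by linarith [le_abs_self (z 2)])
      have h2 : ρ ≤ 1 := by linarith
      nlinarith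
    have hre : |(z 0 ^ 2 - z 1 ^ 2) - (p 0 ^ 2 - p 1 ^ 2)| ≤ ρ := by
      have := Complex.abs_re_le_norm (chi z - chi p)
      rw [Complex.sub_re, L4h_re, L4h_re] at this
      linarith
    have him : |2 * (z 0 * z 1) - 2 * (p 0 * p 1)| ≤ ρ := by
      have := Complex.abs_im_le_norm (chi z - chi p)
      rw [Complex.sub_im, L4h_im, L4h_im] at this
      linarith
    rw [abs_le] at hre him
    have hz0 : (p 0) ^ 2 / 2 ≤ (z 0) ^ 2 := by linarith [hre.1, hre.2, sq_nonneg (z 2)]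
    have hz0' : z 0 ≠ 0 := by
      intro h; rw [h] at hz0; nlinarith
    constructor
    · have h1 : (|p 0| / 2) ^ 2 ≤ |z 0| ^ 2 := by
        rw [div_pow, sq_abs, sq_abs]; linarith
      exact le_of_sq_le_sq h1 (abs_nonneg _)
    · have e : z 1 / z 0 - p 1 / p 0 =
          ((2 * (z 0 * z 1)) * (2 * p 0 ^ 2) - (2 * (p 0 * p 1)) * (2 * z 0 ^ 2)) /
            (4 * (p 0 ^ 2 * z 0 ^ 2)) := by
        field_simp
        ring
      rw [e, abs_div, abs_of_pos (show 0 < 4 * (p 0 ^ 2 * z 0 ^ 2) by positivity),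
        div_le_iff₀ (by positivity)]
      have hpp : |2 * (p 0 * p 1)| ≤ 1 := by
        rw [abs_le]
        constructor
        · linarith [sq_nonneg (p 0 + p 1), add_sq (p 0) (p 1)]
        · linarith [sq_nonneg (p 0 - p 1), sub_sq (p 0) (p 1)]
      have hD : |2 * p 0 ^ 2 - 2 * z 0 ^ 2| ≤ 2 * ρ := by
        rw [abs_le]; constructor <;> linarith [hre.1, hre.2, sq_nonneg (z 2)]
      have h1 : (2 * (z 0 * z 1)) * (2 * p 0 ^ 2) - (2 * (p 0 * p 1)) * (2 * z 0 ^ 2) =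
          (2 * (z 0 * z 1) - 2 * (p 0 * p 1)) * (2 * p 0 ^ 2) +
            (2 * (p 0 * p 1)) * (2 * p 0 ^ 2 - 2 * z 0 ^ 2) := by ring
      rw [h1]
      refine (abs_add_le _ _).trans ?_
      rw [abs_mul (2 * (z 0 * z 1) - 2 * (p 0 * p 1)) (2 * p 0 ^ 2),
        abs_mul (2 * (p 0 * p 1)) (2 * p 0 ^ 2 - 2 * z 0 ^ 2)]
      have h2 : |2 * (z 0 * z 1) - 2 * (p 0 * p 1)| * |2 * p 0 ^ 2| ≤ ρ * 2 := by
        refine mul_le_mul (abs_le.2 him) ?_ (abs_nonneg _) hρ0.le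
        rw [abs_of_pos (by positivity)]; linarith
      have h3 : |2 * (p 0 * p 1)| * |2 * p 0 ^ 2 - 2 * z 0 ^ 2| ≤ 1 * (2 * ρ) :=
        mul_le_mul hpp hD (abs_nonneg _) zero_le_one
      have h4 : g * (4 * (p 0 ^ 2 * ((p 0) ^ 2 / 2))) ≤ g * (4 * (p 0 ^ 2 * z 0 ^ 2)) :=
        mul_le_mul_of_nonneg_left (mul_le_mul_of_nonneg_left
          (mul_le_mul_of_nonneg_left hz0 hP.le) (by norm_num)) hg.le
      have h5 : ρ * 4 ≤ g * (4 * (p 0 ^ 2 * ((p 0) ^ 2 / 2))) := by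
        have h6 : 0 < g * ((p 0) ^ 2) ^ 2 := by positivity
        have h7 : g * (4 * (p 0 ^ 2 * ((p 0) ^ 2 / 2))) = 2 * (g * ((p 0) ^ 2) ^ 2) := by ring
        rw [h7]
        linarith
      linarith

private theorem L4h_aux {z a : V} (hz : dot z z = 1) (ha : dot a a = 1) (ha2 : a 2 = 0) {ρ : ℝ}
    (h0 : 0 ≤ ρ) (h : 1 - ρ ≤ (dot z a) ^ 2) (hd : 0 ≤ dot z a) :
    ‖chi z - chi a‖ ≤ 2 * Real.sqrt (2 * ρ) := by
  have hd1 : 1 - ρ ≤ dot z a := by
    by_contra hc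
    push Not at hc
    nlinarith
  have e : chi z - chi a = (((z 0 : ℂ) + (z 1 : ℂ) * Complex.I) - ((a 0 : ℂ) + (a 1 : ℂ) *
      Complex.I)) * (((z 0 : ℂ) + (z 1 : ℂ) * Complex.I) + ((a 0 : ℂ) + (a 1 : ℂ) *
      Complex.I)) := by
    unfold chi; ring
  have hN : ∀ x y : ℝ, ‖(x : ℂ) + (y : ℂ) * Complex.I‖ = Real.sqrt (x ^ 2 + y ^ 2) :=
    fun x y => Complex.norm_add_mul_I x y
  unfold dot at hz ha hd1
  rw [ha2] at ha hd1
  rw [e, norm_mul]
  have e1 : ((z 0 : ℂ) + (z 1 : ℂ) * Complex.I) - ((a 0 : ℂ) + (a 1 : ℂ) * Complex.I) =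
      ((z 0 - a 0 : ℝ) : ℂ) + ((z 1 - a 1 : ℝ) : ℂ) * Complex.I := by push_cast; ring
  have e2 : ((z 0 : ℂ) + (z 1 : ℂ) * Complex.I) + ((a 0 : ℂ) + (a 1 : ℂ) * Complex.I) =
      ((z 0 + a 0 : ℝ) : ℂ) + ((z 1 + a 1 : ℝ) : ℂ) * Complex.I := by push_cast; ring
  rw [e1, e2, hN, hN, mul_comm]
  have h3 : Real.sqrt ((z 0 + a 0) ^ 2 + (z 1 + a 1) ^ 2) ≤ 2 := by
    rw [show (2 : ℝ) = Real.sqrt (2 ^ 2) by rw [Real.sqrt_sq (by norm_num)]]
    apply Real.sqrt_le_sqrt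
    nlinarith [sq_nonneg (z 0 - a 0), sq_nonneg (z 1 - a 1), sq_nonneg (z 2)]
  have h4 : Real.sqrt ((z 0 - a 0) ^ 2 + (z 1 - a 1) ^ 2) ≤ Real.sqrt (2 * ρ) := by
    apply Real.sqrt_le_sqrt
    nlinarith [sq_nonneg (z 2)]
  exact mul_le_mul h3 h4 (Real.sqrt_nonneg _) (by norm_num)

theorem chi_close {z a : V} (hz : dot z z = 1) (ha : dot a a = 1) (ha2 : a 2 = 0) {ρ : ℝ}
    (h0 : 0 ≤ ρ) (h1 : ρ ≤ 1) (h : 1 - ρ ≤ (dot z a) ^ 2) :
    ‖chi z - chi a‖ ≤ 2 * Real.sqrt (2 * ρ) ∧ (z 2) ^ 2 ≤ ρ := by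
  constructor
  · rcases le_total 0 (dot z a) with hd | hd
    · exact L4h_aux hz ha ha2 h0 h hd
    · have hn : chi (-z) = chi z := by
        unfold chi; simp only [Pi.neg_apply]; push_cast; ring
      rw [← hn]
      have e : dot (-z) a = -dot z a := by
        unfold dot; simp only [Pi.neg_apply]; ring
      refine L4h_aux ?_ ha ha2 h0 ?_ ?_
      · rw [← hz]; unfold dot; simp only [Pi.neg_apply]; ring
      · rw [e]; linarith [neg_sq (dot z a)]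
      · rw [e]; linarith
  · unfold dot at hz ha h
    rw [ha2] at ha h
    have : (z 0 * a 0 + z 1 * a 1) ^ 2 ≤ (z 0 ^ 2 + z 1 ^ 2) * (a 0 ^ 2 + a 1 ^ 2) := by
      nlinarith [sq_nonneg (z 0 * a 1 - z 1 * a 0)]
    have h5 : a 0 ^ 2 + a 1 ^ 2 = 1 := by nlinarith
    rw [h5] at this
    nlinarith

theorem chi_im (x y : V) : (chi x * (starRingEnd ℂ) (chi y)).im =
    2 * (x 0 * y 0 + x 1 * y 1) * (x 1 * y 0 - x 0 * y 1) := by
  rw [Complex.mul_im, Complex.conj_re, Complex.conj_im, L4h_re, L4h_im, L4h_re, L4h_im]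
  ring

/-- on the circle `x 2 = 0` the function `chi` determines the point up to sign -/
theorem chi_inj {x y : V} (hx : dot x x = 1) (hy : dot y y = 1) (hx2 : x 2 = 0) (hy2 : y 2 = 0)
    (h : chi x = chi y) : x = y ∨ x = -y := by
  have hre := congrArg Complex.re h
  have him := congrArg Complex.im h
  rw [L4h_re, L4h_re] at hre
  rw [L4h_im, L4h_im] at him
  unfold dot at hx hy
  rw [hx2] at hx
  rw [hy2] at hy
  have h0 : x 0 ^ 2 = y 0 ^ 2 := by nlinarith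
  have h1 : x 1 ^ 2 = y 1 ^ 2 := by nlinarith
  have hm : x 0 * x 1 = y 0 * y 1 := by linarith
  have key : ∀ (s : ℝ), x 0 = s * y 0 → x 1 = s * y 1 → x = s • y := by
    intro s h0 h1
    ext i
    fin_cases i
    · simpa using h0
    · simpa using h1
    · simp [hx2, hy2]
  rcases sq_eq_sq_iff_eq_or_eq_neg.1 h0 with h0' | h0'
  · rcases sq_eq_sq_iff_eq_or_eq_neg.1 h1 with h1' | h1'
    · left
      have := key 1 (by linarith) (by linarith)
      simpa using this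
    · rw [h0', h1'] at hm
      have : y 0 * y 1 = 0 := by linarith
      rcases mul_eq_zero.1 this with h2 | h2
      · right
        have := key (-1) (by rw [h0', h2]; ring) (by linarith)
        simpa using this
      · left
        have := key 1 (by linarith) (by rw [h1', h2]; ring)
        simpa using this
  · rcases sq_eq_sq_iff_eq_or_eq_neg.1 h1 with h1' | h1'
    · rw [h0', h1'] at hm
      have : y 0 * y 1 = 0 := by linarith
      rcases mul_eq_zero.1 this with h2 | h2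
      · left
        have := key 1 (by rw [h0', h2]; ring) (by linarith)
        simpa using this
      · right
        have := key (-1) (by linarith) (by rw [h1', h2]; ring)
        simpa using this
    · right
      have := key (-1) (by linarith) (by linarith)
      simpa using this

end H52.Dir
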