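import Pool.Agent.H52.Dir.L4a
import Pool.Agent.H52.Dir.L4h
import Pool.Agent.H52.Dir.L4b

/-!
# Module L4c (170 lines): a third point on a heavy circle

PROOF. Let `λ = {z | z 2 = 0}`, `ν = μ.restrict λ`. Suppose every point of `ν.support` of norm 1 and in `λ` is
one of `± a, ± x`. Then `ν (complement of {a, -a, x, -x}) = 0` (`measure_compl_support`, `sph`).
`D = |Im (chi a conj chi x)| > 0` (`chi_im`, `dot x a ≠ 0`, `x ≠ ± a`), `α = μ.real {a, -a} > 0`. Let `ρ > 0` be
small: `ρ ≤ α D / 100`, `ρ ≤ D / 100`, and from `bump` at `a` and at `x` (with `g = 1`): points of the strip `|z 2| ≤ r₀` within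
`ρ` of `chi a` or `chi x` have `s ≤ |z 0|` (`s` = the minimum of the two). The closed sets
`{z : |z 2| ≤ r, ‖chi z - chi a‖ ≥ ρ, ‖chi z - chi x‖ ≥ ρ}` decrease (`r → 0`) to a subset of
`λ \ {± a, ± x}`, of measure 0; take `r₁ ≤ r₀` with measure `< ρ/2`. Let `τ > 0` be small (`τ ≤ ρ`,
`2 (7 + 80/s) τ / (D/2) ≤ α D / 16`, `τ ≤ 1/2`). `hyp_ex H s τ r₁` gives `η, r ≤ r₁`. For large `N`:
typical points `i, j ∈ Ty` (use `typ_pt` with `X = univ \ Ty` for the open sets `{|z 2| < r, ‖chi z - chi a‖ < ρ}`,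
which contains `a` and `-a`, and the same for `x`; positive measure as `x ∈ ν.support`) with
`|Im (chi (u i) conj chi (u j))| ≥ D / 2` (`‖chi‖ ≤ 1`, change at most `2 ρ`). `zsmall` with `c = D/2`:
`‖Zs‖ ≤ α D n / 16`. On the other hand, with `e = chi x` (norm 1): each `k` of the strip contributes to
`Im (Zs conj e)`: if `‖chi (u k) - chi a‖ < ρ`: within `ρ` of `Im (chi a conj e)` (absolute value `D`, fixed sign),
and there are at least `(α - ρ) n ≥ α n / 2` of these (`opn`); if `‖chi (u k) - chi x‖ < ρ`: at most `ρ` in absolute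
value; the others: at most `ρ n` indices (`clo`), each at most 1. So
`|Im (Zs conj e)| ≥ (α/2) (D - ρ) n - ρ n - ρ n > α D n / 16`. Contradiction.
-/

set_option autoImplicit false

namespace H52.Dir

open Finset MeasureTheory

open scoped Topology

variable {m : ℕ → ℕ} {u : ∀ N, Fin (m N) → V} {F : Filter ℕ} {μ : Measure V}

private theorem l4c_le {x : V} (hx : dot x x = 1) : ‖chi x‖ ≤ 1 := by
  rw [chi_norm hx]
  have := sq_nonneg (x 2)
  linarith

private theorem l4c_cont : Continuous chi := by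
  unfold chi
  fun_prop

private theorem l4c_neg (x : V) : chi (-x) = chi x := by
  unfold chi
  simp only [Pi.neg_apply, Complex.ofReal_neg]
  ring

/-- `Im (z conj e)` for nearby numbers -/
private theorem l4c_im (z w e : ℂ) (he : ‖e‖ ≤ 1) :
    |(z * (starRingEnd ℂ) e).im - (w * (starRingEnd ℂ) e).im| ≤ ‖z - w‖ := by
  rw [← Complex.sub_im, ← sub_mul]
  calc |((z - w) * (starRingEnd ℂ) e).im| ≤ ‖(z - w) * (starRingEnd ℂ) e‖ := Complex.abs_im_le_norm _
    _ = ‖z - w‖ * ‖e‖ := by rw [norm_mul, RCLike.norm_conj]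
    _ ≤ ‖z - w‖ * 1 := mul_le_mul_of_nonneg_left he (norm_nonneg _)
    _ = ‖z - w‖ := mul_one _

private theorem l4c_self (e : ℂ) : (e * (starRingEnd ℂ) e).im = 0 := by
  rw [Complex.mul_conj]
  exact Complex.ofReal_im _

open Classical in
private theorem l4c_fin {n : ℕ} {u : Fin n → V} (hu : ∀ i, dot (u i) (u i) = 1) {r ρ : ℝ}
    (hρ : 0 ≤ ρ) {c e : ℂ} (he : ‖e‖ = 1) :
    (|(c * (starRingEnd ℂ) e).im| - ρ) *
        ((univ.filter (fun k => |u k 2| ≤ r ∧ ‖chi (u k) - c‖ < ρ)).card : ℝ) - ρ * n -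
      ((univ.filter (fun k => |u k 2| ≤ r ∧ (ρ ≤ ‖chi (u k) - c‖ ∧ ρ ≤ ‖chi (u k) - e‖))).card : ℝ) ≤
      ‖Zs u r‖ := by
  obtain ⟨σ, hσ, hσ2⟩ : ∃ σ : ℝ, |σ| = 1 ∧
      σ * (c * (starRingEnd ℂ) e).im = |(c * (starRingEnd ℂ) e).im| := by
    rcases le_total 0 (c * (starRingEnd ℂ) e).im with h | h
    · exact ⟨1, abs_one, by rw [one_mul, abs_of_nonneg h]⟩
    · exact ⟨-1, by rw [abs_neg, abs_one], by rw [abs_of_nonpos h]; ring⟩
  set D := |(c * (starRingEnd ℂ) e).im| with hD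
  have hσa : ∀ t : ℝ, |σ * t| = |t| := by
    intro t
    rw [abs_mul, hσ, one_mul]
  -- termwise
  have hterm : ∀ k, (D - ρ) * (if ‖chi (u k) - c‖ < ρ then (1 : ℝ) else 0) - ρ -
      (if ρ ≤ ‖chi (u k) - c‖ ∧ ρ ≤ ‖chi (u k) - e‖ then (1 : ℝ) else 0) ≤
      σ * (chi (u k) * (starRingEnd ℂ) e).im := by
    intro k
    by_cases h1 : ‖chi (u k) - c‖ < ρ
    · rw [if_pos h1, if_neg (fun h => absurd h1 (not_lt.2 h.1))]
      have h2 := (l4c_im (chi (u k)) c e he.le).trans h1.le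
      have h3 : |σ * (chi (u k) * (starRingEnd ℂ) e).im - D| ≤ ρ := by
        rw [← hσ2, ← mul_sub, hσa]
        exact h2
      have h4 := (abs_le.1 h3).1
      linarith
    · rw [if_neg h1]
      push Not at h1
      by_cases h2 : ‖chi (u k) - e‖ < ρ
      · rw [if_neg (fun h => absurd h2 (not_lt.2 h.2))]
        have h3 := (l4c_im (chi (u k)) e e he.le).trans h2.le
        rw [l4c_self, sub_zero, ← hσa] at h3
        have h4 := (abs_le.1 h3).1
        linarith
      · push Not at h2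
        rw [if_pos ⟨h1, h2⟩]
        have h3 : |σ * (chi (u k) * (starRingEnd ℂ) e).im| ≤ 1 := by
          rw [hσa]
          calc |(chi (u k) * (starRingEnd ℂ) e).im| ≤ ‖chi (u k) * (starRingEnd ℂ) e‖ :=
                Complex.abs_im_le_norm _
            _ = ‖chi (u k)‖ * ‖e‖ := by rw [norm_mul, RCLike.norm_conj]
            _ ≤ 1 := by rw [he, mul_one]; exact l4c_le (hu k)
        have h4 := (abs_le.1 h3).1
        linarith
  set St := (univ : Finset (Fin n)).filter (fun k => |u k 2| ≤ r) with hSt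
  have hsum : ∑ k ∈ St, ((D - ρ) * (if ‖chi (u k) - c‖ < ρ then (1 : ℝ) else 0) - ρ -
      (if ρ ≤ ‖chi (u k) - c‖ ∧ ρ ≤ ‖chi (u k) - e‖ then (1 : ℝ) else 0)) ≤
      ∑ k ∈ St, σ * (chi (u k) * (starRingEnd ℂ) e).im :=
    sum_le_sum fun k _ => hterm k
  have hR : ∑ k ∈ St, σ * (chi (u k) * (starRingEnd ℂ) e).im =
      σ * (Zs u r * (starRingEnd ℂ) e).im := by
    rw [← mul_sum]
    congr 1
    unfold Zs
    rw [sum_mul, Complex.im_sum]
  have hL : ∑ k ∈ St, ((D - ρ) * (if ‖chi (u k) - c‖ < ρ then (1 : ℝ) else 0) - ρ -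
      (if ρ ≤ ‖chi (u k) - c‖ ∧ ρ ≤ ‖chi (u k) - e‖ then (1 : ℝ) else 0)) =
      (D - ρ) * ((univ.filter (fun k => |u k 2| ≤ r ∧ ‖chi (u k) - c‖ < ρ)).card : ℝ) -
      ρ * St.card -
      ((univ.filter (fun k => |u k 2| ≤ r ∧ (ρ ≤ ‖chi (u k) - c‖ ∧ ρ ≤ ‖chi (u k) - e‖))).card : ℝ) := by
    rw [sum_sub_distrib, sum_sub_distrib, ← mul_sum, sum_const, nsmul_eq_mul, Finset.sum_boole,
      Finset.sum_boole, hSt, filter_filter, filter_filter]
    ring
  rw [hL, hR] at hsum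
  have hSc : ρ * (St.card : ℝ) ≤ ρ * n := by
    apply mul_le_mul_of_nonneg_left _ hρ
    have : St.card ≤ (univ : Finset (Fin n)).card := card_le_card (subset_univ _)
    rw [card_univ, Fintype.card_fin] at this
    exact_mod_cast this
  have hZ : σ * (Zs u r * (starRingEnd ℂ) e).im ≤ ‖Zs u r‖ := by
    calc σ * (Zs u r * (starRingEnd ℂ) e).im ≤ |σ * (Zs u r * (starRingEnd ℂ) e).im| := le_abs_self _
      _ = |(Zs u r * (starRingEnd ℂ) e).im| := hσa _
      _ ≤ ‖Zs u r * (starRingEnd ℂ) e‖ := Complex.abs_im_le_norm _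
      _ = ‖Zs u r‖ := by rw [norm_mul, RCLike.norm_conj, he, mul_one]
  linarith

/-- the imaginary part at `a`, `x` does not vanish -/
private theorem l4c_D {a x : V} (ha : dot a a = 1) (ha2 : a 2 = 0) (ha0 : a 0 ≠ 0)
    (hx : dot x x = 1) (hx2 : x 2 = 0) (h1 : x ≠ a) (h2 : x ≠ -a) (h3 : dot x a ≠ 0) :
    (chi a * (starRingEnd ℂ) (chi x)).im ≠ 0 := by
  rw [chi_im]
  have e1 : a 0 * x 0 + a 1 * x 1 = dot x a := by
    unfold dot
    rw [ha2, hx2]
    ring
  rw [e1]
  apply mul_ne_zero (mul_ne_zero two_ne_zero h3)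
  intro h4
  have ha' : a 0 * a 0 + a 1 * a 1 = 1 := by
    unfold dot at ha
    rw [ha2] at ha
    linarith
  have hx' : x 0 * x 0 + x 1 * x 1 = 1 := by
    unfold dot at hx
    rw [hx2] at hx
    linarith
  -- x = t a
  have h5 : a 1 * x 0 = a 0 * x 1 := by linarith
  set t := x 0 / a 0 with ht
  have h6 : x 0 = t * a 0 := by rw [ht]; field_simp
  have h7 : x 1 = t * a 1 := by
    apply mul_left_cancel₀ ha0
    rw [← h5, h6]
    ring
  have h8 : t * t = 1 := by
    rw [h6, h7] at hx'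
    have : t * a 0 * (t * a 0) + t * a 1 * (t * a 1) = t * t * (a 0 * a 0 + a 1 * a 1) := by ring
    rw [this, ha', mul_one] at hx'
    exact hx'
  have h9 : t = 1 ∨ t = -1 := mul_self_eq_one_iff.1 h8
  rcases h9 with h9 | h9
  · apply h1
    funext i
    fin_cases i
    · show x 0 = a 0
      rw [h6, h9, one_mul]
    · show x 1 = a 1
      rw [h7, h9, one_mul]
    · show x 2 = a 2
      rw [ha2, hx2]
  · apply h2
    funext i
    fin_cases i
    · show x 0 = (-a) 0
      rw [h6, h9, Pi.neg_apply]; ring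
    · show x 1 = (-a) 1
      rw [h7, h9, Pi.neg_apply]; ring
    · show x 2 = (-a) 2
      rw [Pi.neg_apply, ha2, hx2, neg_zero]

/-- the closed sets -/
private def l4c_K (a x : V) (ρ t : ℝ) : Set V :=
  {z | |z 2| ≤ t ∧ (ρ ≤ ‖chi z - chi a‖ ∧ ρ ≤ ‖chi z - chi x‖)}

private theorem l4c_c1 : Continuous fun z : V => |z 2| := by fun_prop

private theorem l4c_c2 (b : V) : Continuous fun z : V => ‖chi z - chi b‖ :=
  (l4c_cont.sub continuous_const).norm

private theorem l4c_Kc (a x : V) (ρ t : ℝ) : IsClosed (l4c_K a x ρ t) := by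
  have h1 : IsClosed {z : V | |z 2| ≤ t} := isClosed_le l4c_c1 continuous_const
  have h2 : IsClosed {z : V | ρ ≤ ‖chi z - chi a‖} := isClosed_le continuous_const (l4c_c2 a)
  have h3 : IsClosed {z : V | ρ ≤ ‖chi z - chi x‖} := isClosed_le continuous_const (l4c_c2 x)
  exact h1.inter (h2.inter h3)

private theorem l4c_small [IsProbabilityMeasure μ] {a x : V} {ρ : ℝ}
    (h0 : μ {z | z 2 = 0 ∧ (ρ ≤ ‖chi z - chi a‖ ∧ ρ ≤ ‖chi z - chi x‖)} = 0) {ε r₀ : ℝ}
    (hε : 0 < ε) (hr₀ : 0 < r₀) : ∃ t, 0 < t ∧ t ≤ r₀ ∧ μ.real (l4c_K a x ρ t) < ε := by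
  have h1 : Filter.Tendsto (μ ∘ (fun n : ℕ => l4c_K a x ρ (1 / ((n : ℝ) + 1)))) Filter.atTop
      (𝓝 (μ (⋂ n : ℕ, l4c_K a x ρ (1 / ((n : ℝ) + 1))))) := by
    apply tendsto_measure_iInter_atTop
    · intro i
      exact (l4c_Kc _ _ _ _).measurableSet.nullMeasurableSet
    · intro i j hij z hz
      refine ⟨hz.1.trans ?_, hz.2⟩
      apply one_div_le_one_div_of_le (by positivity)
      have : (i : ℝ) ≤ j := by exact_mod_cast hij
      linarith
    · exact ⟨0, measure_ne_top _ _⟩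
  have h2 : μ (⋂ n : ℕ, l4c_K a x ρ (1 / ((n : ℝ) + 1))) = 0 := by
    apply measure_mono_null _ h0
    intro z hz
    rw [Set.mem_iInter] at hz
    refine ⟨?_, (hz 0).2⟩
    have h3 : |z 2| ≤ 0 := by
      have h4 := tendsto_one_div_add_atTop_nhds_zero_nat (𝕜 := ℝ)
      exact ge_of_tendsto' h4 fun n => (hz n).1
    exact abs_nonpos_iff.1 h3
  rw [h2] at h1
  have h3 : Filter.Tendsto (fun n : ℕ => μ.real (l4c_K a x ρ (1 / ((n : ℝ) + 1)))) Filter.atTop
      (𝓝 0) := by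
    have h5 := (ENNReal.tendsto_toReal ENNReal.zero_ne_top).comp h1
    rw [ENNReal.toReal_zero] at h5
    exact h5
  have h4 : ∀ᶠ n : ℕ in Filter.atTop, μ.real (l4c_K a x ρ (1 / ((n : ℝ) + 1))) < ε :=
    h3.eventually_lt_const hε
  have h5 : ∀ᶠ n : ℕ in Filter.atTop, 1 / ((n : ℝ) + 1) < r₀ :=
    (tendsto_one_div_add_atTop_nhds_zero_nat (𝕜 := ℝ)).eventually_lt_const hr₀
  obtain ⟨n, h6, h7⟩ := (h4.and h5).exists
  exact ⟨1 / ((n : ℝ) + 1), by positivity, h7.le, h6⟩

theorem third (H : Lm m u F μ) {a x : V} (ha : dot a a = 1) (ha2 : a 2 = 0) (ha0 : a 0 ≠ 0)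
    (hα : 0 < μ.real {a, -a}) (hx : dot x x = 1) (hx2 : x 2 = 0) (hx0 : x 0 ≠ 0)
    (hs : x ∈ (μ.restrict {z | z 2 = 0}).support) (h1 : x ≠ a) (h2 : x ≠ -a) (h3 : dot x a ≠ 0) :
    ∃ y : V, dot y y = 1 ∧ y 2 = 0 ∧ y ∈ (μ.restrict {z | z 2 = 0}).support ∧ y ≠ a ∧ y ≠ -a ∧
      y ≠ x ∧ y ≠ -x := by
  classical
  by_contra hcon
  have hprob := H.prob
  have hcc := l4c_cont
  have hLm : MeasurableSet {z : V | z 2 = 0} := by
    apply IsClosed.measurableSet
    exact isClosed_eq (by fun_prop) continuous_const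
  have hDne := l4c_D ha ha2 ha0 hx hx2 h1 h2 h3
  have hea : ‖chi a‖ = 1 := by rw [chi_norm ha, ha2]; norm_num
  have hex : ‖chi x‖ = 1 := by rw [chi_norm hx, hx2]; norm_num
  set D := |(chi a * (starRingEnd ℂ) (chi x)).im| with hD
  have hD0 : 0 < D := abs_pos.2 hDne
  set α := μ.real {a, -a} with hαd
  have hα1 : α ≤ 1 := measureReal_le_one
  obtain ⟨ρa, ra, sa, hρa, hra, hsa, hsa1, hba⟩ := bump ha ha2 ha0 1 one_pos
  obtain ⟨ρx, rx, sx, hρx, hrx, hsx, hsx1, hbx⟩ := bump hx hx2 hx0 1 one_pos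
  set s := min sa sx with hsd
  have hs0 : 0 < s := lt_min hsa hsx
  have hs1 : s ≤ 1 := (min_le_left _ _).trans hsa1
  set ρ := min (min ρa ρx) (min (α * D / 100) (D / 100)) with hρd
  have hρ0 : 0 < ρ := lt_min (lt_min hρa hρx) (lt_min (by positivity) (by positivity))
  have q1 : ρ ≤ ρa := (min_le_left _ _).trans (min_le_left _ _)
  have q2 : ρ ≤ ρx := (min_le_left _ _).trans (min_le_right _ _)
  have q3 : ρ ≤ α * D / 100 := (min_le_right _ _).trans (min_le_left _ _)
  have q4 : ρ ≤ D / 100 := (min_le_right _ _).trans (min_le_right _ _)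
  -- the exceptional set has measure zero
  have hnull : μ {z | z 2 = 0 ∧ (ρ ≤ ‖chi z - chi a‖ ∧ ρ ≤ ‖chi z - chi x‖)} = 0 := by
    set ν := μ.restrict {z : V | z 2 = 0} with hν
    have e1 : ν ν.supportᶜ = 0 := Measure.measure_compl_support
    have e2 : ν {z | dot z z ≠ 1} = 0 := by
      apply le_antisymm _ bot_le
      calc ν {z | dot z z ≠ 1} ≤ μ {z | dot z z ≠ 1} := Measure.restrict_apply_le _ _
        _ = 0 := H.sph
    have e3 : μ {z | z 2 = 0 ∧ (ρ ≤ ‖chi z - chi a‖ ∧ ρ ≤ ‖chi z - chi x‖)} =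
        ν {z | ρ ≤ ‖chi z - chi a‖ ∧ ρ ≤ ‖chi z - chi x‖} := by
      rw [hν, Measure.restrict_apply' hLm]
      congr 1
      ext z
      simp only [Set.mem_ofPred_eq, Set.mem_inter_iff]
      tauto
    have e4 : ν {z : V | ¬ z 2 = 0} = 0 := by
      rw [hν, Measure.restrict_apply' hLm]
      have : {z : V | ¬ z 2 = 0} ∩ {z : V | z 2 = 0} = ∅ := by
        ext z
        simp
      rw [this, measure_empty]
    rw [e3]
    apply measure_mono_null _ (measure_union_null (measure_union_null e1 e2) e4)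
    intro z hz
    by_contra hz'
    rw [Set.mem_union, Set.mem_union, not_or, not_or] at hz'
    obtain ⟨⟨z1, z2⟩, z3⟩ := hz'
    have z1' : z ∈ ν.support := by
      by_contra hc
      exact z1 hc
    have z2' : dot z z = 1 := by
      by_contra hc
      exact z2 hc
    have z3' : z 2 = 0 := by
      by_contra hc
      exact z3 hc
    apply hcon
    refine ⟨z, z2', z3', z1', ?_, ?_, ?_, ?_⟩
    · rintro rfl
      have := hz.1
      rw [sub_self, norm_zero] at this
      linarith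
    · rintro rfl
      have := hz.1
      rw [l4c_neg, sub_self, norm_zero] at this
      linarith
    · rintro rfl
      have := hz.2
      rw [sub_self, norm_zero] at this
      linarith
    · rintro rfl
      have := hz.2
      rw [l4c_neg, sub_self, norm_zero] at this
      linarith
  obtain ⟨r₁, hr₁, hr₁', hr₁K⟩ := l4c_small (μ := μ) hnull (ε := ρ / 2) (r₀ := min ra rx)
    (by positivity) (lt_min hra hrx)
  -- the mass near x on the circle
  set β := μ.real {z | z 2 = 0 ∧ ‖chi z - chi x‖ < ρ} with hβ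
  have hβ0 : 0 < β := by
    have e1 : 0 < (μ.restrict {z : V | z 2 = 0}) {z | ‖chi z - chi x‖ < ρ} := by
      apply (Measure.mem_support_iff_forall x).1 hs
      apply IsOpen.mem_nhds
      · exact isOpen_lt (by fun_prop) continuous_const
      · show ‖chi x - chi x‖ < ρ
        rw [sub_self, norm_zero]
        exact hρ0
    rw [Measure.restrict_apply' hLm] at e1
    have e2 : {z | ‖chi z - chi x‖ < ρ} ∩ {z : V | z 2 = 0} =
        {z | z 2 = 0 ∧ ‖chi z - chi x‖ < ρ} := by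
      ext z
      simp only [Set.mem_ofPred_eq, Set.mem_inter_iff]
      tauto
    rw [e2] at e1
    exact ENNReal.toReal_pos e1.ne' (measure_ne_top _ _)
  set E : ℝ := 7 + 80 / s with hE
  have hE0 : 0 < E := by positivity
  set τ := min (min (1 / 2) (α / 8)) (min (β / 4) (α * D ^ 2 / (64 * E))) with hτ
  have hτ0 : 0 < τ := lt_min (lt_min (by norm_num) (by positivity))
    (lt_min (by positivity) (by positivity))
  have t1 : τ ≤ 1 / 2 := (min_le_left _ _).trans (min_le_left _ _)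
  have t2 : τ ≤ α / 8 := (min_le_left _ _).trans (min_le_right _ _)
  have t3 : τ ≤ β / 4 := (min_le_right _ _).trans (min_le_left _ _)
  have t4 : τ ≤ α * D ^ 2 / (64 * E) := (min_le_right _ _).trans (min_le_right _ _)
  obtain ⟨η, r, hr, hrr, hη, hητ, hrη, ev⟩ := hyp_ex H s τ r₁ hs0 hs1 hτ0 t1 hr₁
  -- open sets
  set Oa : Set V := {z | |z 2| < r ∧ ‖chi z - chi a‖ < ρ} with hOa
  set Ox : Set V := {z | |z 2| < r ∧ ‖chi z - chi x‖ < ρ} with hOx
  have hOro : IsOpen {z : V | |z 2| < r} := isOpen_lt l4c_c1 continuous_const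
  have hOao : IsOpen Oa := hOro.inter (isOpen_lt (l4c_c2 a) continuous_const)
  have hOxo : IsOpen Ox := hOro.inter (isOpen_lt (l4c_c2 x) continuous_const)
  have hOam : α ≤ μ.real Oa := by
    apply measureReal_mono _ (measure_ne_top _ _)
    intro z hz
    rw [Set.mem_insert_iff, Set.mem_singleton_iff] at hz
    rcases hz with rfl | rfl
    · refine ⟨?_, ?_⟩
      · rw [ha2, abs_zero]; exact hr
      · rw [sub_self, norm_zero]; exact hρ0
    · refine ⟨?_, ?_⟩
      · rw [Pi.neg_apply, ha2, neg_zero, abs_zero]; exact hr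
      · rw [l4c_neg, sub_self, norm_zero]; exact hρ0
  have hOxm : β ≤ μ.real Ox := by
    apply measureReal_mono _ (measure_ne_top _ _)
    intro z hz
    refine ⟨?_, hz.2⟩
    rw [hz.1, abs_zero]; exact hr
  have ea := opn H Oa hOao (α / 2) (by positivity)
  have ex := opn H Ox hOxo (β / 2) (by positivity)
  have ek := H.clo (l4c_K a x ρ r₁) (l4c_Kc _ _ _ _) (ρ / 2) (by positivity)
  have en := large H 1
  have hne0 := H.ne
  obtain ⟨N, ⟨⟨Ty, hHyp, hTyp⟩, -⟩, ga, gx, gk, gn⟩ := (ev.and (ea.and (ex.and (ek.and en)))).exists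
  have hn0 : (0 : ℝ) < m N := by exact_mod_cast gn
  have hexist : ∀ (O : Set V) (θ : ℝ), 0 < θ → τ ≤ θ / 4 → (θ - θ / 2) * m N ≤ (cnt (u N) O : ℝ) →
      ∃ i ∈ Ty, u N i ∈ O := by
    intro O θ hθ hτθ hO
    by_contra hc
    push Not at hc
    have hsub : (univ : Finset (Fin (m N))).filter (fun i => u N i ∈ O) ⊆ univ \ Ty := by
      intro i hi
      rw [mem_filter] at hi
      rw [mem_sdiff]
      exact ⟨mem_univ _, fun h => hc i h hi.2⟩
    have h4 : (cnt (u N) O : ℝ) ≤ (((univ : Finset (Fin (m N))) \ Ty).card : ℝ) := by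
      unfold cnt
      exact_mod_cast card_le_card hsub
    have h5 := hHyp.ty
    have h6 : (θ - θ / 2) * (m N : ℝ) ≤ τ * m N := hO.trans (h4.trans h5)
    have h7 := le_of_mul_le_mul_right h6 hn0
    linarith
  have ga' : (α - α / 2) * (m N : ℝ) ≤ (cnt (u N) Oa : ℝ) := by
    refine le_trans ?_ ga
    exact mul_le_mul_of_nonneg_right (by linarith) hn0.le
  have gx' : (β - β / 2) * (m N : ℝ) ≤ (cnt (u N) Ox : ℝ) := by
    refine le_trans ?_ gx
    exact mul_le_mul_of_nonneg_right (by linarith) hn0.le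
  obtain ⟨i, hiT, hiO⟩ := hexist Oa α hα (by linarith) ga'
  obtain ⟨j, hjT, hjO⟩ := hexist Ox β hβ0 t3 gx'
  have hunit := hHyp.cf.unit
  have hrra : r ≤ ra := hrr.trans (hr₁'.trans (min_le_left _ _))
  have hrrx : r ≤ rx := hrr.trans (hr₁'.trans (min_le_right _ _))
  have bi := hba (u N i) (hunit i) (hiO.1.le.trans hrra) (hiO.2.le.trans q1)
  have bj := hbx (u N j) (hunit j) (hjO.1.le.trans hrrx) (hjO.2.le.trans q2)
  have hc : D / 2 ≤ |(chi (u N i) * (starRingEnd ℂ) (chi (u N j))).im| := by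
    have c1 := (l4c_im (chi (u N i)) (chi a) (chi (u N j)) (l4c_le (hunit j))).trans hiO.2.le
    have c2 : |(chi a * (starRingEnd ℂ) (chi (u N j))).im - (chi a * (starRingEnd ℂ) (chi x)).im| ≤
        ρ := by
      rw [← Complex.sub_im, ← mul_sub, ← map_sub]
      calc |(chi a * (starRingEnd ℂ) (chi (u N j) - chi x)).im| ≤
            ‖chi a * (starRingEnd ℂ) (chi (u N j) - chi x)‖ := Complex.abs_im_le_norm _
        _ = ‖chi (u N j) - chi x‖ := by rw [norm_mul, RCLike.norm_conj, hea, one_mul]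
        _ ≤ ρ := hjO.2.le
    have c3 : |(chi a * (starRingEnd ℂ) (chi x)).im| ≤
        |(chi (u N i) * (starRingEnd ℂ) (chi (u N j))).im| + ρ + ρ := by
      have := abs_le.1 c1
      have := abs_le.1 c2
      rw [abs_le]
      have p1 := le_abs_self (chi (u N i) * (starRingEnd ℂ) (chi (u N j))).im
      have p2 := neg_abs_le (chi (u N i) * (starRingEnd ℂ) (chi (u N j))).im
      constructor <;> linarith
    rw [← hD] at c3
    linarith
  have hz := zsmall hHyp hiT hiO.1.le ((min_le_left _ _).trans bi.1) hjT hjO.1.le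
    ((min_le_right _ _).trans bj.1) (c := D / 2) (by positivity) hc
  have hz2 : ‖Zs (u N) r‖ ≤ α * D / 16 * m N := by
    refine hz.trans ?_
    have e1 : τ * (64 * E) ≤ α * D ^ 2 := by
      rw [le_div_iff₀ (by positivity)] at t4
      exact t4
    rw [div_le_iff₀ (by positivity)]
    have e2 : 2 * E * τ ≤ α * D / 16 * (D / 2) := by
      have e3 : α * D / 16 * (D / 2) = α * D ^ 2 / 32 := by ring
      have e4 : 2 * E * τ = τ * (64 * E) / 32 := by ring
      rw [e3, e4]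
      linarith
    calc 2 * (7 + 80 / s) * τ * (m N : ℝ) = (2 * E * τ) * m N := by rw [hE]
      _ ≤ (α * D / 16 * (D / 2)) * m N := mul_le_mul_of_nonneg_right e2 hn0.le
      _ = α * D / 16 * m N * (D / 2) := by ring
  have hfin := l4c_fin (u := u N) hunit (r := r) hρ0.le (c := chi a) hex
  rw [← hD] at hfin
  have hNa : α / 2 * m N ≤
      ((univ.filter (fun k => |u N k 2| ≤ r ∧ ‖chi (u N k) - chi a‖ < ρ)).card : ℝ) := by
    have e1 : (cnt (u N) Oa : ℝ) ≤
        ((univ.filter (fun k => |u N k 2| ≤ r ∧ ‖chi (u N k) - chi a‖ < ρ)).card : ℝ) := by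
      unfold cnt
      apply Nat.cast_le.2
      apply card_le_card
      intro k hk
      have hk' : u N k ∈ Oa := by
        simp only [mem_filter, mem_univ, true_and] at hk
        exact hk
      exact mem_filter.2 ⟨mem_univ _, hk'.1.le, hk'.2⟩
    refine le_trans ?_ e1
    refine le_trans (le_of_eq ?_) ga'
    ring
  have hNo : ((univ.filter (fun k => |u N k 2| ≤ r ∧
      (ρ ≤ ‖chi (u N k) - chi a‖ ∧ ρ ≤ ‖chi (u N k) - chi x‖))).card : ℝ) ≤ ρ * m N := by
    have e1 : ((univ.filter (fun k => |u N k 2| ≤ r ∧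
      (ρ ≤ ‖chi (u N k) - chi a‖ ∧ ρ ≤ ‖chi (u N k) - chi x‖))).card : ℝ) ≤
        (cnt (u N) (l4c_K a x ρ r₁) : ℝ) := by
      unfold cnt
      apply Nat.cast_le.2
      apply card_le_card
      intro k hk
      have hk' := (mem_filter.1 hk).2
      exact mem_filter.2 ⟨mem_univ _, hk'.1.trans hrr, hk'.2⟩
    refine e1.trans (gk.trans ?_)
    exact mul_le_mul_of_nonneg_right (by linarith) hn0.le
  have hDρ : 0 ≤ D - ρ := by linarith
  have g1 : (D - ρ) * (α / 2 * m N) ≤ (D - ρ) *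
      ((univ.filter (fun k => |u N k 2| ≤ r ∧ ‖chi (u N k) - chi a‖ < ρ)).card : ℝ) :=
    mul_le_mul_of_nonneg_left hNa hDρ
  have g2 : (D - ρ) * (α / 2 * m N) - ρ * m N - ρ * m N ≤ α * D / 16 * m N := by
    linarith
  have g3 : ((D - ρ) * (α / 2) - ρ - ρ) * m N ≤ (α * D / 16) * m N := by
    calc ((D - ρ) * (α / 2) - ρ - ρ) * (m N : ℝ) =
          (D - ρ) * (α / 2 * m N) - ρ * m N - ρ * m N := by ring
      _ ≤ _ := g2
  have g4 := le_of_mul_le_mul_right g3 hn0
  have g5 : 0 < α * D := by positivity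
  have g6 : ρ * α ≤ α * D / 100 := by
    have := mul_le_mul_of_nonneg_left hα1 hρ0.le
    linarith
  have g7 : (D - ρ) * (α / 2) = α * D / 2 - ρ * α / 2 := by ring
  rw [g7] at g4
  linarith

end H52.Dir
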