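import Pool.Agent.H52.Dir.L4a
import Pool.Agent.H52.Dir.L4h
import Pool.Agent.H52.Dir.L4b
import Pool.Agent.H52.Dir.Hd

/-!
# Module L4d (180 lines): the heavy direction theorem in the limit, in coordinates

`a` an atom, `x, y` two other points of the support of `μ` on `λ = {z | z 2 = 0}`, abscissas
`X_a < X_x < X_y` (`X_z = z 1 / z 0`).

PROOF. `g = (min of the two gaps) / 4`. `bump` at `a`, `x`, `y` with this `g`: `ρ, r₀, s` (minima). `R = ρ / 2`.
`ψ c z = max 0 (min 1 (2 - ‖z - chi p_c‖ / R))` for `p_0 = a, p_1 = x, p_2 = y`: values in `[0, 1]`, Lipschitz with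
`L = 1 / R`, equal to 1 for `‖z - chi p_c‖ ≤ R` and to 0 for `≥ 2 R = ρ`. `D = |Im (chi a conj chi x)| > 0`;
decrease `R` so that `4 R ≤ D / 2`; `c = D/2`. Masses: the open sets `{|z 2| < r, ‖chi z - chi p_c‖ < R}` have measure
`≥ ν {‖chi z - chi p_c‖ < R} =: β_c > 0` for every `r > 0` (`ν = μ.restrict λ`, `p_c ∈ ν.support`; for `a`: contains the
atom), `γ = min β_c / 2`. `hd s g γ c L κ'` (with `κ' = κ`) gives `τ₀`; `τ = min τ₀ κ (R/20) (1/2)` and smaller
than all `β_c / 4`; `hyp_ex H s τ r₀'` gives `η, r` (`r₀' ≤ r₀`). `ρ' > 0` with `2 √(2 ρ') ≤ R/2`, `ρ' ≤ r²`, `ρ' ≤ 1/2`.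
For large `N` the hypotheses of `hd` hold: supports `s ≤ |u i 0|` and the order of the abscissas with the
gap `g` from `bump` (weights vanish outside of the strip `|u i 2| ≤ r ≤ r₀`); masses by `opn`; the two typical
points by `typ_pt` (`X = univ \ Ty`) near `a` and near `x`.
Conclusions. (1) by `chi_close`. (3) = second conclusion of `hd`. (2) for `i` with `1 - ρ' ≤ (dot (u i) a)²`:
`‖chi (u i) - chi a‖ ≤ R/2`, so `wt i = 1`; every `k` of the strip steep to `i` has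
`‖chi (u k) - chi (u i)‖ ≤ 5 r / η ≤ 5 τ ≤ R/4` (`chi_near`), so `wt k = 1`; hence
`Σ_i Sn i ≤ Σ_{i, j} [i ≠ j, ¬ nr] wt i wt j ≤ κ n²`. (4) from `hyp_ex`.
-/

set_option autoImplicit false

namespace H52.Dir

open Finset MeasureTheory

variable {m : ℕ → ℕ} {u : ∀ N, Fin (m N) → V} {F : Filter ℕ} {μ : Measure V}

/-- the bump function -/
private noncomputable def l4d_psi (R : ℝ) (w z : ℂ) : ℝ := max 0 (min 1 (2 - ‖z - w‖ / R))

private theorem l4d_psi01 (R : ℝ) (w z : ℂ) : 0 ≤ l4d_psi R w z ∧ l4d_psi R w z ≤ 1 := by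
  unfold l4d_psi
  exact ⟨le_max_left _ _, max_le zero_le_one (min_le_left _ _)⟩

private theorem l4d_psi_lip {R : ℝ} (hR : 0 < R) (w z z' : ℂ) :
    |l4d_psi R w z - l4d_psi R w z'| ≤ 1 / R * ‖z - z'‖ := by
  unfold l4d_psi
  have h1 := abs_max_sub_max_le_abs (min 1 (2 - ‖z - w‖ / R)) (min 1 (2 - ‖z' - w‖ / R)) 0
  rw [max_comm _ (0 : ℝ), max_comm _ (0 : ℝ)] at h1
  have h2 := abs_min_sub_min_le_max (1 : ℝ) (2 - ‖z - w‖ / R) 1 (2 - ‖z' - w‖ / R)
  have h3 : |2 - ‖z - w‖ / R - (2 - ‖z' - w‖ / R)| ≤ 1 / R * ‖z - z'‖ := by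
    have h4 : 2 - ‖z - w‖ / R - (2 - ‖z' - w‖ / R) = 1 / R * (‖z' - w‖ - ‖z - w‖) := by
      field_simp; ring
    rw [h4, abs_mul, abs_of_pos (by positivity : 0 < 1 / R)]
    apply mul_le_mul_of_nonneg_left _ (by positivity)
    have h5 := abs_norm_sub_norm_le (z' - w) (z - w)
    have h6 : z' - w - (z - w) = z' - z := by ring
    rw [h6, norm_sub_rev z' z] at h5
    exact h5
  refine le_trans h1 (le_trans h2 ?_)
  rw [sub_self, abs_zero]
  exact max_le (by positivity) h3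

private theorem l4d_psi_one {R : ℝ} (hR : 0 < R) {w z : ℂ} (h : ‖z - w‖ ≤ R) :
    l4d_psi R w z = 1 := by
  unfold l4d_psi
  have : ‖z - w‖ / R ≤ 1 := by rw [div_le_one hR]; exact h
  rw [min_eq_left (by linarith), max_eq_right (by norm_num)]

private theorem l4d_psi_ne {R : ℝ} (hR : 0 < R) {w z : ℂ} (h : l4d_psi R w z ≠ 0) :
    ‖z - w‖ < 2 * R := by
  by_contra hcon
  push Not at hcon
  apply h
  unfold l4d_psi
  have : 2 ≤ ‖z - w‖ / R := by rw [le_div_iff₀ hR]; exact hcon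
  rw [min_eq_right (by linarith), max_eq_left (by linarith)]

private theorem l4d_wt_ne {n : ℕ} {u : Fin n → V} {r R : ℝ} (hR : 0 < R) {w : ℂ} {i : Fin n}
    (h : wt u r (l4d_psi R w) i ≠ 0) : |u i 2| ≤ r ∧ ‖chi (u i) - w‖ < 2 * R := by
  unfold wt at h
  split_ifs at h with h1
  · exact ⟨h1, l4d_psi_ne hR h⟩
  · exact absurd rfl h

private theorem l4d_wt_one {n : ℕ} {u : Fin n → V} {r R : ℝ} (hR : 0 < R) {w : ℂ} {i : Fin n}
    (h1 : |u i 2| ≤ r) (h : ‖chi (u i) - w‖ ≤ R) : wt u r (l4d_psi R w) i = 1 := by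
  unfold wt
  rw [if_pos h1, l4d_psi_one hR h]

private theorem l4d_wt_nn {n : ℕ} {u : Fin n → V} {r R : ℝ} {w : ℂ} {i : Fin n} :
    0 ≤ wt u r (l4d_psi R w) i := by
  unfold wt
  split_ifs
  · exact (l4d_psi01 _ _ _).1
  · exact le_rfl

private theorem l4d_chi_cont : Continuous chi := by
  unfold chi
  fun_prop

private theorem l4d_open (r R : ℝ) (w : ℂ) : IsOpen {z : V | |z 2| < r ∧ ‖chi z - w‖ < R} := by
  have h1 : IsOpen {z : V | |z 2| < r} :=
    isOpen_lt ((continuous_apply (2 : Fin 3)).abs) continuous_const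
  have h2 : IsOpen {z : V | ‖chi z - w‖ < R} :=
    isOpen_lt ((l4d_chi_cont.sub continuous_const).norm) continuous_const
  exact h1.inter h2

private theorem l4d_im {z z' w w' : ℂ} (hw : ‖w‖ ≤ 1) (hz' : ‖z'‖ ≤ 1)
    {R : ℝ} (h1 : ‖z - z'‖ ≤ R) (h2 : ‖w - w'‖ ≤ R) :
    |(z' * (starRingEnd ℂ) w').im| - 2 * R ≤ |(z * (starRingEnd ℂ) w).im| := by
  have h3 : z * (starRingEnd ℂ) w - z' * (starRingEnd ℂ) w' =
      (z - z') * (starRingEnd ℂ) w + z' * (starRingEnd ℂ) (w - w') := by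
    rw [map_sub]; ring
  have h4 : ‖z * (starRingEnd ℂ) w - z' * (starRingEnd ℂ) w'‖ ≤ 2 * R := by
    rw [h3]
    refine le_trans (norm_add_le _ _) ?_
    rw [norm_mul, norm_mul, Complex.norm_conj, Complex.norm_conj]
    have a1 : ‖z - z'‖ * ‖w‖ ≤ R * 1 :=
      mul_le_mul h1 hw (norm_nonneg _) (le_trans (norm_nonneg _) h1)
    have a2 : ‖z'‖ * ‖w - w'‖ ≤ 1 * R :=
      mul_le_mul hz' h2 (norm_nonneg _) zero_le_one
    linarith
  have h5 := Complex.abs_im_le_norm (z * (starRingEnd ℂ) w - z' * (starRingEnd ℂ) w')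
  rw [Complex.sub_im] at h5
  have h6 := abs_sub_abs_le_abs_sub (z' * (starRingEnd ℂ) w').im (z * (starRingEnd ℂ) w).im
  rw [abs_sub_comm] at h6
  linarith

private theorem l4d_chi_le {x : V} (hx : dot x x = 1) : ‖chi x‖ ≤ 1 := by
  rw [chi_norm hx]; nlinarith [sq_nonneg (x 2)]

/-- mass of the bumps -/
private theorem l4d_mass {μ : Measure V} [IsProbabilityMeasure μ] {x : V} {R : ℝ} (hR : 0 < R)
    (hxs : x ∈ (μ.restrict {z | z 2 = 0}).support) :
    0 < μ.real ({z | ‖chi z - chi x‖ < R} ∩ {z | z 2 = 0}) := by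
  have h2 : IsOpen {z : V | ‖chi z - chi x‖ < R} :=
    isOpen_lt ((l4d_chi_cont.sub continuous_const).norm) continuous_const
  rw [Measure.mem_support_iff_forall] at hxs
  have h3 := hxs _ (h2.mem_nhds (by simp [hR]))
  rw [Measure.restrict_apply h2.measurableSet] at h3
  rw [Measure.real, ENNReal.toReal_pos_iff]
  exact ⟨h3, measure_lt_top _ _⟩

open Classical in
theorem hdc (H : Lm m u F μ) {a x y : V} (ha : dot a a = 1) (ha2 : a 2 = 0) (ha0 : a 0 ≠ 0)
    (hα : 0 < μ.real {a, -a}) (hx : dot x x = 1) (hx2 : x 2 = 0) (hx0 : x 0 ≠ 0)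
    (hxs : x ∈ (μ.restrict {z | z 2 = 0}).support) (hy : dot y y = 1) (hy2 : y 2 = 0)
    (hy0 : y 0 ≠ 0) (hys : y ∈ (μ.restrict {z | z 2 = 0}).support)
    (hax : (chi a * (starRingEnd ℂ) (chi x)).im ≠ 0 ∨ (chi a * (starRingEnd ℂ) (chi y)).im ≠ 0)
    (h1 : a 1 / a 0 < x 1 / x 0) (h2 : x 1 / x 0 < y 1 / y 0) (κ : ℝ) (hκ : 0 < κ) :
    ∃ s η r ρ : ℝ, 0 < s ∧ s ≤ 1 ∧ 0 < η ∧ η ≤ κ * s ∧ 0 < r ∧ r ≤ η ∧ 0 < ρ ∧ ∀ᶠ N in F,
      (∀ i, 1 - ρ ≤ (dot (u N i) a) ^ 2 → |u N i 2| ≤ r ∧ s ≤ |u N i 0|) ∧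
      (∑ i ∈ univ.filter (fun i => 1 - ρ ≤ (dot (u N i) a) ^ 2), (Sn (u N) η r i : ℝ)) ≤
        κ * (m N : ℝ) ^ 2 ∧
      (∃ Ty : Finset (Fin (m N)), (((univ : Finset (Fin (m N))) \ Ty).card : ℝ) ≤ κ * m N ∧
        ∀ i ∈ Ty, 1 - ρ ≤ (dot (u N i) a) ^ 2 →
          (Tn (u N) η i : ℝ) ≤ (Sn (u N) η r i : ℝ) + κ * m N) ∧
      (μ.real {z | z 2 = 0} - κ) * m N ≤ (cnt (u N) {z | |z 2| ≤ r} : ℝ) := by
  have := H.prob
  have := H.ne
  -- the point with a nonzero imaginary part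
  obtain ⟨q, hqm, hq, hqs, hqD⟩ : ∃ q : V, (q = x ∨ q = y) ∧ dot q q = 1 ∧
      q ∈ (μ.restrict {z | z 2 = 0}).support ∧ (chi a * (starRingEnd ℂ) (chi q)).im ≠ 0 := by
    rcases hax with h | h
    · exact ⟨x, Or.inl rfl, hx, hxs, h⟩
    · exact ⟨y, Or.inr rfl, hy, hys, h⟩
  set D : ℝ := |(chi a * (starRingEnd ℂ) (chi q)).im| with hD
  have hDpos : 0 < D := abs_pos.2 hqD
  set g : ℝ := min (x 1 / x 0 - a 1 / a 0) (y 1 / y 0 - x 1 / x 0) / 4 with hg
  have hgpos : 0 < g := by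
    rw [hg]
    have : 0 < min (x 1 / x 0 - a 1 / a 0) (y 1 / y 0 - x 1 / x 0) :=
      lt_min (by linarith) (by linarith)
    linarith
  have hg1 : 4 * g ≤ x 1 / x 0 - a 1 / a 0 := by
    rw [hg]; have := min_le_left (x 1 / x 0 - a 1 / a 0) (y 1 / y 0 - x 1 / x 0); linarith
  have hg2 : 4 * g ≤ y 1 / y 0 - x 1 / x 0 := by
    rw [hg]; have := min_le_right (x 1 / x 0 - a 1 / a 0) (y 1 / y 0 - x 1 / x 0); linarith
  obtain ⟨ρa, ra, sa, hρa, hra, hsa, hsa1, hBa⟩ := bump ha ha2 ha0 g hgpos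
  obtain ⟨ρx, rx, sx, hρx, hrx, hsx, hsx1, hBx⟩ := bump hx hx2 hx0 g hgpos
  obtain ⟨ρy, ry, sy, hρy, hry, hsy, hsy1, hBy⟩ := bump hy hy2 hy0 g hgpos
  set s : ℝ := min sa (min sx sy) with hs
  have hspos : 0 < s := lt_min hsa (lt_min hsx hsy)
  have hs1 : s ≤ 1 := le_trans (min_le_left _ _) hsa1
  have hssa : s ≤ sa := min_le_left _ _
  have hssx : s ≤ sx := le_trans (min_le_right _ _) (min_le_left _ _)
  have hssy : s ≤ sy := le_trans (min_le_right _ _) (min_le_right _ _)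
  set R : ℝ := min (min ρa (min ρx ρy) / 2) (D / 8) with hR
  have hRpos : 0 < R := by
    have : 0 < min ρa (min ρx ρy) := lt_min hρa (lt_min hρx hρy)
    exact lt_min (by linarith) (by linarith)
  have hRa : 2 * R ≤ ρa := by
    have h1 := min_le_left (min ρa (min ρx ρy) / 2) (D / 8)
    have h2 := min_le_left ρa (min ρx ρy)
    linarith
  have hRx : 2 * R ≤ ρx := by
    have h1 := min_le_left (min ρa (min ρx ρy) / 2) (D / 8)
    have h2 := min_le_right ρa (min ρx ρy)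
    have h3 := min_le_left ρx ρy
    linarith
  have hRy : 2 * R ≤ ρy := by
    have h1 := min_le_left (min ρa (min ρx ρy) / 2) (D / 8)
    have h2 := min_le_right ρa (min ρx ρy)
    have h3 := min_le_right ρx ρy
    linarith
  have hRD : 8 * R ≤ D := by
    have h1 := min_le_right (min ρa (min ρx ρy) / 2) (D / 8)
    linarith
  -- masses
  set βa : ℝ := μ.real ({z | ‖chi z - chi a‖ < R} ∩ {z | z 2 = 0}) with hβa
  set βx : ℝ := μ.real ({z | ‖chi z - chi x‖ < R} ∩ {z | z 2 = 0}) with hβx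
  set βy : ℝ := μ.real ({z | ‖chi z - chi y‖ < R} ∩ {z | z 2 = 0}) with hβy
  have hβx0 : 0 < βx := l4d_mass hRpos hxs
  have hβy0 : 0 < βy := l4d_mass hRpos hys
  have hβa0 : 0 < βa := by
    refine lt_of_lt_of_le hα ?_
    apply measureReal_mono
    · intro z hz
      rcases hz with rfl | hz
      · exact ⟨by simp [hRpos], ha2⟩
      · rw [Set.mem_singleton_iff] at hz
        subst hz
        refine ⟨?_, by simp [ha2]⟩
        have : chi (-a) = chi a := by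
          unfold chi
          simp only [Pi.neg_apply, Complex.ofReal_neg]
          ring
        simp [this, hRpos]
    · exact measure_ne_top _ _
  set γ : ℝ := min βa (min βx βy) / 2 with hγ
  have hγpos : 0 < γ := by
    have : 0 < min βa (min βx βy) := lt_min hβa0 (lt_min hβx0 hβy0)
    linarith
  have hγa : 2 * γ ≤ βa := by
    have := min_le_left βa (min βx βy); linarith
  have hγx : 2 * γ ≤ βx := by
    have h1 := min_le_right βa (min βx βy)
    have h2 := min_le_left βx βy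
    linarith
  have hγy : 2 * γ ≤ βy := by
    have h1 := min_le_right βa (min βx βy)
    have h2 := min_le_right βx βy
    linarith
  obtain ⟨τ₀, hτ₀, hhd⟩ := hd s g γ (D / 2) (1 / R) κ hspos hs1 hgpos hγpos (by linarith)
    (by positivity) hκ
  set τ : ℝ := min (min τ₀ (κ * s)) (min (R / 20) (min (1 / 2) (γ / 2))) with hτ
  have hτpos : 0 < τ := by
    refine lt_min (lt_min hτ₀ (by positivity)) (lt_min (by linarith) (lt_min (by norm_num)
      (by linarith)))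
  have hτ0 : τ ≤ τ₀ := le_trans (min_le_left _ _) (min_le_left _ _)
  have hτκ : τ ≤ κ * s := le_trans (min_le_left _ _) (min_le_right _ _)
  have hτR : τ ≤ R / 20 := le_trans (min_le_right _ _) (min_le_left _ _)
  have hτ2 : τ ≤ 1 / 2 := le_trans (min_le_right _ _) (le_trans (min_le_right _ _)
    (min_le_left _ _))
  have hτγ : τ ≤ γ / 2 := le_trans (min_le_right _ _) (le_trans (min_le_right _ _)
    (min_le_right _ _))
  have hτκ' : τ ≤ κ := le_trans hτκ (mul_le_of_le_one_right hκ.le hs1)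
  obtain ⟨η, r, hr, hr0, hη, hητ, hrτ, hev⟩ := hyp_ex H s τ (min ra (min rx ry)) hspos hs1 hτpos
    hτ2 (lt_min hra (lt_min hrx hry))
  have hrra : r ≤ ra := le_trans hr0 (min_le_left _ _)
  have hrrx : r ≤ rx := le_trans hr0 (le_trans (min_le_right _ _) (min_le_left _ _))
  have hrry : r ≤ ry := le_trans hr0 (le_trans (min_le_right _ _) (min_le_right _ _))
  have hrη : r ≤ η := le_trans hrτ (by
    have := mul_le_mul_of_nonneg_right (show τ ≤ 1 by linarith) hη.le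
    linarith)
  have hη1 : η ≤ 1 := by linarith
  have hr1 : r ≤ 1 := by linarith
  set ρ : ℝ := min (r ^ 2) (min (R ^ 2 / 32) (1 / 2)) with hρ
  have hρpos : 0 < ρ := lt_min (by positivity) (lt_min (by positivity) (by norm_num))
  have hρr : ρ ≤ r ^ 2 := min_le_left _ _
  have hρR : ρ ≤ R ^ 2 / 32 := le_trans (min_le_right _ _) (min_le_left _ _)
  have hρ1 : ρ ≤ 1 := le_trans (min_le_right _ _) (le_trans (min_le_right _ _) (by norm_num))
  refine ⟨s, η, r, ρ, hspos, hs1, hη, le_trans hητ hτκ, hr, hrη, hρpos, ?_⟩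
  -- eventual facts
  have hgood := H.good 1 one_pos
  have hO : ∀ p : V, 2 * γ ≤ μ.real ({z | ‖chi z - chi p‖ < R} ∩ {z | z 2 = 0}) →
      2 * γ ≤ μ.real {z : V | |z 2| < r ∧ ‖chi z - chi p‖ < R} := by
    intro p hp
    refine le_trans hp ?_
    apply measureReal_mono
    · rintro z ⟨h1, h2⟩
      refine ⟨?_, h1⟩
      have h2' : z 2 = 0 := h2
      rw [h2', abs_zero]; exact hr
    · exact measure_ne_top _ _
  have ea := opn H _ (l4d_open r R (chi a)) γ hγpos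
  have ex := opn H _ (l4d_open r R (chi x)) γ hγpos
  have ey := opn H _ (l4d_open r R (chi y)) γ hγpos
  have hβq : 2 * γ ≤ μ.real ({z | ‖chi z - chi q‖ < R} ∩ {z | z 2 = 0}) := by
    rcases hqm with rfl | rfl
    · exact hγx
    · exact hγy
  have ta := typ_pt H _ (l4d_open r R (chi a)) γ (lt_of_lt_of_le (by linarith) (hO a hγa)) 1
    one_pos
  have tq := typ_pt H _ (l4d_open r R (chi q)) γ (lt_of_lt_of_le (by linarith) (hO q hβq)) 1
    one_pos
  filter_upwards [hev, hgood, ea, ex, ey, ta, tq] with N hevN hgN eaN exN eyN taN tqN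
  obtain ⟨⟨Ty, hHyp, hTyp⟩, hcnt⟩ := hevN
  have hmN : (0 : ℝ) ≤ m N := Nat.cast_nonneg _
  have hunit := hgN.toCf.unit
  have hsub : ∀ i, 1 - ρ ≤ (dot (u N i) a) ^ 2 → |u N i 2| ≤ r ∧ ‖chi (u N i) - chi a‖ ≤ R / 2 := by
    intro i hi
    obtain ⟨h1, h2⟩ := chi_close (hunit i) ha ha2 hρpos.le hρ1 hi
    constructor
    · exact abs_le_of_sq_le_sq (le_trans h2 hρr) hr.le
    · refine le_trans h1 ?_
      have h3 : Real.sqrt (2 * ρ) ≤ R / 4 := by
        have h4 : (R / 4) ^ 2 = R ^ 2 / 16 := by ring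
        rw [Real.sqrt_le_left (by linarith), h4]
        linarith
      linarith
  have hX : ∀ p : V, (∀ z : V, dot z z = 1 → |z 2| ≤ r → ‖chi z - chi p‖ ≤ 2 * R →
      s ≤ |z 0| ∧ |z 1 / z 0 - p 1 / p 0| ≤ g) →
      ∀ i, wt (u N) r (l4d_psi R (chi p)) i ≠ 0 →
        s ≤ |u N i 0| ∧ |u N i 1 / u N i 0 - p 1 / p 0| ≤ g := by
    intro p hp i hi
    obtain ⟨h1, h2⟩ := l4d_wt_ne hRpos hi
    exact hp _ (hunit i) h1 h2.le
  have hpa : ∀ z : V, dot z z = 1 → |z 2| ≤ r → ‖chi z - chi a‖ ≤ 2 * R →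
      s ≤ |z 0| ∧ |z 1 / z 0 - a 1 / a 0| ≤ g := by
    intro z h1 h2 h3
    obtain ⟨h4, h5⟩ := hBa z h1 (le_trans h2 hrra) (le_trans h3 hRa)
    exact ⟨le_trans hssa h4, h5⟩
  have hpx : ∀ z : V, dot z z = 1 → |z 2| ≤ r → ‖chi z - chi x‖ ≤ 2 * R →
      s ≤ |z 0| ∧ |z 1 / z 0 - x 1 / x 0| ≤ g := by
    intro z h1 h2 h3
    obtain ⟨h4, h5⟩ := hBx z h1 (le_trans h2 hrrx) (le_trans h3 hRx)
    exact ⟨le_trans hssx h4, h5⟩
  have hpy : ∀ z : V, dot z z = 1 → |z 2| ≤ r → ‖chi z - chi y‖ ≤ 2 * R →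
      s ≤ |z 0| ∧ |z 1 / z 0 - y 1 / y 0| ≤ g := by
    intro z h1 h2 h3
    obtain ⟨h4, h5⟩ := hBy z h1 (le_trans h2 hrry) (le_trans h3 hRy)
    exact ⟨le_trans hssy h4, h5⟩
  have hmass : ∀ p : V, 2 * γ ≤ μ.real {z : V | |z 2| < r ∧ ‖chi z - chi p‖ < R} →
      (μ.real {z : V | |z 2| < r ∧ ‖chi z - chi p‖ < R} - γ) * m N ≤
        (cnt (u N) {z : V | |z 2| < r ∧ ‖chi z - chi p‖ < R} : ℝ) →
      γ * m N ≤ ∑ i, wt (u N) r (l4d_psi R (chi p)) i := by
    intro p h1 h2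
    have h3 : γ * m N ≤ (cnt (u N) {z : V | |z 2| < r ∧ ‖chi z - chi p‖ < R} : ℝ) := by
      refine le_trans ?_ h2
      exact mul_le_mul_of_nonneg_right (by linarith) hmN
    refine le_trans h3 ?_
    unfold cnt
    rw [← nsmul_one, ← sum_const, sum_filter]
    apply sum_le_sum
    intro i _
    split_ifs with hi
    · rw [l4d_wt_one hRpos hi.1.le hi.2.le]
    · exact l4d_wt_nn
  -- typical points
  have hTyc : (((univ : Finset (Fin (m N))) \ Ty).card : ℝ) ≤ γ * m N := by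
    refine le_trans hHyp.ty ?_
    exact mul_le_mul_of_nonneg_right (by linarith) hmN
  obtain ⟨i₀, hi₀, hi₀O, _⟩ := taN _ hTyc
  obtain ⟨j₀, hj₀, hj₀O, _⟩ := tqN _ hTyc
  have hi₀T : i₀ ∈ Ty := by
    by_contra hcon
    exact hi₀ (mem_sdiff.2 ⟨mem_univ _, hcon⟩)
  have hj₀T : j₀ ∈ Ty := by
    by_contra hcon
    exact hj₀ (mem_sdiff.2 ⟨mem_univ _, hcon⟩)
  have hpq : ∀ z : V, dot z z = 1 → |z 2| ≤ r → ‖chi z - chi q‖ ≤ 2 * R → s ≤ |z 0| := by
    intro z g1 g2 g3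
    rcases hqm with hq' | hq'
    · rw [hq'] at g3
      exact (hpx z g1 g2 g3).1
    · rw [hq'] at g3
      exact (hpy z g1 g2 g3).1
  have hpair : ∃ i ∈ Ty, ∃ j ∈ Ty, |u N i 2| ≤ r ∧ s ≤ |u N i 0| ∧ |u N j 2| ≤ r ∧
      s ≤ |u N j 0| ∧ D / 2 ≤ |(chi (u N i) * (starRingEnd ℂ) (chi (u N j))).im| := by
    refine ⟨i₀, hi₀T, j₀, hj₀T, hi₀O.1.le, (hpa _ (hunit i₀) hi₀O.1.le ?_).1, hj₀O.1.le,
      hpq _ (hunit j₀) hj₀O.1.le ?_, ?_⟩
    · linarith [hi₀O.2]
    · linarith [hj₀O.2]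
    · have h1 := l4d_im (z := chi (u N i₀)) (z' := chi a) (w := chi (u N j₀)) (w' := chi q)
        (l4d_chi_le (hunit j₀)) (l4d_chi_le ha) hi₀O.2.le hj₀O.2.le
      rw [← hD] at h1
      linarith
  obtain ⟨hc1, hc2⟩ := hhd (m N) (u N) η r τ Ty hτ0 hHyp
    ![l4d_psi R (chi a), l4d_psi R (chi x), l4d_psi R (chi y)]
    (by
      intro c z
      fin_cases c
      · exact l4d_psi01 _ _ _
      · exact l4d_psi01 _ _ _
      · exact l4d_psi01 _ _ _)
    (by
      intro c z w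
      fin_cases c
      · exact l4d_psi_lip hRpos _ _ _
      · exact l4d_psi_lip hRpos _ _ _
      · exact l4d_psi_lip hRpos _ _ _)
    (by
      intro c i hi
      fin_cases c
      · exact (hX a hpa i hi).1
      · exact (hX x hpx i hi).1
      · exact (hX y hpy i hi).1)
    (by
      intro c
      fin_cases c
      · exact hmass a (hO a hγa) eaN
      · exact hmass x (hO x hγx) exN
      · exact hmass y (hO y hγy) eyN)
    (by
      intro i j hi hj
      have h1 := abs_le.1 (hX a hpa i hi).2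
      have h2 := abs_le.1 (hX x hpx j hj).2
      linarith [h1.2, h2.1])
    (by
      intro i j hi hj
      have h1 := abs_le.1 (hX x hpx i hi).2
      have h2 := abs_le.1 (hX y hpy j hj).2
      linarith [h1.2, h2.1])
    hpair
  refine ⟨?_, ?_, ⟨Ty, ?_, ?_⟩, ?_⟩
  · intro i hi
    obtain ⟨h1, h2⟩ := hsub i hi
    exact ⟨h1, (hpa _ (hunit i) h1 (by linarith)).1⟩
  · refine le_trans ?_ hc1
    rw [sum_filter]
    apply sum_le_sum
    intro i _
    split_ifs with hi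
    · obtain ⟨h1, h2⟩ := hsub i hi
      unfold Sn
      rw [card_filter, Nat.cast_sum]
      apply sum_le_sum
      intro k _
      by_cases hk : |u N k 2| ≤ r ∧ k ≠ i ∧ ¬ nr η (u N i) (u N k)
      · rw [if_pos hk, if_pos ⟨hk.2.1.symm, hk.2.2⟩]
        have h3 := chi_near (hunit i) (hunit k) hη hη1 hr.le hr1 h1 hk.1 hk.2.2
        have h4 : 5 * r / η ≤ R / 4 := by
          rw [div_le_iff₀ hη]
          have h9 : τ * η ≤ R / 20 * η := mul_le_mul_of_nonneg_right hτR hη.le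
          linarith
        have h5 : ‖chi (u N k) - chi a‖ ≤ R := by
          have h6 : chi (u N k) - chi a = -(chi (u N i) - chi (u N k)) + (chi (u N i) - chi a) := by
            ring
          rw [h6]
          refine le_trans (norm_add_le _ _) ?_
          rw [norm_neg]
          linarith
        have h7 := l4d_wt_one (u := u N) hRpos h1 (by linarith : ‖chi (u N i) - chi a‖ ≤ R)
        have h8 := l4d_wt_one (u := u N) hRpos hk.1 h5
        show ((1 : ℕ) : ℝ) ≤ wt (u N) r (l4d_psi R (chi a)) i * wt (u N) r (l4d_psi R (chi a)) k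
        rw [h7, h8]; norm_num
      · rw [if_neg hk]
        split_ifs
        · show ((0 : ℕ) : ℝ) ≤ wt (u N) r (l4d_psi R (chi a)) i * wt (u N) r (l4d_psi R (chi a)) k
          rw [Nat.cast_zero]
          exact mul_nonneg l4d_wt_nn l4d_wt_nn
        · simp
    · apply sum_nonneg
      intro k _
      split_ifs
      · exact mul_nonneg l4d_wt_nn l4d_wt_nn
      · exact le_rfl
  · exact le_trans hHyp.ty (mul_le_mul_of_nonneg_right hτκ' hmN)
  · intro i hi hia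
    obtain ⟨h1, h2⟩ := hsub i hia
    exact hc2 i hi h1 (hpa _ (hunit i) h1 (by linarith)).1
  · refine le_trans ?_ hcnt
    exact mul_le_mul_of_nonneg_right (by linarith) hmN

end H52.Dir
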