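import Pool.Agent.H52.Dir.L4c
import Pool.Agent.H52.Dir.L4d

/-!
# Module L4e (150 lines): the heavy direction theorem in general position

`hdpre`: the conclusion of `hdc` in a suitable rotated configuration. PROOF. `λ = {z | dot z h = 0}`,
`W` = the set in `hpos`. There is `x ∈ (μ.restrict λ).support` with `dot x x = 1`, `dot x h = 0`, `x ≠ ± a`,
`dot x a ≠ 0` (`nonempty_inter_support_of_pos` for `μ.restrict λ` and `W ∩ sphere`). `chartpick` with `x, y = x`
gives a frame `g`; the rotated system (`lm_rot`): `a' = rot g a`, `x' = rot g x`, `a' 2 = 0`, ...; `third` gives `y'`,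
pull it back to `y` (`rot_surj`): `dot y y = 1`, `dot y h = 0`, `y ≠ ± a, ± x`, in the support. Now `chartpick` with
`x, y` gives a frame `g`; rotate again: `a', x', y'` with `X_{a'} < X_{x'}`, `X_{a'} < X_{y'}`, and
`X_{x'} ≠ X_{y'}` (`x' ≠ ± y'`, both with last coordinate 0: equal quotients would give `x' = ± y'`). Order
them and apply `hdc` (`chi_im`: `Im (chi a' conj chi x') ≠ 0` since `dot x a ≠ 0`, `x ≠ ± a`). Facts about
`μ.map (rot g)`: `(μ.map (rot g)).restrict {z 2 = 0} = (μ.restrict λ).map (rot g)`, supports correspond because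
`rot g` is a homeomorphism; `μ.map (rot g) {a', -a'} = μ {a, -a}`; `dot (rot g z) (rot g a) = dot z a`.
-/

set_option autoImplicit false

namespace H52.Dir

open Finset MeasureTheory

variable {m : ℕ → ℕ} {u : ∀ N, Fin (m N) → V} {F : Filter ℕ} {μ : Measure V}

private theorem l4e_dot_comm (x y : V) : dot x y = dot y x := by
  unfold dot; ring

private noncomputable def l4eLin (g : Fin 3 → V) : V →ₗ[ℝ] V where
  toFun := rot g
  map_add' x y := by
    funext j
    simp only [rot, dot, Pi.add_apply]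
    ring
  map_smul' c x := by
    funext j
    simp only [rot, dot, Pi.smul_apply, smul_eq_mul, RingHom.id_apply]
    ring

private theorem l4e_neg (g : Fin 3 → V) (x : V) : rot g (-x) = -rot g x :=
  (l4eLin g).map_neg x

private theorem l4e_zero {x : V} (h : dot x x = 0) : x = 0 := by
  unfold dot at h
  have p0 := mul_self_nonneg (x 0)
  have p1 := mul_self_nonneg (x 1)
  have p2 := mul_self_nonneg (x 2)
  have h0 : x 0 = 0 := mul_self_eq_zero.mp (by linarith)
  have h1 : x 1 = 0 := mul_self_eq_zero.mp (by linarith)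
  have h2 : x 2 = 0 := mul_self_eq_zero.mp (by linarith)
  funext j
  fin_cases j <;> simp [h0, h1, h2]

private theorem l4e_inj {g : Fin 3 → V} (hg : Orth g) : Function.Injective (rot g) := by
  intro x y h
  have h1 : (l4eLin g) (x - y) = 0 := by
    rw [map_sub]
    exact sub_eq_zero.mpr h
  have h2 : dot (x - y) (x - y) = 0 := by
    rw [← dot_rot hg]
    have : rot g (x - y) = 0 := h1
    rw [this]
    simp [dot]
  exact sub_eq_zero.mp (l4e_zero h2)

private noncomputable def l4eHomeo (g : Fin 3 → V) (hg : Orth g) : V ≃ₜ V :=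
  (LinearEquiv.ofBijective (l4eLin g)
    ⟨l4e_inj hg, fun y => rot_surj hg y⟩).toContinuousLinearEquiv.toHomeomorph

private theorem l4eHomeo_apply (g : Fin 3 → V) (hg : Orth g) (x : V) :
    l4eHomeo g hg x = rot g x := rfl

private theorem l4e_cont {g : Fin 3 → V} (hg : Orth g) : Continuous (rot g) :=
  (l4eHomeo g hg).continuous

private theorem l4e_meas {g : Fin 3 → V} (hg : Orth g) : Measurable (rot g) :=
  (l4e_cont hg).measurable

private theorem l4e_supp {g : Fin 3 → V} (hg : Orth g) (ν : Measure V) (x : V) :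
    rot g x ∈ (ν.map (rot g)).support ↔ x ∈ ν.support := by
  rw [Measure.mem_support_iff_forall, Measure.mem_support_iff_forall]
  constructor
  · intro h U hU
    have h1 : (rot g) '' U ∈ nhds (rot g x) := by
      have := (l4eHomeo g hg).isOpenMap.image_mem_nhds hU
      exact this
    obtain ⟨W, hWU, hW, hxW⟩ := mem_nhds_iff.mp h1
    have h2 := h W (hW.mem_nhds hxW)
    rw [Measure.map_apply (l4e_meas hg) hW.measurableSet] at h2
    refine h2.trans_le (measure_mono ?_)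
    intro z hz
    obtain ⟨w, hw, hwz⟩ := hWU hz
    rwa [← l4e_inj hg hwz]
  · intro h U hU
    have h1 : (rot g) ⁻¹' U ∈ nhds x := (l4e_cont hg).continuousAt.preimage_mem_nhds hU
    exact (h _ h1).trans_le (Measure.le_map_apply (l4e_meas hg).aemeasurable _)

private theorem l4e_lam (h : V) : MeasurableSet {z : V | dot z h = 0} := by
  have : Continuous (fun z : V => dot z h) := by
    unfold dot
    fun_prop
  exact (isClosed_eq this continuous_const).measurableSet

private theorem l4e_z2 : MeasurableSet {z : V | z 2 = 0} :=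
  (isClosed_eq (continuous_apply 2) continuous_const).measurableSet

private theorem l4e_pre {g : Fin 3 → V} {h : V} (hgh : g 2 = h) :
    (rot g) ⁻¹' {z : V | z 2 = 0} = {z : V | dot z h = 0} := by
  ext z
  simp only [Set.mem_preimage, Set.mem_ofPred_eq, rot, hgh, l4e_dot_comm h z]

private theorem l4e_restr {g : Fin 3 → V} (hg : Orth g) {h : V} (hgh : g 2 = h) (μ : Measure V) :
    (μ.map (rot g)).restrict {z | z 2 = 0} = (μ.restrict {z | dot z h = 0}).map (rot g) := by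
  rw [Measure.restrict_map (l4e_meas hg) l4e_z2, l4e_pre hgh]

private theorem l4e_atom {g : Fin 3 → V} (hg : Orth g) (μ : Measure V) (a : V) :
    (μ.map (rot g)).real {rot g a, -rot g a} = μ.real {a, -a} := by
  have hm : MeasurableSet ({rot g a, -rot g a} : Set V) :=
    (Set.toFinite _).measurableSet
  rw [measureReal_def, measureReal_def, Measure.map_apply (l4e_meas hg) hm]
  congr 2
  ext z
  simp only [Set.mem_preimage, Set.mem_insert_iff, Set.mem_singleton_iff]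
  rw [← l4e_neg, (l4e_inj hg).eq_iff, (l4e_inj hg).eq_iff]

private theorem l4e_par {x y : V} (hx : dot x x = 1) (hy : dot y y = 1) (hx2 : x 2 = 0)
    (hy2 : y 2 = 0) (hx0 : x 0 ≠ 0) (hy0 : y 0 ≠ 0) (h : x 1 / x 0 = y 1 / y 0) :
    x = y ∨ x = -y := by
  have h1 : x 1 * y 0 = y 1 * x 0 := by
    rw [div_eq_div_iff hx0 hy0] at h
    exact h
  unfold dot at hx hy
  rw [hx2] at hx
  rw [hy2] at hy
  have h2 : (x 0) ^ 2 = (y 0) ^ 2 := by
    have e1 : (x 1) ^ 2 * (y 0) ^ 2 = (y 1) ^ 2 * (x 0) ^ 2 := by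
      rw [← mul_pow, ← mul_pow, h1]
    have e2 : (x 1) ^ 2 = 1 - (x 0) ^ 2 := by nlinarith [hx]
    have e3 : (y 1) ^ 2 = 1 - (y 0) ^ 2 := by nlinarith [hy]
    rw [e2, e3] at e1
    linarith
  rcases sq_eq_sq_iff_eq_or_eq_neg.mp h2 with h3 | h3
  · left
    have h4 : x 1 = y 1 := by
      rw [h3] at h1
      exact mul_right_cancel₀ hy0 h1
    funext j
    fin_cases j
    · exact h3
    · exact h4
    · change x 2 = y 2
      rw [hx2, hy2]
  · right
    have h4 : x 1 = - y 1 := by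
      rw [h3] at h1
      have : x 1 * y 0 = (- y 1) * y 0 := by linarith
      exact mul_right_cancel₀ hy0 this
    funext j
    fin_cases j
    · exact h3
    · exact h4
    · change x 2 = - y 2
      rw [hx2, hy2, neg_zero]

private theorem l4e_im {a x : V} (ha2 : a 2 = 0) (ha0 : a 0 ≠ 0) (hx0 : x 0 ≠ 0)
    (hxa : dot x a ≠ 0) (h : a 1 / a 0 ≠ x 1 / x 0) :
    (chi a * (starRingEnd ℂ) (chi x)).im ≠ 0 := by
  rw [chi_im]
  have h1 : a 0 * x 0 + a 1 * x 1 ≠ 0 := by
    intro h2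
    apply hxa
    unfold dot
    rw [ha2]
    linarith
  have h2 : a 1 * x 0 - a 0 * x 1 ≠ 0 := by
    intro h3
    apply h
    rw [div_eq_div_iff ha0 hx0]
    linarith
  exact mul_ne_zero (mul_ne_zero two_ne_zero h1) h2

open Classical in
/-- transport of the conclusions -/
private theorem l4e_fin {a h x y : V} {g : Fin 3 → V} (hg : Orth g) (hgh : g 2 = h)
    (H : Lm m u F μ) (ha : dot a a = 1) (hα : 0 < μ.real {a, -a}) (hha : dot h a = 0)
    (hga : dot (g 0) a ≠ 0) (hx : dot x x = 1) (hxh : dot x h = 0) (hgx : dot (g 0) x ≠ 0)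
    (hxs : x ∈ (μ.restrict {z | dot z h = 0}).support) (hy : dot y y = 1) (hyh : dot y h = 0)
    (hgy : dot (g 0) y ≠ 0) (hys : y ∈ (μ.restrict {z | dot z h = 0}).support)
    (hor : dot x a ≠ 0 ∨ dot y a ≠ 0)
    (h1 : dot (g 1) a / dot (g 0) a < dot (g 1) x / dot (g 0) x)
    (h2 : dot (g 1) x / dot (g 0) x < dot (g 1) y / dot (g 0) y) (κ : ℝ) (hκ : 0 < κ) :
    ∃ s η r ρ : ℝ, 0 < s ∧ s ≤ 1 ∧ 0 < η ∧ η ≤ κ * s ∧ 0 < r ∧ r ≤ η ∧ 0 < ρ ∧ ∀ᶠ N in F,
      (∀ i, 1 - ρ ≤ (dot (u N i) a) ^ 2 →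
        |rot g (u N i) 2| ≤ r ∧ s ≤ |rot g (u N i) 0|) ∧
      (∑ i ∈ univ.filter (fun i => 1 - ρ ≤ (dot (u N i) a) ^ 2),
        (Sn (fun i => rot g (u N i)) η r i : ℝ)) ≤ κ * (m N : ℝ) ^ 2 ∧
      (∃ Ty : Finset (Fin (m N)), (((univ : Finset (Fin (m N))) \ Ty).card : ℝ) ≤ κ * m N ∧
        ∀ i ∈ Ty, 1 - ρ ≤ (dot (u N i) a) ^ 2 →
          (Tn (fun i => rot g (u N i)) η i : ℝ) ≤
            (Sn (fun i => rot g (u N i)) η r i : ℝ) + κ * m N) ∧
      (μ.real {z | dot z h = 0} - κ) * m N ≤ (cnt (u N) {z | |dot h z| ≤ r} : ℝ) := by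
  have e2 : ∀ z : V, rot g z 2 = dot h z := fun z => by unfold rot; rw [hgh]
  have ha2 : rot g a 2 = 0 := by rw [e2]; exact hha
  have hx2 : rot g x 2 = 0 := by rw [e2, l4e_dot_comm]; exact hxh
  have hy2 : rot g y 2 = 0 := by rw [e2, l4e_dot_comm]; exact hyh
  have hor' : (chi (rot g a) * (starRingEnd ℂ) (chi (rot g x))).im ≠ 0 ∨
      (chi (rot g a) * (starRingEnd ℂ) (chi (rot g y))).im ≠ 0 := by
    rcases hor with ho | ho
    · left
      refine l4e_im ha2 hga hgx ?_ (ne_of_lt h1)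
      rw [dot_rot hg]; exact ho
    · right
      refine l4e_im ha2 hga hgy ?_ (ne_of_lt (h1.trans h2))
      rw [dot_rot hg]; exact ho
  obtain ⟨s, η, r, ρ, p1, p2, p3, p4, p5, p6, p7, hev⟩ :=
    hdc (lm_rot hg H) (a := rot g a) (x := rot g x) (y := rot g y)
      (by rw [dot_rot hg]; exact ha) ha2 hga (by rw [l4e_atom hg]; exact hα)
      (by rw [dot_rot hg]; exact hx) hx2 hgx
      (by rw [l4e_restr hg hgh, l4e_supp hg]; exact hxs)
      (by rw [dot_rot hg]; exact hy) hy2 hgy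
      (by rw [l4e_restr hg hgh, l4e_supp hg]; exact hys) hor' h1 h2 κ hκ
  refine ⟨s, η, r, ρ, p1, p2, p3, p4, p5, p6, p7, ?_⟩
  refine hev.mono fun N hN => ?_
  simp only [dot_rot hg] at hN
  obtain ⟨q1, q2, q3, q4⟩ := hN
  refine ⟨q1, q2, q3, ?_⟩
  have e3 : (μ.map (rot g)).real {z | z 2 = 0} = μ.real {z | dot z h = 0} := by
    rw [measureReal_def, measureReal_def, Measure.map_apply (l4e_meas hg) l4e_z2, l4e_pre hgh]
  have e4 : cnt (fun i => rot g (u N i)) {z | |z 2| ≤ r} = cnt (u N) {z | |dot h z| ≤ r} := by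
    unfold cnt
    simp only [Set.mem_ofPred_eq, e2]
  rw [e3, e4] at q4
  exact q4

open Classical in
theorem hdpre (H : Lm m u F μ) {a h : V} (ha : dot a a = 1) (hα : 0 < μ.real {a, -a})
    (hh : dot h h = 1) (hha : dot h a = 0)
    (hpos : 0 < μ {x | dot x h = 0 ∧ x ≠ a ∧ x ≠ -a ∧ dot x a ≠ 0}) (κ : ℝ) (hκ : 0 < κ) :
    ∃ g : Fin 3 → V, Orth g ∧ g 2 = h ∧
    ∃ s η r ρ : ℝ, 0 < s ∧ s ≤ 1 ∧ 0 < η ∧ η ≤ κ * s ∧ 0 < r ∧ r ≤ η ∧ 0 < ρ ∧ ∀ᶠ N in F,
      (∀ i, 1 - ρ ≤ (dot (u N i) a) ^ 2 →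
        |rot g (u N i) 2| ≤ r ∧ s ≤ |rot g (u N i) 0|) ∧
      (∑ i ∈ univ.filter (fun i => 1 - ρ ≤ (dot (u N i) a) ^ 2),
        (Sn (fun i => rot g (u N i)) η r i : ℝ)) ≤ κ * (m N : ℝ) ^ 2 ∧
      (∃ Ty : Finset (Fin (m N)), (((univ : Finset (Fin (m N))) \ Ty).card : ℝ) ≤ κ * m N ∧
        ∀ i ∈ Ty, 1 - ρ ≤ (dot (u N i) a) ^ 2 →
          (Tn (fun i => rot g (u N i)) η i : ℝ) ≤
            (Sn (fun i => rot g (u N i)) η r i : ℝ) + κ * m N) ∧
      (μ.real {z | dot z h = 0} - κ) * m N ≤ (cnt (u N) {z | |dot h z| ≤ r} : ℝ) := by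
  have hmass : 0 < (μ.restrict {z | dot z h = 0})
      ({x | dot x h = 0 ∧ x ≠ a ∧ x ≠ -a ∧ dot x a ≠ 0} ∩ {x | dot x x = 1}) := by
    have h1 : μ ({x | dot x h = 0 ∧ x ≠ a ∧ x ≠ -a ∧ dot x a ≠ 0} ∩ {x | dot x x = 1}) =
        μ {x | dot x h = 0 ∧ x ≠ a ∧ x ≠ -a ∧ dot x a ≠ 0} := by
      refine le_antisymm (measure_mono Set.inter_subset_left) ?_
      have h2 : ({x | dot x h = 0 ∧ x ≠ a ∧ x ≠ -a ∧ dot x a ≠ 0} : Set V) ⊆
          ({x | dot x h = 0 ∧ x ≠ a ∧ x ≠ -a ∧ dot x a ≠ 0} ∩ {x | dot x x = 1}) ∪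
            {x | dot x x ≠ 1} := by
        intro z hz
        by_cases hzz : dot z z = 1
        · exact Or.inl ⟨hz, hzz⟩
        · exact Or.inr hzz
      refine (measure_mono h2).trans ((measure_union_le _ _).trans ?_)
      rw [H.sph, add_zero]
    rw [Measure.restrict_apply' (l4e_lam h), Set.inter_eq_self_of_subset_left, h1]
    · exact hpos
    · intro z hz
      exact hz.1.1
  obtain ⟨x, ⟨⟨hxh, hxa, hxna, hdxa⟩, hx⟩, hxs⟩ :=
    Measure.nonempty_inter_support_of_pos hmass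
  obtain ⟨g, hg, hgh, g1, g2, -, g4, -⟩ :=
    chartpick ha hh hha hx hxh hxa hxna hx hxh hxa hxna
  have e2 : ∀ z : V, rot g z 2 = dot h z := fun z => by unfold rot; rw [hgh]
  obtain ⟨y', hy', hy'2, hy's, k1, k2, k3, k4⟩ :=
    third (lm_rot hg H) (a := rot g a) (x := rot g x)
      (by rw [dot_rot hg]; exact ha) (by rw [e2]; exact hha) g1
      (by rw [l4e_atom hg]; exact hα) (by rw [dot_rot hg]; exact hx)
      (by rw [e2, l4e_dot_comm]; exact hxh) g2
      (by rw [l4e_restr hg hgh, l4e_supp hg]; exact hxs)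
      (fun e => hxa (l4e_inj hg e))
      (fun e => hxna (l4e_inj hg (by rw [l4e_neg]; exact e)))
      (by rw [dot_rot hg]; exact hdxa)
  obtain ⟨y, rfl⟩ := rot_surj hg y'
  have hy : dot y y = 1 := by rw [← dot_rot hg]; exact hy'
  have hyh : dot y h = 0 := by rw [l4e_dot_comm, ← e2]; exact hy'2
  have hys : y ∈ (μ.restrict {z | dot z h = 0}).support := by
    rw [l4e_restr hg hgh, l4e_supp hg] at hy's
    exact hy's
  have hya : y ≠ a := fun e => k1 (by rw [e])
  have hyna : y ≠ -a := fun e => k2 (by rw [e, l4e_neg])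
  have hyx : y ≠ x := fun e => k3 (by rw [e])
  have hynx : y ≠ -x := fun e => k4 (by rw [e, l4e_neg])
  obtain ⟨f, hf, hfh, f1, f2, f3, f4, f5⟩ :=
    chartpick ha hh hha hx hxh hxa hxna hy hyh hya hyna
  refine ⟨f, hf, hfh, ?_⟩
  have e3 : ∀ z : V, rot f z 2 = dot h z := fun z => by unfold rot; rw [hfh]
  rcases lt_trichotomy (dot (f 1) x / dot (f 0) x) (dot (f 1) y / dot (f 0) y) with hlt | heq | hgt
  · exact l4e_fin hf hfh H ha hα hha f1 hx hxh f2 hxs hy hyh f3 hys (Or.inl hdxa) f4 hlt κ hκ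
  · exfalso
    have := l4e_par (x := rot f x) (y := rot f y) (by rw [dot_rot hf]; exact hx)
      (by rw [dot_rot hf]; exact hy) (by rw [e3, l4e_dot_comm]; exact hxh)
      (by rw [e3, l4e_dot_comm]; exact hyh) f2 f3 heq
    rcases this with h1 | h1
    · exact hyx (l4e_inj hf h1).symm
    · refine hynx ?_
      have h3 : x = -y := l4e_inj hf (by rw [l4e_neg]; exact h1)
      rw [h3, neg_neg]
  · exact l4e_fin hf hfh H ha hα hha f1 hy hyh f3 hys hx hxh f2 hxs (Or.inr hdxa) f5 hgt κ hκ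

end H52.Dir
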