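import Pool.Agent.H52.Dir.L4e
import Pool.Agent.H52.Dir.Beck

/-!
# Module L4f (130 lines): a heavy circle has mass at most 1/3

`heavy_le` PROOF. Let `κ₀ > 0` and suppose `M = μ.real λ > 1/3 + 4 κ₀`. `beck` with `ρ = min κ₀ 1` and a small `κ₁`
(`κ₁ ≤ ρ³/C`, `C κ₁² / ρ⁴ ≤ α / 16`): `N₀`. `hdpre` with `κ` small (`κ ≤ κ₁/2`, `κ ≤ κ₀`, `κ ≤ α/16`,
`κ ≤ (κ₁/2)(α/16)`). For large `N` the set `A = {i | 1 - ρ' ≤ (dot (u i) a)²}` has at least `α n / 2` points
(`opn`), at most `α n / 16` have `Sn i > (κ₁/2) n`, at most `α n / 16` are not in `Ty`, at most `α n / 16` in the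
exceptional set `X` of `beck`. Take a good `i`: `Tn i ≤ κ₁ n`; `F = (Dl).filter (i ∈ ·) ⊆ thr`; the union of `F`
contains all `k` of the strip near to `i`, i.e. all but `Sn i + 1` points of the strip, so it has at
least `(M - κ) n - (κ₁/2) n - 1` points; a line contains all but `ρ n` of them, so
`(1/3 + ε) n ≥ (M - κ - κ₁/2 - ρ) n - 1` (`Good.line_le`): contradiction for small `ε` (`1 ≤ ε n`). (The statement is
invariant under the rotation: `Ls_rot`, `thr_rot`, `good_rot`.)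
-/

set_option autoImplicit false

namespace H52.Dir

open Finset MeasureTheory

variable {m : ℕ → ℕ} {u : ∀ N, Fin (m N) → V} {F : Filter ℕ} {μ : Measure V}

open Classical in
/-- the finite statement at a good point -/
private theorem l4f_pt {n : ℕ} {u : Fin n → V} (h : Cf u) {η r : ℝ} {i : Fin n}
    {l : Finset (Fin n)} {ρ : ℝ}
    (hl : (((((Dl u η).filter (fun l => i ∈ l)).biUnion id) \ l).card : ℝ) ≤ ρ * n) :
    ((univ.filter (fun k : Fin n => |u k 2| ≤ r)).card : ℝ) ≤ 1 + Sn u η r i + ρ * n + l.card := by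
  have hsub : univ.filter (fun k : Fin n => |u k 2| ≤ r) ⊆
      (({i} ∪ univ.filter (fun k => |u k 2| ≤ r ∧ k ≠ i ∧ ¬ nr η (u i) (u k))) ∪
        ((((Dl u η).filter (fun l => i ∈ l)).biUnion id) \ l)) ∪ l := by
    intro k hk
    rw [mem_filter] at hk
    by_cases hki : k = i
    · subst hki
      simp
    · by_cases hn : nr η (u i) (u k)
      · by_cases hkl : k ∈ l
        · exact mem_union_right _ hkl
        · apply mem_union_left
          apply mem_union_right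
          rw [mem_sdiff, mem_biUnion]
          refine ⟨⟨ln u i k, ?_, ln_right u i k⟩, hkl⟩
          rw [mem_filter]
          exact ⟨nr_line h (ln_mem u (Ne.symm hki)) (ln_left u i k) (ln_right u i k)
            (Ne.symm hki) hn, ln_left u i k⟩
      · apply mem_union_left
        apply mem_union_left
        apply mem_union_right
        rw [mem_filter]
        exact ⟨mem_univ _, hk.2, hki, hn⟩
  have h1 := card_le_card hsub
  have h2 := card_union_le ((({i} : Finset (Fin n)) ∪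
    univ.filter (fun k => |u k 2| ≤ r ∧ k ≠ i ∧ ¬ nr η (u i) (u k))) ∪
        ((((Dl u η).filter (fun l => i ∈ l)).biUnion id) \ l)) l
  have h3 := card_union_le (({i} : Finset (Fin n)) ∪
    univ.filter (fun k => |u k 2| ≤ r ∧ k ≠ i ∧ ¬ nr η (u i) (u k)))
        ((((Dl u η).filter (fun l => i ∈ l)).biUnion id) \ l)
  have h4 := card_union_le ({i} : Finset (Fin n))
    (univ.filter (fun k => |u k 2| ≤ r ∧ k ≠ i ∧ ¬ nr η (u i) (u k)))
  rw [card_singleton] at h4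
  have h5 : (univ.filter (fun k : Fin n => |u k 2| ≤ r ∧ k ≠ i ∧ ¬ nr η (u i) (u k))).card =
      Sn u η r i := rfl
  rw [h5] at h4
  have h6 : (univ.filter (fun k : Fin n => |u k 2| ≤ r)).card ≤
      1 + Sn u η r i + ((((Dl u η).filter (fun l => i ∈ l)).biUnion id) \ l).card + l.card := by
    omega
  have h7 : ((univ.filter (fun k : Fin n => |u k 2| ≤ r)).card : ℝ) ≤
      1 + Sn u η r i + ((((Dl u η).filter (fun l => i ∈ l)).biUnion id) \ l).card + l.card := by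
    exact_mod_cast h6
  linarith

open Classical in
/-- choice of a good point -/
private theorem l4f_ch {n : ℕ} {A Ty X : Finset (Fin n)} {f : Fin n → ℝ} {α κ κ₁ : ℝ}
    (hn : 0 < n) (hα : 0 < α) (hκ₁ : 0 < κ₁) (hf : ∀ i, 0 ≤ f i) (hA : α * n / 2 ≤ (A.card : ℝ))
    (hS : ∑ i ∈ A, f i ≤ κ * (n : ℝ) ^ 2) (hκ : κ ≤ (κ₁ / 2) * (α / 16)) (hκ' : κ ≤ α / 16)
    (hT : (((univ : Finset (Fin n)) \ Ty).card : ℝ) ≤ κ * n) (hX : (X.card : ℝ) ≤ α / 16 * n) :
    ∃ i ∈ A, i ∈ Ty ∧ i ∉ X ∧ f i ≤ κ₁ / 2 * n := by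
  have hn0 : (0 : ℝ) < n := by exact_mod_cast hn
  by_contra hcon
  push Not at hcon
  set B := A.filter (fun i => κ₁ / 2 * n < f i) with hB
  have h1 : (B.card : ℝ) * (κ₁ / 2 * n) ≤ κ * (n : ℝ) ^ 2 := by
    calc (B.card : ℝ) * (κ₁ / 2 * n) = ∑ i ∈ B, κ₁ / 2 * n := by
          rw [sum_const, nsmul_eq_mul]
      _ ≤ ∑ i ∈ B, f i := by
          apply sum_le_sum
          intro i hi
          rw [hB, mem_filter] at hi
          exact hi.2.le
      _ ≤ ∑ i ∈ A, f i := by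
          apply sum_le_sum_of_subset_of_nonneg (filter_subset _ _)
          intro i _ _
          exact hf i
      _ ≤ κ * (n : ℝ) ^ 2 := hS
  have h2 : (B.card : ℝ) ≤ α / 16 * n := by
    have h3 : (B.card : ℝ) * (κ₁ / 2 * n) ≤ (α / 16 * n) * (κ₁ / 2 * n) := by
      refine h1.trans ?_
      have : κ * (n : ℝ) ^ 2 ≤ (κ₁ / 2) * (α / 16) * (n : ℝ) ^ 2 :=
        mul_le_mul_of_nonneg_right hκ (by positivity)
      calc κ * (n : ℝ) ^ 2 ≤ (κ₁ / 2) * (α / 16) * (n : ℝ) ^ 2 := this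
        _ = (α / 16 * n) * (κ₁ / 2 * n) := by ring
    exact le_of_mul_le_mul_right h3 (by positivity)
  have hsub : A ⊆ B ∪ (((univ : Finset (Fin n)) \ Ty) ∪ X) := by
    intro i hi
    by_cases h3 : i ∈ Ty
    · by_cases h4 : i ∈ X
      · exact mem_union_right _ (mem_union_right _ h4)
      · apply mem_union_left
        rw [hB, mem_filter]
        exact ⟨hi, hcon i hi h3 h4⟩
    · apply mem_union_right
      apply mem_union_left
      rw [mem_sdiff]
      exact ⟨mem_univ _, h3⟩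
  have h3 := card_le_card hsub
  have h4 := card_union_le B (((univ : Finset (Fin n)) \ Ty) ∪ X)
  have h5 := card_union_le ((univ : Finset (Fin n)) \ Ty) X
  have h6 : (A.card : ℝ) ≤ B.card + (((univ : Finset (Fin n)) \ Ty).card + X.card) := by
    exact_mod_cast (h3.trans h4).trans (Nat.add_le_add_left h5 _)
  have h7 : κ * n ≤ α / 16 * n := mul_le_mul_of_nonneg_right hκ' hn0.le
  nlinarith

theorem heavy_le (H : Lm m u F μ) {a h : V} (ha : dot a a = 1) (hα : 0 < μ.real {a, -a})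
    (hh : dot h h = 1) (hha : dot h a = 0)
    (hpos : 0 < μ {x | dot x h = 0 ∧ x ≠ a ∧ x ≠ -a ∧ dot x a ≠ 0}) :
    μ.real {z | dot z h = 0} ≤ 1 / 3 := by
  classical
  by_contra hcon
  push Not at hcon
  have hprob := H.prob
  set M := μ.real {z | dot z h = 0} with hM
  have hM1 : M ≤ 1 := by
    rw [hM]
    exact measureReal_le_one
  set α := μ.real {a, -a} with hαd
  have hα1 : α ≤ 1 := by
    rw [hαd]
    exact measureReal_le_one
  set κ₀ : ℝ := (M - 1 / 3) / 8 with hκ₀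
  have hκ₀0 : 0 < κ₀ := by rw [hκ₀]; linarith
  have hκ₀1 : κ₀ ≤ 1 := by rw [hκ₀]; linarith
  obtain ⟨C, hC, hbeck⟩ := beck
  have hC0 : 0 < C := by linarith
  set κ₁ : ℝ := min (κ₀ ^ 3 / C) (α * κ₀ ^ 4 / (16 * C)) with hκ₁
  have hκ₁0 : 0 < κ₁ := by
    rw [hκ₁]
    exact lt_min (by positivity) (by positivity)
  have hκ₁a : κ₁ ≤ κ₀ ^ 3 / C := min_le_left _ _
  have hκ₁b : κ₁ ≤ α * κ₀ ^ 4 / (16 * C) := min_le_right _ _
  have hκ₁c : κ₁ ≤ κ₀ := by
    refine hκ₁a.trans ?_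
    rw [div_le_iff₀ hC0]
    have h1 : κ₀ ^ 3 ≤ κ₀ := by
      have : κ₀ ^ 2 ≤ 1 := pow_le_one₀ hκ₀0.le hκ₀1
      nlinarith
    nlinarith
  have hκ₁d : κ₁ ≤ 1 := hκ₁c.trans hκ₀1
  have hX0 : C * κ₁ ^ 2 / κ₀ ^ 4 ≤ α / 16 := by
    rw [div_le_iff₀ (by positivity)]
    have h1 : κ₁ * (16 * C) ≤ α * κ₀ ^ 4 := by
      rw [le_div_iff₀ (by positivity)] at hκ₁b
      exact hκ₁b
    have h2 : κ₁ ^ 2 ≤ κ₁ := by nlinarith
    nlinarith
  obtain ⟨N₀, hN₀⟩ := hbeck κ₀ κ₁ hκ₀0 hκ₀1 hκ₁0 hκ₁a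
  set κ : ℝ := min (κ₁ / 2) (min κ₀ (min (α / 16) (κ₁ / 2 * (α / 16)))) with hκ
  have hκ0 : 0 < κ := by
    rw [hκ]
    exact lt_min (by positivity) (lt_min hκ₀0 (lt_min (by positivity) (by positivity)))
  have k1 : κ ≤ κ₁ / 2 := min_le_left _ _
  have k2 : κ ≤ κ₀ := (min_le_right _ _).trans (min_le_left _ _)
  have k3 : κ ≤ α / 16 := ((min_le_right _ _).trans (min_le_right _ _)).trans (min_le_left _ _)
  have k4 : κ ≤ κ₁ / 2 * (α / 16) :=
    ((min_le_right _ _).trans (min_le_right _ _)).trans (min_le_right _ _)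
  obtain ⟨g, hg, hg2, s, η, r, ρ', hs, hs1, hη, hηs, hr, hrη, hρ', ev⟩ :=
    hdpre H ha hα hh hha hpos κ hκ0
  set O : Set V := {x | 1 - ρ' < (dot x a) ^ 2} with hO
  have hOo : IsOpen O := by
    apply isOpen_lt continuous_const
    unfold dot
    fun_prop
  have hOα : α ≤ μ.real O := by
    rw [hαd]
    apply measureReal_mono _ (measure_ne_top _ _)
    intro x hx
    rw [Set.mem_insert_iff, Set.mem_singleton_iff] at hx
    show 1 - ρ' < (dot x a) ^ 2
    have : (dot x a) ^ 2 = 1 := by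
      rcases hx with rfl | rfl
      · rw [ha]; norm_num
      · have : dot (-a) a = - dot a a := by simp only [dot, Pi.neg_apply]; ring
        rw [this, ha]; norm_num
    rw [this]
    linarith
  have e₃ := opn H O hOo (α / 2) (by positivity)
  have e₄ := large H (max N₀ 1)
  have e₅ := H.good κ₀ hκ₀0
  have hne0 := H.ne
  obtain ⟨N, ⟨h1, h2, ⟨Ty, h3, h4⟩, h5⟩, h6, h7, h8⟩ := (ev.and (e₃.and (e₄.and e₅))).exists
  have hn0 : 0 < m N := lt_of_lt_of_le (by norm_num) ((le_max_right _ _).trans h7)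
  have hn0' : (0 : ℝ) < m N := by exact_mod_cast hn0
  set u' : Fin (m N) → V := fun i => rot g (u N i) with hu'
  have hgood : Good u' κ₀ := good_rot hg h8
  obtain ⟨X, hX1, hX2⟩ := hN₀ (m N) u' ((le_max_left _ _).trans h7) hgood.toCf
  set A := univ.filter (fun i => 1 - ρ' ≤ (dot (u N i) a) ^ 2) with hA
  have hA1 : α * m N / 2 ≤ (A.card : ℝ) := by
    have h9 : (cnt (u N) O : ℝ) ≤ (A.card : ℝ) := by
      unfold cnt
      apply Nat.cast_le.2
      apply card_le_card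
      intro i hi
      rw [mem_filter] at hi
      rw [hA, mem_filter]
      have h10 : 1 - ρ' < (dot (u N i) a) ^ 2 := hi.2
      exact ⟨mem_univ _, h10.le⟩
    refine le_trans ?_ h9
    refine le_trans ?_ h6
    nlinarith
  have hX3 : (X.card : ℝ) ≤ α / 16 * m N :=
    hX1.trans (mul_le_mul_of_nonneg_right hX0 hn0'.le)
  obtain ⟨i, hiA, hiT, hiX, hif⟩ := l4f_ch (f := fun i => (Sn u' η r i : ℝ)) hn0 hα hκ₁0
    (fun _ => Nat.cast_nonneg _) hA1 h2 k4 k3 h3 hX3
  rw [hA, mem_filter] at hiA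
  have hTn := h4 i hiT hiA.2
  have hF : ((((Dl u' η).filter (fun l => i ∈ l)).card : ℕ) : ℝ) ≤ κ₁ * m N := by
    have : (((Dl u' η).filter (fun l => i ∈ l)).card : ℝ) = (Tn u' η i : ℝ) := rfl
    rw [this]
    have h9 : κ * (m N : ℝ) ≤ κ₁ / 2 * m N := mul_le_mul_of_nonneg_right k1 hn0'.le
    have h10 : (Sn u' η r i : ℝ) ≤ κ₁ / 2 * m N := hif
    calc (Tn u' η i : ℝ) ≤ (Sn u' η r i : ℝ) + κ * m N := hTn
      _ ≤ κ₁ / 2 * m N + κ₁ / 2 * m N := add_le_add h10 h9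
      _ = κ₁ * m N := by ring
  have hsub : (Dl u' η).filter (fun l => i ∈ l) ⊆ thr u' i := by
    intro l hl
    rw [mem_filter] at hl
    rw [mem_thr]
    unfold Dl at hl
    rw [mem_filter] at hl
    exact ⟨hl.1.1, hl.2⟩
  obtain ⟨l, hl1, hl2⟩ := hX2 i hiX _ hsub hF
  have h9 := l4f_pt (r := r) hgood.toCf hl2
  have h10 := hgood.line_le (mem_thr.1 hl1).1
  have h11 : (cnt (u N) {z | |dot h z| ≤ r} : ℝ) =
      ((univ.filter (fun k : Fin (m N) => |u' k 2| ≤ r)).card : ℝ) := by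
    unfold cnt
    congr 2
    ext k
    simp only [mem_filter, mem_univ, true_and, Set.mem_ofPred_eq]
    have : u' k 2 = dot h (u N k) := by
      rw [hu', ← hg2]
      rfl
    rw [this]
  rw [h11] at h5
  have h12 := hgood.big
  have h13 : (Sn u' η r i : ℝ) ≤ κ₁ / 2 * m N := hif
  have h14 : (M - κ) * m N ≤ (κ₀ + κ₁ / 2 + κ₀ + (1 / 3 + κ₀)) * m N := by
    have h17 : (κ₀ + κ₁ / 2 + κ₀ + (1 / 3 + κ₀)) * (m N : ℝ) =
        κ₀ * m N + κ₁ / 2 * m N + κ₀ * m N + (1 / 3 + κ₀) * m N := by ring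
    rw [h17]
    linarith
  have h15 := le_of_mul_le_mul_right h14 hn0'
  have h16 : M = 1 / 3 + 8 * κ₀ := by rw [hκ₀]; ring
  linarith

end H52.Dir
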