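import Pool.Agent.H52.Dir.L4e

/-!
# Module L4g (110 lines): almost all pairs of the cluster are near the heavy circle

`heavy_pairs` PROOF. With `κ' = min κ (η/16) ...` in `hdpre`: a pair `i ≠ j` of `A` which is near has, for
`w = crs (u' i) (u' j)`, `|w 0| ≤ 2 κ' |w 2|`, `|w 1| ≤ κ' |w 2|` (`nrm`, `r ≤ η' ≤ κ' s`), so
`(w 2)² ≥ (1 - η) |w|²`, and `dot (crs (u i) (u j)) h = ± w 2`. So the bad pairs are steep, `j` is in the strip
(1), their number is at most `Σ_{i ∈ A} Sn i ≤ κ' n²`. (For the frame `g`: `crs (rot g x) (rot g y) = ± rot g (crs x y)`;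
or use `det_rot` with `z = h`: `det (u i) (u j) h = dot (crs (u i) (u j)) h` and
`dot (crs x y) (crs x y) = dot x x dot y y - (dot x y)²`, both invariant up to sign.)
-/

set_option autoImplicit false

namespace H52.Dir

open Finset MeasureTheory

variable {m : ℕ → ℕ} {u : ∀ N, Fin (m N) → V} {F : Filter ℕ} {μ : Measure V}

private theorem L4g_card {n : ℕ} (A : Finset (Fin n)) (S : Fin n → ℕ)
    (B : Finset (Fin n × Fin n)) (T : Fin n → Finset (Fin n)) (hT : ∀ i, (T i).card = S i)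
    (h : ∀ z ∈ B, z.1 ∈ A ∧ z.2 ∈ T z.1) : B.card ≤ ∑ i ∈ A, S i := by
  calc B.card ≤ (A.sigma T).card := by
        apply card_le_card_of_injOn (fun z => (⟨z.1, z.2⟩ : Σ _ : Fin n, Fin n))
        · intro z hz
          exact mem_coe.2 (mem_sigma.2 (h z hz))
        · intro z _ z' _ hzz
          have h1 : z.1 = z'.1 := congrArg Sigma.fst hzz
          have h2 : z.2 = z'.2 := by
            have := congrArg (fun q : Σ _ : Fin n, Fin n => q.2) hzz
            exact this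
          exact Prod.ext h1 h2
    _ = ∑ i ∈ A, (T i).card := card_sigma A T
    _ = ∑ i ∈ A, S i := sum_congr rfl fun i _ => hT i

private theorem L4g_lagrange (x y : V) :
    dot (crs x y) (crs x y) = dot x x * dot y y - (dot x y) ^ 2 := by
  simp only [dot, crs, Matrix.cons_val_zero, Matrix.cons_val_one, Matrix.cons_val]
  ring

private theorem L4g_norm {g : Fin 3 → V} (hg : Orth g) (x y : V) :
    dot (crs (rot g x) (rot g y)) (crs (rot g x) (rot g y)) = dot (crs x y) (crs x y) := by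
  rw [L4g_lagrange, L4g_lagrange, dot_rot hg, dot_rot hg, dot_rot hg]

private theorem L4g_two {g : Fin 3 → V} (hg : Orth g) (x y : V) :
    (crs (rot g x) (rot g y) 2) ^ 2 = (dot (crs x y) (g 2)) ^ 2 := by
  have h1 := det_rot hg x y (g 2)
  have h2 : det (rot g x) (rot g y) (rot g (g 2)) = crs (rot g x) (rot g y) 2 := by
    have e0 : rot g (g 2) 0 = 0 := by
      have := hg 0 2
      rw [if_neg (by decide)] at this
      exact this
    have e1 : rot g (g 2) 1 = 0 := by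
      have := hg 1 2
      rw [if_neg (by decide)] at this
      exact this
    have e2 : rot g (g 2) 2 = 1 := by
      have := hg 2 2
      rw [if_pos rfl] at this
      exact this
    unfold det
    generalize crs (rot g x) (rot g y) = w
    unfold dot
    rw [e0, e1, e2]
    ring
  rw [h2] at h1
  exact h1

/-- a near pair is not bad -/
private theorem L4g_near {x y : V} (hx : dot x x = 1) {η' r s κ' η : ℝ} (hη' : 0 < η')
    (hr : 0 ≤ r) (hs : 0 < s) (hs1 : s ≤ 1) (h1 : η' ≤ κ' * s) (h2 : r ≤ η') (_hκ0 : 0 < κ')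
    (hκ1 : κ' ≤ 1) (hκη : 5 * κ' ≤ η) (hx2 : |x 2| ≤ r) (hx0 : s ≤ |x 0|) (h : nr η' x y) :
    (1 - η) * dot (crs x y) (crs x y) ≤ (crs x y 2) ^ 2 := by
  obtain ⟨a1, a2, -⟩ := nrm hx hη' hr hs hx2 hx0 h
  generalize crs x y = w at *
  have b0 : |w 0| ≤ 2 * κ' * |w 2| := by
    refine a1.trans (mul_le_mul_of_nonneg_right ?_ (abs_nonneg _))
    rw [div_le_iff₀ hs]
    linarith
  have b1 : |w 1| ≤ κ' * |w 2| := by
    refine a2.trans (mul_le_mul_of_nonneg_right ?_ (abs_nonneg _))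
    nlinarith
  have c0 : w 0 ^ 2 ≤ 4 * κ' ^ 2 * w 2 ^ 2 := by
    have := pow_le_pow_left₀ (abs_nonneg _) b0 2
    rw [sq_abs, mul_pow, mul_pow, sq_abs] at this
    linarith
  have c1 : w 1 ^ 2 ≤ κ' ^ 2 * w 2 ^ 2 := by
    have := pow_le_pow_left₀ (abs_nonneg _) b1 2
    rw [sq_abs, mul_pow, sq_abs] at this
    linarith
  have hd : dot w w = w 0 ^ 2 + w 1 ^ 2 + w 2 ^ 2 := by
    unfold dot
    ring
  have hkk : 5 * κ' ^ 2 ≤ η := by nlinarith
  have hd2 : dot w w ≤ (1 + η) * w 2 ^ 2 := by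
    rw [hd]
    have := mul_le_mul_of_nonneg_right hkk (sq_nonneg (w 2))
    linarith
  have hd0 : 0 ≤ dot w w := by
    rw [hd]
    positivity
  rcases le_total η 1 with h3 | h3
  · calc (1 - η) * dot w w ≤ (1 - η) * ((1 + η) * w 2 ^ 2) :=
          mul_le_mul_of_nonneg_left hd2 (by linarith)
      _ ≤ w 2 ^ 2 := by nlinarith [mul_nonneg (sq_nonneg η) (sq_nonneg (w 2))]
  · have : (1 - η) * dot w w ≤ 0 := mul_nonpos_of_nonpos_of_nonneg (by linarith) hd0
    exact this.trans (sq_nonneg _)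

open Classical in
theorem heavy_pairs (H : Lm m u F μ) {a h : V} (ha : dot a a = 1) (hα : 0 < μ.real {a, -a})
    (hh : dot h h = 1) (hha : dot h a = 0)
    (hpos : 0 < μ {x | dot x h = 0 ∧ x ≠ a ∧ x ≠ -a ∧ dot x a ≠ 0}) (η κ : ℝ) (hη : 0 < η)
    (hκ : 0 < κ) :
    ∃ ρ : ℝ, 0 < ρ ∧ ∀ᶠ N in F,
      (((univ : Finset (Fin (m N) × Fin (m N))).filter (fun z => z.1 ≠ z.2 ∧
        1 - ρ ≤ (dot (u N z.1) a) ^ 2 ∧ 1 - ρ ≤ (dot (u N z.2) a) ^ 2 ∧
        (dot (crs (u N z.1) (u N z.2)) h) ^ 2 <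
          (1 - η) * dot (crs (u N z.1) (u N z.2)) (crs (u N z.1) (u N z.2)))).card : ℝ) ≤
        κ * (m N : ℝ) ^ 2 := by
  set κ' := min κ (min 1 (η / 5)) with hκ'
  have k0 : 0 < κ' := lt_min hκ (lt_min one_pos (by positivity))
  have k1 : κ' ≤ κ := min_le_left _ _
  have k2 : κ' ≤ 1 := (min_le_right _ _).trans (min_le_left _ _)
  have k3 : 5 * κ' ≤ η := by
    have : κ' ≤ η / 5 := (min_le_right _ _).trans (min_le_right _ _)
    linarith
  obtain ⟨g, hg, hg2, s, η', r, ρ, s0, s1, η0, η1, r0, r1, ρ0, hev⟩ :=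
    hdpre H ha hα hh hha hpos κ' k0
  refine ⟨ρ, ρ0, ?_⟩
  filter_upwards [hev, H.good 1 one_pos] with N hN hgood
  obtain ⟨n1, n2, -, -⟩ := hN
  have hcard := L4g_card (univ.filter (fun i => 1 - ρ ≤ (dot (u N i) a) ^ 2))
    (fun i => Sn (fun i => rot g (u N i)) η' r i)
    ((univ : Finset (Fin (m N) × Fin (m N))).filter (fun z => z.1 ≠ z.2 ∧
        1 - ρ ≤ (dot (u N z.1) a) ^ 2 ∧ 1 - ρ ≤ (dot (u N z.2) a) ^ 2 ∧
        (dot (crs (u N z.1) (u N z.2)) h) ^ 2 <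
          (1 - η) * dot (crs (u N z.1) (u N z.2)) (crs (u N z.1) (u N z.2))))
    (fun i => univ.filter (fun k => |rot g (u N k) 2| ≤ r ∧ k ≠ i ∧
      ¬ nr η' (rot g (u N i)) (rot g (u N k)))) (fun i => rfl) (by
    intro z hz
    obtain ⟨-, hz1, hz2, hz3, hz4⟩ := mem_filter.1 hz
    refine ⟨mem_filter.2 ⟨mem_univ _, hz2⟩, mem_filter.2 ⟨mem_univ _, (n1 _ hz3).1,
      Ne.symm hz1, ?_⟩⟩
    intro hnr
    have hx : dot (rot g (u N z.1)) (rot g (u N z.1)) = 1 := by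
      rw [dot_rot hg]
      exact hgood.unit _
    have h5 := L4g_near hx η0 r0.le s0 s1 η1 r1 k0 k2 k3 (n1 _ hz2).1 (n1 _ hz2).2 hnr
    rw [L4g_norm hg, L4g_two hg, hg2] at h5
    exact absurd hz4 (not_lt.2 h5))
  have hsq : (0 : ℝ) ≤ (m N : ℝ) ^ 2 := sq_nonneg _
  calc _ ≤ ((∑ i ∈ univ.filter (fun i => 1 - ρ ≤ (dot (u N i) a) ^ 2),
        Sn (fun i => rot g (u N i)) η' r i : ℕ) : ℝ) := by exact_mod_cast hcard
    _ = ∑ i ∈ univ.filter (fun i => 1 - ρ ≤ (dot (u N i) a) ^ 2),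
        (Sn (fun i => rot g (u N i)) η' r i : ℝ) := by push_cast; rfl
    _ ≤ κ' * (m N : ℝ) ^ 2 := n2
    _ ≤ κ * (m N : ℝ) ^ 2 := mul_le_mul_of_nonneg_right k1 hsq

end H52.Dir
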