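import Pool.Agent.H52.Dir.L5a
import Pool.Agent.H52.Dir.L4f
import Pool.Agent.H52.Dir.L3c

/-!
# Module L5 (150 lines): all mass is on the atom and on its polar circle

`perp_only` PROOF. `U = {x | x ≠ a ∧ x ≠ -a ∧ dot x a ≠ 0}`; suppose `μ U > 0`. `cover` gives `C` countable. Since
`U ⊆ (null set) ∪ ⋃_{h ∈ C} (U ∩ {dot x h = 0})`, some `h ∈ C` has `μ (U ∩ {dot x h = 0}) > 0`
(`measure_biUnion_null_iff`). For every other `h' ∈ C`, `h' ≠ ± h`, `μ (U ∩ {dot x h' = 0}) = 0` (`heavy_uniq`), so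
`μ (U \ {dot x h = 0}) = 0`. By `heavy_le`: `μ.real {dot x h = 0} ≤ 1/3`. Now `∫ (dot x a)² dμ = 1/3` (`iso`), and
a.e. `(dot x a)² ≤ 1_{{a,-a}} + (dot x a)² 1_{U ∩ {dot x h = 0}}` (for unit `x`: `x = ± a`, or `dot x a = 0`, or `x ∈ U`, then
a.e. `dot x h = 0`) and `(dot x a)² < 1` on `U` (unit `x`), so
`1/3 < μ.real {a, -a} + μ.real (U ∩ {dot x h = 0}) ≤ μ.real {dot x h = 0} ≤ 1/3`
(`a, -a` are in `{dot x h = 0}` and not in `U`). For the strict inequality:
`∫ (1 - (dot x a)²) 1_{U ∩ λ} > 0` (`integral_pos_iff_support_of_nonneg` or `setIntegral_pos_iff...`).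

`atom_third` PROOF. By `perp_only` a.e. `(dot x a)² = 1_{{a,-a}}`, so `1/3 = ∫ (dot x a)² = μ.real {a, -a}`; and
`μ.real {x | dot x a = 0} = 1 - 1/3`.
-/

set_option autoImplicit false

namespace H52.Dir

open Finset MeasureTheory

variable {m : ℕ → ℕ} {u : ∀ N, Fin (m N) → V} {F : Filter ℕ} {μ : Measure V}

private theorem l5_cont (y : V) : Continuous (fun x : V => dot x y) := by
  unfold dot
  fun_prop

private theorem l5_meas0 (y : V) : MeasurableSet {x : V | dot x y = 0} :=
  (isClosed_singleton.preimage (l5_cont y)).measurableSet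

private theorem l5_cs {x a : V} (hx : dot x x = 1) (ha : dot a a = 1) : (dot x a) ^ 2 ≤ 1 := by
  have h : (dot x a) ^ 2 ≤ dot x x * dot a a := by
    simp only [dot]
    nlinarith [sq_nonneg (x 0 * a 1 - x 1 * a 0), sq_nonneg (x 0 * a 2 - x 2 * a 0),
      sq_nonneg (x 1 * a 2 - x 2 * a 1)]
  rwa [hx, ha, one_mul] at h

private theorem l5_zero {w : V} (h : dot w w = 0) : w = 0 := by
  simp only [dot] at h
  have a0 := mul_self_nonneg (w 0)
  have a1 := mul_self_nonneg (w 1)
  have a2 := mul_self_nonneg (w 2)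
  have b0 : w 0 = 0 := mul_self_eq_zero.1 (by linarith)
  have b1 : w 1 = 0 := mul_self_eq_zero.1 (by linarith)
  have b2 : w 2 = 0 := mul_self_eq_zero.1 (by linarith)
  funext j
  fin_cases j
  · exact b0
  · exact b1
  · exact b2

private theorem l5_sq {t : ℝ} (h : t ^ 2 = 1) : t = 1 ∨ t = -1 := by
  have h1 : (t - 1) * (t + 1) = 0 := by linear_combination h
  rcases mul_eq_zero.1 h1 with h2 | h2
  · left; linarith
  · right; linarith

private theorem l5_eq {x a : V} (hx : dot x x = 1) (ha : dot a a = 1) (h : (dot x a) ^ 2 = 1) :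
    x = a ∨ x = -a := by
  rcases l5_sq h with h1 | h1
  · left
    have : dot (x - a) (x - a) = 0 := by
      have e : dot (x - a) (x - a) = dot x x - 2 * dot x a + dot a a := by
        simp only [dot, Pi.sub_apply]
        ring
      rw [e, hx, ha, h1]
      norm_num
    exact sub_eq_zero.1 (l5_zero this)
  · right
    have : dot (x + a) (x + a) = 0 := by
      have e : dot (x + a) (x + a) = dot x x + 2 * dot x a + dot a a := by
        simp only [dot, Pi.add_apply]
        ring
      rw [e, hx, ha, h1]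
      norm_num
    exact eq_neg_of_add_eq_zero_left (l5_zero this)

private theorem l5_unit (H : Lm m u F μ) : ∀ᵐ x ∂μ, dot x x = 1 := by
  have h := H.sph
  rw [ae_iff]
  exact h

private theorem l5_int (H : Lm m u F μ) {a : V} (ha : dot a a = 1) :
    Integrable (fun x => (dot x a) ^ 2) μ := by
  have := H.prob
  apply Integrable.of_bound (C := 1)
  · exact ((l5_cont a).pow 2).aestronglyMeasurable
  · filter_upwards [l5_unit H] with x hx
    rw [Real.norm_eq_abs, abs_of_nonneg (sq_nonneg _)]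
    exact l5_cs hx ha

theorem perp_only (H : Lm m u F μ) {a : V} (ha : dot a a = 1) (hα : 0 < μ.real {a, -a}) :
    μ {x | x ≠ a ∧ x ≠ -a ∧ dot x a ≠ 0} = 0 := by
  have := H.prob
  by_contra hU
  obtain ⟨C, hCc, hC1, hC0⟩ := cover H ha hα
  -- some heavy circle
  have hex : ∃ h ∈ C, 0 < μ {x | dot x h = 0 ∧ x ≠ a ∧ x ≠ -a ∧ dot x a ≠ 0} := by
    by_contra hcon
    push Not at hcon
    apply hU
    refine measure_mono_null (t := {x | x ≠ a ∧ x ≠ -a ∧ dot x a ≠ 0 ∧ ∀ h ∈ C, dot x h ≠ 0} ∪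
      ⋃ h ∈ C, {x | dot x h = 0 ∧ x ≠ a ∧ x ≠ -a ∧ dot x a ≠ 0}) ?_ ?_
    · rintro x ⟨h1, h2, h3⟩
      by_cases hx : ∀ h ∈ C, dot x h ≠ 0
      · exact Or.inl ⟨h1, h2, h3, hx⟩
      · push Not at hx
        obtain ⟨h, hh, hx⟩ := hx
        exact Or.inr (Set.mem_biUnion hh ⟨hx, h1, h2, h3⟩)
    · apply measure_union_null hC0
      rw [measure_biUnion_null_iff hCc]
      intro h hh
      exact nonpos_iff_eq_zero.1 (hcon h hh)
  obtain ⟨h, hhC, hpos⟩ := hex
  obtain ⟨hh1, hha⟩ := hC1 h hhC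
  have hle := heavy_le H ha hα hh1 hha hpos
  set L : Set V := {z | dot z h = 0} with hL
  have hLm : MeasurableSet L := l5_meas0 h
  have hah : dot a h = 0 := by
    rw [← hha]
    simp only [dot]
    ring
  have haL : a ∈ L := hah
  have haL' : -a ∈ L := by
    show dot (-a) h = 0
    have e : dot (-a) h = -dot a h := by
      simp only [dot, Pi.neg_apply]
      ring
    rw [e, hah, neg_zero]
  -- outside of the circle nothing
  have hout : μ {x | x ≠ a ∧ x ≠ -a ∧ dot x a ≠ 0 ∧ x ∉ L} = 0 := by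
    refine measure_mono_null (t := {x | x ≠ a ∧ x ≠ -a ∧ dot x a ≠ 0 ∧ ∀ h ∈ C, dot x h ≠ 0} ∪
      ⋃ h' ∈ C, {x | (dot x h' = 0 ∧ x ≠ a ∧ x ≠ -a ∧ dot x a ≠ 0) ∧ x ∉ L}) ?_ ?_
    · rintro x ⟨h1, h2, h3, h4⟩
      by_cases hx : ∀ h ∈ C, dot x h ≠ 0
      · exact Or.inl ⟨h1, h2, h3, hx⟩
      · push Not at hx
        obtain ⟨h', hh', hx⟩ := hx
        exact Or.inr (Set.mem_biUnion hh' ⟨⟨hx, h1, h2, h3⟩, h4⟩)
    · apply measure_union_null hC0
      rw [measure_biUnion_null_iff hCc]
      intro h' hh'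
      by_contra hne
      have hpos' : 0 < μ {x | dot x h' = 0 ∧ x ≠ a ∧ x ≠ -a ∧ dot x a ≠ 0} := by
        refine lt_of_lt_of_le (pos_iff_ne_zero.2 hne) (measure_mono ?_)
        intro x hx
        exact hx.1
      have hcase := heavy_uniq H ha hα hh1 hha hpos (hC1 h' hh').1 (hC1 h' hh').2 hpos'
      apply hne
      convert measure_empty (μ := μ)
      rw [Set.eq_empty_iff_forall_notMem]
      rintro x ⟨⟨hx, -⟩, hxL⟩
      apply hxL
      show dot x h = 0
      rcases hcase with rfl | rfl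
      · exact hx
      · have e : dot x (-h) = -dot x h := by
          simp only [dot, Pi.neg_apply]
          ring
        rw [e] at hx
        linarith
  -- the function
  have hint := l5_int H ha
  have h1 : ∫ x in L, (dot x a) ^ 2 ∂μ = 1 / 3 := by
    rw [← H.iso a ha]
    apply setIntegral_eq_integral_of_ae_compl_eq_zero
    have h2 : ∀ᵐ x ∂μ, ¬ (x ≠ a ∧ x ≠ -a ∧ dot x a ≠ 0 ∧ x ∉ L) := by
      rw [ae_iff]
      simpa using hout
    filter_upwards [h2] with x hx hxL
    by_contra hne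
    apply hx
    refine ⟨?_, ?_, ?_, hxL⟩
    · rintro rfl
      exact hxL haL
    · rintro rfl
      exact hxL haL'
    · intro h0
      apply hne
      rw [h0]
      norm_num
  have hint1 : IntegrableOn (fun x => 1 - (dot x a) ^ 2) L μ :=
    ((integrable_const (1 : ℝ)).sub hint).integrableOn
  have h2 : 0 < ∫ x in L, (1 - (dot x a) ^ 2) ∂μ := by
    rw [setIntegral_pos_iff_support_of_nonneg_ae _ hint1]
    · have h3 : 0 < μ ({x | dot x h = 0 ∧ x ≠ a ∧ x ≠ -a ∧ dot x a ≠ 0} \ {x | dot x x ≠ 1}) := by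
        rw [measure_sdiff_null H.sph]
        exact hpos
      refine lt_of_lt_of_le h3 (measure_mono ?_)
      rintro x ⟨⟨hx1, hx2, hx3, -⟩, hx5⟩
      have hx6 : dot x x = 1 := by
        by_contra hne
        exact hx5 hne
      refine ⟨?_, hx1⟩
      rw [Function.mem_support]
      intro h0
      rcases l5_eq hx6 ha (by linarith) with h | h
      · exact hx2 h
      · exact hx3 h
    · apply ae_restrict_of_ae
      filter_upwards [l5_unit H] with x hx
      have := l5_cs hx ha
      show (0 : ℝ) ≤ 1 - (dot x a) ^ 2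
      linarith
  rw [integral_sub (integrable_const (1 : ℝ)) hint.integrableOn, h1] at h2
  simp only [integral_const, MeasurableSet.univ, measureReal_restrict_apply, Set.univ_inter,
    smul_eq_mul, mul_one] at h2
  linarith

theorem atom_third (H : Lm m u F μ) {a : V} (ha : dot a a = 1) (hα : 0 < μ.real {a, -a}) :
    μ.real {a, -a} = 1 / 3 ∧ μ.real {x | dot x a = 0} = 2 / 3 := by
  have := H.prob
  have hU := perp_only H ha hα
  have hU' : ∀ᵐ x ∂μ, ¬ (x ≠ a ∧ x ≠ -a ∧ dot x a ≠ 0) := by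
    rw [ae_iff]
    simpa using hU
  have haa : dot (-a) a = -1 := by
    have e : dot (-a) a = -dot a a := by
      simp only [dot, Pi.neg_apply]
      ring
    rw [e, ha]
  have hPm : MeasurableSet ({a, -a} : Set V) := (Set.toFinite _).measurableSet
  have h1 : ∫ x, (dot x a) ^ 2 ∂μ = μ.real {a, -a} := by
    rw [← integral_indicator_one hPm]
    apply integral_congr_ae
    filter_upwards [hU'] with x hx
    by_cases hx1 : x = a
    · subst hx1
      simp [ha]
    · by_cases hx2 : x = -a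
      · subst hx2
        simp [haa]
      · have h0 : dot x a = 0 := by
          by_contra hne
          exact hx ⟨hx1, hx2, hne⟩
        rw [h0]
        simp [hx1, hx2]
  have h2 : μ.real {a, -a} = 1 / 3 := by
    rw [← h1]
    exact H.iso a ha
  refine ⟨h2, ?_⟩
  have h3 : μ.real {x | dot x a = 0} = μ.real ({a, -a} : Set V)ᶜ := by
    apply measureReal_congr
    filter_upwards [hU'] with x hx
    apply propext
    show dot x a = 0 ↔ x ∉ ({a, -a} : Set V)
    constructor
    · intro h0 hxP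
      rcases hxP with rfl | hxP
      · rw [ha] at h0
        norm_num at h0
      · rw [Set.mem_singleton_iff] at hxP
        rw [hxP, haa] at h0
        norm_num at h0
    · intro hxP
      by_contra hne
      apply hx
      refine ⟨?_, ?_, hne⟩
      · rintro rfl
        exact hxP (by simp)
      · rintro rfl
        exact hxP (by simp)
  rw [h3, measureReal_compl hPm, h2]
  rw [probReal_univ]
  norm_num

end H52.Dir
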