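import Pool.Agent.H52.Dir.L4g

/-!
# Module L5a (110 lines): only one heavy circle

`heavy_uniq` PROOF. Suppose `h ≠ ± h'`, so `c = (dot h h')² < 1`. Take `η > 0` so small that no nonzero `w` has
`(dot w h)² ≥ (1 - η) |w|²` and `(dot w h')² ≥ (1 - η) |w|²` (then, for unit `w`, `1 - 4 η ≤ c`; cf. the
triangle inequality: `|w ∓ h|² ≤ 2 η`, `|w ∓ h'|² ≤ 2 η`, so `|h ∓ h'|² ≤ 8 η`, i.e. `|dot h h'| ≥ 1 - 4 η`;
take `η` with `(1 - 4 η)² > c`). `heavy_pairs` for `h` and `h'` with `κ = α² / 100`. For `ρ` the minimum of the two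
numbers the set `A = {i | 1 - ρ ≤ (dot (u i) a)²}` has at least `α n / 2` points (`opn`), so at least
`α² n² / 4 - n` ordered pairs `i ≠ j`, more than `2 κ n²` for large `n` (`large`), so some pair is good for both,
contradiction (`crs (u i) (u j) ≠ 0`, `ind`).
-/

set_option autoImplicit false

namespace H52.Dir

open Finset MeasureTheory

variable {m : ℕ → ℕ} {u : ∀ N, Fin (m N) → V} {F : Filter ℕ} {μ : Measure V}

private theorem l5a_comm (x y : V) : dot x y = dot y x := by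
  unfold dot; ring

private theorem l5a_zero {x : V} (h : dot x x = 0) : x = 0 := by
  unfold dot at h
  have h0 : x 0 = 0 := by nlinarith [sq_nonneg (x 0), sq_nonneg (x 1), sq_nonneg (x 2)]
  have h1 : x 1 = 0 := by nlinarith [sq_nonneg (x 0), sq_nonneg (x 1), sq_nonneg (x 2)]
  have h2 : x 2 = 0 := by nlinarith [sq_nonneg (x 0), sq_nonneg (x 1), sq_nonneg (x 2)]
  funext i
  fin_cases i
  · exact h0
  · exact h1
  · exact h2

private theorem l5a_nn (x : V) : 0 ≤ dot x x := by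
  unfold dot
  nlinarith [mul_self_nonneg (x 0), mul_self_nonneg (x 1), mul_self_nonneg (x 2)]

/-- the Gram determinant of three vectors -/
private theorem l5a_gram (w h k : V) : (det w h k) ^ 2 =
    dot w w * (dot h h * dot k k - (dot h k) ^ 2) -
      dot w h * (dot w h * dot k k - dot h k * dot w k) +
      dot w k * (dot w h * dot h k - dot h h * dot w k) := by
  rw [det_eq]
  simp only [dot]
  ring

private theorem l5a_c {h h' : V} (hh : dot h h = 1) (hh' : dot h' h' = 1)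
    (hne : ¬ (h' = h ∨ h' = -h)) : |dot h h'| < 1 := by
  push Not at hne
  rw [abs_lt]
  constructor
  · by_contra hc
    push Not at hc
    apply hne.2
    have h1 : dot (h' + h) (h' + h) = 0 := by
      apply le_antisymm _ (l5a_nn _)
      have : dot (h' + h) (h' + h) = dot h h + dot h' h' + 2 * dot h h' := by
        simp only [dot, Pi.add_apply]; ring
      rw [this, hh, hh']
      linarith
    exact eq_neg_of_add_eq_zero_left (l5a_zero h1)
  · by_contra hc
    push Not at hc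
    apply hne.1
    have h1 : dot (h' - h) (h' - h) = 0 := by
      apply le_antisymm _ (l5a_nn _)
      have : dot (h' - h) (h' - h) = dot h h + dot h' h' - 2 * dot h h' := by
        simp only [dot, Pi.sub_apply]; ring
      rw [this, hh, hh']
      linarith
    exact sub_eq_zero.1 (l5a_zero h1)

private theorem l5a_key {w h h' : V} (hh : dot h h = 1) (hh' : dot h' h' = 1) (hw : w ≠ 0)
    {η : ℝ} (hη : 2 * η < 1 - |dot h h'|) (hη0 : 0 < η)
    (h1 : (1 - η) * dot w w ≤ (dot w h) ^ 2) (h2 : (1 - η) * dot w w ≤ (dot w h') ^ 2) :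
    False := by
  have hN : 0 < dot w w := by
    rcases (l5a_nn w).lt_or_eq with h | h
    · exact h
    · exact absurd (l5a_zero h.symm) hw
  have hg := l5a_gram w h h'
  rw [hh, hh'] at hg
  have hg0 := sq_nonneg (det w h h')
  rw [hg] at hg0
  set N := dot w w with hNd
  set p := dot w h with hp
  set q := dot w h' with hq
  set c := dot h h' with hc
  have hc0 : 0 ≤ |c| := abs_nonneg c
  have hc2 : |c| ^ 2 = c ^ 2 := sq_abs c
  have hp2 : |p| ^ 2 = p ^ 2 := sq_abs p
  have hq2 : |q| ^ 2 = q ^ 2 := sq_abs q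
  have hpq : (1 - η) * N ≤ |p| * |q| := by
    have h3 : 0 ≤ (1 - η) * N := by
      apply mul_nonneg _ hN.le
      linarith
    have h4 : ((1 - η) * N) ^ 2 ≤ (|p| * |q|) ^ 2 := by
      rw [mul_pow |p| |q| 2, hp2, hq2, pow_two ((1 - η) * N)]
      exact mul_le_mul h1 h2 h3 (sq_nonneg p)
    exact (sq_le_sq₀ h3 (by positivity)).1 h4
  have h5 : p * q * c ≤ |p| * |q| * |c| := by
    rw [← abs_mul, ← abs_mul]
    exact le_abs_self _
  -- N (1 - c²) ≥ p² + q² - 2 |p| |q| |c|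
  have h6 : |p| ^ 2 + |q| ^ 2 - 2 * (|p| * |q| * |c|) ≤ N * (1 - |c| ^ 2) := by
    rw [hc2, hp2, hq2]
    nlinarith
  have h7 : 2 * (|p| * |q|) * (1 - |c|) ≤ N * (1 - |c| ^ 2) := by
    nlinarith [sq_nonneg (|p| - |q|)]
  have h8 : 0 < 1 - |c| := by linarith
  have h9 : 2 * (|p| * |q|) * (1 - |c|) ≤ (N * (1 + |c|)) * (1 - |c|) := by
    calc 2 * (|p| * |q|) * (1 - |c|) ≤ N * (1 - |c| ^ 2) := h7
      _ = (N * (1 + |c|)) * (1 - |c|) := by ring
  have h10 := le_of_mul_le_mul_right h9 h8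
  nlinarith

theorem heavy_uniq (H : Lm m u F μ) {a h h' : V} (ha : dot a a = 1) (hα : 0 < μ.real {a, -a})
    (hh : dot h h = 1) (hha : dot h a = 0)
    (hpos : 0 < μ {x | dot x h = 0 ∧ x ≠ a ∧ x ≠ -a ∧ dot x a ≠ 0})
    (hh' : dot h' h' = 1) (hha' : dot h' a = 0)
    (hpos' : 0 < μ {x | dot x h' = 0 ∧ x ≠ a ∧ x ≠ -a ∧ dot x a ≠ 0}) : h' = h ∨ h' = -h := by
  classical
  by_contra hne
  have hc := l5a_c hh hh' hne
  set η : ℝ := (1 - |dot h h'|) / 4 with hη
  have hη0 : 0 < η := by rw [hη]; linarith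
  set α := μ.real {a, -a} with hαd
  have hprob := H.prob
  obtain ⟨ρ₁, hρ₁, e₁⟩ := heavy_pairs H ha hα hh hha hpos η (α ^ 2 / 100) hη0 (by positivity)
  obtain ⟨ρ₂, hρ₂, e₂⟩ := heavy_pairs H ha hα hh' hha' hpos' η (α ^ 2 / 100) hη0 (by positivity)
  set O : Set V := {x | 1 - min ρ₁ ρ₂ < (dot x a) ^ 2} with hO
  have hOo : IsOpen O := by
    apply isOpen_lt continuous_const
    unfold dot
    fun_prop
  have hmin : 0 < min ρ₁ ρ₂ := lt_min hρ₁ hρ₂
  have hOα : α ≤ μ.real O := by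
    rw [hαd]
    apply measureReal_mono _ (measure_ne_top _ _)
    intro x hx
    rw [Set.mem_insert_iff, Set.mem_singleton_iff] at hx
    show 1 - min ρ₁ ρ₂ < (dot x a) ^ 2
    have : (dot x a) ^ 2 = 1 := by
      rcases hx with rfl | rfl
      · rw [ha]; norm_num
      · have : dot (-a) a = - dot a a := by simp only [dot, Pi.neg_apply]; ring
        rw [this, ha]; norm_num
    rw [this]
    linarith
  have e₃ := opn H O hOo (α / 2) (by positivity)
  obtain ⟨K, hK⟩ := exists_nat_gt (4 / α)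
  have e₄ := large H K
  have e₅ := H.good 1 one_pos
  have hne0 := H.ne
  obtain ⟨N, h1, h2, h3, h4, h5⟩ := (e₁.and (e₂.and (e₃.and (e₄.and e₅)))).exists
  -- the pairs
  set A : Finset (Fin (m N)) := univ.filter (fun i => u N i ∈ O) with hA
  have hcA : cnt (u N) O = A.card := by
    unfold cnt
    rw [hA]
  rw [hcA] at h3
  set B₁ := (univ : Finset (Fin (m N) × Fin (m N))).filter (fun z => z.1 ≠ z.2 ∧
        1 - ρ₁ ≤ (dot (u N z.1) a) ^ 2 ∧ 1 - ρ₁ ≤ (dot (u N z.2) a) ^ 2 ∧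
        (dot (crs (u N z.1) (u N z.2)) h) ^ 2 <
          (1 - η) * dot (crs (u N z.1) (u N z.2)) (crs (u N z.1) (u N z.2))) with hB₁
  set B₂ := (univ : Finset (Fin (m N) × Fin (m N))).filter (fun z => z.1 ≠ z.2 ∧
        1 - ρ₂ ≤ (dot (u N z.1) a) ^ 2 ∧ 1 - ρ₂ ≤ (dot (u N z.2) a) ^ 2 ∧
        (dot (crs (u N z.1) (u N z.2)) h') ^ 2 <
          (1 - η) * dot (crs (u N z.1) (u N z.2)) (crs (u N z.1) (u N z.2))) with hB₂
  have hn : (4 / α : ℝ) < m N := lt_of_lt_of_le hK (by exact_mod_cast h4)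
  have hαp : 0 < α := hα
  have hn' : 4 < α * m N := by
    rw [div_lt_iff₀ hαp] at hn
    linarith
  have hA1 : α * m N / 2 ≤ (A.card : ℝ) := by
    refine le_trans ?_ h3
    have : (0 : ℝ) ≤ m N := Nat.cast_nonneg _
    nlinarith
  have hoff : (A.offDiag.card : ℝ) = (A.card : ℝ) * A.card - A.card := by
    rw [offDiag_card, Nat.cast_sub (Nat.le_mul_self _)]
    push_cast
    ring
  have hbig : (B₁.card : ℝ) + B₂.card < (A.offDiag.card : ℝ) := by
    rw [hoff]
    have h6 : α * m N / 2 * (α * m N / 2 - 1) ≤ (A.card : ℝ) * A.card - A.card := by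
      nlinarith
    nlinarith
  have hex : ∃ z ∈ A.offDiag, z ∉ B₁ ∪ B₂ := by
    by_contra hcon
    push Not at hcon
    have h6 : A.offDiag.card ≤ (B₁ ∪ B₂).card := card_le_card hcon
    have h7 : (B₁ ∪ B₂).card ≤ B₁.card + B₂.card := card_union_le _ _
    have h8 : (A.offDiag.card : ℝ) ≤ (B₁.card : ℝ) + B₂.card := by
      exact_mod_cast h6.trans h7
    linarith
  obtain ⟨z, hz, hzB⟩ := hex
  rw [mem_offDiag] at hz
  obtain ⟨hz1, hz2, hz3⟩ := hz
  rw [mem_union, not_or] at hzB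
  have hz1' : 1 - min ρ₁ ρ₂ < (dot (u N z.1) a) ^ 2 := by
    rw [hA, mem_filter] at hz1
    exact hz1.2
  have hz2' : 1 - min ρ₁ ρ₂ < (dot (u N z.2) a) ^ 2 := by
    rw [hA, mem_filter] at hz2
    exact hz2.2
  have hm1 := min_le_left ρ₁ ρ₂
  have hm2 := min_le_right ρ₁ ρ₂
  have g1 : (1 - η) * dot (crs (u N z.1) (u N z.2)) (crs (u N z.1) (u N z.2)) ≤
      (dot (crs (u N z.1) (u N z.2)) h) ^ 2 := by
    by_contra hcon
    push Not at hcon
    apply hzB.1
    rw [hB₁, mem_filter]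
    exact ⟨mem_univ _, hz3, by linarith, by linarith, hcon⟩
  have g2 : (1 - η) * dot (crs (u N z.1) (u N z.2)) (crs (u N z.1) (u N z.2)) ≤
      (dot (crs (u N z.1) (u N z.2)) h') ^ 2 := by
    by_contra hcon
    push Not at hcon
    apply hzB.2
    rw [hB₂, mem_filter]
    exact ⟨mem_univ _, hz3, by linarith, by linarith, hcon⟩
  exact l5a_key hh hh' (h5.ind _ _ hz3) (by rw [hη]; linarith) hη0 g1 g2

end H52.Dir
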