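import Pool.Agent.H52.Dir.L5
import Pool.Agent.H52.Dir.Lig
import Pool.Agent.H52.Dir.Beck

/-!
# Module L6 (150 lines): an atom on the polar circle

PROOF. Suppose `μ {b, -b} = 0` for all unit `b` with `dot b a = 0`. `G = {x | dot x x = 1 ∧ dot x a = 0}` is compact
and `μ.real G = 2/3` (`atom_third`, `sph`). For `x ∈ G` the set `{y | det a x y = 0 ∧ y ≠ a ∧ y ≠ -a}` is null: a.e. `y`
in it is a unit vector with `dot y a = 0` (`perp_only`) and `det a x y = 0`, so `y = ± x`, of measure 0 by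
assumption. `beck` with `ρ = 1/10` has a constant `C`; fix `κ > 0` with `κ ≤ ρ³ / C`, `C κ² / ρ⁴ ≤ 1/2`; `N₀`. Let
`τ = min (1/200) (κ/20)`. For every `x ∈ G` `nearcirc` with this `τ` gives `δ_x ≤ τ` and an open `O_x ∋ x`. By
compactness `G ⊆ O' = O_{x_1} ∪ ... ∪ O_{x_k}` (`IsCompact.elim_nhds_subcover` or `elim_finite_subcover`), so
`μ.real O' ≥ 2/3`. For large `N` all the (finitely many) statements of `nearcirc` hold, `Good (u N) τ`, `m N ≥ N₀`,
and `typ_pt` for `O'`, `δ = 1/2`, gives a typical (`Typ (u N) τ`) point `q` with `u q ∈ O'` outside of the exceptional set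
of `beck`; say `u q ∈ O_x`, `δ = δ_x`, `A = {1 - δ ≤ (dot y a)²}`, `n = m N`. `light` (1): at least
`|A| - (2 τ + 8 δ) n ≥ (1/3 - 11 τ) n` lines through `q` meet `A`; `T_q ≤ (1/3 + τ) n` (`Good.T`), so the set `F` of the
lines through `q` that do not meet `A` satisfies `|F| ≤ 12 τ n ≤ κ n`. The union of `F` contains all points except
those of `A`, the at most `τ n` points of the set in `nearcirc`, and perhaps `q`: so it has at least
`n - (1/3 + τ) n - τ n - 1 ≥ (2/3 - 3 τ) n` points (`1 ≤ τ n`). By `beck` a line has at least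
`(2/3 - 3 τ - 1/10) n > (1/3 + τ) n` points, against `Good.line_le`.
-/

set_option autoImplicit false

namespace H52.Dir

open Finset MeasureTheory

variable {m : ℕ → ℕ} {u : ∀ N, Fin (m N) → V} {F : Filter ℕ} {μ : Measure V}

private theorem L6_cs (v w : V) : (dot v w) ^ 2 ≤ dot v v * dot w w := by
  simp only [dot]
  nlinarith [sq_nonneg (v 0 * w 1 - v 1 * w 0), sq_nonneg (v 0 * w 2 - v 2 * w 0),
    sq_nonneg (v 1 * w 2 - v 2 * w 1)]

private theorem L6_zero {v : V} (h : dot v v = 0) : v = 0 := by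
  simp only [dot] at h
  have e0 : v 0 = 0 := by nlinarith [sq_nonneg (v 0), sq_nonneg (v 1), sq_nonneg (v 2)]
  have e1 : v 1 = 0 := by nlinarith [sq_nonneg (v 0), sq_nonneg (v 1), sq_nonneg (v 2)]
  have e2 : v 2 = 0 := by nlinarith [sq_nonneg (v 0), sq_nonneg (v 1), sq_nonneg (v 2)]
  funext j
  fin_cases j
  · exact e0
  · exact e1
  · exact e2

private theorem L6_eq {y a : V} (hy : dot y y = 1) (ha : dot a a = 1) (h : 1 ≤ (dot y a) ^ 2) :
    y = a ∨ y = -a := by
  have h1 := L6_cs y a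
  rw [hy, ha] at h1
  have h2 : (dot y a) ^ 2 = 1 := by linarith
  rcases mul_self_eq_one_iff.1 (by rw [← pow_two]; exact h2 : dot y a * dot y a = 1) with h3 | h3
  · left
    have : dot (y - a) (y - a) = 0 := by
      have e : dot (y - a) (y - a) = dot y y + dot a a - 2 * dot y a := by
        simp only [dot, Pi.sub_apply]; ring
      rw [e, hy, ha, h3]; ring
    exact sub_eq_zero.1 (L6_zero this)
  · right
    have : dot (y + a) (y + a) = 0 := by
      have e : dot (y + a) (y + a) = dot y y + dot a a + 2 * dot y a := by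
        simp only [dot, Pi.add_apply]; ring
      rw [e, hy, ha, h3]; ring
    exact eq_neg_of_add_eq_zero_left (L6_zero this)

private theorem L6_gram (a x y : V) : (det a x y) ^ 2 =
    dot a a * (dot x x * dot y y - (dot x y) ^ 2) -
      dot x a * (dot x a * dot y y - dot x y * dot y a) +
      dot y a * (dot x a * dot x y - dot x x * dot y a) := by
  simp [det, dot, crs]; ring

theorem atom_perp (H : Lm m u F μ) {a : V} (ha : dot a a = 1) (hα : 0 < μ.real {a, -a}) :
    ∃ b : V, dot b b = 1 ∧ dot b a = 0 ∧ 0 < μ.real {b, -b} := by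
  classical
  have := H.prob
  have hFne := H.ne
  by_contra hcon
  push Not at hcon
  have hcon0 : ∀ b : V, dot b b = 1 → dot b a = 0 → μ {b, -b} = 0 := by
    intro b hb hba
    have h1 := hcon b hb hba
    have h2 : μ.real {b, -b} = 0 := le_antisymm h1 measureReal_nonneg
    rcases (ENNReal.toReal_eq_zero_iff _).1 h2 with h3 | h3
    · exact h3
    · exact absurd h3 (measure_ne_top _ _)
  obtain ⟨hA1, hA2⟩ := atom_third H ha hα
  have hperp := perp_only H ha hα
  have hc1 : Continuous (fun x : V => dot x x) := by unfold dot; fun_prop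
  have hc2 : Continuous (fun x : V => dot x a) := by unfold dot; fun_prop
  -- the polar circle
  have hGc : IsCompact {x : V | dot x x = 1 ∧ dot x a = 0} := by
    apply Metric.isCompact_of_isClosed_isBounded
    · exact (isClosed_eq hc1 continuous_const).inter (isClosed_eq hc2 continuous_const)
    · apply Bornology.IsBounded.subset (Metric.isBounded_closedBall (x := (0 : V)) (r := 1))
      rintro x ⟨hx, -⟩
      rw [Metric.mem_closedBall, dist_zero_right]
      apply (pi_norm_le_iff_of_nonneg zero_le_one).2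
      intro i
      rw [Real.norm_eq_abs, ← sq_le_one_iff_abs_le_one]
      simp only [dot] at hx
      fin_cases i
      · change (x 0) ^ 2 ≤ 1
        nlinarith [sq_nonneg (x 0), sq_nonneg (x 1), sq_nonneg (x 2)]
      · change (x 1) ^ 2 ≤ 1
        nlinarith [sq_nonneg (x 0), sq_nonneg (x 1), sq_nonneg (x 2)]
      · change (x 2) ^ 2 ≤ 1
        nlinarith [sq_nonneg (x 0), sq_nonneg (x 1), sq_nonneg (x 2)]
  have hGm : 2 / 3 ≤ μ.real {x : V | dot x x = 1 ∧ dot x a = 0} := by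
    rw [← hA2]
    have h1 : {x : V | dot x a = 0} ⊆ {x : V | dot x x = 1 ∧ dot x a = 0} ∪
        {x | dot x x ≠ 1} := by
      intro x hx
      by_cases h : dot x x = 1
      · exact Or.inl ⟨h, hx⟩
      · exact Or.inr h
    refine le_trans (measureReal_mono h1 (measure_ne_top _ _)) ?_
    refine le_trans (measureReal_union_le _ _) ?_
    have h2 : μ.real {x : V | dot x x ≠ 1} = 0 := by
      rw [measureReal_def, H.sph]; rfl
    rw [h2, add_zero]
  -- constants
  obtain ⟨C, hC1, hbeck⟩ := beck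
  set κ : ℝ := (1 / 10) ^ 3 / C with hκ
  have hCpos : 0 < C := by linarith
  have hκ0 : 0 < κ := by rw [hκ]; positivity
  have hκ1 : κ ≤ 1 / 1000 := by
    rw [hκ, div_le_iff₀ hCpos]; nlinarith
  have hκC : κ * C = 1 / 1000 := by
    rw [hκ]; field_simp; norm_num
  obtain ⟨N₀, hN₀⟩ := hbeck (1 / 10) κ (by norm_num) (by norm_num) hκ0 le_rfl
  set τ : ℝ := κ / 20 with hτ
  have hτ0 : 0 < τ := by rw [hτ]; positivity
  have hτ1 : τ ≤ 1 / 20000 := by rw [hτ]; linarith
  -- local statements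
  have hloc : ∀ x : V, x ∈ {x : V | dot x x = 1 ∧ dot x a = 0} → ∃ O : Set V, IsOpen O ∧
      x ∈ O ∧ ∃ δ : ℝ, 0 < δ ∧ δ ≤ τ ∧ δ ≤ 1 / 100 ∧
      (∀ᶠ N in F, (∀ q, u N q ∈ O → (dot (u N q) a) ^ 2 < 1 - δ ∧
        (((univ : Finset (Fin (m N))).filter (fun j => j ≠ q ∧ (dot (u N j) a) ^ 2 < 1 - δ ∧
          ∃ i, 1 - δ ≤ (dot (u N i) a) ^ 2 ∧ det (u N i) (u N q) (u N j) = 0)).card : ℝ) ≤
          τ * m N) ∧
      ((cnt (u N) {y | 1 - δ ≤ (dot y a) ^ 2} : ℝ) ≤ (μ.real {a, -a} + τ) * m N ∧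
        (μ.real {a, -a} - τ) * m N ≤ (cnt (u N) {y | 1 - δ ≤ (dot y a) ^ 2} : ℝ))) := by
    rintro x ⟨hx, hxa⟩
    have x1 : x ≠ a := by rintro rfl; rw [ha] at hxa; exact one_ne_zero hxa
    have x2 : x ≠ -a := by
      rintro rfl
      have e : dot (-a) a = - dot a a := by simp only [dot, Pi.neg_apply]; ring
      rw [e, ha] at hxa; norm_num at hxa
    have h0 : μ {y | det a x y = 0 ∧ y ≠ a ∧ y ≠ -a} = 0 := by
      have hsub : {y | det a x y = 0 ∧ y ≠ a ∧ y ≠ -a} ⊆
          ({y | dot y y ≠ 1} ∪ {y | y ≠ a ∧ y ≠ -a ∧ dot y a ≠ 0}) ∪ {x, -x} := by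
        rintro y ⟨hy1, hy2, hy3⟩
        by_cases hyy : dot y y = 1
        · by_cases hya : dot y a = 0
          · right
            have hg := L6_gram a x y
            rw [hy1, ha, hx, hyy, hxa, hya] at hg
            have h3 : 1 ≤ (dot y x) ^ 2 := by
              have e : dot y x = dot x y := by simp only [dot]; ring
              rw [e]; nlinarith
            rcases L6_eq hyy hx h3 with h | h
            · exact Or.inl h
            · exact Or.inr h
          · exact Or.inl (Or.inr ⟨hy2, hy3, hya⟩)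
        · exact Or.inl (Or.inl hyy)
      apply measure_mono_null hsub
      rw [measure_union_null_iff, measure_union_null_iff]
      exact ⟨⟨H.sph, hperp⟩, hcon0 x hx hxa⟩
    obtain ⟨δ, d0, d1, d2, O, hO, hxO, e1, e2⟩ := nearcirc H ha hx x1 x2 h0 τ hτ0
    refine ⟨O, hO, hxO, δ, d0, d1, d2, ?_⟩
    filter_upwards [e1, e2] with N f1 f2
    refine ⟨?_, f2⟩
    intro q hq
    refine ⟨(f1 q hq).1, ?_⟩
    have := (f1 q hq).2
    convert this
  choose! O hO1 hO2 δ hδ0 hδ1 hδ2 hev using hloc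
  obtain ⟨t, ht, hcov⟩ := hGc.elim_nhds_subcover O
    (fun x hx => (hO1 x hx).mem_nhds (hO2 x hx))
  have hOo : IsOpen (⋃ x ∈ t, O x) := isOpen_biUnion fun x hx => hO1 x (ht x hx)
  have hOm : (1 / 2 : ℝ) < μ.real (⋃ x ∈ t, O x) := by
    have := measureReal_mono (μ := μ) hcov (measure_ne_top _ _)
    linarith
  have g1 := typ_pt H _ hOo (1 / 2) hOm τ hτ0
  have g2 := H.good τ hτ0
  have g3 := large H N₀
  have g4 : ∀ᶠ N in F, ∀ x ∈ t, ((∀ q, u N q ∈ O x → (dot (u N q) a) ^ 2 < 1 - δ x ∧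
        (((univ : Finset (Fin (m N))).filter (fun j => j ≠ q ∧ (dot (u N j) a) ^ 2 < 1 - δ x ∧
          ∃ i, 1 - δ x ≤ (dot (u N i) a) ^ 2 ∧ det (u N i) (u N q) (u N j) = 0)).card : ℝ) ≤
          τ * m N) ∧
      ((cnt (u N) {y | 1 - δ x ≤ (dot y a) ^ 2} : ℝ) ≤ (μ.real {a, -a} + τ) * m N ∧
        (μ.real {a, -a} - τ) * m N ≤ (cnt (u N) {y | 1 - δ x ≤ (dot y a) ^ 2} : ℝ))) := by
    rw [Filter.eventually_all_finset]
    intro x hx
    exact hev x (ht x hx)
  obtain ⟨N, ⟨⟨k1, k2⟩, k3⟩, k4⟩ := (((g1.and g2).and g3).and g4).exists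
  obtain ⟨X, hX1, hX2⟩ := hN₀ (m N) (u N) k3 k2.toCf
  have hn : (0 : ℝ) ≤ m N := Nat.cast_nonneg _
  have hX3 : (X.card : ℝ) ≤ 1 / 2 * m N := by
    refine le_trans hX1 ?_
    apply mul_le_mul_of_nonneg_right _ hn
    rw [div_le_iff₀ (by norm_num)]
    have : C * κ ^ 2 = 1 / 1000 * κ := by rw [← hκC]; ring
    rw [this]; nlinarith
  obtain ⟨q, hqX, hqO, hqT⟩ := k1 X hX3
  rw [Set.mem_iUnion₂] at hqO
  obtain ⟨x, hxt, hqx⟩ := hqO
  obtain ⟨p1, p2, p3⟩ := k4 x hxt
  obtain ⟨q1, q2⟩ := p1 q hqx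
  rw [hA1] at p2 p3
  have hxG := ht x hxt
  have l0 := hδ0 x hxG
  have l1 := hδ1 x hxG
  have l2 := hδ2 x hxG
  have hl := (light k2.toCf ha l0.le l2 hτ0.le q1 hqT.1 (by convert q2)).1
  have hcA : cnt (u N) {y | 1 - δ x ≤ (dot y a) ^ 2} =
      ((univ : Finset (Fin (m N))).filter (fun i => 1 - δ x ≤ (dot (u N i) a) ^ 2)).card := by
    unfold cnt
    congr 1
  rw [hcA] at p2 p3
  have hF := hX2 q hqX ((thr (u N) q).filter (fun l => ¬ ∃ i ∈ l, 1 - δ x ≤ (dot (u N i) a) ^ 2))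
    (filter_subset _ _)
  have hsum : ((thr (u N) q).filter (fun l => ∃ i ∈ l, 1 - δ x ≤ (dot (u N i) a) ^ 2)).card +
      ((thr (u N) q).filter (fun l => ¬ ∃ i ∈ l, 1 - δ x ≤ (dot (u N i) a) ^ 2)).card =
      (thr (u N) q).card := card_filter_add_card_filter_not _
  have hsum' : (((thr (u N) q).filter (fun l => ∃ i ∈ l, 1 - δ x ≤ (dot (u N i) a) ^ 2)).card : ℝ)
      + (((thr (u N) q).filter (fun l => ¬ ∃ i ∈ l, 1 - δ x ≤ (dot (u N i) a) ^ 2)).card : ℝ) =
      ((thr (u N) q).card : ℝ) := by exact_mod_cast hsum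
  have hTq := k2.T q
  have hbig := k2.big
  have hδn : δ x * m N ≤ τ * m N := mul_le_mul_of_nonneg_right l1 hn
  obtain ⟨l₀, hl0, hl1⟩ := hF (by
    have hkn : τ * m N = κ * m N / 20 := by rw [hτ]; ring
    have hkn0 : 0 ≤ κ * m N := by positivity
    nlinarith)
  -- counting
  have hcount : m N ≤ (((thr (u N) q).filter
      (fun l => ¬ ∃ i ∈ l, 1 - δ x ≤ (dot (u N i) a) ^ 2)).biUnion id).card +
      ((univ : Finset (Fin (m N))).filter (fun i => 1 - δ x ≤ (dot (u N i) a) ^ 2)).card +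
      ((univ : Finset (Fin (m N))).filter (fun j => j ≠ q ∧ (dot (u N j) a) ^ 2 < 1 - δ x ∧
          ∃ i, 1 - δ x ≤ (dot (u N i) a) ^ 2 ∧ det (u N i) (u N q) (u N j) = 0)).card + 1 := by
    have e : ((univ : Finset (Fin (m N)))).card = m N := by simp
    conv_lhs => rw [← e]
    rw [← card_singleton q]
    refine le_trans (card_le_card ?_) (le_trans (card_union_le _ _) (Nat.add_le_add_right
      (le_trans (card_union_le _ _) (Nat.add_le_add_right (card_union_le _ _) _)) _))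
    intro j _
    simp only [mem_union, mem_filter, mem_univ, true_and, mem_singleton, mem_biUnion, id]
    by_cases hjq : j = q
    · exact Or.inr hjq
    · left
      by_cases hjA : 1 - δ x ≤ (dot (u N j) a) ^ 2
      · exact Or.inl (Or.inr hjA)
      · by_cases hjB : ∃ i, 1 - δ x ≤ (dot (u N i) a) ^ 2 ∧ det (u N i) (u N q) (u N j) = 0
        · exact Or.inr ⟨hjq, not_le.1 hjA, hjB⟩
        · refine Or.inl (Or.inl ⟨ln (u N) q j, ⟨mem_thr.2 ⟨ln_mem _ (Ne.symm hjq),
            ln_left _ _ _⟩, ?_⟩, ln_right _ _ _⟩)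
          rintro ⟨i, hi1, hi2⟩
          apply hjB
          refine ⟨i, hi2, ?_⟩
          rw [mem_ln, det_eq] at hi1
          rw [det_eq]
          linarith
  have hcount' : (m N : ℝ) ≤ ((((thr (u N) q).filter
      (fun l => ¬ ∃ i ∈ l, 1 - δ x ≤ (dot (u N i) a) ^ 2)).biUnion id).card : ℝ) +
      (((univ : Finset (Fin (m N))).filter (fun i => 1 - δ x ≤ (dot (u N i) a) ^ 2)).card : ℝ) +
      (((univ : Finset (Fin (m N))).filter (fun j => j ≠ q ∧ (dot (u N j) a) ^ 2 < 1 - δ x ∧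
          ∃ i, 1 - δ x ≤ (dot (u N i) a) ^ 2 ∧ det (u N i) (u N q) (u N j) = 0)).card : ℝ)
          + 1 := by
    exact_mod_cast hcount
  have hle : (((thr (u N) q).filter
      (fun l => ¬ ∃ i ∈ l, 1 - δ x ≤ (dot (u N i) a) ^ 2)).biUnion id).card ≤
      ((((thr (u N) q).filter
      (fun l => ¬ ∃ i ∈ l, 1 - δ x ≤ (dot (u N i) a) ^ 2)).biUnion id) \ l₀).card + l₀.card := by
    have := card_le_card_sdiff_add_card (t := l₀) (s := ((thr (u N) q).filter
      (fun l => ¬ ∃ i ∈ l, 1 - δ x ≤ (dot (u N i) a) ^ 2)).biUnion id)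
    exact this
  have hle' : ((((thr (u N) q).filter
      (fun l => ¬ ∃ i ∈ l, 1 - δ x ≤ (dot (u N i) a) ^ 2)).biUnion id).card : ℝ) ≤
      (((((thr (u N) q).filter
      (fun l => ¬ ∃ i ∈ l, 1 - δ x ≤ (dot (u N i) a) ^ 2)).biUnion id) \ l₀).card : ℝ) +
      (l₀.card : ℝ) := by exact_mod_cast hle
  have hll := k2.line_le (mem_thr.1 hl0).1
  have hnpos : (0 : ℝ) < m N := by
    by_contra h
    have : (m N : ℝ) = 0 := le_antisymm (not_lt.1 h) hn
    rw [this, mul_zero] at hbig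
    linarith
  have hτn : τ * m N ≤ 1 / 20000 * m N := mul_le_mul_of_nonneg_right hτ1 hn
  nlinarith

end H52.Dir
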