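import Pool.Agent.H52.Dir.Lm

/-!
# Module LEx (170 lines): existence of a limit measure

PROOF. `E` = the unit sphere `{x : V // dot x x = 1}`, a compact metrizable space (closed and
bounded in `Fin 3 → ℝ`: `|x i| ≤ 1`), so `ProbabilityMeasure E` is compact (instance in
`Mathlib.MeasureTheory.Measure.Prokhorov`). `m N ≥ 1` (`big`: `1 ≤ ε n`). `P N` = the probability measure
`(1 / m N) Σ_i dirac (u N i)` on `E`. Let `F` be an ultrafilter on `ℕ` with `F ≤ atTop`
(`Ultrafilter.of atTop`, or `Filter.hyperfilter ℕ`); the ultrafilter `F.map P` converges to some `ν`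
(`Ultrafilter.le_nhds_lim` in a compact space, or `isCompact_univ.ultrafilter_le_nhds`), so `P → ν` along
`F`. `μ = ν.map Subtype.val`.
`good`: eventually `1 / (N + 1) ≤ ε` (`Good.mono`). `clo`: `ProbabilityMeasure.limsup_measure_closed_le_of_tendsto`
for the closed set `Subtype.val ⁻¹' K`, in the form: eventually `(P N).real ≤ μ.real K + δ`
(`Filter.eventually_lt_of_limsup_lt`), and `(P N)(val⁻¹ K) = cnt (u N) K / m N`.
`iso`: `x ↦ (dot x y)²` is a bounded continuous function on `E`, so
`∫ (dot x y)² dν = lim (1 / m N) Σ_i (dot (u N i) y)²` (`ProbabilityMeasure.tendsto_iff_forall_integral_tendsto`) and the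
right side tends to `1/3` by `Good.iso` with `ε = 1/(N+1)`.
-/

set_option autoImplicit false

namespace H52.Dir

open Finset MeasureTheory

open scoped ENNReal Topology

/-- the unit sphere -/
private abbrev Sph : Type := {x : V // dot x x = 1}

private theorem lex_dot_cont (y : V) : Continuous fun x : V => dot x y := by
  unfold dot
  fun_prop

private theorem lex_dot_cont' : Continuous fun x : V => dot x x := by
  unfold dot
  fun_prop

private theorem lex_compact' : IsCompact {x : V | dot x x = 1} := by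
  have hcl : IsClosed {x : V | dot x x = 1} := isClosed_eq lex_dot_cont' continuous_const
  refine Metric.isCompact_of_isClosed_isBounded hcl ?_
  refine (Metric.isBounded_closedBall (x := (0 : V)) (r := 1)).subset fun x hx => ?_
  have hx' : x 0 * x 0 + x 1 * x 1 + x 2 * x 2 = 1 := hx
  rw [mem_closedBall_zero_iff, pi_norm_le_iff_of_nonneg zero_le_one]
  intro i
  rw [Real.norm_eq_abs, abs_le]
  fin_cases i <;> constructor <;> simp <;> nlinarith [mul_self_nonneg (x 0), mul_self_nonneg (x 1),
    mul_self_nonneg (x 2)]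

private instance lex_compact : CompactSpace Sph := isCompact_iff_compactSpace.1 lex_compact'

private noncomputable def lexM {n : ℕ} (e : Fin n → Sph) : Measure Sph :=
  (n : ℝ≥0∞)⁻¹ • ∑ i, Measure.dirac (e i)

private theorem lexM_prob {n : ℕ} (hn : 0 < n) (e : Fin n → Sph) :
    IsProbabilityMeasure (lexM e) := by
  refine ⟨?_⟩
  have h0 : (n : ℝ≥0∞) ≠ 0 := by exact_mod_cast hn.ne'
  simp only [lexM, Measure.smul_apply, Measure.coe_finsetSum, Finset.sum_apply, measure_univ,
    sum_const, card_univ, Fintype.card_fin, nsmul_eq_mul, mul_one, smul_eq_mul]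
  exact ENNReal.inv_mul_cancel h0 (ENNReal.natCast_ne_top n)

open Classical in
private theorem lexM_set {n : ℕ} (hn : 0 < n) (e : Fin n → Sph) {K : Set Sph}
    (hK : MeasurableSet K) :
    (((univ : Finset (Fin n)).filter (fun i => e i ∈ K)).card : ℝ) = (lexM e).real K * n := by
  have h0 : (n : ℝ) ≠ 0 := by exact_mod_cast hn.ne'
  have h1 : (lexM e).real K = (n : ℝ)⁻¹ * ∑ i, (Measure.dirac (e i)).real K := by
    unfold lexM
    rw [measureReal_ennreal_smul_apply, measureReal_def]
    simp only [Measure.coe_finsetSum, Finset.sum_apply, ENNReal.toReal_inv, ENNReal.toReal_natCast]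
    rw [ENNReal.toReal_sum (fun i _ => measure_ne_top _ _)]
    rfl
  have h2 : ∀ i, (Measure.dirac (e i)).real K = if e i ∈ K then 1 else 0 := by
    intro i
    rw [measureReal_def, Measure.dirac_apply' _ hK]
    by_cases h : e i ∈ K <;> simp [h]
  rw [h1]
  simp only [h2]
  rw [← Finset.sum_boole]
  field_simp

private theorem lexM_int {n : ℕ} (e : Fin n → Sph) (f : Sph → ℝ) (_hf : Continuous f) :
    ∫ x, f x ∂(lexM e) = (n : ℝ)⁻¹ * ∑ i, f (e i) := by
  unfold lexM
  rw [integral_smul_measure, integral_finsetSum_measure]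
  · simp only [integral_dirac, ENNReal.toReal_inv, ENNReal.toReal_natCast, smul_eq_mul]
  · intro i _
    exact integrable_dirac (by simp)

theorem lex (m : ℕ → ℕ) (u : ∀ N, Fin (m N) → V) (h : ∀ N : ℕ, Good (u N) (1 / ((N : ℝ) + 1))) :
    ∃ (F : Filter ℕ) (μ : Measure V), Lm m u F μ := by
  classical
  have hm : ∀ N, 0 < m N := by
    intro N
    have h1 := (h N).big
    rcases Nat.eq_zero_or_pos (m N) with h2 | h2
    · rw [h2, Nat.cast_zero, mul_zero] at h1
      linarith
    · exact h2
  let e : ∀ N, Fin (m N) → Sph := fun N i => ⟨u N i, (h N).unit i⟩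
  let P : ℕ → ProbabilityMeasure Sph := fun N => ⟨lexM (e N), lexM_prob (hm N) (e N)⟩
  let F : Ultrafilter ℕ := Filter.hyperfilter ℕ
  obtain ⟨ν, -, hν⟩ := isCompact_univ.ultrafilter_le_nhds (F.map P)
    (by simp only [Filter.principal_univ, le_top])
  have hlim : Filter.Tendsto P (F : Filter ℕ) (𝓝 ν) := hν
  have hval : Measurable (Subtype.val : Sph → V) := measurable_subtype_coe
  have hprob : IsProbabilityMeasure ((ν : Measure Sph).map Subtype.val) :=
    Measure.isProbabilityMeasure_map hval.aemeasurable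
  refine ⟨(F : Filter ℕ), (ν : Measure Sph).map Subtype.val, ?_⟩
  refine ⟨inferInstance, ?_, hprob, ?_, ?_, ?_⟩
  · intro ε hε
    have h1 : ∀ᶠ N : ℕ in Filter.atTop, 1 / ((N : ℝ) + 1) < ε :=
      (tendsto_one_div_add_atTop_nhds_zero_nat (𝕜 := ℝ)).eventually_lt_const hε
    filter_upwards [Nat.hyperfilter_le_atTop h1] with N hN
    exact (h N).mono hN.le
  · rw [Measure.map_apply hval (isOpen_ne_fun lex_dot_cont' continuous_const).measurableSet]
    have : (Subtype.val : Sph → V) ⁻¹' {x | dot x x ≠ 1} = ∅ := by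
      ext x
      simp [x.2]
    rw [this, measure_empty]
  · intro K hK δ hδ
    have hK' : IsClosed ((Subtype.val : Sph → V) ⁻¹' K) := hK.preimage continuous_subtype_val
    have h1 := ProbabilityMeasure.limsup_measure_closed_le_of_tendsto hlim hK'
    have h2 : (ν : Measure Sph) ((Subtype.val : Sph → V) ⁻¹' K) <
        (ν : Measure Sph) ((Subtype.val : Sph → V) ⁻¹' K) + ENNReal.ofReal δ :=
      ENNReal.lt_add_right (measure_ne_top _ _) (by simpa using hδ)
    filter_upwards [Filter.eventually_lt_of_limsup_lt (h1.trans_lt h2)] with N hN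
    have h3 : cnt (u N) K = ((univ : Finset (Fin (m N))).filter
        (fun i => e N i ∈ ((Subtype.val : Sph → V) ⁻¹' K))).card := by
      unfold cnt
      congr 1
    rw [h3, lexM_set (hm N) (e N) hK'.measurableSet]
    refine mul_le_mul_of_nonneg_right ?_ (Nat.cast_nonneg _)
    have h4 : ((ν : Measure Sph).map Subtype.val).real K =
        (ν : Measure Sph).real ((Subtype.val : Sph → V) ⁻¹' K) :=
      map_measureReal_apply hval hK.measurableSet
    rw [h4, measureReal_def, measureReal_def]
    have h5 := ENNReal.toReal_mono (by finiteness) hN.le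
    rw [ENNReal.toReal_add (measure_ne_top _ _) ENNReal.ofReal_ne_top,
      ENNReal.toReal_ofReal hδ.le] at h5
    exact h5
  · intro y hy
    have hc : Continuous fun x : V => (dot x y) ^ 2 := (lex_dot_cont y).pow 2
    have hc' : Continuous fun x : Sph => (dot (x : V) y) ^ 2 := hc.comp continuous_subtype_val
    rw [integral_map hval.aemeasurable hc.aestronglyMeasurable]
    have h1 := (ProbabilityMeasure.tendsto_iff_forall_integral_tendsto.1 hlim)
      (BoundedContinuousFunction.mkOfCompact ⟨_, hc'⟩)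
    have h2 : Filter.Tendsto (fun N : ℕ => ∫ x, (BoundedContinuousFunction.mkOfCompact
        (⟨fun x : Sph => (dot (x : V) y) ^ 2, hc'⟩ : C(Sph, ℝ))) x ∂(P N : Measure Sph))
        (F : Filter ℕ) (𝓝 (1 / 3)) := by
      rw [tendsto_iff_dist_tendsto_zero]
      have h3 : Filter.Tendsto (fun N : ℕ => 1 / ((N : ℝ) + 1)) (F : Filter ℕ) (𝓝 0) :=
        (tendsto_one_div_add_atTop_nhds_zero_nat (𝕜 := ℝ)).mono_left Nat.hyperfilter_le_atTop
      refine squeeze_zero (fun _ => dist_nonneg) (fun N => ?_) h3
      have h4 : ∫ x, (BoundedContinuousFunction.mkOfCompact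
        (⟨fun x : Sph => (dot (x : V) y) ^ 2, hc'⟩ : C(Sph, ℝ))) x ∂(P N : Measure Sph) =
          ((m N : ℕ) : ℝ)⁻¹ * ∑ i, (dot (u N i) y) ^ 2 :=
        lexM_int (e N) (fun x : Sph => (dot (x : V) y) ^ 2) hc'
      rw [h4, Real.dist_eq]
      have hm0 : (0 : ℝ) < m N := by exact_mod_cast hm N
      have h5 := (h N).iso y hy
      have h6 : ((m N : ℕ) : ℝ)⁻¹ * ∑ i, (dot (u N i) y) ^ 2 - 1 / 3 =
          (∑ i, (dot (u N i) y) ^ 2 - (m N : ℝ) / 3) / m N := by
        field_simp
      rw [h6, abs_div, abs_of_pos hm0, div_le_iff₀ hm0]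
      exact h5
    exact tendsto_nhds_unique h1 h2

end H52.Dir
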