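import Pool.Agent.H52.Dir.L6
import Pool.Agent.H52.Dir.L2
import Pool.Agent.H52.Dir.LEx

/-!
# Module L7 (130 lines): the frame

`frame_lim` PROOF. `a` from `atom`, `b` from `atom_perp`, `c = crs a b`, `g = ![a, b, c]` (`orth_ext`). `atom_third` for `a`
and for `b`: masses `1/3`. By `perp_only` for `a` and `b`, `sph`: a.e. `x` is a unit vector with (`x = ± a` or
`dot x a = 0`) and (`x = ± b` or `dot x b = 0`), so `x ∈ {± a} ∪ {± b} ∪ {± c}` (a unit vector orthogonal to `a` and `b`
is `± c`). So `μ.real {c, -c} ≥ 1 - 2/3`.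

`frame_ex` PROOF. Otherwise there is `ω > 0` and for every `N` a configuration `u N` with `Good (u N) (1/(N+1))` and no
such frame. `lex` gives `F, μ`; `frame_lim` gives `g`; for each `j` the open set `{x | 1 - ω < (dot (g j) x)²}` contains
`g j, -g j`, so it has measure `≥ 1/3` and eventually at least `(1/3 - ω) m N` points (`opn`), contradiction.
-/

set_option autoImplicit false

namespace H52.Dir

open Finset MeasureTheory

variable {m : ℕ → ℕ} {u : ∀ N, Fin (m N) → V} {F : Filter ℕ} {μ : Measure V}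

private theorem L7_span {a b : V} (ha : dot a a = 1) (hb : dot b b = 1) (hab : dot a b = 0)
    {x : V} (hx : dot x x = 1) (hxa : dot x a = 0) (hxb : dot x b = 0) :
    x = crs a b ∨ x = -(crs a b) := by
  have hg := orth_ext ha hb hab
  set c : V := crs a b with hc
  have comm : ∀ y z : V, dot y z = dot z y := by
    intro y z
    simp only [dot]
    ring
  have h0 : rot ![a, b, c] x = ![0, 0, dot c x] := by
    funext j
    fin_cases j
    · show dot a x = 0
      rw [comm, hxa]
    · show dot b x = 0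
      rw [comm, hxb]
    · rfl
  have h1 : ∀ i, x i = dot c x * c i := by
    intro i
    have h2 := dot_rot hg x (Pi.single i 1)
    rw [h0] at h2
    have h3 : dot x (Pi.single i 1) = x i := by
      fin_cases i <;> simp [dot]
    have h4 : dot ![0, 0, dot c x] (rot ![a, b, c] (Pi.single i 1)) = dot c x * c i := by
      have h5 : rot ![a, b, c] (Pi.single i 1) 2 = c i := by
        show dot c (Pi.single i 1) = c i
        fin_cases i <;> simp [dot]
      rw [dot, h5]
      simp
    rw [← h3, ← h2, h4]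
  have h2 := dot_rot hg x x
  rw [h0, hx] at h2
  have h3 : dot c x * dot c x = 1 := by
    simpa [dot] using h2
  rcases mul_self_eq_one_iff.1 h3 with h4 | h4
  · left
    funext i
    rw [h1 i, h4, one_mul]
  · right
    funext i
    rw [h1 i, h4, neg_one_mul, Pi.neg_apply]

theorem frame_lim (H : Lm m u F μ) : ∃ g : Fin 3 → V, Orth g ∧ ∀ j, 1 / 3 ≤ μ.real {g j, -g j} := by
  obtain ⟨a, ha, hα⟩ := atom H
  obtain ⟨b, hb, hba, hβ⟩ := atom_perp H ha hα
  have := H.prob
  have hab : dot a b = 0 := by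
    rw [← hba]
    simp only [dot]
    ring
  have hg := orth_ext ha hb hab
  have ma := (atom_third H ha hα).1
  have mb := (atom_third H hb hβ).1
  have pa := perp_only H ha hα
  have pb := perp_only H hb hβ
  refine ⟨![a, b, crs a b], hg, ?_⟩
  have hcov : (Set.univ : Set V) ⊆ (({a, -a} ∪ {b, -b}) ∪ {crs a b, -(crs a b)}) ∪
      (({x | dot x x ≠ 1} ∪ {x | x ≠ a ∧ x ≠ -a ∧ dot x a ≠ 0}) ∪
        {x | x ≠ b ∧ x ≠ -b ∧ dot x b ≠ 0}) := by
    intro x _
    by_contra hx
    simp only [Set.mem_union, Set.mem_insert_iff, Set.mem_singleton_iff, Set.mem_ofPred_eq,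
      not_or, not_and, not_not] at hx
    obtain ⟨⟨⟨⟨x1, x2⟩, x3, x4⟩, x5, x6⟩, ⟨x7, x8⟩, x9⟩ := hx
    rcases L7_span ha hb hab x7 (x8 x1 x2) (x9 x3 x4) with h | h
    · exact x5 h
    · exact x6 h
  have hnull : μ.real (({x | dot x x ≠ 1} ∪ {x | x ≠ a ∧ x ≠ -a ∧ dot x a ≠ 0}) ∪
        {x | x ≠ b ∧ x ≠ -b ∧ dot x b ≠ 0}) = 0 := by
    rw [measureReal_def, measure_union_null (measure_union_null H.sph pa) pb, ENNReal.toReal_zero]
  have h1 : (1 : ℝ) ≤ μ.real {a, -a} + μ.real {b, -b} + μ.real {crs a b, -(crs a b)} := by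
    calc (1 : ℝ) = μ.real Set.univ := by rw [measureReal_def, measure_univ, ENNReal.toReal_one]
      _ ≤ μ.real ((({a, -a} ∪ {b, -b}) ∪ {crs a b, -(crs a b)}) ∪
      (({x | dot x x ≠ 1} ∪ {x | x ≠ a ∧ x ≠ -a ∧ dot x a ≠ 0}) ∪
        {x | x ≠ b ∧ x ≠ -b ∧ dot x b ≠ 0})) := measureReal_mono hcov
      _ ≤ μ.real (({a, -a} ∪ {b, -b}) ∪ {crs a b, -(crs a b)}) :=
          (measureReal_union_le _ _).trans (by rw [hnull, add_zero])
      _ ≤ μ.real ({a, -a} ∪ {b, -b}) + μ.real {crs a b, -(crs a b)} := measureReal_union_le _ _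
      _ ≤ _ := by
          gcongr
          exact measureReal_union_le _ _
  intro j
  fin_cases j
  · exact ma.ge
  · exact mb.ge
  · show 1 / 3 ≤ μ.real {crs a b, -(crs a b)}
    linarith

open Classical in
theorem frame_ex (ω : ℝ) (hω : 0 < ω) : ∃ ε : ℝ, 0 < ε ∧ ∀ (n : ℕ) (u : Fin n → V), Good u ε →
    ∃ g : Fin 3 → V, Orth g ∧ ∀ j, (1 / 3 - ω) * n ≤
      (((univ : Finset (Fin n)).filter (fun i => 1 - ω ≤ (dot (g j) (u i)) ^ 2)).card : ℝ) := by
  by_contra hcon
  push Not at hcon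
  have hc : ∀ N : ℕ, ∃ (n : ℕ) (u : Fin n → V), Good u (1 / ((N : ℝ) + 1)) ∧
      ∀ g : Fin 3 → V, Orth g → ∃ j, (((univ : Finset (Fin n)).filter
        (fun i => 1 - ω ≤ (dot (g j) (u i)) ^ 2)).card : ℝ) < (1 / 3 - ω) * n := by
    intro N
    obtain ⟨n, u, h1, h2⟩ := hcon (1 / ((N : ℝ) + 1)) (by positivity)
    exact ⟨n, u, h1, h2⟩
  choose m u hgood hno using hc
  obtain ⟨F, μ, H⟩ := lex m u hgood
  obtain ⟨g, hg, hμ⟩ := frame_lim H
  have := H.prob
  have := H.ne
  have hev : ∀ j : Fin 3, ∀ᶠ N in F, (1 / 3 - ω) * (m N : ℝ) ≤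
      (((univ : Finset (Fin (m N))).filter (fun i => 1 - ω ≤ (dot (g j) (u N i)) ^ 2)).card : ℝ) := by
    intro j
    have hO : IsOpen {x : V | 1 - ω < (dot (g j) x) ^ 2} := by
      apply isOpen_lt continuous_const
      unfold dot
      fun_prop
    have hsub : ({g j, -g j} : Set V) ⊆ {x : V | 1 - ω < (dot (g j) x) ^ 2} := by
      have h1 : dot (g j) (g j) = 1 := by
        rw [hg j j, if_pos rfl]
      have h2 : dot (g j) (-g j) = -1 := by
        rw [← h1]
        simp only [dot, Pi.neg_apply]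
        ring
      intro x hx
      rcases hx with rfl | hx
      · show 1 - ω < (dot (g j) (g j)) ^ 2
        rw [h1]
        linarith
      · rw [Set.mem_singleton_iff] at hx
        subst hx
        show 1 - ω < (dot (g j) (-g j)) ^ 2
        rw [h2]
        linarith
    have hmass : 1 / 3 ≤ μ.real {x : V | 1 - ω < (dot (g j) x) ^ 2} :=
      (hμ j).trans (measureReal_mono hsub)
    filter_upwards [opn H _ hO ω hω] with N hN
    calc (1 / 3 - ω) * (m N : ℝ) ≤ (μ.real {x : V | 1 - ω < (dot (g j) x) ^ 2} - ω) * m N := by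
          gcongr
      _ ≤ _ := hN
      _ ≤ _ := by
          unfold cnt
          norm_cast
          apply card_le_card
          intro i hi
          rw [mem_filter] at hi ⊢
          exact ⟨hi.1, le_of_lt hi.2⟩
  obtain ⟨N, hN⟩ := (Filter.eventually_all.2 hev).exists
  obtain ⟨j, hj⟩ := hno N g hg
  exact absurd (hN j) (not_le.2 hj)

end H52.Dir
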