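import Pool.Agent.H52.Dir.Lm
import Pool.Agent.H52.Dir.Ty
import Pool.Agent.H52.Dir.Rot

/-!
# Module LBs (150 lines): basic facts about limit measures

PROOFS. `opn`: complement of `clo` (`cnt K + cnt Kᶜ = m N`, `μ.real Kᶜ = 1 - μ.real K`).
`typ_pt`: by `typ` with `ε₁' = min ε₁ ((μ.real O - δ) / 4)` (a `Typ u ε₁'` point is a `Typ u ε₁` point:
`Typ.mono`) at most `(μ.real O - δ)/4 * m N` points are not typical, at most `δ * m N` are in `X`, and `O` has at
least `(μ.real O - (μ.real O - δ)/4) * m N` points (`opn`), `m N > 0` (`Good.big`): so one point of `O` is typical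
and not in `X`.
`lm_rot`: `rot g` is continuous (a linear map), `rot g ⁻¹' K` is closed; `dot (rot g x) (rot g x) = dot x x`;
`iso`: `∫ (dot x y)² d(μ.map (rot g)) = ∫ (dot (rot g x) y)² dμ`, `y = rot g y'` (`rot_surj`),
`dot (rot g x) (rot g y') = dot x y'`, `dot y' y' = 1`. `good_rot`.
`supp_sph`: the set `{x | dot x x ≠ 1}` is open of measure 0.
-/

set_option autoImplicit false

namespace H52.Dir

open Finset MeasureTheory

variable {m : ℕ → ℕ} {u : ∀ N, Fin (m N) → V} {F : Filter ℕ} {μ : Measure V}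

theorem Typ.mono {n : ℕ} {u : Fin n → V} {ε ε' : ℝ} {i : Fin n} (h : Typ u ε i) (hε : ε ≤ ε') :
    Typ u ε' i := by
  have hn : (0 : ℝ) ≤ n := Nat.cast_nonneg n
  exact ⟨h.1.trans (mul_le_mul_of_nonneg_right hε hn),
    (mul_le_mul_of_nonneg_right (by linarith) hn).trans h.2⟩

private theorem lbs_cnt_compl {n : ℕ} (u : Fin n → V) (K : Set V) :
    (cnt u K : ℝ) + (cnt u Kᶜ : ℝ) = n := by
  classical
  have h1 := Finset.card_filter_add_card_filter_not (s := (univ : Finset (Fin n)))
    (fun i => u i ∈ K)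
  rw [card_univ, Fintype.card_fin] at h1
  have h2 : cnt u K + cnt u Kᶜ = n := by
    have h3 : cnt u Kᶜ = ((univ : Finset (Fin n)).filter (fun i => ¬ u i ∈ K)).card := by
      unfold cnt
      congr 1
      ext i
      simp
    rw [h3]
    unfold cnt
    convert h1 using 2
  exact_mod_cast h2

theorem opn (H : Lm m u F μ) (O : Set V) (hO : IsOpen O) (δ : ℝ) (hδ : 0 < δ) :
    ∀ᶠ N in F, (μ.real O - δ) * m N ≤ (cnt (u N) O : ℝ) := by
  have := H.prob
  filter_upwards [H.clo Oᶜ hO.isClosed_compl δ hδ] with N hN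
  have h1 := lbs_cnt_compl (u N) O
  have h2 : μ.real Oᶜ = 1 - μ.real O := probReal_compl_eq_one_sub hO.measurableSet
  rw [h2] at hN
  linarith

theorem large (H : Lm m u F μ) (k : ℕ) : ∀ᶠ N in F, k ≤ m N := by
  have hk : (0 : ℝ) < (k : ℝ) + 1 := by positivity
  filter_upwards [H.good (1 / ((k : ℝ) + 1)) (by positivity)] with N hN
  have h1 := hN.big
  rw [one_div, ← div_eq_inv_mul, le_div_iff₀ hk, one_mul] at h1
  have h2 : (k : ℝ) ≤ m N := by linarith
  exact_mod_cast h2

/-- almost all points are typical -/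
theorem typ_ev (H : Lm m u F μ) (ε₁ : ℝ) (h₁ : 0 < ε₁) :
    ∀ᶠ N in F, ∃ Ty : Finset (Fin (m N)), (((univ : Finset (Fin (m N))) \ Ty).card : ℝ) ≤ ε₁ * m N ∧
      ∀ i ∈ Ty, Typ (u N) ε₁ i := by
  classical
  obtain ⟨ε, hε, h⟩ := typ ε₁ h₁
  filter_upwards [H.good ε hε] with N hN
  refine ⟨univ.filter (fun i => Typ (u N) ε₁ i), ?_, fun i hi => (mem_filter.1 hi).2⟩
  have h1 := h (m N) (u N) hN
  refine le_trans (le_of_eq ?_) h1
  congr 2
  ext i
  simp

theorem typ_pt (H : Lm m u F μ) (O : Set V) (hO : IsOpen O) (δ : ℝ) (hδ : δ < μ.real O)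
    (ε₁ : ℝ) (h₁ : 0 < ε₁) :
    ∀ᶠ N in F, ∀ X : Finset (Fin (m N)), (X.card : ℝ) ≤ δ * m N →
      ∃ i, i ∉ X ∧ u N i ∈ O ∧ Typ (u N) ε₁ i := by
  classical
  have hη : 0 < (μ.real O - δ) / 4 := by linarith
  have hε : 0 < min ε₁ ((μ.real O - δ) / 4) := lt_min h₁ hη
  filter_upwards [opn H O hO _ hη, typ_ev H _ hε, large H 1] with N h1 h2 h3 X hX
  obtain ⟨Ty, hTy, hT⟩ := h2
  have hm : (1 : ℝ) ≤ m N := by exact_mod_cast h3
  by_contra hcon
  push Not at hcon
  have hsub : (univ : Finset (Fin (m N))).filter (fun i => u N i ∈ O) ⊆ X ∪ (univ \ Ty) := by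
    intro i hi
    have hi' := (mem_filter.1 hi).2
    by_contra hni
    rw [mem_union, not_or] at hni
    have hiT : i ∈ Ty := by
      by_contra h
      exact hni.2 (mem_sdiff.2 ⟨mem_univ i, h⟩)
    exact hcon i hni.1 hi' ((hT i hiT).mono (min_le_left _ _))
  have h4 := (card_le_card hsub).trans (card_union_le _ _)
  have h5 : (cnt (u N) O : ℝ) ≤ X.card + ((univ : Finset (Fin (m N))) \ Ty).card := by
    have h6 : cnt (u N) O ≤ X.card + ((univ : Finset (Fin (m N))) \ Ty).card := by
      unfold cnt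
      convert h4 using 2
    exact_mod_cast h6
  have h7 : min ε₁ ((μ.real O - δ) / 4) * m N ≤ (μ.real O - δ) / 4 * m N :=
    mul_le_mul_of_nonneg_right (min_le_right _ _) (by linarith)
  nlinarith

private theorem lbs_dot_cont (y : V) : Continuous fun x : V => dot x y := by
  unfold dot
  fun_prop

private theorem lbs_dot_cont' : Continuous fun x : V => dot x x := by
  unfold dot
  fun_prop

private theorem lbs_rot_cont (g : Fin 3 → V) : Continuous (rot g) := by
  unfold rot dot
  fun_prop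

theorem lm_rot {g : Fin 3 → V} (hg : Orth g) (H : Lm m u F μ) :
    Lm m (fun N i => rot g (u N i)) F (μ.map (rot g)) := by
  classical
  have := H.prob
  have hc := lbs_rot_cont g
  have hm := hc.measurable
  refine ⟨H.ne, ?_, Measure.isProbabilityMeasure_map hm.aemeasurable, ?_, ?_, ?_⟩
  · intro ε hε
    filter_upwards [H.good ε hε] with N hN
    exact good_rot hg hN
  · rw [Measure.map_apply hm (isOpen_ne_fun lbs_dot_cont' continuous_const).measurableSet]
    have h1 : rot g ⁻¹' {x | dot x x ≠ 1} = {x | dot x x ≠ 1} := by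
      ext x
      simp only [Set.mem_preimage, Set.mem_ofPred_eq, dot_rot hg]
    rw [h1, H.sph]
  · intro K hK δ hδ
    filter_upwards [H.clo _ (hK.preimage hc) δ hδ] with N hN
    rw [map_measureReal_apply hm hK.measurableSet]
    exact hN
  · intro y hy
    obtain ⟨y', rfl⟩ := rot_surj hg y
    rw [dot_rot hg] at hy
    have hcy : Continuous fun x : V => dot x (rot g y') ^ 2 := (lbs_dot_cont _).pow 2
    rw [integral_map hm.aemeasurable hcy.aestronglyMeasurable]
    simp only [dot_rot hg]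
    exact H.iso y' hy

theorem supp_sph (H : Lm m u F μ) {x : V} (hx : x ∈ μ.support) : dot x x = 1 := by
  by_contra hne
  have h1 : {x : V | dot x x ≠ 1} ∈ nhds x :=
    (isOpen_ne_fun lbs_dot_cont' continuous_const).mem_nhds hne
  have h2 := (Measure.mem_support_iff_forall x).1 hx _ h1
  rw [H.sph] at h2
  exact lt_irrefl _ h2

end H52.Dir
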