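import Pool.Agent.H52.Dir.Bas

/-!
# Limit measures: definitions

`Lm m u F μ`: along the filter `F` the configurations `u N` (with `m N` points) are `Good` for every
`ε`, and the probability measure `μ` (supported on the unit sphere) is the limit of the empirical
measures of the `u N`.
-/

set_option autoImplicit false

namespace H52.Dir

open Finset MeasureTheory

open Classical in
/-- number of points in a set -/
noncomputable def cnt {n : ℕ} (u : Fin n → V) (K : Set V) : ℕ :=
  ((univ : Finset (Fin n)).filter (fun i => u i ∈ K)).card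

structure Lm (m : ℕ → ℕ) (u : ∀ N, Fin (m N) → V) (F : Filter ℕ) (μ : Measure V) : Prop where
  ne : F.NeBot
  good : ∀ ε : ℝ, 0 < ε → ∀ᶠ N in F, Good (u N) ε
  prob : IsProbabilityMeasure μ
  sph : μ {x | dot x x ≠ 1} = 0
  clo : ∀ K : Set V, IsClosed K → ∀ δ : ℝ, 0 < δ → ∀ᶠ N in F,
    (cnt (u N) K : ℝ) ≤ (μ.real K + δ) * m N
  iso : ∀ y : V, dot y y = 1 → ∫ x, (dot x y) ^ 2 ∂μ = 1 / 3

end H52.Dir
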