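import Pool.Agent.H52.Dir.G6
import Pool.Agent.H52.Dir.L7

/-!
# Module Main: no good configurations
-/

set_option autoImplicit false

namespace H52.Dir

open Finset

theorem main : ∃ ε : ℝ, 0 < ε ∧ ∀ (n : ℕ) (u : Fin n → V), ¬ Good u ε := by
  classical
  obtain ⟨ω, ε₁, hω, h₁, hno⟩ := noframe
  obtain ⟨ε₂, h₂, hex⟩ := frame_ex ω hω
  refine ⟨min ε₁ ε₂, lt_min h₁ h₂, fun n u h => ?_⟩
  obtain ⟨g, hg, hj⟩ := hex n u (h.mono (min_le_right _ _))
  exact hno n (fun i => rot g (u i)) (good_rot hg (h.mono (min_le_left _ _))) hj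

end H52.Dir
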