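import Pool.Agent.H52.Dir.Pl0

/-!
# Module O1a (130 lines): the signed sum over the lines through a point of class 1

`A p = Σ_{l, l' ∈ D, p ∈ l, p ∈ l'} k f₂ l * k f₃ l' * sign (a l' - a l)`.

PROOF. Put `ρ = F₃ / F₂`, `e l = k f₃ l - ρ * k f₂ l`. The sum with `k f₃ l'` replaced by `ρ * k f₂ l'`
vanishes (antisymmetry, `Real.sign (-x) = - Real.sign x`, `Finset.sum_comm`), so
`|A p| ≤ Σ_{l ∋ p} k f₂ l * Σ_{l' ∋ p} |e l'| ≤ F₂ * Σ_{l' ∋ p} |e l'|`; the last step: the lines of `D`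
through `p` are disjoint outside of `p` (`uniq`) and `f₂ p = 0` (hypothesis; if `f₁ p ≠ 0` and `f₂ p ≠ 0`
then `X p < X p`). Sum over `p` with the weight `f₁ p` and exchange the sums:
`Σ_p f₁ p * Σ_{l ∈ D, p ∈ l} |e l| = Σ_{l ∈ D} k f₁ l * |e l|`.
-/

set_option autoImplicit false

namespace H52.Dir

open Finset

namespace Pl

variable {n : ℕ} (P : Pl n)

/-- the signed sum over pairs of lines of `D` through `p` -/
noncomputable def AA (f g : Fin n → ℝ) (p : Fin n) : ℝ :=
  ∑ l ∈ P.D.filter (fun l => p ∈ l), ∑ l' ∈ P.D.filter (fun l => p ∈ l),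
    k f l * k g l' * Real.sign (P.a l' - P.a l)

private theorem o1a_sign (x : ℝ) : |Real.sign x| ≤ 1 := by
  rcases Real.sign_apply_eq x with h | h | h <;> rw [h] <;> simp

private theorem o1a_through (f : Fin n → ℝ) (hf : ∀ i, 0 ≤ f i) (p : Fin n) (hp : f p = 0) :
    ∑ l ∈ P.D.filter (fun l => p ∈ l), k f l ≤ ms f := by
  classical
  have h1 : ∀ l : Finset (Fin n), k f l = ∑ i, if i ∈ l then f i else 0 := by
    intro l
    rw [k, ← Finset.sum_filter]
    congr 1
    ext i
    simp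
  simp_rw [h1]
  rw [Finset.sum_comm, ms]
  apply Finset.sum_le_sum
  intro i _
  rw [← Finset.sum_filter, Finset.sum_const, nsmul_eq_mul]
  by_cases hi : i = p
  · rw [hi, hp, mul_zero]
  · have hc : ((P.D.filter (fun l => p ∈ l)).filter (fun l => i ∈ l)).card ≤ 1 := by
      rw [Finset.card_le_one]
      intro l hl l' hl'
      rw [Finset.mem_filter, Finset.mem_filter] at hl hl'
      exact P.uniq l hl.1.1 l' hl'.1.1 i p hi hl.2 hl.1.2 hl'.2 hl'.1.2
    have hc' : (((P.D.filter (fun l => p ∈ l)).filter (fun l => i ∈ l)).card : ℝ) ≤ 1 := by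
      exact_mod_cast hc
    calc _ ≤ 1 * f i := mul_le_mul_of_nonneg_right hc' (hf i)
      _ = f i := one_mul _

private theorem o1a_point (f g : Fin n → ℝ) (hf : ∀ i, 0 ≤ f i) (ρ : ℝ) (p : Fin n)
    (hp : f p = 0) :
    |P.AA f g p| ≤ ms f * ∑ l ∈ P.D.filter (fun l => p ∈ l), |k g l - ρ * k f l| := by
  classical
  have hanti : ∑ l ∈ P.D.filter (fun l => p ∈ l), ∑ l' ∈ P.D.filter (fun l => p ∈ l),
      k f l * (ρ * k f l') * Real.sign (P.a l' - P.a l) = 0 := by
    have h1 : ∑ l ∈ P.D.filter (fun l => p ∈ l), ∑ l' ∈ P.D.filter (fun l => p ∈ l),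
        k f l * (ρ * k f l') * Real.sign (P.a l' - P.a l) =
        - ∑ l ∈ P.D.filter (fun l => p ∈ l), ∑ l' ∈ P.D.filter (fun l => p ∈ l),
        k f l * (ρ * k f l') * Real.sign (P.a l' - P.a l) := by
      conv_lhs => rw [Finset.sum_comm]
      rw [← Finset.sum_neg_distrib]
      apply Finset.sum_congr rfl
      intro l _
      rw [← Finset.sum_neg_distrib]
      apply Finset.sum_congr rfl
      intro l' _
      have : P.a l - P.a l' = -(P.a l' - P.a l) := by ring
      rw [this, Real.sign_neg]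
      ring
    linarith
  have hA : P.AA f g p = ∑ l ∈ P.D.filter (fun l => p ∈ l), ∑ l' ∈ P.D.filter (fun l => p ∈ l),
      k f l * (k g l' - ρ * k f l') * Real.sign (P.a l' - P.a l) := by
    rw [AA, ← sub_zero (∑ l ∈ P.D.filter (fun l => p ∈ l), _), ← hanti,
      ← Finset.sum_sub_distrib]
    apply Finset.sum_congr rfl
    intro l _
    rw [← Finset.sum_sub_distrib]
    apply Finset.sum_congr rfl
    intro l' _
    ring
  have hk : ∀ l : Finset (Fin n), 0 ≤ k f l := fun l => Finset.sum_nonneg fun i _ => hf i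
  rw [hA]
  calc |∑ l ∈ P.D.filter (fun l => p ∈ l), ∑ l' ∈ P.D.filter (fun l => p ∈ l),
      k f l * (k g l' - ρ * k f l') * Real.sign (P.a l' - P.a l)|
      ≤ ∑ l ∈ P.D.filter (fun l => p ∈ l), ∑ l' ∈ P.D.filter (fun l => p ∈ l),
          k f l * |k g l' - ρ * k f l'| := by
        refine (Finset.abs_sum_le_sum_abs _ _).trans (Finset.sum_le_sum fun l _ => ?_)
        refine (Finset.abs_sum_le_sum_abs _ _).trans (Finset.sum_le_sum fun l' _ => ?_)
        rw [abs_mul, abs_mul, abs_of_nonneg (hk l)]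
        exact mul_le_of_le_one_right (mul_nonneg (hk l) (abs_nonneg _)) (o1a_sign _)
    _ = (∑ l ∈ P.D.filter (fun l => p ∈ l), k f l) *
          ∑ l ∈ P.D.filter (fun l => p ∈ l), |k g l - ρ * k f l| := by
        rw [Finset.sum_mul_sum]
    _ ≤ _ := mul_le_mul_of_nonneg_right (P.o1a_through f hf p hp)
        (Finset.sum_nonneg fun _ _ => abs_nonneg _)

theorem o1a {f₁ f₂ f₃ : Fin n → ℝ} (w₁ : P.Wt f₁) (w₂ : P.Wt f₂) (w₃ : P.Wt f₃)
    (h12 : ∀ i j, f₁ i ≠ 0 → f₂ j ≠ 0 → P.X i < P.X j) (hF : 0 < ms f₂) :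
    ∑ p, f₁ p * |P.AA f₂ f₃ p| ≤
      ms f₂ * ∑ l ∈ P.D, k f₁ l * |k f₃ l - ms f₃ / ms f₂ * k f₂ l| := by
  classical
  calc ∑ p, f₁ p * |P.AA f₂ f₃ p|
      ≤ ∑ p, f₁ p * (ms f₂ * ∑ l ∈ P.D.filter (fun l => p ∈ l),
          |k f₃ l - ms f₃ / ms f₂ * k f₂ l|) := by
        apply Finset.sum_le_sum
        intro p _
        by_cases hp : f₁ p = 0
        · rw [hp, zero_mul, zero_mul]
        · apply mul_le_mul_of_nonneg_left _ (w₁.nn p)
          apply P.o1a_point f₂ f₃ w₂.nn
          by_contra h2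
          exact lt_irrefl _ (h12 p p hp h2)
    _ = ms f₂ * ∑ p, ∑ l ∈ P.D, (if p ∈ l then
          f₁ p * |k f₃ l - ms f₃ / ms f₂ * k f₂ l| else 0) := by
        rw [Finset.mul_sum]
        apply Finset.sum_congr rfl
        intro p _
        rw [Finset.sum_filter, ← mul_assoc, mul_comm (f₁ p), mul_assoc, Finset.mul_sum]
        congr 1
        apply Finset.sum_congr rfl
        intro l _
        split_ifs <;> simp
    _ = _ := by
        rw [Finset.sum_comm]
        congr 1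
        apply Finset.sum_congr rfl
        intro l _
        rw [← Finset.sum_filter, ← Finset.sum_mul]
        congr 1
        rw [k]
        congr 1
        ext i
        simp

end Pl

end H52.Dir
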