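import Pool.Agent.H52.Dir.O1a

/-!
# Module O1b (170 lines): comparison of `Om` and `AA`

PROOF. Fix `p` with `f₁ p ≠ 0` (so `p ∈ S`). Below `q, r` run over points with `f₂ q ≠ 0`, `f₃ r ≠ 0`, so
`X p < X q < X r` and all are in `S`.
`Om f₂ f₃ p = Σ_{l ∈ D} Σ_{q ∈ l} Σ_{r ∈ l} f₂ q f₃ r sg p l = Σ_{(q, r) near} f₂ q f₃ r σ(p; q, r)` where
`σ(p; q, r) = sg p l` for the unique line `l ∈ D` with `q, r ∈ l` (`ex`, `uniq`, `nr_of_line`).
`AA f₂ f₃ p = Σ_{q near p, r near p} f₂ q f₃ r sign (a (line p r) - a (line p q))` in the same way.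
If `q` is near `p` and `(q, r)` is near then `r` is near `p` (`nr_tr`) and both summands agree
(`sg_slope`). So the difference `Om - AA` has only the pairs
(i) `(q, r)` near and `q` steep to `p`: absolute value `≤ St f₂ p * F₃`;
(ii) `q` near `p`, `r` near `p`, `(q, r)` steep: absolute value `≤ M f₂ f₃`.
(All signs are in `[-1, 1]`.) To organise this in Lean define
`W p q r = (if nr q r then sg p (line q r) else 0)` and
`W' p q r = (if nr p q ∧ nr p r then sign (a (line p r) - a (line p q)) else 0)` with a choice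
function `line` (`Classical.choose` of `ex`), prove `Om = Σ_{q,r} f₂ q f₃ r W p q r`,
`AA = Σ_{q,r} f₂ q f₃ r W' p q r` and
`|W - W'| ≤ [st p q] + [st q r]` for `q, r` in the supports. Finally sum over `p` with weight `f₁`:
`Σ_p f₁ p St f₂ p = M f₁ f₂` and `Σ_p f₁ p = F₁`.
-/

set_option autoImplicit false

namespace H52.Dir

open Finset

namespace Pl

variable {n : ℕ} (P : Pl n)

private theorem O1b_kk (f g : Fin n → ℝ) (l l' : Finset (Fin n)) (c : ℝ) :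
    k f l * k g l' * c = ∑ q, ∑ r, f q * g r * (if q ∈ l ∧ r ∈ l' then c else 0) := by
  unfold k
  have h1 : ∑ i ∈ l, f i = ∑ i, if i ∈ l then f i else 0 := by simp
  have h2 : ∑ i ∈ l', g i = ∑ i, if i ∈ l' then g i else 0 := by simp
  rw [h1, h2, Finset.sum_mul_sum, Finset.sum_mul]
  refine Finset.sum_congr rfl (fun q _ => ?_)
  rw [Finset.sum_mul]
  refine Finset.sum_congr rfl (fun r _ => ?_)
  by_cases hq : q ∈ l <;> by_cases hr : r ∈ l' <;> simp [hq, hr]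

/-- signed number of lines through `q` and `r` -/
private noncomputable def O1b_W (p q r : Fin n) : ℝ :=
  ∑ l ∈ P.D, if q ∈ l ∧ r ∈ l then P.sg p l else 0

private noncomputable def O1b_W' (p q r : Fin n) : ℝ :=
  ∑ l ∈ P.D.filter (fun l => p ∈ l), ∑ l' ∈ P.D.filter (fun l => p ∈ l),
    if q ∈ l ∧ r ∈ l' then Real.sign (P.a l' - P.a l) else 0

private theorem O1b_Om (f g : Fin n → ℝ) (p : Fin n) :
    P.Om f g p = ∑ q, ∑ r, f q * g r * O1b_W P p q r := by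
  unfold Om O1b_W
  calc ∑ l ∈ P.D, k f l * k g l * P.sg p l
      = ∑ l ∈ P.D, ∑ q, ∑ r, f q * g r * (if q ∈ l ∧ r ∈ l then P.sg p l else 0) :=
        Finset.sum_congr rfl (fun l _ => O1b_kk f g l l _)
    _ = ∑ q, ∑ l ∈ P.D, ∑ r, f q * g r * (if q ∈ l ∧ r ∈ l then P.sg p l else 0) :=
        Finset.sum_comm
    _ = ∑ q, ∑ r, ∑ l ∈ P.D, f q * g r * (if q ∈ l ∧ r ∈ l then P.sg p l else 0) :=
        Finset.sum_congr rfl (fun q _ => Finset.sum_comm)
    _ = _ := by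
        refine Finset.sum_congr rfl (fun q _ => Finset.sum_congr rfl (fun r _ => ?_))
        rw [Finset.mul_sum]

private theorem O1b_AA (f g : Fin n → ℝ) (p : Fin n) :
    P.AA f g p = ∑ q, ∑ r, f q * g r * O1b_W' P p q r := by
  unfold AA O1b_W'
  calc ∑ l ∈ P.D.filter (fun l => p ∈ l), ∑ l' ∈ P.D.filter (fun l => p ∈ l),
        k f l * k g l' * Real.sign (P.a l' - P.a l)
      = ∑ l ∈ P.D.filter (fun l => p ∈ l), ∑ l' ∈ P.D.filter (fun l => p ∈ l), ∑ q, ∑ r,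
          f q * g r * (if q ∈ l ∧ r ∈ l' then Real.sign (P.a l' - P.a l) else 0) :=
        Finset.sum_congr rfl (fun l _ => Finset.sum_congr rfl (fun l' _ => O1b_kk f g l l' _))
    _ = ∑ l ∈ P.D.filter (fun l => p ∈ l), ∑ q, ∑ l' ∈ P.D.filter (fun l => p ∈ l), ∑ r,
          f q * g r * (if q ∈ l ∧ r ∈ l' then Real.sign (P.a l' - P.a l) else 0) :=
        Finset.sum_congr rfl (fun l _ => Finset.sum_comm)
    _ = ∑ q, ∑ l ∈ P.D.filter (fun l => p ∈ l), ∑ l' ∈ P.D.filter (fun l => p ∈ l), ∑ r,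
          f q * g r * (if q ∈ l ∧ r ∈ l' then Real.sign (P.a l' - P.a l) else 0) :=
        Finset.sum_comm
    _ = ∑ q, ∑ l ∈ P.D.filter (fun l => p ∈ l), ∑ r, ∑ l' ∈ P.D.filter (fun l => p ∈ l),
          f q * g r * (if q ∈ l ∧ r ∈ l' then Real.sign (P.a l' - P.a l) else 0) :=
        Finset.sum_congr rfl (fun q _ => Finset.sum_congr rfl (fun l _ => Finset.sum_comm))
    _ = ∑ q, ∑ r, ∑ l ∈ P.D.filter (fun l => p ∈ l), ∑ l' ∈ P.D.filter (fun l => p ∈ l),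
          f q * g r * (if q ∈ l ∧ r ∈ l' then Real.sign (P.a l' - P.a l) else 0) :=
        Finset.sum_congr rfl (fun q _ => Finset.sum_comm)
    _ = _ := by
        refine Finset.sum_congr rfl (fun q _ => Finset.sum_congr rfl (fun r _ => ?_))
        rw [Finset.mul_sum]
        refine Finset.sum_congr rfl (fun l _ => ?_)
        rw [Finset.mul_sum]

private theorem O1b_sign_abs (x : ℝ) : |Real.sign x| ≤ 1 := by
  rcases Real.sign_apply_eq x with h | h | h <;> rw [h] <;> norm_num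

private theorem O1b_W_eq {q r : Fin n} (hqr : q ≠ r) {l : Finset (Fin n)} (hl : l ∈ P.D)
    (hq : q ∈ l) (hr : r ∈ l) (p : Fin n) : O1b_W P p q r = P.sg p l := by
  unfold O1b_W
  rw [Finset.sum_eq_single l]
  · rw [if_pos ⟨hq, hr⟩]
  · intro l' hl' hne
    rw [if_neg]
    rintro ⟨h1, h2⟩
    exact hne (P.uniq l' hl' l hl q r hqr h1 h2 hq hr)
  · intro h
    exact absurd hl h

private theorem O1b_W_zero {q r : Fin n} (h : ∀ l ∈ P.D, ¬ (q ∈ l ∧ r ∈ l)) (p : Fin n) :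
    O1b_W P p q r = 0 := by
  unfold O1b_W
  exact Finset.sum_eq_zero (fun l hl => if_neg (h l hl))

private theorem O1b_W'_zero1 {p q : Fin n} (h : ∀ l ∈ P.D, ¬ (p ∈ l ∧ q ∈ l)) (r : Fin n) :
    O1b_W' P p q r = 0 := by
  unfold O1b_W'
  refine Finset.sum_eq_zero (fun l hl => Finset.sum_eq_zero (fun l' _ => if_neg ?_))
  rintro ⟨h1, _⟩
  exact h l (Finset.mem_filter.mp hl).1 ⟨(Finset.mem_filter.mp hl).2, h1⟩

private theorem O1b_W'_zero2 {p r : Fin n} (h : ∀ l ∈ P.D, ¬ (p ∈ l ∧ r ∈ l)) (q : Fin n) :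
    O1b_W' P p q r = 0 := by
  unfold O1b_W'
  refine Finset.sum_eq_zero (fun l _ => Finset.sum_eq_zero (fun l' hl' => if_neg ?_))
  rintro ⟨_, h1⟩
  exact h l' (Finset.mem_filter.mp hl').1 ⟨(Finset.mem_filter.mp hl').2, h1⟩

private theorem O1b_W'_eq {p q r : Fin n} (hpq : p ≠ q) (hpr : p ≠ r) {l l' : Finset (Fin n)}
    (hl : l ∈ P.D) (hl' : l' ∈ P.D) (hp : p ∈ l) (hq : q ∈ l) (hp' : p ∈ l') (hr : r ∈ l') :
    O1b_W' P p q r = Real.sign (P.a l' - P.a l) := by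
  unfold O1b_W'
  rw [Finset.sum_eq_single l]
  · rw [Finset.sum_eq_single l']
    · rw [if_pos ⟨hq, hr⟩]
    · intro m hm hne
      rw [if_neg]
      rintro ⟨_, h2⟩
      exact hne (P.uniq m (Finset.mem_filter.mp hm).1 l' hl' p r hpr (Finset.mem_filter.mp hm).2
        h2 hp' hr)
    · intro h
      exact absurd (Finset.mem_filter.mpr ⟨hl', hp'⟩) h
  · intro m hm hne
    refine Finset.sum_eq_zero (fun m' _ => if_neg ?_)
    rintro ⟨h1, _⟩
    exact hne (P.uniq m (Finset.mem_filter.mp hm).1 l hl p q hpq (Finset.mem_filter.mp hm).2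
      h1 hp hq)
  · intro h
    exact absurd (Finset.mem_filter.mpr ⟨hl, hp⟩) h

private theorem O1b_W_le {q r : Fin n} (hqr : q ≠ r) (p : Fin n) : |O1b_W P p q r| ≤ 1 := by
  by_cases h : ∃ l ∈ P.D, q ∈ l ∧ r ∈ l
  · obtain ⟨l, hl, hq, hr⟩ := h
    rw [O1b_W_eq P hqr hl hq hr]
    exact O1b_sign_abs _
  · rw [O1b_W_zero P (fun l hl h' => h ⟨l, hl, h'⟩)]
    norm_num

private theorem O1b_W'_le {p q r : Fin n} (hpq : p ≠ q) (hpr : p ≠ r) :
    |O1b_W' P p q r| ≤ 1 := by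
  by_cases h : ∃ l ∈ P.D, p ∈ l ∧ q ∈ l
  · obtain ⟨l, hl, hp, hq⟩ := h
    by_cases h' : ∃ l ∈ P.D, p ∈ l ∧ r ∈ l
    · obtain ⟨l', hl', hp', hr⟩ := h'
      rw [O1b_W'_eq P hpq hpr hl hl' hp hq hp' hr]
      exact O1b_sign_abs _
    · rw [O1b_W'_zero2 P (fun l hl h'' => h' ⟨l, hl, h''⟩)]
      norm_num
  · rw [O1b_W'_zero1 P (fun l hl h'' => h ⟨l, hl, h''⟩)]
    norm_num

open Classical in
private theorem O1b_diff {p q r : Fin n} (hp : p ∈ P.S) (hq : q ∈ P.S) (hr : r ∈ P.S)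
    (h1 : P.X p < P.X q) (h2 : P.X q < P.X r) :
    |O1b_W P p q r - O1b_W' P p q r| ≤
      (if P.st p q then 1 else 0) + (if P.st q r then 1 else 0) := by
  have hpq : p ≠ q := fun h => by rw [h] at h1; exact lt_irrefl _ h1
  have hqr : q ≠ r := fun h => by rw [h] at h2; exact lt_irrefl _ h2
  have hpr : p ≠ r := fun h => by rw [h] at h1; exact lt_irrefl _ (h1.trans h2)
  have hW := O1b_W_le P hqr p
  have hW' := O1b_W'_le P hpq hpr
  by_cases nqr : P.nr q r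
  · by_cases npq : P.nr p q
    · have npr : P.nr p r := P.nr_tr h1 h2 npq nqr
      obtain ⟨l, hl, hql, hrl⟩ := P.ex q hq r hr nqr.1 nqr.2
      obtain ⟨l₁, hl₁, hp1, hq1⟩ := P.ex p hp q hq npq.1 npq.2
      obtain ⟨l₂, hl₂, hp2, hr2⟩ := P.ex p hp r hr npr.1 npr.2
      rw [O1b_W_eq P hqr hl hql hrl, O1b_W'_eq P hpq hpr hl₁ hl₂ hp1 hq1 hp2 hr2,
        P.sg_slope hp hq hr h1 h2 hl hl₁ hl₂ hql hrl hp1 hq1 hp2 hr2, sub_self, abs_zero]
      positivity
    · have hno : ∀ l ∈ P.D, ¬ (p ∈ l ∧ q ∈ l) := fun l hl h =>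
        npq (P.nr_of_line hl hp hq h.1 h.2 hpq)
      rw [O1b_W'_zero1 P hno, sub_zero, if_pos (show P.st p q from ⟨hpq, npq⟩)]
      have : (0 : ℝ) ≤ (if P.st q r then 1 else 0) := by positivity
      linarith
  · have hno : ∀ l ∈ P.D, ¬ (q ∈ l ∧ r ∈ l) := fun l hl h =>
      nqr (P.nr_of_line hl hq hr h.1 h.2 hqr)
    rw [O1b_W_zero P hno, zero_sub, abs_neg, if_pos (show P.st q r from ⟨hqr, nqr⟩)]
    have : (0 : ℝ) ≤ (if P.st p q then 1 else 0) := by positivity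
    linarith

theorem o1b {f₁ f₂ f₃ : Fin n → ℝ} (w₁ : P.Wt f₁) (w₂ : P.Wt f₂) (w₃ : P.Wt f₃)
    (h12 : ∀ i j, f₁ i ≠ 0 → f₂ j ≠ 0 → P.X i < P.X j)
    (h23 : ∀ i j, f₂ i ≠ 0 → f₃ j ≠ 0 → P.X i < P.X j) :
    ∑ p, f₁ p * |P.Om f₂ f₃ p - P.AA f₂ f₃ p| ≤
      ms f₃ * P.M f₁ f₂ + ms f₁ * P.M f₂ f₃ := by
  classical
  have key : ∀ p, f₁ p * |P.Om f₂ f₃ p - P.AA f₂ f₃ p| ≤
      ∑ q, ∑ r, f₁ p * (f₂ q * f₃ r *
        ((if P.st p q then 1 else 0) + (if P.st q r then 1 else 0))) := by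
    intro p
    by_cases hp : f₁ p = 0
    · rw [hp]; simp
    rw [O1b_Om, O1b_AA]
    have e : ∑ q, ∑ r, f₁ p * (f₂ q * f₃ r *
        ((if P.st p q then 1 else 0) + (if P.st q r then (1 : ℝ) else 0))) =
        f₁ p * ∑ q, ∑ r, f₂ q * f₃ r *
        ((if P.st p q then 1 else 0) + (if P.st q r then 1 else 0)) := by
      rw [Finset.mul_sum]
      refine Finset.sum_congr rfl (fun q _ => ?_)
      rw [Finset.mul_sum]
    rw [e]
    refine mul_le_mul_of_nonneg_left ?_ (w₁.nn p)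
    rw [← Finset.sum_sub_distrib]
    refine (Finset.abs_sum_le_sum_abs _ _).trans (Finset.sum_le_sum (fun q _ => ?_))
    rw [← Finset.sum_sub_distrib]
    refine (Finset.abs_sum_le_sum_abs _ _).trans (Finset.sum_le_sum (fun r _ => ?_))
    rw [← mul_sub, abs_mul, abs_of_nonneg (mul_nonneg (w₂.nn q) (w₃.nn r))]
    by_cases hq : f₂ q = 0
    · simp [hq]
    by_cases hr : f₃ r = 0
    · simp [hr]
    refine mul_le_mul_of_nonneg_left ?_ (mul_nonneg (w₂.nn q) (w₃.nn r))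
    exact O1b_diff P (w₁.sup p hp) (w₂.sup q hq) (w₃.sup r hr) (h12 p q hp hq) (h23 q r hq hr)
  refine (Finset.sum_le_sum (fun p _ => key p)).trans (le_of_eq ?_)
  unfold M ms
  have e1 : (∑ i, f₃ i) * ∑ i, ∑ j, (if P.st i j then f₁ i * f₂ j else 0) =
      ∑ p, ∑ q, ∑ r, f₁ p * (f₂ q * f₃ r * (if P.st p q then 1 else 0)) := by
    rw [Finset.mul_sum]
    refine Finset.sum_congr rfl (fun p _ => ?_)
    rw [Finset.mul_sum]
    refine Finset.sum_congr rfl (fun q _ => ?_)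
    rw [Finset.sum_mul]
    refine Finset.sum_congr rfl (fun r _ => ?_)
    split_ifs <;> ring
  have e2 : (∑ i, f₁ i) * ∑ i, ∑ j, (if P.st i j then f₂ i * f₃ j else 0) =
      ∑ p, ∑ q, ∑ r, f₁ p * (f₂ q * f₃ r * (if P.st q r then 1 else 0)) := by
    rw [Finset.sum_mul]
    refine Finset.sum_congr rfl (fun p _ => ?_)
    rw [Finset.mul_sum]
    refine Finset.sum_congr rfl (fun q _ => ?_)
    rw [Finset.mul_sum]
    refine Finset.sum_congr rfl (fun r _ => ?_)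
    split_ifs <;> ring
  rw [e1, e2, ← Finset.sum_add_distrib]
  refine Finset.sum_congr rfl (fun p _ => ?_)
  rw [← Finset.sum_add_distrib]
  refine Finset.sum_congr rfl (fun q _ => ?_)
  rw [← Finset.sum_add_distrib]
  refine Finset.sum_congr rfl (fun r _ => ?_)
  ring

end Pl

end H52.Dir
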