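import Pool.Agent.H52.Dir.ST

/-!
# Module PF (90 lines): pair form of Szemeredi-Trotter

PROOF. Let `N_j = #{l ∈ Ls u : j ≤ |l|} ≤ C (n² / j³ + n / j)` (`st`). For a line with
`K ≤ |l| ≤ M`: `|l|² = K² + Σ_{j = K+1}^{|l|} (2 j - 1) ≤ K² + Σ_{j = K+1}^{M} 2 j [j ≤ |l|]`. Sum over
the lines: `Σ |l|² ≤ K² N_K + Σ_{j = K+1}^{M} 2 j N_j ≤ C (n² / K + n K) +
Σ_{j = K+1}^{M} 2 C (n² / j² + n) ≤ C (n² / K + n K) + 2 C (n² / K + n M)` since
`Σ_{j = K+1}^{M} 1 / j² ≤ Σ (1/(j-1) - 1/j) ≤ 1 / K`. With `K ≤ M`: at most `3 C (n² / K + n M)`.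
-/

set_option autoImplicit false

namespace H52.Dir

open Finset

private theorem pf_aux (K M : ℕ) : ∀ m : ℕ, K ≤ m → m ≤ M →
    ((m : ℝ)) ^ 2 ≤ (K : ℝ) ^ 2 + ∑ j ∈ Ioc K M, (if j ≤ m then 2 * (j : ℝ) else 0) := by
  intro m hK
  induction m, hK using Nat.le_induction with
  | base =>
    intro _
    have : 0 ≤ ∑ j ∈ Ioc K M, (if j ≤ K then 2 * (j : ℝ) else 0) := by
      apply Finset.sum_nonneg
      intro j _
      split_ifs
      · positivity
      · exact le_rfl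
    linarith
  | succ m hm ih =>
    intro hM
    have h1 := ih (by omega)
    have h2 : ∑ j ∈ Ioc K M, (if j ≤ m + 1 then 2 * (j : ℝ) else 0) =
        ∑ j ∈ Ioc K M, (if j ≤ m then 2 * (j : ℝ) else 0) +
          ∑ j ∈ Ioc K M, (if j = m + 1 then 2 * (j : ℝ) else 0) := by
      rw [← Finset.sum_add_distrib]
      apply Finset.sum_congr rfl
      intro j _
      by_cases ha : j ≤ m
      · rw [if_pos (by omega), if_pos ha, if_neg (by omega), add_zero]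
      · by_cases hb : j = m + 1
        · rw [if_pos (by omega), if_neg ha, if_pos hb, zero_add]
        · rw [if_neg (by omega), if_neg ha, if_neg hb, add_zero]
    have h3 : ∑ j ∈ Ioc K M, (if j = m + 1 then 2 * (j : ℝ) else 0) = 2 * ((m + 1 : ℕ) : ℝ) := by
      rw [Finset.sum_ite_eq' (Ioc K M) (m + 1) (fun j => 2 * (j : ℝ)), if_pos]
      rw [Finset.mem_Ioc]
      omega
    rw [h2, h3]
    push_cast
    have hm0 : (0 : ℝ) ≤ m := Nat.cast_nonneg m
    nlinarith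

theorem pf : ∃ C : ℝ, 0 < C ∧ ∀ (n : ℕ) (u : Fin n → V), Cf u → ∀ K M : ℕ, 2 ≤ K → K ≤ M →
    ∑ l ∈ (Ls u).filter (fun l => K ≤ l.card ∧ l.card ≤ M), ((l.card : ℝ)) ^ 2 ≤
      C * ((n : ℝ) ^ 2 / K + (n : ℝ) * M) := by
  obtain ⟨C, hC, hst⟩ := st
  refine ⟨3 * C, by positivity, fun n u hu K M hK hKM => ?_⟩
  have hK0 : (0 : ℝ) < K := by
    have : 0 < K := by omega
    exact_mod_cast this
  have hn0 : (0 : ℝ) ≤ n := Nat.cast_nonneg n
  have hKM' : (K : ℝ) ≤ M := by exact_mod_cast hKM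
  have hsub : ∀ j : ℕ, K ≤ j →
      (((Ls u).filter (fun l => K ≤ l.card ∧ l.card ≤ M)).filter (fun l => j ≤ l.card)).card ≤
        ((Ls u).filter (fun l => j ≤ l.card)).card := by
    intro j _
    apply Finset.card_le_card
    intro l hl
    rw [Finset.mem_filter, Finset.mem_filter] at hl
    rw [Finset.mem_filter]
    exact ⟨hl.1.1, hl.2⟩
  -- the number of lines of size at least `K`
  have hNK : (((Ls u).filter (fun l => K ≤ l.card ∧ l.card ≤ M)).card : ℝ) ≤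
      C * ((n : ℝ) ^ 2 / (K : ℝ) ^ 3 + (n : ℝ) / K) := by
    refine le_trans ?_ (hst n u hu K hK)
    have : ((Ls u).filter (fun l => K ≤ l.card ∧ l.card ≤ M)).card ≤
        ((Ls u).filter (fun l => K ≤ l.card)).card := by
      apply Finset.card_le_card
      intro l hl
      rw [Finset.mem_filter] at hl ⊢
      exact ⟨hl.1, hl.2.1⟩
    exact_mod_cast this
  have hNj : ∀ j ∈ Ioc K M,
      (∑ l ∈ (Ls u).filter (fun l => K ≤ l.card ∧ l.card ≤ M),
        (if j ≤ l.card then 2 * (j : ℝ) else 0)) ≤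
        2 * C * ((n : ℝ) ^ 2 * ((j : ℝ) ^ 2)⁻¹ + n) := by
    intro j hj
    rw [Finset.mem_Ioc] at hj
    have hj0 : (0 : ℝ) < j := by
      have : 0 < j := by omega
      exact_mod_cast this
    rw [← Finset.sum_filter, Finset.sum_const, nsmul_eq_mul]
    have h1 : ((((Ls u).filter (fun l => K ≤ l.card ∧ l.card ≤ M)).filter
        (fun l => j ≤ l.card)).card : ℝ) ≤ C * ((n : ℝ) ^ 2 / (j : ℝ) ^ 3 + (n : ℝ) / j) := by
      refine le_trans ?_ (hst n u hu j (by omega))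
      exact_mod_cast hsub j (by omega)
    calc _ ≤ C * ((n : ℝ) ^ 2 / (j : ℝ) ^ 3 + (n : ℝ) / j) * (2 * (j : ℝ)) :=
          mul_le_mul_of_nonneg_right h1 (by positivity)
      _ = _ := by
          field_simp
  have hsq : ∑ j ∈ Ioc K M, ((j : ℝ) ^ 2)⁻¹ ≤ (K : ℝ)⁻¹ := by
    have h1 := sum_Ioc_inv_sq_le_sub (α := ℝ) (k := K) (n := M) (by omega) hKM
    have h2 : (0 : ℝ) ≤ (M : ℝ)⁻¹ := by positivity
    linarith
  calc ∑ l ∈ (Ls u).filter (fun l => K ≤ l.card ∧ l.card ≤ M), ((l.card : ℝ)) ^ 2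
      ≤ ∑ l ∈ (Ls u).filter (fun l => K ≤ l.card ∧ l.card ≤ M),
          ((K : ℝ) ^ 2 + ∑ j ∈ Ioc K M, (if j ≤ l.card then 2 * (j : ℝ) else 0)) := by
        apply Finset.sum_le_sum
        intro l hl
        rw [Finset.mem_filter] at hl
        exact pf_aux K M l.card hl.2.1 hl.2.2
    _ = (((Ls u).filter (fun l => K ≤ l.card ∧ l.card ≤ M)).card : ℝ) * (K : ℝ) ^ 2 +
          ∑ j ∈ Ioc K M, ∑ l ∈ (Ls u).filter (fun l => K ≤ l.card ∧ l.card ≤ M),
            (if j ≤ l.card then 2 * (j : ℝ) else 0) := by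
        rw [Finset.sum_add_distrib, Finset.sum_const, nsmul_eq_mul, Finset.sum_comm]
    _ ≤ C * ((n : ℝ) ^ 2 / (K : ℝ) ^ 3 + (n : ℝ) / K) * (K : ℝ) ^ 2 +
          ∑ j ∈ Ioc K M, 2 * C * ((n : ℝ) ^ 2 * ((j : ℝ) ^ 2)⁻¹ + n) :=
        add_le_add (mul_le_mul_of_nonneg_right hNK (by positivity)) (Finset.sum_le_sum hNj)
    _ = C * ((n : ℝ) ^ 2 / K + n * K) +
          2 * C * ((n : ℝ) ^ 2 * (∑ j ∈ Ioc K M, ((j : ℝ) ^ 2)⁻¹) + ((M - K : ℕ) : ℝ) * n) := by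
        rw [← Finset.mul_sum, Finset.sum_add_distrib, ← Finset.mul_sum, Finset.sum_const,
          nsmul_eq_mul, Nat.card_Ioc]
        congr 1
        field_simp
    _ ≤ C * ((n : ℝ) ^ 2 / K + n * M) + 2 * C * ((n : ℝ) ^ 2 * (K : ℝ)⁻¹ + (M : ℝ) * n) := by
        have h1 : ((M - K : ℕ) : ℝ) ≤ (M : ℝ) := by
          have : M - K ≤ M := Nat.sub_le _ _
          exact_mod_cast this
        have h2 : (n : ℝ) * K ≤ n * M := mul_le_mul_of_nonneg_left hKM' hn0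
        have h3 : (n : ℝ) ^ 2 * (∑ j ∈ Ioc K M, ((j : ℝ) ^ 2)⁻¹) ≤ (n : ℝ) ^ 2 * (K : ℝ)⁻¹ :=
          mul_le_mul_of_nonneg_left hsq (by positivity)
        have h4 : ((M - K : ℕ) : ℝ) * n ≤ (M : ℝ) * n := mul_le_mul_of_nonneg_right h1 hn0
        apply add_le_add
        · apply mul_le_mul_of_nonneg_left _ hC.le
          linarith
        · apply mul_le_mul_of_nonneg_left _ (by positivity)
          linarith
    _ = 3 * C * ((n : ℝ) ^ 2 / K + (n : ℝ) * M) := by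
        rw [div_eq_mul_inv]
        ring

end H52.Dir
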