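import Mathlib

/-!
# Planar systems (definitions) for the order argument

`Pl n`: `n` points, `S` = the points which are in the chart, with coordinates `X, Y`; `D` = a set of
lines of slope at most `η` in absolute value (line `l` is `y = a l * x + b l`); two different points
of `S` whose connecting segment has slope at most `η` are on exactly one line of `D`.
`P.nr i j`: near (flat) pair; `P.st i j`: steep pair.
`P.k f l = Σ_{i ∈ l} f i`, `P.M f g` = steep mass between `f` and `g`, `P.St g i` = mass of `g` steep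
to `i`, `P.T i` = number of lines of `D` through `i`, `P.sg i l` = sign of the height of `i` above
`l`, `P.Om` = signed mass of the lines below / above `i`, `P.Sep f l` = mass of the steep pairs of
`f` separated by `l`, `P.Up f i` = mass of `f` steep above `i`.
-/

set_option autoImplicit false

namespace H52.Dir

open Finset

structure Pl (n : ℕ) where
  S : Finset (Fin n)
  X : Fin n → ℝ
  Y : Fin n → ℝ
  η : ℝ
  D : Finset (Finset (Fin n))
  a : Finset (Fin n) → ℝ
  b : Finset (Fin n) → ℝ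
  hη : 0 < η
  sl : ∀ l ∈ D, |a l| ≤ η
  mem : ∀ l ∈ D, ∀ i ∈ S, (i ∈ l ↔ Y i = a l * X i + b l)
  inj : ∀ i ∈ S, ∀ j ∈ S, X i = X j → Y i = Y j → i = j
  ex : ∀ i ∈ S, ∀ j ∈ S, X i ≠ X j → |Y i - Y j| ≤ η * |X i - X j| → ∃ l ∈ D, i ∈ l ∧ j ∈ l
  two : ∀ l ∈ D, 2 ≤ l.card
  uniq : ∀ l ∈ D, ∀ l' ∈ D, ∀ i j, i ≠ j → i ∈ l → j ∈ l → i ∈ l' → j ∈ l' → l = l'

namespace Pl

variable {n : ℕ} (P : Pl n)

/-- near (flat) pair -/
def nr (i j : Fin n) : Prop := P.X i ≠ P.X j ∧ |P.Y i - P.Y j| ≤ P.η * |P.X i - P.X j|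

/-- steep pair -/
def st (i j : Fin n) : Prop := i ≠ j ∧ ¬ P.nr i j

/-- a weight: values in `[0, 1]`, supported in `S` -/
structure Wt (f : Fin n → ℝ) : Prop where
  nn : ∀ i, 0 ≤ f i
  le : ∀ i, f i ≤ 1
  sup : ∀ i, f i ≠ 0 → i ∈ P.S

/-- mass of a weight -/
def ms (f : Fin n → ℝ) : ℝ := ∑ i, f i

def k (f : Fin n → ℝ) (l : Finset (Fin n)) : ℝ := ∑ i ∈ l, f i

open Classical in
/-- steep mass between `f` and `g` -/
noncomputable def M (f g : Fin n → ℝ) : ℝ := ∑ i, ∑ j, if P.st i j then f i * g j else 0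

open Classical in
/-- mass of `g` steep to `i` -/
noncomputable def St (g : Fin n → ℝ) (i : Fin n) : ℝ := ∑ j, if P.st i j then g j else 0

/-- number of lines of `D` through `i` -/
noncomputable def T (i : Fin n) : ℝ := ((P.D.filter (fun l => i ∈ l)).card : ℝ)

/-- height of `i` above `l` -/
def hgt (i : Fin n) (l : Finset (Fin n)) : ℝ := P.Y i - (P.a l * P.X i + P.b l)

noncomputable def sg (i : Fin n) (l : Finset (Fin n)) : ℝ := Real.sign (P.hgt i l)

noncomputable def Om (f g : Fin n → ℝ) (i : Fin n) : ℝ :=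
  ∑ l ∈ P.D, k f l * k g l * P.sg i l

open Classical in
/-- mass of the steep pairs of `f` (upper, lower) separated by `l` -/
noncomputable def Sep (f : Fin n → ℝ) (l : Finset (Fin n)) : ℝ :=
  ∑ i, ∑ j, if P.st i j ∧ P.Y j < P.Y i ∧ P.sg j l < P.sg i l then f i * f j else 0

open Classical in
/-- mass of `f` steep above `i` -/
noncomputable def Up (f : Fin n → ℝ) (i : Fin n) : ℝ :=
  ∑ j, if P.st i j ∧ P.Y i < P.Y j then f j else 0

end Pl

end H52.Dir
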