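import Pool.Agent.H52.Dir.Pl

/-!
# Module Pl0 (130 lines): elementary facts about planar systems

PROOFS. `nr_of_line`: both points satisfy `Y = a X + b`, so `Y i - Y j = a (X i - X j)`, `|a| ≤ η`;
`X i = X j` would give `Y i = Y j` and `i = j` (`inj`).
`T_le`: the sets `l.erase i` (`l ∈ D`, `i ∈ l`) are nonempty (`two`) and disjoint (`uniq`) subsets of
`univ.erase i`.
`k_sq`: `Σ_l (k f l)² = Σ_l Σ_{i ∈ l} (f i)² + Σ_l Σ_{i ≠ j ∈ l} f i f j ≤ Σ_i T i + n (n - 1)` (every ordered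
pair `i ≠ j` is on at most one line, `f ≤ 1`), and `T i ≤ n`.
`hgt_lt`: `¬ nr i j`, `Y j < Y i`: if `X i = X j` clear; otherwise `|Y i - Y j| > η |X i - X j|`, so
`Y i - Y j > η |X i - X j| ≥ a (X i - X j)`.
`st_ne`: `Y i = Y j` and `X i ≠ X j` would be a near pair (`0 ≤ η |..|`); `X i = X j` and `Y i = Y j`
would give `i = j`.
`nr_tr`: add the two inequalities.
`sg_slope`: put `d₁ = X q - X p > 0`, `d₂ = X r - X p > d₁`. `hgt p l = (m - a₁) d₁` where `m = a l` and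
`a₁ = a l₁` (`l₁ ∋ p, q`), and `m (d₂ - d₁) = a₂ d₂ - a₁ d₁` (`a₂ = a l₂`, `l₂ ∋ p, r`), so
`(m - a₁) (d₂ - d₁) = (a₂ - a₁) d₂`: same signs. (`Real.sign` of a product with a positive number.)
`ab`: `q` to the right of `i` and `j` (all in `S`), `l ∋ i, q`, `l' ∋ j, q`. `hgt j l = (a l' - a l) (X j - X q)`,
`hgt i l' = (a l - a l') (X i - X q)`: one of them is `≥ 0`.
-/

set_option autoImplicit false

namespace H52.Dir

open Finset

namespace Pl

variable {n : ℕ} (P : Pl n)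

theorem nr_of_line {l : Finset (Fin n)} (hl : l ∈ P.D) {i j : Fin n} (hi : i ∈ P.S) (hj : j ∈ P.S)
    (hil : i ∈ l) (hjl : j ∈ l) (hij : i ≠ j) : P.nr i j := by
  have hi' := (P.mem l hl i hi).1 hil
  have hj' := (P.mem l hl j hj).1 hjl
  refine ⟨fun hX => hij (P.inj i hi j hj hX (by rw [hi', hj', hX])), ?_⟩
  have e : P.Y i - P.Y j = P.a l * (P.X i - P.X j) := by rw [hi', hj']; ring
  rw [e, abs_mul]
  exact mul_le_mul_of_nonneg_right (P.sl l hl) (abs_nonneg _)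

theorem nr_symm {i j : Fin n} (h : P.nr i j) : P.nr j i := by
  refine ⟨h.1.symm, ?_⟩
  rw [abs_sub_comm, abs_sub_comm (P.X j)]
  exact h.2

theorem st_symm {i j : Fin n} (h : P.st i j) : P.st j i :=
  ⟨h.1.symm, fun h' => h.2 (P.nr_symm h')⟩

theorem T_le (i : Fin n) : P.T i ≤ n := by
  classical
  have h1 : ∀ l ∈ P.D.filter (fun l => i ∈ l), ∃ j ∈ l, j ≠ i := by
    intro l hl
    have h2 := P.two l (Finset.mem_filter.1 hl).1
    obtain ⟨j, hj, hji⟩ := Finset.exists_mem_ne (by omega : 1 < l.card) i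
    exact ⟨j, hj, hji⟩
  haveI : Nonempty (Fin n) := ⟨i⟩
  choose! φ hφ hφi using h1
  have h2 : (P.D.filter (fun l => i ∈ l)).card ≤ (univ : Finset (Fin n)).card := by
    refine Finset.card_le_card_of_injOn φ (fun l _ => Finset.mem_univ _) ?_
    intro l hl l' hl' he
    have hl1 := Finset.mem_filter.1 hl
    have hl1' := Finset.mem_filter.1 hl'
    refine P.uniq l hl1.1 l' hl1'.1 (φ l) i (hφi l hl) (hφ l hl) hl1.2 ?_ hl1'.2
    have := hφ l' hl'
    rw [← he] at this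
    exact this
  rw [Finset.card_univ, Fintype.card_fin] at h2
  unfold T
  exact_mod_cast h2

theorem k_sq (f : Fin n → ℝ) (hf : P.Wt f) : ∑ l ∈ P.D, (k f l) ^ 2 ≤ 2 * (n : ℝ) ^ 2 := by
  classical
  have h1 : ∀ l : Finset (Fin n), (k f l) ^ 2 =
      ∑ i, ∑ j, if i ∈ l ∧ j ∈ l then f i * f j else 0 := by
    intro l
    have e : k f l = ∑ i, if i ∈ l then f i else 0 := by
      rw [Finset.sum_ite_mem, Finset.univ_inter]
      rfl
    rw [e, sq, Finset.sum_mul_sum]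
    refine Finset.sum_congr rfl fun i _ => Finset.sum_congr rfl fun j _ => ?_
    by_cases hi : i ∈ l <;> by_cases hj : j ∈ l <;> simp [hi, hj]
  have h2 : ∑ l ∈ P.D, (k f l) ^ 2 =
      ∑ i, ∑ j, ((P.D.filter (fun l => i ∈ l ∧ j ∈ l)).card : ℝ) * (f i * f j) := by
    rw [Finset.sum_congr rfl (fun l _ => h1 l), Finset.sum_comm]
    refine Finset.sum_congr rfl fun i _ => ?_
    rw [Finset.sum_comm]
    refine Finset.sum_congr rfl fun j _ => ?_
    rw [← Finset.sum_filter, Finset.sum_const, nsmul_eq_mul]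
  have h3 : ∀ i j : Fin n, ((P.D.filter (fun l => i ∈ l ∧ j ∈ l)).card : ℝ) ≤
      1 + if i = j then (n : ℝ) else 0 := by
    intro i j
    by_cases hij : i = j
    · subst hij
      have := P.T_le i
      unfold T at this
      simp only [and_self, if_true]
      linarith
    · rw [if_neg hij, add_zero]
      have : (P.D.filter (fun l => i ∈ l ∧ j ∈ l)).card ≤ 1 := by
        rw [Finset.card_le_one]
        intro l hl l' hl'
        have a1 := Finset.mem_filter.1 hl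
        have a2 := Finset.mem_filter.1 hl'
        exact P.uniq l a1.1 l' a2.1 i j hij a1.2.1 a1.2.2 a2.2.1 a2.2.2
      exact_mod_cast this
  rw [h2]
  have h4 : ∀ i j : Fin n, ((P.D.filter (fun l => i ∈ l ∧ j ∈ l)).card : ℝ) * (f i * f j) ≤
      1 + if i = j then (n : ℝ) else 0 := by
    intro i j
    have a1 : f i * f j ≤ 1 := by
      have := mul_le_mul (hf.le i) (hf.le j) (hf.nn j) zero_le_one
      linarith
    have a2 : (0 : ℝ) ≤ ((P.D.filter (fun l => i ∈ l ∧ j ∈ l)).card : ℝ) := Nat.cast_nonneg _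
    calc ((P.D.filter (fun l => i ∈ l ∧ j ∈ l)).card : ℝ) * (f i * f j)
        ≤ ((P.D.filter (fun l => i ∈ l ∧ j ∈ l)).card : ℝ) * 1 :=
          mul_le_mul_of_nonneg_left a1 a2
      _ = ((P.D.filter (fun l => i ∈ l ∧ j ∈ l)).card : ℝ) := mul_one _
      _ ≤ _ := h3 i j
  refine (Finset.sum_le_sum fun i _ => Finset.sum_le_sum fun j _ => h4 i j).trans ?_
  have h5 : ∀ i : Fin n, ∑ j, ((1 : ℝ) + if i = j then (n : ℝ) else 0) = 2 * n := by
    intro i
    rw [Finset.sum_add_distrib, Finset.sum_const, Finset.sum_ite_eq]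
    simp
    ring
  rw [Finset.sum_congr rfl (fun i _ => h5 i), Finset.sum_const]
  simp
  nlinarith

theorem hgt_lt {l : Finset (Fin n)} (hl : l ∈ P.D) {i j : Fin n} (h : P.st i j)
    (hY : P.Y j < P.Y i) : P.hgt j l < P.hgt i l := by
  have key : P.a l * (P.X i - P.X j) < P.Y i - P.Y j := by
    by_cases hX : P.X i = P.X j
    · rw [hX, sub_self, mul_zero]
      linarith
    · have h2 : ¬ (|P.Y i - P.Y j| ≤ P.η * |P.X i - P.X j|) := fun h' => h.2 ⟨hX, h'⟩
      rw [abs_of_pos (by linarith : 0 < P.Y i - P.Y j)] at h2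
      have h3 : P.a l * (P.X i - P.X j) ≤ |P.a l| * |P.X i - P.X j| := by
        rw [← abs_mul]
        exact le_abs_self _
      have h4 : |P.a l| * |P.X i - P.X j| ≤ P.η * |P.X i - P.X j| :=
        mul_le_mul_of_nonneg_right (P.sl l hl) (abs_nonneg _)
      linarith [not_le.1 h2]
  unfold hgt
  linarith

theorem st_ne {i j : Fin n} (hi : i ∈ P.S) (hj : j ∈ P.S) (h : P.st i j) : P.Y i ≠ P.Y j := by
  intro hY
  by_cases hX : P.X i = P.X j
  · exact h.1 (P.inj i hi j hj hX hY)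
  · refine h.2 ⟨hX, ?_⟩
    rw [hY, sub_self, abs_zero]
    exact mul_nonneg P.hη.le (abs_nonneg _)

theorem nr_tr {p q r : Fin n} (h1 : P.X p < P.X q) (h2 : P.X q < P.X r) (h : P.nr p q)
    (h' : P.nr q r) : P.nr p r := by
  refine ⟨(h1.trans h2).ne, ?_⟩
  have e1 := h.2
  have e2 := h'.2
  rw [abs_of_neg (by linarith : P.X p - P.X q < 0)] at e1
  rw [abs_of_neg (by linarith : P.X q - P.X r < 0)] at e2
  rw [abs_of_neg (by linarith : P.X p - P.X r < 0)]
  have e3 := abs_add_le (P.Y p - P.Y q) (P.Y q - P.Y r)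
  rw [sub_add_sub_cancel] at e3
  nlinarith

theorem hgt_mem {l : Finset (Fin n)} (hl : l ∈ P.D) {i : Fin n} (hi : i ∈ P.S) :
    i ∈ l ↔ P.hgt i l = 0 := by
  rw [P.mem l hl i hi]
  unfold hgt
  exact sub_eq_zero.symm

private theorem Pl0_sign (x c : ℝ) (hc : 0 < c) : Real.sign (x * c) = Real.sign x := by
  rcases lt_trichotomy x 0 with h | h | h
  · rw [Real.sign_of_neg h, Real.sign_of_neg (mul_neg_of_neg_of_pos h hc)]
  · rw [h, zero_mul]
  · rw [Real.sign_of_pos h, Real.sign_of_pos (mul_pos h hc)]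

theorem sg_slope {p q r : Fin n} (hp : p ∈ P.S) (hq : q ∈ P.S) (hr : r ∈ P.S)
    (h1 : P.X p < P.X q) (h2 : P.X q < P.X r) {l l₁ l₂ : Finset (Fin n)} (hl : l ∈ P.D)
    (hl₁ : l₁ ∈ P.D) (hl₂ : l₂ ∈ P.D) (hql : q ∈ l) (hrl : r ∈ l) (hp1 : p ∈ l₁) (hq1 : q ∈ l₁)
    (hp2 : p ∈ l₂) (hr2 : r ∈ l₂) : P.sg p l = Real.sign (P.a l₂ - P.a l₁) := by
  have e1 := (P.mem l hl q hq).1 hql
  have e2 := (P.mem l hl r hr).1 hrl
  have e3 := (P.mem l₁ hl₁ p hp).1 hp1
  have e4 := (P.mem l₁ hl₁ q hq).1 hq1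
  have e5 := (P.mem l₂ hl₂ p hp).1 hp2
  have e6 := (P.mem l₂ hl₂ r hr).1 hr2
  have hd : 0 < P.X r - P.X q := by linarith
  have hd1 : 0 < P.X q - P.X p := by linarith
  have hd2 : 0 < P.X r - P.X p := by linarith
  have hh : P.hgt p l = (P.a l - P.a l₁) * (P.X q - P.X p) := by
    unfold hgt
    have a1 : P.b l = P.Y q - P.a l * P.X q := by linarith
    have a2 : P.Y q - P.Y p = P.a l₁ * (P.X q - P.X p) := by rw [e3, e4]; ring
    rw [a1]
    have a3 : P.Y p = P.Y q - P.a l₁ * (P.X q - P.X p) := by linarith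
    rw [a3]
    ring
  have hs : (P.a l - P.a l₁) * (P.X r - P.X q) = (P.a l₂ - P.a l₁) * (P.X r - P.X p) := by
    have a1 : P.Y r - P.Y q = P.a l * (P.X r - P.X q) := by rw [e1, e2]; ring
    have a2 : P.Y q - P.Y p = P.a l₁ * (P.X q - P.X p) := by rw [e3, e4]; ring
    have a3 : P.Y r - P.Y p = P.a l₂ * (P.X r - P.X p) := by rw [e5, e6]; ring
    linear_combination -a1 - a2 + a3
  have hk : P.hgt p l = (P.a l₂ - P.a l₁) *
      ((P.X r - P.X p) / (P.X r - P.X q) * (P.X q - P.X p)) := by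
    have a1 : P.a l - P.a l₁ = (P.a l₂ - P.a l₁) * ((P.X r - P.X p) / (P.X r - P.X q)) := by
      rw [mul_div_assoc', eq_div_iff hd.ne']
      exact hs
    rw [hh, a1]
    ring
  unfold sg
  rw [hk]
  exact Pl0_sign _ _ (mul_pos (div_pos hd2 hd) hd1)

theorem ab {i j q : Fin n} (hi : i ∈ P.S) (hj : j ∈ P.S) (hq : q ∈ P.S)
    (h1 : P.X i < P.X q) (h2 : P.X j < P.X q) {l l' : Finset (Fin n)} (hl : l ∈ P.D)
    (hl' : l' ∈ P.D) (hil : i ∈ l) (hql : q ∈ l) (hjl : j ∈ l') (hql' : q ∈ l') :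
    0 ≤ P.hgt j l ∨ 0 ≤ P.hgt i l' := by
  have e1 := (P.mem l hl i hi).1 hil
  have e2 := (P.mem l hl q hq).1 hql
  have e3 := (P.mem l' hl' j hj).1 hjl
  have e4 := (P.mem l' hl' q hq).1 hql'
  have a1 : P.hgt j l = (P.a l' - P.a l) * (P.X j - P.X q) := by
    unfold hgt
    linear_combination e3 - e4 + e2
  have a2 : P.hgt i l' = (P.a l - P.a l') * (P.X i - P.X q) := by
    unfold hgt
    linear_combination e1 - e2 + e4
  rw [a1, a2]
  rcases le_total (P.a l) (P.a l') with h | h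
  · right
    exact mul_nonneg_of_nonpos_of_nonpos (by linarith) (by linarith)
  · left
    exact mul_nonneg_of_nonpos_of_nonpos (by linarith) (by linarith)

end Pl

end H52.Dir
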