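import Pool.Agent.H52.Dir.PF

/-!
# Module RST (120 lines): few points see many other points on lines of medium size

PROOF. `H = {l ∈ Ls u : K ≤ |l|, |l| K ≤ n}`, `X` the filtered set of points, `x = |X|`,
`w l = |l ∩ X|`. If `K² > n` then `H` is empty (`K ≤ |l|`, `|l| K ≤ n`) and `X` is empty when
`n ≥ 1` (`ρ n > 0`; for `n = 0` everything is 0). Otherwise `K ≤ M := n / K` (natural division),
`|l| K ≤ n ↔ |l| ≤ M`, `M ≤ n / K` in the reals and `pf` gives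
`Σ_{l ∈ H} |l|² ≤ C₁ (n² / K + n M) ≤ 2 C₁ n² / K`.
(1) `ρ n x ≤ Σ_{p ∈ X} Σ_{l ∈ H, p ∈ l} (|l| - 1) = Σ_{l ∈ H} w l (|l| - 1)`.
(2) `Σ_{l ∈ H} (w l)² ≤ x² + 2 x n / K`: `Σ_{l ∈ H} w l (w l - 1) ≤ x (x - 1)` (every ordered pair of
different points of `X` is on at most one line) and `Σ_{l ∈ H} w l = Σ_{p ∈ X} #{l ∈ H : p ∈ l}` with
`(K - 1) #{l ∈ H : p ∈ l} ≤ Σ_{l ∋ p} (|l| - 1) = n - 1` (`sum_card_thr`), so it is `≤ x * 2 n / K`.
(3) Cauchy-Schwarz (`Finset.sum_mul_sq_le_sq_mul_sq`): `(ρ n x)² ≤ (x² + 2 x n / K) (2 C₁ n² / K)`. If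
`x > 0` divide by `n² x`: `ρ² x ≤ (2 C₁ / K) (x + 2 n / K)`. If `K ≥ 4 C₁ / ρ²` then
`2 C₁ / K ≤ ρ² / 2`, so `ρ² x / 2 ≤ 4 C₁ n / K²`, `x ≤ 8 C₁ n / (ρ² K²)`. `C = 8 C₁` works.
-/

set_option autoImplicit false

namespace H52.Dir

open Finset

private theorem RST_swap {n : ℕ} (u : Fin n → V) (P : Finset (Fin n) → Prop) [DecidablePred P]
    (X : Finset (Fin n)) (f : Finset (Fin n) → ℝ) :
    ∑ p ∈ X, ∑ l ∈ (thr u p).filter P, f l =
      ∑ l ∈ (Ls u).filter P, ((X.filter (fun p => p ∈ l)).card : ℝ) * f l := by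
  have h1 : ∑ p ∈ X, ∑ l ∈ (thr u p).filter P, f l =
      ∑ l ∈ (Ls u).filter P, ∑ p ∈ X.filter (fun p => p ∈ l), f l := by
    apply sum_comm'
    intro p l
    simp only [mem_filter, mem_thr]
    tauto
  rw [h1]
  apply sum_congr rfl
  intro l _
  rw [sum_const, nsmul_eq_mul]

private theorem RST_pairs {n : ℕ} {u : Fin n → V} (h : Cf u) (H : Finset (Finset (Fin n)))
    (hH : H ⊆ Ls u) (X : Finset (Fin n)) :
    ∑ l ∈ H, (X.filter (fun p => p ∈ l)).card * (X.filter (fun p => p ∈ l)).card ≤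
      X.card * X.card + ∑ l ∈ H, (X.filter (fun p => p ∈ l)).card := by
  have h1 : ∑ l ∈ H, (X.filter (fun p => p ∈ l)).offDiag.card ≤ X.offDiag.card := by
    rw [← card_biUnion]
    · apply card_le_card
      intro q hq
      rw [mem_biUnion] at hq
      obtain ⟨l, _, hl⟩ := hq
      rw [mem_offDiag, mem_filter, mem_filter] at hl
      rw [mem_offDiag]
      exact ⟨hl.1.1, hl.2.1.1, hl.2.2⟩
    · intro l hl l' hl' hne
      rw [Function.onFun, disjoint_left]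
      rintro ⟨a, b⟩ hab hab'
      rw [mem_offDiag, mem_filter, mem_filter] at hab hab'
      exact hne (uniq h (hH hl) (hH hl') hab.2.2 hab.1.2 hab.2.1.2 hab'.1.2 hab'.2.1.2)
  have h2 : ∀ s : Finset (Fin n), s.card * s.card = s.offDiag.card + s.card := by
    intro s
    rw [offDiag_card]
    have : s.card ≤ s.card * s.card := Nat.le_mul_self _
    omega
  rw [sum_congr rfl fun l _ => h2 (X.filter (fun p => p ∈ l)), sum_add_distrib]
  have h3 := h2 X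
  omega

private theorem RST_deg {n : ℕ} {u : Fin n → V} (h : Cf u) {K : ℕ} (hK : 2 ≤ K)
    (P : Finset (Fin n) → Prop) [DecidablePred P] (hP : ∀ l, P l → K ≤ l.card) (p : Fin n) :
    (((thr u p).filter P).card : ℝ) ≤ 2 * n / K := by
  have h1 := sum_card_thr h p
  have hK' : (2 : ℝ) ≤ K := by exact_mod_cast hK
  have h2 : (((thr u p).filter P).card : ℝ) * (K - 1) ≤
      ∑ l ∈ thr u p, ((l.card : ℝ) - 1) := by
    have h3 : ∑ l ∈ (thr u p).filter P, ((K : ℝ) - 1) ≤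
        ∑ l ∈ (thr u p).filter P, ((l.card : ℝ) - 1) := by
      apply sum_le_sum
      intro l hl
      have h4 : (K : ℝ) ≤ l.card := by exact_mod_cast hP l (mem_filter.1 hl).2
      linarith
    rw [sum_const, nsmul_eq_mul] at h3
    refine le_trans h3 (sum_le_sum_of_subset_of_nonneg (filter_subset _ _) ?_)
    intro l hl _
    have h4 : (2 : ℝ) ≤ l.card := by exact_mod_cast two_le (mem_thr.1 hl).1
    linarith
  rw [sum_sub_distrib, h1, sum_const, nsmul_eq_mul, mul_one] at h2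
  rw [le_div_iff₀ (by linarith)]
  have h5 : (0 : ℝ) ≤ (((thr u p).filter P).card : ℝ) := Nat.cast_nonneg _
  nlinarith

theorem rst : ∃ C : ℝ, 1 ≤ C ∧ ∀ (n : ℕ) (u : Fin n → V), Cf u → ∀ (ρ : ℝ) (K : ℕ), 0 < ρ → ρ ≤ 1 →
    2 ≤ K → C / ρ ^ 2 ≤ K →
    (((univ : Finset (Fin n)).filter (fun p => ρ * n ≤
      ∑ l ∈ (thr u p).filter (fun l => K ≤ l.card ∧ l.card * K ≤ n), ((l.card : ℝ) - 1))).card : ℝ) ≤
      C * n / (ρ ^ 2 * (K : ℝ) ^ 2) := by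
  obtain ⟨C₁, hC₁, hpf⟩ := pf
  refine ⟨max 1 (8 * C₁), le_max_left _ _, ?_⟩
  intro n u h ρ K hρ hρ1 hK hCK
  obtain ⟨C, hC⟩ : ∃ C, C = max 1 (8 * C₁) := ⟨_, rfl⟩
  rw [← hC] at hCK ⊢
  have hC8 : 8 * C₁ ≤ C := by
    rw [hC]
    exact le_max_right _ _
  obtain ⟨X, hX⟩ : ∃ X : Finset (Fin n), X = (univ : Finset (Fin n)).filter (fun p => ρ * n ≤
      ∑ l ∈ (thr u p).filter (fun l => K ≤ l.card ∧ l.card * K ≤ n), ((l.card : ℝ) - 1)) := ⟨_, rfl⟩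
  rw [← hX]
  have hKr : (0 : ℝ) < K := by
    have : 0 < K := by omega
    exact_mod_cast this
  have hn0 : (0 : ℝ) ≤ n := Nat.cast_nonneg n
  have hρ2 : 0 < ρ ^ 2 := by positivity
  have hR0 : 0 ≤ C * n / (ρ ^ 2 * (K : ℝ) ^ 2) := by
    apply div_nonneg
    · exact mul_nonneg (by linarith) hn0
    · positivity
  rcases X.eq_empty_or_nonempty with hXe | ⟨p0, hp0⟩
  · rw [hXe, card_empty, Nat.cast_zero]
    exact hR0
  have hnpos : (0 : ℝ) < n := by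
    have : 0 < n := Nat.pos_of_ne_zero (by rintro rfl; exact p0.elim0)
    exact_mod_cast this
  have hmemX : ∀ p ∈ X, ρ * n ≤
      ∑ l ∈ (thr u p).filter (fun l => K ≤ l.card ∧ l.card * K ≤ n), ((l.card : ℝ) - 1) := by
    intro p hp
    rw [hX, mem_filter] at hp
    exact hp.2
  have hK2 : K * K ≤ n := by
    have h1 := hmemX p0 hp0
    by_contra hcon
    have h2 : (thr u p0).filter (fun l => K ≤ l.card ∧ l.card * K ≤ n) = ∅ := by
      rw [filter_eq_empty_iff]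
      rintro l _ ⟨h3, h4⟩
      exact hcon (le_trans (Nat.mul_le_mul_right K h3) h4)
    rw [h2, sum_empty] at h1
    have := mul_pos hρ hnpos
    linarith
  have hKM : K ≤ n / K := (Nat.le_div_iff_mul_le (by omega)).2 hK2
  obtain ⟨H, hH⟩ : ∃ H, H = (Ls u).filter (fun l => K ≤ l.card ∧ l.card * K ≤ n) := ⟨_, rfl⟩
  have hHsub : H ⊆ Ls u := by
    rw [hH]
    exact filter_subset _ _
  have hsq : ∑ l ∈ H, ((l.card : ℝ)) ^ 2 ≤ 2 * C₁ * (n : ℝ) ^ 2 / K := by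
    have h1 := hpf n u h K (n / K) hK hKM
    have h2 : (Ls u).filter (fun l => K ≤ l.card ∧ l.card ≤ n / K) = H := by
      rw [hH]
      apply filter_congr
      intro l _
      rw [Nat.le_div_iff_mul_le (by omega)]
    rw [h2] at h1
    refine le_trans h1 ?_
    have h3 : ((n / K : ℕ) : ℝ) ≤ (n : ℝ) / K := Nat.cast_div_le
    have h4 : (n : ℝ) * ((n / K : ℕ) : ℝ) ≤ n * (n / K) := mul_le_mul_of_nonneg_left h3 hn0
    have h5 : (n : ℝ) * (n / K) = (n : ℝ) ^ 2 / K := by ring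
    rw [h5] at h4
    calc C₁ * ((n : ℝ) ^ 2 / K + (n : ℝ) * ((n / K : ℕ) : ℝ)) ≤
        C₁ * ((n : ℝ) ^ 2 / K + (n : ℝ) ^ 2 / K) := mul_le_mul_of_nonneg_left (by linarith) hC₁.le
      _ = _ := by ring
  obtain ⟨w, hw⟩ : ∃ w : Finset (Fin n) → ℕ, w = fun l => (X.filter (fun p => p ∈ l)).card := ⟨_, rfl⟩
  have h1 : ρ * n * X.card ≤ ∑ l ∈ H, (w l : ℝ) * ((l.card : ℝ) - 1) := by
    have h2 := RST_swap u (fun l => K ≤ l.card ∧ l.card * K ≤ n) X (fun l => (l.card : ℝ) - 1)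
    rw [hw, hH]
    rw [← h2]
    have h3 : ∑ p ∈ X, ρ * n ≤ ∑ p ∈ X,
        ∑ l ∈ (thr u p).filter (fun l => K ≤ l.card ∧ l.card * K ≤ n), ((l.card : ℝ) - 1) :=
      sum_le_sum hmemX
    rw [sum_const, nsmul_eq_mul] at h3
    linarith
  have hdeg : ∑ l ∈ H, (w l : ℝ) ≤ X.card * (2 * n / K) := by
    have h2 := RST_swap u (fun l => K ≤ l.card ∧ l.card * K ≤ n) X (fun l => (1 : ℝ))
    simp only [mul_one] at h2
    rw [hw, hH]
    rw [← h2]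
    have h3 : ∑ p ∈ X, ∑ l ∈ (thr u p).filter (fun l => K ≤ l.card ∧ l.card * K ≤ n), (1 : ℝ) ≤
        ∑ p ∈ X, (2 * n / K : ℝ) := by
      apply sum_le_sum
      intro p _
      rw [sum_const, nsmul_eq_mul, mul_one]
      exact RST_deg h hK (fun l => K ≤ l.card ∧ l.card * K ≤ n) (fun l hl => hl.1) p
    rw [sum_const, nsmul_eq_mul] at h3
    exact h3
  have hw2 : ∑ l ∈ H, (w l : ℝ) ^ 2 ≤ (X.card : ℝ) ^ 2 + X.card * (2 * n / K) := by
    have h2 := RST_pairs h H hHsub X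
    have h3 : ∑ l ∈ H, (w l : ℝ) * (w l : ℝ) ≤ (X.card : ℝ) * X.card + ∑ l ∈ H, (w l : ℝ) := by
      rw [hw]
      exact_mod_cast h2
    have h4 : ∑ l ∈ H, (w l : ℝ) ^ 2 = ∑ l ∈ H, (w l : ℝ) * (w l : ℝ) :=
      sum_congr rfl fun l _ => pow_two _
    rw [h4, pow_two]
    linarith
  have hl2 : ∑ l ∈ H, ((l.card : ℝ) - 1) ^ 2 ≤ 2 * C₁ * (n : ℝ) ^ 2 / K := by
    refine le_trans (sum_le_sum fun l hl => ?_) hsq
    have h4 : (2 : ℝ) ≤ l.card := by exact_mod_cast two_le (hHsub hl)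
    apply pow_le_pow_left₀ (by linarith) (by linarith)
  have hcs := sum_mul_sq_le_sq_mul_sq H (fun l => (w l : ℝ)) (fun l => (l.card : ℝ) - 1)
  have hx0 : (0 : ℝ) < X.card := by
    have : 0 < X.card := card_pos.2 ⟨p0, hp0⟩
    exact_mod_cast this
  obtain ⟨x, hx⟩ : ∃ x : ℝ, x = X.card := ⟨_, rfl⟩
  rw [← hx] at h1 hw2 hx0 ⊢
  obtain ⟨A, hA⟩ : ∃ A : ℝ, A = 1 / K := ⟨_, rfl⟩
  have hAK : A * K = 1 := by
    rw [hA]
    field_simp
  have hA0 : 0 < A := by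
    rw [hA]
    positivity
  have e1 : (2 * (n : ℝ) / K) = 2 * n * A := by
    rw [hA]
    ring
  have e2 : 2 * C₁ * (n : ℝ) ^ 2 / K = 2 * C₁ * (n : ℝ) ^ 2 * A := by
    rw [hA]
    ring
  rw [e1] at hw2
  rw [e2] at hl2
  have h5 : (ρ * n * x) ^ 2 ≤ (x ^ 2 + x * (2 * n * A)) * (2 * C₁ * (n : ℝ) ^ 2 * A) := by
    have h6 : (ρ * n * x) ^ 2 ≤ (∑ l ∈ H, (w l : ℝ) * ((l.card : ℝ) - 1)) ^ 2 :=
      pow_le_pow_left₀ (by positivity) h1 2
    refine le_trans h6 (le_trans hcs ?_)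
    apply mul_le_mul hw2 hl2
    · exact sum_nonneg fun l _ => sq_nonneg _
    · positivity
  have h7 : ρ ^ 2 * x ≤ 2 * C₁ * A * (x + 2 * n * A) := by
    have h8 : ((n : ℝ) ^ 2 * x) * (ρ ^ 2 * x) ≤ ((n : ℝ) ^ 2 * x) * (2 * C₁ * A * (x + 2 * n * A)) := by
      nlinarith
    exact le_of_mul_le_mul_left h8 (by positivity)
  have h9 : 8 * C₁ * A ≤ ρ ^ 2 := by
    have h10 : C ≤ K * ρ ^ 2 := (div_le_iff₀ hρ2).1 hCK
    have h11 : 8 * C₁ * A ≤ (K * ρ ^ 2) * A := mul_le_mul_of_nonneg_right (le_trans hC8 h10) hA0.le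
    have h12 : (K * ρ ^ 2) * A = ρ ^ 2 := by
      calc (K * ρ ^ 2) * A = (A * K) * ρ ^ 2 := by ring
        _ = ρ ^ 2 := by rw [hAK, one_mul]
    linarith
  have h13 : 8 * C₁ * A * x ≤ ρ ^ 2 * x := mul_le_mul_of_nonneg_right h9 hx0.le
  have h14 : ρ ^ 2 * x ≤ 8 * C₁ * n * A ^ 2 := by nlinarith
  rw [le_div_iff₀ (by positivity)]
  have h15 : (ρ ^ 2 * x) * (K : ℝ) ^ 2 ≤ (8 * C₁ * n * A ^ 2) * (K : ℝ) ^ 2 :=
    mul_le_mul_of_nonneg_right h14 (by positivity)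
  have h16 : (8 * C₁ * n * A ^ 2) * (K : ℝ) ^ 2 = 8 * C₁ * n := by
    calc (8 * C₁ * n * A ^ 2) * (K : ℝ) ^ 2 = 8 * C₁ * n * (A * K) ^ 2 := by ring
      _ = 8 * C₁ * n := by rw [hAK]; ring
  have h17 : 8 * C₁ * n ≤ C * n := mul_le_mul_of_nonneg_right hC8 hn0
  linarith

end H52.Dir
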