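import Pool.Agent.H52.Dir.Cht
import Pool.Agent.H64.BL.CL
import Pool.Agent.H64.BL.Cnt

/-!
# Module ST (80 lines): Szemeredi-Trotter for rich lines

PROOF. `H64.BL.cl` (crossing lemma) for the chart of `chart` and `H = {l ∈ Ls u : K ≤ |l|}`:
for every `r ≥ 1`: `2 r² Σ_{l ∈ H} |l| ≤ 2 r² n + 6 r³ |H| + Σ_{l ∈ Ls u \ H} |l| (|l| - 1)` and the
last sum is at most `n (n - 1) ≤ n²` (`sum_pair` with `f = 1`, or `H64.BL.LinSp.sum_pairs`).
Since `Σ_{l ∈ H} |l| ≥ K |H|`: for `K ≥ 6` take `r = K / 6` (natural division), so `6 r ≤ K`,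
`6 r³ |H| ≤ r² K |H|`, hence `r² K |H| ≤ 2 r² n + n²`, `|H| ≤ 2 n / K + n² / (r² K)` and
`r ≥ K / 12`: `|H| ≤ 2 n / K + 144 n² / K³`. For `2 ≤ K ≤ 5`: `2 |H| ≤ Σ |l| (|l| - 1) ≤ n²`,
so `|H| ≤ n² / 2 ≤ 125 n² / K³` (`K³ ≤ 125`). `C = 144` works.
-/

set_option autoImplicit false

namespace H52.Dir

open Finset

theorem st : ∃ C : ℝ, 0 < C ∧ ∀ (n : ℕ) (u : Fin n → V), Cf u → ∀ K : ℕ, 2 ≤ K →
    (((Ls u).filter (fun l => K ≤ l.card)).card : ℝ) ≤
      C * ((n : ℝ) ^ 2 / (K : ℝ) ^ 3 + (n : ℝ) / K) := by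
  refine ⟨144, by norm_num, ?_⟩
  intro n u h K hK
  obtain ⟨c, hc⟩ := chart h
  obtain ⟨H, hH⟩ : ∃ H, H = (Ls u).filter (fun l => K ≤ l.card) := ⟨_, rfl⟩
  rw [← hH]
  have hsub : H ⊆ (sp h).L := by
    rw [hH]
    exact filter_subset _ _
  have hT : ∑ l ∈ (sp h).L, l.card * (l.card - 1) = n * (n - 1) := by
    have h1 := (sp h).sum_pairs
    rw [Fintype.card_fin] at h1
    exact h1
  have hn2 : n * (n - 1) ≤ n ^ 2 := by
    rw [pow_two]
    exact Nat.mul_le_mul_left _ (Nat.sub_le _ _)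
  have hKl : ∀ l ∈ H, K ≤ l.card := by
    intro l hl
    rw [hH, mem_filter] at hl
    exact hl.2
  have hKr : (0 : ℝ) < K := by
    have : 0 < K := by omega
    exact_mod_cast this
  have hn0 : (0 : ℝ) ≤ n := Nat.cast_nonneg n
  have hN0 : (0 : ℝ) ≤ (H.card : ℝ) := Nat.cast_nonneg _
  have key : (H.card : ℝ) * (K : ℝ) ^ 3 ≤ 144 * ((n : ℝ) ^ 2 + n * (K : ℝ) ^ 2) := by
    by_cases hK6 : 6 ≤ K
    · obtain ⟨r, hr⟩ : ∃ r, r = K / 6 := ⟨_, rfl⟩
      have hr1 : 1 ≤ r := by omega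
      have hr6 : 6 * r ≤ K := by omega
      have hr12 : K ≤ 12 * r := by omega
      have h1 := H64.BL.cl c hc H hsub r hr1
      rw [Fintype.card_fin] at h1
      have h2 : ∑ l ∈ (sp h).L \ H, l.card * (l.card - 1) ≤ n ^ 2 := by
        refine le_trans (sum_le_sum_of_subset sdiff_subset) ?_
        rw [hT]
        exact hn2
      have h3 : H.card * K ≤ ∑ l ∈ H, l.card := by
        have := card_nsmul_le_sum H (fun l => l.card) K hKl
        rwa [smul_eq_mul] at this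
      have h4 : 2 * r ^ 2 * (H.card * K) ≤ 2 * r ^ 2 * n + 6 * r ^ 3 * H.card + n ^ 2 := by
        have := Nat.mul_le_mul_left (2 * r ^ 2) h3
        omega
      have h5 : 2 * (r : ℝ) ^ 2 * ((H.card : ℝ) * K) ≤
          2 * (r : ℝ) ^ 2 * n + 6 * (r : ℝ) ^ 3 * H.card + (n : ℝ) ^ 2 := by exact_mod_cast h4
      have a1 : (6 : ℝ) * r ≤ K := by exact_mod_cast hr6
      have a2 : (K : ℝ) ≤ 12 * r := by exact_mod_cast hr12
      have hr0 : (0 : ℝ) ≤ r := Nat.cast_nonneg r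
      have h6 : 6 * (r : ℝ) ^ 3 * H.card ≤ (r : ℝ) ^ 2 * ((H.card : ℝ) * K) := by
        have : (r : ℝ) ^ 2 * H.card * (6 * r) ≤ (r : ℝ) ^ 2 * H.card * K :=
          mul_le_mul_of_nonneg_left a1 (by positivity)
        nlinarith
      have h7 : (r : ℝ) ^ 2 * ((H.card : ℝ) * K) ≤ 2 * (r : ℝ) ^ 2 * n + (n : ℝ) ^ 2 := by
        linarith
      have h8 : (K : ℝ) ^ 2 ≤ 144 * (r : ℝ) ^ 2 := by
        have := pow_le_pow_left₀ hKr.le a2 2
        nlinarith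
      have h9 : 36 * (r : ℝ) ^ 2 ≤ (K : ℝ) ^ 2 := by
        have := pow_le_pow_left₀ (by positivity : (0 : ℝ) ≤ 6 * r) a1 2
        nlinarith
      have h10 : (H.card : ℝ) * (K : ℝ) ^ 3 ≤ 144 * ((r : ℝ) ^ 2 * ((H.card : ℝ) * K)) := by
        have : (K : ℝ) ^ 2 * ((H.card : ℝ) * K) ≤ 144 * (r : ℝ) ^ 2 * ((H.card : ℝ) * K) :=
          mul_le_mul_of_nonneg_right h8 (by positivity)
        nlinarith
      have h11 : 36 * (r : ℝ) ^ 2 * n ≤ (K : ℝ) ^ 2 * n := mul_le_mul_of_nonneg_right h9 hn0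
      have h12 : 0 ≤ (n : ℝ) * (K : ℝ) ^ 2 := by positivity
      nlinarith
    · have hK5 : K ≤ 5 := by omega
      have h1 : H.card * 2 ≤ ∑ l ∈ H, l.card * (l.card - 1) := by
        have := card_nsmul_le_sum H (fun l => l.card * (l.card - 1)) 2 (fun l hl => by
          have h2 := two_le (hsub hl)
          have h3 : 1 ≤ l.card - 1 := by omega
          exact Nat.mul_le_mul h2 h3)
        rwa [smul_eq_mul] at this
      have h2 : H.card * 2 ≤ n ^ 2 := by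
        refine le_trans h1 (le_trans (sum_le_sum_of_subset hsub) ?_)
        rw [hT]
        exact hn2
      have h3 : (H.card : ℝ) * 2 ≤ (n : ℝ) ^ 2 := by exact_mod_cast h2
      have h4 : (K : ℝ) ≤ 5 := by exact_mod_cast hK5
      have h5 : (K : ℝ) ^ 3 ≤ 125 := by
        have := pow_le_pow_left₀ hKr.le h4 3
        norm_num at this
        exact this
      have h6 : (H.card : ℝ) * (K : ℝ) ^ 3 ≤ (H.card : ℝ) * 125 :=
        mul_le_mul_of_nonneg_left h5 hN0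
      have h12 : 0 ≤ (n : ℝ) * (K : ℝ) ^ 2 := by positivity
      nlinarith
  have e1 : 144 * ((n : ℝ) ^ 2 / (K : ℝ) ^ 3 + (n : ℝ) / K) =
      144 * ((n : ℝ) ^ 2 + n * (K : ℝ) ^ 2) / (K : ℝ) ^ 3 := by
    field_simp
  rw [e1, le_div_iff₀ (by positivity)]
  exact key

end H52.Dir
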