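import Pool.Agent.H52.Dir.Ker

/-!
# Module Sq (90 lines): the sum of the squares `|Σ e^{2iθ}|²`

PROOF. `Σ_{l} sq u l = Σ_l Σ_{i ∈ l} (2 dot(u i)(u i)² - 1) + Σ_l Σ_{i ∈ l} Σ_{j ∈ l.erase i} (2 <u_i,u_j>² - 1)
= Σ_l |l| + Σ_i Σ_{j ≠ i} (2 <u_i,u_j>² - 1)` (`sum_pair`), `Σ_l |l| = Σ_i T_i` (`sum_swap`), and
`Σ_i Σ_{j ≠ i} (2 <u_i,u_j>² - 1) = 2 Σ_{i,j} <u_i,u_j>² - 2 n - n (n - 1)`. By `iso` with `y = u j`:
`Σ_i <u_i,u_j>² ≤ (1/3 + ε) n`. So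
`Σ sq = Σ T_i + 2 Σ <u_i,u_j>² - n² - n`.
`sum_sq`: `T_i ≤ (1/3 + ε) n` gives `Σ sq ≤ (1/3 + ε) n² + 2 (1/3 + ε) n² - n² - n ≤ 3 ε n²`.
`sum_T0`: `Σ sq ≥ 0` (`sq_nonneg'`) gives `Σ T_i ≥ n² + n - 2 (1/3 + ε) n²` (only the upper bound in the
isotropy is used). `sum_T` follows.
-/

set_option autoImplicit false

namespace H52.Dir

open Finset

variable {n : ℕ}

private theorem sq_total {u : Fin n → V} (h : Cf u) :
    ∑ l ∈ Ls u, sq u l = ∑ i, ((thr u i).card : ℝ) + 2 * ∑ j, ∑ i, (dot (u i) (u j)) ^ 2 -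
      (n : ℝ) ^ 2 - n := by
  have h1 : ∀ l ∈ Ls u, sq u l = (∑ _i ∈ l, (1 : ℝ)) +
      ∑ i ∈ l, ∑ j ∈ l.erase i, (2 * (dot (u i) (u j)) ^ 2 - 1) := by
    intro l _
    unfold sq
    rw [← sum_add_distrib]
    refine sum_congr rfl fun i hi => ?_
    rw [← add_sum_erase l _ hi, h.unit i]
    norm_num
  rw [sum_congr rfl h1, sum_add_distrib, sum_pair h (fun i j => 2 * (dot (u i) (u j)) ^ 2 - 1),
    ← sum_swap u (fun _ _ => (1 : ℝ))]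
  have h2 : ∀ i : Fin n, ∑ _l ∈ thr u i, (1 : ℝ) = ((thr u i).card : ℝ) := by
    intro i
    rw [sum_const, nsmul_eq_mul, mul_one]
  rw [sum_congr rfl fun i _ => h2 i]
  have h3 : ∀ i : Fin n, ∑ j ∈ univ.erase i, (2 * (dot (u i) (u j)) ^ 2 - 1) =
      2 * ∑ j, (dot (u j) (u i)) ^ 2 - n - 1 := by
    intro i
    have h4 := add_sum_erase univ (fun j => 2 * (dot (u i) (u j)) ^ 2 - 1) (mem_univ i)
    simp only [h.unit i] at h4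
    have h5 : ∑ j, (2 * (dot (u i) (u j)) ^ 2 - 1) = 2 * ∑ j, (dot (u j) (u i)) ^ 2 - n := by
      rw [sum_sub_distrib, ← mul_sum]
      have h6 : ∀ j, (dot (u i) (u j)) ^ 2 = (dot (u j) (u i)) ^ 2 := by
        intro j
        unfold dot
        ring
      rw [sum_congr rfl fun j _ => h6 j]
      simp
    linarith
  rw [sum_congr rfl fun i _ => h3 i, sum_sub_distrib, sum_sub_distrib, ← mul_sum]
  simp only [sum_const, card_univ, Fintype.card_fin, nsmul_eq_mul]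
  ring

private theorem sq_iso {u : Fin n → V} {ε : ℝ} (h : Cf u)
    (hiso : ∀ y : V, dot y y = 1 → ∑ i, (dot (u i) y) ^ 2 ≤ (1 / 3 + ε) * n) :
    ∑ j, ∑ i, (dot (u i) (u j)) ^ 2 ≤ (1 / 3 + ε) * (n : ℝ) ^ 2 := by
  calc ∑ j, ∑ i, (dot (u i) (u j)) ^ 2 ≤ ∑ _j : Fin n, (1 / 3 + ε) * (n : ℝ) :=
        sum_le_sum fun j _ => hiso (u j) (h.unit j)
    _ = (1 / 3 + ε) * (n : ℝ) ^ 2 := by
        rw [sum_const, card_univ, Fintype.card_fin, nsmul_eq_mul]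
        ring

private theorem sq_iso' {u : Fin n → V} {ε : ℝ} (h : Good u ε) (y : V) (hy : dot y y = 1) :
    ∑ i, (dot (u i) y) ^ 2 ≤ (1 / 3 + ε) * n := by
  have := (abs_le.1 (h.iso y hy)).2
  linarith

theorem sum_sq {u : Fin n → V} {ε : ℝ} (h : Good u ε) :
    ∑ l ∈ Ls u, sq u l ≤ 3 * ε * (n : ℝ) ^ 2 := by
  rw [sq_total h.toCf]
  have h1 := sq_iso h.toCf (sq_iso' h)
  have h2 : ∑ i, ((thr u i).card : ℝ) ≤ (1 / 3 + ε) * (n : ℝ) ^ 2 := by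
    calc ∑ i, ((thr u i).card : ℝ) ≤ ∑ _i : Fin n, (1 / 3 + ε) * (n : ℝ) :=
          sum_le_sum fun i _ => h.T i
      _ = (1 / 3 + ε) * (n : ℝ) ^ 2 := by
          rw [sum_const, card_univ, Fintype.card_fin, nsmul_eq_mul]
          ring
  have h3 : (0 : ℝ) ≤ n := Nat.cast_nonneg n
  linarith

theorem sum_T0 {u : Fin n → V} {ε : ℝ} (h : Cf u)
    (hiso : ∀ y : V, dot y y = 1 → ∑ i, (dot (u i) y) ^ 2 ≤ (1 / 3 + ε) * n) :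
    (1 / 3 - 2 * ε) * (n : ℝ) ^ 2 + n ≤ ∑ i, ((thr u i).card : ℝ) := by
  have h1 := sq_iso h hiso
  have h2 := sq_total h
  have h3 : 0 ≤ ∑ l ∈ Ls u, sq u l := sum_nonneg fun l hl => sq_nonneg' h hl
  linarith

theorem sum_T {u : Fin n → V} {ε : ℝ} (h : Good u ε) :
    (1 / 3 - 2 * ε) * (n : ℝ) ^ 2 ≤ ∑ i, ((thr u i).card : ℝ) := by
  have h1 := sum_T0 h.toCf (sq_iso' h)
  have h3 : (0 : ℝ) ≤ n := Nat.cast_nonneg n
  linarith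

end H52.Dir
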