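import Pool.Agent.H52.Dir.Bas
import Pool.Agent.H52.Dir.Pl

/-!
# Module ToPl (140 lines): the planar system of a configuration in the chart `(u 1/u 0, u 2/u 0)`

`nr η x y`: the plane of `x, y` has slope at most `η` in the chart: with `w = crs x y`, `w 2 ≠ 0` and
`|w 1| ≤ η |w 2|`. `Dl u η`: the connecting lines with this property.

PROOF. Cross products of two pairs of points of the same line are parallel (all orthogonal to the
plane), so `nr` for one pair of different points of `l` gives it for all (`nr_line`: for `i ≠ j`,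
`i' ≠ j'` in `l`, `det (u i) (u j) (u i') = det (u i) (u j) (u j') = 0`, so
`crs (u i') (u j') = t • crs (u i) (u j)` with `t ≠ 0`).
For `l ∈ Dl u η` choose `i ≠ j` in `l` and `w = crs (u i) (u j)`; put `a l = - w 1 / w 2`,
`b l = - w 0 / w 2`. For `k` with `u k 0 ≠ 0`: `k ∈ l` iff `dot w (u k) = 0` (`eq_ln`, `mem_ln`) iff
`u k 2 / u k 0 = a l * (u k 1 / u k 0) + b l`. `|a l| ≤ η`.
`inj`: equal coordinates in the chart give parallel vectors, `crs = 0`, against `ind`.
`ex`: `X i - X j = (u i 1 * u j 0 - u j 1 * u i 0) / (u i 0 * u j 0)`, similarly `Y`, so the two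
conditions on `X, Y` are exactly `nr η (u i) (u j)`, and the line is `ln u i j ∈ Dl u η`.
-/

set_option autoImplicit false

namespace H52.Dir

open Finset

variable {n : ℕ}

/-- near pair: the plane of `x, y` has slope at most `η` -/
def nr (η : ℝ) (x y : V) : Prop :=
  x 0 * y 1 - x 1 * y 0 ≠ 0 ∧ |x 2 * y 0 - x 0 * y 2| ≤ η * |x 0 * y 1 - x 1 * y 0|

open Classical in
/-- the connecting lines of slope at most `η` -/
noncomputable def Dl (u : Fin n → V) (η : ℝ) : Finset (Finset (Fin n)) :=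
  (Ls u).filter (fun l => ∀ i ∈ l, ∀ j ∈ l, i ≠ j → nr η (u i) (u j))

private theorem toPl_nr_tr {η : ℝ} {a b x y : V} (h : nr η a b) (hx : det a b x = 0)
    (hy : det a b y = 0) (hc : crs x y ≠ 0) : nr η x y := by
  obtain ⟨hw, hwη⟩ := h
  rw [det_eq] at hx hy
  set w0 := a 1 * b 2 - a 2 * b 1
  set w1 := a 2 * b 0 - a 0 * b 2
  set w2 := a 0 * b 1 - a 1 * b 0
  have e1 : (x 2 * y 0 - x 0 * y 2) * w2 = (x 0 * y 1 - x 1 * y 0) * w1 := by
    linear_combination y 0 * hx - x 0 * hy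
  have e2 : (x 0 * y 1 - x 1 * y 0) * w0 = (x 1 * y 2 - x 2 * y 1) * w2 := by
    linear_combination y 1 * hx - x 1 * hy
  have hne : x 0 * y 1 - x 1 * y 0 ≠ 0 := by
    intro h0
    rw [h0, zero_mul] at e1 e2
    have h1 := (mul_eq_zero.1 e1).resolve_right hw
    have h2 := (mul_eq_zero.1 e2.symm).resolve_right hw
    apply hc
    funext j
    fin_cases j
    · simpa [crs] using h2
    · simpa [crs] using h1
    · simpa [crs] using h0
  refine ⟨hne, ?_⟩
  have hw' : 0 < |w2| := abs_pos.2 hw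
  have e3 : |x 2 * y 0 - x 0 * y 2| * |w2| = |x 0 * y 1 - x 1 * y 0| * |w1| := by
    rw [← abs_mul, ← abs_mul, e1]
  have e4 : |x 0 * y 1 - x 1 * y 0| * |w1| ≤ |x 0 * y 1 - x 1 * y 0| * (η * |w2|) :=
    mul_le_mul_of_nonneg_left hwη (abs_nonneg _)
  apply le_of_mul_le_mul_right _ hw'
  calc |x 2 * y 0 - x 0 * y 2| * |w2| = |x 0 * y 1 - x 1 * y 0| * |w1| := e3
    _ ≤ |x 0 * y 1 - x 1 * y 0| * (η * |w2|) := e4
    _ = η * |x 0 * y 1 - x 1 * y 0| * |w2| := by ring

private theorem toPl_nr_iff {η : ℝ} {x y : V} (hx : x 0 ≠ 0) (hy : y 0 ≠ 0) :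
    (x 1 / x 0 ≠ y 1 / y 0 ∧ |x 2 / x 0 - y 2 / y 0| ≤ η * |x 1 / x 0 - y 1 / y 0|) ↔
      nr η x y := by
  have hD : 0 < |x 0 * y 0| := abs_pos.2 (mul_ne_zero hx hy)
  have e1 : x 1 / x 0 - y 1 / y 0 = -(x 0 * y 1 - x 1 * y 0) / (x 0 * y 0) := by
    field_simp
    ring
  have e2 : x 2 / x 0 - y 2 / y 0 = (x 2 * y 0 - x 0 * y 2) / (x 0 * y 0) := by
    field_simp
  rw [e1, e2, abs_div, abs_div, abs_neg, ← mul_div_assoc, div_le_div_iff_of_pos_right hD]
  unfold nr
  apply and_congr_left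
  intro _
  rw [Ne, Ne, ← sub_eq_zero, e1, div_eq_zero_iff]
  constructor
  · intro h h'
    exact h (Or.inl (by rw [h', neg_zero]))
  · intro h h'
    rcases h' with h' | h'
    · exact h (neg_eq_zero.1 h')
    · exact mul_ne_zero hx hy h'

theorem nr_line {u : Fin n → V} (h : Cf u) {η : ℝ} {l : Finset (Fin n)} (hl : l ∈ Ls u)
    {i j : Fin n} (hi : i ∈ l) (hj : j ∈ l) (hij : i ≠ j) (hn : nr η (u i) (u j)) :
    l ∈ Dl u η := by
  classical
  unfold Dl
  rw [mem_filter]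
  refine ⟨hl, fun i' hi' j' hj' hij' => ?_⟩
  exact toPl_nr_tr hn (det_col h hl hi hj hi') (det_col h hl hi hj hj') (h.ind i' j' hij')

private theorem toPl_ex {u : Fin n → V} (h : Cf u) {η : ℝ} {l : Finset (Fin n)}
    (hl : l ∈ Dl u η) : ∃ A B : ℝ, |A| ≤ η ∧ ∀ k, u k 0 ≠ 0 →
      (k ∈ l ↔ u k 2 / u k 0 = A * (u k 1 / u k 0) + B) := by
  classical
  unfold Dl at hl
  rw [mem_filter] at hl
  obtain ⟨hlL, hnr⟩ := hl
  obtain ⟨i, hi, j, hj, hij⟩ := Finset.one_lt_card.1 (two_le hlL)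
  obtain ⟨hw, hwη⟩ := hnr i hi j hj hij
  have hmem : ∀ k, k ∈ l ↔ det (u i) (u j) (u k) = 0 := by
    intro k
    rw [eq_ln h hlL hi hj hij, mem_ln]
  simp only [det_eq] at hmem
  set w0 := u i 1 * u j 2 - u i 2 * u j 1
  set w1 := u i 2 * u j 0 - u i 0 * u j 2
  set w2 := u i 0 * u j 1 - u i 1 * u j 0
  refine ⟨-w1 / w2, -w0 / w2, ?_, fun k hk => ?_⟩
  · rw [abs_div, abs_neg, div_le_iff₀ (abs_pos.2 hw)]
    exact hwη
  · rw [hmem]
    constructor
    · intro h0
      field_simp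
      linear_combination h0
    · intro h0
      field_simp at h0
      linear_combination h0

theorem toPl {u : Fin n → V} (h : Cf u) {η : ℝ} (hη : 0 < η) (S : Finset (Fin n))
    (hS : ∀ i ∈ S, u i 0 ≠ 0) :
    ∃ P : Pl n, P.S = S ∧ P.X = (fun i => u i 1 / u i 0) ∧ P.Y = (fun i => u i 2 / u i 0) ∧
      P.η = η ∧ P.D = Dl u η := by
  classical
  have hex : ∀ l : Finset (Fin n), ∃ A B : ℝ, l ∈ Dl u η → |A| ≤ η ∧ ∀ k, u k 0 ≠ 0 →
      (k ∈ l ↔ u k 2 / u k 0 = A * (u k 1 / u k 0) + B) := by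
    intro l
    by_cases hl : l ∈ Dl u η
    · obtain ⟨A, B, h1⟩ := toPl_ex h hl
      exact ⟨A, B, fun _ => h1⟩
    · exact ⟨0, 0, fun h1 => absurd h1 hl⟩
  choose a b hab using hex
  have hD : ∀ l ∈ Dl u η, l ∈ Ls u := by
    intro l hl
    unfold Dl at hl
    exact (mem_filter.1 hl).1
  refine ⟨
    { S := S
      X := fun i => u i 1 / u i 0
      Y := fun i => u i 2 / u i 0
      η := η
      D := Dl u η
      a := a
      b := b
      hη := hη
      sl := fun l hl => (hab l hl).1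
      mem := fun l hl i hi => (hab l hl).2 i (hS i hi)
      inj := ?_
      ex := ?_
      two := fun l hl => two_le (hD l hl)
      uniq := fun l hl l' hl' i j hij hi hj hi' hj' =>
        uniq h (hD l hl) (hD l' hl') hij hi hj hi' hj' }, rfl, rfl, rfl, rfl, rfl⟩
  · intro i hi j hj hX hY
    have hX' : u i 1 / u i 0 = u j 1 / u j 0 := hX
    have hY' : u i 2 / u i 0 = u j 2 / u j 0 := hY
    by_contra hij
    apply h.ind i j hij
    have hi0 := hS i hi
    have hj0 := hS j hj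
    rw [div_eq_div_iff hi0 hj0] at hX' hY'
    have h0 : u i 1 * u j 2 - u i 2 * u j 1 = 0 := by
      apply mul_left_cancel₀ (mul_ne_zero hi0 hj0)
      linear_combination (u j 2 * u i 0) * hX' - (u j 1 * u i 0) * hY'
    funext t
    fin_cases t
    · simpa [crs] using h0
    · simp only [crs]
      show u i 2 * u j 0 - u i 0 * u j 2 = 0
      linear_combination hY'
    · simp only [crs]
      show u i 0 * u j 1 - u i 1 * u j 0 = 0
      linear_combination -hX'
  · intro i hi j hj hX hY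
    have hij : i ≠ j := by
      rintro rfl
      exact hX rfl
    have hn : nr η (u i) (u j) := (toPl_nr_iff (hS i hi) (hS j hj)).1 ⟨hX, hY⟩
    exact ⟨ln u i j, nr_line h (ln_mem u hij) (ln_left u i j) (ln_right u i j) hij hn,
      ln_left u i j, ln_right u i j⟩

/-- nearness in the planar system -/
theorem pl_nr {u : Fin n → V} {P : Pl n} {η : ℝ} (hX : P.X = (fun i => u i 1 / u i 0))
    (hY : P.Y = (fun i => u i 2 / u i 0)) (hη : P.η = η) {i j : Fin n} (hi : u i 0 ≠ 0)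
    (hj : u j 0 ≠ 0) : P.nr i j ↔ nr η (u i) (u j) := by
  unfold Pl.nr
  rw [hX, hY, hη]
  exact toPl_nr_iff hi hj

end H52.Dir
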